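import Pool.Agent.H612.EAR

/-!
# The complexity class `∀∃ℝ`
-/

namespace Pool.Agent.NPC.ER.Q325A

open Pool.Agent.NPC.H612

/-- The sentence `∀ x ∃ y, φ` is true over the real numbers; here `p = (A, φ)`, where `A` is the
list of the universally quantified variables, all the other variables are existentially
quantified, and `φ` is quantifier-free. -/
def AER (p : List ℕ × Fm) : Prop := ∀ x : ℕ → ℝ, ∃ y : ℕ → ℝ, p.2.Holds (mixv p.1 x y)

/-- The class `∀∃ℝ`: a language `L` belongs to it if some polynomial-time function maps every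
string `w` to a sentence `∀ x ∃ y, φ` which is true over the reals if and only if `w ∈ L`. -/
def InAER (L : Set (List Bool)) : Prop :=
  ∃ f : List Bool → List ℕ × Fm, PolyTime (fun w => bits (f w)) ∧ ∀ w, w ∈ L ↔ AER (f w)

/-- `∀∃ℝ`-hardness under polynomial-time many-one reductions. -/
def AERHard (L : Set (List Bool)) : Prop := ∀ L', InAER L' → Reduces L' L

/-- `∀∃ℝ`-completeness under polynomial-time many-one reductions. -/
def AERComplete (L : Set (List Bool)) : Prop := InAER L ∧ AERHard L

/-- Membership in `∀∃ℝ` by a polynomial-time translation. -/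
theorem InAER.of_poly {α : Type} [TEnc α] [TDec α] {P : α → Prop} {f : α → List ℕ × Fm}
    (h : Poly f) (hP : ∀ a, P a ↔ AER (f a)) : InAER (lang P) := by
  refine ⟨fun w => (match unbits α w with | none => (([] : List ℕ), Fm.ff) | some a => f a),
    ?_, fun w => ?_⟩
  · have h1 : Poly (fun w : List Bool =>
        (match unbits α w with | none => (([] : List ℕ), Fm.ff) | some a => f a)) :=
      Poly.optCases (g := fun _ => (([] : List ℕ), Fm.ff)) (h := fun _ a => f a) poly_unbits
        (Poly.const _) (h.comp (Poly.snd Poly.id))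
    exact polyTime_bits h1
  · rw [mem_lang_iff]
    cases hx : unbits α w with
    | none =>
      simp only [hx, reduceCtorEq, false_and, exists_false, false_iff]
      intro h
      obtain ⟨y, h⟩ := h fun _ => 0
      exact lt_irrefl _ h
    | some a => simp only [hx]; simp [hP a]

/-- Hardness for `∀∃ℝ`. -/
theorem AERHard.of_poly {α : Type} [TEnc α] {P : α → Prop} {F : List ℕ × Fm → α} (hF : Poly F)
    (h : ∀ p, AER p ↔ P (F p)) : AERHard (lang P) := by
  rintro L' ⟨g, hg, hL⟩
  have h1 : PC (id : List Bool → List Bool) (bits : List ℕ × Fm → List Bool) g :=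
    H642R2.TMSim.polyTime_toPC hg
  have h3 : PC (id : List Bool → List Bool) (bits : α → List Bool) (fun x => F (g x)) :=
    PC.comp (g := F) (eb := (bits : List ℕ × Fm → List Bool)) hF h1
  have h4 : PC (id : List Bool → List Bool) (id : List Bool → List Bool)
    (fun x => bits (F (g x))) := h3
  refine ⟨fun x => bits (F (g x)), PC.toPolyTime h4, fun x => ?_⟩
  rw [hL, h, bits_mem_lang]

/-- The truth of `∀ x ∃ y, φ` in terms of the system of constraints of `φ`. -/
theorem aer_iff_sys (p : List ℕ × Fm) : AER p ↔ ∀ x : ℕ → ℝ, ∃ v : ℕ → ℝ,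
    (∀ i ∈ p.1, v (2 * i) = x i) ∧ SysHolds v (sysOf p.2) := by
  obtain ⟨E, φ⟩ := p
  constructor
  · intro h x
    obtain ⟨y, hy⟩ := h x
    obtain ⟨v, h1, h2⟩ := (sysOf_spec φ).2 (mixv E x y) hy
    refine ⟨v, fun i hi => ?_, h2⟩
    rw [h1]
    simp only [mixv]
    rw [if_pos hi]
  · intro h x
    obtain ⟨v, hv, hs⟩ := h x
    have h1 := (sysOf_spec φ).1 v hs
    refine ⟨fun i => v (2 * i), ?_⟩
    have h3 : mixv E x (fun i => v (2 * i)) = fun i => v (2 * i) := by
      funext i
      unfold mixv
      split_ifs with hi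
      · exact (hv i hi).symm
      · rfl
    simp only [h3]
    exact h1

end Pool.Agent.NPC.ER.Q325A
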