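import Pool.Agent.H43R3.SN.SRC
import Pool.Agent.H243R3.SN.Poly

/-!
# Hardness from bin packing with numbers in unary

A convenient form of the hardness of bin packing with numbers in unary: reductions from triples
`(a, b, B)` with `∑ a = b B`, `b ≥ 1` and all sizes positive.
-/

set_option autoImplicit false

open Finset

namespace Pool.Agent.NPC.Q325BP

open Pool.Agent.NPC Pool.Agent.NPC.SNP
open Pool.Agent.H43R3.SN (sizes bb BB BPk)

/-- the reduction -/
def red {β : Type} (G : List ℕ → ℕ → ℕ → β) (no : β) (I : Inst) : β :=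
  if tst I then G (sizes (clip I)) (bb (clip I)) (BB (clip I)) else no

theorem sizes_pos (I : Inst) : ∀ x ∈ sizes I, 1 ≤ x := by
  intro x hx
  unfold sizes at hx
  rw [List.mem_map] at hx
  obtain ⟨e, _, rfl⟩ := hx
  have h3 : 1 ≤ Pool.Agent.H43R3.SN.MM I.1.length I.2 := by
    unfold Pool.Agent.H43R3.SN.MM; omega
  have h4 : 1 ≤ Pool.Agent.H43R3.SN.wt e.1 := by
    unfold Pool.Agent.H43R3.SN.wt; split_ifs <;> norm_num
  have h5 : 1 ≤ Pool.Agent.H43R3.SN.MM I.1.length I.2 * Pool.Agent.H43R3.SN.wt e.1 :=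
    Nat.one_le_iff_ne_zero.2 (by
      intro h; rcases Nat.mul_eq_zero.1 h with h | h <;> omega)
  refine le_min ?_ (by omega)
  unfold Pool.Agent.H43R3.SN.sz
  omega

theorem poly_red {β : Type} [TEnc β] {G : List ℕ → ℕ → ℕ → β} (no : β)
    (hG : Poly (fun I : Inst => G (sizes (clip I)) (bb (clip I)) (BB (clip I)))) :
    Poly (red G no) :=
  Poly.ite (β := β) (p := tst) poly_tst hG (Poly.const (β := β) no)

/-- **Hardness from bin packing.** -/
theorem hard_of_BP {β : Type} [TEnc β] (P : β → Prop) (G : List ℕ → ℕ → ℕ → β) (no : β)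
    (hno : ¬ P no)
    (hG : Poly (fun I : Inst => G (sizes (clip I)) (bb (clip I)) (BB (clip I))))
    (h : ∀ (a : List ℕ) (b B : ℕ), 1 ≤ b → (∀ x ∈ a, 1 ≤ x) → a.sum = b * B →
      (BPk a b B ↔ P (G a b B))) : NPHardP P := by
  refine (Pool.Agent.H557R2.Tri.hardPr_X3Cr.trans (Pr' := fun _ => True) (poly_red no hG)
    (fun _ _ => trivial) ?_).toHardI.toNPHardP
  intro I hI
  rw [Pool.Agent.H43R3.SN.SRC.taskSRC I hI]
  have hbd : bd I = I := by
    unfold bd
    rw [Nat.min_eq_left (q_le hI)]
  have hb : 1 ≤ bb I := by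
    have := hI.ne
    have h2 : 0 < I.1.length := List.length_pos_iff.2 this
    unfold Pool.Agent.H43R3.SN.bb
    omega
  unfold red
  by_cases ht : tst I
  · have ht' : (sizes I).sum = bb I * BB I := by
      have := ht
      unfold tst at this
      rwa [hbd] at this
    have hc : clip I = I := by unfold clip; rw [if_pos ht, hbd]
    rw [if_pos ht, hc, ← h _ _ _ hb (sizes_pos I) ht']
    exact ⟨fun hx => hx.2, fun hx => ⟨ht', hx⟩⟩
  · rw [if_neg ht]
    constructor
    · rintro ⟨h1, _⟩
      refine absurd ?_ ht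
      unfold tst
      rw [hbd]
      exact h1
    · intro h1
      exact absurd h1 hno

/-- the sizes of the instance are polynomially bounded -/
theorem clip_le (I : Inst) : ∀ x ∈ sizes (clip I), x ≤ bb (clip I) * BB (clip I) := by
  intro x hx
  rw [← (clip_tst I).1]
  exact List.single_le_sum (by simp) _ hx

theorem usum : UPoly (fun I : Inst => bb (clip I) * BB (clip I)) := UPoly.mul ubb uBB

theorem psizes : Poly (fun I : Inst => sizes (clip I)) := poly_sizes.comp poly_clip

end Pool.Agent.NPC.Q325BP
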