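import Pool.Agent.ER.Hard

/-!
# Minimum rank with a constant rank bound is `∃ℝ`-hard

Variable matrices are lists of rows, each entry being a rational constant or a variable.
A system of constraints `x = 1`, `x + y = z`, `x * y = z` is translated to a matrix
`[[I_r, X], [Y, W]]` with `r ≥ 2`, whose rank is at most `r` if and only if `W = Y X`; the diagonal
entries of `W` are prescribed by the constraints and the others are new variables.
-/

namespace Pool.Agent.NPC.ER.Q325MR

/-- An entry of a variable matrix: a rational constant or a variable. -/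
abbrev Entry : Type := ℚ ⊕ ℕ

/-- The value of an entry when the variables take the real values `x`. -/
def entryVal (x : ℕ → ℝ) : Entry → ℝ
  | Sum.inl q => (q : ℝ)
  | Sum.inr i => x i

/-- The real matrix obtained from the variable matrix `M` (a list of rows) by giving the variables
the real values `x`. -/
def valMatrix (M : List (List Entry)) (x : ℕ → ℝ) : Matrix (Fin M.length) (Fin M.length) ℝ :=
  fun i j => entryVal x ((M.getD i []).getD j (Sum.inl 0))

/-- `MinRank_r`: the list of rows `M` is a square variable matrix, and for some real values of the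
variables its rank is at most `r`. -/
def MinRank (r : ℕ) (M : List (List Entry)) : Prop :=
  (∀ row ∈ M, row.length = M.length) ∧ ∃ x : ℕ → ℝ, (valMatrix M x).rank ≤ r

/-! ### The linear algebra -/

/-- A matrix containing the identity matrix in the first `r` rows and columns has rank at most `r`
iff all the other entries are determined by the first `r` rows and columns. -/
theorem rank_le_iff {n r : ℕ} (hr : r ≤ n) (M : Matrix (Fin n) (Fin n) ℝ)
    (hI : ∀ i j : Fin r, M (Fin.castLE hr i) (Fin.castLE hr j) = if i = j then 1 else 0) :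
    M.rank ≤ r ↔ ∀ i j : Fin n, M i j =
      ∑ k : Fin r, M i (Fin.castLE hr k) * M (Fin.castLE hr k) j := by
  constructor
  · intro h i j
    set e : Fin r → Fin n := Fin.castLE hr with he
    have hli : LinearIndependent ℝ (fun k : Fin r => M (e k)) := by
      rw [Fintype.linearIndependent_iff]
      intro g hg k
      have h1 := congrFun hg (e k)
      simp only [Finset.sum_apply, Pi.smul_apply, smul_eq_mul, Pi.zero_apply] at h1
      have h2 : ∀ l : Fin r, g l * M (e l) (e k) = if l = k then g l else 0 := by
        intro l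
        rw [hI l k]
        split_ifs <;> simp
      rw [Finset.sum_congr rfl fun l _ => h2 l] at h1
      simpa using h1
    have hsp : Submodule.span ℝ (Set.range fun k : Fin r => M (e k)) =
        Submodule.span ℝ (Set.range M.row) := by
      apply Submodule.eq_of_le_of_finrank_le
      · apply Submodule.span_mono
        rintro _ ⟨k, rfl⟩
        exact ⟨e k, rfl⟩
      · rw [finrank_span_eq_card hli, Fintype.card_fin, ← Matrix.rank_eq_finrank_span_row]
        exact h
    have hmem : M i ∈ Submodule.span ℝ (Set.range fun k : Fin r => M (e k)) := by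
      rw [hsp]
      exact Submodule.subset_span ⟨i, rfl⟩
    obtain ⟨c, hc⟩ := (Submodule.mem_span_range_iff_exists_fun ℝ).1 hmem
    have hc' : ∀ j, M i j = ∑ k, c k * M (e k) j := by
      intro j
      rw [← hc]
      simp
    have hck : ∀ k, c k = M i (e k) := by
      intro k
      rw [hc' (e k)]
      have h2 : ∀ l : Fin r, c l * M (e l) (e k) = if l = k then c l else 0 := by
        intro l
        rw [hI l k]
        split_ifs <;> simp
      rw [Finset.sum_congr rfl fun l _ => h2 l]
      simp
    rw [hc' j]
    exact Finset.sum_congr rfl fun k _ => by rw [hck k]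
  · intro h
    have hM : M = (Matrix.of fun (i : Fin n) (k : Fin r) => M i (Fin.castLE hr k)) *
        (Matrix.of fun (k : Fin r) (j : Fin n) => M (Fin.castLE hr k) j) := by
      ext i j
      rw [Matrix.mul_apply, h i j]
      rfl
    rw [hM]
    refine (Matrix.rank_mul_le_left _ _).trans ?_
    refine (Matrix.rank_le_card_width _).trans ?_
    simp

/-! ### The reduction -/

/-- Entry `X_{i,c}`, `i < r`, of the column of a constraint. -/
def xEnt (c : Con) (i : ℕ) : Entry :=
  match c with
  | Con.one _ => if i = 0 then Sum.inl 1 else Sum.inl 0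
  | Con.add _ _ _ => if i = 0 ∨ i = 1 then Sum.inl 1 else Sum.inl 0
  | Con.mul _ b _ => if i = 0 then Sum.inr (2 * b) else Sum.inl 0

/-- Entry `Y_{c,j}`, `j < r`, of the row of a constraint. -/
def yEnt (c : Con) (j : ℕ) : Entry :=
  match c with
  | Con.one a => if j = 0 then Sum.inr (2 * a) else Sum.inl 0
  | Con.add a b _ => if j = 0 then Sum.inr (2 * a) else if j = 1 then Sum.inr (2 * b)
      else Sum.inl 0
  | Con.mul a _ _ => if j = 0 then Sum.inr (2 * a) else Sum.inl 0

/-- Diagonal entry of `W`. -/
def wEnt : Con → Entry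
  | Con.one _ => Sum.inl 1
  | Con.add _ _ d => Sum.inr (2 * d)
  | Con.mul _ _ d => Sum.inr (2 * d)

/-- The constraint with a given number. -/
def cAt (S : List Con) (k : ℕ) : Con := S.getD k (Con.one 0)

/-- All entries of the matrix. -/
def ent (r : ℕ) (S : List Con) (i j : ℕ) : Entry :=
  if i < r then (if j < r then (if i = j then Sum.inl 1 else Sum.inl 0)
    else xEnt (cAt S (j - r)) i)
  else if j < r then yEnt (cAt S (i - r)) j
  else if i = j then wEnt (cAt S (i - r))
  else Sum.inr (2 * (i * (r + S.length) + j) + 1)

/-- The variable matrix of a system. -/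
def mat (r : ℕ) (S : List Con) : List (List Entry) :=
  (List.range (r + S.length)).map fun i => (List.range (r + S.length)).map fun j => ent r S i j

theorem mat_length (r : ℕ) (S : List Con) : (mat r S).length = r + S.length := by simp [mat]

theorem mat_getD (r : ℕ) (S : List Con) {i j : ℕ} (hi : i < r + S.length) (hj : j < r + S.length) :
    ((mat r S).getD i []).getD j (Sum.inl 0) = ent r S i j := by
  have h1 : (mat r S).getD i [] = (List.range (r + S.length)).map fun j => ent r S i j := by
    unfold mat
    rw [List.getD_eq_getElem?_getD, List.getElem?_map, List.getElem?_range hi]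
    simp only [Option.map_some, Option.getD_some]
  rw [h1, List.getD_eq_getElem?_getD, List.getElem?_map, List.getElem?_range hj]
  simp

/-- The value of row times column is the relation expressed by the constraint. -/
theorem sum_xy {r : ℕ} (hr : 2 ≤ r) (x : ℕ → ℝ) (c : Con) :
    (∑ k : Fin r, entryVal x (yEnt c k) * entryVal x (xEnt c k)) =
      match c with
      | Con.one a => x (2 * a)
      | Con.add a b _ => x (2 * a) + x (2 * b)
      | Con.mul a b _ => x (2 * a) * x (2 * b) := by
  obtain ⟨s, rfl⟩ := Nat.exists_eq_add_of_le hr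
  rw [Fin.sum_univ_eq_sum_range (fun k => entryVal x (yEnt c k) * entryVal x (xEnt c k)) (2 + s),
    Finset.sum_range_add]
  have hz : ∑ k ∈ Finset.range s, entryVal x (yEnt c (2 + k)) * entryVal x (xEnt c (2 + k)) = 0 := by
    apply Finset.sum_eq_zero
    intro k _
    have h0 : (2 + k) ≠ 0 := by omega
    have h1 : (2 + k) ≠ 1 := by omega
    cases c <;> simp [yEnt, xEnt, h0, h1, entryVal]
  rw [hz, add_zero]
  cases c <;> simp [Finset.sum_range_succ, yEnt, xEnt, entryVal]

theorem wEnt_iff (x : ℕ → ℝ) (c : Con) {r : ℕ} (hr : 2 ≤ r) :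
    (entryVal x (wEnt c) = ∑ k : Fin r, entryVal x (yEnt c k) * entryVal x (xEnt c k)) ↔
      c.Holds (fun i => x (2 * i)) := by
  rw [sum_xy hr]
  cases c <;> simp [wEnt, entryVal, Con.Holds, eq_comm]

theorem minRank_iff {r : ℕ} (hr : 2 ≤ r) (S : List Con) : Sat S ↔ MinRank r (mat r S) := by
  have hlen := mat_length r S
  have hval : ∀ (x : ℕ → ℝ) (i j : Fin (mat r S).length),
      valMatrix (mat r S) x i j = entryVal x (ent r S i j) := by
    intro x i j
    unfold valMatrix
    rw [mat_getD r S (by rw [← hlen]; exact i.2) (by rw [← hlen]; exact j.2)]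
  have hrl : r ≤ (mat r S).length := by rw [hlen]; omega
  have hI : ∀ (x : ℕ → ℝ) (i j : Fin r), valMatrix (mat r S) x (Fin.castLE hrl i)
      (Fin.castLE hrl j) = if i = j then 1 else 0 := by
    intro x i j
    rw [hval]
    have hi := i.2
    have hj := j.2
    simp only [Fin.val_castLE, ent, hi, hj, if_true]
    by_cases h : i = j
    · subst h; simp [entryVal]
    · have h' : (i : ℕ) ≠ j := fun h' => h (Fin.ext h')
      simp [h, h', entryVal]
  have key : ∀ x : ℕ → ℝ, (valMatrix (mat r S) x).rank ≤ r ↔
      ∀ i j : ℕ, r ≤ i → r ≤ j → i < r + S.length → j < r + S.length →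
        entryVal x (ent r S i j) = ∑ k : Fin r,
          entryVal x (yEnt (cAt S (i - r)) k) * entryVal x (xEnt (cAt S (j - r)) k) := by
    intro x
    rw [rank_le_iff hrl _ (hI x)]
    have hrow : ∀ (i : ℕ) (k : Fin r), r ≤ i → ent r S i k = yEnt (cAt S (i - r)) k := by
      intro i k hi
      have hk := k.2
      unfold ent
      rw [if_neg (by omega), if_pos hk]
    have hcol : ∀ (j : ℕ) (k : Fin r), r ≤ j → ent r S k j = xEnt (cAt S (j - r)) k := by
      intro j k hj
      have hk := k.2
      unfold ent
      rw [if_pos hk, if_neg (by omega)]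
    constructor
    · intro h i j hi hj hi' hj'
      have h1 := h ⟨i, by rw [hlen]; exact hi'⟩ ⟨j, by rw [hlen]; exact hj'⟩
      rw [hval] at h1
      simp only at h1
      rw [h1]
      refine Finset.sum_congr rfl fun k _ => ?_
      rw [hval, hval]
      simp only [Fin.val_castLE]
      rw [hrow i k hi, hcol j k hj]
    · intro h i j
      by_cases hi : (i : ℕ) < r
      · have h2 : ∀ k : Fin r, valMatrix (mat r S) x i (Fin.castLE hrl k) =
            if (⟨i, hi⟩ : Fin r) = k then 1 else 0 := by
          intro k
          have := hI x ⟨i, hi⟩ k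
          rw [← this]
          rfl
        rw [Finset.sum_congr rfl fun k _ => by rw [h2 k]]
        simp
      · by_cases hj : (j : ℕ) < r
        · have h2 : ∀ k : Fin r, valMatrix (mat r S) x (Fin.castLE hrl k) j =
              if k = (⟨j, hj⟩ : Fin r) then 1 else 0 := by
            intro k
            have := hI x k ⟨j, hj⟩
            rw [← this]
            rfl
          rw [Finset.sum_congr rfl fun k _ => by rw [h2 k]]
          simp
        · have h3 := h i j (by omega) (by omega) (by have := i.2; omega) (by have := j.2; omega)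
          rw [hval, h3]
          refine Finset.sum_congr rfl fun k _ => ?_
          rw [hval, hval]
          simp only [Fin.val_castLE]
          rw [hrow i k (by omega), hcol j k (by omega)]
  have hrows : ∀ row ∈ mat r S, row.length = (mat r S).length := by
    intro row hrow
    rw [hlen]
    unfold mat at hrow
    rw [List.mem_map] at hrow
    obtain ⟨i, _, rfl⟩ := hrow
    simp
  constructor
  · rintro ⟨v, hv⟩
    set N := r + S.length with hN
    refine ⟨hrows, fun t => if t % 2 = 0 then v (t / 2) else
      ∑ k : Fin r, entryVal (fun t => v (t / 2)) (yEnt (cAt S ((t / 2) / N - r)) k) *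
        entryVal (fun t => v (t / 2)) (xEnt (cAt S ((t / 2) % N - r)) k), ?_⟩
    set x : ℕ → ℝ := fun t => if t % 2 = 0 then v (t / 2) else
      ∑ k : Fin r, entryVal (fun t => v (t / 2)) (yEnt (cAt S ((t / 2) / N - r)) k) *
        entryVal (fun t => v (t / 2)) (xEnt (cAt S ((t / 2) % N - r)) k) with hx
    have hx2 : ∀ a, x (2 * a) = v a := by
      intro a
      simp [hx]
    have hv2 : ∀ a, v ((2 * a) / 2) = v a := fun a => by
      rw [Nat.mul_div_cancel_left _ (by norm_num)]
    have hy : ∀ c (k : ℕ), entryVal x (yEnt c k) = entryVal (fun t => v (t / 2)) (yEnt c k) := by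
      intro c k
      cases c <;> simp only [yEnt] <;> split_ifs <;> simp [entryVal, hx2]
    have hxx : ∀ c (k : ℕ), entryVal x (xEnt c k) = entryVal (fun t => v (t / 2)) (xEnt c k) := by
      intro c k
      cases c <;> simp only [xEnt] <;> split_ifs <;> simp [entryVal, hx2]
    rw [key]
    intro i j hi hj hi' hj'
    by_cases hij : i = j
    · subst hij
      have hc : cAt S (i - r) ∈ S := by
        unfold cAt
        rw [List.getD_eq_getElem?_getD, List.getElem?_eq_getElem (by omega)]
        simp
      have he : ent r S i i = wEnt (cAt S (i - r)) := by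
        unfold ent
        rw [if_neg (by omega), if_neg (by omega), if_pos rfl]
      rw [he, wEnt_iff x _ hr]
      have hfun : (fun i => x (2 * i)) = v := funext hx2
      rw [hfun]
      exact hv _ hc
    · have he : ent r S i j = Sum.inr (2 * (i * N + j) + 1) := by
        unfold ent
        rw [if_neg (by omega), if_neg (by omega), if_neg hij]
      rw [he]
      have hN0 : 0 < N := by omega
      have hd : (i * N + j) / N = i := by
        rw [mul_comm, Nat.mul_add_div hN0, Nat.div_eq_of_lt (by omega), add_zero]
      have hm : (i * N + j) % N = j := by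
        rw [mul_comm, Nat.mul_add_mod, Nat.mod_eq_of_lt (by omega)]
      have ht : (2 * (i * N + j) + 1) / 2 = i * N + j := by omega
      have ht2 : ¬ (2 * (i * N + j) + 1) % 2 = 0 := by omega
      show x (2 * (i * N + j) + 1) = _
      simp only [hx]
      rw [if_neg ht2, ht, hd, hm]
      refine Finset.sum_congr rfl fun k _ => ?_
      rw [← hy, ← hxx]
  · rintro ⟨_, x, hx⟩
    rw [key] at hx
    refine ⟨fun i => x (2 * i), fun c hc => ?_⟩
    obtain ⟨k, hk, rfl⟩ := List.mem_iff_getElem.1 hc
    have h1 := hx (r + k) (r + k) (by omega) (by omega) (by omega) (by omega)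
    have he : ent r S (r + k) (r + k) = wEnt (cAt S (r + k - r)) := by
      unfold ent
      rw [if_neg (by omega), if_neg (by omega), if_pos rfl]
    have hck : cAt S (r + k - r) = S[k] := by
      unfold cAt
      rw [Nat.add_sub_cancel_left, List.getD_eq_getElem?_getD, List.getElem?_eq_getElem hk]
      simp
    rw [he, hck, wEnt_iff x _ hr] at h1
    exact h1

/-! ### Polynomial time -/

section

variable {α : Type} [TEnc α]

theorem poly_mul2 {i : α → ℕ} (hi : Poly i) : Poly (fun a => 2 * i a) :=
  Poly.mul (Poly.const 2) hi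

theorem poly_cAt {S : α → List Con} {k : α → ℕ} (hS : Poly S) (hk : Poly k) :
    Poly (fun a => cAt (S a) (k a)) := Poly.getD hS hk (Poly.const _)

theorem xEnt_eq (c : Con) (i : ℕ) : xEnt c i =
    if c.code.1 = 0 then (if i = 0 then Sum.inl 1 else Sum.inl 0)
    else if c.code.1 = 1 then (if i = 0 ∨ i = 1 then Sum.inl 1 else Sum.inl 0)
    else (if i = 0 then Sum.inr (2 * c.code.2.2.1) else Sum.inl 0) := by
  cases c <;> rfl

theorem yEnt_eq (c : Con) (j : ℕ) : yEnt c j =
    if c.code.1 = 1 then (if j = 0 then Sum.inr (2 * c.code.2.1) else if j = 1 then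
      Sum.inr (2 * c.code.2.2.1) else Sum.inl 0)
    else (if j = 0 then Sum.inr (2 * c.code.2.1) else Sum.inl 0) := by
  cases c <;> rfl

theorem wEnt_eq (c : Con) : wEnt c =
    if c.code.1 = 0 then Sum.inl 1 else Sum.inr (2 * c.code.2.2.2) := by
  cases c <;> rfl

theorem poly_xEnt {c : α → Con} {i : α → ℕ} (hc : Poly c) (hi : Poly i) :
    Poly (fun a => xEnt (c a) (i a)) := by
  have h := poly_con_code hc
  have h0 : Poly (fun a => decide (i a = 0)) := Poly.decide_eq hi (Poly.const 0)
  have h1 : Poly (fun a => decide (i a = 1)) := Poly.decide_eq hi (Poly.const 1)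
  refine (Poly.ite (Poly.decide_eq (Poly.fst h) (Poly.const 0))
    (Poly.ite h0 (Poly.const _) (Poly.const _))
    (Poly.ite (Poly.decide_eq (Poly.fst h) (Poly.const 1))
      (Poly.ite (Poly.decide_or h0 h1) (Poly.const _) (Poly.const _))
      (Poly.ite h0 (Poly.inr (poly_mul2 (Poly.fst (Poly.snd (Poly.snd h)))))
        (Poly.const _)))).congr fun a => (xEnt_eq (c a) (i a)).symm

theorem poly_yEnt {c : α → Con} {i : α → ℕ} (hc : Poly c) (hi : Poly i) :
    Poly (fun a => yEnt (c a) (i a)) := by
  have h := poly_con_code hc
  have h0 : Poly (fun a => decide (i a = 0)) := Poly.decide_eq hi (Poly.const 0)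
  have h1 : Poly (fun a => decide (i a = 1)) := Poly.decide_eq hi (Poly.const 1)
  refine (Poly.ite (Poly.decide_eq (Poly.fst h) (Poly.const 1))
    (Poly.ite h0 (Poly.inr (poly_mul2 (Poly.fst (Poly.snd h))))
      (Poly.ite h1 (Poly.inr (poly_mul2 (Poly.fst (Poly.snd (Poly.snd h))))) (Poly.const _)))
    (Poly.ite h0 (Poly.inr (poly_mul2 (Poly.fst (Poly.snd h))))
        (Poly.const _))).congr fun a => (yEnt_eq (c a) (i a)).symm

theorem poly_wEnt {c : α → Con} (hc : Poly c) : Poly (fun a => wEnt (c a)) := by
  have h := poly_con_code hc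
  refine (Poly.ite (Poly.decide_eq (Poly.fst h) (Poly.const 0)) (Poly.const _)
    (Poly.inr (poly_mul2 (Poly.snd (Poly.snd (Poly.snd h)))))).congr fun a => (wEnt_eq (c a)).symm

theorem poly_ent (r : ℕ) {S : α → List Con} {i j : α → ℕ} (hS : Poly S) (hi : Poly i)
    (hj : Poly j) : Poly (fun a => ent r (S a) (i a) (j a)) := by
  have hir : Poly (fun a => decide (i a < r)) := Poly.decide_lt hi (Poly.const r)
  have hjr : Poly (fun a => decide (j a < r)) := Poly.decide_lt hj (Poly.const r)
  have hij : Poly (fun a => decide (i a = j a)) := Poly.decide_eq hi hj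
  refine Poly.ite hir (Poly.ite hjr (Poly.ite hij (Poly.const _) (Poly.const _))
    (poly_xEnt (poly_cAt hS (Poly.sub hj (Poly.const r))) hi))
    (Poly.ite hjr (poly_yEnt (poly_cAt hS (Poly.sub hi (Poly.const r))) hj)
      (Poly.ite hij (poly_wEnt (poly_cAt hS (Poly.sub hi (Poly.const r))))
        (Poly.inr (Poly.add (poly_mul2 (Poly.add (Poly.mul hi (Poly.add (Poly.const r)
          (Poly.length hS))) hj)) (Poly.const 1)))))

theorem poly_mat (r : ℕ) {S : α → List Con} (hS : Poly S) : Poly (fun a => mat r (S a)) := by
  have hU : UPoly (fun a => r + (S a).length) := UPoly.add (UPoly.const r) (UPoly.length hS)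
  refine Poly.map (F := fun a i => (List.range (r + (S a).length)).map fun j => ent r (S a) i j)
    (UPoly.range hU) ?_
  refine Poly.map (F := fun (p : α × ℕ) j => ent r (S p.1) p.2 j)
    ((UPoly.range hU).comp (Poly.fst Poly.id)) ?_
  exact poly_ent r (hS.comp (Poly.fst (Poly.fst Poly.id))) (Poly.snd (Poly.fst Poly.id))
    (Poly.snd Poly.id)

end

/-- `MinRank_r` is `∃ℝ`-hard for every fixed `r ≥ 2`. -/
theorem minRank_hard (r : ℕ) (hr : 2 ≤ r) : ERHard (lang (MinRank r)) :=
  ERHard.of_sys (poly_mat r Poly.id) (minRank_iff hr)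

end Pool.Agent.NPC.ER.Q325MR
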