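import Pool.Agent.Q325.CsFwd

/-!
# From 3-cycle stable matchings to assignments
-/

set_option autoImplicit false

namespace Pool.Agent.Q325.CS

section general

variable {T : List (List ℕ)} {M : ℕ → ℕ}

theorem noPair (hS : ThreeCycleStable T M) {a b : ℕ} (ha : a < T.length) (hb : b < T.length)
    (hab : a ≠ b) (h1 : Wants T M a b) (h2 : Wants T M b a) : False := by
  refine hS 2 (by omega) (fun i => if i % 2 = 0 then a else b) ⟨le_rfl, ?_, ?_, ?_, ?_⟩
  · intro i _
    dsimp only
    split_ifs <;> assumption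
  · intro i hi j hj h
    dsimp only at h
    interval_cases i <;> interval_cases j <;> simp_all
  · simp
  · intro i hi
    interval_cases i
    · simpa using h1
    · simpa using h2

theorem noTriple (hS : ThreeCycleStable T M) {a b c : ℕ} (ha : a < T.length) (hb : b < T.length)
    (hc : c < T.length) (hab : a ≠ b) (hac : a ≠ c) (hbc : b ≠ c) (h1 : Wants T M a b)
    (h2 : Wants T M b c) (h3 : Wants T M c a) : False := by
  refine hS 3 (by omega) (fun i => if i % 3 = 0 then a else if i % 3 = 1 then b else c)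
    ⟨by omega, ?_, ?_, ?_, ?_⟩
  · intro i _
    dsimp only
    split_ifs <;> assumption
  · intro i hi j hj h
    dsimp only at h
    interval_cases i <;> interval_cases j <;> simp_all
  · simp
  · intro i hi
    interval_cases i
    · simpa using h1
    · simpa using h2
    · simpa using h3

theorem wants_top {a x : ℕ} {l : List ℕ} (hl : pl T a = x :: l) (h : M a ≠ x) :
    Wants T M a x := by
  refine ⟨by rw [hl]; simp, ?_⟩
  right
  rw [hl, List.idxOf_cons_self, List.idxOf_cons_ne _ (Ne.symm h)]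
  omega

/-- an agent with a list of three agents at its worst partner wants the second one -/
theorem wants_mid {a x y z : ℕ} (hl : pl T a = [x, y, z]) (hxy : x ≠ y) (hxz : x ≠ z)
    (hyz : y ≠ z) (h : M a = z) : Wants T M a y := by
  refine ⟨by rw [hl]; simp, ?_⟩
  right
  rw [hl, h, List.idxOf_cons_ne _ hxy, List.idxOf_cons_self, List.idxOf_cons_ne _ hxz,
    List.idxOf_cons_ne _ hyz]
  omega

theorem matched_of_top (hI : IsInst T) (hM : IsMatching T M) (hS : ThreeCycleStable T M)
    {a b : ℕ} {l : List ℕ} (hb : b < T.length) (hl : pl T b = a :: l) : M a ≠ a := by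
  intro h
  obtain ⟨h1, h2, h3⟩ := (hI b hb).2 a (by rw [hl]; simp)
  have hne : M b ≠ a := by
    intro e
    have := (hM b hb).2.1
    rw [e, h] at this
    exact h2 this
  exact noPair hS h1 hb h2 ⟨h3, Or.inl h⟩ (wants_top hl hne)

/-- If `a` wants `b` then `b` is assigned to a better agent than `a`. -/
theorem better (hI : IsInst T) (hM : IsMatching T M) (hS : ThreeCycleStable T M)
    {a b : ℕ} (ha : a < T.length) (h : Wants T M a b) :
    M b ≠ b ∧ (pl T b).idxOf (M b) < (pl T b).idxOf a := by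
  obtain ⟨h1, h2, h3⟩ := (hI a ha).2 b h.1
  have hnb : ¬ Wants T M b a := fun h' => noPair hS ha h1 (Ne.symm h2) h h'
  have hb : M b ≠ b := fun e => hnb ⟨h3, Or.inl e⟩
  refine ⟨hb, ?_⟩
  have hle : (pl T b).idxOf (M b) ≤ (pl T b).idxOf a := by
    by_contra hc
    exact hnb ⟨h3, Or.inr (by omega)⟩
  rcases Nat.lt_or_ge ((pl T b).idxOf (M b)) ((pl T b).idxOf a) with hlt | hge
  · exact hlt
  · exfalso
    have e : M b = a := by
      refine (List.idxOf_inj ((hM b h1).2.2 hb)).1 ?_
      omega
    have e2 : M a = b := by rw [← e]; exact (hM b h1).2.1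
    rcases h.2 with h4 | h4
    · rw [e2] at h4
      exact h2 h4
    · rw [e2] at h4
      omega

/-- If `a` wants `b`, and `a` is the second agent on the list of `b`, then `b` is assigned to its
first choice. -/
theorem better_two (hI : IsInst T) (hM : IsMatching T M) (hS : ThreeCycleStable T M)
    {a b x : ℕ} {l : List ℕ} (ha : a < T.length) (h : Wants T M a b) (hl : pl T b = x :: a :: l) :
    M b = x := by
  obtain ⟨-, h2⟩ := better hI hM hS ha h
  by_contra hne
  rw [hl, List.idxOf_cons_ne _ (Ne.symm hne)] at h2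
  by_cases e : x = a
  · rw [e, List.idxOf_cons_self] at h2
    omega
  · rw [List.idxOf_cons_ne _ e, List.idxOf_cons_self] at h2
    omega

end general

namespace Par

variable {p : Par} {M : ℕ → ℕ}

theorem ring {T : ℕ → Prop} (h : ∀ x < p.X, T x → T (p.nx x)) {x y : ℕ} (hx : x < p.X)
    (hT : T x) (hd : y / p.M = x / p.M) : T y := by
  have h3 := M3 (p := p)
  have key : ∀ j, p.nx^[j] x / p.M = x / p.M ∧ p.nx^[j] x % p.M = (x % p.M + j) % p.M ∧
      p.nx^[j] x < p.X ∧ T (p.nx^[j] x) := by
    intro j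
    induction j with
    | zero =>
      refine ⟨rfl, ?_, hx, hT⟩
      simp
    | succ j ih =>
      obtain ⟨i1, i2, i3, i4⟩ := ih
      rw [Function.iterate_succ_apply']
      obtain ⟨n1, n2⟩ := nx_spec (p := p) (p.nx^[j] x)
      refine ⟨n1.trans i1, ?_, nx_lt i3, h _ i3 i4⟩
      rw [n2, i2]
      have e : (x % p.M + (j + 1)) % p.M = ((x % p.M + j) % p.M + 1) % p.M := by
        rw [← add_assoc, Nat.add_mod (x % p.M + j) 1, Nat.mod_eq_of_lt (show 1 < p.M by omega)]
      rw [e]
      have hlt := mod_lt (p := p) (x % p.M + j)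
      split_ifs with hc
      · rw [hc, Nat.mod_self]
      · rw [Nat.mod_eq_of_lt (show (x % p.M + j) % p.M + 1 < p.M by omega)]
  have hx' := mod_lt (p := p) x
  have hy' := mod_lt (p := p) y
  obtain ⟨k1, k2, -, k4⟩ := key (y % p.M + p.M - x % p.M)
  have e : p.nx^[y % p.M + p.M - x % p.M] x = y := by
    refine eq_of_div_mod (k1.trans hd.symm) ?_
    rw [k2, show x % p.M + (y % p.M + p.M - x % p.M) = y % p.M + p.M by omega,
      Nat.add_mod_right, Nat.mod_mod]
  rw [e] at k4
  exact k4

theorem lP {x : ℕ} (hx : x < p.X) : pl p.inst (P x) = [Q x, p.pnode x] := by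
  rw [pl_inst p (by unfold P; omega), pf_P]

theorem lQ {x : ℕ} (hx : x < p.X) : pl p.inst (Q x) = [p.nnode x, P x] := by
  rw [pl_inst p (by unfold Q; omega), pf_Q]

theorem lA {s : ℕ} (hs : s < p.M) : pl p.inst (A s) = [A (s1 s), E s, A (s2 s)] := by
  have := M_le_X hs
  rw [pl_inst p (by unfold A; omega), pf_A hs]

theorem lE {s : ℕ} (hs : s < p.M) :
    pl p.inst (E s) = [P (p.plc (s1 s)), A s, Q (p.px (p.plc (s2 s)))] := by
  have := M_le_X hs
  rw [pl_inst p (by unfold E; omega), pf_E hs]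

theorem ltA {s : ℕ} (hs : s < p.M) : A s < p.inst.length := by
  have := M_le_X hs
  rw [length_inst]
  unfold A
  omega

theorem ltE {s : ℕ} (hs : s < p.M) : E s < p.inst.length := by
  have := M_le_X hs
  rw [length_inst]
  unfold E
  omega

theorem ltP {x : ℕ} (hx : x < p.X) : P x < p.inst.length := by
  rw [length_inst]
  unfold P
  omega

theorem ltQ {x : ℕ} (hx : x < p.X) : Q x < p.inst.length := by
  rw [length_inst]
  unfold Q
  omega

section bwd

variable (hM : IsMatching p.inst M) (hS : ThreeCycleStable p.inst M)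

include hM hS

theorem matched_P {x : ℕ} (hx : x < p.X) : M (P x) ≠ P x := by
  rcases pnode_cases (p := p) x with ⟨ho, e⟩ | ⟨ho, e⟩
  · have hm := mod_lt (p := p) x
    have hl := lE (p := p) (s2_lt hm)
    rw [s12, plc_of_occ ho] at hl
    exact matched_of_top isInst hM hS (ltE (s2_lt hm)) hl
  · have hl := lQ (p := p) (px_lt hx)
    unfold nnode at hl
    rw [nx_px, ho] at hl
    exact matched_of_top isInst hM hS (ltQ (px_lt hx)) hl

theorem matched_Q {x : ℕ} (hx : x < p.X) : M (Q x) ≠ Q x :=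
  matched_of_top isInst hM hS (ltP hx) (lP hx)

theorem P_of {x : ℕ} (hx : x < p.X) (h : M (P x) ≠ Q x) : M (P x) = p.pnode x := by
  have h1 := (hM _ (ltP hx)).2.2 (matched_P hM hS hx)
  rw [lP hx] at h1
  simp only [List.mem_cons, List.not_mem_nil, or_false] at h1
  rcases h1 with h1 | h1
  · exact absurd h1 h
  · exact h1

theorem Q_of {x : ℕ} (hx : x < p.X) (h : M (P x) ≠ Q x) : M (Q x) = p.nnode x := by
  have h1 := (hM _ (ltQ hx)).2.2 (matched_Q hM hS hx)
  rw [lQ hx] at h1
  simp only [List.mem_cons, List.not_mem_nil, or_false] at h1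
  rcases h1 with h1 | h1
  · exact h1
  · exfalso
    have h2 := (hM _ (ltQ hx)).2.1
    rw [h1] at h2
    exact h h2

/-- the step from the ring to the clause -/
theorem to_A {s : ℕ} (hs : s < p.M) (h : M (P (p.px (p.plc s))) ≠ Q (p.px (p.plc s))) :
    M (A (s1 s)) = A (s2 s) := by
  have hx := px_lt (plc_lt hs)
  have h1 := Q_of hM hS hx h
  rw [nnode_px_plc hs] at h1
  have h2 := (hM _ (ltQ hx)).2.1
  rw [h1] at h2
  have hl := lE (p := p) (s1_lt hs)
  rw [s21] at hl
  have hw : Wants p.inst M (E (s1 s)) (A (s1 s)) :=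
    wants_mid hl (ne_AP _ _).symm (ne_PQ _ _) (ne_AQ _ _) h2
  have hl2 := lA (p := p) (s1_lt hs)
  rw [s21, s11] at hl2
  exact better_two isInst hM hS (ltE (s1_lt hs)) hw hl2

/-- the step from the clause to the ring -/
theorem of_A {s : ℕ} (hs : s < p.M) (h : M (A (s1 s)) = A (s2 s)) :
    M (P (p.plc s)) ≠ Q (p.plc s) := by
  have h2 := (hM _ (ltA (s1_lt hs))).2.1
  rw [h] at h2
  have hl := lA (p := p) (s2_lt hs)
  rw [s12, s22] at hl
  have hw : Wants p.inst M (A (s2 s)) (E (s2 s)) :=
    wants_mid hl (ne_AE _ _) (fun e => s1_ne s (AA.1 e).symm) (ne_AE _ _).symm h2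
  have hl2 := lE (p := p) (s2_lt hs)
  rw [s12] at hl2
  have h3 := better_two isInst hM hS (ltA (s2_lt hs)) hw hl2
  have h4 := (hM _ (ltE (s2_lt hs))).2.1
  rw [h3] at h4
  rw [h4]
  exact ne_EQ _ _

theorem prop {x : ℕ} (hx : x < p.X) (h : M (P x) ≠ Q x) : M (P (p.nx x)) ≠ Q (p.nx x) := by
  rcases nnode_cases (p := p) x with ⟨ho, e⟩ | ⟨ho, e⟩
  · have hm := mod_lt (p := p) (p.nx x)
    have hp := plc_of_occ ho
    have h1 : M (P (p.px (p.plc (p.nx x % p.M)))) ≠ Q (p.px (p.plc (p.nx x % p.M))) := by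
      rw [hp, px_nx]
      exact h
    have h2 := of_A hM hS hm (to_A hM hS hm h1)
    rw [hp] at h2
    exact h2
  · have h1 := Q_of hM hS hx h
    have h2 := (hM _ (ltQ hx)).2.1
    rw [h1, e] at h2
    rw [h2]
    intro h3
    have := nx_ne (p := p) x
    unfold Q at h3
    omega

theorem ring_iff {x y : ℕ} (hx : x < p.X) (hy : y < p.X) (hd : y / p.M = x / p.M) :
    M (P x) ≠ Q x ↔ M (P y) ≠ Q y :=
  ⟨fun h => ring (T := fun z => M (P z) ≠ Q z) (fun z hz hz' => prop hM hS hz hz') hx h hd,
    fun h => ring (T := fun z => M (P z) ≠ Q z) (fun z hz hz' => prop hM hS hz hz') hy h hd.symm⟩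

theorem plc_iff {s : ℕ} (hs : s < p.M) :
    M (P (p.plc s)) ≠ Q (p.plc s) ↔ M (A (s1 s)) = A (s2 s) := by
  constructor
  · intro h
    exact to_A hM hS hs ((ring_iff hM hS (plc_lt hs) (px_lt (plc_lt hs)) (px_spec _).1).1 h)
  · exact of_A hM hS hs

open Classical in
/-- the assignment -/
theorem exists_one : ∃ w : ℕ → Bool, p.One w := by
  refine ⟨fun v => decide (M (P (v * p.M)) ≠ Q (v * p.M)), ?_⟩
  have key : ∀ s < p.M, p.tr (fun v => decide (M (P (v * p.M)) ≠ Q (v * p.M))) s = true ↔
      M (A (s1 s)) = A (s2 s) := by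
    intro s hs
    rw [← plc_iff hM hS hs]
    unfold tr
    rw [decide_eq_true_iff]
    have h0 := dm (p.vs s) 0 (show 0 < p.M by have := M3 (p := p); omega)
    refine ring_iff hM hS ?_ (plc_lt hs) ?_
    · rw [lt_X_iff]
      have := vs_lt hs
      rw [add_zero] at h0
      omega
    · rw [plc_div hs]
      rw [add_zero] at h0
      exact h0.1.symm
  intro s hs
  have h1 := s1_lt hs
  have h2 := s2_lt hs
  have k0 := key s hs
  have k1 := key (s1 s) h1
  have k2 := key (s2 s) h2
  rw [s11, s21] at k1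
  rw [s12, s22] at k2
  generalize ht0 : p.tr (fun v => decide (M (P (v * p.M)) ≠ Q (v * p.M))) s = t0 at *
  generalize ht1 : p.tr (fun v => decide (M (P (v * p.M)) ≠ Q (v * p.M))) (s1 s) = t1 at *
  generalize ht2 : p.tr (fun v => decide (M (P (v * p.M)) ≠ Q (v * p.M))) (s2 s) = t2 at *
  have inv0 := (hM _ (ltA hs)).2.1
  have inv1 := (hM _ (ltA h1)).2.1
  have inv2 := (hM _ (ltA h2)).2.1
  have n01 : A s ≠ A (s1 s) := fun e => s1_ne s (AA.1 e).symm
  have n02 : A s ≠ A (s2 s) := fun e => s2_ne s (AA.1 e).symm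
  have n12 : A (s1 s) ≠ A (s2 s) := fun e => s1_ne2 s (AA.1 e)
  cases t0
  · cases t1
    · cases t2
      · exfalso
        have f0 : M (A (s1 s)) ≠ A (s2 s) := fun e => by simpa using k0.2 e
        have f1 : M (A (s2 s)) ≠ A s := fun e => by simpa using k1.2 e
        have f2 : M (A s) ≠ A (s1 s) := fun e => by simpa using k2.2 e
        have l0 := lA (p := p) hs
        have l1 := lA (p := p) h1
        have l2 := lA (p := p) h2
        rw [s11, s21] at l1
        rw [s12, s22] at l2
        have w0 := wants_top l0 f2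
        have w1 := wants_top l1 f0
        have w2 := wants_top l2 f1
        exact noTriple hS (ltA hs) (ltA h1) (ltA h2) n01 n02 n12 w0 w1 w2
      · exact Or.inr (Or.inr ⟨rfl, rfl, rfl⟩)
    · cases t2
      · exact Or.inr (Or.inl ⟨rfl, rfl, rfl⟩)
      · exfalso
        have e1 := k1.1 rfl
        have e2 := k2.1 rfl
        rw [e1] at inv2
        rw [e2] at inv2
        exact n12 inv2
  · cases t1
    · cases t2
      · exact Or.inl ⟨rfl, rfl, rfl⟩
      · exfalso
        have e0 := k0.1 rfl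
        have e2 := k2.1 rfl
        rw [e2] at inv0
        rw [e0] at inv0
        exact n02 inv0.symm
    · exfalso
      have e0 := k0.1 rfl
      have e1 := k1.1 rfl
      rw [e0, e1] at inv1
      exact n01 inv1

end bwd

end Par

end Pool.Agent.Q325.CS
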