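import Mathlib

/-!
# Cycle stable matchings in roommates instances with bounded preference lists
-/

set_option autoImplicit false

namespace Pool.Agent.Q325.CS

/-- The preference list of the agent `a`, best agents first. -/
def pl (T : List (List ℕ)) (a : ℕ) : List ℕ := T.getD a []

/-- `T` is an instance: the agents are `0, ..., n - 1`, where `n` is the length of `T`, and the
entries of `T` are their preference lists; these are lists of different other agents, and
acceptability is mutual. -/
def IsInst (T : List (List ℕ)) : Prop :=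
  ∀ a < T.length, (pl T a).Nodup ∧ ∀ b ∈ pl T a, b < T.length ∧ b ≠ a ∧ a ∈ pl T b

/-- `M` is a matching: `M a` is the partner of the agent `a` if `M a ≠ a`, and `a` is unassigned if
`M a = a`; partners find each other acceptable. -/
def IsMatching (T : List (List ℕ)) (M : ℕ → ℕ) : Prop :=
  ∀ a < T.length, M a < T.length ∧ M (M a) = a ∧ (M a ≠ a → M a ∈ pl T a)

/-- The agent `a` is unassigned and finds `b` acceptable, or `a` prefers `b` to its partner. -/
def Wants (T : List (List ℕ)) (M : ℕ → ℕ) (a b : ℕ) : Prop :=
  b ∈ pl T a ∧ (M a = a ∨ (pl T a).idxOf b < (pl T a).idxOf (M a))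

/-- The agents `c 0, ..., c (k - 1)` form a blocking cycle of length `k` (`c k = c 0`). -/
def BlockingCycle (T : List (List ℕ)) (M : ℕ → ℕ) (k : ℕ) (c : ℕ → ℕ) : Prop :=
  2 ≤ k ∧ (∀ i < k, c i < T.length) ∧ (∀ i < k, ∀ j < k, c i = c j → i = j) ∧ c k = c 0 ∧
    ∀ i < k, Wants T M (c i) (c (i + 1))

/-- There are no blocking cycles. -/
def CycleStable (T : List (List ℕ)) (M : ℕ → ℕ) : Prop := ∀ k c, ¬ BlockingCycle T M k c

/-- There are no blocking cycles of length at most three. -/
def ThreeCycleStable (T : List (List ℕ)) (M : ℕ → ℕ) : Prop :=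
  ∀ k ≤ 3, ∀ c, ¬ BlockingCycle T M k c

/-- CS(L): instances with preference lists of length at most `L` which have a cycle stable
matching. -/
def CS (L : ℕ) (T : List (List ℕ)) : Prop :=
  IsInst T ∧ (∀ a < T.length, (pl T a).length ≤ L) ∧ ∃ M, IsMatching T M ∧ CycleStable T M

/-- CS₃(L): instances with preference lists of length at most `L` which have a 3-cycle stable
matching. -/
def CS3 (L : ℕ) (T : List (List ℕ)) : Prop :=
  IsInst T ∧ (∀ a < T.length, (pl T a).length ≤ L) ∧ ∃ M, IsMatching T M ∧ ThreeCycleStable T M

end Pool.Agent.Q325.CS
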