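import Pool.Agent.Q325.CsInst

/-!
# From assignments to cycle stable matchings
-/

set_option autoImplicit false

namespace Pool.Agent.Q325.CS

/-- A rank function which decreases along the arcs excludes blocking cycles. -/
theorem cycleStable_of_rank {T : List (List ℕ)} {M : ℕ → ℕ} (r : ℕ → ℕ)
    (h : ∀ a < T.length, ∀ b, Wants T M a b → r b < r a) : CycleStable T M := by
  rintro k c ⟨hk, hn, -, hck, hc⟩
  have key : ∀ i, i ≤ k → r (c i) + i ≤ r (c 0) := by
    intro i
    induction i with
    | zero => intro _; omega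
    | succ i ih =>
      intro hi
      have h1 := ih (by omega)
      have h2 := h _ (hn i (by omega)) _ (hc i (by omega))
      omega
  have := key k le_rfl
  rw [hck] at this
  omega

theorem wants_three {T : List (List ℕ)} {M : ℕ → ℕ} {a x y z b : ℕ} (hl : pl T a = [x, y, z])
    (hxy : x ≠ y) (hxz : x ≠ z) (hyz : y ≠ z) (ha : M a ≠ a) (h : Wants T M a b) :
    (M a = y ∧ b = x) ∨ (M a = z ∧ (b = x ∨ b = y)) ∨ (M a ≠ x ∧ M a ≠ y ∧ M a ≠ z) := by
  obtain ⟨h1, h2⟩ := h
  rcases h2 with h2 | h2
  · exact absurd h2 ha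
  · rw [hl] at h1 h2
    simp only [List.mem_cons, List.not_mem_nil, or_false] at h1
    by_cases e1 : M a = x
    · rw [e1, List.idxOf_cons_self] at h2
      omega
    · by_cases e2 : M a = y
      · left
        refine ⟨e2, ?_⟩
        rw [e2, List.idxOf_cons_ne _ hxy, List.idxOf_cons_self] at h2
        by_contra hb
        rw [List.idxOf_cons_ne _ (Ne.symm hb)] at h2
        omega
      · by_cases e3 : M a = z
        · right; left
          refine ⟨e3, ?_⟩
          rcases h1 with rfl | rfl | rfl
          · exact Or.inl rfl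
          · exact Or.inr rfl
          · rw [e3] at h2
            omega
        · exact Or.inr (Or.inr ⟨e1, e2, e3⟩)

theorem wants_two {T : List (List ℕ)} {M : ℕ → ℕ} {a x y b : ℕ} (hl : pl T a = [x, y])
    (hxy : x ≠ y) (ha : M a ≠ a) (h : Wants T M a b) :
    (M a = y ∧ b = x) ∨ (M a ≠ x ∧ M a ≠ y) := by
  obtain ⟨h1, h2⟩ := h
  rcases h2 with h2 | h2
  · exact absurd h2 ha
  · rw [hl] at h1 h2
    simp only [List.mem_cons, List.not_mem_nil, or_false] at h1
    by_cases e1 : M a = x
    · rw [e1, List.idxOf_cons_self] at h2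
      omega
    · by_cases e2 : M a = y
      · left
        refine ⟨e2, ?_⟩
        rcases h1 with rfl | rfl
        · rfl
        · rw [e2] at h2
          omega
      · exact Or.inr ⟨e1, e2⟩

namespace Par

variable {p : Par} (w : ℕ → Bool)

/-- the truth value at a position -/
def tr (p : Par) (w : ℕ → Bool) (s : ℕ) : Bool := w (p.vs s)

/-- the truth value of a ring -/
def tv (p : Par) (w : ℕ → Bool) (x : ℕ) : Bool := w (x / p.M)

/-- exactly one literal of each clause is true -/
def One (p : Par) (w : ℕ → Bool) : Prop := ∀ s < p.M,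
  (p.tr w s = true ∧ p.tr w (s1 s) = false ∧ p.tr w (s2 s) = false) ∨
  (p.tr w s = false ∧ p.tr w (s1 s) = true ∧ p.tr w (s2 s) = false) ∨
  (p.tr w s = false ∧ p.tr w (s1 s) = false ∧ p.tr w (s2 s) = true)

/-- the matching -/
def mu (p : Par) (w : ℕ → Bool) (a : ℕ) : ℕ :=
  if a % 4 = 0 then (if a / 4 < p.M then
      (if p.tr w (a / 4) = true then E (a / 4) else
        if p.tr w (s2 (a / 4)) = true then A (s1 (a / 4)) else A (s2 (a / 4))) else a)
  else if a % 4 = 1 then (if a / 4 < p.M then
      (if p.tr w (a / 4) = true then A (a / 4) else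
        if p.tr w (s1 (a / 4)) = true then P (p.plc (s1 (a / 4)))
        else Q (p.px (p.plc (s2 (a / 4))))) else a)
  else if a % 4 = 2 then (if p.tv w (a / 4) = true then p.pnode (a / 4) else Q (a / 4))
  else (if p.tv w (a / 4) = true then p.nnode (a / 4) else P (a / 4))

/-- the rank -/
def rk (p : Par) (w : ℕ → Bool) (a : ℕ) : ℕ :=
  if a % 4 = 0 then (if p.tr w (a / 4) = true then 1 else
        if p.tr w (s2 (a / 4)) = true then 0 else 2)
  else if a % 4 = 1 then (if p.tr w (a / 4) = true then 1 else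
        if p.tr w (s1 (a / 4)) = true then 0 else 1)
  else if a % 4 = 2 then (if p.tv w (a / 4) = true then 1 else 0)
  else (if p.tv w (a / 4) = true then 0 else 2)

variable {w}

theorem mu_A {s : ℕ} (hs : s < p.M) : p.mu w (A s) = if p.tr w s = true then E s else
    if p.tr w (s2 s) = true then A (s1 s) else A (s2 s) := by
  unfold mu A
  rw [if_pos (by omega), show 4 * s / 4 = s by omega, if_pos hs]

theorem mu_E {s : ℕ} (hs : s < p.M) : p.mu w (E s) = if p.tr w s = true then A s else
    if p.tr w (s1 s) = true then P (p.plc (s1 s)) else Q (p.px (p.plc (s2 s))) := by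
  unfold mu E
  rw [if_neg (by omega), if_pos (by omega), show (4 * s + 1) / 4 = s by omega, if_pos hs]

theorem mu_A' {s : ℕ} (hs : ¬ s < p.M) : p.mu w (A s) = A s := by
  unfold mu A
  rw [if_pos (by omega), show 4 * s / 4 = s by omega, if_neg hs]

theorem mu_E' {s : ℕ} (hs : ¬ s < p.M) : p.mu w (E s) = E s := by
  unfold mu E
  rw [if_neg (by omega), if_pos (by omega), show (4 * s + 1) / 4 = s by omega, if_neg hs]

theorem mu_P (x : ℕ) : p.mu w (P x) = if p.tv w x = true then p.pnode x else Q x := by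
  unfold mu P
  rw [if_neg (by omega), if_neg (by omega), if_pos (by omega), show (4 * x + 2) / 4 = x by omega]

theorem mu_Q (x : ℕ) : p.mu w (Q x) = if p.tv w x = true then p.nnode x else P x := by
  unfold mu Q
  rw [if_neg (by omega), if_neg (by omega), if_neg (by omega), show (4 * x + 3) / 4 = x by omega]

theorem rk_A (s : ℕ) : p.rk w (A s) = if p.tr w s = true then 1 else
    if p.tr w (s2 s) = true then 0 else 2 := by
  unfold rk A
  rw [if_pos (by omega), show 4 * s / 4 = s by omega]

theorem rk_E (s : ℕ) : p.rk w (E s) = if p.tr w s = true then 1 else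
    if p.tr w (s1 s) = true then 0 else 1 := by
  unfold rk E
  rw [if_neg (by omega), if_pos (by omega), show (4 * s + 1) / 4 = s by omega]

theorem rk_P (x : ℕ) : p.rk w (P x) = if p.tv w x = true then 1 else 0 := by
  unfold rk P
  rw [if_neg (by omega), if_neg (by omega), if_pos (by omega), show (4 * x + 2) / 4 = x by omega]

theorem rk_Q (x : ℕ) : p.rk w (Q x) = if p.tv w x = true then 0 else 2 := by
  unfold rk Q
  rw [if_neg (by omega), if_neg (by omega), if_neg (by omega), show (4 * x + 3) / 4 = x by omega]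

theorem tv_plc {s : ℕ} (hs : s < p.M) : p.tv w (p.plc s) = p.tr w s := by
  unfold tv tr
  rw [plc_div hs]

theorem tv_px (x : ℕ) : p.tv w (p.px x) = p.tv w x := by
  unfold tv
  rw [(px_spec x).1]

theorem tv_nx (x : ℕ) : p.tv w (p.nx x) = p.tv w x := by
  unfold tv
  rw [(nx_spec x).1]

theorem tr_mod {x : ℕ} (h : p.occ x = true) : p.tr w (x % p.M) = p.tv w x := by
  rw [← tv_plc (mod_lt x), plc_of_occ h]

theorem isMatching (h : p.One w) : IsMatching p.inst (p.mu w) := by
  intro a ha
  have ha' := ha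
  rw [length_inst] at ha ⊢
  rw [pl_inst p ha]
  rcases cases4 a with ⟨s, rfl⟩ | ⟨s, rfl⟩ | ⟨x, rfl⟩ | ⟨x, rfl⟩
  · by_cases hs : s < p.M
    · have h1 := s1_lt hs
      have h2 := s2_lt hs
      have b0 := M_le_X hs
      have b1 := M_le_X h1
      have b2 := M_le_X h2
      rw [pf_A hs]
      rcases h s hs with ⟨t0, t1, t2⟩ | ⟨t0, t1, t2⟩ | ⟨t0, t1, t2⟩
      · have e : p.mu w (A s) = E s := by rw [mu_A hs, if_pos t0]
        rw [e, mu_E hs, if_pos t0]
        exact ⟨by unfold E; omega, rfl, fun _ => by simp⟩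
      · have e : p.mu w (A s) = A (s2 s) := by
          rw [mu_A hs, if_neg (by rw [t0]; simp), if_neg (by rw [t2]; simp)]
        rw [e, mu_A h2, if_neg (by rw [t2]; simp), s22, if_pos t1, s12]
        exact ⟨by unfold A; omega, rfl, fun _ => by simp⟩
      · have e : p.mu w (A s) = A (s1 s) := by
          rw [mu_A hs, if_neg (by rw [t0]; simp), if_pos t2]
        rw [e, mu_A h1, if_neg (by rw [t1]; simp), s21, if_neg (by rw [t0]; simp)]
        exact ⟨by unfold A; omega, rfl, fun _ => by simp⟩
    · rw [mu_A' hs]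
      exact ⟨ha, mu_A' hs, fun h => absurd rfl h⟩
  · by_cases hs : s < p.M
    · have h1 := s1_lt hs
      have h2 := s2_lt hs
      have b0 := M_le_X hs
      have b1 := plc_lt h1
      have b2 := px_lt (plc_lt h2)
      rw [pf_E hs]
      rcases h s hs with ⟨t0, t1, t2⟩ | ⟨t0, t1, t2⟩ | ⟨t0, t1, t2⟩
      · have e : p.mu w (E s) = A s := by rw [mu_E hs, if_pos t0]
        rw [e, mu_A hs, if_pos t0]
        exact ⟨by unfold A; omega, rfl, fun _ => by simp⟩
      · have e : p.mu w (E s) = P (p.plc (s1 s)) := by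
          rw [mu_E hs, if_neg (by rw [t0]; simp), if_pos t1]
        rw [e, mu_P, if_pos (by rw [tv_plc h1, t1]), pnode_plc h1, s21]
        exact ⟨by unfold P; omega, rfl, fun _ => by simp⟩
      · have e : p.mu w (E s) = Q (p.px (p.plc (s2 s))) := by
          rw [mu_E hs, if_neg (by rw [t0]; simp), if_neg (by rw [t1]; simp)]
        rw [e, mu_Q, if_pos (by rw [tv_px, tv_plc h2, t2]), nnode_px_plc h2, s12]
        exact ⟨by unfold Q; omega, rfl, fun _ => by simp⟩
    · rw [mu_E' hs]
      exact ⟨ha, mu_E' hs, fun h => absurd rfl h⟩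
  · have hx : x < p.X := by unfold P at ha; omega
    rw [pf_P]
    by_cases ht : p.tv w x = true
    · have e : p.mu w (P x) = p.pnode x := by rw [mu_P, if_pos ht]
      rw [e]
      refine ⟨pnode_lt hx, ?_, fun _ => by simp⟩
      rcases pnode_cases (p := p) x with ⟨ho, ep⟩ | ⟨ho, ep⟩
      · have hm := mod_lt (p := p) x
        have t1 : p.tr w (x % p.M) = true := by rw [tr_mod ho, ht]
        have t2 : p.tr w (s2 (x % p.M)) = false := by
          rcases h _ hm with ⟨-, -, t⟩ | ⟨t, -, -⟩ | ⟨t, -, -⟩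
          · exact t
          · rw [t1] at t; exact absurd t (by simp)
          · rw [t1] at t; exact absurd t (by simp)
        rw [ep, mu_E (s2_lt hm), if_neg (by rw [t2]; simp), s12, if_pos t1, plc_of_occ ho]
      · rw [ep, mu_Q, if_pos (by rw [tv_px, ht])]
        unfold nnode
        rw [nx_px, ho]
        simp
    · have e : p.mu w (P x) = Q x := by rw [mu_P, if_neg ht]
      rw [e, mu_Q, if_neg ht]
      exact ⟨by unfold Q; omega, rfl, fun _ => by simp⟩
  · have hx : x < p.X := by unfold Q at ha; omega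
    rw [pf_Q]
    by_cases ht : p.tv w x = true
    · have e : p.mu w (Q x) = p.nnode x := by rw [mu_Q, if_pos ht]
      rw [e]
      refine ⟨nnode_lt hx, ?_, fun _ => by simp⟩
      rcases nnode_cases (p := p) x with ⟨ho, ep⟩ | ⟨ho, ep⟩
      · have hm := mod_lt (p := p) (p.nx x)
        have t1 : p.tr w (p.nx x % p.M) = true := by rw [tr_mod ho, tv_nx, ht]
        have t2 : p.tr w (s1 (p.nx x % p.M)) = false ∧ p.tr w (s2 (p.nx x % p.M)) = false := by
          rcases h _ hm with ⟨-, t, t'⟩ | ⟨t, -, -⟩ | ⟨t, -, -⟩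
          · exact ⟨t, t'⟩
          · rw [t1] at t; exact absurd t (by simp)
          · rw [t1] at t; exact absurd t (by simp)
        rw [ep, mu_E (s1_lt hm), if_neg (by rw [t2.1]; simp), s11, if_neg (by rw [t2.2]; simp), s21,
          plc_of_occ ho, px_nx]
      · rw [ep, mu_P, if_pos (by rw [tv_nx, ht])]
        unfold pnode
        rw [px_nx, ho]
        simp
    · have e : p.mu w (Q x) = P x := by rw [mu_Q, if_neg ht]
      rw [e, mu_P, if_neg ht]
      exact ⟨by unfold P; omega, rfl, fun _ => by simp⟩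

theorem rk_E_le (s : ℕ) : p.rk w (E s) ≤ 1 := by
  rw [rk_E]
  split_ifs <;> omega

theorem AA {s t : ℕ} : A s = A t ↔ s = t := by unfold A; omega

theorem ne_AE (s t : ℕ) : A s ≠ E t := by unfold A E; omega
theorem ne_AP (s t : ℕ) : A s ≠ P t := by unfold A P; omega
theorem ne_AQ (s t : ℕ) : A s ≠ Q t := by unfold A Q; omega
theorem ne_EP (s t : ℕ) : E s ≠ P t := by unfold E P; omega
theorem ne_EQ (s t : ℕ) : E s ≠ Q t := by unfold E Q; omega
theorem ne_PQ (s t : ℕ) : P s ≠ Q t := by unfold P Q; omega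

theorem cycleStable (h : p.One w) : CycleStable p.inst (p.mu w) := by
  refine cycleStable_of_rank (p.rk w) ?_
  intro a ha b hb
  have ha' := ha
  rw [length_inst] at ha
  have hpl := pl_inst p ha
  rcases cases4 a with ⟨s, rfl⟩ | ⟨s, rfl⟩ | ⟨x, rfl⟩ | ⟨x, rfl⟩
  · by_cases hs : s < p.M
    · have h1 := s1_lt hs
      have h2 := s2_lt hs
      rw [pf_A hs] at hpl
      have k1 : A (s1 s) ≠ E s := ne_AE _ _
      have k2 : A (s1 s) ≠ A (s2 s) := fun e => s1_ne2 s (AA.1 e)
      have k3 : E s ≠ A (s2 s) := (ne_AE _ _).symm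
      rcases h s hs with ⟨t0, t1, t2⟩ | ⟨t0, t1, t2⟩ | ⟨t0, t1, t2⟩
      · have e : p.mu w (A s) = E s := by rw [mu_A hs, if_pos t0]
        have hne : p.mu w (A s) ≠ A s := by rw [e]; exact (ne_AE _ _).symm
        rcases wants_three hpl k1 k2 k3 hne hb with ⟨-, rfl⟩ | ⟨e', -⟩ | ⟨-, e', -⟩
        · rw [rk_A, rk_A, if_neg (by rw [t1]; simp), s21, if_pos t0, if_pos t0]
          omega
        · rw [e] at e'
          exact absurd e' k3
        · exact absurd e e'
      · have e : p.mu w (A s) = A (s2 s) := by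
          rw [mu_A hs, if_neg (by rw [t0]; simp), if_neg (by rw [t2]; simp)]
        have hne : p.mu w (A s) ≠ A s := by rw [e]; exact fun h => s2_ne s (AA.1 h)
        have er : p.rk w (A s) = 2 := by
          rw [rk_A, if_neg (by rw [t0]; simp), if_neg (by rw [t2]; simp)]
        rcases wants_three hpl k1 k2 k3 hne hb with ⟨e', -⟩ | ⟨-, rfl | rfl⟩ | ⟨-, -, e'⟩
        · rw [e] at e'
          exact absurd e'.symm k3
        · rw [er, rk_A, if_pos t1]
          omega
        · have := rk_E_le (p := p) (w := w) s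
          omega
        · exact absurd e e'
      · have e : p.mu w (A s) = A (s1 s) := by
          rw [mu_A hs, if_neg (by rw [t0]; simp), if_pos t2]
        have hne : p.mu w (A s) ≠ A s := by rw [e]; exact fun h => s1_ne s (AA.1 h)
        rcases wants_three hpl k1 k2 k3 hne hb with ⟨e', -⟩ | ⟨e', -⟩ | ⟨e', -, -⟩
        · rw [e] at e'
          exact absurd e' k1
        · rw [e] at e'
          exact absurd e' k2
        · exact absurd e e'
    · rw [pf_A' hs] at hpl
      unfold Wants at hb
      rw [hpl] at hb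
      simp at hb
  · by_cases hs : s < p.M
    · have h1 := s1_lt hs
      have h2 := s2_lt hs
      rw [pf_E hs] at hpl
      have k1 : P (p.plc (s1 s)) ≠ A s := (ne_AP _ _).symm
      have k2 : P (p.plc (s1 s)) ≠ Q (p.px (p.plc (s2 s))) := ne_PQ _ _
      have k3 : A s ≠ Q (p.px (p.plc (s2 s))) := ne_AQ _ _
      rcases h s hs with ⟨t0, t1, t2⟩ | ⟨t0, t1, t2⟩ | ⟨t0, t1, t2⟩
      · have e : p.mu w (E s) = A s := by rw [mu_E hs, if_pos t0]
        have hne : p.mu w (E s) ≠ E s := by rw [e]; exact ne_AE _ _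
        rcases wants_three hpl k1 k2 k3 hne hb with ⟨-, rfl⟩ | ⟨e', -⟩ | ⟨-, e', -⟩
        · rw [rk_P, rk_E, if_pos t0, tv_plc h1, if_neg (by rw [t1]; simp)]
          omega
        · rw [e] at e'
          exact absurd e' k3
        · exact absurd e e'
      · have e : p.mu w (E s) = P (p.plc (s1 s)) := by
          rw [mu_E hs, if_neg (by rw [t0]; simp), if_pos t1]
        have hne : p.mu w (E s) ≠ E s := by rw [e]; exact (ne_EP _ _).symm
        rcases wants_three hpl k1 k2 k3 hne hb with ⟨e', -⟩ | ⟨e', -⟩ | ⟨e', -, -⟩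
        · rw [e] at e'
          exact absurd e' k1
        · rw [e] at e'
          exact absurd e' k2
        · exact absurd e e'
      · have e : p.mu w (E s) = Q (p.px (p.plc (s2 s))) := by
          rw [mu_E hs, if_neg (by rw [t0]; simp), if_neg (by rw [t1]; simp)]
        have hne : p.mu w (E s) ≠ E s := by rw [e]; exact (ne_EQ _ _).symm
        have er : p.rk w (E s) = 1 := by
          rw [rk_E, if_neg (by rw [t0]; simp), if_neg (by rw [t1]; simp)]
        rcases wants_three hpl k1 k2 k3 hne hb with ⟨e', -⟩ | ⟨-, rfl | rfl⟩ | ⟨-, -, e'⟩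
        · rw [e] at e'
          exact absurd e'.symm k3
        · rw [er, rk_P, tv_plc h1, if_neg (by rw [t1]; simp)]
          omega
        · rw [er, rk_A, if_neg (by rw [t0]; simp), if_pos t2]
          omega
        · exact absurd e e'
    · rw [pf_E' hs] at hpl
      unfold Wants at hb
      rw [hpl] at hb
      simp at hb
  · rw [pf_P] at hpl
    have k1 : Q x ≠ p.pnode x := fun e => (pnode_ne (p := p) x).1 e.symm
    by_cases ht : p.tv w x = true
    · have e : p.mu w (P x) = p.pnode x := by rw [mu_P, if_pos ht]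
      have hne : p.mu w (P x) ≠ P x := by rw [e]; exact (pnode_ne x).2
      rcases wants_two hpl k1 hne hb with ⟨-, rfl⟩ | ⟨-, e'⟩
      · rw [rk_Q, rk_P, if_pos ht, if_pos ht]
        omega
      · exact absurd e e'
    · have e : p.mu w (P x) = Q x := by rw [mu_P, if_neg ht]
      have hne : p.mu w (P x) ≠ P x := by rw [e]; exact (ne_PQ _ _).symm
      rcases wants_two hpl k1 hne hb with ⟨e', -⟩ | ⟨e', -⟩
      · rw [e] at e'
        exact absurd e' k1
      · exact absurd e e'
  · rw [pf_Q] at hpl
    have k1 : p.nnode x ≠ P x := (nnode_ne x).1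
    by_cases ht : p.tv w x = true
    · have e : p.mu w (Q x) = p.nnode x := by rw [mu_Q, if_pos ht]
      have hne : p.mu w (Q x) ≠ Q x := by rw [e]; exact (nnode_ne x).2
      rcases wants_two hpl k1 hne hb with ⟨e', -⟩ | ⟨e', -⟩
      · rw [e] at e'
        exact absurd e' k1
      · exact absurd e e'
    · have e : p.mu w (Q x) = P x := by rw [mu_Q, if_neg ht]
      have hne : p.mu w (Q x) ≠ Q x := by rw [e]; exact ne_PQ _ _
      rcases wants_two hpl k1 hne hb with ⟨-, rfl⟩ | ⟨-, e'⟩
      · rw [rk_Q, if_neg ht]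
        rcases nnode_cases (p := p) x with ⟨ho, ep⟩ | ⟨ho, ep⟩
        · rw [ep]
          have := rk_E_le (p := p) (w := w) (s1 (p.nx x % p.M))
          omega
        · rw [ep, rk_P, tv_nx, if_neg ht]
          omega
      · exact absurd e e'

end Par

end Pool.Agent.Q325.CS
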