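import Pool.Agent.Q325.CsDefs

/-!
# The instance for a list of positive clauses

There are `K` clauses, with `3 K` positions; the variable at position `s` is `vs s < V`.
-/

set_option autoImplicit false

namespace Pool.Agent.Q325.CS

/-- the parameters -/
structure Par where
  K : ℕ
  V : ℕ
  vs : ℕ → ℕ
  pos : 0 < K
  lt : ∀ s < 3 * K, vs s < V

namespace Par

variable (p : Par)

def M : ℕ := 3 * p.K

/-- number of the vertices of the rings -/
def X : ℕ := p.V * p.M

/-- the next position in the clause -/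
def s1 (s : ℕ) : ℕ := if s % 3 = 2 then s - 2 else s + 1

/-- the previous position in the clause -/
def s2 (s : ℕ) : ℕ := if s % 3 = 0 then s + 2 else s - 1

/-- next place of a ring -/
def nx (x : ℕ) : ℕ := if x % p.M + 1 = p.M then x + 1 - p.M else x + 1

/-- previous place of a ring -/
def px (x : ℕ) : ℕ := if x % p.M = 0 then x + p.M - 1 else x - 1

/-- does the variable of the ring occur at this place? -/
def occ (x : ℕ) : Bool := decide (p.vs (x % p.M) = x / p.M)

/-- the place of a position on the ring of its variable -/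
def plc (s : ℕ) : ℕ := p.vs s * p.M + s

def A (s : ℕ) : ℕ := 4 * s
def E (s : ℕ) : ℕ := 4 * s + 1
def P (x : ℕ) : ℕ := 4 * x + 2
def Q (x : ℕ) : ℕ := 4 * x + 3

def pnode (x : ℕ) : ℕ := if p.occ x = true then E (s2 (x % p.M)) else Q (p.px x)

def nnode (x : ℕ) : ℕ := if p.occ (p.nx x) = true then E (s1 (p.nx x % p.M)) else P (p.nx x)

/-- the preference lists -/
def pf (a : ℕ) : List ℕ :=
  if a % 4 = 0 then (if a / 4 < p.M then [A (s1 (a / 4)), E (a / 4), A (s2 (a / 4))] else [])
  else if a % 4 = 1 then (if a / 4 < p.M then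
    [P (p.plc (s1 (a / 4))), A (a / 4), Q (p.px (p.plc (s2 (a / 4))))] else [])
  else if a % 4 = 2 then [Q (a / 4), p.pnode (a / 4)]
  else [p.nnode (a / 4), P (a / 4)]

/-- the instance -/
def inst : List (List ℕ) := (List.range (4 * p.X)).map p.pf

theorem length_inst : p.inst.length = 4 * p.X := by simp [inst]

theorem pl_inst {a : ℕ} (ha : a < 4 * p.X) : pl p.inst a = p.pf a := by
  unfold pl inst
  rw [List.getD_eq_getElem _ _ (by simpa using ha)]
  simp

variable {p}

theorem M3 : 3 ≤ p.M := by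
  have := p.pos
  unfold M
  omega

theorem vs_lt {s : ℕ} (hs : s < p.M) : p.vs s < p.V := p.lt s hs

theorem s1_lt {s : ℕ} (hs : s < p.M) : s1 s < p.M := by
  unfold s1 M at *
  split_ifs <;> omega

theorem s2_lt {s : ℕ} (hs : s < p.M) : s2 s < p.M := by
  unfold s2 M at *
  split_ifs <;> omega

theorem s12 (s : ℕ) : s1 (s2 s) = s := by
  unfold s1 s2
  split_ifs <;> omega

theorem s21 (s : ℕ) : s2 (s1 s) = s := by
  unfold s1 s2
  split_ifs <;> omega

theorem s11 (s : ℕ) : s1 (s1 s) = s2 s := by
  unfold s1 s2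
  split_ifs <;> omega

theorem s22 (s : ℕ) : s2 (s2 s) = s1 s := by
  unfold s1 s2
  split_ifs <;> omega

theorem s1_ne (s : ℕ) : s1 s ≠ s := by
  unfold s1
  split_ifs <;> omega

theorem s2_ne (s : ℕ) : s2 s ≠ s := by
  unfold s2
  split_ifs <;> omega

theorem s1_ne2 (s : ℕ) : s1 s ≠ s2 s := by
  unfold s1 s2
  split_ifs <;> omega

theorem dm {m : ℕ} (q r : ℕ) (hr : r < m) : (q * m + r) / m = q ∧ (q * m + r) % m = r := by
  constructor
  · rw [mul_comm, Nat.mul_add_div (by omega), Nat.div_eq_of_lt hr, add_zero]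
  · rw [Nat.mul_add_mod_of_lt hr]

theorem plc_mod {s : ℕ} (hs : s < p.M) : p.plc s % p.M = s := (dm (p.vs s) s hs).2

theorem plc_div {s : ℕ} (hs : s < p.M) : p.plc s / p.M = p.vs s := (dm (p.vs s) s hs).1

theorem plc_lt {s : ℕ} (hs : s < p.M) : p.plc s < p.X := by
  have h1 := vs_lt hs
  unfold plc X
  have h2 : (p.vs s + 1) * p.M ≤ p.V * p.M := Nat.mul_le_mul_right _ h1
  rw [add_mul, one_mul] at h2
  omega

theorem occ_plc {s : ℕ} (hs : s < p.M) : p.occ (p.plc s) = true := by
  unfold occ
  rw [plc_mod hs, plc_div hs]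
  simp

theorem plc_of_occ {x : ℕ} (h : p.occ x = true) : p.plc (x % p.M) = x := by
  unfold occ at h
  unfold plc
  rw [of_decide_eq_true h, Nat.div_add_mod']

theorem eq_of_div_mod {x y : ℕ} (h1 : x / p.M = y / p.M) (h2 : x % p.M = y % p.M) : x = y := by
  rw [← Nat.div_add_mod' x p.M, ← Nat.div_add_mod' y p.M, h1, h2]

theorem nx_spec (x : ℕ) : p.nx x / p.M = x / p.M ∧
    p.nx x % p.M = (if x % p.M + 1 = p.M then 0 else x % p.M + 1) := by
  have h3 := M3 (p := p)
  have hx := Nat.div_add_mod' x p.M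
  have hlt := Nat.mod_lt x (show 0 < p.M by omega)
  unfold nx
  split_ifs with h
  · have e : x + 1 - p.M = x / p.M * p.M + 0 := by omega
    have := dm (x / p.M) 0 (show 0 < p.M by omega)
    rw [e]
    exact this
  · have e : x + 1 = x / p.M * p.M + (x % p.M + 1) := by omega
    have := dm (x / p.M) (x % p.M + 1) (show x % p.M + 1 < p.M by omega)
    rw [← e] at this
    exact this

theorem px_spec (x : ℕ) : p.px x / p.M = x / p.M ∧
    p.px x % p.M = (if x % p.M = 0 then p.M - 1 else x % p.M - 1) := by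
  have h3 := M3 (p := p)
  have hx := Nat.div_add_mod' x p.M
  have hlt := Nat.mod_lt x (show 0 < p.M by omega)
  unfold px
  split_ifs with h
  · have e : x + p.M - 1 = x / p.M * p.M + (p.M - 1) := by omega
    have := dm (x / p.M) (p.M - 1) (show p.M - 1 < p.M by omega)
    rw [← e] at this
    exact this
  · have e : x - 1 = x / p.M * p.M + (x % p.M - 1) := by omega
    have := dm (x / p.M) (x % p.M - 1) (show x % p.M - 1 < p.M by omega)
    rw [← e] at this
    exact this

theorem nx_px (x : ℕ) : p.nx (p.px x) = x := by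
  have h3 := M3 (p := p)
  obtain ⟨a1, a2⟩ := px_spec (p := p) x
  obtain ⟨b1, b2⟩ := nx_spec (p := p) (p.px x)
  have hlt := Nat.mod_lt x (show 0 < p.M by omega)
  refine eq_of_div_mod (b1.trans a1) ?_
  by_cases h : x % p.M = 0
  · rw [if_pos h] at a2
    rw [b2, a2, if_pos (by omega), h]
  · rw [if_neg h] at a2
    rw [b2, a2, if_neg (by omega)]
    omega

theorem px_nx (x : ℕ) : p.px (p.nx x) = x := by
  have h3 := M3 (p := p)
  obtain ⟨a1, a2⟩ := nx_spec (p := p) x
  obtain ⟨b1, b2⟩ := px_spec (p := p) (p.nx x)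
  have hlt := Nat.mod_lt x (show 0 < p.M by omega)
  refine eq_of_div_mod (b1.trans a1) ?_
  by_cases h : x % p.M + 1 = p.M
  · rw [if_pos h] at a2
    rw [b2, a2, if_pos rfl]
    omega
  · rw [if_neg h] at a2
    rw [b2, a2, if_neg (by omega)]
    omega

theorem px_ne (x : ℕ) : p.px x ≠ x := by
  have h3 := M3 (p := p)
  obtain ⟨a1, a2⟩ := px_spec (p := p) x
  intro h
  rw [h] at a2
  split_ifs at a2 <;> omega

theorem nx_ne (x : ℕ) : p.nx x ≠ x := by
  intro h
  have := px_nx (p := p) x
  rw [h] at this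
  exact px_ne x this

theorem lt_X_iff {x : ℕ} : x < p.X ↔ x / p.M < p.V := by
  unfold X
  rw [Nat.div_lt_iff_lt_mul (by have := M3 (p := p); omega)]

theorem nx_lt {x : ℕ} (hx : x < p.X) : p.nx x < p.X := by
  rw [lt_X_iff] at *
  rw [(nx_spec x).1]
  exact hx

theorem px_lt {x : ℕ} (hx : x < p.X) : p.px x < p.X := by
  rw [lt_X_iff] at *
  rw [(px_spec x).1]
  exact hx

theorem M_le_X {s : ℕ} (hs : s < p.M) : s < p.X := by
  have h1 := vs_lt hs
  unfold X
  calc s < 1 * p.M := by omega
    _ ≤ p.V * p.M := Nat.mul_le_mul_right _ (by omega)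

theorem mod_lt (x : ℕ) : x % p.M < p.M := Nat.mod_lt _ (by have := M3 (p := p); omega)

/-! ### The lists -/

theorem pf_A {s : ℕ} (hs : s < p.M) : p.pf (A s) = [A (s1 s), E s, A (s2 s)] := by
  unfold pf A
  rw [if_pos (by omega), show 4 * s / 4 = s by omega, if_pos hs]

theorem pf_E {s : ℕ} (hs : s < p.M) :
    p.pf (E s) = [P (p.plc (s1 s)), A s, Q (p.px (p.plc (s2 s)))] := by
  unfold pf E
  rw [if_neg (by omega), if_pos (by omega), show (4 * s + 1) / 4 = s by omega, if_pos hs]

theorem pf_P (x : ℕ) : p.pf (P x) = [Q x, p.pnode x] := by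
  unfold pf P
  rw [if_neg (by omega), if_neg (by omega), if_pos (by omega), show (4 * x + 2) / 4 = x by omega]

theorem pf_Q (x : ℕ) : p.pf (Q x) = [p.nnode x, P x] := by
  unfold pf Q
  rw [if_neg (by omega), if_neg (by omega), if_neg (by omega), show (4 * x + 3) / 4 = x by omega]

theorem pf_A' {s : ℕ} (hs : ¬ s < p.M) : p.pf (A s) = [] := by
  unfold pf A
  rw [if_pos (by omega), show 4 * s / 4 = s by omega, if_neg hs]

theorem pf_E' {s : ℕ} (hs : ¬ s < p.M) : p.pf (E s) = [] := by
  unfold pf E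
  rw [if_neg (by omega), if_pos (by omega), show (4 * s + 1) / 4 = s by omega, if_neg hs]

theorem cases4 (a : ℕ) : (∃ s, a = A s) ∨ (∃ s, a = E s) ∨ (∃ x, a = P x) ∨ ∃ x, a = Q x := by
  unfold A E P Q
  have : a % 4 = 0 ∨ a % 4 = 1 ∨ a % 4 = 2 ∨ a % 4 = 3 := by omega
  rcases this with h | h | h | h
  · exact Or.inl ⟨a / 4, by omega⟩
  · exact Or.inr (Or.inl ⟨a / 4, by omega⟩)
  · exact Or.inr (Or.inr (Or.inl ⟨a / 4, by omega⟩))
  · exact Or.inr (Or.inr (Or.inr ⟨a / 4, by omega⟩))

/-! ### Neighbours -/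

theorem pnode_plc {s : ℕ} (hs : s < p.M) : p.pnode (p.plc s) = E (s2 s) := by
  unfold pnode
  rw [if_pos (occ_plc hs), plc_mod hs]

theorem nnode_px_plc {s : ℕ} (hs : s < p.M) : p.nnode (p.px (p.plc s)) = E (s1 s) := by
  unfold nnode
  rw [nx_px, if_pos (occ_plc hs), plc_mod hs]

/-- the predecessor of `P x` -/
theorem pnode_cases (x : ℕ) : (p.occ x = true ∧ p.pnode x = E (s2 (x % p.M))) ∨
    (p.occ x = false ∧ p.pnode x = Q (p.px x)) := by
  unfold pnode
  cases h : p.occ x <;> simp

theorem nnode_cases (x : ℕ) : (p.occ (p.nx x) = true ∧ p.nnode x = E (s1 (p.nx x % p.M))) ∨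
    (p.occ (p.nx x) = false ∧ p.nnode x = P (p.nx x)) := by
  unfold nnode
  cases h : p.occ (p.nx x) <;> simp

theorem mem_pnode (x : ℕ) : P x ∈ p.pf (p.pnode x) := by
  rcases pnode_cases (p := p) x with ⟨h, e⟩ | ⟨h, e⟩
  · rw [e, pf_E (s2_lt (mod_lt x)), s12, plc_of_occ h]
    simp
  · rw [e, pf_Q]
    unfold nnode
    rw [nx_px, h]
    simp

theorem mem_nnode (x : ℕ) : Q x ∈ p.pf (p.nnode x) := by
  rcases nnode_cases (p := p) x with ⟨h, e⟩ | ⟨h, e⟩
  · rw [e, pf_E (s1_lt (mod_lt _)), s21, plc_of_occ h, px_nx]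
    simp
  · rw [e, pf_P]
    unfold pnode
    rw [px_nx, h]
    simp

theorem pnode_lt {x : ℕ} (hx : x < p.X) : p.pnode x < 4 * p.X := by
  rcases pnode_cases (p := p) x with ⟨h, e⟩ | ⟨h, e⟩
  · rw [e]
    have := M_le_X (s2_lt (mod_lt (p := p) x))
    unfold E
    omega
  · rw [e]
    have := px_lt hx
    unfold Q
    omega

theorem nnode_lt {x : ℕ} (hx : x < p.X) : p.nnode x < 4 * p.X := by
  rcases nnode_cases (p := p) x with ⟨h, e⟩ | ⟨h, e⟩
  · rw [e]
    have := M_le_X (s1_lt (mod_lt (p := p) (p.nx x)))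
    unfold E
    omega
  · rw [e]
    have := nx_lt hx
    unfold P
    omega

theorem pnode_ne (x : ℕ) : p.pnode x ≠ Q x ∧ p.pnode x ≠ P x := by
  rcases pnode_cases (p := p) x with ⟨h, e⟩ | ⟨h, e⟩
  · rw [e]
    unfold E P Q
    omega
  · rw [e]
    have := px_ne (p := p) x
    unfold P Q
    omega

theorem nnode_ne (x : ℕ) : p.nnode x ≠ P x ∧ p.nnode x ≠ Q x := by
  rcases nnode_cases (p := p) x with ⟨h, e⟩ | ⟨h, e⟩
  · rw [e]
    unfold E P Q
    omega
  · rw [e]
    have := nx_ne (p := p) x
    unfold P Q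
    omega

theorem isInst : IsInst p.inst := by
  intro a ha
  rw [length_inst] at ha ⊢
  have key : (p.pf a).Nodup ∧ ∀ b ∈ p.pf a, b < 4 * p.X ∧ b ≠ a ∧ a ∈ p.pf b := by
    rcases cases4 a with ⟨s, rfl⟩ | ⟨s, rfl⟩ | ⟨x, rfl⟩ | ⟨x, rfl⟩
    · by_cases hs : s < p.M
      · have h1 := s1_lt hs
        have h2 := s2_lt hs
        have b1 := M_le_X h1
        have b2 := M_le_X h2
        have b0 := M_le_X hs
        have c1 := s1_ne s
        have c2 := s2_ne s
        have c3 := s1_ne2 s
        rw [pf_A hs]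
        refine ⟨?_, ?_⟩
        · simp only [List.nodup_cons, List.mem_cons, List.not_mem_nil, or_false, not_false_eq_true,
            List.nodup_nil, and_true]
          unfold A E
          omega
        · intro b hb
          simp only [List.mem_cons, List.not_mem_nil, or_false] at hb
          rcases hb with rfl | rfl | rfl
          · rw [pf_A h1, s21]
            refine ⟨by unfold A; omega, by unfold A; omega, by simp⟩
          · rw [pf_E hs]
            refine ⟨by unfold E; omega, by unfold A E; omega, by simp⟩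
          · rw [pf_A h2, s12]
            refine ⟨by unfold A; omega, by unfold A; omega, by simp⟩
      · rw [pf_A' hs]
        simp
    · by_cases hs : s < p.M
      · have h1 := s1_lt hs
        have h2 := s2_lt hs
        have b1 := plc_lt h1
        have b2 := px_lt (plc_lt h2)
        have b0 := M_le_X hs
        rw [pf_E hs]
        refine ⟨?_, ?_⟩
        · simp only [List.nodup_cons, List.mem_cons, List.not_mem_nil, or_false, not_false_eq_true,
            List.nodup_nil, and_true]
          unfold A P Q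
          omega
        · intro b hb
          simp only [List.mem_cons, List.not_mem_nil, or_false] at hb
          rcases hb with rfl | rfl | rfl
          · rw [pf_P, pnode_plc h1, s21]
            refine ⟨by unfold P; omega, by unfold P E; omega, by simp⟩
          · rw [pf_A hs]
            refine ⟨by unfold A; omega, by unfold A E; omega, by simp⟩
          · rw [pf_Q, nnode_px_plc h2, s12]
            refine ⟨by unfold Q; omega, by unfold Q E; omega, by simp⟩
      · rw [pf_E' hs]
        simp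
    · have hx : x < p.X := by unfold P at ha; omega
      have h1 := pnode_ne (p := p) x
      rw [pf_P]
      refine ⟨?_, ?_⟩
      · simp only [List.nodup_cons, List.mem_cons, List.not_mem_nil, or_false, not_false_eq_true,
          List.nodup_nil, and_true]
        exact fun h => h1.1 h.symm
      · intro b hb
        simp only [List.mem_cons, List.not_mem_nil, or_false] at hb
        rcases hb with rfl | rfl
        · rw [pf_Q]
          refine ⟨by unfold Q; omega, by unfold P Q; omega, by simp⟩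
        · exact ⟨pnode_lt hx, h1.2, mem_pnode x⟩
    · have hx : x < p.X := by unfold Q at ha; omega
      have h1 := nnode_ne (p := p) x
      rw [pf_Q]
      refine ⟨?_, ?_⟩
      · simp only [List.nodup_cons, List.mem_cons, List.not_mem_nil, or_false, not_false_eq_true,
          List.nodup_nil, and_true]
        exact h1.1
      · intro b hb
        simp only [List.mem_cons, List.not_mem_nil, or_false] at hb
        rcases hb with rfl | rfl
        · exact ⟨nnode_lt hx, h1.2, mem_nnode x⟩
        · rw [pf_P]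
          refine ⟨by unfold P; omega, by unfold P Q; omega, by simp⟩
  rw [pl_inst p ha]
  refine ⟨key.1, fun b hb => ?_⟩
  obtain ⟨k1, k2, k3⟩ := key.2 b hb
  rw [pl_inst p k1]
  exact ⟨k1, k2, k3⟩

theorem length_le {a : ℕ} (ha : a < p.inst.length) : (pl p.inst a).length ≤ 3 := by
  rw [length_inst] at ha
  rw [pl_inst p ha]
  unfold pf
  split_ifs <;> simp

end Par

end Pool.Agent.Q325.CS
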