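import Pool.Agent.Q325.CsRed
import Pool.Agent.NPC.Dec

/-!
# Membership in NP
-/

set_option autoImplicit false

namespace Pool.Agent.NPC.Q325CS

open Pool.Agent.Q325.CS

section rank

variable {T : List (List ℕ)} {M : ℕ → ℕ}

/-- arcs -/
def Arc (T : List (List ℕ)) (M : ℕ → ℕ) (a b : ℕ) : Prop := a < T.length ∧ Wants T M a b

theorem Arc.lt (hI : IsInst T) {a b : ℕ} (h : Arc T M a b) : b < T.length ∧ b ≠ a := by
  obtain ⟨h1, h2, -⟩ := (hI a h.1).2 b h.2.1
  exact ⟨h1, h2⟩

theorem walk_of_transGen {a b : ℕ} (h : Relation.TransGen (Arc T M) a b) :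
    ∃ (k : ℕ) (c : ℕ → ℕ), 1 ≤ k ∧ c 0 = a ∧ c k = b ∧ ∀ i < k, Arc T M (c i) (c (i + 1)) := by
  induction h with
  | single h =>
    rename_i b
    refine ⟨1, fun i => if i = 0 then a else b, le_rfl, rfl, rfl, ?_⟩
    intro i hi
    interval_cases i
    simpa using h
  | tail _ h ih =>
    rename_i b d _
    obtain ⟨k, c, h1, h2, h3, h4⟩ := ih
    refine ⟨k + 1, fun i => if i ≤ k then c i else d, by omega, ?_, ?_, ?_⟩
    · simpa using h2
    · simp
    · intro i hi
      dsimp only
      rcases Nat.lt_or_ge i k with hlt | hge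
      · rw [if_pos (by omega), if_pos (by omega)]
        exact h4 i hlt
      · have e : i = k := by omega
        subst e
        rw [if_pos le_rfl, if_neg (by omega), h3]
        exact h

theorem acyclic (hI : IsInst T) (hS : CycleStable T M) (a : ℕ) :
    ¬ Relation.TransGen (Arc T M) a a := by
  intro h
  classical
  obtain ⟨k, c, h1, h2, h3, h4⟩ := walk_of_transGen h
  have hex : ∃ k, 1 ≤ k ∧ ∃ c : ℕ → ℕ, c k = c 0 ∧ ∀ i < k, Arc T M (c i) (c (i + 1)) :=
    ⟨k, h1, c, h3.trans h2.symm, h4⟩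
  obtain ⟨hk, d, hd1, hd2⟩ := Nat.find_spec hex
  have hmin := fun m => Nat.find_min hex (m := m)
  generalize Nat.find hex = K at *
  have inj : ∀ i j, i < j → j < K → d i ≠ d j := by
    intro i j hij hj e
    refine hmin (j - i) (by omega) ⟨by omega, fun t => d (i + t), ?_, ?_⟩
    · dsimp only
      rw [show i + (j - i) = j by omega, add_zero, e]
    · intro t ht
      exact hd2 (i + t) (by omega)
  have hK2 : 2 ≤ K := by
    by_contra hlt
    have e : K = 1 := by omega
    subst e
    have h5 := hd2 0 (by omega)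
    rw [zero_add, hd1] at h5
    exact (h5.lt hI).2 rfl
  refine hS K d ⟨hK2, fun i hi => (hd2 i hi).1, ?_, hd1, fun i hi => (hd2 i hi).2⟩
  intro i hi j hj e
  rcases Nat.lt_trichotomy i j with hlt | heq | hgt
  · exact absurd e (inj i j hlt hj)
  · exact heq
  · exact absurd e.symm (inj j i hgt hi)

theorem cycleStable_iff (hI : IsInst T) : CycleStable T M ↔ ∃ r : ℕ → ℕ, (∀ a, r a ≤ T.length) ∧
    ∀ a < T.length, ∀ b, Wants T M a b → r b < r a := by
  classical
  constructor
  · intro hS
    have hsub : ∀ a b, Relation.TransGen (Arc T M) a b → b < T.length := by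
      intro a b h
      induction h with
      | single h => exact (h.lt hI).1
      | tail _ h _ => exact (h.lt hI).1
    refine ⟨fun a => ((Finset.range T.length).filter
      (fun b => Relation.TransGen (Arc T M) a b)).card, ?_, ?_⟩
    · intro a
      exact (Finset.card_filter_le _ _).trans (by simp)
    · intro a ha b hab
      refine Finset.card_lt_card ?_
      have harc : Arc T M a b := ⟨ha, hab⟩
      refine (Finset.ssubset_iff_of_subset ?_).2 ⟨b, ?_, ?_⟩
      · intro c hc
        rw [Finset.mem_filter] at hc ⊢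
        exact ⟨hc.1, Relation.TransGen.head harc hc.2⟩
      · rw [Finset.mem_filter, Finset.mem_range]
        exact ⟨(harc.lt hI).1, Relation.TransGen.single harc⟩
      · rw [Finset.mem_filter]
        exact fun h => acyclic hI hS b h.2
  · rintro ⟨r, -, hr⟩
    exact cycleStable_of_rank r hr

theorem threeCycleStable_iff (hI : IsInst T) : ThreeCycleStable T M ↔
    ∀ a < T.length, ∀ b, Wants T M a b → ¬ Wants T M b a ∧
      ∀ c, Wants T M b c → ¬ Wants T M c a := by
  constructor
  · intro hS a ha b hab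
    obtain ⟨hb, hne, -⟩ := (hI a ha).2 b hab.1
    refine ⟨fun h => noPair hS ha hb (Ne.symm hne) hab h, fun c hbc hca => ?_⟩
    obtain ⟨hc, hne2, -⟩ := (hI b hb).2 c hbc.1
    obtain ⟨-, hne3, -⟩ := (hI c hc).2 a hca.1
    exact noTriple hS ha hb hc (Ne.symm hne) hne3 (Ne.symm hne2) hab hbc hca
  · rintro h k hk c ⟨h1, h2, h3, h4, h5⟩
    have hk' : k = 2 ∨ k = 3 := by omega
    rcases hk' with rfl | rfl
    · have h6 := h5 1 (by omega)
      rw [show (1 : ℕ) + 1 = 2 from rfl, h4] at h6
      exact (h _ (h2 0 (by omega)) _ (h5 0 (by omega))).1 h6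
    · have h6 := h5 2 (by omega)
      rw [show (2 : ℕ) + 1 = 3 from rfl, h4] at h6
      exact (h _ (h2 0 (by omega)) _ (h5 0 (by omega))).2 _ (h5 1 (by omega)) h6

end rank

/-! ### The tests -/

/-- test for instances with lists of length at most `L` -/
def instB (L : ℕ) (T : List (List ℕ)) : Bool := (List.range T.length).all fun a =>
  decide ((pl T a).dedup = pl T a) && (decide ((pl T a).length ≤ L) && (pl T a).all fun b =>
    decide (b < T.length) && (!decide (b = a) && decide (a ∈ pl T b)))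

theorem instB_iff (L : ℕ) (T : List (List ℕ)) : instB L T = true ↔
    IsInst T ∧ ∀ a < T.length, (pl T a).length ≤ L := by
  unfold instB IsInst
  simp only [List.all_eq_true, List.mem_range, Bool.and_eq_true, decide_eq_true_eq,
    Bool.not_eq_true', decide_eq_false_iff_not, List.dedup_eq_self]
  constructor
  · intro h
    exact ⟨fun a ha => ⟨(h a ha).1, (h a ha).2.2⟩, fun a ha => (h a ha).2.1⟩
  · intro h a ha
    exact ⟨(h.1 a ha).1, h.2 a ha, (h.1 a ha).2⟩

/-- test for matchings -/
def matchB (T : List (List ℕ)) (μ : List ℕ) : Bool := (List.range T.length).all fun a =>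
  decide (μ.getD a 0 < T.length) && (decide (μ.getD (μ.getD a 0) 0 = a) &&
    (decide (μ.getD a 0 = a) || decide (μ.getD a 0 ∈ pl T a)))

theorem matchB_iff (T : List (List ℕ)) (μ : List ℕ) : matchB T μ = true ↔
    IsMatching T (fun a => μ.getD a 0) := by
  unfold matchB IsMatching
  simp only [List.all_eq_true, List.mem_range, Bool.and_eq_true, decide_eq_true_eq,
    Bool.or_eq_true]
  constructor
  · intro h a ha
    exact ⟨(h a ha).1, (h a ha).2.1, fun hne => (h a ha).2.2.resolve_left hne⟩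
  · intro h a ha
    refine ⟨(h a ha).1, (h a ha).2.1, ?_⟩
    by_cases e : μ.getD a 0 = a
    · exact Or.inl e
    · exact Or.inr ((h a ha).2.2 e)

def wantsB (T : List (List ℕ)) (μ : List ℕ) (a b : ℕ) : Bool :=
  decide (b ∈ pl T a) && (decide (μ.getD a 0 = a) ||
    decide ((pl T a).idxOf b < (pl T a).idxOf (μ.getD a 0)))

theorem wantsB_iff (T : List (List ℕ)) (μ : List ℕ) (a b : ℕ) : wantsB T μ a b = true ↔
    Wants T (fun a => μ.getD a 0) a b := by
  simp [wantsB, Wants]

/-- test for cycle stability, with ranks -/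
def csB (T : List (List ℕ)) (μ ρ : List ℕ) : Bool := (List.range T.length).all fun a =>
  (pl T a).all fun b => !wantsB T μ a b || decide (ρ.getD b 0 < ρ.getD a 0)

theorem csB_iff (T : List (List ℕ)) (μ ρ : List ℕ) : csB T μ ρ = true ↔
    ∀ a < T.length, ∀ b, Wants T (fun a => μ.getD a 0) a b → ρ.getD b 0 < ρ.getD a 0 := by
  unfold csB
  simp only [List.all_eq_true, List.mem_range, decide_eq_true_eq, Bool.or_eq_true,
    Bool.not_eq_true']
  constructor
  · intro h a ha b hab
    rcases h a ha b hab.1 with h1 | h1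
    · rw [← wantsB_iff, h1] at hab
      exact absurd hab (by simp)
    · exact h1
  · intro h a ha b hb
    by_cases hw : wantsB T μ a b = true
    · exact Or.inr (h a ha b ((wantsB_iff T μ a b).1 hw))
    · exact Or.inl (by simpa using hw)

/-- test for 3-cycle stability -/
def cs3B (T : List (List ℕ)) (μ : List ℕ) : Bool := (List.range T.length).all fun a =>
  (pl T a).all fun b => !wantsB T μ a b || (!wantsB T μ b a &&
    (pl T b).all fun c => !(wantsB T μ b c && wantsB T μ c a))

theorem cs3B_iff (T : List (List ℕ)) (μ : List ℕ) : cs3B T μ = true ↔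
    ∀ a < T.length, ∀ b, Wants T (fun a => μ.getD a 0) a b →
      ¬ Wants T (fun a => μ.getD a 0) b a ∧ ∀ c, Wants T (fun a => μ.getD a 0) b c →
        ¬ Wants T (fun a => μ.getD a 0) c a := by
  unfold cs3B
  simp only [List.all_eq_true, List.mem_range, Bool.or_eq_true, Bool.not_eq_true',
    Bool.and_eq_true, Bool.and_eq_false_iff]
  constructor
  · intro h a ha b hab
    rcases h a ha b hab.1 with h1 | ⟨h1, h2⟩
    · rw [← wantsB_iff, h1] at hab
      exact absurd hab (by simp)
    · refine ⟨?_, ?_⟩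
      · rw [← wantsB_iff, h1]
        simp
      · intro c hbc hca
        rcases h2 c hbc.1 with h3 | h3
        · rw [← wantsB_iff, h3] at hbc
          exact absurd hbc (by simp)
        · rw [← wantsB_iff, h3] at hca
          exact absurd hca (by simp)
  · intro h a ha b hb
    by_cases hw : wantsB T μ a b = true
    · right
      obtain ⟨h1, h2⟩ := h a ha b ((wantsB_iff T μ a b).1 hw)
      refine ⟨?_, ?_⟩
      · rw [← wantsB_iff] at h1
        simpa using h1
      · intro c _
        by_cases h3 : wantsB T μ b c = true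
        · right
          have := h2 c ((wantsB_iff T μ b c).1 h3)
          rw [← wantsB_iff] at this
          simpa using this
        · exact Or.inl (by simpa using h3)
    · exact Or.inl (by simpa using hw)

theorem wants_congr {T : List (List ℕ)} {M M' : ℕ → ℕ} {a : ℕ} (h : M a = M' a) (b : ℕ) :
    Wants T M a b ↔ Wants T M' a b := by
  unfold Wants
  rw [h]

theorem getD_range (n : ℕ) (f : ℕ → ℕ) {a : ℕ} (ha : a < n) :
    ((List.range n).map f).getD a 0 = f a := by
  rw [List.getD_eq_getElem _ _ (by simpa using ha)]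
  simp

theorem matching_congr {T : List (List ℕ)} {M M' : ℕ → ℕ} (h : ∀ a < T.length, M a = M' a)
    (hM : IsMatching T M) : IsMatching T M' := by
  intro a ha
  obtain ⟨h1, h2, h3⟩ := hM a ha
  rw [← h a ha, ← h _ h1]
  exact ⟨h1, h2, h3⟩

theorem CS_iff (L : ℕ) (T : List (List ℕ)) : CS L T ↔ ∃ μ ρ : List ℕ,
    (μ.length ≤ T.length ∧ ∀ x ∈ μ, x ≤ T.length) ∧ (ρ.length ≤ T.length ∧ ∀ x ∈ ρ, x ≤ T.length) ∧
      instB L T = true ∧ matchB T μ = true ∧ csB T μ ρ = true := by
  constructor
  · rintro ⟨hI, hL, M, hM, hS⟩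
    obtain ⟨r, hr1, hr2⟩ := (cycleStable_iff hI).1 hS
    have hc : ∀ a < T.length, M a = ((List.range T.length).map M).getD a 0 :=
      fun a ha => (getD_range _ M ha).symm
    refine ⟨(List.range T.length).map M, (List.range T.length).map r, ⟨by simp, ?_⟩,
      ⟨by simp, ?_⟩, (instB_iff L T).2 ⟨hI, hL⟩, (matchB_iff T _).2 (matching_congr hc hM),
      (csB_iff T _ _).2 ?_⟩
    · intro x hx
      obtain ⟨a, ha, rfl⟩ := List.mem_map.1 hx
      exact (hM a (List.mem_range.1 ha)).1.le
    · intro x hx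
      obtain ⟨a, ha, rfl⟩ := List.mem_map.1 hx
      exact hr1 a
    · intro a ha b hab
      rw [← wants_congr (M := M) (hc a ha)] at hab
      rw [getD_range _ r ha, getD_range _ r ((hI a ha).2 b hab.1).1]
      exact hr2 a ha b hab
  · rintro ⟨μ, ρ, -, -, h1, h2, h3⟩
    obtain ⟨hI, hL⟩ := (instB_iff L T).1 h1
    exact ⟨hI, hL, _, (matchB_iff T μ).1 h2,
      cycleStable_of_rank (fun a => ρ.getD a 0) ((csB_iff T μ ρ).1 h3)⟩

theorem CS3_iff (L : ℕ) (T : List (List ℕ)) : CS3 L T ↔ ∃ μ : List ℕ,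
    (μ.length ≤ T.length ∧ ∀ x ∈ μ, x ≤ T.length) ∧
      instB L T = true ∧ matchB T μ = true ∧ cs3B T μ = true := by
  constructor
  · rintro ⟨hI, hL, M, hM, hS⟩
    have hr := (threeCycleStable_iff hI).1 hS
    have hc : ∀ a < T.length, M a = ((List.range T.length).map M).getD a 0 :=
      fun a ha => (getD_range _ M ha).symm
    refine ⟨(List.range T.length).map M, ⟨by simp, ?_⟩,
      (instB_iff L T).2 ⟨hI, hL⟩, (matchB_iff T _).2 (matching_congr hc hM),
      (cs3B_iff T _).2 ?_⟩
    · intro x hx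
      obtain ⟨a, ha, rfl⟩ := List.mem_map.1 hx
      exact (hM a (List.mem_range.1 ha)).1.le
    · intro a ha b hab
      rw [← wants_congr (M := M) (hc a ha)] at hab
      have hb := ((hI a ha).2 b hab.1).1
      obtain ⟨h1, h2⟩ := hr a ha b hab
      rw [← wants_congr (M := M) (hc b hb)]
      refine ⟨h1, fun c hbc => ?_⟩
      rw [← wants_congr (M := M) (hc b hb)] at hbc
      rw [← wants_congr (M := M) (hc c ((hI b hb).2 c hbc.1).1)]
      exact h2 c hbc
  · rintro ⟨μ, -, h1, h2, h3⟩
    obtain ⟨hI, hL⟩ := (instB_iff L T).1 h1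
    exact ⟨hI, hL, _, (matchB_iff T μ).1 h2, (threeCycleStable_iff hI).2 ((cs3B_iff T μ).1 h3)⟩

/-! ### Polynomial time -/

variable {α : Type} [TEnc α] {T : α → List (List ℕ)} {μ ρ : α → List ℕ} {a b : α → ℕ}

@[fun_prop]
theorem poly_pl (hT : Poly T) (ha : Poly a) : Poly (fun x => pl (T x) (a x)) := by
  unfold pl
  fun_prop

theorem poly_instB (L : ℕ) (hT : Poly T) : Poly (fun x => instB L (T x)) := by
  unfold instB
  refine Poly.all (p := fun x a => decide ((pl (T x) a).dedup = pl (T x) a) &&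
    (decide ((pl (T x) a).length ≤ L) && (pl (T x) a).all fun b =>
    decide (b < (T x).length) && (!decide (b = a) && decide (a ∈ pl (T x) b))))
    (Poly.range_length hT) ?_
  have h1 : Poly (fun p : α × ℕ => (pl (T p.1) p.2).dedup) :=
    H612.poly_dedup (by fun_prop)
  refine Poly.and (Poly.decide_eq h1 (by fun_prop)) (by fun_prop)

theorem poly_matchB (hT : Poly T) (hμ : Poly μ) : Poly (fun x => matchB (T x) (μ x)) := by
  unfold matchB
  exact Poly.all (p := fun x a => decide ((μ x).getD a 0 < (T x).length) &&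
    (decide ((μ x).getD ((μ x).getD a 0) 0 = a) &&
    (decide ((μ x).getD a 0 = a) || decide ((μ x).getD a 0 ∈ pl (T x) a))))
    (Poly.range_length hT) (by fun_prop)

theorem poly_wantsB (hT : Poly T) (hμ : Poly μ) (ha : Poly a) (hb : Poly b) :
    Poly (fun x => wantsB (T x) (μ x) (a x) (b x)) := by
  unfold wantsB
  have h1 : Poly (fun x => (pl (T x) (a x)).idxOf (b x)) :=
    H612.poly_idxOf (poly_pl hT ha) hb
  have h2 : Poly (fun x => (pl (T x) (a x)).idxOf ((μ x).getD (a x) 0)) :=
    H612.poly_idxOf (poly_pl hT ha) (by fun_prop)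
  exact Poly.and (by fun_prop) (Poly.or (by fun_prop) (Poly.decide_lt h1 h2))

attribute [fun_prop] poly_wantsB

theorem poly_csB (hT : Poly T) (hμ : Poly μ) (hρ : Poly ρ) :
    Poly (fun x => csB (T x) (μ x) (ρ x)) := by
  unfold csB
  exact Poly.all (p := fun x a => (pl (T x) a).all fun b => !wantsB (T x) (μ x) a b ||
    decide ((ρ x).getD b 0 < (ρ x).getD a 0)) (Poly.range_length hT) (by fun_prop)

theorem poly_cs3B (hT : Poly T) (hμ : Poly μ) :
    Poly (fun x => cs3B (T x) (μ x)) := by
  unfold cs3B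
  exact Poly.all (p := fun x a => (pl (T x) a).all fun b => !wantsB (T x) (μ x) a b ||
    (!wantsB (T x) (μ x) b a && (pl (T x) b).all fun c =>
      !(wantsB (T x) (μ x) b c && wantsB (T x) (μ x) c a))) (Poly.range_length hT) (by fun_prop)

theorem w_sz {T : List (List ℕ)} {w : List ℕ} (h1 : w.length ≤ T.length)
    (h2 : ∀ x ∈ w, x ≤ T.length) : sz w ≤ sz T * (4 * sz T + 2) + 1 := by
  have h3 := length_lt_sz T
  have h4 : ∀ x ∈ w, sz x ≤ 4 * sz T + 1 := by
    intro x hx
    have h5 := sz_nat_le x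
    have h6 : x.size ≤ x := by
      rw [Nat.size_le]
      exact Nat.lt_two_pow_self
    have h7 := h2 x hx
    omega
  exact (sz_le_length_mul w _ h4).trans (Nat.add_le_add_right (Nat.mul_le_mul_right _ (by omega)) 1)

theorem inNP_CS (L : ℕ) : InNPP (CS L) := by
  refine inNPP_of (R := fun p : List (List ℕ) × (List ℕ × List ℕ) =>
    instB L p.1 && (matchB p.1 p.2.1 && csB p.1 p.2.1 p.2.2)) ?_
    (2 * (Polynomial.X * (4 * Polynomial.X + 2) + 1) + 1) fun T => ?_
  · exact Poly.and (poly_instB L (by fun_prop)) (Poly.and (poly_matchB (by fun_prop) (by fun_prop))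
      (poly_csB (by fun_prop) (by fun_prop) (by fun_prop)))
  · have e : (2 * (Polynomial.X * (4 * Polynomial.X + 2) + 1) + 1 : Polynomial ℕ).eval (sz T) =
        2 * (sz T * (4 * sz T + 2) + 1) + 1 := by simp
    rw [e, CS_iff]
    constructor
    · rintro ⟨μ, ρ, h1, h2, h3, h4, h5⟩
      refine ⟨(μ, ρ), ?_, ?_⟩
      · have k1 := w_sz h1.1 h1.2
        have k2 := w_sz h2.1 h2.2
        have k3 : sz (μ, ρ) = sz μ + sz ρ + 1 := sz_pair μ ρ
        omega
      · simp only [Bool.and_eq_true]
        exact ⟨h3, h4, h5⟩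
    · rintro ⟨⟨μ, ρ⟩, -, h⟩
      simp only [Bool.and_eq_true] at h
      obtain ⟨h1, h2, h3⟩ := h
      obtain ⟨hI, hL⟩ := (instB_iff L T).1 h1
      exact (CS_iff L T).1 ⟨hI, hL, _, (matchB_iff T μ).1 h2,
        cycleStable_of_rank (fun a => ρ.getD a 0) ((csB_iff T μ ρ).1 h3)⟩

theorem inNP_CS3 (L : ℕ) : InNPP (CS3 L) := by
  refine inNPP_of (R := fun p : List (List ℕ) × List ℕ =>
    instB L p.1 && (matchB p.1 p.2 && cs3B p.1 p.2)) ?_
    (Polynomial.X * (4 * Polynomial.X + 2) + 1) fun T => ?_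
  · exact Poly.and (poly_instB L (by fun_prop)) (Poly.and (poly_matchB (by fun_prop) (by fun_prop))
      (poly_cs3B (by fun_prop) (by fun_prop)))
  · have e : (Polynomial.X * (4 * Polynomial.X + 2) + 1 : Polynomial ℕ).eval (sz T) =
        sz T * (4 * sz T + 2) + 1 := by simp
    rw [e, CS3_iff]
    constructor
    · rintro ⟨μ, h1, h3, h4, h5⟩
      refine ⟨μ, w_sz h1.1 h1.2, ?_⟩
      simp only [Bool.and_eq_true]
      exact ⟨h3, h4, h5⟩
    · rintro ⟨μ, -, h⟩
      simp only [Bool.and_eq_true] at h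
      obtain ⟨h1, h2, h3⟩ := h
      obtain ⟨hI, hL⟩ := (instB_iff L T).1 h1
      exact (CS3_iff L T).1 ⟨hI, hL, _, (matchB_iff T μ).1 h2,
        (threeCycleStable_iff hI).2 ((cs3B_iff T μ).1 h3)⟩

end Pool.Agent.NPC.Q325CS
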