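import Pool.Agent.Q325.CsBwd
import Pool.Agent.H958R2.NLT.X13Hard
import Pool.Agent.H612.CollectPoly
import Pool.Agent.H671R2.PolyAuto

/-!
# The reduction from exactly-one-in-three satisfiability
-/

set_option autoImplicit false

namespace Pool.Agent.NPC.Q325CS

open Pool.Agent.Q325.CS Pool.Agent.Q325.CS.Par Pool.Agent.H958R2 Pool.Agent.NPC.H958NLT

abbrev Fm : Type := List (Lit ℕ × Lit ℕ × Lit ℕ)

/-- number of the variable of a literal -/
def lv (a : Lit ℕ) : ℕ := if a.1 = true then 2 * a.2 else 2 * a.2 + 1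

/-- the positive clauses -/
def pcl (φ : Fm) : List (ℕ × ℕ × ℕ) :=
  (6 * φ.length, 6 * φ.length, 6 * φ.length + 1) ::
    ((List.range (3 * φ.length)).map (fun v => (2 * v, 2 * v + 1, 6 * φ.length)) ++
      φ.map fun c => (lv c.1, lv c.2.1, lv c.2.2))

def Kp (φ : Fm) : ℕ := 4 * φ.length + 1
def Vp (φ : Fm) : ℕ := 6 * φ.length + 2
def Mp (φ : Fm) : ℕ := 3 * Kp φ

theorem length_pcl (φ : Fm) : (pcl φ).length = Kp φ := by
  simp [pcl, Kp]
  omega

/-- components of a triple -/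
def comp3 (c : ℕ × ℕ × ℕ) (i : ℕ) : ℕ := if i = 0 then c.1 else if i = 1 then c.2.1 else c.2.2

def vs (φ : Fm) (s : ℕ) : ℕ := comp3 ((pcl φ).getD (s / 3) (0, 0, 0)) (s % 3)

theorem pcl_lt {φ : Fm} (h : Bd13 φ) {c : ℕ × ℕ × ℕ} (hc : c ∈ pcl φ) :
    c.1 < Vp φ ∧ c.2.1 < Vp φ ∧ c.2.2 < Vp φ := by
  unfold pcl at hc
  unfold Vp
  rw [List.mem_cons, List.mem_append, List.mem_map, List.mem_map] at hc
  rcases hc with rfl | ⟨v, hv, rfl⟩ | ⟨d, hd, rfl⟩
  · refine ⟨?_, ?_, ?_⟩ <;> dsimp only <;> omega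
  · rw [List.mem_range] at hv
    refine ⟨?_, ?_, ?_⟩ <;> dsimp only <;> omega
  · obtain ⟨h1, h2, h3⟩ := h d hd
    unfold lv
    refine ⟨?_, ?_, ?_⟩ <;> dsimp only <;> split_ifs <;> omega

theorem getD_mem {φ : Fm} {i : ℕ} (hi : i < Kp φ) : (pcl φ).getD i (0, 0, 0) ∈ pcl φ := by
  rw [List.getD_eq_getElem _ _ (by rw [length_pcl]; exact hi)]
  exact List.getElem_mem _

theorem vs_lt {φ : Fm} (h : Bd13 φ) {s : ℕ} (hs : s < 3 * Kp φ) : vs φ s < Vp φ := by
  obtain ⟨h1, h2, h3⟩ := pcl_lt h (getD_mem (φ := φ) (i := s / 3) (by omega))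
  unfold vs comp3
  split_ifs <;> assumption

/-- the parameters -/
def par (φ : Fm) (h : Bd13 φ) : Par :=
  ⟨Kp φ, Vp φ, vs φ, by unfold Kp; omega, fun _ hs => vs_lt h hs⟩

/-! ### Exactly one -/

theorem one_iff {φ : Fm} (h : Bd13 φ) (w : ℕ → Bool) : (par φ h).One w ↔
    ∀ c ∈ pcl φ, one3 (w c.1) (w c.2.1) (w c.2.2) = true := by
  have hv : ∀ s, (par φ h).vs s = vs φ s := fun _ => rfl
  have hM : (par φ h).M = 3 * Kp φ := rfl
  constructor
  · intro hw c hc
    obtain ⟨i, hi, rfl⟩ := List.getElem_of_mem hc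
    rw [length_pcl] at hi
    have h1 := hw (3 * i) (by rw [hM]; omega)
    unfold tr at h1
    rw [show s1 (3 * i) = 3 * i + 1 by unfold s1; split_ifs <;> omega,
      show s2 (3 * i) = 3 * i + 2 by unfold s2; split_ifs <;> omega, hv, hv, hv] at h1
    have e0 : vs φ (3 * i) = (pcl φ)[i].1 := by
      unfold vs comp3
      rw [show 3 * i / 3 = i by omega, if_pos (by omega),
        List.getD_eq_getElem _ _ (by rw [length_pcl]; exact hi)]
    have e1 : vs φ (3 * i + 1) = (pcl φ)[i].2.1 := by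
      unfold vs comp3
      rw [show (3 * i + 1) / 3 = i by omega, if_neg (by omega), if_pos (by omega),
        List.getD_eq_getElem _ _ (by rw [length_pcl]; exact hi)]
    have e2 : vs φ (3 * i + 2) = (pcl φ)[i].2.2 := by
      unfold vs comp3
      rw [show (3 * i + 2) / 3 = i by omega, if_neg (by omega), if_neg (by omega),
        List.getD_eq_getElem _ _ (by rw [length_pcl]; exact hi)]
    rw [e0, e1, e2] at h1
    unfold one3
    rcases h1 with ⟨a, b, c⟩ | ⟨a, b, c⟩ | ⟨a, b, c⟩ <;> rw [a, b, c] <;> rfl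
  · intro hw s hs
    rw [hM] at hs
    have h1 := hw _ (getD_mem (φ := φ) (i := s / 3) (by omega))
    unfold tr
    rw [hv, hv, hv]
    unfold vs
    have d1 : s1 s / 3 = s / 3 := by unfold s1; split_ifs <;> omega
    have d2 : s2 s / 3 = s / 3 := by unfold s2; split_ifs <;> omega
    rw [d1, d2]
    generalize (pcl φ).getD (s / 3) (0, 0, 0) = c at h1
    have c0 : comp3 c 0 = c.1 := rfl
    have c1 : comp3 c 1 = c.2.1 := rfl
    have c2 : comp3 c 2 = c.2.2 := rfl
    have hs3 : s % 3 = 0 ∨ s % 3 = 1 ∨ s % 3 = 2 := by omega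
    rcases hs3 with e | e | e
    · have m1 : s1 s % 3 = 1 := by unfold s1; split_ifs <;> omega
      have m2 : s2 s % 3 = 2 := by unfold s2; split_ifs <;> omega
      rw [e, m1, m2, c0, c1, c2]
      revert h1
      simp only [one3]
      cases w c.1 <;> cases w c.2.1 <;> cases w c.2.2 <;> simp
    · have m1 : s1 s % 3 = 2 := by unfold s1; split_ifs <;> omega
      have m2 : s2 s % 3 = 0 := by unfold s2; split_ifs <;> omega
      rw [e, m1, m2, c0, c1, c2]
      revert h1
      simp only [one3]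
      cases w c.1 <;> cases w c.2.1 <;> cases w c.2.2 <;> simp
    · have m1 : s1 s % 3 = 0 := by unfold s1; split_ifs <;> omega
      have m2 : s2 s % 3 = 1 := by unfold s2; split_ifs <;> omega
      rw [e, m1, m2, c0, c1, c2]
      revert h1
      simp only [one3]
      cases w c.1 <;> cases w c.2.1 <;> cases w c.2.2 <;> simp

theorem lit_beq (τ : ℕ → Bool) (w : ℕ → Bool) (a : Lit ℕ) (h1 : w (2 * a.2) = τ a.2)
    (h2 : w (2 * a.2 + 1) = !τ a.2) : w (lv a) = (τ a.2 == a.1) := by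
  obtain ⟨b, v⟩ := a
  unfold lv
  cases b
  · dsimp only at *
    rw [if_neg (by simp), h2]
    cases τ v <;> rfl
  · dsimp only at *
    rw [if_pos rfl, h1]
    cases τ v <;> rfl

theorem x13_iff {φ : Fm} (h : Bd13 φ) : X13 φ ↔ ∃ w, (par φ h).One w := by
  constructor
  · rintro ⟨τ, hτ⟩
    obtain ⟨w, hw⟩ : ∃ w : ℕ → Bool, ∀ x, w x = if x < 6 * φ.length then
        (if x % 2 = 0 then τ (x / 2) else !τ (x / 2))
      else decide (x = 6 * φ.length + 1) := ⟨_, fun _ => rfl⟩
    refine ⟨w, ?_⟩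
    rw [one_iff]
    intro c hc
    unfold pcl at hc
    rw [List.mem_cons, List.mem_append, List.mem_map, List.mem_map] at hc
    have k1 : ∀ v, v < 3 * φ.length → w (2 * v) = τ v := by
      intro v hv
      rw [hw, if_pos (by omega), if_pos (by omega), show 2 * v / 2 = v by omega]
    have k2 : ∀ v, v < 3 * φ.length → w (2 * v + 1) = !τ v := by
      intro v hv
      rw [hw, if_pos (by omega), if_neg (by omega), show (2 * v + 1) / 2 = v by omega]
    have k3 : w (6 * φ.length) = false := by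
      rw [hw, if_neg (by omega), decide_eq_false (by omega)]
    have k4 : w (6 * φ.length + 1) = true := by
      rw [hw, if_neg (by omega), decide_eq_true rfl]
    rcases hc with rfl | ⟨v, hv, rfl⟩ | ⟨d, hd, rfl⟩
    · dsimp only
      rw [k3, k4]
      rfl
    · rw [List.mem_range] at hv
      dsimp only
      rw [k1 v hv, k2 v hv, k3]
      unfold one3
      cases τ v <;> rfl
    · obtain ⟨h1, h2, h3⟩ := h d hd
      dsimp only
      rw [lit_beq τ w d.1 (k1 _ h1) (k2 _ h1), lit_beq τ w d.2.1 (k1 _ h2) (k2 _ h2),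
        lit_beq τ w d.2.2 (k1 _ h3) (k2 _ h3)]
      exact hτ d hd
  · rintro ⟨w, hw⟩
    rw [one_iff] at hw
    have h0 : w (6 * φ.length) = false := by
      have := hw (6 * φ.length, 6 * φ.length, 6 * φ.length + 1) (by simp [pcl])
      revert this
      unfold one3
      cases w (6 * φ.length) <;> simp
    have hneg : ∀ v, v < 3 * φ.length → w (2 * v + 1) = !w (2 * v) := by
      intro v hv
      have := hw (2 * v, 2 * v + 1, 6 * φ.length) (by
        unfold pcl
        rw [List.mem_cons, List.mem_append, List.mem_map]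
        exact Or.inr (Or.inl ⟨v, List.mem_range.2 hv, rfl⟩))
      revert this
      dsimp only
      rw [h0]
      unfold one3
      cases w (2 * v) <;> cases w (2 * v + 1) <;> simp
    refine ⟨fun v => w (2 * v), ?_⟩
    intro d hd
    obtain ⟨h1, h2, h3⟩ := h d hd
    have := hw (lv d.1, lv d.2.1, lv d.2.2) (by
      unfold pcl
      rw [List.mem_cons, List.mem_append, List.mem_map, List.mem_map]
      exact Or.inr (Or.inr ⟨d, hd, rfl⟩))
    dsimp only at this
    rw [lit_beq (fun v => w (2 * v)) w d.1 rfl (hneg _ h1),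
      lit_beq (fun v => w (2 * v)) w d.2.1 rfl (hneg _ h2),
      lit_beq (fun v => w (2 * v)) w d.2.2 rfl (hneg _ h3)] at this
    exact this

/-! ### The reduction -/

def nxR (φ : Fm) (x : ℕ) : ℕ := if x % Mp φ + 1 = Mp φ then x + 1 - Mp φ else x + 1

def pxR (φ : Fm) (x : ℕ) : ℕ := if x % Mp φ = 0 then x + Mp φ - 1 else x - 1

def occR (φ : Fm) (x : ℕ) : Bool := decide (vs φ (x % Mp φ) = x / Mp φ)

def plcR (φ : Fm) (s : ℕ) : ℕ := vs φ s * Mp φ + s

def pnodeR (φ : Fm) (x : ℕ) : ℕ := if occR φ x = true then E (s2 (x % Mp φ)) else Q (pxR φ x)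

def nnodeR (φ : Fm) (x : ℕ) : ℕ :=
  if occR φ (nxR φ x) = true then E (s1 (nxR φ x % Mp φ)) else P (nxR φ x)

def pfR (φ : Fm) (a : ℕ) : List ℕ :=
  if a % 4 = 0 then (if a / 4 < Mp φ then [A (s1 (a / 4)), E (a / 4), A (s2 (a / 4))] else [])
  else if a % 4 = 1 then (if a / 4 < Mp φ then
    [P (plcR φ (s1 (a / 4))), A (a / 4), Q (pxR φ (plcR φ (s2 (a / 4))))] else [])
  else if a % 4 = 2 then [Q (a / 4), pnodeR φ (a / 4)]
  else [nnodeR φ (a / 4), P (a / 4)]

/-- The reduction. -/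
def red (φ : Fm) : List (List ℕ) := (List.range (4 * (Vp φ * Mp φ))).map (pfR φ)

theorem red_eq {φ : Fm} (h : Bd13 φ) : (par φ h).inst = red φ := rfl

theorem red_CS {φ : Fm} (h : Bd13 φ) {L : ℕ} (hL : 3 ≤ L) : X13 φ ↔ CS L (red φ) := by
  rw [x13_iff h, ← red_eq h]
  constructor
  · rintro ⟨w, hw⟩
    exact ⟨isInst, fun a ha => (length_le ha).trans hL, _, isMatching hw, cycleStable hw⟩
  · rintro ⟨-, -, M, hM, hS⟩
    exact exists_one hM fun k _ c => hS k c

theorem red_CS3 {φ : Fm} (h : Bd13 φ) {L : ℕ} (hL : 3 ≤ L) : X13 φ ↔ CS3 L (red φ) := by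
  rw [x13_iff h, ← red_eq h]
  constructor
  · rintro ⟨w, hw⟩
    exact ⟨isInst, fun a ha => (length_le ha).trans hL, _, isMatching hw,
      fun k _ c => cycleStable hw k c⟩
  · rintro ⟨-, -, M, hM, hS⟩
    exact exists_one hM hS

/-! ### Polynomial time -/

variable {α : Type} [TEnc α] {φ : α → Fm} {x : α → ℕ}

theorem uM (hφ : Poly φ) : UPoly (fun a => Mp (φ a)) :=
  (UPoly.const 3).mul (((UPoly.const 4).mul (UPoly.length hφ)).add (UPoly.const 1))

theorem uV (hφ : Poly φ) : UPoly (fun a => Vp (φ a)) :=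
  ((UPoly.const 6).mul (UPoly.length hφ)).add (UPoly.const 2)

@[fun_prop]
theorem poly_M (hφ : Poly φ) : Poly (fun a => Mp (φ a)) := (uM hφ).toPoly

@[fun_prop]
theorem poly_lv {l : α → Lit ℕ} (hl : Poly l) : Poly (fun a => lv (l a)) := by
  unfold lv
  fun_prop

@[fun_prop]
theorem poly_pcl (hφ : Poly φ) : Poly (fun a => pcl (φ a)) := by
  unfold pcl
  refine Poly.cons (by fun_prop) (Poly.append ?_ (by fun_prop))
  exact Poly.map (F := fun (a : α) (v : ℕ) => (2 * v, 2 * v + 1, 6 * (φ a).length))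
    ((UPoly.const 3).mul (UPoly.length hφ)).range (by fun_prop)

@[fun_prop]
theorem poly_comp3 {c : α → ℕ × ℕ × ℕ} (hc : Poly c) (hx : Poly x) :
    Poly (fun a => comp3 (c a) (x a)) := by
  unfold comp3
  fun_prop

@[fun_prop]
theorem poly_vs (hφ : Poly φ) (hx : Poly x) : Poly (fun a => vs (φ a) (x a)) := by
  unfold vs
  fun_prop

@[fun_prop]
theorem poly_nx (hφ : Poly φ) (hx : Poly x) : Poly (fun a => nxR (φ a) (x a)) := by
  unfold nxR
  fun_prop

@[fun_prop]
theorem poly_px (hφ : Poly φ) (hx : Poly x) : Poly (fun a => pxR (φ a) (x a)) := by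
  unfold pxR
  fun_prop

@[fun_prop]
theorem poly_occ (hφ : Poly φ) (hx : Poly x) : Poly (fun a => occR (φ a) (x a)) := by
  unfold occR
  fun_prop

@[fun_prop]
theorem poly_plc (hφ : Poly φ) (hx : Poly x) : Poly (fun a => plcR (φ a) (x a)) := by
  unfold plcR
  fun_prop

@[fun_prop]
theorem poly_s1 (hx : Poly x) : Poly (fun a => s1 (x a)) := by
  unfold s1
  fun_prop

@[fun_prop]
theorem poly_s2 (hx : Poly x) : Poly (fun a => s2 (x a)) := by
  unfold s2
  fun_prop

@[fun_prop]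
theorem poly_A (hx : Poly x) : Poly (fun a => A (x a)) := by
  unfold A
  fun_prop

@[fun_prop]
theorem poly_E (hx : Poly x) : Poly (fun a => E (x a)) := by
  unfold E
  fun_prop

@[fun_prop]
theorem poly_P (hx : Poly x) : Poly (fun a => P (x a)) := by
  unfold P
  fun_prop

@[fun_prop]
theorem poly_Q (hx : Poly x) : Poly (fun a => Q (x a)) := by
  unfold Q
  fun_prop

@[fun_prop]
theorem poly_pnode (hφ : Poly φ) (hx : Poly x) : Poly (fun a => pnodeR (φ a) (x a)) := by
  unfold pnodeR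
  fun_prop

@[fun_prop]
theorem poly_nnode (hφ : Poly φ) (hx : Poly x) : Poly (fun a => nnodeR (φ a) (x a)) := by
  unfold nnodeR
  fun_prop

theorem poly_pf (hφ : Poly φ) (hx : Poly x) : Poly (fun a => pfR (φ a) (x a)) := by
  unfold pfR
  fun_prop

theorem poly_red (hφ : Poly φ) : Poly (fun a => red (φ a)) := by
  unfold red
  exact Poly.map (F := fun (a : α) (v : ℕ) => pfR (φ a) v)
    (((UPoly.const 4).mul ((uV hφ).mul (uM hφ))).range)
    (poly_pf (hφ.comp (Poly.fst Poly.id)) (Poly.snd Poly.id))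

theorem hard_CS {L : ℕ} (hL : 3 ≤ L) : NPHardP (CS L) :=
  (hardPr_X13.trans (Pr' := fun _ => True) (poly_red Poly.id) (fun _ _ => trivial)
    (fun _ h => red_CS h hL)).toHardI.toNPHardP

theorem hard_CS3 {L : ℕ} (hL : 3 ≤ L) : NPHardP (CS3 L) :=
  (hardPr_X13.trans (Pr' := fun _ => True) (poly_red Poly.id) (fun _ _ => trivial)
    (fun _ h => red_CS3 h hL)).toHardI.toNPHardP

end Pool.Agent.NPC.Q325CS
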