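import Pool.Agent.Q325.CsFwd

/-!
# Preference lists of length at most two
-/

set_option autoImplicit false

namespace Pool.Agent.Q325.CS

/-- An instance with lists of length at most two, on a finite set of agents. -/
structure Two (l : ℕ → List ℕ) (S : Finset ℕ) : Prop where
  nd : ∀ a ∈ S, (l a).Nodup
  le : ∀ a ∈ S, (l a).length ≤ 2
  mem : ∀ a ∈ S, ∀ b ∈ l a, b ∈ S ∧ b ≠ a ∧ a ∈ l b

/-- A ring of length `k` (walked through infinitely often). -/
def Ring (l : ℕ → List ℕ) (S : Finset ℕ) (k : ℕ) (b : ℕ → ℕ) : Prop :=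
  (∀ i, b i ∈ S) ∧ (∀ i, l (b (i + 1)) = [b (i + 2), b i]) ∧ ∀ i, b (i + k) = b i

def Wn (l : ℕ → List ℕ) (M : ℕ → ℕ) (a b : ℕ) : Prop :=
  M a = a ∨ (l a).idxOf b < (l a).idxOf (M a)

/-- Stable matchings. -/
def St (l : ℕ → List ℕ) (S : Finset ℕ) (M : ℕ → ℕ) : Prop :=
  (∀ a ∈ S, M a ∈ S ∧ M (M a) = a ∧ (M a ≠ a → M a ∈ l a)) ∧
    ∀ a ∈ S, ∀ b ∈ l a, ¬ (Wn l M a b ∧ Wn l M b a)

theorem idxOf_filter_lt {p : ℕ → Bool} {b c : ℕ} (hb : p b = true) (hc : p c = true) :
    ∀ {l : List ℕ}, l.idxOf b < l.idxOf c → (l.filter p).idxOf b < (l.filter p).idxOf c := by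
  intro l
  induction l with
  | nil => simp
  | cons x t ih =>
    intro h
    by_cases hxb : x = b
    · subst hxb
      have hne : x ≠ c := by
        rintro rfl
        omega
      rw [List.filter_cons_of_pos hb, List.idxOf_cons_self, List.idxOf_cons_ne _ hne]
      omega
    · by_cases hxc : x = c
      · subst hxc
        rw [List.idxOf_cons_self] at h
        omega
      · rw [List.idxOf_cons_ne _ hxb, List.idxOf_cons_ne _ hxc] at h
        have := ih (by omega)
        by_cases hx : p x = true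
        · rw [List.filter_cons_of_pos hx, List.idxOf_cons_ne _ hxb, List.idxOf_cons_ne _ hxc]
          omega
        · rw [List.filter_cons_of_neg hx]
          exact this

theorem not_wn_top {l : ℕ → List ℕ} {M : ℕ → ℕ} {x y : ℕ} {u : List ℕ} (hl : l x = y :: u)
    (hM : M x = y) (hne : y ≠ x) (c : ℕ) : ¬ Wn l M x c := by
  rintro (h | h)
  · exact hne (hM.symm.trans h)
  · rw [hM, hl, List.idxOf_cons_self] at h
    omega

/-- A stable matching exists if there are no odd rings. -/
theorem exists_st (n : ℕ) : ∀ (S : Finset ℕ), S.card = n → ∀ l : ℕ → List ℕ, Two l S →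
    (∀ k b, k % 2 = 1 → ¬ Ring l S k b) → ∃ M, St l S M := by
  classical
  induction n using Nat.strong_induction_on with
  | _ n ih =>
  intro S hcard l hT hR
  by_cases hemp : ∀ a ∈ S, l a = []
  · refine ⟨fun a => a, fun a ha => ⟨ha, rfl, fun h => absurd rfl h⟩, ?_⟩
    intro a ha b hb
    rw [hemp a ha] at hb
    simp at hb
  push Not at hemp
  obtain ⟨a0, ha0, hne0⟩ := hemp
  -- the map to the first choice
  obtain ⟨f, hf⟩ : ∃ f : ℕ → ℕ, ∀ a, f a = (l a).headD 0 := ⟨_, fun _ => rfl⟩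
  have hstep : ∀ a, a ∈ S ∧ l a ≠ [] → (f a ∈ S ∧ l (f a) ≠ []) ∧ ∃ u, l a = f a :: u := by
    rintro a ⟨ha, hne⟩
    obtain ⟨x, u, e⟩ := List.exists_cons_of_ne_nil hne
    have hx : f a = x := by rw [hf, e]; rfl
    obtain ⟨h1, h2, h3⟩ := hT.mem a ha x (by rw [e]; simp)
    rw [hx]
    exact ⟨⟨h1, List.ne_nil_of_mem h3⟩, u, e⟩
  have hc : ∀ i, f^[i] a0 ∈ S ∧ l (f^[i] a0) ≠ [] := by
    intro i
    induction i with
    | zero => exact ⟨ha0, hne0⟩
    | succ i ih2 =>
      rw [Function.iterate_succ_apply']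
      exact (hstep _ ih2).1
  obtain ⟨i, j, hij, heq⟩ := Set.Finite.exists_lt_map_eq_of_forall_mem
    (f := fun i : ℕ => f^[i] a0) (t := (S : Set ℕ)) (fun i => (hc i).1) S.finite_toSet
  have heq : f^[i] a0 = f^[j] a0 := heq
  obtain ⟨b, hb⟩ : ∃ b : ℕ → ℕ, ∀ t, b t = f^[i + t] a0 := ⟨_, fun _ => rfl⟩
  obtain ⟨k, hk⟩ : ∃ k, k = j - i := ⟨_, rfl⟩
  have hk1 : 1 ≤ k := by omega
  have hbS : ∀ t, b t ∈ S ∧ l (b t) ≠ [] := fun t => by rw [hb]; exact hc _
  have hbf : ∀ t, f (b t) = b (t + 1) := by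
    intro t
    rw [hb, hb, ← add_assoc, Function.iterate_succ_apply']
  have hiter : ∀ s t, b (s + t) = f^[t] (b s) := by
    intro s t
    rw [hb, hb, ← Function.iterate_add_apply]
    congr 1
    omega
  have hper : ∀ t, b (t + k) = b t := by
    intro t
    rw [add_comm, hiter, hb k, show i + k = j by omega, ← heq, hb t, add_comm i t,
      Function.iterate_add_apply]
  have hbt : ∀ t, ∃ u, l (b t) = b (t + 1) :: u := by
    intro t
    obtain ⟨-, u, hu⟩ := hstep _ (hbS t)
    rw [hbf] at hu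
    exact ⟨u, hu⟩
  by_cases hA : ∃ t, b (t + 2) = b t
  · -- two agents which are the first choices of each other
    obtain ⟨t, ht⟩ := hA
    obtain ⟨x, hx⟩ : ∃ x, x = b t := ⟨_, rfl⟩
    obtain ⟨y, hy⟩ : ∃ y, y = b (t + 1) := ⟨_, rfl⟩
    obtain ⟨u, hu⟩ := hbt t
    obtain ⟨v, hv⟩ := hbt (t + 1)
    rw [show t + 1 + 1 = t + 2 by omega, ht, ← hx, ← hy] at hv
    rw [← hx, ← hy] at hu
    have hxS : x ∈ S := by rw [hx]; exact (hbS _).1
    have hyS : y ∈ S := by rw [hy]; exact (hbS _).1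
    have hyx : y ≠ x := (hT.mem x hxS y (by rw [hu]; simp)).2.1
    obtain ⟨S', hS'⟩ : ∃ S' : Finset ℕ, S' = (S.erase x).erase y := ⟨_, rfl⟩
    have memS' : ∀ a, a ∈ S' ↔ a ≠ y ∧ a ≠ x ∧ a ∈ S := by
      intro a
      rw [hS', Finset.mem_erase, Finset.mem_erase]
    have hlt : S'.card < n := by
      rw [hS', ← hcard]
      refine lt_of_le_of_lt (Finset.card_le_card (Finset.erase_subset _ _)) ?_
      exact Finset.card_erase_lt_of_mem hxS
    obtain ⟨l', hl'⟩ : ∃ l' : ℕ → List ℕ, ∀ a, l' a =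
        (l a).filter (fun c => decide (c ≠ x ∧ c ≠ y)) := ⟨_, fun _ => rfl⟩
    have meml' : ∀ a c, c ∈ l' a ↔ c ∈ l a ∧ c ≠ x ∧ c ≠ y := by
      intro a c
      rw [hl', List.mem_filter, decide_eq_true_iff]
    have hT' : Two l' S' := by
      refine ⟨fun a ha => ?_, fun a ha => ?_, fun a ha c hc' => ?_⟩
      · rw [hl']
        exact (hT.nd a ((memS' a).1 ha).2.2).filter _
      · rw [hl']
        exact (List.length_filter_le _ _).trans (hT.le a ((memS' a).1 ha).2.2)
      · obtain ⟨h1, h2, h3⟩ := (memS' a).1 ha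
        obtain ⟨h4, h5, h6⟩ := (meml' a c).1 hc'
        obtain ⟨h7, h8, h9⟩ := hT.mem a h3 c h4
        exact ⟨(memS' c).2 ⟨h6, h5, h7⟩, h8, (meml' c a).2 ⟨h9, h2, h1⟩⟩
    have hR' : ∀ k b, k % 2 = 1 → ¬ Ring l' S' k b := by
      rintro k' b' hk' ⟨r1, r2, r3⟩
      refine hR k' b' hk' ⟨fun i => ((memS' _).1 (r1 i)).2.2, fun i => ?_, r3⟩
      have h1 : (l' (b' (i + 1))).Sublist (l (b' (i + 1))) := by
        rw [hl']
        exact List.filter_sublist
      rw [r2] at h1
      refine (h1.eq_of_length_le ?_).symm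
      exact hT.le _ ((memS' _).1 (r1 (i + 1))).2.2
    obtain ⟨M', hM1, hM2⟩ := ih _ hlt S' rfl l' hT' hR'
    refine ⟨fun a => if a = x then y else if a = y then x else M' a, ?_, ?_⟩
    · intro a ha
      dsimp only
      by_cases e1 : a = x
      · subst e1
        rw [if_pos rfl, if_neg hyx, if_pos rfl]
        exact ⟨hyS, rfl, fun _ => by rw [hu]; simp⟩
      · by_cases e2 : a = y
        · subst e2
          rw [if_neg e1, if_pos rfl, if_pos rfl]
          exact ⟨hxS, rfl, fun _ => by rw [hv]; simp⟩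
        · rw [if_neg e1, if_neg e2]
          obtain ⟨h1, h2, h3⟩ := hM1 a ((memS' a).2 ⟨e2, e1, ha⟩)
          obtain ⟨h4, h5, h6⟩ := (memS' _).1 h1
          rw [if_neg h5, if_neg h4]
          exact ⟨h6, h2, fun h => ((meml' _ _).1 (h3 h)).1⟩
    · intro a ha c hc'
      obtain ⟨M, hM⟩ : ∃ M : ℕ → ℕ, M = fun a => if a = x then y else if a = y then x else M' a :=
        ⟨_, rfl⟩
      rw [← hM]
      have Mx : M x = y := by rw [hM]; simp
      have My : M y = x := by rw [hM]; simp [hyx]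
      have nx : ∀ c, ¬ Wn l M x c := not_wn_top hu Mx hyx
      have ny : ∀ c, ¬ Wn l M y c := not_wn_top hv My (Ne.symm hyx)
      rintro ⟨w1, w2⟩
      by_cases a1 : a = x
      · subst a1
        exact nx _ w1
      by_cases a2 : a = y
      · subst a2
        exact ny _ w1
      by_cases c1 : c = x
      · subst c1
        exact nx _ w2
      by_cases c2 : c = y
      · subst c2
        exact ny _ w2
      have haS' := (memS' a).2 ⟨a2, a1, ha⟩
      have hcS' := (memS' c).2 ⟨c2, c1, (hT.mem a ha c hc').1⟩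
      have key : ∀ {a c : ℕ}, a ∈ S' → c ∈ S' → Wn l M a c → Wn l' M' a c := by
        intro a c ha hc hw
        obtain ⟨q1, q2, q3⟩ := (memS' a).1 ha
        have Ma : M a = M' a := by rw [hM]; simp [q1, q2]
        rcases hw with hw | hw
        · left
          rw [← Ma, hw]
        · right
          rw [hl']
          rw [Ma] at hw
          obtain ⟨h1, -, -⟩ := hM1 a ha
          obtain ⟨h4, h5, h6⟩ := (memS' _).1 h1
          obtain ⟨h7, h8, h9⟩ := (memS' _).1 hc
          exact idxOf_filter_lt (p := fun c => decide (c ≠ x ∧ c ≠ y))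
            (decide_eq_true ⟨h8, h7⟩) (decide_eq_true ⟨h5, h4⟩) hw
      exact hM2 a haS' c ((meml' a c).2 ⟨hc', c1, c2⟩) ⟨key haS' hcS' w1, key hcS' haS' w2⟩
  · -- an even ring
    push Not at hA
    have hring : ∀ t, l (b (t + 1)) = [b (t + 2), b t] := by
      intro t
      obtain ⟨u, hu⟩ := hbt (t + 1)
      have h1 : b (t + 1) ∈ l (b t) := by
        obtain ⟨u', hu'⟩ := hbt t
        rw [hu']
        simp
      have h2 := (hT.mem _ (hbS t).1 _ h1).2.2
      have h3 := hT.le _ (hbS (t + 1)).1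
      rw [show t + 1 + 1 = t + 2 by omega] at hu
      rw [hu] at h2 h3 ⊢
      have h4 : b t ∈ u := (List.mem_cons.1 h2).resolve_left (fun e => hA t e.symm)
      match u, h3, h4 with
      | [z], _, h4 =>
        rw [List.mem_singleton] at h4
        rw [h4]
      | z :: z' :: u', h3, _ =>
        simp at h3
    have hpar : ∀ p q, p < q → (q - p) % 2 = 1 → b p ≠ b q := by
      intro p q hpq hodd he
      refine hR (q - p) (fun t => b (p + t)) hodd ⟨fun t => (hbS _).1, fun t => ?_, fun t => ?_⟩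
      · have := hring (p + t)
        rw [add_assoc, add_assoc] at this
        exact this
      · dsimp only
        rw [show p + (t + (q - p)) = q + t by omega, hiter q t, ← he, ← hiter]
    have hEO : ∀ s t, b (2 * s) ≠ b (2 * t + 1) := by
      intro s t he
      rcases Nat.lt_or_ge (2 * s) (2 * t + 1) with h | h
      · exact hpar _ _ h (by omega) he
      · exact hpar (2 * t + 1) (2 * s) (by omega) (by omega) he.symm
    have hRin : ∀ x, (∃ t, b t = x) → ∃ t, b (t + 1) = x := by
      rintro x ⟨t, rfl⟩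
      exact ⟨t + k - 1, by rw [show t + k - 1 + 1 = t + k by omega, hper]⟩
    have hclosed : ∀ x, (∃ t, b t = x) → ∀ c ∈ l x, ∃ t, b t = c := by
      intro x hx c hcx
      obtain ⟨t, rfl⟩ := hRin x hx
      rw [hring] at hcx
      rw [List.mem_cons, List.mem_singleton] at hcx
      rcases hcx with rfl | rfl
      · exact ⟨_, rfl⟩
      · exact ⟨_, rfl⟩
    obtain ⟨S', hS'⟩ : ∃ S' : Finset ℕ, S' = S.filter (fun x => ¬ ∃ t, b t = x) := ⟨_, rfl⟩
    have memS' : ∀ a, a ∈ S' ↔ a ∈ S ∧ ¬ ∃ t, b t = a := by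
      intro a
      rw [hS', Finset.mem_filter]
    have hlt : S'.card < n := by
      rw [← hcard]
      refine Finset.card_lt_card ((Finset.ssubset_iff_of_subset ?_).2 ⟨b 0, (hbS 0).1, ?_⟩)
      · intro a ha
        exact ((memS' a).1 ha).1
      · rw [memS']
        exact fun h => h.2 ⟨0, rfl⟩
    have hout : ∀ a ∈ S', ∀ c ∈ l a, c ∈ S' := by
      intro a ha c hc'
      obtain ⟨h1, h2⟩ := (memS' a).1 ha
      obtain ⟨h3, -, h5⟩ := hT.mem a h1 c hc'
      exact (memS' c).2 ⟨h3, fun h => h2 (hclosed c h a h5)⟩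
    have hT' : Two l S' := by
      refine ⟨fun a ha => hT.nd a ((memS' a).1 ha).1, fun a ha => hT.le a ((memS' a).1 ha).1,
        fun a ha c hc' => ?_⟩
      obtain ⟨-, h4, h5⟩ := hT.mem a ((memS' a).1 ha).1 c hc'
      exact ⟨hout a ha c hc', h4, h5⟩
    have hR' : ∀ k b, k % 2 = 1 → ¬ Ring l S' k b := by
      rintro k' b' hk' ⟨r1, r2, r3⟩
      exact hR k' b' hk' ⟨fun i => ((memS' _).1 (r1 i)).1, r2, r3⟩
    obtain ⟨M', hM1, hM2⟩ := ih _ hlt S' rfl l hT' hR'
    obtain ⟨M, hM⟩ : ∃ M : ℕ → ℕ, M = fun a => if ∃ t, b t = a then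
        (if ∃ t, b (2 * t) = a then (l a).getD 0 0 else (l a).getD 1 0) else M' a := ⟨_, rfl⟩
    have hMe : ∀ t, M (b (2 * t)) = b (2 * t + 1) := by
      intro t
      rw [hM]
      dsimp only
      rw [if_pos ⟨_, rfl⟩, if_pos ⟨_, rfl⟩]
      obtain ⟨u, hu⟩ := hbt (2 * t)
      rw [hu]
      rfl
    have hMo : ∀ t, M (b (2 * t + 1)) = b (2 * t) := by
      intro t
      rw [hM]
      dsimp only
      rw [if_pos ⟨_, rfl⟩, if_neg, hring]
      · rfl
      · rintro ⟨s, hs⟩
        exact hEO s t hs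
    have hMout : ∀ a, (¬ ∃ t, b t = a) → M a = M' a := by
      intro a ha
      rw [hM]
      dsimp only
      rw [if_neg ha]
    have hcases : ∀ x, (∃ t, b t = x) → (∃ t, b (2 * t) = x) ∨ ∃ t, b (2 * t + 1) = x := by
      rintro x ⟨t, rfl⟩
      rcases Nat.even_or_odd' t with ⟨s, rfl | rfl⟩
      · exact Or.inl ⟨s, rfl⟩
      · exact Or.inr ⟨s, rfl⟩
    have hnE : ∀ t c, ¬ Wn l M (b (2 * t)) c := by
      intro t c
      obtain ⟨u, hu⟩ := hbt (2 * t)
      refine not_wn_top hu (hMe t) ?_ c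
      exact (hT.mem _ (hbS (2 * t)).1 _ (by rw [hu]; simp)).2.1
    refine ⟨M, ?_, ?_⟩
    · intro a ha
      by_cases hr : ∃ t, b t = a
      · rcases hcases a hr with ⟨t, rfl⟩ | ⟨t, rfl⟩
        · rw [hMe, hMo]
          refine ⟨(hbS _).1, rfl, fun _ => ?_⟩
          obtain ⟨u, hu⟩ := hbt (2 * t)
          rw [hu]
          simp
        · rw [hMo, hMe]
          refine ⟨(hbS _).1, rfl, fun _ => ?_⟩
          rw [hring]
          simp
      · obtain ⟨h1, h2, h3⟩ := hM1 a ((memS' a).2 ⟨ha, hr⟩)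
        obtain ⟨h4, h5⟩ := (memS' _).1 h1
        rw [hMout a hr, hMout _ h5]
        exact ⟨h4, h2, h3⟩
    · intro a ha c hc'
      rintro ⟨w1, w2⟩
      by_cases hr : ∃ t, b t = a
      · rcases hcases a hr with ⟨t, rfl⟩ | ⟨t, rfl⟩
        · exact hnE _ _ w1
        · rw [hring, List.mem_cons, List.mem_singleton] at hc'
          rcases hc' with rfl | rfl
          · exact hnE (t + 1) _ w2
          · exact hnE t _ w2
      · have haS' := (memS' a).2 ⟨ha, hr⟩
        have hcS' := hout a haS' c hc'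
        refine hM2 a haS' c hc' ⟨?_, ?_⟩
        · unfold Wn at w1 ⊢
          rwa [hMout a hr] at w1
        · unfold Wn at w2 ⊢
          rwa [hMout c ((memS' c).1 hcS').2] at w2

/-- There is no stable matching if there is an odd ring. -/
theorem not_st {l : ℕ → List ℕ} {S : Finset ℕ} (hT : Two l S) {k : ℕ} {b : ℕ → ℕ}
    (hk : k % 2 = 1) (hR : Ring l S k b) (M : ℕ → ℕ) : ¬ St l S M := by
  rintro ⟨h1, h2⟩
  obtain ⟨r1, r2, r3⟩ := hR
  have hne : ∀ i, b (i + 2) ≠ b i := by
    intro i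
    have := hT.nd _ (r1 (i + 1))
    rw [r2] at this
    simpa using this
  have hm : ∀ i, M (b (i + 2)) ≠ b (i + 2) := by
    intro i hi
    have e1 : b (i + 2) ∈ l (b (i + 1)) := by rw [r2]; simp
    refine h2 _ (r1 (i + 1)) _ e1 ⟨?_, Or.inl hi⟩
    right
    have e2 : M (b (i + 1)) ≠ b (i + 2) := by
      intro e
      have := (h1 _ (r1 (i + 1))).2.1
      rw [e, hi] at this
      exact (hT.mem _ (r1 (i + 1)) _ e1).2.1 this
    rw [r2, List.idxOf_cons_self, List.idxOf_cons_ne _ (Ne.symm e2)]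
    omega
  have hc : ∀ i, M (b (i + 2)) = b (i + 3) ∨ M (b (i + 2)) = b (i + 1) := by
    intro i
    have := (h1 _ (r1 (i + 2))).2.2 (hm i)
    rw [r2 (i + 1)] at this
    simpa using this
  -- if one agent is assigned to its first choice we get a contradiction
  have key : ∀ i, M (b (i + 2)) ≠ b (i + 3) := by
    intro i hi
    have hj : ∀ j, M (b (i + 2 + 2 * j)) = b (i + 3 + 2 * j) := by
      intro j
      induction j with
      | zero => exact hi
      | succ j ih =>
        have e1 := (h1 _ (r1 (i + 2 + 2 * j))).2.1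
        rw [ih] at e1
        have e2 := hc (i + 2 * j + 2)
        rw [show i + 2 * j + 2 + 2 = i + 2 + 2 * (j + 1) by omega,
          show i + 2 * j + 2 + 3 = i + 3 + 2 * (j + 1) by omega,
          show i + 2 * j + 2 + 1 = i + 3 + 2 * j by omega] at e2
        rcases e2 with e2 | e2
        · exact e2
        · exfalso
          have e3 := (h1 _ (r1 (i + 2 + 2 * (j + 1)))).2.1
          rw [e2, e1] at e3
          have := hne (i + 2 + 2 * j)
          rw [show i + 2 + 2 * j + 2 = i + 2 + 2 * (j + 1) by omega] at this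
          exact this e3.symm
    have e1 := hj ((k + 1) / 2)
    rw [show i + 2 + 2 * ((k + 1) / 2) = i + 3 + k by omega,
      show i + 3 + 2 * ((k + 1) / 2) = i + 4 + k by omega, r3, r3] at e1
    have e2 := (h1 _ (r1 (i + 2))).2.1
    rw [hi, e1] at e2
    exact hne (i + 2) e2
  have e1 := (hc 1).resolve_left (key 1)
  have e2 := (h1 _ (r1 (1 + 2))).2.1
  rw [e1] at e2
  exact key 0 e2

/-! ### Cycle stability -/

theorem wants_iff {T : List (List ℕ)} {M : ℕ → ℕ} {a b : ℕ} :
    Wants T M a b ↔ b ∈ pl T a ∧ Wn (pl T) M a b := Iff.rfl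

theorem two_of {T : List (List ℕ)} (hI : IsInst T) (hL : ∀ a < T.length, (pl T a).length ≤ 2) :
    Two (pl T) (Finset.range T.length) := by
  refine ⟨fun a ha => (hI a (Finset.mem_range.1 ha)).1, fun a ha => hL a (Finset.mem_range.1 ha),
    fun a ha b hb => ?_⟩
  have := (hI a (Finset.mem_range.1 ha)).2 b hb
  rwa [← Finset.mem_range] at this

theorem st_of_three {T : List (List ℕ)} (hI : IsInst T) {M : ℕ → ℕ} (hM : IsMatching T M)
    (hS : ThreeCycleStable T M) : St (pl T) (Finset.range T.length) M := by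
  refine ⟨fun a ha => ?_, fun a ha b hb => ?_⟩
  · have := hM a (Finset.mem_range.1 ha)
    rwa [← Finset.mem_range] at this
  · rintro ⟨w1, w2⟩
    have ha' := Finset.mem_range.1 ha
    obtain ⟨h1, h2, h3⟩ := (hI a ha').2 b hb
    refine hS 2 (by omega) (fun i => if i % 2 = 0 then a else b) ⟨le_rfl, ?_, ?_, ?_, ?_⟩
    · intro i _
      dsimp only
      split_ifs <;> assumption
    · intro i hi j hj h
      dsimp only at h
      interval_cases i <;> interval_cases j <;> simp_all
    · simp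
    · intro i hi
      interval_cases i
      · simpa using wants_iff.2 ⟨hb, w1⟩
      · simpa using wants_iff.2 ⟨h3, w2⟩

theorem cycle_of_st {T : List (List ℕ)} (hI : IsInst T)
    (hL : ∀ a < T.length, (pl T a).length ≤ 2) {M : ℕ → ℕ}
    (hS : St (pl T) (Finset.range T.length) M) : IsMatching T M ∧ CycleStable T M := by
  have hM : IsMatching T M := by
    intro a ha
    have := hS.1 a (Finset.mem_range.2 ha)
    rwa [Finset.mem_range] at this
  refine ⟨hM, ?_⟩
  rintro k c ⟨hk, hn, hinj, hck, hw⟩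
  have w0 := hw 0 (by omega)
  have w1 := hw 1 (by omega)
  rw [zero_add] at w0
  rw [show (1 : ℕ) + 1 = 2 from rfl] at w1
  have n0 := hn 0 (by omega)
  have n1 := hn 1 (by omega)
  have hns := hS.2 _ (Finset.mem_range.2 n0) _ w0.1
  have h01 := ((hI _ n0).2 _ w0.1).2.2
  rcases Nat.lt_or_ge 2 k with h3 | h3
  · have hne : c 0 ≠ c 2 := fun e => by
      have := hinj 0 (by omega) 2 h3 e
      omega
    have hnw : ¬ Wn (pl T) M (c 1) (c 0) := fun h => hns ⟨w0.2, h⟩
    have hM1 : M (c 1) ≠ c 1 := fun e => hnw (Or.inl e)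
    have hmem := (hM _ n1).2.2 hM1
    have hM2 : M (c 1) ≠ c 2 := by
      intro e
      rcases w1.2 with h | h
      · exact hM1 h
      · rw [e] at h
        omega
    -- the list of `c 1` consists of `c 0` and `c 2`
    have hM0 : M (c 1) = c 0 := by
      have hlen := hL _ n1
      have hmem2 := w1.1
      have hnd := (hI _ n1).1
      match hpl : pl T (c 1), hlen, hmem, hmem2, h01 with
      | [], _, _, h, _ => simp at h
      | [x], _, h, h', h'' =>
        rw [List.mem_singleton] at h h' h''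
        exact absurd (h''.trans h'.symm) hne
      | [x, y], _, h, h', h'' =>
        rw [List.mem_cons, List.mem_singleton] at h h' h''
        rcases h with h | h <;> rcases h' with h' | h' <;> rcases h'' with h'' | h'' <;>
          first
          | exact absurd (h''.trans h'.symm) hne
          | exact absurd (h.trans h'.symm) hM2
          | exact h.trans h''.symm
      | x :: y :: z :: u, h, _, _, _ => simp at h
    have e0 := (hM _ n1).2.1
    rw [hM0] at e0
    rcases w0.2 with h | h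
    · rw [h] at e0
      exact ((hI _ n0).2 _ w0.1).2.1 e0.symm
    · rw [e0] at h
      omega
  · have e : k = 2 := by omega
    subst e
    rw [hck] at w1
    exact hns ⟨w0.2, w1.2⟩

/-- For lists of length at most two, only odd rings matter. -/
theorem cs_two_iff {T : List (List ℕ)} (hI : IsInst T)
    (hL : ∀ a < T.length, (pl T a).length ≤ 2) : (∃ M, IsMatching T M ∧ CycleStable T M) ↔
      ¬ ∃ k b, k % 2 = 1 ∧ Ring (pl T) (Finset.range T.length) k b := by
  constructor
  · rintro ⟨M, hM, hS⟩ ⟨k, b, hk, hR⟩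
    exact not_st (two_of hI hL) hk hR M (st_of_three hI hM fun k _ c => hS k c)
  · intro h
    obtain ⟨M, hM⟩ := exists_st _ (Finset.range T.length) rfl (pl T) (two_of hI hL)
      (fun k b hk hR => h ⟨k, b, hk, hR⟩)
    exact ⟨M, cycle_of_st hI hL hM⟩

theorem cs3_two_iff {T : List (List ℕ)} (hI : IsInst T)
    (hL : ∀ a < T.length, (pl T a).length ≤ 2) : (∃ M, IsMatching T M ∧ ThreeCycleStable T M) ↔
      ¬ ∃ k b, k % 2 = 1 ∧ Ring (pl T) (Finset.range T.length) k b := by
  rw [← cs_two_iff hI hL]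
  constructor
  · rintro ⟨M, hM, hS⟩
    exact ⟨M, cycle_of_st hI hL (st_of_three hI hM hS)⟩
  · rintro ⟨M, hM, hS⟩
    exact ⟨M, hM, fun k _ c => hS k c⟩

end Pool.Agent.Q325.CS
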