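import Pool.Agent.Q325.CsMem
import Pool.Agent.Q325.CsTwo

/-!
# Lists of length at most two: polynomial time
-/

set_option autoImplicit false

namespace Pool.Agent.NPC.Q325CS

open Pool.Agent.Q325.CS

/-- first choice -/
def ff (T : List (List ℕ)) (a : ℕ) : ℕ := (pl T a).getD 0 0

/-- `k` steps from `a` -/
def itf (T : List (List ℕ)) (k a : ℕ) : ℕ := (ff T)^[k] a

/-- test for odd rings -/
def oddB (T : List (List ℕ)) : Bool := (List.range T.length).any fun a =>
  (List.range (T.length + 1)).any fun k => decide (k % 2 = 1) && (decide (itf T k a = a) &&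
    (List.range T.length).all fun i =>
      decide (pl T (itf T (i + 1) a) = [itf T (i + 2) a, itf T i a]))

theorem oddB_iff {T : List (List ℕ)} (hI : IsInst T) : oddB T = true ↔
    ∃ k b, k % 2 = 1 ∧ Ring (pl T) (Finset.range T.length) k b := by
  unfold oddB
  simp only [List.any_eq_true, List.mem_range, Bool.and_eq_true, decide_eq_true_eq,
    List.all_eq_true]
  constructor
  · rintro ⟨a, ha, k, hk, hodd, hper, hr⟩
    have hper' : ∀ i, itf T (i + k) a = itf T i a := by
      intro i
      have h1 : itf T k a = a := hper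
      unfold itf at h1 ⊢
      rw [Function.iterate_add_apply, h1]
    have hmod : ∀ i, itf T i a = itf T (i % k) a := by
      intro i
      induction i using Nat.strong_induction_on with
      | _ i ih =>
        rcases Nat.lt_or_ge i k with h | h
        · rw [Nat.mod_eq_of_lt h]
        · have h1 := hper' (i - k)
          rw [Nat.sub_add_cancel h] at h1
          rw [h1, ih (i - k) (by omega), Nat.mod_eq_sub_mod h]
    have hring : ∀ i, pl T (itf T (i + 1) a) = [itf T (i + 2) a, itf T i a] := by
      intro i
      have hk0 : 0 < k := by omega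
      have h1 := hr (i % k) (by have := Nat.mod_lt i hk0; omega)
      have e1 : itf T (i % k + 1) a = itf T (i + 1) a := by
        rw [hmod (i % k + 1), hmod (i + 1), Nat.mod_add_mod]
      have e2 : itf T (i % k + 2) a = itf T (i + 2) a := by
        rw [hmod (i % k + 2), hmod (i + 2), Nat.mod_add_mod]
      rw [e1, e2, ← hmod i] at h1
      exact h1
    refine ⟨k, fun i => itf T i a, hodd, ?_, hring, hper'⟩
    intro i
    rw [Finset.mem_range]
    induction i with
    | zero => exact ha
    | succ i ih =>
      have h1 := hring (i + k - 1)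
      rw [show i + k - 1 + 1 = i + k by omega, show i + k - 1 + 2 = i + 1 + k by omega,
        hper', hper'] at h1
      exact ((hI _ ih).2 (itf T (i + 1) a) (by rw [h1]; simp)).1
  · rintro ⟨k, b, hodd, r1, r2, r3⟩
    have hf : ∀ i, ff T (b i) = b (i + 1) := by
      intro i
      have h1 := r2 (i + k - 1)
      rw [show i + k - 1 + 1 = i + k by omega, show i + k - 1 + 2 = i + 1 + k by omega,
        r3, r3] at h1
      unfold ff
      rw [h1]
      rfl
    have hit : ∀ i, itf T i (b 0) = b i := by
      intro i
      unfold itf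
      induction i with
      | zero => rfl
      | succ i ih => rw [Function.iterate_succ_apply', ih, hf]
    have hper : Function.IsPeriodicPt (ff T) k (b 0) := by
      have := hit k
      unfold itf at this
      rw [Function.IsPeriodicPt, Function.IsFixedPt, this]
      have := r3 0
      rwa [zero_add] at this
    refine ⟨b 0, Finset.mem_range.1 (r1 0), Function.minimalPeriod (ff T) (b 0), ?_, ?_, ?_,
      fun i _ => ?_⟩
    · have h1 : (Finset.range (Function.minimalPeriod (ff T) (b 0))).card ≤
          (Finset.range T.length).card := by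
        refine Finset.card_le_card_of_injOn (fun i => (ff T)^[i] (b 0)) ?_ ?_
        · intro i _
          have := hit i
          unfold itf at this
          dsimp only
          rw [this]
          exact r1 i
        · intro i hi j hj h
          rw [Finset.coe_range] at hi hj
          exact Function.iterate_injOn_Iio_minimalPeriod hi hj h
      rw [Finset.card_range, Finset.card_range] at h1
      omega
    · have h1 := hper.minimalPeriod_dvd
      by_contra h2
      have h3 : 2 ∣ Function.minimalPeriod (ff T) (b 0) := by omega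
      have h4 := h3.trans h1
      omega
    · exact Function.iterate_minimalPeriod
    · rw [hit, hit, hit]
      exact r2 i

/-! ### The complexity -/

theorem CS_two_iff {L : ℕ} (hL : L ≤ 2) (T : List (List ℕ)) :
    CS L T ↔ (instB L T && !oddB T) = true := by
  rw [Bool.and_eq_true, Bool.not_eq_true']
  constructor
  · rintro ⟨hI, hlen, h⟩
    refine ⟨(instB_iff L T).2 ⟨hI, hlen⟩, ?_⟩
    rw [← Bool.not_eq_true, oddB_iff hI]
    exact (cs_two_iff hI fun a ha => (hlen a ha).trans hL).1 h
  · rintro ⟨h1, h2⟩
    obtain ⟨hI, hlen⟩ := (instB_iff L T).1 h1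
    rw [← Bool.not_eq_true, oddB_iff hI] at h2
    exact ⟨hI, hlen, (cs_two_iff hI fun a ha => (hlen a ha).trans hL).2 h2⟩

theorem CS3_two_iff {L : ℕ} (hL : L ≤ 2) (T : List (List ℕ)) :
    CS3 L T ↔ (instB L T && !oddB T) = true := by
  rw [← CS_two_iff hL]
  unfold CS CS3
  constructor
  · rintro ⟨hI, hlen, h⟩
    have hl2 := fun a ha => (hlen a ha).trans hL
    exact ⟨hI, hlen, (cs_two_iff hI hl2).2 ((cs3_two_iff hI hl2).1 h)⟩
  · rintro ⟨hI, hlen, h⟩
    have hl2 := fun a ha => (hlen a ha).trans hL
    exact ⟨hI, hlen, (cs3_two_iff hI hl2).2 ((cs_two_iff hI hl2).1 h)⟩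

variable {α : Type} [TEnc α] {T : α → List (List ℕ)} {a : α → ℕ}

theorem poly_ff (hT : Poly T) (ha : Poly a) : Poly (fun x => ff (T x) (a x)) := by
  unfold ff
  fun_prop

theorem sz_ff (T : List (List ℕ)) (a : ℕ) : sz (ff T a) ≤ sz T + 1 := by
  unfold ff pl
  have h0 : sz (0 : ℕ) ≤ sz T + 1 := by
    have := sz_nat_le 0
    simp at this
    omega
  rcases Nat.lt_or_ge a T.length with h | h
  · rw [List.getD_eq_getElem _ _ h]
    rcases Nat.lt_or_ge 0 (T[a]).length with h' | h'
    · rw [List.getD_eq_getElem _ _ h']
      have h1 := sz_le_of_mem (List.getElem_mem h)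
      have h2 := sz_le_of_mem (List.getElem_mem h')
      omega
    · rw [List.getD_eq_default _ _ h']
      exact h0
  · rw [List.getD_eq_default _ _ h]
    exact h0

theorem sz_itf (T : List (List ℕ)) (k a : ℕ) : sz (itf T k a) ≤ sz T + sz a + 1 := by
  unfold itf
  cases k with
  | zero =>
    rw [Function.iterate_zero, id]
    omega
  | succ k =>
    rw [Function.iterate_succ_apply']
    have := sz_ff T ((ff T)^[k] a)
    omega

theorem poly_itf {k : α → ℕ} (hT : Poly T) (hk : UPoly k) (ha : Poly a) :
    Poly (fun x => itf (T x) (k x) (a x)) := by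
  obtain ⟨q1, hq1⟩ := hT.sz_le
  obtain ⟨q2, hq2⟩ := ha.sz_le
  unfold itf
  refine (Poly.iterLen (l := fun x => List.replicate (k x) ()) (s := a) (F := fun x b => ff (T x) b)
    hk ha (poly_ff (hT.comp (Poly.fst Poly.id)) (Poly.snd Poly.id)) (q1 + q2 + 1) ?_).congr
    fun x => ?_
  · intro x j _
    have h1 := sz_itf (T x) j (a x)
    have h2 := hq1 x
    have h3 := hq2 x
    unfold itf at h1
    rw [Polynomial.eval_add, Polynomial.eval_add, Polynomial.eval_one]
    exact h1.trans (by omega)
  · rw [List.length_replicate]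

/-- at most `n + 2` steps -/
def itm (T : List (List ℕ)) (k a : ℕ) : ℕ := itf T (min k (T.length + 2)) a

def oddB' (T : List (List ℕ)) : Bool := (List.range T.length).any fun a =>
  (List.range (T.length + 1)).any fun k => decide (k % 2 = 1) && (decide (itm T k a = a) &&
    (List.range T.length).all fun i =>
      decide (pl T (itm T (i + 1) a) = [itm T (i + 2) a, itm T i a]))

theorem oddB_eq (T : List (List ℕ)) : oddB' T = oddB T := by
  rw [Bool.eq_iff_iff]
  unfold oddB oddB'
  simp only [List.any_eq_true, List.mem_range, Bool.and_eq_true, decide_eq_true_eq,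
    List.all_eq_true]
  unfold itm
  constructor
  · rintro ⟨a, ha, k, hk, hodd, hper, hr⟩
    rw [Nat.min_eq_left (by omega)] at hper
    refine ⟨a, ha, k, hk, hodd, hper, fun i hi => ?_⟩
    have := hr i hi
    rwa [Nat.min_eq_left (by omega), Nat.min_eq_left (by omega),
      Nat.min_eq_left (by omega)] at this
  · rintro ⟨a, ha, k, hk, hodd, hper, hr⟩
    refine ⟨a, ha, k, hk, hodd, ?_, fun i hi => ?_⟩
    · rwa [Nat.min_eq_left (by omega)]
    · have := hr i hi
      rwa [Nat.min_eq_left (by omega), Nat.min_eq_left (by omega),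
        Nat.min_eq_left (by omega)]

@[fun_prop]
theorem poly_itm {k : α → ℕ} (hT : Poly T) (hk : Poly k) (ha : Poly a) :
    Poly (fun x => itm (T x) (k x) (a x)) := by
  have hl : UPoly (fun x => (T x).length + 2) := (UPoly.length hT).add (UPoly.const 2)
  exact poly_itf hT (UPoly.of_le (Poly.min hk hl.toPoly) hl fun _ => Nat.min_le_right _ _) ha

theorem poly_oddB (hT : Poly T) : Poly (fun x => oddB (T x)) := by
  have h : Poly (fun x => oddB' (T x)) := by
    unfold oddB'
    refine Poly.any (p := fun x a => (List.range ((T x).length + 1)).any fun k =>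
      decide (k % 2 = 1) && (decide (itm (T x) k a = a) && (List.range (T x).length).all fun i =>
      decide (pl (T x) (itm (T x) (i + 1) a) = [itm (T x) (i + 2) a, itm (T x) i a])))
      (Poly.range_length hT) ?_
    have hT1 : Poly (fun p : α × ℕ => T p.1) := hT.comp (Poly.fst Poly.id)
    refine Poly.any (p := fun (p : α × ℕ) k =>
      decide (k % 2 = 1) && (decide (itm (T p.1) k p.2 = p.2) &&
      (List.range (T p.1).length).all fun i =>
      decide (pl (T p.1) (itm (T p.1) (i + 1) p.2) = [itm (T p.1) (i + 2) p.2, itm (T p.1) i p.2])))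
      (((UPoly.length hT1).add (UPoly.const 1)).range) ?_
    refine Poly.and (by fun_prop) (Poly.and (by fun_prop) ?_)
    exact Poly.all (p := fun (q : (α × ℕ) × ℕ) i =>
      decide (pl (T q.1.1) (itm (T q.1.1) (i + 1) q.1.2) =
        [itm (T q.1.1) (i + 2) q.1.2, itm (T q.1.1) i q.1.2]))
      (Poly.range_length (hT1.comp (Poly.fst Poly.id))) (by fun_prop)
  exact h.congr fun x => oddB_eq (T x)

theorem inP_CS {L : ℕ} (hL : L ≤ 2) : InPP (CS L) :=
  inPP_of (d := fun T => instB L T && !oddB T)
    (Poly.and (poly_instB L Poly.id) (Poly.not (poly_oddB Poly.id))) (CS_two_iff hL)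

theorem inP_CS3 {L : ℕ} (hL : L ≤ 2) : InPP (CS3 L) :=
  inPP_of (d := fun T => instB L T && !oddB T)
    (Poly.and (poly_instB L Poly.id) (Poly.not (poly_oddB Poly.id))) (CS3_two_iff hL)

end Pool.Agent.NPC.Q325CS
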