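import Pool.Agent.Q325.EncRed

/-!
# A negative odd cycle gives a Hamiltonian cycle
-/

set_option autoImplicit false

namespace Pool.Agent.Q325.ENC

open Pool.Agent.H679R2 Pool.Agent.NPC.H679

/-- class of a vertex -/
def ph (x : ℕ) : ℕ := if x % 3 = 1 then 1 else 0

theorem ph_fwd {I : List ℕ × List (ℕ × ℕ)} {x y : ℕ} (h : fwd I x y = true) : ph x + ph y = 1 := by
  rw [fwd_iff] at h
  unfold ph
  split_ifs <;> omega

theorem ph_spc {I : List ℕ × List (ℕ × ℕ)} {x y : ℕ} (h : spc I x y = true) : ph x + ph y = 0 := by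
  rw [spc_iff] at h
  unfold ph
  split_ifs <;> omega

theorem fwd_not_spc {I : List ℕ × List (ℕ × ℕ)} {x y : ℕ} (h : fwd I x y = true) :
    spc I x y = false := by
  rw [Bool.eq_false_iff, Ne, spc_iff]
  rw [fwd_iff] at h
  omega

theorem wt_add_one (C : List Arc) : (C.map (fun a => a.2.2 + 1)).sum = wt C + C.length := by
  unfold wt
  rw [List.sum_map_add]
  simp

theorem no_big {I : List ℕ × List (ℕ × ℕ)} {C : List Arc} (hC : IsCyc (arcs I) C)
    (hneg : wt C < 0) : C.length ≤ 2 * (V I).length + 1 ∧
    ∀ a ∈ C, (fwd I a.1 a.2.1 = true ∧ a.2.2 = -1) ∨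
      (spc I a.1 a.2.1 = true ∧ a.2.2 = ((2 * (V I).length - 1 : ℕ) : ℚ)) := by
  obtain ⟨-, h2, h3, -⟩ := hC
  have hlen : C.length ≤ 2 * (V I).length + 1 := by
    rw [← P_length, ← List.length_map (as := C) (f := fun a => a.1)]
    refine (h3.subperm fun x hx => ?_).length_le
    obtain ⟨a, ha, rfl⟩ := List.mem_map.1 hx
    exact ((mem_arcs I a).1 (h2 a ha)).1
  refine ⟨hlen, fun a ha => ?_⟩
  obtain ⟨-, -, h | ⟨-, h⟩ | ⟨-, -, -, h⟩⟩ := (mem_arcs I a).1 (h2 a ha)
  · exact Or.inl h
  · exact Or.inr h
  · exfalso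
    have h5 : ∀ x ∈ C.map (fun a : Arc => a.2.2 + 1), (0 : ℚ) ≤ x := by
      intro x hx
      obtain ⟨b, hb, rfl⟩ := List.mem_map.1 hx
      obtain ⟨-, -, ⟨-, h⟩ | ⟨-, -, h⟩ | ⟨-, -, -, h⟩⟩ := (mem_arcs I b).1 (h2 b hb)
      · rw [h]; norm_num
      · rw [h]; positivity
      · rw [h]; positivity
    have h6 := List.single_le_sum h5 _ (List.mem_map.2 ⟨a, ha, rfl⟩)
    rw [wt_add_one, h] at h6
    have h7 : (C.length : ℚ) ≤ 2 * (V I).length + 1 := by exact_mod_cast hlen
    push_cast at h6
    linarith

theorem odd_cycle {I : List ℕ × List (ℕ × ℕ)} {C : List Arc} (hn : 3 ≤ (V I).length)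
    (hC : IsCyc (arcs I) C) (hodd : Odd C.length) (hneg : wt C < 0) :
    C.length = 2 * (V I).length + 1 := by
  obtain ⟨hlen, hcase⟩ := no_big hC hneg
  obtain ⟨-, h2, h3, h4⟩ := hC
  -- the number of special arcs
  set k := (C.map (fun a : Arc => if spc I a.1 a.2.1 = true then 1 else 0)).sum with hk
  have hk1 : k ≤ 1 := by
    have h5 : k ≤ (C.map (fun a : Arc => if a.1 = 3 * r I then 1 else 0)).sum := by
      refine List.sum_le_sum fun a _ => ?_
      split_ifs with h6 h7
      · exact le_rfl
      · rw [spc_iff] at h6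
        exact absurd h6.1 h7
      · omega
      · exact le_rfl
    have h6 : (C.map (fun a : Arc => if a.1 = 3 * r I then 1 else 0)).sum =
        (C.map (fun a => a.1)).count (3 * r I) := by
      clear * -
      induction C with
      | nil => rfl
      | cons a C ih =>
        rw [List.map_cons, List.sum_cons, ih, List.map_cons, List.count_cons]
        simp only [beq_iff_eq]
        omega
    have h7 := List.nodup_iff_count_le_one.1 h3 (3 * r I)
    omega
  have hsum : 2 * (C.map (fun a : Arc => ph a.1)).sum + k = C.length := by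
    have h5 : (C.map (fun a : Arc => ph a.2.1)).sum = (C.map (fun a : Arc => ph a.1)).sum := by
      have e1 : C.map (fun a : Arc => ph a.2.1) = (C.map (fun a : Arc => a.2.1)).map ph := by
        rw [List.map_map]; rfl
      have e2 : C.map (fun a : Arc => ph a.1) = (C.map (fun a : Arc => a.1)).map ph := by
        rw [List.map_map]; rfl
      rw [e1, e2, h4]
      exact ((List.rotate_perm _ 1).map ph).sum_eq
    have h6 : (C.map (fun a : Arc => ph a.1 + ph a.2.1 +
        (if spc I a.1 a.2.1 = true then 1 else 0))).sum = C.length := by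
      have e : C.map (fun a : Arc => ph a.1 + ph a.2.1 +
        (if spc I a.1 a.2.1 = true then 1 else 0)) = C.map (fun _ => 1) := by
        refine List.map_congr_left fun a ha => ?_
        rcases hcase a ha with ⟨h7, -⟩ | ⟨h7, -⟩
        · rw [ph_fwd h7, fwd_not_spc h7]
          rfl
        · rw [ph_spc h7, if_pos h7]
      rw [e]
      simp
    rw [List.sum_map_add, List.sum_map_add, h5] at h6
    omega
  have hk' : k = 1 := by
    obtain ⟨m, hm⟩ := hodd
    omega
  have hw : wt C + C.length = 2 * (V I).length * k := by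
    rw [← wt_add_one]
    have e : C.map (fun a : Arc => a.2.2 + 1) =
        C.map (fun a : Arc => (2 * (V I).length : ℚ) *
          ((if spc I a.1 a.2.1 = true then 1 else 0 : ℕ) : ℚ)) := by
      refine List.map_congr_left fun a ha => ?_
      rcases hcase a ha with ⟨h7, h8⟩ | ⟨h7, h8⟩
      · rw [fwd_not_spc h7, h8]
        norm_num
      · rw [if_pos h7, h8]
        rw [Nat.cast_sub (by omega)]
        push_cast
        ring
    rw [e, List.sum_map_mul_left, hk]
    congr 1
    rw [Nat.cast_list_sum, List.map_map]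
    rfl
  rw [hk'] at hw
  push_cast at hw
  have h8 : (2 * (V I).length : ℚ) < C.length := by linarith
  have h9 : 2 * (V I).length < C.length := by exact_mod_cast h8
  omega

theorem bwd {I : List ℕ × List (ℕ × ℕ)} {C : List Arc} (hn : 3 ≤ (V I).length)
    (hC : IsCyc (arcs I) C) (hodd : Odd C.length) (hneg : wt C < 0) : HasHamCycle I := by
  have hL := odd_cycle hn hC hodd hneg
  obtain ⟨-, hcase⟩ := no_big hC hneg
  obtain ⟨-, h2, h3, h4⟩ := hC
  set n := (V I).length with hnd
  set S := C.map (fun a : Arc => a.1) with hS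
  have hSl : S.length = 2 * n + 1 := by rw [hS, List.length_map, hL]
  have hsub : S ⊆ P I := by
    intro x hx
    obtain ⟨a, ha, rfl⟩ := List.mem_map.1 hx
    exact ((mem_arcs I a).1 (h2 a ha)).1
  have hperm : S.Perm (P I) := (h3.subperm hsub).perm_of_length_le (by
    rw [P_length, hSl])
  have hr : 3 * r I + 1 ∈ S := by
    rw [hperm.mem_iff, mem_P_iff]
    refine Or.inr (Or.inl ⟨by omega, ?_⟩)
    rw [show (3 * r I + 1) / 3 = r I by omega]
    exact r_mem (by omega)
  obtain ⟨i0, hi0, hi0'⟩ := List.getElem_of_mem hr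
  -- the vertices of the cycle, starting with `3 r + 1`
  set g : ℕ → ℕ := fun p => S.getD ((i0 + p) % (2 * n + 1)) 0 with hg
  have hgm : ∀ p, g p ∈ P I := by
    intro p
    have h5 : (i0 + p) % (2 * n + 1) < S.length := by
      rw [hSl]; exact Nat.mod_lt _ (by omega)
    rw [hg]
    dsimp only
    rw [List.getD_eq_getElem _ _ h5]
    exact hsub (List.getElem_mem h5)
  have hstep : ∀ p, fwd I (g p) (g (p + 1)) = true ∨ spc I (g p) (g (p + 1)) = true := by
    intro p
    have h5 : (i0 + p) % (2 * n + 1) < C.length := by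
      rw [hL]; exact Nat.mod_lt _ (by omega)
    have e1 : g p = (C[(i0 + p) % (2 * n + 1)]).1 := by
      rw [hg]
      dsimp only
      rw [List.getD_eq_getElem _ _ (lt_of_lt_of_eq h5 (hL.trans hSl.symm))]
      simp [hS]
    have e2 : g (p + 1) = (C[(i0 + p) % (2 * n + 1)]).2.1 := by
      have h6 : (i0 + p) % (2 * n + 1) < (C.map (fun a : Arc => a.2.1)).length := by
        rw [List.length_map]; exact h5
      have h7 : (C[(i0 + p) % (2 * n + 1)]).2.1 =
          (C.map (fun a : Arc => a.2.1))[(i0 + p) % (2 * n + 1)] := by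
        rw [List.getElem_map]
      have h8 : (C.map (fun a : Arc => a.2.1))[(i0 + p) % (2 * n + 1)] =
          (S.rotate 1)[(i0 + p) % (2 * n + 1)]'(lt_of_lt_of_eq h5
            (hL.trans (by rw [List.length_rotate, hSl]))) := by
        congr 1
      rw [h7, h8, List.getElem_rotate, hg]
      dsimp only
      have h9 : (i0 + (p + 1)) % (2 * n + 1) = ((i0 + p) % (2 * n + 1) + 1) % S.length := by
        rw [hSl, Nat.mod_add_mod, add_assoc]
      rw [h9, List.getD_eq_getElem _ _ (Nat.mod_lt _ (by rw [hSl]; omega))]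
    have h6 := hcase _ (List.getElem_mem h5)
    rw [← e1, ← e2] at h6
    rcases h6 with ⟨h6, -⟩ | ⟨h6, -⟩
    · exact Or.inl h6
    · exact Or.inr h6
  have hinj : ∀ p q, p < 2 * n + 1 → q < 2 * n + 1 → g p = g q → p = q := by
    intro p q hp hq h
    have h5 : ∀ p, (i0 + p) % (2 * n + 1) < S.length := fun p => by
      rw [hSl]; exact Nat.mod_lt _ (by omega)
    rw [hg] at h
    dsimp only at h
    rw [List.getD_eq_getElem _ _ (h5 p), List.getD_eq_getElem _ _ (h5 q)] at h
    have h6 := (List.Nodup.getElem_inj_iff h3).1 h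
    have h7 : i0 + p ≡ i0 + q [MOD (2 * n + 1)] := h6
    have h8 : p ≡ q [MOD (2 * n + 1)] := Nat.ModEq.add_left_cancel' i0 h7
    rwa [Nat.ModEq, Nat.mod_eq_of_lt hp, Nat.mod_eq_of_lt hq] at h8
  have hper : g (2 * n + 1) = g 0 := by
    rw [hg]
    dsimp only
    rw [add_zero, Nat.add_mod_right]
  have hg0 : g 0 = 3 * r I + 1 := by
    rw [hg]
    dsimp only
    rw [add_zero, Nat.mod_eq_of_lt (by rw [← hSl]; exact hi0), List.getD_eq_getElem _ _ hi0, hi0']
  -- from a vertex of class 1 to a vertex of class 0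
  have h10 : ∀ p, g p % 3 = 1 → g (p + 1) % 3 = 0 ∧
      adjb I (g p / 3) (g (p + 1) / 3) = true := by
    intro p hp
    rcases hstep p with h | h
    · rw [fwd_iff] at h
      rcases h with h | h | h
      · omega
      · exact h.2
      · omega
    · rw [spc_iff] at h
      omega
  -- from a vertex of class 0
  have h01 : ∀ p, g p % 3 = 0 → (g p ≠ 3 * r I ∧ g (p + 1) = g p + 1) ∨
      (g p = 3 * r I ∧ g (p + 1) = 2) := by
    intro p hp
    rcases hstep p with h | h
    · rw [fwd_iff] at h
      rcases h with h | h | h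
      · exact Or.inl ⟨h.2.2, h.2.1⟩
      · omega
      · omega
    · rw [spc_iff] at h
      exact Or.inr h
  have h20 : ∀ p, g p = 2 → g (p + 1) = 3 * r I + 1 := by
    intro p hp
    rcases hstep p with h | h
    · rw [fwd_iff] at h
      rcases h with h | h | h
      · omega
      · omega
      · exact h.2
    · rw [spc_iff] at h
      omega
  have hcls : ∀ i, i < n → g (2 * i) % 3 = 1 := by
    intro i
    induction i with
    | zero => intro _; rw [mul_zero, hg0]; omega
    | succ i ih =>
      intro hi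
      have h5 := ih (by omega)
      have h6 := h10 _ h5
      rcases h01 _ h6.1 with ⟨-, h7⟩ | ⟨-, h7⟩
      · rw [show 2 * (i + 1) = 2 * i + 1 + 1 by ring, h7]
        omega
      · exfalso
        have h8 := h20 _ h7
        have h9 := hinj (2 * i + 1 + 1 + 1) 0 (by omega) (by omega) (by rw [h8, hg0])
        omega
  have hmid : ∀ i, i + 1 < n → g (2 * i + 1) ≠ 3 * r I ∧ g (2 * i + 1 + 1) = g (2 * i + 1) + 1 := by
    intro i hi
    have h6 := h10 _ (hcls i (by omega))
    rcases h01 _ h6.1 with h7 | ⟨-, h7⟩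
    · exact h7
    · exfalso
      have h8 := h20 _ h7
      have h9 := hinj (2 * i + 1 + 1 + 1) 0 (by omega) (by omega) (by rw [h8, hg0])
      omega
  have hlast : g (2 * (n - 1) + 1) = 3 * r I := by
    have h6 := h10 _ (hcls (n - 1) (by omega))
    rcases h01 _ h6.1 with ⟨-, h7⟩ | ⟨h7, -⟩
    · exfalso
      have h8 := h10 (2 * (n - 1) + 1 + 1) (by rw [h7]; omega)
      rw [show 2 * (n - 1) + 1 + 1 + 1 = 2 * n + 1 by omega, hper, hg0] at h8
      omega
    · exact h7
  -- the walk
  set u : ℕ → ℕ := fun i => g (2 * i + 1) / 3 with hu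
  have hu0 : adjb I (r I) (u 0) = true := by
    have := (h10 0 (hcls 0 (by omega))).2
    rw [hg0, show (3 * r I + 1) / 3 = r I by omega] at this
    exact this
  have hus : ∀ i, i + 1 < n → adjb I (u i) (u (i + 1)) = true := by
    intro i hi
    have h5 := (h10 _ (hcls (i + 1) hi)).2
    have h6 := (hmid i hi).2
    have h7 := (h10 _ (hcls i (by omega))).1
    rw [show 2 * (i + 1) = 2 * i + 1 + 1 by ring] at h5
    rw [h6, show (g (2 * i + 1) + 1) / 3 = g (2 * i + 1) / 3 by omega] at h5
    exact h5
  have hul : u (n - 1) = r I := by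
    rw [hu]
    dsimp only
    rw [hlast]
    omega
  have huV : ∀ i, i < n → u i ∈ V I := by
    intro i hi
    have h5 := (h10 _ (hcls i hi)).1
    have h6 := (mem_P_iff I _).1 (hgm (2 * i + 1))
    rcases h6 with h6 | h6 | h6
    · exact h6.2
    · omega
    · omega
  have hund : ((List.range n).map u).Nodup := by
    refine List.Nodup.map_on ?_ List.nodup_range
    intro i hi j hj hij
    rw [List.mem_range] at hi hj
    have h5 := (h10 _ (hcls i hi)).1
    have h6 := (h10 _ (hcls j hj)).1
    have h7 : g (2 * i + 1) = g (2 * j + 1) := by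
      rw [hu] at hij
      dsimp only at hij
      omega
    have h8 := hinj _ _ (by omega) (by omega) h7
    omega
  have hcov : ∀ v ∈ V I, v ∈ (List.range n).map u := by
    have h5 : ((List.range n).map u).Perm (V I) := by
      refine (hund.subperm fun x hx => ?_).perm_of_length_le (by
        rw [List.length_map, List.length_range])
      obtain ⟨i, hi, rfl⟩ := List.mem_map.1 hx
      exact huV i (List.mem_range.1 hi)
    exact fun v hv => h5.mem_iff.2 hv
  refine ham_of_list (w := r I :: (List.range n).map u) ⟨?_, ?_, ?_, hund, ?_, ?_⟩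
  · rw [List.isChain_iff_getElem]
    intro i hi
    cases i with
    | zero => simpa using hu0
    | succ i =>
      simp only [List.length_cons, List.length_map, List.length_range] at hi
      simpa using hus i (by omega)
  · simp only [List.length_cons, List.length_map, List.length_range]
    omega
  · rw [List.head?_reverse]
    have h5 : (r I :: (List.range n).map u) = (r I :: (List.range (n - 1)).map u) ++ [r I] := by
      rw [List.cons_append, List.cons_inj_right]
      obtain ⟨m, hm⟩ : ∃ m, n = m + 1 := ⟨n - 1, by omega⟩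
      rw [hm, List.range_succ, List.map_append, Nat.add_sub_cancel]
      rw [hm, Nat.add_sub_cancel] at hul
      simp [hul]
    rw [h5, List.getLast?_append]
    simp
  · intro v hv
    exact List.mem_cons_of_mem _ (hcov v (List.mem_dedup.2 hv))
  · intro v hv
    rcases List.mem_cons.1 hv with rfl | hv
    · exact List.mem_dedup.1 (r_mem (by omega))
    · obtain ⟨i, hi, rfl⟩ := List.mem_map.1 hv
      exact List.mem_dedup.1 (huV i (List.mem_range.1 hi))

end Pool.Agent.Q325.ENC
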