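import Mathlib

/-!
# Even-nearly conservative arc weights: the decision problem

A weighted digraph is given by the list of its arcs `(u, v, c)`: the arc goes from the vertex `u` to
the vertex `v` (natural numbers) and has weight `c`. Isolated vertices are irrelevant for the
problem and are not listed.
-/

set_option autoImplicit false

namespace Pool.Agent.Q325.ENC

/-- An arc with its weight. -/
abbrev Arc := ℕ × ℕ × ℚ

/-- The list presents a digraph with weights: there are no loops and no repeated arcs. -/
def IsWD (D : List Arc) : Prop :=
  (∀ a ∈ D, a.1 ≠ a.2.1) ∧ (D.map (fun a => (a.1, a.2.1))).Nodup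

/-- `C` is the list of the arcs of a directed cycle of `D`, in cyclic order: at least two arcs of
`D`, the vertices in which they start are different, and every arc ends where the next one starts
(and the last one ends where the first one starts). -/
def IsCyc (D C : List Arc) : Prop :=
  2 ≤ C.length ∧ (∀ a ∈ C, a ∈ D) ∧ (C.map (fun a => a.1)).Nodup ∧
    C.map (fun a => a.2.1) = (C.map (fun a => a.1)).rotate 1

/-- The weight of a list of arcs. -/
def wt (C : List Arc) : ℚ := (C.map (fun a => a.2.2)).sum

/-- Every directed cycle with an odd number of arcs has nonnegative weight. -/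
def EvenNC (D : List Arc) : Prop := ∀ C, IsCyc D C → Odd C.length → 0 ≤ wt C

/-- The digraph is symmetric. -/
def IsSym (D : List Arc) : Prop := ∀ a ∈ D, ∃ b ∈ D, b.1 = a.2.1 ∧ b.2.1 = a.1

/-- The weights are integers, and at most the number of arcs in absolute value. -/
def IsSmall (D : List Arc) : Prop := ∀ a ∈ D, ∃ z : ℤ, a.2.2 = z ∧ |z| ≤ D.length

/-- The decision problem: a weighted digraph whose weights are even-nearly conservative. -/
def ENC (D : List Arc) : Prop := IsWD D ∧ EvenNC D

/-- The restriction to symmetric digraphs with integer weights of absolute value at most the number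
of the arcs. -/
def SENC (D : List Arc) : Prop := IsWD D ∧ IsSym D ∧ IsSmall D ∧ EvenNC D

end Pool.Agent.Q325.ENC
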