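import Pool.Agent.Q325.EncRed

/-!
# A Hamiltonian cycle gives a negative odd cycle
-/

set_option autoImplicit false

namespace Pool.Agent.Q325.ENC

open Pool.Agent.H679R2 Pool.Agent.NPC.H679

/-- The arcs from `u` to the copy of `v`. -/
def seg (I : List ℕ × List (ℕ × ℕ)) (u v : ℕ) : List Arc :=
  if v = r I then [(3 * u + 1, 3 * v, -1), (3 * v, 2, ((2 * (V I).length - 1 : ℕ) : ℚ)),
    (2, 3 * v + 1, -1)]
  else [(3 * u + 1, 3 * v, -1), (3 * v, 3 * v + 1, -1)]

/-- The arcs of a walk. -/
def path (I : List ℕ × List (ℕ × ℕ)) : ℕ → List ℕ → List Arc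
  | _, [] => []
  | u, v :: t => seg I u v ++ path I v t

theorem path_chain (I : List ℕ × List (ℕ × ℕ)) : ∀ (t : List ℕ) (u : ℕ),
    (path I u t).map (fun a => a.1) ++ [3 * (t.getLastD u) + 1] =
      (3 * u + 1) :: (path I u t).map (fun a => a.2.1)
  | [], u => by simp [path]
  | v :: t, u => by
    have ih := path_chain I t v
    have h1 : (v :: t).getLastD u = t.getLastD v := List.getLastD_cons ..
    have h2 : (seg I u v).map (fun a => a.1) ++ [3 * v + 1] =
        (3 * u + 1) :: (seg I u v).map (fun a => a.2.1) := by
      unfold seg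
      split_ifs <;> simp
    rw [h1, path, List.map_append, List.append_assoc, ih, List.map_append, ← List.cons_append,
      ← h2]
    simp

theorem path_starts (I : List ℕ × List (ℕ × ℕ)) : ∀ (t : List ℕ) (u : ℕ) (x : ℕ),
    x ∈ (path I u t).map (fun a => a.1) → (x % 3 = 1 ∧ x / 3 ∈ (u :: t).dropLast) ∨
      (x % 3 = 0 ∧ x / 3 ∈ t) ∨ (x = 2 ∧ r I ∈ t)
  | [], u, x => by simp [path]
  | v :: t, u, x => by
    intro h
    rw [path, List.map_append, List.mem_append] at h
    have h2 : (u :: v :: t).dropLast = u :: (v :: t).dropLast := rfl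
    rcases h with h | h
    · unfold seg at h
      split_ifs at h with h1
      · simp only [List.map_cons, List.map_nil, List.mem_cons, List.not_mem_nil, or_false] at h
        rcases h with rfl | rfl | rfl
        · refine Or.inl ⟨by omega, ?_⟩
          rw [h2, show (3 * u + 1) / 3 = u by omega]
          simp
        · refine Or.inr (Or.inl ⟨by omega, ?_⟩)
          rw [show (3 * v) / 3 = v by omega]
          simp
        · exact Or.inr (Or.inr ⟨rfl, by simp [h1]⟩)
      · simp only [List.map_cons, List.map_nil, List.mem_cons, List.not_mem_nil, or_false] at h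
        rcases h with rfl | rfl
        · refine Or.inl ⟨by omega, ?_⟩
          rw [h2, show (3 * u + 1) / 3 = u by omega]
          simp
        · refine Or.inr (Or.inl ⟨by omega, ?_⟩)
          rw [show (3 * v) / 3 = v by omega]
          simp
    · rcases path_starts I t v x h with ⟨h3, h4⟩ | ⟨h3, h4⟩ | ⟨h3, h4⟩
      · refine Or.inl ⟨h3, ?_⟩
        rw [h2]
        exact List.mem_cons_of_mem _ h4
      · exact Or.inr (Or.inl ⟨h3, List.mem_cons_of_mem _ h4⟩)
      · exact Or.inr (Or.inr ⟨h3, List.mem_cons_of_mem _ h4⟩)

theorem path_nodup (I : List ℕ × List (ℕ × ℕ)) : ∀ (t : List ℕ) (u : ℕ),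
    (u :: t).dropLast.Nodup → t.Nodup → ((path I u t).map (fun a => a.1)).Nodup
  | [], u => by simp [path]
  | v :: t, u => by
    intro h1 h2
    have h3 : (u :: v :: t).dropLast = u :: (v :: t).dropLast := rfl
    rw [h3, List.nodup_cons] at h1
    obtain ⟨h1, h4⟩ := h1
    rw [List.nodup_cons] at h2
    obtain ⟨h2, h5⟩ := h2
    have ih := path_nodup I t v h4 h5
    have hst := path_starts I t v
    rw [path, List.map_append, List.nodup_append]
    refine ⟨?_, ih, ?_⟩
    · unfold seg
      split_ifs with h6
      · simp only [List.map_cons, List.map_nil, List.nodup_cons, List.mem_cons, List.not_mem_nil,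
          or_false, not_false_eq_true, List.nodup_nil, and_true]
        omega
      · simp only [List.map_cons, List.map_nil, List.nodup_cons, List.mem_cons, List.not_mem_nil,
          or_false, not_false_eq_true, List.nodup_nil, and_true]
        omega
    · intro a ha b hb hab
      subst hab
      have h8 := hst a hb
      unfold seg at ha
      have hv : ∀ w, (3 * w) / 3 = w := fun w => by omega
      have hv' : ∀ w, (3 * w + 1) / 3 = w := fun w => by omega
      split_ifs at ha with h6
      · simp only [List.map_cons, List.map_nil, List.mem_cons, List.not_mem_nil, or_false] at ha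
        rcases ha with rfl | rfl | rfl
        · rcases h8 with ⟨_, h8⟩ | ⟨h8, _⟩ | ⟨h8, _⟩
          · rw [hv'] at h8
            exact h1 h8
          · omega
          · omega
        · rcases h8 with ⟨h8, _⟩ | ⟨_, h8⟩ | ⟨h8, _⟩
          · omega
          · rw [hv] at h8
            exact h2 h8
          · omega
        · rcases h8 with ⟨h8, _⟩ | ⟨h8, _⟩ | ⟨_, h8⟩
          · omega
          · omega
          · rw [h6] at h2
            exact h2 h8
      · simp only [List.map_cons, List.map_nil, List.mem_cons, List.not_mem_nil, or_false] at ha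
        rcases ha with rfl | rfl
        · rcases h8 with ⟨_, h8⟩ | ⟨h8, _⟩ | ⟨h8, _⟩
          · rw [hv'] at h8
            exact h1 h8
          · omega
          · omega
        · rcases h8 with ⟨h8, _⟩ | ⟨_, h8⟩ | ⟨h8, _⟩
          · omega
          · rw [hv] at h8
            exact h2 h8
          · omega

theorem path_mem {I : List ℕ × List (ℕ × ℕ)} : ∀ (t : List ℕ) (u : ℕ),
    (u :: t).IsChain (fun u v => adjb I u v = true) → (∀ x ∈ u :: t, x ∈ V I) →
    ∀ a ∈ path I u t, a ∈ arcs I
  | [], u => by simp [path]
  | v :: t, u => by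
    intro h1 h2 a ha
    rw [List.isChain_cons_cons] at h1
    have hu : u ∈ V I := h2 u (by simp)
    have hv : v ∈ V I := h2 v (by simp)
    have e1 : ∀ w, (3 * w) / 3 = w := fun w => by omega
    have e2 : ∀ w, (3 * w + 1) / 3 = w := fun w => by omega
    have p0 : ∀ w ∈ V I, 3 * w ∈ P I := fun w hw =>
      (mem_P_iff I _).2 (Or.inl ⟨by omega, by rw [e1]; exact hw⟩)
    have p1 : ∀ w ∈ V I, 3 * w + 1 ∈ P I := fun w hw =>
      (mem_P_iff I _).2 (Or.inr (Or.inl ⟨by omega, by rw [e2]; exact hw⟩))
    have p2 : 2 ∈ P I := (mem_P_iff I _).2 (Or.inr (Or.inr rfl))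
    rw [path, List.mem_append] at ha
    rcases ha with ha | ha
    · have hA : ((3 * u + 1, 3 * v, -1) : Arc) ∈ arcs I := by
        rw [mem_arcs]
        refine ⟨p1 u hu, p0 v hv, Or.inl ⟨?_, rfl⟩⟩
        rw [fwd_iff]
        refine Or.inr (Or.inl ⟨by dsimp only; omega, by dsimp only; omega, ?_⟩)
        dsimp only
        rw [e1, e2]
        exact h1.1
      unfold seg at ha
      split_ifs at ha with h6
      · simp only [List.mem_cons, List.not_mem_nil, or_false] at ha
        rcases ha with rfl | rfl | rfl
        · exact hA
        · rw [mem_arcs]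
          refine ⟨p0 v hv, p2, Or.inr (Or.inl ⟨?_, ?_, rfl⟩)⟩
          · rw [Bool.eq_false_iff, Ne, fwd_iff]
            dsimp only
            omega
          · rw [spc_iff]
            exact ⟨by dsimp only; rw [h6], rfl⟩
        · rw [mem_arcs]
          refine ⟨p2, p1 v hv, Or.inl ⟨?_, rfl⟩⟩
          rw [fwd_iff]
          exact Or.inr (Or.inr ⟨rfl, by dsimp only; rw [h6]⟩)
      · simp only [List.mem_cons, List.not_mem_nil, or_false] at ha
        rcases ha with rfl | rfl
        · exact hA
        · rw [mem_arcs]
          refine ⟨p0 v hv, p1 v hv, Or.inl ⟨?_, rfl⟩⟩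
          rw [fwd_iff]
          refine Or.inl ⟨by dsimp only; omega, rfl, ?_⟩
          dsimp only
          omega
    · exact path_mem t v h1.2 (fun x hx => h2 x (List.mem_cons_of_mem _ hx)) a ha

theorem path_length {I : List ℕ × List (ℕ × ℕ)} : ∀ (t : List ℕ) (u : ℕ),
    (path I u t).length = 2 * t.length + t.count (r I)
  | [], u => by simp [path]
  | v :: t, u => by
    rw [path, List.length_append, path_length t v, List.length_cons, List.count_cons]
    unfold seg
    simp only [beq_iff_eq]
    split_ifs with h
    · simp only [List.length_cons, List.length_nil]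
      omega
    · simp only [List.length_cons, List.length_nil]
      omega

theorem path_wt {I : List ℕ × List (ℕ × ℕ)} (hn : 0 < (V I).length) : ∀ (t : List ℕ) (u : ℕ),
    wt (path I u t) = - (2 * t.length) + (2 * (V I).length - 1) * t.count (r I)
  | [], u => by simp [path, wt]
  | v :: t, u => by
    have h0 : wt (path I u (v :: t)) = wt (seg I u v) + wt (path I v t) := by
      rw [path]
      simp [wt]
    have h1 : wt (seg I u v) = -2 + (2 * (V I).length - 1) * (if v = r I then 1 else 0) := by
      unfold seg wt
      split_ifs with h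
      · rw [Nat.cast_sub (by omega)]
        simp only [List.map_cons, List.map_nil, List.sum_cons, List.sum_nil]
        push_cast
        ring
      · simp only [List.map_cons, List.map_nil, List.sum_cons, List.sum_nil]
        ring
    rw [h0, path_wt hn t v, h1, List.length_cons, List.count_cons]
    simp only [beq_iff_eq]
    push_cast
    split_ifs <;> ring

theorem fwd' {I : List ℕ × List (ℕ × ℕ)} (hn : 3 ≤ (V I).length) (h : HasHamCycle I) :
    ∃ C, IsCyc (arcs I) C ∧ Odd C.length ∧ wt C < 0 := by
  obtain ⟨w, hw⟩ := exists_list h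
  obtain ⟨h1, h2, h3, h4, h5, h6⟩ := hw
  cases w with
  | nil => simp at h2
  | cons a t =>
    rw [List.tail_cons] at h4
    have htne : t ≠ [] := by
      rintro rfl
      simp at h2
    rw [List.head?_reverse, List.getLast?_cons, List.head?_cons] at h3
    have hlast0 : t.getLast?.getD a = a := (Option.some.inj h3).symm
    have hlast : t.getLastD a = a := by
      rw [List.getLastD_eq_getLast?, hlast0]
    have hlast' : t.getLast htne = a := by
      rw [List.getLast?_eq_some_getLast htne] at hlast0
      exact hlast0
    have hat : a ∈ t := by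
      rw [← hlast']
      exact List.getLast_mem htne
    have hall : ∀ v ∈ V I, v ∈ t := by
      intro v hv
      rcases List.mem_cons.1 (h5 v (List.mem_dedup.1 hv)) with rfl | h
      · exact hat
      · exact h
    have hperm : t.Perm (V I) := by
      rw [List.perm_ext_iff_of_nodup h4 (V_nodup I)]
      exact fun v => ⟨fun hv => List.mem_dedup.2 (h6 v (List.mem_cons_of_mem _ hv)), hall v⟩
    have htl : t.length = (V I).length := hperm.length_eq
    have hcnt : t.count (r I) = 1 :=
      List.count_eq_one_of_mem h4 (hall _ (r_mem (by omega)))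
    have hdl : (a :: t).dropLast.Nodup := by
      have e : (a :: t).dropLast = a :: t.dropLast := by
        cases t with
        | nil => exact absurd rfl htne
        | cons b t => rfl
      have e2 : t.dropLast ++ [a] = t := by
        rw [← hlast']
        exact List.dropLast_append_getLast htne
      rw [e, List.nodup_cons]
      rw [← e2, List.nodup_append] at h4
      exact ⟨fun h => h4.2.2 a h a (by simp) rfl, h4.1⟩
    refine ⟨path I a t, ⟨?_, ?_, ?_, ?_⟩, ?_, ?_⟩
    · rw [path_length]
      omega
    · exact path_mem t a h1 fun x hx => List.mem_dedup.2 (h6 x hx)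
    · exact path_nodup I t a hdl h4
    · have h7 := path_chain I t a
      rw [hlast] at h7
      have hne : (path I a t).map (fun a => a.1) ≠ [] := by
        intro h
        have := congrArg List.length h
        rw [List.length_map, path_length] at this
        simp at this
        omega
      obtain ⟨x, l, hxl⟩ := List.exists_cons_of_ne_nil hne
      rw [hxl] at h7 ⊢
      rw [List.cons_append, List.cons.injEq] at h7
      rw [List.rotate_cons_succ, List.rotate_zero, ← h7.2, h7.1]
    · rw [path_length, hcnt]
      exact ⟨t.length, rfl⟩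
    · rw [path_wt (by omega), hcnt, htl]
      push_cast
      linarith

end Pool.Agent.Q325.ENC
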