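import Pool.Agent.Q325.EncDefs
import Pool.Agent.H679R2.Oct.Mem

/-!
# Hamiltonian cycles as lists of vertices
-/

set_option autoImplicit false

namespace Pool.Agent.Q325.ENC

open Pool.Agent.H679R2 Pool.Agent.NPC.H679

/-- `w` is the list of the vertices of a closed walk through all vertices. -/
structure HL (I : List ℕ × List (ℕ × ℕ)) (w : List ℕ) : Prop where
  ch : w.IsChain (fun u v => adjb I u v = true)
  len : 4 ≤ w.length
  hd : w.head? = w.reverse.head?
  nd : w.tail.Nodup
  all : ∀ v ∈ I.1, v ∈ w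
  sub : ∀ v ∈ w, v ∈ I.1

theorem cyb_iff (I : List ℕ × List (ℕ × ℕ)) (w : List ℕ) : cyb I w = true ↔ HL I w := by
  simp only [cyb, Bool.and_eq_true, decide_eq_true_eq, List.all_eq_true, chb_iff, ndb_iff]
  constructor
  · rintro ⟨h1, h2, h3, h4, h5, h6⟩
    exact ⟨h1, h2, h3, h4, h5, h6⟩
  · rintro ⟨h1, h2, h3, h4, h5, h6⟩
    exact ⟨h1, h2, h3, h4, h5, h6⟩

theorem exists_list {I : List ℕ × List (ℕ × ℕ)} (h : HasHamCycle I) : ∃ w, HL I w := by
  obtain ⟨w, -, hw⟩ := (ham_iff I).1 h
  exact ⟨w, (cyb_iff I w).1 hw⟩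

theorem ham_of_list {I : List ℕ × List (ℕ × ℕ)} {w : List ℕ} (hw : HL I w) : HasHamCycle I := by
  obtain ⟨h1, h2, h3, h4, h5, h6⟩ := hw
  set l : List {v : ℕ // v ∈ I.1} := w.attach.map (fun v => ⟨v.1, h6 v.1 v.2⟩) with hl
  have hlw : l.map Subtype.val = w := by
    rw [hl, List.map_map]
    exact List.attach_map_subtype_val w
  have hne : l ≠ [] := by
    intro h
    rw [h] at hlw
    simp at hlw
    rw [hlw] at h2
    simp at h2
  have hch : l.IsChain (toGraph I).Adj := by
    rw [← hlw, List.isChain_map] at h1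
    exact h1.imp fun u v huv => (adjb_iff I u v).1 huv
  have hhead : l.head hne = l.getLast hne := by
    have e1 : l.head? = l.reverse.head? := by
      apply Option.map_injective (f := Subtype.val) Subtype.val_injective
      rw [← List.head?_map, ← List.head?_map, List.map_reverse, hlw]
      exact h3
    rw [List.head?_reverse, List.head?_eq_some_head hne, List.getLast?_eq_some_getLast hne] at e1
    exact Option.some.inj e1
  set q := SimpleGraph.Walk.ofSupport l hne hch with hq
  refine ⟨l.head hne, q.copy rfl hhead.symm, ?_⟩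
  rw [hamCycle_iff_aux]
  have hsup : (q.copy rfl hhead.symm).support = l := by
    rw [SimpleGraph.Walk.support_copy, hq, SimpleGraph.Walk.support_ofSupport]
  rw [hsup]
  refine ⟨?_, ?_, ?_⟩
  · rw [← hlw, ← List.map_tail] at h4
    exact List.Nodup.of_map _ h4
  · have := SimpleGraph.Walk.length_support (q.copy rfl hhead.symm)
    rw [hsup] at this
    have h7 : l.length = w.length := by rw [hl, List.length_map, List.length_attach]
    omega
  · rintro ⟨v, hv⟩
    have h7 := h5 v hv
    rw [← hlw, List.mem_map] at h7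
    obtain ⟨x, hx, hxv⟩ := h7
    have : x = ⟨v, hv⟩ := Subtype.ext hxv
    rw [← this]
    exact hx

end Pool.Agent.Q325.ENC
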