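import Pool.Agent.Q325.EncPoly

/-!
# Membership in coNP
-/

set_option autoImplicit false

namespace Pool.Agent.NPC.Q325ENC

open Pool.Agent.Q325.ENC Pool.Agent.NPC.H532 Pool.Agent.NPC.H532.RP

variable {α β : Type} [TEnc α] [TEnc β]

/-- test of absence of repetitions -/
def ndg [DecidableEq β] (l : List β) : Bool :=
  l.zipIdx.all (fun p => l.zipIdx.all (fun q => decide (p.2 = q.2 ∨ ¬ p.1 = q.1)))

theorem ndg_poly [DecidableEq β] {l : α → List β} (hl : Poly l) :
    Poly (fun a => ndg (l a)) := by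
  refine Poly.all (p := fun a (p : β × ℕ) =>
    (l a).zipIdx.all (fun q => decide (p.2 = q.2 ∨ ¬ p.1 = q.1))) (Poly.zipIdx hl) ?_
  refine Poly.all (p := fun (x : α × (β × ℕ)) (q : β × ℕ) =>
    decide (x.2.2 = q.2 ∨ ¬ x.2.1 = q.1)) (Poly.zipIdx (hl.comp (Poly.fst Poly.id))) ?_
  exact Poly.decide_or (Poly.decide_eq (Poly.snd (Poly.snd (Poly.fst Poly.id)))
      (Poly.snd (Poly.snd Poly.id)))
    (Poly.decide_not (Poly.decide_eq (Poly.fst (Poly.snd (Poly.fst Poly.id)))
      (Poly.fst (Poly.snd Poly.id))))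

theorem ndg_iff {β : Type} [DecidableEq β] (l : List β) : ndg l = true ↔ l.Nodup := by
  simp only [ndg, List.all_eq_true, decide_eq_true_eq, Prod.forall,
    List.mem_zipIdx_iff_getElem?]
  rw [List.nodup_iff_getElem?_ne_getElem?]
  constructor
  · intro h i j hij hj he
    have h1 : l[j]? = some l[j] := List.getElem?_eq_getElem hj
    rcases h l[j] i (by rw [he, h1]) l[j] j h1 with h2 | h2
    · omega
    · exact h2 rfl
  · intro h a i hi b j hj
    by_cases hij : i = j
    · exact Or.inl hij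
    · refine Or.inr ?_
      rintro rfl
      rcases lt_or_gt_of_ne hij with h1 | h1
      · exact h i j h1 (List.getElem?_eq_some_iff.1 hj).1 (by rw [hi, hj])
      · exact h j i h1 (List.getElem?_eq_some_iff.1 hi).1 (by rw [hi, hj])

/-- test of `IsWD` -/
def wdB (D : List Arc) : Bool :=
  D.all (fun a => !decide (a.1 = a.2.1)) && ndg (D.map (fun a => (a.1, a.2.1)))

theorem wdB_iff (D : List Arc) : wdB D = true ↔ IsWD D := by
  unfold wdB IsWD
  rw [Bool.and_eq_true, ndg_iff, List.all_eq_true]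
  simp

theorem poly_wdB {D : α → List Arc} (hD : Poly D) : Poly (fun a => wdB (D a)) := by
  unfold wdB
  refine Poly.and (Poly.all (p := fun _ (a : Arc) => !decide (a.1 = a.2.1)) hD
    (Poly.not (Poly.decide_eq (Poly.fst (Poly.snd Poly.id))
      (Poly.fst (Poly.snd (Poly.snd Poly.id)))))) (ndg_poly ?_)
  exact Poly.map (F := fun _ (a : Arc) => (a.1, a.2.1)) hD
    (Poly.pair (Poly.fst (Poly.snd Poly.id)) (Poly.fst (Poly.snd (Poly.snd Poly.id))))

/-- test of `IsSym` -/
def symB (D : List Arc) : Bool :=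
  D.all (fun a => D.any (fun b => decide (b.1 = a.2.1) && decide (b.2.1 = a.1)))

theorem symB_iff (D : List Arc) : symB D = true ↔ IsSym D := by
  unfold symB IsSym
  simp

theorem poly_symB {D : α → List Arc} (hD : Poly D) : Poly (fun a => symB (D a)) := by
  unfold symB
  refine Poly.all (p := fun c (a : Arc) =>
    (D c).any (fun b => decide (b.1 = a.2.1) && decide (b.2.1 = a.1))) hD ?_
  refine Poly.any (p := fun (x : α × Arc) (b : Arc) =>
    decide (b.1 = x.2.2.1) && decide (b.2.1 = x.2.1)) (hD.comp (Poly.fst Poly.id)) ?_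
  exact Poly.and (Poly.decide_eq (Poly.fst (Poly.snd Poly.id))
    (Poly.fst (Poly.snd (Poly.snd (Poly.fst Poly.id)))))
    (Poly.decide_eq (Poly.fst (Poly.snd (Poly.snd Poly.id)))
    (Poly.fst (Poly.snd (Poly.fst Poly.id))))

/-- test of `IsSmall` -/
def smallB (D : List Arc) : Bool :=
  D.all (fun a => decide (a.2.2.den = 1) && decide (a.2.2.num.natAbs ≤ D.length))

theorem smallB_iff (D : List Arc) : smallB D = true ↔ IsSmall D := by
  unfold smallB IsSmall
  simp only [List.all_eq_true, Bool.and_eq_true, decide_eq_true_eq]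
  refine forall₂_congr fun a _ => ?_
  constructor
  · rintro ⟨h1, h2⟩
    refine ⟨a.2.2.num, ?_, ?_⟩
    · exact (Rat.coe_int_num_of_den_eq_one h1).symm
    · rw [← Int.natCast_natAbs]
      exact_mod_cast h2
  · rintro ⟨z, h1, h2⟩
    rw [h1]
    refine ⟨Rat.den_intCast z, ?_⟩
    rw [Rat.num_intCast]
    rw [← Int.natCast_natAbs] at h2
    exact_mod_cast h2

theorem poly_smallB {D : α → List Arc} (hD : Poly D) : Poly (fun a => smallB (D a)) := by
  unfold smallB
  refine Poly.all (p := fun c (a : Arc) =>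
    decide (a.2.2.den = 1) && decide (a.2.2.num.natAbs ≤ (D c).length)) hD ?_
  exact Poly.and (Poly.decide_eq (Poly_den (Poly.snd (Poly.snd (Poly.snd Poly.id))))
    (Poly.const 1)) (Poly.decide_le (Poly_natAbs (Poly_num (Poly.snd (Poly.snd (Poly.snd
      Poly.id))))) (Poly.length (hD.comp (Poly.fst Poly.id))))

/-- test of a negative odd cycle -/
def cycB (D C : List Arc) : Bool :=
  (decide (2 ≤ C.length) && (C.all (fun a => decide (a ∈ D)) &&
    (ndg (C.map (fun a => a.1)) &&
      decide (C.map (fun a => a.2.1) = (C.map (fun a => a.1)).tail ++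
        [(C.map (fun a => a.1)).getD 0 0])))) &&
  (decide (C.length % 2 = 1) &&
    decide ((C.map (fun a => zq ((C.map (fun a => a.2.2.den)).prod) a.2.2)).sum < 0))

theorem neg_iff (C : List Arc) :
    (C.map (fun a => zq ((C.map (fun a => a.2.2.den)).prod) a.2.2)).sum < 0 ↔ wt C < 0 := by
  set Q := (C.map (fun a => a.2.2.den)).prod with hQ
  have hpos : (0 : ℚ) < Q := by
    have : 0 < Q := by
      rw [hQ]
      refine List.prod_pos fun x hx => ?_
      obtain ⟨a, -, rfl⟩ := List.mem_map.1 hx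
      exact a.2.2.den_pos
    exact_mod_cast this
  have h1 : (((C.map (fun a => zq Q a.2.2)).sum : ℤ) : ℚ) = Q * wt C := by
    unfold wt
    rw [← List.sum_map_mul_left, Int.cast_list_sum, List.map_map]
    congr 1
    refine List.map_congr_left fun a ha => ?_
    have h2 : a.2.2.den ∣ Q := by
      rw [hQ]
      exact List.dvd_prod (List.mem_map.2 ⟨a, ha, rfl⟩)
    exact zq_cast h2
  rw [← Int.cast_lt (R := ℚ), h1, Int.cast_zero]
  constructor
  · intro h
    by_contra h2
    exact absurd h (not_lt.2 (mul_nonneg hpos.le (not_lt.1 h2)))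
  · intro h
    exact mul_neg_of_pos_of_neg hpos h

theorem cycB_iff (D C : List Arc) :
    cycB D C = true ↔ (IsCyc D C ∧ Odd C.length ∧ wt C < 0) := by
  unfold cycB IsCyc
  simp only [Bool.and_eq_true, decide_eq_true_eq, List.all_eq_true, ndg_iff, neg_iff,
    Nat.odd_iff]
  have h : ∀ l : List ℕ, 2 ≤ l.length → l.rotate 1 = l.tail ++ [l.getD 0 0] := by
    intro l hl
    cases l with
    | nil => simp at hl
    | cons x l => simp
  constructor
  · rintro ⟨⟨h1, h2, h3, h4⟩, h5, h6⟩
    refine ⟨⟨h1, h2, h3, ?_⟩, h5, h6⟩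
    rw [h4, h _ (by rw [List.length_map]; exact h1)]
  · rintro ⟨⟨h1, h2, h3, h4⟩, h5, h6⟩
    refine ⟨⟨h1, h2, h3, ?_⟩, h5, h6⟩
    rw [h4, h _ (by rw [List.length_map]; exact h1)]

theorem poly_cycB {D C : α → List Arc} (hD : Poly D) (hC : Poly C) :
    Poly (fun a => cycB (D a) (C a)) := by
  have h1 : Poly (fun a => (C a).map (fun a : Arc => a.1)) :=
    Poly.map (F := fun _ (a : Arc) => a.1) hC (Poly.fst (Poly.snd Poly.id))
  have h2 : Poly (fun a => (C a).map (fun a : Arc => a.2.1)) :=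
    Poly.map (F := fun _ (a : Arc) => a.2.1) hC (Poly.fst (Poly.snd (Poly.snd Poly.id)))
  have h3 : Poly (fun a => ((C a).map (fun a : Arc => a.2.2.den)).prod) :=
    Poly_prodN (Poly.map (F := fun _ (a : Arc) => a.2.2.den) hC
      (Poly_den (Poly.snd (Poly.snd (Poly.snd Poly.id)))))
  unfold cycB
  refine Poly.and (Poly.and (Poly.decide_le (Poly.const 2) (Poly.length hC)) (Poly.and ?_
    (Poly.and (ndg_poly h1) (Poly.decide_eq h2 (Poly.append (Poly.tail h1) (Poly.cons
      (Poly.getD (d := fun _ => 0) h1 (Poly.const 0) (Poly.const 0)) (Poly.const []))))))) ?_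
  · exact Poly.all (p := fun c (a : Arc) => decide (a ∈ D c)) hC
      ((Poly.decide_mem (Poly.snd Poly.id) (hD.comp (Poly.fst Poly.id))).congr fun a => by
        simp only [decide_eq_decide])
  · refine Poly.and (Poly.decide_eq (Poly.mod (Poly.length hC) (Poly.const 2)) (Poly.const 1))
      (Poly_isNeg (Poly_sumZ ?_))
    exact Poly.map (F := fun c (a : Arc) => zq (((C c).map (fun a : Arc => a.2.2.den)).prod)
      a.2.2) hC (Poly_zq (h3.comp (Poly.fst Poly.id)) (Poly.snd (Poly.snd (Poly.snd Poly.id))))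

theorem cyc_sz {D C : List Arc} (h : IsCyc D C) : sz C ≤ sz D * (sz D + 1) + 1 := by
  obtain ⟨-, h2, h3, -⟩ := h
  have h4 := sz_le_length_mul C (sz D) (fun v hv => (sz_le_of_mem (h2 v hv)).le)
  have h5 : C.length ≤ D.length :=
    ((List.Nodup.of_map _ h3).subperm fun x hx => h2 x hx).length_le
  have h6 := length_lt_sz D
  exact h4.trans (Nat.add_le_add_right (Nat.mul_le_mul_right _ (h5.trans h6.le)) 1)

theorem not_even_iff (D : List Arc) : ¬ EvenNC D ↔ ∃ C : List Arc,
    sz C ≤ (Polynomial.X * (Polynomial.X + 1) + 1 : Polynomial ℕ).eval (sz D) ∧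
      cycB D C = true := by
  have e : (Polynomial.X * (Polynomial.X + 1) + 1 : Polynomial ℕ).eval (sz D) =
      sz D * (sz D + 1) + 1 := by simp
  rw [e]
  unfold EvenNC
  push Not
  constructor
  · rintro ⟨C, h1, h2, h3⟩
    exact ⟨C, cyc_sz h1, (cycB_iff D C).2 ⟨h1, h2, h3⟩⟩
  · rintro ⟨C, -, h⟩
    obtain ⟨h1, h2, h3⟩ := (cycB_iff D C).1 h
    exact ⟨C, h1, h2, h3⟩

/-- A polynomial-time decidable restriction of the problem is in coNP. -/
theorem mem_of {Q : List Arc → Prop} {q : List Arc → Bool} (hq : Poly q)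
    (h : ∀ D, Q D ↔ q D = true) : InCoNPP (fun D => Q D ∧ EvenNC D) := by
  refine inCoNPP_of (R := fun p : List Arc × List Arc => !(q p.1) || cycB p.1 p.2)
    (Poly.or (Poly.not (hq.comp (Poly.fst Poly.id))) (poly_cycB (Poly.fst Poly.id)
      (Poly.snd Poly.id))) (Polynomial.X * (Polynomial.X + 1) + 1) fun D => ?_
  have e : (Polynomial.X * (Polynomial.X + 1) + 1 : Polynomial ℕ).eval (sz D) =
      sz D * (sz D + 1) + 1 := by simp
  constructor
  · intro hD
    by_cases h1 : Q D
    · have h2 : ¬ EvenNC D := fun h2 => hD ⟨h1, h2⟩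
      obtain ⟨C, h3, h4⟩ := (not_even_iff D).1 h2
      exact ⟨C, h3, by simp [h4]⟩
    · refine ⟨[], ?_, ?_⟩
      · rw [e, sz_list_nil]
        omega
      · have h2 : q D = false := by
          rw [Bool.eq_false_iff]
          exact fun h3 => h1 ((h D).2 h3)
        simp [h2]
  · rintro ⟨C, h3, h4⟩ ⟨h1, h2⟩
    have h5 := (h D).1 h1
    simp only [h5, Bool.not_true, Bool.false_or] at h4
    exact (not_even_iff D).2 ⟨C, h3, h4⟩ h2

theorem mem_ENC : InCoNPP ENC :=
  mem_of (Q := IsWD) (poly_wdB Poly.id) fun D => (wdB_iff D).symm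

theorem mem_SENC : InCoNPP SENC := by
  have h := mem_of (Q := fun D => IsWD D ∧ IsSym D ∧ IsSmall D)
    (Poly.and (poly_wdB Poly.id) (Poly.and (poly_symB Poly.id) (poly_smallB Poly.id))) fun D => by
      rw [Bool.and_eq_true, Bool.and_eq_true, wdB_iff, symB_iff, smallB_iff]
  have e : (fun D => (IsWD D ∧ IsSym D ∧ IsSmall D) ∧ EvenNC D) = SENC := by
    funext D
    unfold SENC
    rw [and_assoc, and_assoc]
  rwa [e] at h

end Pool.Agent.NPC.Q325ENC
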