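import Pool.Agent.Q325.EncBwd
import Pool.Agent.Q325.EncFwd
import Pool.Agent.H679R2.Oct.Pol
import Pool.Agent.H532R2.RatPoly
import Pool.Agent.ER.Rat
import Pool.Agent.H612.CollectPoly

/-!
# Complexity of the recognition of even-nearly conservative weights
-/

set_option autoImplicit false

namespace Pool.Agent.NPC.Q325ENC

open Pool.Agent.H679R2 Pool.Agent.NPC.H679 Pool.Agent.Q325.ENC Pool.Agent.NPC.H532
  Pool.Agent.NPC.H532.RP

variable {α β : Type} [TEnc α] [TEnc β]

/-! ### The reduction -/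

theorem poly_natCast {n : α → ℕ} (hn : Poly n) : Poly (fun a => ((n a : ℕ) : ℚ)) := by
  refine Poly.of_toT ((Poly.pair (Poly.pair (Poly.const false) hn)
    (Poly.const (1 : ℕ))).toT'.congr fun a => ?_)
  change _ = toT (((n a : ℕ) : ℚ).num, ((n a : ℕ) : ℚ).den)
  have h1 : ((n a : ℕ) : ℚ).num = (n a : ℤ) := by simp
  have h2 : ((n a : ℕ) : ℚ).den = 1 := by simp
  rw [h1, h2]
  change _ = T.node (toT (decide ((n a : ℤ) < 0), ((n a : ℤ)).natAbs)) (toT 1)
  have h3 : decide ((n a : ℤ) < 0) = false := by simp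
  rw [h3, Int.natAbs_natCast]
  rfl

theorem poly_V : Poly V := Pool.Agent.NPC.H612.poly_dedup (Poly.fst Poly.id)

theorem poly_r : Poly r :=
  (Poly.getD (d := fun _ => 0) poly_V (Poly.const 0) (Poly.const 0)).congr fun I => by
    unfold r
    cases V I <;> rfl

theorem poly_P : Poly P := by
  unfold P
  refine Poly.append (Poly.map (F := fun _ (v : ℕ) => 3 * v) poly_V
    (Poly.mul (Poly.const 3) (Poly.snd Poly.id))) (Poly.append
    (Poly.map (F := fun _ (v : ℕ) => 3 * v + 1) poly_V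
      (Poly.succ (Poly.mul (Poly.const 3) (Poly.snd Poly.id)))) (Poly.const [2]))

theorem poly_fwd {I : α → List ℕ × List (ℕ × ℕ)} {x y : α → ℕ} (hI : Poly I) (hx : Poly x)
    (hy : Poly y) : Poly (fun a => fwd (I a) (x a) (y a)) := by
  have hr : Poly (fun a => 3 * r (I a)) := Poly.mul (Poly.const 3) (poly_r.comp hI)
  have hm := fun (z : α → ℕ) (hz : Poly z) (k : ℕ) =>
    Poly.decide_eq (Poly.mod hz (Poly.const 3)) (Poly.const k)
  unfold fwd
  exact Poly.or (Poly.and (hm _ hx 0) (Poly.and (Poly.decide_eq hy (Poly.succ hx))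
    (Poly.not (Poly.decide_eq hx hr)))) (Poly.or (Poly.and (hm _ hx 1) (Poly.and (hm _ hy 0)
      (adjb_poly hI (Poly.div hx (Poly.const 3)) (Poly.div hy (Poly.const 3)))))
      (Poly.and (Poly.decide_eq hx (Poly.const 2)) (Poly.decide_eq hy (Poly.succ hr))))

theorem poly_spc {I : α → List ℕ × List (ℕ × ℕ)} {x y : α → ℕ} (hI : Poly I) (hx : Poly x)
    (hy : Poly y) : Poly (fun a => spc (I a) (x a) (y a)) := by
  have hr : Poly (fun a => 3 * r (I a)) := Poly.mul (Poly.const 3) (poly_r.comp hI)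
  unfold spc
  exact Poly.and (Poly.decide_eq hx hr) (Poly.decide_eq hy (Poly.const 2))

theorem poly_arcs : Poly arcs := by
  unfold arcs
  refine Poly.flatMap (F := fun I (x : ℕ) => (P I).flatMap fun y =>
    if fwd I x y then [((x, y, -1) : Arc)]
    else if spc I x y then [((x, y, ((2 * (V I).length - 1 : ℕ) : ℚ)) : Arc)]
    else if fwd I y x || spc I y x then [((x, y, ((2 * (V I).length + 1 : ℕ) : ℚ)) : Arc)]
    else []) poly_P ?_
  refine Poly.flatMap (F := fun (q : (List ℕ × List (ℕ × ℕ)) × ℕ) (y : ℕ) =>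
    if fwd q.1 q.2 y then [((q.2, y, -1) : Arc)]
    else if spc q.1 q.2 y then [((q.2, y, ((2 * (V q.1).length - 1 : ℕ) : ℚ)) : Arc)]
    else if fwd q.1 y q.2 || spc q.1 y q.2 then
      [((q.2, y, ((2 * (V q.1).length + 1 : ℕ) : ℚ)) : Arc)]
    else []) (poly_P.comp (Poly.fst Poly.id)) ?_
  have hI : Poly (fun p : ((List ℕ × List (ℕ × ℕ)) × ℕ) × ℕ => p.1.1) :=
    Poly.fst (Poly.fst Poly.id)
  have hx : Poly (fun p : ((List ℕ × List (ℕ × ℕ)) × ℕ) × ℕ => p.1.2) :=
    Poly.snd (Poly.fst Poly.id)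
  have hy : Poly (fun p : ((List ℕ × List (ℕ × ℕ)) × ℕ) × ℕ => p.2) := Poly.snd Poly.id
  have hV : Poly (fun p : ((List ℕ × List (ℕ × ℕ)) × ℕ) × ℕ => 2 * (V p.1.1).length) :=
    Poly.mul (Poly.const 2) (Poly.length (poly_V.comp hI))
  have hc : ∀ c : ((List ℕ × List (ℕ × ℕ)) × ℕ) × ℕ → ℚ, Poly c →
      Poly (fun p => [((p.1.2, p.2, c p) : Arc)]) := fun c hc =>
    Poly.cons (Poly.pair hx (Poly.pair hy hc)) (Poly.const [])
  refine (Poly.cond (poly_fwd hI hx hy) (hc _ (Poly.const (-1))) (Poly.cond (poly_spc hI hx hy)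
    (hc _ (poly_natCast (Poly.sub hV (Poly.const 1)))) (Poly.cond (Poly.or (poly_fwd hI hy hx)
      (poly_spc hI hy hx)) (hc _ (poly_natCast (Poly.succ hV))) (Poly.const [])))).congr
        fun p => ?_
  cases fwd p.1.1 p.1.2 p.2 <;> cases spc p.1.1 p.1.2 p.2 <;> cases fwd p.1.1 p.2 p.1.2 <;>
    cases spc p.1.1 p.2 p.1.2 <;> rfl

/-- The reduction. -/
def red (I : List ℕ × List (ℕ × ℕ)) : List Arc :=
  bif decide (3 ≤ (V I).length) then arcs I else []

theorem poly_red : Poly red :=
  Poly.cond (Poly.decide_le (Poly.const 3) (Poly.length poly_V)) poly_arcs (Poly.const [])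

theorem three_le {I : List ℕ × List (ℕ × ℕ)} (h : HasHamCycle I) : 3 ≤ (V I).length := by
  obtain ⟨w, hw⟩ := exists_list h
  have h1 : w.tail.length ≤ (V I).length :=
    (hw.nd.subperm fun x hx => List.mem_dedup.2 (hw.sub x (List.mem_of_mem_tail hx))).length_le
  have h2 := hw.len
  rw [List.length_tail] at h1
  omega

theorem red_WD (I : List ℕ × List (ℕ × ℕ)) : IsWD (red I) := by
  unfold red
  cases h : decide (3 ≤ (V I).length)
  · exact ⟨by simp, by simp⟩
  · exact arcs_WD I

theorem red_sym (I : List ℕ × List (ℕ × ℕ)) : IsSym (red I) := by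
  unfold red
  cases h : decide (3 ≤ (V I).length)
  · intro a ha
    simp at ha
  · exact arcs_sym I

theorem red_small (I : List ℕ × List (ℕ × ℕ)) : IsSmall (red I) := by
  unfold red
  cases h : decide (3 ≤ (V I).length)
  · intro a ha
    simp at ha
  · exact arcs_small (by have := of_decide_eq_true h; omega)

theorem red_iff (I : List ℕ × List (ℕ × ℕ)) : HasHamCycle I ↔ ¬ EvenNC (red I) := by
  constructor
  · intro h hE
    have h3 := three_le h
    obtain ⟨C, h4, h5, h6⟩ := fwd' h3 h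
    unfold red at hE
    rw [decide_eq_true h3] at hE
    have := hE C h4 h5
    linarith
  · intro h
    unfold EvenNC at h
    push Not at h
    obtain ⟨C, h4, h5, h6⟩ := h
    unfold red at h4
    cases h3 : decide (3 ≤ (V I).length)
    · rw [h3] at h4
      obtain ⟨h7, h8, -⟩ := h4
      cases C with
      | nil => simp at h7
      | cons a C =>
        have := h8 a (by simp)
        simp at this
    · rw [h3] at h4
      exact bwd (of_decide_eq_true h3) h4 h5 h6

theorem hardI_HC : HardI HasHamCycle := (hardPr_ham 6 le_rfl).toHardI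

theorem hard_SENC : CoNPHardP SENC := by
  refine HardI.toCoNPHardP (hardI_HC.trans poly_red fun I => ?_)
  rw [red_iff]
  unfold SENC
  have := red_WD I
  have := red_sym I
  have := red_small I
  tauto

theorem hard_ENC : CoNPHardP ENC := by
  refine HardI.toCoNPHardP (hardI_HC.trans poly_red fun I => ?_)
  rw [red_iff]
  unfold ENC
  have := red_WD I
  tauto

end Pool.Agent.NPC.Q325ENC
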