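import Pool.Agent.Q325.EncHam

/-!
# The digraph of a graph
-/

set_option autoImplicit false

namespace Pool.Agent.Q325.ENC

open Pool.Agent.H679R2 Pool.Agent.NPC.H679

/-- The vertices of the graph, without repetitions. -/
def V (I : List ℕ × List (ℕ × ℕ)) : List ℕ := I.1.dedup

/-- The root. -/
def r (I : List ℕ × List (ℕ × ℕ)) : ℕ := (V I).headD 0

/-- The vertices of the digraph. -/
def P (I : List ℕ × List (ℕ × ℕ)) : List ℕ :=
  (V I).map (fun v => 3 * v) ++ ((V I).map (fun v => 3 * v + 1) ++ [2])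

/-- arcs of weight `-1` -/
def fwd (I : List ℕ × List (ℕ × ℕ)) (x y : ℕ) : Bool :=
  (decide (x % 3 = 0) && (decide (y = x + 1) && !decide (x = 3 * r I))) ||
    ((decide (x % 3 = 1) && (decide (y % 3 = 0) && adjb I (x / 3) (y / 3))) ||
      (decide (x = 2) && decide (y = 3 * r I + 1)))

/-- the special arc -/
def spc (I : List ℕ × List (ℕ × ℕ)) (x y : ℕ) : Bool := decide (x = 3 * r I) && decide (y = 2)

/-- The arcs of the digraph. -/
def arcs (I : List ℕ × List (ℕ × ℕ)) : List Arc :=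
  (P I).flatMap fun x => (P I).flatMap fun y =>
    if fwd I x y then [(x, y, -1)]
    else if spc I x y then [(x, y, ((2 * (V I).length - 1 : ℕ) : ℚ))]
    else if fwd I y x || spc I y x then [(x, y, ((2 * (V I).length + 1 : ℕ) : ℚ))]
    else []

theorem mem_arcs (I : List ℕ × List (ℕ × ℕ)) (a : Arc) : a ∈ arcs I ↔ a.1 ∈ P I ∧ a.2.1 ∈ P I ∧
    ((fwd I a.1 a.2.1 = true ∧ a.2.2 = -1) ∨
      (fwd I a.1 a.2.1 = false ∧ spc I a.1 a.2.1 = true ∧
        a.2.2 = ((2 * (V I).length - 1 : ℕ) : ℚ)) ∨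
      (fwd I a.1 a.2.1 = false ∧ spc I a.1 a.2.1 = false ∧
        (fwd I a.2.1 a.1 = true ∨ spc I a.2.1 a.1 = true) ∧
        a.2.2 = ((2 * (V I).length + 1 : ℕ) : ℚ))) := by
  unfold arcs
  simp only [List.mem_flatMap]
  constructor
  · rintro ⟨x, hx, y, hy, h⟩
    split_ifs at h with h1 h2 h3
    · rw [List.mem_singleton] at h
      subst h
      exact ⟨hx, hy, Or.inl ⟨h1, rfl⟩⟩
    · rw [List.mem_singleton] at h
      subst h
      exact ⟨hx, hy, Or.inr (Or.inl ⟨by simpa using h1, h2, rfl⟩)⟩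
    · rw [List.mem_singleton] at h
      subst h
      exact ⟨hx, hy, Or.inr (Or.inr ⟨by simpa using h1, by simpa using h2, by simpa using h3,
        rfl⟩)⟩
    · simp at h
  · obtain ⟨x, y, c⟩ := a
    rintro ⟨hx, hy, h⟩
    refine ⟨x, hx, y, hy, ?_⟩
    dsimp only at h
    rcases h with ⟨h1, h2⟩ | ⟨h1, h2, h3⟩ | ⟨h1, h2, h3, h4⟩
    · rw [if_pos h1, h2]
      simp
    · rw [if_neg (by simp [h1]), if_pos h2, h3]
      simp
    · rw [if_neg (by simp [h1]), if_neg (by simp [h2]), if_pos (by simpa using h3), h4]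
      simp

theorem P_length (I : List ℕ × List (ℕ × ℕ)) : (P I).length = 2 * (V I).length + 1 := by
  simp only [P, List.length_append, List.length_map, List.length_singleton]
  omega

theorem V_nodup (I : List ℕ × List (ℕ × ℕ)) : (V I).Nodup := List.nodup_dedup _

theorem P_nodup (I : List ℕ × List (ℕ × ℕ)) : (P I).Nodup := by
  unfold P
  rw [List.nodup_append, List.nodup_append]
  refine ⟨(V_nodup I).map fun a b h => by omega,
    ⟨(V_nodup I).map fun a b h => by omega, by simp, ?_⟩, ?_⟩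
  · intro a ha b hb
    rw [List.mem_map] at ha
    obtain ⟨v, -, rfl⟩ := ha
    rw [List.mem_singleton] at hb
    omega
  · intro a ha b hb
    rw [List.mem_map] at ha
    obtain ⟨v, -, rfl⟩ := ha
    rw [List.mem_append, List.mem_map, List.mem_singleton] at hb
    rcases hb with ⟨u, -, rfl⟩ | rfl <;> omega

theorem mem_P_iff (I : List ℕ × List (ℕ × ℕ)) (x : ℕ) : x ∈ P I ↔
    (x % 3 = 0 ∧ x / 3 ∈ V I) ∨ (x % 3 = 1 ∧ x / 3 ∈ V I) ∨ x = 2 := by
  unfold P
  rw [List.mem_append, List.mem_append, List.mem_map, List.mem_map, List.mem_singleton]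
  constructor
  · rintro (⟨v, hv, rfl⟩ | ⟨v, hv, rfl⟩ | rfl)
    · refine Or.inl ⟨by omega, ?_⟩
      rwa [show 3 * v / 3 = v by omega]
    · refine Or.inr (Or.inl ⟨by omega, ?_⟩)
      rwa [show (3 * v + 1) / 3 = v by omega]
    · exact Or.inr (Or.inr rfl)
  · rintro (⟨h1, h2⟩ | ⟨h1, h2⟩ | rfl)
    · exact Or.inl ⟨x / 3, h2, by omega⟩
    · exact Or.inr (Or.inl ⟨x / 3, h2, by omega⟩)
    · exact Or.inr (Or.inr rfl)

theorem fwd_iff (I : List ℕ × List (ℕ × ℕ)) (x y : ℕ) : fwd I x y = true ↔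
    (x % 3 = 0 ∧ y = x + 1 ∧ x ≠ 3 * r I) ∨
    (x % 3 = 1 ∧ y % 3 = 0 ∧ adjb I (x / 3) (y / 3) = true) ∨ (x = 2 ∧ y = 3 * r I + 1) := by
  simp [fwd]

theorem spc_iff (I : List ℕ × List (ℕ × ℕ)) (x y : ℕ) : spc I x y = true ↔
    (x = 3 * r I ∧ y = 2) := by
  simp [spc]

theorem adjb_ne {I : List ℕ × List (ℕ × ℕ)} {u v : ℕ} (h : adjb I u v = true) : u ≠ v := by
  simp only [adjb, Bool.and_eq_true, Bool.not_eq_true', decide_eq_false_iff_not] at h
  exact h.1

theorem sub_flat {α β : Type} (f g : α → List β) : ∀ (l : List α)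
    (_ : ∀ a ∈ l, (f a).Sublist (g a)), (l.flatMap f).Sublist (l.flatMap g)
  | [], _ => by simp
  | a :: l, h => by
    rw [List.flatMap_cons, List.flatMap_cons]
    exact (h a (by simp)).append (sub_flat f g l fun b hb => h b (List.mem_cons_of_mem _ hb))

theorem arcs_WD (I : List ℕ × List (ℕ × ℕ)) : IsWD (arcs I) := by
  constructor
  · intro a ha
    rw [mem_arcs] at ha
    obtain ⟨-, -, h⟩ := ha
    intro he
    rw [he] at h
    have h1 : fwd I a.2.1 a.2.1 = false := by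
      rw [Bool.eq_false_iff, Ne, fwd_iff]
      omega
    have h2 : spc I a.2.1 a.2.1 = false := by
      rw [Bool.eq_false_iff, Ne, spc_iff]
      omega
    simp [h1, h2] at h
  · have h1 : ((arcs I).map (fun a => (a.1, a.2.1))).Sublist ((P I) ×ˢ (P I)) := by
      unfold arcs
      rw [List.map_flatMap]
      have h2 : (P I) ×ˢ (P I) = (P I).flatMap (fun x => (P I).flatMap fun y => [(x, y)]) := by
        change (P I).flatMap (fun x => (P I).map (Prod.mk x)) = _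
        congr 1
        funext x
        induction (P I) with
        | nil => rfl
        | cons a l ih =>
          rw [List.map_cons, List.flatMap_cons, ih]
          rfl
      rw [h2]
      refine sub_flat _ _ _ fun x _ => ?_
      rw [List.map_flatMap]
      refine sub_flat _ _ _ fun y _ => ?_
      split_ifs <;> simp
    exact h1.nodup ((P_nodup I).product (P_nodup I))

theorem arcs_sym (I : List ℕ × List (ℕ × ℕ)) : IsSym (arcs I) := by
  intro a ha
  rw [mem_arcs] at ha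
  obtain ⟨h1, h2, h⟩ := ha
  have key : (fwd I a.2.1 a.1 = true ∨ spc I a.2.1 a.1 = true) ∨
      ((fwd I a.2.1 a.1 = false ∧ spc I a.2.1 a.1 = false) ∧
      (fwd I a.1 a.2.1 = true ∨ spc I a.1 a.2.1 = true)) := by
    rcases h with ⟨h3, _⟩ | ⟨_, h3, _⟩ | ⟨_, _, h3, _⟩
    · cases h4 : fwd I a.2.1 a.1 <;> cases h5 : spc I a.2.1 a.1 <;> simp [h3]
    · cases h4 : fwd I a.2.1 a.1 <;> cases h5 : spc I a.2.1 a.1 <;> simp [h3]
    · exact Or.inl h3
  rcases key with h3 | ⟨⟨h4, h5⟩, h6⟩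
  · cases h4 : fwd I a.2.1 a.1
    · have h5 : spc I a.2.1 a.1 = true := by
        rcases h3 with h3 | h3
        · rw [h3] at h4; exact absurd h4 (by simp)
        · exact h3
      exact ⟨(a.2.1, a.1, _), (mem_arcs I _).2 ⟨h2, h1, Or.inr (Or.inl ⟨h4, h5, rfl⟩)⟩, rfl, rfl⟩
    · exact ⟨(a.2.1, a.1, _), (mem_arcs I _).2 ⟨h2, h1, Or.inl ⟨h4, rfl⟩⟩, rfl, rfl⟩
  · exact ⟨(a.2.1, a.1, _), (mem_arcs I _).2 ⟨h2, h1, Or.inr (Or.inr ⟨h4, h5, h6, rfl⟩)⟩, rfl, rfl⟩

theorem r_mem {I : List ℕ × List (ℕ × ℕ)} (h : 0 < (V I).length) : r I ∈ V I := by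
  unfold r
  cases hV : V I with
  | nil => rw [hV] at h; simp at h
  | cons a l => simp

/-- every vertex of the digraph has an arc starting in it -/
theorem exists_arc {I : List ℕ × List (ℕ × ℕ)} (h : 0 < (V I).length) {x : ℕ} (hx : x ∈ P I) :
    ∃ a ∈ arcs I, a.1 = x := by
  have hr := r_mem h
  have key : ∀ y, y ∈ P I → (fwd I x y = true ∨ spc I x y = true ∨ fwd I y x = true ∨
      spc I y x = true) → ∃ a ∈ arcs I, a.1 = x := by
    intro y hy hc
    cases h4 : fwd I x y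
    · cases h5 : spc I x y
      · refine ⟨(x, y, _), (mem_arcs I _).2 ⟨hx, hy, Or.inr (Or.inr ⟨h4, h5, ?_, rfl⟩)⟩, rfl⟩
        simpa [h4, h5] using hc
      · exact ⟨(x, y, _), (mem_arcs I _).2 ⟨hx, hy, Or.inr (Or.inl ⟨h4, h5, rfl⟩)⟩, rfl⟩
    · exact ⟨(x, y, _), (mem_arcs I _).2 ⟨hx, hy, Or.inl ⟨h4, rfl⟩⟩, rfl⟩
  rcases (mem_P_iff I x).1 hx with ⟨h1, h2⟩ | ⟨h1, h2⟩ | h1
  · by_cases h3 : x = 3 * r I
    · refine key 2 ((mem_P_iff I 2).2 (Or.inr (Or.inr rfl))) ?_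
      rw [spc_iff]
      tauto
    · refine key (x + 1) ((mem_P_iff I _).2 (Or.inr (Or.inl ⟨by omega, ?_⟩))) ?_
      · rwa [show (x + 1) / 3 = x / 3 by omega]
      · rw [fwd_iff]
        tauto
  · by_cases h3 : x = 3 * r I + 1
    · refine key 2 ((mem_P_iff I 2).2 (Or.inr (Or.inr rfl))) ?_
      rw [fwd_iff I 2 x]
      tauto
    · refine key (x - 1) ((mem_P_iff I _).2 (Or.inl ⟨by omega, ?_⟩)) ?_
      · rwa [show (x - 1) / 3 = x / 3 by omega]
      · rw [fwd_iff I (x - 1) x]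
        refine Or.inr (Or.inr (Or.inl (Or.inl ⟨by omega, by omega, by omega⟩)))
  · refine key (3 * r I) ((mem_P_iff I _).2 (Or.inl ⟨by omega, ?_⟩)) ?_
    · rwa [show 3 * r I / 3 = r I by omega]
    · rw [spc_iff I (3 * r I) x]
      tauto

theorem arcs_small {I : List ℕ × List (ℕ × ℕ)} (h : 0 < (V I).length) : IsSmall (arcs I) := by
  have h0 : 2 * (V I).length + 1 ≤ (arcs I).length := by
    rw [← P_length, ← List.length_map (as := arcs I) (f := fun a => a.1)]
    refine ((P_nodup I).subperm fun x hx => ?_).length_le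
    obtain ⟨a, ha, hax⟩ := exists_arc h hx
    exact List.mem_map.2 ⟨a, ha, hax⟩
  intro a ha
  rw [mem_arcs] at ha
  obtain ⟨-, -, ⟨-, h1⟩ | ⟨-, -, h1⟩ | ⟨-, -, -, h1⟩⟩ := ha
  · refine ⟨-1, by rw [h1]; norm_num, ?_⟩
    rw [abs_neg, abs_one]
    omega
  · refine ⟨((2 * (V I).length - 1 : ℕ) : ℤ), by rw [h1]; norm_cast, ?_⟩
    rw [Nat.abs_cast]
    omega
  · refine ⟨((2 * (V I).length + 1 : ℕ) : ℤ), by rw [h1]; norm_cast, ?_⟩
    rw [Nat.abs_cast]
    omega

end Pool.Agent.Q325.ENC
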