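import Pool.Agent.Q325.FeasFwd

set_option autoImplicit false

open Finset

namespace Pool.Agent.Q325.Feas

section Bwd

variable (a : List ℕ) (B : ℕ) (f : ℕ → ℕ)

/-- the total size of the earlier items of the same bin -/
def pre (i : ℕ) : ℕ := ∑ k ∈ (range i).filter (fun k => f k = f i), a.getD k 0

/-- the first position of an item -/
def st (i : ℕ) : ℕ := f i * (B + 1) + 1 + pre a f i

theorem pre_add_le {i j : ℕ} (hij : i < j) (h : f i = f j) :
    pre a f i + a.getD i 0 ≤ pre a f j := by
  unfold pre
  have h1 : insert i ((range i).filter (fun k => f k = f i)) ⊆ (range j).filter (fun k => f k = f j) := by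
    intro k hk
    rw [Finset.mem_insert, Finset.mem_filter, Finset.mem_range] at hk
    rw [Finset.mem_filter, Finset.mem_range]
    rcases hk with rfl | ⟨h1, h2⟩
    · exact ⟨hij, h⟩
    · exact ⟨h1.trans hij, h2.trans h⟩
  have h2 := Finset.sum_le_sum_of_subset (f := fun k => a.getD k 0) h1
  rw [Finset.sum_insert (by simp)] at h2
  omega

variable {a B f}

theorem pre_le {b : ℕ} (hf : ∀ i < a.length, f i < b)
    (hB : ∀ j < b, ∑ i ∈ (range a.length).filter (fun i => f i = j), a.getD i 0 ≤ B) {i : ℕ}
    (hi : i < a.length) : pre a f i + a.getD i 0 ≤ B := by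
  refine le_trans ?_ (hB (f i) (hf i hi))
  unfold pre
  have h1 : insert i ((range i).filter (fun k => f k = f i)) ⊆
      (range a.length).filter (fun k => f k = f i) := by
    intro k hk
    rw [Finset.mem_insert, Finset.mem_filter, Finset.mem_range] at hk
    rw [Finset.mem_filter, Finset.mem_range]
    rcases hk with rfl | ⟨h1, h2⟩
    · exact ⟨hi, rfl⟩
    · exact ⟨h1.trans hi, h2⟩
  have h2 := Finset.sum_le_sum_of_subset (f := fun k => a.getD k 0) h1
  rw [Finset.sum_insert (by simp)] at h2
  omega

/-- the position belongs to the block of the item -/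
def Blk (a : List ℕ) (B : ℕ) (f : ℕ → ℕ) (i p : ℕ) : Prop := st a B f i ≤ p ∧ p < st a B f i + a.getD i 0

instance (i p : ℕ) : Decidable (Blk a B f i p) := by unfold Blk; infer_instance

theorem blk_div {b : ℕ} (hf : ∀ i < a.length, f i < b)
    (hB : ∀ j < b, ∑ i ∈ (range a.length).filter (fun i => f i = j), a.getD i 0 ≤ B) {i p : ℕ}
    (hi : i < a.length) (h : Blk a B f i p) : p / (B + 1) = f i ∧ ¬ (B + 1) ∣ p := by
  have h1 := pre_le hf hB hi
  unfold Blk st at h
  have h2 : f i * (B + 1) < p := by omega
  have h3 : p < f i * (B + 1) + (B + 1) := by omega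
  have h4 : p / (B + 1) = f i := by
    apply Nat.div_eq_of_lt_le
    · omega
    · rw [add_mul, one_mul]; exact h3
  refine ⟨h4, fun h5 => ?_⟩
  have h6 := Nat.div_mul_cancel h5
  rw [h4] at h6
  omega

theorem blk_unique {b : ℕ} (hf : ∀ i < a.length, f i < b)
    (hB : ∀ j < b, ∑ i ∈ (range a.length).filter (fun i => f i = j), a.getD i 0 ≤ B) {i j p : ℕ}
    (hi : i < a.length) (hj : j < a.length) (h : Blk a B f i p) (h' : Blk a B f j p) : i = j := by
  have h1 := (blk_div hf hB hi h).1
  have h2 := (blk_div hf hB hj h').1
  have hfe : f i = f j := h1.symm.trans h2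
  unfold Blk st at h h'
  rcases lt_trichotomy i j with h3 | h3 | h3
  · have := pre_add_le a f h3 hfe
    rw [hfe] at h
    omega
  · exact h3
  · have := pre_add_le a f h3 hfe.symm
    rw [hfe] at h
    omega

theorem blk_lt {b : ℕ} (hf : ∀ i < a.length, f i < b)
    (hB : ∀ j < b, ∑ i ∈ (range a.length).filter (fun i => f i = j), a.getD i 0 ≤ B) {i : ℕ}
    (hi : i < a.length) : st a B f i + a.getD i 0 ≤ b * (B + 1) := by
  have h1 := pre_le hf hB hi
  have h2 := hf i hi
  unfold st
  have h3 : (f i + 1) * (B + 1) ≤ b * (B + 1) := Nat.mul_le_mul_right _ h2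
  rw [add_mul, one_mul] at h3
  omega

theorem sum_getD (a : List ℕ) : ∑ i ∈ range a.length, a.getD i 0 = a.sum := by
  rw [Finset.sum_range, ← List.sum_ofFn]
  congr 1
  apply List.ext_getElem
  · simp
  · intro i h1 h2
    simp

theorem cover {b : ℕ} (hs : a.sum = b * B) (hf : ∀ i < a.length, f i < b)
    (hB : ∀ j < b, ∑ i ∈ (range a.length).filter (fun i => f i = j), a.getD i 0 ≤ B) {p : ℕ}
    (hp : p < b * (B + 1)) (hp' : ¬ (B + 1) ∣ p) : ∃ i < a.length, Blk a B f i p := by
  classical
  set U := (range a.length).biUnion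
    (fun i => Finset.Ico (st a B f i) (st a B f i + a.getD i 0)) with hU
  set V := (range (b * (B + 1))).filter (fun p => ¬ (B + 1) ∣ p) with hV
  have hUV : U ⊆ V := by
    intro q hq
    rw [hU, Finset.mem_biUnion] at hq
    obtain ⟨i, hi, hq⟩ := hq
    rw [Finset.mem_range] at hi
    rw [Finset.mem_Ico] at hq
    rw [hV, Finset.mem_filter, Finset.mem_range]
    exact ⟨lt_of_lt_of_le hq.2 (blk_lt hf hB hi), (blk_div hf hB hi hq).2⟩
  have hUc : U.card = b * B := by
    rw [hU, Finset.card_biUnion]
    · simp only [Nat.card_Ico, Nat.add_sub_cancel_left]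
      rw [sum_getD, hs]
    · intro i hi j hj hij
      rw [Function.onFun, Finset.disjoint_left]
      intro q h1 h2
      rw [Finset.mem_Ico] at h1 h2
      exact hij (blk_unique hf hB (Finset.mem_range.1 hi) (Finset.mem_range.1 hj) h1 h2)
  have hVc : V.card = b * B := by
    have h1 : ((range (b * (B + 1))).filter (fun p => (B + 1) ∣ p)).card = b := by
      have : (range (b * (B + 1))).filter (fun p => (B + 1) ∣ p) =
          (range b).image (fun k => k * (B + 1)) := by
        ext q
        rw [Finset.mem_filter, Finset.mem_image, Finset.mem_range]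
        constructor
        · rintro ⟨h1, k, rfl⟩
          refine ⟨k, ?_, mul_comm _ _⟩
          rw [Finset.mem_range]
          rw [mul_comm] at h1
          exact Nat.lt_of_mul_lt_mul_right h1
        · rintro ⟨k, hk, rfl⟩
          rw [Finset.mem_range] at hk
          exact ⟨Nat.mul_lt_mul_of_pos_right hk (Nat.succ_pos B), dvd_mul_left _ _⟩
      rw [this, Finset.card_image_of_injective, Finset.card_range]
      intro x y hxy
      exact Nat.eq_of_mul_eq_mul_right (Nat.succ_pos B) hxy
    have h2 := Finset.card_filter_add_card_filter_not (s := range (b * (B + 1)))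
      (fun p => (B + 1) ∣ p)
    rw [h1, Finset.card_range] at h2
    have h3 : b * (B + 1) = b * B + b := by ring
    rw [hV]
    omega
  have h := Finset.eq_of_subset_of_card_le hUV (by rw [hUc, hVc])
  have hpV : p ∈ V := by rw [hV, Finset.mem_filter, Finset.mem_range]; exact ⟨hp, hp'⟩
  rw [← h, hU, Finset.mem_biUnion] at hpV
  obtain ⟨i, hi, hq⟩ := hpV
  exact ⟨i, Finset.mem_range.1 hi, Finset.mem_Ico.1 hq⟩

open Classical in
/-- the letter at a position -/
noncomputable def letter (a : List ℕ) (B : ℕ) (f : ℕ → ℕ) (p : ℕ) : ℕ :=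
  if (B + 1) ∣ p then 0 else if h : ∃ i < a.length, Blk a B f i p then h.choose + 1 else 0

theorem letter_zero {b : ℕ} (hs : a.sum = b * B) (hf : ∀ i < a.length, f i < b)
    (hB : ∀ j < b, ∑ i ∈ (range a.length).filter (fun i => f i = j), a.getD i 0 ≤ B) {p : ℕ}
    (hp : p < b * (B + 1)) : letter a B f p = 0 ↔ (B + 1) ∣ p := by
  unfold letter
  by_cases h : (B + 1) ∣ p
  · simp [h]
  · rw [if_neg h, dif_pos (cover hs hf hB hp h)]
    simp [h]

theorem letter_succ {b : ℕ} (hf : ∀ i < a.length, f i < b)
    (hB : ∀ j < b, ∑ i ∈ (range a.length).filter (fun i => f i = j), a.getD i 0 ≤ B) {p i : ℕ}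
    (hi : i < a.length) : letter a B f p = i + 1 ↔ Blk a B f i p := by
  unfold letter
  constructor
  · intro h
    split_ifs at h with h1 h2
    have h3 := h2.choose_spec
    have h4 : h2.choose = i := by omega
    rw [h4] at h3
    exact h3.2
  · intro h
    have h1 := (blk_div hf hB hi h).2
    have h2 : ∃ i < a.length, Blk a B f i p := ⟨i, hi, h⟩
    rw [if_neg h1, dif_pos h2, blk_unique hf hB h2.choose_spec.1 hi h2.choose_spec.2 h]

theorem letter_le (p : ℕ) : letter a B f p < a.length + 1 := by
  unfold letter
  split_ifs with h1 h2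
  · omega
  · have := h2.choose_spec.1
    omega
  · omega

theorem positions_map (D : ℕ) (g : ℕ → ℕ) (i : ℕ) :
    positions ((List.range D).map g) i = (List.range D).filter (fun p => g p = i) := by
  unfold positions
  rw [List.length_map, List.length_range]
  apply List.filter_congr
  intro p hp
  rw [List.mem_range] at hp
  rw [List.getD_eq_getElem _ _ (by simpa using hp)]
  simp

theorem getElem_distances {D : ℕ} {P : List ℕ} {k : ℕ} (h : k < (distances D P).length)
    (h1 : k < P.length) (h2 : k < (P.tail ++ [P.headD 0 + D]).length) :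
    (distances D P)[k] = (P.tail ++ [P.headD 0 + D])[k] - P[k] := by
  simp only [distances, List.getElem_zipWith]

theorem dist_range' {D s n : ℕ} (hn : 1 ≤ n) (h : n ≤ D) :
    distances D (List.range' s n) = List.replicate (n - 1) 1 ++ [D + 1 - n] := by
  obtain ⟨m, rfl⟩ : ∃ m, n = m + 1 := ⟨n - 1, by omega⟩
  apply List.ext_getElem
  · rw [length_distances _ (by simp)]
    simp
  · intro k h1 h2
    rw [length_distances _ (by simp)] at h1
    simp only [List.length_range'] at h1
    rw [getElem_distances _ (by simpa using h1) (by simp; omega)]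
    rw [List.getElem_append, List.getElem_append]
    simp only [List.length_tail, List.length_range', List.getElem_tail, List.getElem_range',
      List.length_replicate, List.getElem_replicate, List.getElem_singleton]
    split_ifs with h3
    · omega
    · rw [List.range'_succ]
      simp only [List.headD_cons]
      omega

theorem dist_mul {b c : ℕ} (hb : 1 ≤ b) :
    distances (b * c) ((List.range b).map (· * c)) = List.replicate b c := by
  apply List.ext_getElem
  · rw [length_distances _ (by
      intro h
      have := congrArg List.length h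
      simp at this
      omega)]
    simp
  · intro k h1 h2
    rw [length_distances _ (by
      intro h
      have := congrArg List.length h
      simp at this
      omega)] at h1
    simp only [List.length_map, List.length_range] at h1
    rw [getElem_distances _ (by simpa using h1) (by simp; omega)]
    rw [List.getElem_append]
    simp only [List.length_tail, List.length_map, List.length_range, List.getElem_tail,
      List.getElem_map, List.getElem_range, List.getElem_singleton, List.getElem_replicate]
    split_ifs with h3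
    · rw [add_mul, one_mul]; omega
    · have hk : k = b - 1 := by omega
      obtain ⟨m, rfl⟩ : ∃ m, b = m + 1 := ⟨b - 1, by omega⟩
      rw [List.range_succ_eq_map]
      simp only [List.map_cons, List.headD_cons]
      rw [hk]
      simp only [Nat.add_sub_cancel]
      rw [add_mul, one_mul]
      omega

theorem bwd {b : ℕ} (hb : 1 ≤ b) (ha : ∀ x ∈ a, 1 ≤ x) (hs : a.sum = b * B)
    (hf : ∀ i < a.length, f i < b)
    (hB : ∀ j < b, ∑ i ∈ (range a.length).filter (fun i => f i = j), a.getD i 0 ≤ B) :
    FEAS (G a b B) := by
  refine ⟨isInst_G hb ha hs, (List.range (b * (B + 1))).map (letter a B f), ?_⟩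
  have hpos : ∀ i < a.length, 1 ≤ a.getD i 0 := fun i hi => by
    rw [List.getD_eq_getElem _ _ hi]; exact ha _ (List.getElem_mem _)
  have p0 : positions ((List.range (b * (B + 1))).map (letter a B f)) 0 =
      (List.range b).map (· * (B + 1)) := by
    rw [positions_map]
    refine List.Pairwise.eq_of_mem_iff (r := (· < ·)) (List.Pairwise.filter _ List.pairwise_lt_range)
      ?_ ?_
    · rw [List.pairwise_map]
      exact List.pairwise_lt_range.imp (fun h => Nat.mul_lt_mul_of_pos_right h (Nat.succ_pos B))
    · intro q
      rw [List.mem_filter, List.mem_map, List.mem_range]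
      constructor
      · rintro ⟨h1, h2⟩
        rw [decide_eq_true_eq, letter_zero hs hf hB h1] at h2
        obtain ⟨k, rfl⟩ := h2
        refine ⟨k, ?_, mul_comm _ _⟩
        rw [List.mem_range]
        rw [mul_comm] at h1
        exact Nat.lt_of_mul_lt_mul_right h1
      · rintro ⟨k, hk, rfl⟩
        rw [List.mem_range] at hk
        have h1 : k * (B + 1) < b * (B + 1) := Nat.mul_lt_mul_of_pos_right hk (Nat.succ_pos B)
        refine ⟨h1, ?_⟩
        rw [decide_eq_true_eq, letter_zero hs hf hB h1]
        exact dvd_mul_left _ _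
  have p1 : ∀ i < a.length, positions ((List.range (b * (B + 1))).map (letter a B f)) (i + 1) =
      List.range' (st a B f i) (a.getD i 0) := by
    intro i hi
    rw [positions_map]
    refine List.Pairwise.eq_of_mem_iff (r := (· < ·)) (List.Pairwise.filter _ List.pairwise_lt_range)
      List.pairwise_lt_range' ?_
    intro q
    rw [List.mem_filter, List.mem_range, decide_eq_true_eq, letter_succ hf hB hi,
      List.mem_range'_1]
    unfold Blk
    have := blk_lt hf hB hi
    constructor
    · rintro ⟨h1, h2, h3⟩
      exact ⟨h2, h3⟩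
    · rintro ⟨h2, h3⟩
      exact ⟨by omega, h2, h3⟩
  refine ⟨⟨?_, ?_, ?_⟩, ?_⟩
  · rw [sum_length ha hs]; simp
  · intro x hx
    rw [List.mem_map] at hx
    obtain ⟨p, _, rfl⟩ := hx
    rw [G_length]
    exact letter_le p
  · intro i hi
    rw [G_length] at hi
    rw [← positions_length]
    rcases Nat.eq_zero_or_pos i with rfl | h
    · rw [p0, G_getD_zero]; simp
    · obtain ⟨j, rfl⟩ : ∃ j, i = j + 1 := ⟨i - 1, by omega⟩
      have hj : j < a.length := by omega
      rw [p1 j hj, G_getD_succ hj, List.length_range', List.length_cons, List.length_replicate]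
      have := hpos j hj
      omega
  · intro i hi
    rw [G_length] at hi
    rw [List.length_map, List.length_range]
    rcases Nat.eq_zero_or_pos i with rfl | h
    · rw [p0, G_getD_zero, dist_mul hb]
    · obtain ⟨j, rfl⟩ : ∃ j, i = j + 1 := ⟨i - 1, by omega⟩
      have hj : j < a.length := by omega
      have h1 := hpos j hj
      have h2 := blk_lt hf hB hj
      rw [p1 j hj, G_getD_succ hj, dist_range' h1 (by omega)]
      exact List.perm_append_singleton _ _

end Bwd

/-- Packings and sequences. -/
theorem iff {a : List ℕ} {b B : ℕ} (hb : 1 ≤ b) (ha : ∀ x ∈ a, 1 ≤ x) (hs : a.sum = b * B) :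
    (∃ f : ℕ → ℕ, (∀ i < a.length, f i < b) ∧
      ∀ j < b, ∑ i ∈ (range a.length).filter (fun i => f i = j), a.getD i 0 ≤ B) ↔
    FEAS (G a b B) :=
  ⟨fun ⟨_, h1, h2⟩ => bwd hb ha hs h1 h2, fwd hb ha hs⟩

end Pool.Agent.Q325.Feas
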