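import Mathlib

/-!
# Feasibility of prescribed cyclic distances in just-in-time sequences: definitions
-/

set_option autoImplicit false

namespace Pool.Agent.Q325.Feas

/-- The positions of the letter `i` in the word `w`, in increasing order. -/
def positions (w : List ℕ) (i : ℕ) : List ℕ :=
  (List.range w.length).filter (fun p => w.getD p 0 = i)

/-- The cyclic distances in a word of length `D` between the positions in the increasing list `P`:
the differences of consecutive positions and the wrap-around distance. -/
def distances (D : ℕ) (P : List ℕ) : List ℕ :=
  List.zipWith (fun p q => q - p) P (P.tail ++ [P.headD 0 + D])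

/-- `α` is an instance: a list of vectors of positive integers, in weakly decreasing order, not
empty, the sum of each of them being the total number `D` of all components. -/
def IsInst (α : List (List ℕ)) : Prop :=
  ∀ v ∈ α, v ≠ [] ∧ (∀ x ∈ v, 1 ≤ x) ∧ v.Pairwise (· ≥ ·) ∧ v.sum = (α.map List.length).sum

/-- `w` is a just-in-time sequence for `d_i`, the numbers of components of the vectors of `α`: its
length is their sum `D`, its letters are `0, …, n - 1` and the letter `i` occurs `d_i` times. -/
def IsJIT (α : List (List ℕ)) (w : List ℕ) : Prop :=
  w.length = (α.map List.length).sum ∧ (∀ x ∈ w, x < α.length) ∧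
    ∀ i < α.length, w.count i = (α.getD i []).length

/-- FEAS: `α` is an instance, and for some just-in-time sequence, for every letter `i` the multiset
of the cyclic distances of `i` is the multiset of the components of the `i`-th vector. -/
def FEAS (α : List (List ℕ)) : Prop :=
  IsInst α ∧ ∃ w : List ℕ, IsJIT α w ∧
    ∀ i < α.length, (distances w.length (positions w i)).Perm (α.getD i [])

end Pool.Agent.Q325.Feas
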