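import Pool.Agent.Q325.FeasDefs
set_option autoImplicit false
open Finset
namespace Pool.Agent.Q325.Feas

theorem mem_positions {w : List ℕ} {i p : ℕ} : p ∈ positions w i ↔ p < w.length ∧ w.getD p 0 = i := by
  unfold positions
  simp [List.mem_filter]

theorem positions_sorted (w : List ℕ) (i : ℕ) : (positions w i).Pairwise (· < ·) := by
  unfold positions
  exact List.Pairwise.filter _ List.pairwise_lt_range

theorem positions_length (w : List ℕ) (i : ℕ) : (positions w i).length = w.count i := by
  unfold positions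
  have h : w = (List.range w.length).map (fun p => w.getD p 0) := by
    apply List.ext_getElem
    · simp
    · intro k h1 h2
      simp only [List.getElem_map, List.getElem_range]
      rw [List.getD_eq_getElem _ _ h1]
  conv_rhs => rw [h]
  rw [List.count, List.countP_map, List.countP_eq_length_filter]
  congr 1

/-- the list of the next positions -/
def nxt (D : ℕ) (P : List ℕ) : List ℕ := P.tail ++ [P.headD 0 + D]

theorem length_nxt {D : ℕ} {P : List ℕ} (h : P ≠ []) : (nxt D P).length = P.length := by
  unfold nxt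
  have : 0 < P.length := List.length_pos_iff.2 h
  simp
  omega

theorem length_distances (D : ℕ) {P : List ℕ} (h : P ≠ []) : (distances D P).length = P.length := by
  have := length_nxt (D := D) h
  unfold distances
  unfold nxt at this
  rw [List.length_zipWith, this, Nat.min_self]

/-- The `k`-th distance leads to another position of the letter. -/
theorem step_mem {D : ℕ} {P : List ℕ} (hs : P.Pairwise (· < ·)) (hD : ∀ p ∈ P, p < D)
    {k : ℕ} (hk : k < P.length) (hk' : k < (distances D P).length) :
    (P[k] + (distances D P)[k]) % D ∈ P := by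
  have hne : P ≠ [] := by rintro rfl; simp at hk
  obtain ⟨p0, P', rfl⟩ : ∃ p0 P', P = p0 :: P' := by
    cases P with
    | nil => exact absurd rfl hne
    | cons a l => exact ⟨a, l, rfl⟩
  unfold distances
  simp only [List.tail_cons, List.headD_cons, List.getElem_zipWith]
  have hp0 := hD p0 (by simp)
  by_cases h : k < P'.length
  · have e : (P' ++ [p0 + D])[k]'(by simp; omega) = P'[k] := by
      rw [List.getElem_append_left h]
    rw [e]
    have hlt : (p0 :: P')[k] < (p0 :: P')[k + 1]'(by simp; omega) :=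
      List.pairwise_iff_getElem.1 hs _ _ _ _ (Nat.lt_succ_self k)
    have e2 : (p0 :: P')[k + 1]'(by simp; omega) = P'[k] := by simp
    rw [e2] at hlt
    have e3 : (p0 :: P')[k] + (P'[k] - (p0 :: P')[k]) = P'[k] := by omega
    rw [e3]
    have hm : P'[k] ∈ p0 :: P' := List.mem_cons_of_mem _ (List.getElem_mem h)
    rw [Nat.mod_eq_of_lt (hD _ hm)]
    exact hm
  · have hk2 : k = P'.length := by simp at hk; omega
    subst hk2
    have e : (P' ++ [p0 + D])[P'.length]'(by simp) = p0 + D := by
      rw [List.getElem_append_right le_rfl]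
      simp
    rw [e]
    have hm : (p0 :: P')[P'.length] ∈ p0 :: P' := List.getElem_mem _
    have := hD _ hm
    have e3 : (p0 :: P')[P'.length] + (p0 + D - (p0 :: P')[P'.length]) = p0 + D := by omega
    rw [e3, Nat.add_mod_right, Nat.mod_eq_of_lt hp0]
    simp

/-- If all distances are `c`, the set of the positions is closed under addition of `c`. -/
theorem closed_of_replicate {D c n : ℕ} {P : List ℕ} (hs : P.Pairwise (· < ·)) (hD : ∀ p ∈ P, p < D)
    (h : (distances D P).Perm (List.replicate n c)) {p : ℕ} (hp : p ∈ P) : (p + c) % D ∈ P := by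
  obtain ⟨k, hk, rfl⟩ := List.mem_iff_getElem.1 hp
  have hne : P ≠ [] := by rintro rfl; simp at hk
  have hk' : k < (distances D P).length := by rw [length_distances D hne]; exact hk
  have h1 := step_mem hs hD hk hk'
  have h2 : (distances D P)[k] = c := by
    have : (distances D P)[k] ∈ List.replicate n c := h.subset (List.getElem_mem _)
    exact List.eq_of_mem_replicate this
  rwa [h2] at h1

/-- If all distances but one are `1`, at most one position has a successor which is not a
position. -/
theorem exit_unique {D x n : ℕ} {P : List ℕ} (hs : P.Pairwise (· < ·)) (hD : ∀ p ∈ P, p < D)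
    (h : (distances D P).Perm (x :: List.replicate n 1)) {p q : ℕ} (hp : p ∈ P) (hq : q ∈ P)
    (hp' : (p + 1) % D ∉ P) (hq' : (q + 1) % D ∉ P) : p = q := by
  have hx : x ∈ distances D P := h.symm.subset (by simp)
  obtain ⟨l1, l2, hl⟩ := List.append_of_mem hx
  have h1 : (l1 ++ l2).Perm (List.replicate n 1) := by
    rw [hl] at h
    exact (List.perm_middle.symm.trans h).cons_inv
  have key : ∀ k (hk : k < P.length), (P[k] + 1) % D ∉ P → k = l1.length := by
    intro k hk hn
    have hne : P ≠ [] := by rintro rfl; simp at hk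
    have hk' : k < (distances D P).length := by rw [length_distances D hne]; exact hk
    have h3 := step_mem hs hD hk hk'
    have h4 : (distances D P)[k] ≠ 1 := by
      intro h5
      rw [h5] at h3
      exact hn h3
    by_contra hc
    apply h4
    have h5 : (distances D P)[k] ∈ l1 ++ l2 := by
      have e : (distances D P)[k] = (l1 ++ x :: l2)[k]'(by rw [← hl]; exact hk') := by
        simp only [hl]
      rw [e]
      rcases Nat.lt_or_ge k l1.length with h6 | h6
      · rw [List.getElem_append_left h6]
        exact List.mem_append_left _ (List.getElem_mem _)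
      · rw [List.getElem_append_right h6]
        obtain ⟨j, hj⟩ : ∃ j, k - l1.length = j + 1 := ⟨k - l1.length - 1, by omega⟩
        simp only [hj, List.getElem_cons_succ]
        exact List.mem_append_right _ (List.getElem_mem _)
    exact List.eq_of_mem_replicate (h1.subset h5)
  obtain ⟨k, hk, rfl⟩ := List.mem_iff_getElem.1 hp
  obtain ⟨k', hk', rfl⟩ := List.mem_iff_getElem.1 hq
  have e1 := key k hk hp'
  have e2 := key k' hk' hq'
  subst e1
  subst e2
  rfl



/-! ### From a sequence to a packing -/

section Fwd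

variable {D b c : ℕ}

/-- the offset of a position from `q0` -/
def off (D q0 p : ℕ) : ℕ := (p + D - q0) % D

theorem closed_iter {Q : List ℕ} (hD : ∀ p ∈ Q, p < D)
    (hcl : ∀ p ∈ Q, (p + c) % D ∈ Q) {q0 : ℕ} (hq : q0 ∈ Q) (k : ℕ) : (q0 + k * c) % D ∈ Q := by
  induction k with
  | zero => simpa [Nat.mod_eq_of_lt (hD _ hq)] using hq
  | succ k ih =>
    have := hcl _ ih
    rw [Nat.mod_add_mod] at this
    rwa [show q0 + (k + 1) * c = q0 + k * c + c by ring]

theorem off_not_dvd {Q : List ℕ} (hD : ∀ p ∈ Q, p < D)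
    (hcl : ∀ p ∈ Q, (p + c) % D ∈ Q) {q0 : ℕ} (hq : q0 ∈ Q) {p : ℕ} (hp : p < D) (hpQ : p ∉ Q) :
    ¬ c ∣ off D q0 p := by
  rintro ⟨k, hk⟩
  apply hpQ
  have h1 := closed_iter hD hcl hq k
  have hq0 := hD _ hq
  have h2 : (q0 + k * c) % D = p := by
    rw [mul_comm, ← hk]
    unfold off
    rw [Nat.add_mod_mod, show q0 + (p + D - q0) = p + D by omega, Nat.add_mod_right,
      Nat.mod_eq_of_lt hp]
  rwa [h2] at h1

theorem off_succ {q0 p : ℕ} (hq : q0 < D) (hp : p < D) :
    off D q0 ((p + 1) % D) = (off D q0 p + 1) % D := by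
  unfold off
  rw [Nat.mod_add_mod]
  rcases Nat.lt_or_ge (p + 1) D with h | h
  · rw [Nat.mod_eq_of_lt h, show p + 1 + D - q0 = p + D - q0 + 1 by omega]
  · have h1 : p + 1 = D := by omega
    rw [h1, Nat.mod_self, show p + D - q0 + 1 = (0 + D - q0) + D by omega, Nat.add_mod_right]

theorem off_lt {q0 p : ℕ} (hD : 0 < D) : off D q0 p < D := Nat.mod_lt _ hD

theorem gap_succ {Q : List ℕ} (hDc : D = b * c) (hD : ∀ p ∈ Q, p < D)
    (hcl : ∀ p ∈ Q, (p + c) % D ∈ Q) {q0 : ℕ} (hq : q0 ∈ Q) {p : ℕ} (hp : p < D)
    (hpQ' : (p + 1) % D ∉ Q) : off D q0 ((p + 1) % D) / c = off D q0 p / c := by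
  have hq0 := hD _ hq
  have h1 := off_not_dvd hD hcl hq (Nat.mod_lt (p + 1) (by omega : 0 < D)) hpQ'
  rw [off_succ hq0 hp] at h1 ⊢
  have h2 : off D q0 p < D := off_lt (by omega)
  rcases Nat.lt_or_ge (off D q0 p + 1) D with h | h
  · rw [Nat.mod_eq_of_lt h] at h1 ⊢
    exact Nat.succ_div_of_not_dvd h1
  · have h3 : off D q0 p + 1 = D := by omega
    rw [h3, Nat.mod_self] at h1
    exact absurd (dvd_zero _) h1

/-- The gap is constant on a letter with a single exit. -/
theorem gap_const {Q P : List ℕ} (hDc : D = b * c) (hD : ∀ p ∈ Q, p < D)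
    (hcl : ∀ p ∈ Q, (p + c) % D ∈ Q) {q0 : ℕ} (hq : q0 ∈ Q) (hP : ∀ p ∈ P, p < D)
    (hPQ : ∀ p ∈ P, p ∉ Q)
    (hu : ∀ p ∈ P, ∀ q ∈ P, (p + 1) % D ∉ P → (q + 1) % D ∉ P → p = q) {p q : ℕ} (hp : p ∈ P)
    (hq' : q ∈ P) : off D q0 p / c = off D q0 q / c := by
  have hq0 := hD _ hq
  have key : ∀ p ∈ P, ∃ e ∈ P, (e + 1) % D ∉ P ∧ off D q0 p / c = off D q0 e / c := by
    intro p hp
    have hex : ∃ k, (p + k) % D ∉ P := by
      refine ⟨q0 + D - p, ?_⟩
      have := hP _ hp
      rw [show p + (q0 + D - p) = q0 + D by omega, Nat.add_mod_right, Nat.mod_eq_of_lt hq0]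
      intro h
      exact hPQ _ h hq
    classical
    set k := Nat.find hex with hk
    have hk1 : (p + k) % D ∉ P := Nat.find_spec hex
    have hk2 : ∀ j < k, (p + j) % D ∈ P := fun j hj => by
      by_contra h
      exact Nat.find_min hex hj h
    have hk0 : k ≠ 0 := by
      intro h
      rw [h] at hk1
      simp only [add_zero] at hk1
      rw [Nat.mod_eq_of_lt (hP _ hp)] at hk1
      exact hk1 hp
    have hc : ∀ j < k, off D q0 p / c = off D q0 ((p + j) % D) / c := by
      intro j hj
      induction j with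
      | zero => simp [Nat.mod_eq_of_lt (hP _ hp)]
      | succ j ih =>
        rw [ih (by omega)]
        have h1 := hk2 j (by omega)
        have h2 := hk2 (j + 1) hj
        have e : (p + (j + 1)) % D = ((p + j) % D + 1) % D := by
          rw [Nat.mod_add_mod]; rfl
        rw [e] at h2 ⊢
        exact (gap_succ hDc hD hcl hq (hP _ h1) (hPQ _ h2)).symm
    refine ⟨(p + (k - 1)) % D, hk2 _ (by omega), ?_, hc _ (by omega)⟩
    rw [Nat.mod_add_mod, show p + (k - 1) + 1 = p + k by omega]
    exact hk1
  obtain ⟨e, he1, he2, he3⟩ := key p hp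
  obtain ⟨e', he1', he2', he3'⟩ := key q hq'
  rw [he3, he3', hu e he1 e' he1' he2 he2']

/-- Each gap has at most `B` positions. -/
theorem gap_card {B : ℕ} {Q : List ℕ} (hDc : D = b * (B + 1)) (hD : ∀ p ∈ Q, p < D)
    (hcl : ∀ p ∈ Q, (p + (B + 1)) % D ∈ Q) {q0 : ℕ} (hq : q0 ∈ Q) (j : ℕ) (S : Finset ℕ)
    (hS : ∀ p ∈ S, p < D ∧ p ∉ Q ∧ off D q0 p / (B + 1) = j) : S.card ≤ B := by
  have hq0 := hD _ hq
  have h1 : S.card ≤ (Finset.Ioc (j * (B + 1)) (j * (B + 1) + B)).card := by
    apply Finset.card_le_card_of_injOn (off D q0)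
    · intro p hp
      obtain ⟨h1, h2, h3⟩ := hS p hp
      have h4 := off_not_dvd hD hcl hq h1 h2
      simp only [Finset.coe_Ioc, Set.mem_Ioc]
      have h5 := Nat.div_add_mod (off D q0 p) (B + 1)
      have h6 := Nat.mod_lt (off D q0 p) (Nat.succ_pos B)
      have h7 : off D q0 p % (B + 1) ≠ 0 := fun h => h4 (Nat.dvd_of_mod_eq_zero h)
      rw [h3] at h5
      have h8 : (B + 1) * j = j * (B + 1) := mul_comm _ _
      simp only [Nat.succ_eq_add_one] at h6
      omega
    · intro p hp p' hp' h
      have h1 := (hS p hp).1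
      have h2 := (hS p' hp').1
      unfold off at h
      have h3 : (p + D - q0 + q0) % D = (p' + D - q0 + q0) % D := by
        rw [Nat.add_mod, h, ← Nat.add_mod]
      rw [show p + D - q0 + q0 = p + D by omega, show p' + D - q0 + q0 = p' + D by omega,
        Nat.add_mod_right, Nat.add_mod_right, Nat.mod_eq_of_lt h1, Nat.mod_eq_of_lt h2] at h3
      exact h3
  simpa using h1

end Fwd

/-- The vectors of the reduction. -/
def G (a : List ℕ) (b B : ℕ) : List (List ℕ) :=
  ((List.range b).map fun _ => B + 1) ::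
    a.map fun x => (b * (B + 1) + 1 - x) :: (List.range (x - 1)).map fun _ => 1

theorem map_range_const (n c : ℕ) : ((List.range n).map fun _ => c) = List.replicate n c := by
  apply List.ext_getElem <;> simp

theorem G_eq (a : List ℕ) (b B : ℕ) : G a b B = List.replicate b (B + 1) ::
    a.map fun x => (b * (B + 1) + 1 - x) :: List.replicate (x - 1) 1 := by
  unfold G
  simp only [map_range_const]

theorem G_length (a : List ℕ) (b B : ℕ) : (G a b B).length = a.length + 1 := by simp [G]

theorem sum_length {a : List ℕ} {b B : ℕ} (ha : ∀ x ∈ a, 1 ≤ x) (hs : a.sum = b * B) :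
    ((G a b B).map List.length).sum = b * (B + 1) := by
  rw [G_eq]
  simp only [List.map_cons, List.length_replicate, List.map_map, List.sum_cons]
  have : (a.map (List.length ∘ fun x => (b * (B + 1) + 1 - x) :: List.replicate (x - 1) 1)) = a := by
    conv_rhs => rw [← List.map_id a]
    apply List.map_congr_left
    intro x hx
    have := ha x hx
    simp
    omega
  rw [this, hs]
  ring

theorem isInst_G {a : List ℕ} {b B : ℕ} (hb : 1 ≤ b) (ha : ∀ x ∈ a, 1 ≤ x) (hs : a.sum = b * B) :
    IsInst (G a b B) := by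
  have hle : ∀ x ∈ a, x ≤ b * B := fun x hx => by
    rw [← hs]
    exact List.single_le_sum (by simp) _ hx
  intro v hv
  rw [sum_length ha hs]
  rw [G_eq] at hv
  rcases List.mem_cons.1 hv with rfl | hv
  · refine ⟨?_, ?_, ?_, ?_⟩
    · intro h
      have := congrArg List.length h
      simp at this
      omega
    · intro x hx
      rw [List.eq_of_mem_replicate hx]
      omega
    · rw [List.pairwise_replicate]
      right
      exact le_rfl
    · simp
  · rw [List.mem_map] at hv
    obtain ⟨x, hx, rfl⟩ := hv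
    have h1 := ha x hx
    have h2 := hle x hx
    have h3 : b * (B + 1) = b * B + b := by ring
    refine ⟨by simp, ?_, ?_, ?_⟩
    · intro y hy
      rcases List.mem_cons.1 hy with rfl | hy
      · omega
      · rw [List.eq_of_mem_replicate hy]
    · rw [List.pairwise_cons]
      refine ⟨fun y hy => ?_, ?_⟩
      · rw [List.eq_of_mem_replicate hy]
        show 1 ≤ _
        omega
      · rw [List.pairwise_replicate]
        right
        exact le_rfl
    · simp
      omega

theorem G_getD_zero (a : List ℕ) (b B : ℕ) : (G a b B).getD 0 [] = List.replicate b (B + 1) := by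
  rw [G_eq]; rfl

theorem G_getD_succ {a : List ℕ} {b B i : ℕ} (hi : i < a.length) :
    (G a b B).getD (i + 1) [] = (b * (B + 1) + 1 - a.getD i 0) :: List.replicate (a.getD i 0 - 1) 1 := by
  rw [G_eq, List.getD_eq_getElem _ _ (by simpa using hi), List.getD_eq_getElem _ _ hi]
  simp

theorem fwd {a : List ℕ} {b B : ℕ} (hb : 1 ≤ b) (ha : ∀ x ∈ a, 1 ≤ x) (hs : a.sum = b * B)
    (h : FEAS (G a b B)) : ∃ f : ℕ → ℕ, (∀ i < a.length, f i < b) ∧
      ∀ j < b, ∑ i ∈ (range a.length).filter (fun i => f i = j), a.getD i 0 ≤ B := by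
  classical
  obtain ⟨-, w, ⟨hw1, hw2, hw3⟩, hw⟩ := h
  set D := b * (B + 1) with hD
  have hwl : w.length = D := by rw [hw1, sum_length ha hs]
  rw [hwl] at hw
  set Q := positions w 0 with hQ
  have hlt : ∀ i, ∀ p ∈ positions w i, p < D := fun i p hp => by
    rw [← hwl]; exact (mem_positions.1 hp).1
  have hQp := hw 0 (by rw [G_length]; omega)
  rw [G_getD_zero] at hQp
  have hQl : Q.length = b := by
    rw [hQ, positions_length, hw3 0 (by rw [G_length]; omega), G_getD_zero, List.length_replicate]
  have hQne : Q ≠ [] := by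
    intro h
    rw [h] at hQl
    simp at hQl
    omega
  obtain ⟨q0, hq0⟩ := List.exists_mem_of_ne_nil _ hQne
  have hcl : ∀ p ∈ Q, (p + (B + 1)) % D ∈ Q := fun p hp =>
    closed_of_replicate (positions_sorted w 0) (hlt 0) hQp hp
  have hdis : ∀ i j, i ≠ j → ∀ p ∈ positions w i, p ∉ positions w j := by
    intro i j hij p hp hp'
    exact hij ((mem_positions.1 hp).2.symm.trans (mem_positions.1 hp').2)
  have hlen : ∀ i < a.length, (positions w (i + 1)).length = a.getD i 0 := by
    intro i hi
    rw [positions_length, hw3 (i + 1) (by rw [G_length]; omega), G_getD_succ hi]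
    have : 1 ≤ a.getD i 0 := by
      rw [List.getD_eq_getElem _ _ hi]; exact ha _ (List.getElem_mem _)
    rw [List.length_cons, List.length_replicate]
    omega
  have hgc : ∀ i < a.length, ∀ p ∈ positions w (i + 1), ∀ q ∈ positions w (i + 1),
      off D q0 p / (B + 1) = off D q0 q / (B + 1) := by
    intro i hi p hp q hq
    refine gap_const (Q := Q) (P := positions w (i + 1)) hD (hlt 0) hcl hq0 (hlt (i + 1))
      (hdis _ _ (Nat.succ_ne_zero i)) ?_ hp hq
    intro p hp q hq h1 h2
    have h3 := hw (i + 1) (by rw [G_length]; omega)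
    rw [G_getD_succ hi] at h3
    exact exit_unique (positions_sorted w (i + 1)) (hlt (i + 1)) h3 hp hq h1 h2
  have hDpos : 0 < D := by rw [hD]; positivity
  refine ⟨fun i => off D q0 ((positions w (i + 1)).headD 0) / (B + 1), ?_, ?_⟩
  · intro i _
    simp only
    rw [Nat.div_lt_iff_lt_mul (Nat.succ_pos B)]
    exact off_lt hDpos
  · intro j _
    set I := (range a.length).filter
      (fun i => off D q0 ((positions w (i + 1)).headD 0) / (B + 1) = j) with hI
    have hIm : ∀ i ∈ I, i < a.length ∧ ∀ p ∈ positions w (i + 1), off D q0 p / (B + 1) = j := by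
      intro i hi
      rw [hI, Finset.mem_filter, Finset.mem_range] at hi
      refine ⟨hi.1, fun p hp => ?_⟩
      rw [← hi.2]
      refine hgc i hi.1 p hp _ ?_
      cases hl : positions w (i + 1) with
      | nil => rw [hl] at hp; simp at hp
      | cons x l => simp
    have h1 : ∑ i ∈ I, a.getD i 0 = (I.biUnion fun i => (positions w (i + 1)).toFinset).card := by
      rw [Finset.card_biUnion]
      · apply Finset.sum_congr rfl
        intro i hi
        rw [List.toFinset_card_of_nodup, hlen i (hIm i hi).1]
        exact (positions_sorted w (i + 1)).imp (fun h => ne_of_lt h)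
      · intro i _ k _ hik
        rw [Function.onFun, Finset.disjoint_left]
        intro p hp hp'
        rw [List.mem_toFinset] at hp hp'
        exact hdis (i + 1) (k + 1) (by omega) p hp hp'
    rw [h1]
    refine gap_card (Q := Q) hD (hlt 0) hcl hq0 j _ ?_
    intro p hp
    rw [Finset.mem_biUnion] at hp
    obtain ⟨i, hi, hp⟩ := hp
    rw [List.mem_toFinset] at hp
    exact ⟨hlt _ p hp, hdis _ _ (Nat.succ_ne_zero i) p hp, (hIm i hi).2 p hp⟩

end Pool.Agent.Q325.Feas
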