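import Pool.Agent.Q325.BP
import Pool.Agent.Q325.FeasBwd
import Pool.Agent.H612.CollectPoly

set_option autoImplicit false

namespace Pool.Agent.NPC.Q325Feas

open Pool.Agent.NPC Pool.Agent.NPC.SNP Pool.Agent.NPC.Q325BP Pool.Agent.Q325.Feas
open Pool.Agent.H43R3.SN (sizes bb BB BPk)

theorem poly_G : Poly (fun I : Inst => G (sizes (clip I)) (bb (clip I)) (BB (clip I))) := by
  have h1 : Poly (fun I : Inst => (List.range (bb (clip I))).map fun _ => BB (clip I) + 1) :=
    Poly.map (F := fun (I : Inst) (_ : ℕ) => BB (clip I) + 1) ubb.range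
      (Poly.add ((uBB.toPoly).comp (Poly.fst Poly.id)) (Poly.const 1))
  have hu : UPoly (fun p : Inst × ℕ => min p.2 (bb (clip p.1) * BB (clip p.1)) - 1) := by
    refine UPoly.of_le (n := fun p : Inst × ℕ => bb (clip p.1) * BB (clip p.1)) ?_
      (usum.comp (Poly.fst Poly.id)) ?_
    · exact Poly.sub (Poly.min (Poly.snd Poly.id) ((usum.toPoly).comp (Poly.fst Poly.id)))
        (Poly.const 1)
    · intro p
      exact (Nat.sub_le _ _).trans (min_le_right _ _)
  have h2 : Poly (fun I : Inst => (sizes (clip I)).map fun x =>
      (bb (clip I) * (BB (clip I) + 1) + 1 - x) ::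
        (List.range (min x (bb (clip I) * BB (clip I)) - 1)).map fun _ => 1) := by
    refine Poly.map (F := fun (I : Inst) (x : ℕ) => (bb (clip I) * (BB (clip I) + 1) + 1 - x) ::
        (List.range (min x (bb (clip I) * BB (clip I)) - 1)).map fun _ => 1) psizes ?_
    refine Poly.cons ?_ ?_
    · have a1 : Poly (fun p : Inst × ℕ => bb (clip p.1)) := (ubb.toPoly).comp (Poly.fst Poly.id)
      have a2 : Poly (fun p : Inst × ℕ => BB (clip p.1)) := (uBB.toPoly).comp (Poly.fst Poly.id)
      exact Poly.sub (Poly.add (Poly.mul a1 (Poly.add a2 (Poly.const 1))) (Poly.const 1))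
        (Poly.snd Poly.id)
    · exact Poly.map (F := fun (_ : Inst × ℕ) (_ : ℕ) => 1) hu.range (Poly.const 1)
  refine (Poly.cons h1 h2).congr fun I => ?_
  unfold G
  congr 1
  apply List.map_congr_left
  intro x hx
  rw [Nat.min_eq_left (clip_le I x hx)]

theorem hard : NPHardP FEAS := by
  refine hard_of_BP FEAS G [[]] ?_ poly_G ?_
  · rintro ⟨h, -⟩
    exact (h [] (by simp)).1 rfl
  · intro a b B hb ha hs
    exact Pool.Agent.Q325.Feas.iff hb ha hs

/-! ### Membership -/

theorem distances_eq (D : ℕ) (P : List ℕ) : distances D P = (List.range P.length).map fun k =>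
    if k + 1 < P.length then P.getD (k + 1) 0 - P.getD k 0 else P.getD 0 0 + D - P.getD k 0 := by
  rcases P with _ | ⟨x, l⟩
  · rfl
  · apply List.ext_getElem
    · rw [length_distances _ (by simp)]
      simp
    · intro k h1 h2
      rw [length_distances _ (by simp)] at h1
      rw [getElem_distances _ h1 (by simpa using h1)]
      simp only [List.tail_cons, List.headD_cons, List.getElem_map, List.getElem_range]
      rw [List.getD_eq_getElem _ _ h1]
      split_ifs with h3
      · rw [List.getD_eq_getElem _ _ h3, List.getElem_append_left (by simpa using h3)]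
        simp
      · have hk : k = l.length := by simp at h1 h3; omega
        subst hk
        rw [List.getElem_append_right le_rfl]
        simp

theorem perm_iff (l l' : List ℕ) : l.Perm l' ↔ ∀ x ∈ l ++ l', l.count x = l'.count x := by
  rw [List.perm_iff_count]
  constructor
  · intro h x _
    exact h x
  · intro h x
    by_cases hx : x ∈ l ++ l'
    · exact h x hx
    · rw [List.mem_append, not_or] at hx
      rw [List.count_eq_zero_of_not_mem hx.1, List.count_eq_zero_of_not_mem hx.2]

/-- The verifier. -/
def chk (p : List (List ℕ) × List ℕ) : Bool :=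
  ((p.1.all fun v => !(v.isEmpty) && ((v.all fun x => decide (1 ≤ x)) &&
    (((List.range v.length).all fun i => (List.range v.length).all fun j =>
      decide (j ≤ i) || decide (v.getD j 0 ≤ v.getD i 0)) &&
      decide (v.sum = (p.1.map List.length).sum)))) &&
  (decide (p.2.length = (p.1.map List.length).sum) &&
  ((p.2.all fun x => decide (x < p.1.length)) &&
  (((List.range p.1.length).all fun i => decide (p.2.count i = (p.1.getD i []).length)) &&
  ((List.range p.1.length).all fun i =>
    (distances p.2.length (positions p.2 i) ++ p.1.getD i []).all fun x =>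
      decide ((distances p.2.length (positions p.2 i)).count x = (p.1.getD i []).count x))))))

theorem pairwise_iff (v : List ℕ) : v.Pairwise (· ≥ ·) ↔
    ∀ i < v.length, ∀ j < v.length, j ≤ i ∨ v.getD j 0 ≤ v.getD i 0 := by
  rw [List.pairwise_iff_getElem]
  constructor
  · intro h i hi j hj
    rcases Nat.lt_or_ge i j with h1 | h1
    · right
      rw [List.getD_eq_getElem _ _ hi, List.getD_eq_getElem _ _ hj]
      exact h i j hi hj h1
    · left; exact h1
  · intro h i j hi hj hij
    rcases h i hi j hj with h1 | h1
    · omega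
    · rw [List.getD_eq_getElem _ _ hi, List.getD_eq_getElem _ _ hj] at h1
      exact h1

theorem chk_iff (α : List (List ℕ)) (w : List ℕ) : chk (α, w) = true ↔
    IsInst α ∧ IsJIT α w ∧
      ∀ i < α.length, (distances w.length (positions w i)).Perm (α.getD i []) := by
  unfold chk IsInst IsJIT
  simp only [Bool.and_eq_true, List.all_eq_true, decide_eq_true_eq, List.mem_range,
    Bool.not_eq_true', List.isEmpty_eq_false_iff, Bool.or_eq_true, pairwise_iff, perm_iff]
  tauto

theorem poly_distances {β : Type} [TEnc β] {D : β → ℕ} {P : β → List ℕ} (hD : Poly D)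
    (hP : Poly P) : Poly (fun a => distances (D a) (P a)) := by
  have h : Poly (fun a => (List.range (P a).length).map fun k =>
      if k + 1 < (P a).length then (P a).getD (k + 1) 0 - (P a).getD k 0
      else (P a).getD 0 0 + D a - (P a).getD k 0) := by
    refine Poly.map (F := fun a k => if k + 1 < (P a).length then
      (P a).getD (k + 1) 0 - (P a).getD k 0 else (P a).getD 0 0 + D a - (P a).getD k 0)
      (Poly.range_length hP) ?_
    have hP' : Poly (fun p : β × ℕ => P p.1) := hP.comp (Poly.fst Poly.id)
    have hD' : Poly (fun p : β × ℕ => D p.1) := hD.comp (Poly.fst Poly.id)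
    refine Poly.ite (p := fun p : β × ℕ => p.2 + 1 < (P p.1).length) ?_ ?_ ?_
    · exact Poly.decide_lt (by fun_prop) (by fun_prop)
    · fun_prop
    · fun_prop
  exact h.congr fun a => (distances_eq _ _).symm

theorem poly_positions {β : Type} [TEnc β] {w : β → List ℕ} {i : β → ℕ} (hw : Poly w)
    (hi : Poly i) : Poly (fun a => positions (w a) (i a)) := by
  unfold positions
  refine Poly.filter (p := fun a p => decide ((w a).getD p 0 = i a)) (Poly.range_length hw) ?_
  have hw' : Poly (fun p : β × ℕ => w p.1) := hw.comp (Poly.fst Poly.id)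
  have hi' : Poly (fun p : β × ℕ => i p.1) := hi.comp (Poly.fst Poly.id)
  exact Poly.decide_eq (by fun_prop) hi'

theorem poly_chk : Poly chk := by
  have hr : ∀ {α β : Type} [TEnc α] [TEnc β] {f : α → List β}, Poly f →
      Poly (fun a => List.range (f a).length) := fun hf => Poly.range_length hf
  have ht : ∀ {α : Type} [TEnc α] {f : α → List (List ℕ)}, Poly f →
      Poly (fun a => ((f a).map List.length).sum) := by
    intro α _ f hf
    exact Poly.sum (Poly.map (F := fun _ v => List.length v) hf (by fun_prop))
  unfold chk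
  refine Poly.and ?_ (Poly.and ?_ (Poly.and ?_ (Poly.and ?_ ?_)))
  · refine Poly.all (p := fun (p : List (List ℕ) × List ℕ) v => !(v.isEmpty) &&
      ((v.all fun x => decide (1 ≤ x)) &&
      (((List.range v.length).all fun i => (List.range v.length).all fun j =>
      decide (j ≤ i) || decide (v.getD j 0 ≤ v.getD i 0)) &&
      decide (v.sum = (p.1.map List.length).sum)))) (Poly.fst Poly.id) ?_
    refine Poly.and (Poly.not (Poly.isEmpty (Poly.snd Poly.id))) (Poly.and ?_ (Poly.and ?_ ?_))
    · exact Poly.all (p := fun _ x => decide (1 ≤ x)) (Poly.snd Poly.id) (by fun_prop)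
    · refine Poly.all (p := fun (q : (List (List ℕ) × List ℕ) × List ℕ) i =>
        (List.range q.2.length).all fun j => decide (j ≤ i) || decide (q.2.getD j 0 ≤ q.2.getD i 0))
        (hr (Poly.snd Poly.id)) ?_
      refine Poly.all (p := fun (q : ((List (List ℕ) × List ℕ) × List ℕ) × ℕ) j =>
        decide (j ≤ q.2) || decide (q.1.2.getD j 0 ≤ q.1.2.getD q.2 0))
        (hr (Poly.snd (Poly.fst Poly.id))) ?_
      fun_prop
    · exact Poly.decide_eq (Poly.sum (Poly.snd Poly.id)) (ht (Poly.fst (Poly.fst Poly.id)))
  · exact Poly.decide_eq (by fun_prop) (ht (Poly.fst Poly.id))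
  · refine Poly.all (p := fun (p : List (List ℕ) × List ℕ) x => decide (x < p.1.length))
      (Poly.snd Poly.id) ?_
    fun_prop
  · refine Poly.all (p := fun (p : List (List ℕ) × List ℕ) i =>
      decide (p.2.count i = (p.1.getD i []).length)) (hr (Poly.fst Poly.id)) ?_
    refine Poly.decide_eq (H612.poly_count (Poly.snd (Poly.fst Poly.id)) (Poly.snd Poly.id)) ?_
    fun_prop
  · refine Poly.all (p := fun (p : List (List ℕ) × List ℕ) i =>
      (distances p.2.length (positions p.2 i) ++ p.1.getD i []).all fun x =>
      decide ((distances p.2.length (positions p.2 i)).count x = (p.1.getD i []).count x))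
      (hr (Poly.fst Poly.id)) ?_
    have hd : Poly (fun q : (List (List ℕ) × List ℕ) × ℕ =>
        distances q.1.2.length (positions q.1.2 q.2)) :=
      poly_distances (by fun_prop) (poly_positions (by fun_prop) (by fun_prop))
    have hg : Poly (fun q : (List (List ℕ) × List ℕ) × ℕ => q.1.1.getD q.2 []) := by fun_prop
    refine Poly.all (p := fun (q : (List (List ℕ) × List ℕ) × ℕ) x =>
      decide ((distances q.1.2.length (positions q.1.2 q.2)).count x = (q.1.1.getD q.2 []).count x))
      (Poly.append hd hg) ?_
    exact Poly.decide_eq (H612.poly_count (hd.comp (Poly.fst Poly.id)) (Poly.snd Poly.id))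
      (H612.poly_count (hg.comp (Poly.fst Poly.id)) (Poly.snd Poly.id))

theorem total_le_sz (α : List (List ℕ)) : (α.map List.length).sum ≤ sz α := by
  induction α with
  | nil => simp
  | cons v l ih =>
    rw [List.map_cons, List.sum_cons, sz_list_cons]
    have := length_lt_sz v
    omega

theorem inNPP : InNPP FEAS := by
  refine inNPP_of (β := List ℕ) poly_chk
    (Polynomial.X * (Polynomial.C 4 * Polynomial.X + Polynomial.C 2) + Polynomial.C 1) ?_
  intro α
  constructor
  · rintro ⟨h1, w, h2, h3⟩
    refine ⟨w, ?_, (chk_iff α w).2 ⟨h1, h2, h3⟩⟩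
    have h6 : α.length ≤ sz α := (length_lt_sz α).le
    have h7 : ∀ a ∈ w, sz a ≤ 4 * sz α + 1 := by
      intro a ha
      have h4 := sz_nat_le a
      have h5 : Nat.size a ≤ a := by
        rw [Nat.size_le]
        exact Nat.lt_two_pow_self
      have h8 := h2.2.1 a ha
      omega
    have h9 := sz_le_length_mul _ _ h7
    have h10 := total_le_sz α
    rw [h2.1] at h9
    simp only [Polynomial.eval_add, Polynomial.eval_mul, Polynomial.eval_X, Polynomial.eval_C]
    refine h9.trans ?_
    gcongr
  · rintro ⟨w, -, h⟩
    obtain ⟨h1, h2, h3⟩ := (chk_iff α w).1 h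
    exact ⟨h1, w, h2, h3⟩

end Pool.Agent.NPC.Q325Feas
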