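import Pool.Agent.Q325.MatchDefs
import Pool.Agent.NPC.Sat

/-!
# The reduction from 3SAT to COL-2PM
-/

set_option autoImplicit false

namespace Pool.Agent.NPC.Q325TwoPM

open Pool.Agent.Q325.TwoPM

abbrev F3 : Type := List (Lit ℕ × Lit ℕ × Lit ℕ)

/-- The literal in slot `k`. -/
def lit (φ : F3) (k : ℕ) : Lit ℕ :=
  if k % 3 = 0 then (φ.getD (k / 3) ((true, 0), (true, 0), (true, 0))).1 else
  if k % 3 = 1 then (φ.getD (k / 3) ((true, 0), (true, 0), (true, 0))).2.1 else
  (φ.getD (k / 3) ((true, 0), (true, 0), (true, 0))).2.2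

/-- The variables of the slots. -/
def vars (φ : F3) : List ℕ := (List.range (3 * φ.length)).map fun k => (lit φ k).2

/-- The number of the variable of slot `k`. -/
def vid (φ : F3) (k : ℕ) : ℕ := (vars φ).idxOf (lit φ k).2

/-- The sign of slot `k`. -/
def sgn (φ : F3) (k : ℕ) : Bool := (lit φ k).1

/-- the length of a cycle is `2 R` -/
def R (φ : F3) : ℕ := 6 * φ.length

/-- the number of the vertices of one side on the cycles -/
def Bs (φ : F3) : ℕ := 3 * φ.length * R φ

def nn (φ : F3) : ℕ := Bs φ + φ.length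

/-- edges of colour 1 -/
def c1 (φ : F3) (i j : ℕ) : Bool :=
  (decide (i < Bs φ) && (decide (j < Bs φ) && (decide (i / R φ = j / R φ) &&
    (decide (i % R φ = j % R φ) || decide (i % R φ = (j % R φ + 1) % R φ))))) ||
  (decide (Bs φ ≤ i) && decide (i = j))

/-- edges of colour 2 -/
def c2 (φ : F3) (i j : ℕ) : Bool :=
  (decide (Bs φ ≤ i) && (List.range 3).any fun s =>
    decide (j = vid φ (3 * (i - Bs φ) + s) * R φ + 2 * (3 * (i - Bs φ) + s))) ||
  (decide (Bs φ ≤ j) && (List.range 3).any fun s =>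
    decide (i = vid φ (3 * (j - Bs φ) + s) * R φ + 2 * (3 * (j - Bs φ) + s) +
      if sgn φ (3 * (j - Bs φ) + s) = true then 0 else 1))

def E (φ : F3) (i j : ℕ) : ℕ := if c1 φ i j = true then 1 else if c2 φ i j = true then 2 else 0

def red (φ : F3) : List (List ℕ) :=
  (List.range (nn φ)).map fun i => (List.range (nn φ)).map fun j => E φ i j

theorem red_length (φ : F3) : (red φ).length = nn φ := by simp [red]

theorem ent_red (φ : F3) {i j : ℕ} (hi : i < nn φ) (hj : j < nn φ) : ent (red φ) i j = E φ i j := by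
  have h1 : (red φ).getD i [] = (List.range (nn φ)).map (fun j => E φ i j) := by
    unfold red
    rw [List.getD_eq_getElem _ _ (by simpa using hi)]
    simp
  unfold ent
  rw [h1, List.getD_eq_getElem _ _ (by simpa using hj)]
  simp

theorem isInst_red (φ : F3) : IsInst (red φ) := by
  intro r hr
  rw [red_length]
  unfold red at hr
  rw [List.mem_map] at hr
  obtain ⟨i, _, rfl⟩ := hr
  refine ⟨by simp, ?_⟩
  intro x hx
  rw [List.mem_map] at hx
  obtain ⟨j, _, rfl⟩ := hx
  unfold E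
  split_ifs <;> omega

theorem E_one {φ : F3} {i j : ℕ} : E φ i j = 1 ↔ c1 φ i j = true := by
  unfold E
  by_cases h1 : c1 φ i j = true
  · simp [h1]
  · by_cases h2 : c2 φ i j = true <;> simp [h1, h2]

theorem E_ne {φ : F3} {i j : ℕ} : E φ i j ≠ 0 ↔ c1 φ i j = true ∨ c2 φ i j = true := by
  unfold E
  by_cases h1 : c1 φ i j = true
  · simp [h1]
  · by_cases h2 : c2 φ i j = true <;> simp [h1, h2]

theorem c1_iff {φ : F3} {i j : ℕ} : c1 φ i j = true ↔
    (i < Bs φ ∧ j < Bs φ ∧ i / R φ = j / R φ ∧ (i % R φ = j % R φ ∨ i % R φ = (j % R φ + 1) % R φ)) ∨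
    (Bs φ ≤ i ∧ i = j) := by
  unfold c1
  simp only [Bool.or_eq_true, Bool.and_eq_true, decide_eq_true_eq]

theorem c2_iff {φ : F3} {i j : ℕ} : c2 φ i j = true ↔
    (Bs φ ≤ i ∧ ∃ s < 3, j = vid φ (3 * (i - Bs φ) + s) * R φ + 2 * (3 * (i - Bs φ) + s)) ∨
    (Bs φ ≤ j ∧ ∃ s < 3, i = vid φ (3 * (j - Bs φ) + s) * R φ + 2 * (3 * (j - Bs φ) + s) +
      if sgn φ (3 * (j - Bs φ) + s) = true then 0 else 1) := by
  unfold c2
  simp only [Bool.or_eq_true, Bool.and_eq_true, decide_eq_true_eq, List.any_eq_true,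
    List.mem_range]

theorem perm_of (n : ℕ) (f : ℕ → ℕ) (h1 : ∀ i < n, f i < n)
    (h2 : ∀ i < n, ∀ j < n, f i = f j → i = j) :
    ∃ σ : Equiv.Perm (Fin n), ∀ i, ((σ i : Fin n) : ℕ) = f i := by
  have hinj : Function.Injective (fun i : Fin n => (⟨f i, h1 i i.2⟩ : Fin n)) := by
    intro i j hij
    exact Fin.ext (h2 i i.2 j j.2 (by simpa using hij))
  exact ⟨Equiv.ofBijective _ (Finite.injective_iff_bijective.1 hinj), fun i => rfl⟩

theorem length_vars (φ : F3) : (vars φ).length = 3 * φ.length := by simp [vars]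

theorem mem_vars {φ : F3} {k : ℕ} (hk : k < 3 * φ.length) : (lit φ k).2 ∈ vars φ := by
  unfold vars
  exact List.mem_map.2 ⟨k, List.mem_range.2 hk, rfl⟩

theorem vid_lt {φ : F3} {k : ℕ} (hk : k < 3 * φ.length) : vid φ k < 3 * φ.length := by
  rw [← length_vars]
  exact List.idxOf_lt_length_of_mem (mem_vars hk)

theorem name_vid {φ : F3} {k : ℕ} (hk : k < 3 * φ.length) :
    (vars φ).getD (vid φ k) 0 = (lit φ k).2 := by
  have h := List.idxOf_lt_length_of_mem (mem_vars hk)
  unfold vid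
  rw [List.getD_eq_getElem _ _ h]
  exact List.getElem_idxOf h

/-- Satisfiability in terms of slots. -/
theorem sat_iff (φ : F3) : SAT3 φ ↔ ∃ w : ℕ → Bool, ∀ j < φ.length, ∃ s < 3,
    w (vid φ (3 * j + s)) = sgn φ (3 * j + s) := by
  have hl : ∀ (j s : ℕ), s < 3 → (3 * j + s) / 3 = j ∧ (3 * j + s) % 3 = s := fun j s hs => by
    omega
  constructor
  · rintro ⟨v, hv⟩
    refine ⟨fun x => v ((vars φ).getD x 0), fun j hj => ?_⟩
    have h := hv φ[j] (List.getElem_mem hj)
    have key : ∀ s < 3, v (lit φ (3 * j + s)).2 = (lit φ (3 * j + s)).1 →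
        ∃ s < 3, v ((vars φ).getD (vid φ (3 * j + s)) 0) = sgn φ (3 * j + s) := by
      intro s hs h
      refine ⟨s, hs, ?_⟩
      rw [name_vid (by omega)]
      exact h
    rcases h with h | h | h
    · refine key 0 (by norm_num) ?_
      unfold lit
      rw [(hl j 0 (by norm_num)).1, (hl j 0 (by norm_num)).2, List.getD_eq_getElem _ _ hj]
      exact h
    · refine key 1 (by norm_num) ?_
      unfold lit
      rw [(hl j 1 (by norm_num)).1, (hl j 1 (by norm_num)).2, List.getD_eq_getElem _ _ hj]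
      exact h
    · refine key 2 (by norm_num) ?_
      unfold lit
      rw [(hl j 2 (by norm_num)).1, (hl j 2 (by norm_num)).2, List.getD_eq_getElem _ _ hj]
      exact h
  · rintro ⟨w, hw⟩
    refine ⟨fun x => w ((vars φ).idxOf x), fun c hc => ?_⟩
    obtain ⟨j, hj, rfl⟩ := List.mem_iff_getElem.1 hc
    obtain ⟨s, hs, h⟩ := hw j hj
    unfold vid sgn lit at h
    rw [(hl j s hs).1, (hl j s hs).2, List.getD_eq_getElem _ _ hj] at h
    interval_cases s
    · left; exact h
    · right; left; exact h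
    · right; right; exact h

/-! ### Arithmetic of positions -/

section Arith

variable {φ : F3}

theorem Rpos {x : ℕ} (hx : x < 3 * φ.length) : 6 ≤ R φ := by unfold R; omega

theorem div_pos' {x r : ℕ} (hr : r < R φ) : (x * R φ + r) / R φ = x := by
  rw [mul_comm, Nat.mul_add_div (by omega), Nat.div_eq_of_lt hr, add_zero]

theorem mod_pos' {x r : ℕ} (hr : r < R φ) : (x * R φ + r) % R φ = r := by
  rw [Nat.mul_add_mod_of_lt hr]

theorem pos_lt {x r : ℕ} (hx : x < 3 * φ.length) (hr : r < R φ) : x * R φ + r < Bs φ := by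
  unfold Bs
  have : (x + 1) * R φ ≤ 3 * φ.length * R φ := Nat.mul_le_mul_right _ hx
  rw [add_mul, one_mul] at this
  omega

theorem eq_pos (i : ℕ) : i = i / R φ * R φ + i % R φ := (Nat.div_add_mod' i (R φ)).symm

theorem div_lt_of {i : ℕ} (hi : i < Bs φ) : i / R φ < 3 * φ.length := by
  apply Nat.div_lt_of_lt_mul
  rw [mul_comm]
  exact hi

/-- the predecessor on the cycle -/
def prv (φ : F3) (i : ℕ) : ℕ := i / R φ * R φ + (i % R φ + R φ - 1) % R φ

theorem prv_pos {x r : ℕ} (hr : r < R φ) : prv φ (x * R φ + r) = x * R φ + (r + R φ - 1) % R φ := by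
  unfold prv
  rw [div_pos' hr, mod_pos' hr]

end Arith

end Pool.Agent.NPC.Q325TwoPM
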