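import Pool.Agent.Q325.MatchFwd

set_option autoImplicit false

namespace Pool.Agent.NPC.Q325TwoPM

open Pool.Agent.Q325.TwoPM

variable {φ : F3}

theorem bwd (h : COL2PM (red φ)) : ∃ w : ℕ → Bool, ∀ j < φ.length, ∃ s < 3,
    w (vid φ (3 * j + s)) = sgn φ (3 * j + s) := by
  classical
  obtain ⟨-, σ', τ', h1, h2, h3⟩ := h
  have hlen := red_length φ
  -- as functions on the natural numbers
  set S : ℕ → ℕ := fun i => if hi : i < (red φ).length then ((σ' ⟨i, hi⟩ : Fin _) : ℕ) else 0 with hS
  set Tt : ℕ → ℕ := fun i => if hi : i < (red φ).length then ((τ' ⟨i, hi⟩ : Fin _) : ℕ) else 0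
    with hT
  have S1 : ∀ i < nn φ, S i < nn φ ∧ c1 φ i (S i) = true := by
    intro i hi
    have hi' : i < (red φ).length := by rw [hlen]; exact hi
    have a := h1 ⟨i, hi'⟩
    have b : ((σ' ⟨i, hi'⟩ : Fin _) : ℕ) < nn φ := lt_of_lt_of_eq (σ' ⟨i, hi'⟩).2 hlen
    simp only at a
    rw [ent_red φ hi b, E_one] at a
    simp only [hS, dif_pos hi']
    exact ⟨b, a⟩
  have T1 : ∀ i < nn φ, Tt i < nn φ ∧ (c1 φ i (Tt i) = true ∨ c2 φ i (Tt i) = true) ∧
      Tt i ≠ S i := by
    intro i hi
    have hi' : i < (red φ).length := by rw [hlen]; exact hi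
    have a := h2 ⟨i, hi'⟩
    have b : ((τ' ⟨i, hi'⟩ : Fin _) : ℕ) < nn φ := lt_of_lt_of_eq (τ' ⟨i, hi'⟩).2 hlen
    have c := h3 ⟨i, hi'⟩
    simp only at a
    rw [ent_red φ hi b, E_ne] at a
    simp only [hS, hT, dif_pos hi']
    exact ⟨b, a, fun h => c (Fin.ext h.symm)⟩
  have S2 : ∀ i < nn φ, ∀ j < nn φ, S i = S j → i = j := by
    intro i hi j hj hij
    have hi' : i < (red φ).length := by rw [hlen]; exact hi
    have hj' : j < (red φ).length := by rw [hlen]; exact hj
    simp only [hS, dif_pos hi', dif_pos hj'] at hij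
    have := σ'.injective (Fin.ext hij)
    simpa using this
  have T2 : ∀ i < nn φ, ∀ j < nn φ, Tt i = Tt j → i = j := by
    intro i hi j hj hij
    have hi' : i < (red φ).length := by rw [hlen]; exact hi
    have hj' : j < (red φ).length := by rw [hlen]; exact hj
    simp only [hT, dif_pos hi', dif_pos hj'] at hij
    have := τ'.injective (Fin.ext hij)
    simpa using this
  have hn : nn φ = Bs φ + φ.length := rfl
  -- colour 1 edges at a vertex of a cycle
  have nb : ∀ x r j, x < 3 * φ.length → r < R φ → c1 φ (x * R φ + r) j = true →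
      ∃ r' < R φ, j = x * R φ + r' ∧ (r = r' ∨ r = (r' + 1) % R φ) := by
    intro x r j hx hr h
    rw [c1_iff] at h
    have hlt := pos_lt hx hr
    rcases h with ⟨_, h2, h3, h4⟩ | ⟨h2, _⟩
    · rw [div_pos' hr] at h3
      rw [mod_pos' hr] at h4
      refine ⟨j % R φ, Nat.mod_lt _ (by omega), ?_, h4⟩
      rw [h3]
      exact eq_pos j
    · omega
  have step : ∀ x r, x < 3 * φ.length → r < R φ → S (x * R φ + r) = x * R φ + r →
      S (x * R φ + (r + 1) % R φ) = x * R φ + (r + 1) % R φ := by
    intro x r hx hr h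
    have hR := Rpos hx
    have hr1 : (r + 1) % R φ < R φ := Nat.mod_lt _ (by omega)
    have hlt := pos_lt hx hr1
    obtain ⟨r', hr', e, h'⟩ := nb x _ _ hx hr1 (S1 (x * R φ + (r + 1) % R φ) (by omega)).2
    rcases h' with h' | h'
    · rw [e, h']
    · exfalso
      have e2 : r' = r := by
        rcases Nat.lt_or_ge (r + 1) (R φ) with h5 | h5 <;>
        rcases Nat.lt_or_ge (r' + 1) (R φ) with h6 | h6
        · rw [Nat.mod_eq_of_lt h5, Nat.mod_eq_of_lt h6] at h'; omega
        · rw [Nat.mod_eq_of_lt h5, show r' + 1 = R φ by omega, Nat.mod_self] at h'; omega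
        · rw [Nat.mod_eq_of_lt h6, show r + 1 = R φ by omega, Nat.mod_self] at h'; omega
        · omega
      rw [e2, ← h] at e
      have hlt' := pos_lt hx hr
      have := S2 _ (by omega) _ (by omega) e
      have h7 : (r + 1) % R φ = r := by omega
      rcases Nat.lt_or_ge (r + 1) (R φ) with h5 | h5
      · rw [Nat.mod_eq_of_lt h5] at h7; omega
      · rw [show r + 1 = R φ by omega, Nat.mod_self] at h7; omega
  have all0 : ∀ x, x < 3 * φ.length → S (x * R φ) = x * R φ → ∀ r < R φ,
      S (x * R φ + r) = x * R φ + r := by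
    intro x hx h r
    induction r with
    | zero => intro _; simpa using h
    | succ r ih =>
      intro hr
      have := step x r hx (by omega) (ih (by omega))
      rwa [Nat.mod_eq_of_lt hr] at this
  have all1 : ∀ x, x < 3 * φ.length → ∀ r < R φ, S (x * R φ + r) = x * R φ + r →
      S (x * R φ) = x * R φ := by
    intro x hx r hr h
    have key : ∀ d, r + d < R φ → S (x * R φ + (r + d)) = x * R φ + (r + d) := by
      intro d
      induction d with
      | zero => intro _; simpa using h
      | succ d ih =>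
        intro hd
        have := step x (r + d) hx (by omega) (ih (by omega))
        rwa [Nat.mod_eq_of_lt (by omega)] at this
    have h4 := step x (r + (R φ - 1 - r)) hx (by omega) (key _ (by omega))
    rw [show r + (R φ - 1 - r) + 1 = R φ by omega, Nat.mod_self] at h4
    simpa using h4
  refine ⟨fun x => decide (S (x * R φ) ≠ x * R φ), fun j hj => ?_⟩
  have hi : Bs φ + j < nn φ := by omega
  -- the vertex of the clause
  have hSj : S (Bs φ + j) = Bs φ + j := by
    have h := (S1 _ hi).2
    rw [c1_iff] at h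
    rcases h with ⟨h, _⟩ | ⟨_, h⟩
    · omega
    · exact h.symm
  obtain ⟨hT1, hT2, hT3⟩ := T1 _ hi
  rw [hSj] at hT3
  have hT4 : ∃ s < 3, Tt (Bs φ + j) = vid φ (3 * j + s) * R φ + 2 * (3 * j + s) := by
    rcases hT2 with h | h
    · rw [c1_iff] at h
      rcases h with ⟨h, _⟩ | ⟨_, h⟩
      · omega
      · exact absurd h.symm hT3
    · rw [c2_iff] at h
      rcases h with ⟨_, s, hs, h⟩ | ⟨h, s, hs, h'⟩
      · rw [show Bs φ + j - Bs φ = j by omega] at h
        exact ⟨s, hs, h⟩
      · exfalso
        have hx := vid_lt (φ := φ) (k := 3 * (Tt (Bs φ + j) - Bs φ) + s) (by omega)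
        have := pos_lt (φ := φ) hx (r := 2 * (3 * (Tt (Bs φ + j) - Bs φ) + s) +
          if sgn φ (3 * (Tt (Bs φ + j) - Bs φ) + s) = true then 0 else 1) (by
            rw [R_eq]; split_ifs <;> omega)
        omega
  obtain ⟨s, hs, hTk⟩ := hT4
  refine ⟨s, hs, ?_⟩
  set k := 3 * j + s with hk
  have hk3 : k < 3 * φ.length := by omega
  set x := vid φ k with hx
  have hx3 : x < 3 * φ.length := vid_lt hk3
  have hR := Rpos hx3
  have hkR : 2 * k + 1 < R φ := by rw [R_eq]; omega
  -- the slots at a vertex of the cycle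
  have slot : ∀ r y, r < R φ → c2 φ (x * R φ + r) y = true → y < nn φ → ∃ k' < 3 * φ.length,
      r = 2 * k' + if sgn φ k' = true then 0 else 1 := by
    intro r y hr h hy
    rw [c2_iff] at h
    have hlt := pos_lt hx3 hr
    rcases h with ⟨h, _⟩ | ⟨h, s', hs', h'⟩
    · omega
    · set k' := 3 * (y - Bs φ) + s' with hk'
      refine ⟨k', by omega, ?_⟩
      have hb : 2 * k' + (if sgn φ k' = true then 0 else 1) < R φ := by
        rw [R_eq]; split_ifs <;> omega
      have e : (x * R φ + r) % R φ =
          (vid φ k' * R φ + 2 * k' + if sgn φ k' = true then 0 else 1) % R φ := by rw [h']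
      rw [mod_pos' hr, add_assoc, mod_pos' hb] at e
      exact e
  by_contra hne
  by_cases hw : S (x * R φ) = x * R φ
  · -- the variable is false, the literal is positive
    have hsg : sgn φ k = true := by
      have hd : decide (S (x * R φ) ≠ x * R φ) = false := by simp [hw]
      have hne' : decide (S (x * R φ) ≠ x * R φ) ≠ sgn φ k := hne
      rw [hd] at hne'
      cases h : sgn φ k
      · exact absurd h.symm hne'
      · rfl
    have hlt := pos_lt hx3 hkR
    have hSi := all0 x hx3 hw (2 * k + 1) hkR
    obtain ⟨a1, a2, a3⟩ := T1 (x * R φ + (2 * k + 1)) (by omega)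
    rw [hSi] at a3
    rcases a2 with h | h
    · obtain ⟨r', hr', e, h'⟩ := nb x _ _ hx3 hkR h
      rcases h' with h' | h'
      · exact a3 (by rw [e, ← h'])
      · have e2 : r' = 2 * k := by
          rcases Nat.lt_or_ge (r' + 1) (R φ) with h6 | h6
          · rw [Nat.mod_eq_of_lt h6] at h'; omega
          · rw [show r' + 1 = R φ by omega, Nat.mod_self] at h'; omega
        rw [e2, ← hTk] at e
        have := T2 _ (by omega) _ hi e
        omega
    · obtain ⟨k', hk', e⟩ := slot _ _ hkR h a1
      split_ifs at e with h7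
      · omega
      · have : k' = k := by omega
        rw [this] at h7
        exact h7 hsg
  · -- the variable is true, the literal is negative
    have hsg : sgn φ k = false := by
      have hd : decide (S (x * R φ) ≠ x * R φ) = true := by simp [hw]
      have hne' : decide (S (x * R φ) ≠ x * R φ) ≠ sgn φ k := hne
      rw [hd] at hne'
      cases h : sgn φ k
      · rfl
      · exact absurd h.symm hne'
    have hlt := pos_lt hx3 (r := 2 * k) (by omega)
    have hSi : S (x * R φ + 2 * k) ≠ x * R φ + 2 * k := fun h =>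
      hw (all1 x hx3 (2 * k) (by omega) h)
    obtain ⟨q, hq, eq, h'q⟩ := nb x _ _ hx3 (by omega) (S1 (x * R φ + 2 * k) (by omega)).2
    have hq2 : 2 * k = (q + 1) % R φ := by
      rcases h'q with h | h
      · rw [← h] at eq
        exact absurd eq hSi
      · exact h
    obtain ⟨a1, a2, a3⟩ := T1 (x * R φ + 2 * k) (by omega)
    rcases a2 with h | h
    · obtain ⟨r', hr', e, h'⟩ := nb x _ _ hx3 (by omega) h
      rcases h' with h' | h'
      · rw [← h', ← hTk] at e
        have := T2 _ (by omega) _ hi e
        omega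
      · apply a3
        rw [e, eq]
        congr 1
        rw [h'] at hq2
        rcases Nat.lt_or_ge (r' + 1) (R φ) with h5 | h5 <;>
        rcases Nat.lt_or_ge (q + 1) (R φ) with h6 | h6
        · rw [Nat.mod_eq_of_lt h5, Nat.mod_eq_of_lt h6] at hq2; omega
        · rw [Nat.mod_eq_of_lt h5, show q + 1 = R φ by omega, Nat.mod_self] at hq2; omega
        · rw [Nat.mod_eq_of_lt h6, show r' + 1 = R φ by omega, Nat.mod_self] at hq2; omega
        · omega
    · obtain ⟨k', hk', e⟩ := slot _ _ (by omega) h a1
      split_ifs at e with h7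
      · have : k' = k := by omega
        rw [this, hsg] at h7
        exact absurd h7 (by simp)
      · omega

/-- The reduction is correct. -/
theorem red_correct (φ : F3) : SAT3 φ ↔ COL2PM (red φ) := by
  rw [sat_iff]
  constructor
  · rintro ⟨w, hw⟩
    exact fwd hw
  · exact bwd

end Pool.Agent.NPC.Q325TwoPM
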