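import Mathlib

/-!
# Pairs of edge-disjoint perfect matchings with a monochromatic first matching: definitions
-/

set_option autoImplicit false

namespace Pool.Agent.Q325.TwoPM

/-- The entry in row `i` and column `j`. -/
def ent (M : List (List ℕ)) (i j : ℕ) : ℕ := (M.getD i []).getD j 0

/-- `M` is the matrix of a 2-edge-coloured bipartite graph with `n = M.length` vertices on each
side: it has `n` rows of length `n`, and its entries are `0` (no edge), `1` or `2` (an edge of this
colour). -/
def IsInst (M : List (List ℕ)) : Prop := ∀ r ∈ M, r.length = M.length ∧ ∀ x ∈ r, x ≤ 2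

/-- COL-2PM: there are perfect matchings `σ` and `τ` without a common edge, all edges of `σ` having
colour `1`. -/
def COL2PM (M : List (List ℕ)) : Prop :=
  IsInst M ∧ ∃ σ τ : Equiv.Perm (Fin M.length),
    (∀ i : Fin M.length, ent M i (σ i) = 1) ∧ (∀ i : Fin M.length, ent M i (τ i) ≠ 0) ∧
      ∀ i, σ i ≠ τ i

end Pool.Agent.Q325.TwoPM
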