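import Pool.Agent.Q325.Match

set_option autoImplicit false

namespace Pool.Agent.NPC.Q325TwoPM

open Pool.Agent.Q325.TwoPM

variable {φ : F3}

theorem phi_pos {i : ℕ} (hi : i < Bs φ) : 1 ≤ φ.length := by
  by_contra h
  have : φ.length = 0 := by omega
  unfold Bs at hi
  rw [this] at hi
  omega

theorem R_eq (φ : F3) : R φ = 6 * φ.length := rfl

theorem pred_mod {r : ℕ} (hr : r < R φ) : (r + R φ - 1) % R φ = if r = 0 then R φ - 1 else r - 1 := by
  split_ifs with h
  · subst h
    rw [zero_add]
    exact Nat.mod_eq_of_lt (by omega)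
  · rw [show r + R φ - 1 = r - 1 + R φ by omega, Nat.add_mod_right]
    exact Nat.mod_eq_of_lt (by omega)

theorem prv_spec {i : ℕ} (hi : i < Bs φ) : prv φ i < Bs φ ∧ prv φ i / R φ = i / R φ ∧
    (prv φ i % R φ + 1) % R φ = i % R φ ∧ prv φ i % R φ ≠ i % R φ := by
  have hm := phi_pos hi
  have hR : 6 ≤ R φ := by rw [R_eq]; omega
  have hr : i % R φ < R φ := Nat.mod_lt _ (by omega)
  have hr2 : (i % R φ + R φ - 1) % R φ < R φ := Nat.mod_lt _ (by omega)
  unfold prv
  rw [div_pos' hr2, mod_pos' hr2]
  refine ⟨pos_lt (div_lt_of hi) hr2, rfl, ?_, ?_⟩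
  · rw [pred_mod hr]
    split_ifs with h
    · rw [h, show R φ - 1 + 1 = R φ by omega, Nat.mod_self]
    · rw [show i % R φ - 1 + 1 = i % R φ by omega, Nat.mod_eq_of_lt hr]
  · rw [pred_mod hr]
    split_ifs with h <;> omega

theorem prv_inj {i j : ℕ} (hi : i < Bs φ) (hj : j < Bs φ) (h : prv φ i = prv φ j) : i = j := by
  obtain ⟨-, h2, h3, -⟩ := prv_spec hi
  obtain ⟨-, h2', h3', -⟩ := prv_spec hj
  rw [eq_pos (φ := φ) i, eq_pos (φ := φ) j, ← h2, ← h3, ← h2', ← h3', h]

theorem c1_self (i : ℕ) : c1 φ i i = true := by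
  rw [c1_iff]
  rcases Nat.lt_or_ge i (Bs φ) with h | h
  · exact Or.inl ⟨h, h, rfl, Or.inl rfl⟩
  · exact Or.inr ⟨h, rfl⟩

theorem c1_prv {i : ℕ} (hi : i < Bs φ) : c1 φ i (prv φ i) = true := by
  rw [c1_iff]
  obtain ⟨h1, h2, h3, -⟩ := prv_spec hi
  exact Or.inl ⟨hi, h1, h2.symm, Or.inr h3.symm⟩

theorem fwd {w : ℕ → Bool} (hw : ∀ j < φ.length, ∃ s < 3,
    w (vid φ (3 * j + s)) = sgn φ (3 * j + s)) : COL2PM (red φ) := by
  classical
  refine ⟨isInst_red φ, ?_⟩
  choose! sj hsj using hw
  set κ : ℕ → ℕ := fun j => 3 * j + sj j with hκ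
  have k1 : ∀ j < φ.length, κ j < 3 * φ.length ∧ κ j / 3 = j ∧ w (vid φ (κ j)) = sgn φ (κ j) := by
    intro j hj
    have h := hsj j hj
    simp only [hκ]
    exact ⟨by omega, by omega, h.2⟩
  set fM : ℕ → ℕ := fun i => if i < Bs φ then (if w (i / R φ) = true then prv φ i else i) else i
    with hfM
  set spec : ℕ → Prop := fun i => κ (i % R φ / 6) = i % R φ / 2 ∧ vid φ (i % R φ / 2) = i / R φ ∧
    i % R φ % 2 = (if sgn φ (i % R φ / 2) = true then 0 else 1) with hspec
  set gM : ℕ → ℕ := fun i => if i < Bs φ then (if spec i then Bs φ + i % R φ / 6 else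
    (if w (i / R φ) = true then i else prv φ i)) else
      vid φ (κ (i - Bs φ)) * R φ + 2 * κ (i - Bs φ) with hgM
  have fB : ∀ i, i < Bs φ → fM i < Bs φ := by
    intro i hi
    simp only [hfM, if_pos hi]
    split_ifs
    · exact (prv_spec hi).1
    · exact hi
  have fB' : ∀ i, Bs φ ≤ i → fM i = i := by
    intro i hi
    simp only [hfM, if_neg (not_lt.2 hi)]
  have hn : nn φ = Bs φ + φ.length := rfl
  have hmod : ∀ i, i < Bs φ → i % R φ < 6 * φ.length := by
    intro i hi
    have := phi_pos hi
    rw [← R_eq]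
    exact Nat.mod_lt _ (by rw [R_eq]; omega)
  have gB : ∀ i, i < Bs φ → ¬ spec i → gM i = (if w (i / R φ) = true then i else prv φ i) ∧
      gM i < Bs φ ∧ gM i / R φ = i / R φ := by
    intro i hi hs
    simp only [hgM, if_pos hi, if_neg hs]
    split_ifs
    · exact ⟨trivial, hi, rfl⟩
    · exact ⟨trivial, (prv_spec hi).1, (prv_spec hi).2.1⟩
  have gS : ∀ i, i < Bs φ → spec i → gM i = Bs φ + i % R φ / 6 ∧ i % R φ / 6 < φ.length := by
    intro i hi hs
    have := hmod i hi
    simp only [hgM, if_pos hi, if_pos hs]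
    exact ⟨trivial, by omega⟩
  have gU : ∀ i, Bs φ ≤ i → i < nn φ → gM i = vid φ (κ (i - Bs φ)) * R φ + 2 * κ (i - Bs φ) ∧
      gM i < Bs φ ∧ 2 * κ (i - Bs φ) + 1 < R φ := by
    intro i hi hin
    have h1 := k1 (i - Bs φ) (by omega)
    simp only [hgM, if_neg (not_lt.2 hi)]
    have h2 : 2 * κ (i - Bs φ) + 1 < R φ := by rw [R_eq]; omega
    exact ⟨trivial, pos_lt (vid_lt h1.1) (by omega), h2⟩
  obtain ⟨σ, hσ⟩ := perm_of (red φ).length fM (by
    intro i hi
    rw [red_length] at hi ⊢
    rcases Nat.lt_or_ge i (Bs φ) with h | h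
    · have := fB i h
      omega
    · rw [fB' i h]; exact hi) (by
    intro i hi j hj hij
    rw [red_length] at hi hj
    rcases Nat.lt_or_ge i (Bs φ) with h | h <;> rcases Nat.lt_or_ge j (Bs φ) with h' | h'
    · have hd : i / R φ = j / R φ := by
        have e1 : fM i / R φ = i / R φ := by
          simp only [hfM, if_pos h]
          split_ifs
          · exact (prv_spec h).2.1
          · rfl
        have e2 : fM j / R φ = j / R φ := by
          simp only [hfM, if_pos h']
          split_ifs
          · exact (prv_spec h').2.1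
          · rfl
        rw [← e1, ← e2, hij]
      simp only [hfM, if_pos h, if_pos h', hd] at hij
      split_ifs at hij
      · exact prv_inj h h' hij
      · exact hij
    · have := fB i h
      rw [fB' j h'] at hij
      omega
    · have := fB j h'
      rw [fB' i h] at hij
      omega
    · rw [fB' i h, fB' j h'] at hij
      exact hij)
  obtain ⟨τ, hτ⟩ := perm_of (red φ).length gM (by
    intro i hi
    rw [red_length] at hi ⊢
    rcases Nat.lt_or_ge i (Bs φ) with h | h
    · by_cases hs : spec i
      · have := gS i h hs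
        omega
      · have := gB i h hs
        omega
    · have := gU i h hi
      omega) (by
    intro i hi j hj hij
    rw [red_length] at hi hj
    -- the main case: a vertex outside and a vertex on a cycle
    have key : ∀ i j, i < nn φ → Bs φ ≤ i → j < Bs φ → gM i ≠ gM j := by
      intro i j hi h h' hij
      obtain ⟨e1, e2, e3⟩ := gU i h hi
      obtain ⟨k2, k3, k4⟩ := k1 (i - Bs φ) (by omega)
      by_cases hs : spec j
      · have := gS j h' hs
        omega
      · obtain ⟨d1, d2, d3⟩ := gB j h' hs
        set k := κ (i - Bs φ) with hk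
        have a1 : gM i / R φ = vid φ k := by rw [e1, div_pos' (by omega)]
        have a2 : gM i % R φ = 2 * k := by rw [e1, mod_pos' (by omega)]
        have a3 : j / R φ = vid φ k := by rw [← d3, ← hij, a1]
        apply hs
        have a4 : i - Bs φ = k / 3 := k3.symm
        have a5 : κ (k / 3) = k := by rw [← a4]
        have a6 : sgn φ k = w (j / R φ) := by rw [a3]; exact k4.symm
        have a7 : j % R φ = 2 * k + (if sgn φ k = true then 0 else 1) := by
          by_cases hws : w (j / R φ) = true
          · rw [if_pos hws] at d1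
            rw [a6, hws, if_pos rfl, ← d1, ← hij, a2]
            rfl
          · rw [if_neg hws] at d1
            rw [a6, if_neg hws]
            have b1 := (prv_spec h').2.2.1
            rw [← d1, ← hij, a2] at b1
            rw [← b1]
            exact Nat.mod_eq_of_lt e3
        have a8 : j % R φ / 2 = k := by
          rw [a7]
          split_ifs <;> omega
        have a9 : j % R φ / 6 = k / 3 := by
          rw [a7]
          split_ifs <;> omega
        simp only [hspec]
        rw [a8, a9]
        refine ⟨a5, a3.symm, ?_⟩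
        rw [a7]
        split_ifs <;> omega
    rcases Nat.lt_or_ge i (Bs φ) with h | h <;> rcases Nat.lt_or_ge j (Bs φ) with h' | h'
    · by_cases hs : spec i <;> by_cases hs' : spec j
      · have b1 := gS i h hs
        have b2 := gS j h' hs'
        have b3 : i % R φ / 6 = j % R φ / 6 := by omega
        simp only [hspec] at hs hs'
        have b4 : i % R φ / 2 = j % R φ / 2 := by rw [← hs.1, ← hs'.1, b3]
        have b5 : i / R φ = j / R φ := by rw [← hs.2.1, ← hs'.2.1, b4]
        have b6 : i % R φ % 2 = j % R φ % 2 := by rw [hs.2.2, hs'.2.2, b4]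
        have b7 : i % R φ = j % R φ := by omega
        rw [eq_pos (φ := φ) i, eq_pos (φ := φ) j, b5, b7]
      · have b1 := gS i h hs
        have b2 := gB j h' hs'
        omega
      · have b1 := gB i h hs
        have b2 := gS j h' hs'
        omega
      · have b1 := gB i h hs
        have b2 := gB j h' hs'
        have hd : i / R φ = j / R φ := by rw [← b1.2.2, ← b2.2.2, hij]
        rw [b1.1, b2.1, hd] at hij
        split_ifs at hij
        · exact hij
        · exact prv_inj h h' hij
    · exact absurd hij.symm (key j i hj h' h)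
    · exact absurd hij (key i j hi h h')
    · obtain ⟨e1, e2, e3⟩ := gU i h hi
      obtain ⟨e1', e2', e3'⟩ := gU j h' hj
      have a2 : gM i % R φ = 2 * κ (i - Bs φ) := by rw [e1, mod_pos' (by omega)]
      have a2' : gM j % R φ = 2 * κ (j - Bs φ) := by rw [e1', mod_pos' (by omega)]
      rw [hij, a2'] at a2
      have c1 := (k1 (i - Bs φ) (by omega)).2.1
      have c2 := (k1 (j - Bs φ) (by omega)).2.1
      have c3 : κ (j - Bs φ) = κ (i - Bs φ) := by omega
      rw [c3, c1] at c2
      omega)
  have hlen := red_length φ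
  refine ⟨σ, τ, ?_, ?_, ?_⟩
  · intro i
    have hi : (i : ℕ) < nn φ := by rw [← hlen]; exact i.2
    have hf : fM i < nn φ := by rw [← hσ, ← hlen]; exact Fin.is_lt _
    rw [hσ, ent_red φ hi hf, E_one]
    simp only [hfM]
    split_ifs with h1 h2
    · exact c1_prv h1
    · exact c1_self _
    · exact c1_self _
  · intro i
    have hi : (i : ℕ) < nn φ := by rw [← hlen]; exact i.2
    have hf : gM i < nn φ := by rw [← hτ, ← hlen]; exact Fin.is_lt _
    rw [hτ, ent_red φ hi hf, E_ne]
    rcases Nat.lt_or_ge (i : ℕ) (Bs φ) with h | h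
    · by_cases hs : spec i
      · obtain ⟨b1, b2⟩ := gS i h hs
        right
        rw [c2_iff]
        right
        refine ⟨by omega, ?_⟩
        simp only [hspec] at hs
        obtain ⟨s1, s2, s3⟩ := hs
        have c1 := hsj ((i : ℕ) % R φ / 6) b2
        refine ⟨sj ((i : ℕ) % R φ / 6), c1.1, ?_⟩
        have c2 : 3 * (gM i - Bs φ) + sj ((i : ℕ) % R φ / 6) = (i : ℕ) % R φ / 2 := by
          rw [b1, ← s1]
          simp only [hκ]
          omega
        rw [c2, s2, ← s3]
        have c3 := eq_pos (φ := φ) (i : ℕ)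
        omega
      · left
        rw [(gB i h hs).1]
        split_ifs
        · exact c1_self _
        · exact c1_prv h
    · right
      rw [c2_iff]
      left
      obtain ⟨e1, e2, e3⟩ := gU i h hi
      refine ⟨h, sj ((i : ℕ) - Bs φ), (hsj _ (by omega)).1, ?_⟩
      rw [e1]
  · intro i hi2
    have hi : (i : ℕ) < nn φ := by rw [← hlen]; exact i.2
    have h3 : fM i = gM i := by rw [← hσ, ← hτ, hi2]
    rcases Nat.lt_or_ge (i : ℕ) (Bs φ) with h | h
    · have h4 := fB i h
      by_cases hs : spec i
      · have := gS i h hs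
        omega
      · have h5 := (gB i h hs).1
        have h6 := (prv_spec h).2.2.2
        rw [h5] at h3
        simp only [hfM, if_pos h] at h3
        split_ifs at h3
        · rw [h3] at h6
          exact h6 rfl
        · rw [← h3] at h6
          exact h6 rfl
    · rw [fB' i h] at h3
      have := gU i h hi
      omega

end Pool.Agent.NPC.Q325TwoPM
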