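import Pool.Agent.Q325.MatchBwd
import Pool.Agent.H612.CollectPoly
import Pool.Agent.H671R2.PolyAuto
import Pool.Agent.NPC.Dec

set_option autoImplicit false

namespace Pool.Agent.NPC.Q325TwoPM

open Pool.Agent.Q325.TwoPM

section

variable {α : Type} [TEnc α]

theorem poly_lit {φ : α → F3} {k : α → ℕ} (hφ : Poly φ) (hk : Poly k) :
    Poly (fun a => lit (φ a) (k a)) := by
  unfold lit
  have h1 : Poly (fun a => k a % 3) := by fun_prop
  have h2 : Poly (fun a => k a / 3) := by fun_prop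
  have h3 : Poly (fun a => (φ a).getD (k a / 3) ((true, 0), (true, 0), (true, 0))) :=
    Poly.getD hφ h2 (Poly.const _)
  refine Poly.ite (p := fun a => k a % 3 = 0) (Poly.decide_eq h1 (Poly.const 0)) (Poly.fst h3) ?_
  exact Poly.ite (p := fun a => k a % 3 = 1) (Poly.decide_eq h1 (Poly.const 1))
    (Poly.fst (Poly.snd h3)) (Poly.snd (Poly.snd h3))

theorem uR {φ : α → F3} (hφ : Poly φ) : UPoly (fun a => R (φ a)) :=
  UPoly.mul (UPoly.const 6) (UPoly.length hφ)

theorem uBs {φ : α → F3} (hφ : Poly φ) : UPoly (fun a => Bs (φ a)) :=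
  UPoly.mul (UPoly.mul (UPoly.const 3) (UPoly.length hφ)) (uR hφ)

theorem unn {φ : α → F3} (hφ : Poly φ) : UPoly (fun a => nn (φ a)) :=
  UPoly.add (uBs hφ) (UPoly.length hφ)

theorem poly_vars {φ : α → F3} (hφ : Poly φ) : Poly (fun a => vars (φ a)) := by
  unfold vars
  exact Poly.map (F := fun a k => (lit (φ a) k).2)
    (UPoly.mul (UPoly.const 3) (UPoly.length hφ)).range
    (Poly.snd (poly_lit (hφ.comp (Poly.fst Poly.id)) (Poly.snd Poly.id)))

theorem poly_vid {φ : α → F3} {k : α → ℕ} (hφ : Poly φ) (hk : Poly k) :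
    Poly (fun a => vid (φ a) (k a)) := by
  unfold vid
  exact H612.poly_idxOf (poly_vars hφ) (Poly.snd (poly_lit hφ hk))

theorem poly_c1 {φ : α → F3} {i j : α → ℕ} (hφ : Poly φ) (hi : Poly i) (hj : Poly j) :
    Poly (fun a => c1 (φ a) (i a) (j a)) := by
  have hR := (uR hφ).toPoly
  have hB := (uBs hφ).toPoly
  unfold c1
  refine Poly.or (Poly.and (Poly.decide_lt hi hB) (Poly.and (Poly.decide_lt hj hB)
    (Poly.and (Poly.decide_eq (Poly.div hi hR) (Poly.div hj hR))
    (Poly.or (Poly.decide_eq (Poly.mod hi hR) (Poly.mod hj hR))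
      (Poly.decide_eq (Poly.mod hi hR) (Poly.mod (Poly.add (Poly.mod hj hR) (Poly.const 1)) hR))))))
    (Poly.and (Poly.decide_le hB hi) (Poly.decide_eq hi hj))

theorem poly_c2 {φ : α → F3} {i j : α → ℕ} (hφ : Poly φ) (hi : Poly i) (hj : Poly j) :
    Poly (fun a => c2 (φ a) (i a) (j a)) := by
  have hR := (uR hφ).toPoly
  have hB := (uBs hφ).toPoly
  have key : ∀ {u : α → ℕ}, Poly u → Poly (fun p : α × ℕ => 3 * (u p.1 - Bs (φ p.1)) + p.2) := by
    intro u hu
    have h1 : Poly (fun p : α × ℕ => u p.1) := hu.comp (Poly.fst Poly.id)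
    have h2 : Poly (fun p : α × ℕ => Bs (φ p.1)) := hB.comp (Poly.fst Poly.id)
    exact Poly.add (Poly.mul (Poly.const 3) (Poly.sub h1 h2)) (Poly.snd Poly.id)
  have kv : ∀ {u : α → ℕ}, Poly u → Poly (fun p : α × ℕ =>
      vid (φ p.1) (3 * (u p.1 - Bs (φ p.1)) + p.2) * R (φ p.1) +
        2 * (3 * (u p.1 - Bs (φ p.1)) + p.2)) := by
    intro u hu
    exact Poly.add (Poly.mul (poly_vid (hφ.comp (Poly.fst Poly.id)) (key hu))
      (hR.comp (Poly.fst Poly.id))) (Poly.mul (Poly.const 2) (key hu))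
  unfold c2
  refine Poly.or (Poly.and (Poly.decide_le hB hi) ?_) (Poly.and (Poly.decide_le hB hj) ?_)
  · refine Poly.any (p := fun a s => decide (j a = vid (φ a) (3 * (i a - Bs (φ a)) + s) * R (φ a) +
      2 * (3 * (i a - Bs (φ a)) + s))) (Poly.const (List.range 3)) ?_
    exact Poly.decide_eq (hj.comp (Poly.fst Poly.id)) (kv hi)
  · refine Poly.any (p := fun a s => decide (i a = vid (φ a) (3 * (j a - Bs (φ a)) + s) * R (φ a) +
      2 * (3 * (j a - Bs (φ a)) + s) + if sgn (φ a) (3 * (j a - Bs (φ a)) + s) = true then 0 else 1))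
      (Poly.const (List.range 3)) ?_
    have hs : Poly (fun p : α × ℕ => sgn (φ p.1) (3 * (j p.1 - Bs (φ p.1)) + p.2)) :=
      Poly.fst (poly_lit (hφ.comp (Poly.fst Poly.id)) (key hj))
    exact Poly.decide_eq (hi.comp (Poly.fst Poly.id)) (Poly.add (kv hj)
      (Poly.ite (p := fun p : α × ℕ => sgn (φ p.1) (3 * (j p.1 - Bs (φ p.1)) + p.2) = true)
        (Poly.decide_bool hs) (Poly.const 0) (Poly.const 1)))

end

theorem poly_red : Poly red := by
  unfold red
  have hp : Poly (fun φ : F3 => φ) := Poly.id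
  refine Poly.map (F := fun (φ : F3) i => (List.range (nn φ)).map fun j => E φ i j)
    (unn hp).range ?_
  have hp2 : Poly (fun p : F3 × ℕ => p.1) := Poly.fst Poly.id
  refine Poly.map (F := fun (p : F3 × ℕ) j => E p.1 p.2 j) (unn hp2).range ?_
  have hp3 : Poly (fun p : (F3 × ℕ) × ℕ => p.1.1) := Poly.fst (Poly.fst Poly.id)
  have hi : Poly (fun p : (F3 × ℕ) × ℕ => p.1.2) := Poly.snd (Poly.fst Poly.id)
  have hj : Poly (fun p : (F3 × ℕ) × ℕ => p.2) := Poly.snd Poly.id
  unfold E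
  exact Poly.ite (p := fun p : (F3 × ℕ) × ℕ => c1 p.1.1 p.1.2 p.2 = true)
    (Poly.decide_bool (poly_c1 hp3 hi hj)) (Poly.const 1)
    (Poly.ite (p := fun p : (F3 × ℕ) × ℕ => c2 p.1.1 p.1.2 p.2 = true)
      (Poly.decide_bool (poly_c2 hp3 hi hj)) (Poly.const 2) (Poly.const 0))

theorem hard : NPHardP COL2PM := (hardI_SAT3.trans poly_red red_correct).toNPHardP

/-! ### Membership -/

/-- The verifier. -/
def chk (p : List (List ℕ) × (List ℕ × List ℕ)) : Bool :=
  (p.1.all fun r => decide (r.length = p.1.length) && r.all fun x => decide (x ≤ 2)) &&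
  ((List.range p.1.length).all fun i =>
    (decide (p.2.1.getD i 0 < p.1.length) && decide (p.2.2.getD i 0 < p.1.length)) &&
    ((decide (ent p.1 i (p.2.1.getD i 0) = 1) && (!decide (ent p.1 i (p.2.2.getD i 0) = 0) &&
      !decide (p.2.1.getD i 0 = p.2.2.getD i 0))) &&
    (List.range p.1.length).all fun j => decide (i = j) ||
      (!decide (p.2.1.getD i 0 = p.2.1.getD j 0) && !decide (p.2.2.getD i 0 = p.2.2.getD j 0))))

theorem chk_iff (M : List (List ℕ)) (s t : List ℕ) : chk (M, s, t) = true ↔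
    IsInst M ∧ ∀ i < M.length, (s.getD i 0 < M.length ∧ t.getD i 0 < M.length) ∧
      (ent M i (s.getD i 0) = 1 ∧ ent M i (t.getD i 0) ≠ 0 ∧ s.getD i 0 ≠ t.getD i 0) ∧
      ∀ j < M.length, i = j ∨ (s.getD i 0 ≠ s.getD j 0 ∧ t.getD i 0 ≠ t.getD j 0) := by
  unfold chk IsInst
  simp only [Bool.and_eq_true, List.all_eq_true, decide_eq_true_eq, List.mem_range,
    Bool.not_eq_true', decide_eq_false_iff_not, Bool.or_eq_true, ne_eq]

theorem poly_chk : Poly chk := by
  unfold chk ent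
  have hr : ∀ {α β : Type} [TEnc α] [TEnc β] {f : α → List β}, Poly f →
      Poly (fun a => List.range (f a).length) := fun hf => Poly.range_length hf
  refine Poly.and ?_ ?_
  · refine Poly.all (p := fun (p : List (List ℕ) × (List ℕ × List ℕ)) (r : List ℕ) =>
      decide (r.length = p.1.length) && r.all fun x => decide (x ≤ 2)) (Poly.fst Poly.id) ?_
    refine Poly.and (by fun_prop) ?_
    exact Poly.all (p := fun _ x => decide (x ≤ 2)) (Poly.snd Poly.id) (by fun_prop)
  · refine Poly.all (hr (Poly.fst Poly.id)) ?_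
    refine Poly.and (by fun_prop) (Poly.and (by fun_prop) ?_)
    refine Poly.all (hr (Poly.fst (Poly.fst Poly.id))) ?_
    fun_prop

theorem inNPP : InNPP COL2PM := by
  refine inNPP_of (β := List ℕ × List ℕ) poly_chk
    (Polynomial.C 2 * (Polynomial.X * (Polynomial.C 4 * Polynomial.X + Polynomial.C 2) +
      Polynomial.C 1) + Polynomial.C 1) ?_
  intro M
  constructor
  · rintro ⟨h1, σ, τ, h2, h3, h4⟩
    have hget : ∀ (ρ : Equiv.Perm (Fin M.length)) (k : ℕ) (hk : k < M.length),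
        (List.ofFn fun i => ((ρ i : Fin _) : ℕ)).getD k 0 = (ρ ⟨k, hk⟩ : Fin _) := by
      intro ρ k hk
      rw [List.getD_eq_getElem _ _ (by simpa using hk)]
      simp
    have hsz : ∀ ρ : Equiv.Perm (Fin M.length),
        sz (List.ofFn fun i => ((ρ i : Fin _) : ℕ)) ≤ sz M * (4 * sz M + 2) + 1 := by
      intro ρ
      have h6 : M.length ≤ sz M := (length_lt_sz M).le
      have h2 : ∀ a ∈ List.ofFn (fun i => ((ρ i : Fin _) : ℕ)), sz a ≤ 4 * sz M + 1 := by
        intro a ha
        rw [List.mem_ofFn] at ha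
        obtain ⟨i, rfl⟩ := ha
        have h3 := sz_nat_le ((ρ i : Fin _) : ℕ)
        have h4 : Nat.size ((ρ i : Fin _) : ℕ) ≤ ((ρ i : Fin _) : ℕ) := by
          rw [Nat.size_le]
          exact Nat.lt_two_pow_self
        have h5 := (ρ i).2
        omega
      have h7 := sz_le_length_mul _ _ h2
      rw [List.length_ofFn] at h7
      refine h7.trans ?_
      gcongr
    refine ⟨(List.ofFn fun i => ((σ i : Fin _) : ℕ), List.ofFn fun i => ((τ i : Fin _) : ℕ)),
      ?_, ?_⟩
    · have a1 := hsz σ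
      have a2 := hsz τ
      rw [sz_pair]
      simp only [Polynomial.eval_add, Polynomial.eval_mul, Polynomial.eval_X, Polynomial.eval_C]
      omega
    · rw [chk_iff]
      refine ⟨h1, fun i hi => ?_⟩
      rw [hget σ i hi, hget τ i hi]
      refine ⟨⟨(σ ⟨i, hi⟩).2, (τ ⟨i, hi⟩).2⟩, ⟨h2 ⟨i, hi⟩, h3 ⟨i, hi⟩,
        fun h => h4 ⟨i, hi⟩ (Fin.ext h)⟩, fun j hj => ?_⟩
      rw [hget σ j hj, hget τ j hj]
      by_cases hij : i = j
      · exact Or.inl hij
      · right
        refine ⟨fun h => hij ?_, fun h => hij ?_⟩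
        · have := σ.injective (Fin.ext h)
          simpa using this
        · have := τ.injective (Fin.ext h)
          simpa using this
  · rintro ⟨⟨s, t⟩, -, h⟩
    rw [chk_iff] at h
    obtain ⟨h1, h2⟩ := h
    obtain ⟨σ, hσ⟩ := perm_of M.length (fun i => s.getD i 0) (fun i hi => (h2 i hi).1.1)
      (fun i hi j hj hij => by
        rcases (h2 i hi).2.2 j hj with h | h
        · exact h
        · exact absurd hij h.1)
    obtain ⟨τ, hτ⟩ := perm_of M.length (fun i => t.getD i 0) (fun i hi => (h2 i hi).1.2)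
      (fun i hi j hj hij => by
        rcases (h2 i hi).2.2 j hj with h | h
        · exact h
        · exact absurd hij h.2)
    refine ⟨h1, σ, τ, fun i => ?_, fun i => ?_, fun i hi => ?_⟩
    · rw [hσ]; exact (h2 i i.2).2.1.1
    · rw [hτ]; exact (h2 i i.2).2.1.2.1
    · apply (h2 i i.2).2.1.2.2
      have e1 : ((σ i : Fin _) : ℕ) = s.getD i 0 := hσ i
      have e2 : ((τ i : Fin _) : ℕ) = t.getD i 0 := hτ i
      rw [← e1, ← e2, hi]

end Pool.Agent.NPC.Q325TwoPM
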