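import Pool.Agent.Q325.MsInst

/-!
# Assignments and permutations
-/

set_option autoImplicit false

namespace Pool.Agent.Q325.MS

variable {V K : ℕ} {vs : ℕ → ℕ}

/-! ### Classes -/

theorem kn_lt (t : ℕ) : kn V K t < 5 := by
  unfold kn
  split_ifs <;> omega

theorem ki_lt {t : ℕ} (ht : t < TT V K) (h : 2 ≤ kn V K t) : ki V K t < K := by
  unfold kn at h
  unfold TT at ht
  unfold ki
  split_ifs at h ⊢ <;> omega

theorem kn_X {v : ℕ} (hv : v < V) : kn V K v = 0 ∧ ki V K v = v := by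
  unfold kn ki
  rw [if_pos hv, if_pos hv]
  exact ⟨rfl, rfl⟩

theorem kn_Y {s : ℕ} (hs : s < 3 * K) : kn V K (V + s) = 1 ∧ ki V K (V + s) = s := by
  unfold kn ki
  rw [if_neg (by omega), if_pos (by omega), if_neg (by omega), if_pos (by omega)]
  exact ⟨rfl, by omega⟩

theorem kn_E (c : ℕ) : kn V K (V + 3 * K + 3 * c) = 2 ∧ ki V K (V + 3 * K + 3 * c) = c := by
  unfold kn ki
  rw [if_neg (by omega), if_neg (by omega), if_neg (by omega), if_neg (by omega)]
  omega

theorem kn_W (c : ℕ) : kn V K (V + 3 * K + 3 * c + 1) = 3 ∧ ki V K (V + 3 * K + 3 * c + 1) = c := by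
  unfold kn ki
  rw [if_neg (by omega), if_neg (by omega), if_neg (by omega), if_neg (by omega)]
  omega

theorem kn_G (c : ℕ) : kn V K (V + 3 * K + 3 * c + 2) = 4 ∧ ki V K (V + 3 * K + 3 * c + 2) = c := by
  unfold kn ki
  rw [if_neg (by omega), if_neg (by omega), if_neg (by omega), if_neg (by omega)]
  omega

/-! ### From assignments to permutations -/

/-- the permutation -/
def sg (V K : ℕ) (vs : ℕ → ℕ) (w : ℕ → Bool) (i : ℕ) : ℕ :=
  if i < 4 * TT V K then 4 * (i / 4) + act vs w (kn V K (i / 4)) (ki V K (i / 4)) (i % 4) else i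

theorem sg_div {w : ℕ → Bool} {i : ℕ} (hi : i < 4 * TT V K) : sg V K vs w i / 4 = i / 4 ∧
    sg V K vs w i % 4 = act vs w (kn V K (i / 4)) (ki V K (i / 4)) (i % 4) := by
  have h := act_lt (vs := vs) (w := w) (k := kn V K (i / 4)) (i := ki V K (i / 4))
    (show i % 4 < 4 by omega)
  unfold sg
  rw [if_pos hi]
  omega

theorem sg_lt {w : ℕ → Bool} {i : ℕ} (hi : i < 4 * TT V K) : sg V K vs w i < 4 * TT V K := by
  have := (sg_div (vs := vs) (w := w) hi).1
  omega

theorem sg_lt_N {w : ℕ → Bool} {i : ℕ} (hi : i < NN V K) : sg V K vs w i < NN V K := by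
  by_cases h : i < 4 * TT V K
  · have := sg_lt (vs := vs) (w := w) h
    unfold NN
    omega
  · unfold sg
    rw [if_neg h]
    exact hi

theorem sg_sg {w : ℕ → Bool} (i : ℕ) : sg V K vs w (sg V K vs w i) = i := by
  by_cases h : i < 4 * TT V K
  · obtain ⟨h1, h2⟩ := sg_div (vs := vs) (w := w) h
    obtain ⟨h3, h4⟩ := sg_div (vs := vs) (w := w) (sg_lt (vs := vs) (w := w) h)
    rw [h1, h2, act_act (by omega)] at h4
    omega
  · have e : sg V K vs w i = i := by
      unfold sg
      rw [if_neg h]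
    rw [e, e]

theorem ae_sg {w : ℕ → Bool} (hw : OneK K vs w) (i j : ℕ) :
    ae V K vs (sg V K vs w i) j = ae V K vs (sg V K vs w j) i := by
  by_cases hi : i < 4 * TT V K
  · obtain ⟨h1, h2⟩ := sg_div (vs := vs) (w := w) hi
    have h3 := sg_lt (vs := vs) (w := w) hi
    by_cases hj : j < 4 * TT V K
    · obtain ⟨k1, k2⟩ := sg_div (vs := vs) (w := w) hj
      have k3 := sg_lt (vs := vs) (w := w) hj
      unfold ae
      rw [if_pos h3, if_pos hj, if_pos k3, if_pos hi, h1, h2, k1, k2]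
      exact act_spec hw (by omega) (by omega) (ki_lt (by omega)) (ki_lt (by omega)) (kn_lt _)
        (kn_lt _)
    · have e : sg V K vs w j = j := by
        unfold sg
        rw [if_neg hj]
      rw [e]
      unfold ae
      rw [if_pos h3, if_neg hj, if_neg hj, if_pos hi, h1]
  · have e : sg V K vs w i = i := by
      unfold sg
      rw [if_neg hi]
    rw [e]
    by_cases hj : j < 4 * TT V K
    · obtain ⟨k1, k2⟩ := sg_div (vs := vs) (w := w) hj
      have k3 := sg_lt (vs := vs) (w := w) hj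
      unfold ae
      rw [if_neg hi, if_pos hj, if_pos k3, if_neg hi, k1]
    · have e' : sg V K vs w j = j := by
        unfold sg
        rw [if_neg hj]
      rw [e']
      unfold ae
      rw [if_neg hi, if_neg hj, if_neg hj, if_neg hi]

theorem ms_of_one {w : ℕ → Bool} (hw : OneK K vs w) : MS (matA V K vs) := by
  refine ⟨square_matA V K vs, ?_⟩
  have hlen := length_matA V K vs
  have hlt : ∀ i : Fin (matA V K vs).length, sg V K vs w i < (matA V K vs).length :=
    fun i => (sg_lt_N (i.2.trans_eq hlen)).trans_eq hlen.symm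
  have hinv : Function.Involutive (fun i : Fin (matA V K vs).length =>
      (⟨sg V K vs w i, hlt i⟩ : Fin (matA V K vs).length)) := by
    intro i
    exact Fin.ext (sg_sg i.1)
  refine ⟨hinv.toPerm, fun i j => ?_⟩
  have hi : i.1 < NN V K := i.2.trans_eq hlen
  have hj : j.1 < NN V K := j.2.trans_eq hlen
  change ent _ (sg V K vs w i) j = ent _ (sg V K vs w j) i
  rw [ent_matA V K vs (sg_lt_N hi) hj, ent_matA V K vs (sg_lt_N hj) hi]
  exact ae_sg hw _ _

/-! ### From permutations to assignments -/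

/-- number of true values -/
def cnt (n : ℕ) (p : ℕ → Bool) : ℕ := ((Finset.range n).filter (fun j => p j = true)).card

theorem cnt_fin {n : ℕ} (p : ℕ → Bool) :
    ((Finset.univ : Finset (Fin n)).filter (fun j => p j.1 = true)).card = cnt n p := by
  unfold cnt
  refine Finset.card_bij (fun j _ => j.1) ?_ ?_ ?_
  · intro j hj
    rw [Finset.mem_filter] at hj ⊢
    exact ⟨Finset.mem_range.2 j.2, hj.2⟩
  · intro i _ j _ h
    exact Fin.ext h
  · intro j hj
    rw [Finset.mem_filter, Finset.mem_range] at hj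
    exact ⟨⟨j, hj.1⟩, Finset.mem_filter.2 ⟨Finset.mem_univ _, hj.2⟩, rfl⟩

/-- a counting lemma -/
theorem cnt_bounds {a b n : ℕ} (hb : a + b ≤ n) {p : ℕ → Bool}
    (h : ∀ j, a ≤ j → (p j = true ↔ j < a + b)) : b ≤ cnt n p ∧ cnt n p ≤ a + b := by
  unfold cnt
  constructor
  · calc b = (Finset.Ico a (a + b)).card := by simp
      _ ≤ _ := Finset.card_le_card ?_
    intro j hj
    rw [Finset.mem_Ico] at hj
    rw [Finset.mem_filter, Finset.mem_range]
    exact ⟨by omega, (h j hj.1).2 hj.2⟩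
  · calc _ ≤ (Finset.range (a + b)).card := Finset.card_le_card ?_
      _ = a + b := by simp
    intro j hj
    rw [Finset.mem_filter, Finset.mem_range] at hj
    rw [Finset.mem_range]
    by_contra hlt
    have := (h j (by omega)).1 hj.2
    omega

theorem mul_le_LL {t : ℕ} (ht : t < TT V K) :
    t * (4 * TT V K + 1) + (4 * TT V K + 1) ≤ LL V K := by
  unfold LL
  have : (t + 1) * (4 * TT V K + 1) ≤ TT V K * (4 * TT V K + 1) := Nat.mul_le_mul_right _ ht
  rw [add_mul, one_mul] at this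
  exact this

theorem row_bounds {i : ℕ} (hi : i < 4 * TT V K) :
    i / 4 * (4 * TT V K + 1) ≤ cnt (NN V K) (fun j => ae V K vs i j) ∧
    cnt (NN V K) (fun j => ae V K vs i j) ≤ 4 * TT V K + i / 4 * (4 * TT V K + 1) := by
  refine cnt_bounds ?_ ?_
  · have := mul_le_LL (V := V) (K := K) (t := i / 4) (by omega)
    unfold NN
    omega
  · intro j hj
    unfold ae
    rw [if_pos hi, if_neg (by omega), decide_eq_true_iff]

theorem col_bounds {i : ℕ} (hi : i < 4 * TT V K) :
    i / 4 * (4 * TT V K + 1) ≤ cnt (NN V K) (fun j => ae V K vs j i) ∧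
    cnt (NN V K) (fun j => ae V K vs j i) ≤ 4 * TT V K + i / 4 * (4 * TT V K + 1) := by
  refine cnt_bounds ?_ ?_
  · have := mul_le_LL (V := V) (K := K) (t := i / 4) (by omega)
    unfold NN
    omega
  · intro j hj
    unfold ae
    rw [if_neg (by omega), if_pos hi, decide_eq_true_iff]

theorem row_pad {i : ℕ} (hi : ¬ i < 4 * TT V K) :
    LL V K ≤ cnt (NN V K) (fun j => ae V K vs i j) := by
  unfold cnt
  calc LL V K = (Finset.Ico (4 * TT V K) (NN V K)).card := by
        rw [Nat.card_Ico]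
        unfold NN
        omega
    _ ≤ _ := Finset.card_le_card ?_
  intro j hj
  rw [Finset.mem_Ico] at hj
  rw [Finset.mem_filter, Finset.mem_range]
  refine ⟨hj.2, ?_⟩
  dsimp only
  unfold ae
  rw [if_neg hi, if_neg (by omega)]

/-- the structure of the permutations -/
theorem structure_of (h : MS (matA V K vs)) : ∃ S : ℕ → ℕ → ℕ, (∀ t r, S t r < 4) ∧
    ∀ t < TT V K, ∀ u < TT V K, ∀ r < 4, ∀ q < 4,
      inn vs (kn V K t) (ki V K t) (S t r) (kn V K u) (ki V K u) q =
      inn vs (kn V K u) (ki V K u) (S u q) (kn V K t) (ki V K t) r := by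
  obtain ⟨-, σ, hσ⟩ := h
  have hlen := length_matA V K vs
  -- the permutation on numbers
  obtain ⟨s, hs⟩ : ∃ s : ℕ → ℕ, ∀ i : Fin (matA V K vs).length, s i = σ i :=
    ⟨fun i => if h : i < (matA V K vs).length then σ ⟨i, h⟩ else 0, fun i => by simp⟩
  have hsN : ∀ i < NN V K, s i < NN V K := by
    intro i hi
    have := hs ⟨i, by rw [hlen]; exact hi⟩
    dsimp only at this
    rw [this]
    exact (σ _).2.trans_eq hlen
  have hsym : ∀ i < NN V K, ∀ j < NN V K, ae V K vs (s i) j = ae V K vs (s j) i := by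
    intro i hi j hj
    have h1 := hσ ⟨i, by rw [hlen]; exact hi⟩ ⟨j, by rw [hlen]; exact hj⟩
    rw [← hs, ← hs] at h1
    dsimp only at h1
    rw [ent_matA V K vs (hsN i hi) hj, ent_matA V K vs (hsN j hj) hi] at h1
    exact h1
  have hcnt : ∀ i < NN V K, cnt (NN V K) (fun j => ae V K vs (s i) j) =
      cnt (NN V K) (fun j => ae V K vs j i) := by
    intro i hi
    rw [← hlen, ← cnt_fin, ← cnt_fin]
    refine Finset.card_bij (fun j _ => σ j) ?_ ?_ ?_
    · intro j hj
      rw [Finset.mem_filter] at hj ⊢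
      refine ⟨Finset.mem_univ _, ?_⟩
      rw [← hs, ← hsym i hi j (by rw [← hlen]; exact j.2)]
      exact hj.2
    · intro a _ b _ hab
      exact σ.injective hab
    · intro b hb
      rw [Finset.mem_filter] at hb
      refine ⟨σ.symm b, Finset.mem_filter.2 ⟨Finset.mem_univ _, ?_⟩, σ.apply_symm_apply b⟩
      rw [hsym i hi _ (by rw [← hlen]; exact (σ.symm b).2), hs, σ.apply_symm_apply]
      exact hb.2
  have hcls : ∀ i < 4 * TT V K, s i < 4 * TT V K ∧ s i / 4 = i / 4 := by
    intro i hi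
    have hi' : i < NN V K := by unfold NN; omega
    have h1 := hcnt i hi'
    obtain ⟨h2, h3⟩ := col_bounds (vs := vs) hi
    have h4 := mul_le_LL (V := V) (K := K) (t := i / 4) (by omega)
    have h5 : s i < 4 * TT V K := by
      by_contra hc
      have := row_pad (vs := vs) hc
      omega
    refine ⟨h5, ?_⟩
    obtain ⟨h6, h7⟩ := row_bounds (vs := vs) h5
    rcases Nat.lt_trichotomy (s i / 4) (i / 4) with hlt | heq | hgt
    · exfalso
      have : (s i / 4 + 1) * (4 * TT V K + 1) ≤ i / 4 * (4 * TT V K + 1) :=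
        Nat.mul_le_mul_right _ hlt
      rw [add_mul, one_mul] at this
      omega
    · exact heq
    · exfalso
      have : (i / 4 + 1) * (4 * TT V K + 1) ≤ s i / 4 * (4 * TT V K + 1) :=
        Nat.mul_le_mul_right _ hgt
      rw [add_mul, one_mul] at this
      omega
  refine ⟨fun t r => s (4 * t + r) % 4, fun t r => Nat.mod_lt _ (by omega), ?_⟩
  intro t ht u hu r hr q hq
  have a1 : 4 * t + r < 4 * TT V K := by omega
  have a2 : 4 * u + q < 4 * TT V K := by omega
  have h1 := hsym (4 * t + r) (by unfold NN; omega) (4 * u + q) (by unfold NN; omega)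
  obtain ⟨b1, b2⟩ := hcls _ a1
  obtain ⟨c1, c2⟩ := hcls _ a2
  unfold ae at h1
  rw [if_pos b1, if_pos a2, if_pos c1, if_pos a1, b2, c2] at h1
  rw [show (4 * t + r) / 4 = t by omega, show (4 * u + q) / 4 = u by omega,
    show (4 * t + r) % 4 = r by omega, show (4 * u + q) % 4 = q by omega] at h1
  exact h1

/-- the contradiction for two true positions -/
theorem square_lemma {k g : ℕ → ℕ} (hk4 : ∀ r, k r < 4) (hg4 : ∀ q, g q < 4)
    (h1 : ∀ r < 4, k r % 2 = (r + 1) % 2) (h2 : ∀ q < 4, g q % 2 = (q + 1) % 2)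
    (h3 : ∀ r < 4, ∀ q < 4, k r = q ↔ k q = r)
    (h4 : ∀ r < 4, ∀ q < 4, (k r = q ∨ k r = (q + 1) % 4) ↔ (r = g q ∨ r = (g q + 1) % 4)) :
    False := by
  have a1 := h1 0 (by omega)
  have a2 := hk4 0
  have a3 : k 0 = 1 ∨ k 0 = 3 := by omega
  rcases a3 with e | e
  · have e1 := (h3 0 (by omega) 1 (by omega)).1 e
    have f1 := (h4 0 (by omega) 0 (by omega)).1 (Or.inr e)
    have f2 := (h4 1 (by omega) 0 (by omega)).1 (Or.inl e1)
    have f3 := h2 0 (by omega)
    have f4 := hg4 0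
    omega
  · have e1 := (h3 0 (by omega) 3 (by omega)).1 e
    have f1 := (h4 0 (by omega) 3 (by omega)).1 (Or.inl e)
    have f2 := (h4 3 (by omega) 3 (by omega)).1 (Or.inr e1)
    have f3 := h2 3 (by omega)
    have f4 := hg4 3
    omega

theorem one_of_ms (hvs : ∀ s < 3 * K, vs s < V) (h : MS (matA V K vs)) :
    ∃ w, OneK K vs w := by
  obtain ⟨S, hS4, hS⟩ := structure_of h
  refine ⟨fun v => decide (S v 0 % 2 = 1), ?_⟩
  -- positions and variables
  have hYX : ∀ s < 3 * K, S (V + s) 0 % 2 = S (vs s) 0 % 2 := by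
    intro s hs
    have hv := hvs s hs
    have h1 := hS (V + s) (by unfold TT; omega) (vs s) (by unfold TT; omega) 0 (by omega) 0
      (by omega)
    rw [(kn_Y hs).1, (kn_Y hs).2, (kn_X hv).1, (kn_X hv).2] at h1
    have e1 : inn vs 1 s (S (V + s) 0) 0 (vs s) 0 =
      (decide (vs s = vs s) && decide (S (V + s) 0 % 2 = 0 % 2)) := rfl
    have e2 : inn vs 0 (vs s) (S (vs s) 0) 1 s 0 =
      (decide (vs s = vs s) && decide (S (vs s) 0 % 2 = 0 % 2)) := rfl
    rw [e1, e2, decide_eq_true rfl, Bool.true_and, Bool.true_and, decide_eq_decide] at h1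
    omega
  intro c hc
  -- the first class: parity
  have hE : ∀ j, j < 3 → rowc j (S (V + 3 * K + 3 * c) 0) % 2 = S (V + (3 * c + j)) 0 % 2 := by
    intro j hj
    have h1 := hS (V + 3 * K + 3 * c) (by unfold TT; omega) (V + (3 * c + j))
      (by unfold TT; omega) 0 (by omega) 0 (by omega)
    rw [(kn_E c).1, (kn_E c).2, (kn_Y (show 3 * c + j < 3 * K by omega)).1,
      (kn_Y (show 3 * c + j < 3 * K by omega)).2] at h1
    have e1 : inn vs 2 c (S (V + 3 * K + 3 * c) 0) 1 (3 * c + j) 0 =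
      (decide ((3 * c + j) / 3 = c) && decide (rowc ((3 * c + j) % 3)
        (S (V + 3 * K + 3 * c) 0) = 0 % 2)) := rfl
    have e2 : inn vs 1 (3 * c + j) (S (V + (3 * c + j)) 0) 2 c 0 =
      (decide ((3 * c + j) / 3 = c) && decide (colc ((3 * c + j) % 3) 0 =
        S (V + (3 * c + j)) 0 % 2)) := rfl
    rw [e1, e2, decide_eq_true (show (3 * c + j) / 3 = c by omega), Bool.true_and, Bool.true_and,
      decide_eq_decide, show (3 * c + j) % 3 = j by omega] at h1
    have e3 : colc j 0 = 0 := by unfold colc; split_ifs <;> rfl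
    rw [e3] at h1
    have e4 : rowc j (S (V + 3 * K + 3 * c) 0) < 2 := by unfold rowc; split_ifs <;> omega
    omega
  have hpar : (S (V + (3 * c + 0)) 0 % 2 + S (V + (3 * c + 1)) 0 % 2 +
      S (V + (3 * c + 2)) 0 % 2) % 2 = 1 := by
    rw [← hE 0 (by omega), ← hE 1 (by omega), ← hE 2 (by omega)]
    have e0 : ∀ x, rowc 0 x = x % 2 := fun _ => rfl
    have e1 : ∀ x, rowc 1 x = x / 2 % 2 := fun _ => rfl
    have e2 : ∀ x, rowc 2 x = (x % 2 + x / 2 + 1) % 2 := fun _ => rfl
    rw [e0, e1, e2]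
    omega
  -- the square
  have hW : ∀ r < 4, S (V + 3 * K + 3 * c + 1) r % 2 = (r + S (V + (3 * c + 0)) 0) % 2 := by
    intro r hr
    have h1 := hS (V + 3 * K + 3 * c + 1) (by unfold TT; omega) (V + (3 * c + 0))
      (by unfold TT; omega) r hr 0 (by omega)
    rw [(kn_W c).1, (kn_W c).2, (kn_Y (show 3 * c + 0 < 3 * K by omega)).1,
      (kn_Y (show 3 * c + 0 < 3 * K by omega)).2] at h1
    have e1 : inn vs 3 c (S (V + 3 * K + 3 * c + 1) r) 1 (3 * c + 0) 0 =
      (decide (3 * c + 0 = 3 * c) && decide (S (V + 3 * K + 3 * c + 1) r % 2 = 0 % 2)) := rfl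
    have e2 : inn vs 1 (3 * c + 0) (S (V + (3 * c + 0)) 0) 3 c r =
      (decide (3 * c + 0 = 3 * c) && decide (S (V + (3 * c + 0)) 0 % 2 = r % 2)) := rfl
    rw [e1, e2, decide_eq_true (show 3 * c + 0 = 3 * c by omega), Bool.true_and, Bool.true_and,
      decide_eq_decide] at h1
    omega
  have hG : ∀ r < 4, S (V + 3 * K + 3 * c + 2) r % 2 = (r + S (V + (3 * c + 1)) 0) % 2 := by
    intro r hr
    have h1 := hS (V + 3 * K + 3 * c + 2) (by unfold TT; omega) (V + (3 * c + 1))
      (by unfold TT; omega) r hr 0 (by omega)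
    rw [(kn_G c).1, (kn_G c).2, (kn_Y (show 3 * c + 1 < 3 * K by omega)).1,
      (kn_Y (show 3 * c + 1 < 3 * K by omega)).2] at h1
    have e1 : inn vs 4 c (S (V + 3 * K + 3 * c + 2) r) 1 (3 * c + 1) 0 =
      (decide (3 * c + 1 = 3 * c + 1) && decide (S (V + 3 * K + 3 * c + 2) r % 2 = 0 % 2)) := rfl
    have e2 : inn vs 1 (3 * c + 1) (S (V + (3 * c + 1)) 0) 4 c r =
      (decide (3 * c + 1 = 3 * c + 1) && decide (S (V + (3 * c + 1)) 0 % 2 = r % 2)) := rfl
    rw [e1, e2, decide_eq_true rfl, Bool.true_and, Bool.true_and, decide_eq_decide] at h1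
    omega
  have hWW : ∀ r < 4, ∀ q < 4, S (V + 3 * K + 3 * c + 1) r = q ↔
      S (V + 3 * K + 3 * c + 1) q = r := by
    intro r hr q hq
    have h1 := hS (V + 3 * K + 3 * c + 1) (by unfold TT; omega) (V + 3 * K + 3 * c + 1)
      (by unfold TT; omega) r hr q hq
    rw [(kn_W c).1, (kn_W c).2] at h1
    have e1 : ∀ x y, inn vs 3 c x 3 c y = (decide (c = c) && decide (x = y)) := fun _ _ => rfl
    rw [e1, e1, decide_eq_true rfl, Bool.true_and, Bool.true_and, decide_eq_decide] at h1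
    exact h1
  have hWG : ∀ r < 4, ∀ q < 4, (S (V + 3 * K + 3 * c + 1) r = q ∨
      S (V + 3 * K + 3 * c + 1) r = (q + 1) % 4) ↔ (r = S (V + 3 * K + 3 * c + 2) q ∨
        r = (S (V + 3 * K + 3 * c + 2) q + 1) % 4) := by
    intro r hr q hq
    have h1 := hS (V + 3 * K + 3 * c + 1) (by unfold TT; omega) (V + 3 * K + 3 * c + 2)
      (by unfold TT; omega) r hr q hq
    rw [(kn_W c).1, (kn_W c).2, (kn_G c).1, (kn_G c).2] at h1
    have e1 : ∀ x y, inn vs 3 c x 4 c y = (decide (c = c) && (decide (x = y) ||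
      decide (x = (y + 1) % 4))) := fun _ _ => rfl
    have e2 : ∀ x y, inn vs 4 c x 3 c y = (decide (c = c) && (decide (y = x) ||
      decide (y = (x + 1) % 4))) := fun _ _ => rfl
    rw [e1, e2, decide_eq_true rfl, Bool.true_and, Bool.true_and, Bool.eq_iff_iff] at h1
    simpa using h1
  have hnot : ¬ (S (V + (3 * c + 0)) 0 % 2 = 1 ∧ S (V + (3 * c + 1)) 0 % 2 = 1) := by
    rintro ⟨a, b⟩
    refine square_lemma (k := S (V + 3 * K + 3 * c + 1)) (g := S (V + 3 * K + 3 * c + 2))
      (hS4 _) (hS4 _) (fun r hr => ?_) (fun r hr => ?_) hWW hWG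
    · have := hW r hr
      omega
    · have := hG r hr
      omega
  have y0 := hYX (3 * c + 0) (by omega)
  have y1 := hYX (3 * c + 1) (by omega)
  have y2 := hYX (3 * c + 2) (by omega)
  rw [add_zero] at y0 hpar hnot
  rw [y0, y1] at hnot
  rw [y0, y1, y2] at hpar
  simp only [decide_eq_true_eq, decide_eq_false_iff_not]
  omega

theorem ms_iff (hvs : ∀ s < 3 * K, vs s < V) : MS (matA V K vs) ↔ ∃ w, OneK K vs w :=
  ⟨one_of_ms hvs, fun ⟨_, hw⟩ => ms_of_one hw⟩

end Pool.Agent.Q325.MS
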