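import Pool.Agent.NPC.Classes

/-!
# Matrices which become symmetric under a permutation of the rows, and graph isomorphism
-/

set_option autoImplicit false

namespace Pool.Agent.Q325.MS

/-- The entry of the matrix `A` (the list of its rows) in row `i` and column `j`. -/
def ent (A : List (List Bool)) (i j : ℕ) : Bool := (A.getD i []).getD j false

/-- The matrix is square: there are as many entries in each row as there are rows. -/
def IsSquare (A : List (List Bool)) : Prop := ∀ r ∈ A, r.length = A.length

/-- MS (matrix symmetry): for some permutation `σ` the square 0/1 matrix with the rows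
`A (σ 0), A (σ 1), ...` is symmetric. (This is the matrix `P A` for the permutation matrix `P` of
`σ`.) -/
def MS (A : List (List Bool)) : Prop :=
  IsSquare A ∧ ∃ σ : Equiv.Perm (Fin A.length), ∀ i j : Fin A.length,
    ent A (σ i) j = ent A (σ j) i

/-- `A` is the adjacency matrix of a simple graph on `0, ..., n - 1`. -/
def IsGraph (A : List (List Bool)) : Prop :=
  IsSquare A ∧ ∀ i j : Fin A.length, ent A i j = ent A j i ∧ ent A i i = false

/-- GI (graph isomorphism), for two graphs given by their adjacency matrices. -/
def GI (p : List (List Bool) × List (List Bool)) : Prop :=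
  IsGraph p.1 ∧ IsGraph p.2 ∧ ∃ f : Fin p.1.length ≃ Fin p.2.length,
    ∀ i j : Fin p.1.length, ent p.1 i j = ent p.2 (f i) (f j)

end Pool.Agent.Q325.MS
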