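import Pool.Agent.Q325.MsDefs

/-!
# The matrix for a list of positive clauses

There are `K` clauses, with `3 K` positions; the variable at position `s` is `vs s < V`. The first
`4 T` indices form `T` classes of four indices each: variables, positions, and three classes for each
clause; the others are used to keep the classes apart.
-/

set_option autoImplicit false

namespace Pool.Agent.Q325.MS

/-- coordinates, for columns -/
def colc (j r : ℕ) : ℕ := if j = 0 then r % 2 else if j = 1 then r / 2 % 2 else (r % 2 + r / 2) % 2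

/-- coordinates, for rows -/
def rowc (j r : ℕ) : ℕ :=
  if j = 0 then r % 2 else if j = 1 then r / 2 % 2 else (r % 2 + r / 2 + 1) % 2

/-- the entry in the row `r` of the class `(ka, ia)` and the column `q` of the class `(kb, ib)` -/
def inn (vs : ℕ → ℕ) (ka ia r kb ib q : ℕ) : Bool :=
  if ka = 0 ∧ kb = 1 then decide (vs ib = ia) && decide (r % 2 = q % 2)
  else if ka = 1 ∧ kb = 0 then decide (vs ia = ib) && decide (r % 2 = q % 2)
  else if ka = 1 ∧ kb = 2 then decide (ia / 3 = ib) && decide (colc (ia % 3) q = r % 2)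
  else if ka = 2 ∧ kb = 1 then decide (ib / 3 = ia) && decide (rowc (ib % 3) r = q % 2)
  else if ka = 1 ∧ kb = 3 then decide (ia = 3 * ib) && decide (r % 2 = q % 2)
  else if ka = 3 ∧ kb = 1 then decide (ib = 3 * ia) && decide (r % 2 = q % 2)
  else if ka = 1 ∧ kb = 4 then decide (ia = 3 * ib + 1) && decide (r % 2 = q % 2)
  else if ka = 4 ∧ kb = 1 then decide (ib = 3 * ia + 1) && decide (r % 2 = q % 2)
  else if ka = 3 ∧ kb = 3 then decide (ia = ib) && decide (r = q)
  else if ka = 3 ∧ kb = 4 then decide (ia = ib) && (decide (r = q) || decide (r = (q + 1) % 4))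
  else if ka = 4 ∧ kb = 3 then decide (ia = ib) && (decide (q = r) || decide (q = (r + 1) % 4))
  else false

section

variable (V K : ℕ) (vs : ℕ → ℕ)

/-- the kind of a class -/
def kn (t : ℕ) : ℕ := if t < V then 0 else if t < V + 3 * K then 1 else 2 + (t - (V + 3 * K)) % 3

/-- the number of a class of its kind -/
def ki (t : ℕ) : ℕ :=
  if t < V then t else if t < V + 3 * K then t - V else (t - (V + 3 * K)) / 3

/-- number of classes -/
def TT : ℕ := V + 6 * K

/-- number of the other indices -/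
def LL : ℕ := TT V K * (4 * TT V K + 1)

/-- entries of the matrix -/
def ae (i j : ℕ) : Bool :=
  if i < 4 * TT V K then
    (if j < 4 * TT V K then
      inn vs (kn V K (i / 4)) (ki V K (i / 4)) (i % 4) (kn V K (j / 4)) (ki V K (j / 4)) (j % 4)
    else decide (j < 4 * TT V K + i / 4 * (4 * TT V K + 1)))
  else
    (if j < 4 * TT V K then decide (i < 4 * TT V K + j / 4 * (4 * TT V K + 1)) else true)

/-- the number of rows -/
def NN : ℕ := 4 * TT V K + LL V K

/-- the matrix -/
def matA : List (List Bool) :=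
  (List.range (NN V K)).map fun i => (List.range (NN V K)).map fun j => ae V K vs i j

theorem length_matA : (matA V K vs).length = NN V K := by simp [matA]

theorem square_matA : IsSquare (matA V K vs) := by
  intro r hr
  unfold matA at hr ⊢
  obtain ⟨i, -, rfl⟩ := List.mem_map.1 hr
  simp

theorem ent_matA {i j : ℕ} (hi : i < NN V K) (hj : j < NN V K) :
    ent (matA V K vs) i j = ae V K vs i j := by
  unfold ent matA
  simp [List.getD_eq_getElem?_getD, hi, hj]

end

/-! ### Exactly one -/

/-- exactly one of the three variables of each clause is true -/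
def OneK (K : ℕ) (vs : ℕ → ℕ) (w : ℕ → Bool) : Prop := ∀ c < K,
  (w (vs (3 * c)) = true ∧ w (vs (3 * c + 1)) = false ∧ w (vs (3 * c + 2)) = false) ∨
  (w (vs (3 * c)) = false ∧ w (vs (3 * c + 1)) = true ∧ w (vs (3 * c + 2)) = false) ∨
  (w (vs (3 * c)) = false ∧ w (vs (3 * c + 1)) = false ∧ w (vs (3 * c + 2)) = true)

/-! ### From assignments to permutations -/

/-- exchange of `0, 1` and of `2, 3` -/
def flip (b : Bool) (r : ℕ) : ℕ := if b = true then (if r % 2 = 0 then r + 1 else r - 1) else r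

/-- exchange of `1` and `3` -/
def sw (r : ℕ) : ℕ := if r % 2 = 0 then r else 4 - r

/-- the action on the class `(k, i)` -/
def act (vs : ℕ → ℕ) (w : ℕ → Bool) (k i r : ℕ) : ℕ :=
  if k = 0 then flip (w i) r
  else if k = 1 then flip (w (vs i)) r
  else if k = 2 then
    (if w (vs (3 * i)) = true then 1 - r % 2 else r % 2) +
      2 * (if w (vs (3 * i + 1)) = true then 1 - r / 2 else r / 2)
  else if k = 3 then
    (if w (vs (3 * i)) = true then flip true r else if w (vs (3 * i + 1)) = true then sw r else r)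
  else
    (if w (vs (3 * i)) = true then sw r else if w (vs (3 * i + 1)) = true then 3 - r else r)

theorem act_lt {vs : ℕ → ℕ} {w : ℕ → Bool} {k i r : ℕ} (hr : r < 4) : act vs w k i r < 4 := by
  unfold act flip sw
  split_ifs <;> omega

theorem act_act {vs : ℕ → ℕ} {w : ℕ → Bool} {k i r : ℕ} (hr : r < 4) :
    act vs w k i (act vs w k i r) = r := by
  unfold act
  split_ifs with h1 h2 h3 h4 h5 h6 h7 h8 h9
  all_goals
    try unfold flip
    try unfold sw
    interval_cases r <;> simp_all

/-- variables and positions -/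
theorem act_01 {vs : ℕ → ℕ} {w : ℕ → Bool} {ia ib r q : ℕ} (hr : r < 4) (hq : q < 4) :
    inn vs 0 ia (act vs w 0 ia r) 1 ib q = inn vs 1 ib (act vs w 1 ib q) 0 ia r := by
  have e1 : inn vs 0 ia (act vs w 0 ia r) 1 ib q =
      (decide (vs ib = ia) && decide (flip (w ia) r % 2 = q % 2)) := rfl
  have e2 : inn vs 1 ib (act vs w 1 ib q) 0 ia r =
      (decide (vs ib = ia) && decide (flip (w (vs ib)) q % 2 = r % 2)) := rfl
  rw [e1, e2]
  by_cases h : vs ib = ia
  · subst h
    cases w (vs ib) <;> unfold flip <;> interval_cases r <;> interval_cases q <;> simp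
  · simp [h]

/-- positions and the classes of the first kind -/
theorem act_12 {vs : ℕ → ℕ} {w : ℕ → Bool} {K : ℕ} (hw : OneK K vs w) {ia ib r q : ℕ}
    (hr : r < 4) (hq : q < 4) (hb : ib < K) :
    inn vs 1 ia (act vs w 1 ia r) 2 ib q = inn vs 2 ib (act vs w 2 ib q) 1 ia r := by
  have e1 : inn vs 1 ia (act vs w 1 ia r) 2 ib q =
      (decide (ia / 3 = ib) && decide (colc (ia % 3) q = flip (w (vs ia)) r % 2)) := rfl
  have e2 : inn vs 2 ib (act vs w 2 ib q) 1 ia r =
      (decide (ia / 3 = ib) && decide (rowc (ia % 3) (act vs w 2 ib q) = r % 2)) := rfl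
  rw [e1, e2]
  by_cases h : ia / 3 = ib
  · have h3 : ia = 3 * ib ∨ ia = 3 * ib + 1 ∨ ia = 3 * ib + 2 := by omega
    have e3 : act vs w 2 ib q = (if w (vs (3 * ib)) = true then 1 - q % 2 else q % 2) +
      2 * (if w (vs (3 * ib + 1)) = true then 1 - q / 2 else q / 2) := rfl
    rw [e3]
    rcases h3 with rfl | rfl | rfl
    · rw [show 3 * ib % 3 = 0 by omega]
      rcases hw ib hb with ⟨a, b, c⟩ | ⟨a, b, c⟩ | ⟨a, b, c⟩ <;> rw [a, b] <;>
        unfold flip colc rowc <;> interval_cases r <;> interval_cases q <;> simp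
    · rw [show (3 * ib + 1) % 3 = 1 by omega]
      rcases hw ib hb with ⟨a, b, c⟩ | ⟨a, b, c⟩ | ⟨a, b, c⟩ <;> rw [a, b] <;>
        unfold flip colc rowc <;> interval_cases r <;> interval_cases q <;> simp
    · rw [show (3 * ib + 2) % 3 = 2 by omega]
      rcases hw ib hb with ⟨a, b, c⟩ | ⟨a, b, c⟩ | ⟨a, b, c⟩ <;> rw [a, b, c] <;>
        unfold flip colc rowc <;> interval_cases r <;> interval_cases q <;> simp
  · simp [h]

/-- positions and the classes of the second kind -/
theorem act_13 {vs : ℕ → ℕ} {w : ℕ → Bool} {K : ℕ} (hw : OneK K vs w) {ia ib r q : ℕ}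
    (hr : r < 4) (hq : q < 4) (hb : ib < K) :
    inn vs 1 ia (act vs w 1 ia r) 3 ib q = inn vs 3 ib (act vs w 3 ib q) 1 ia r := by
  have e1 : inn vs 1 ia (act vs w 1 ia r) 3 ib q =
      (decide (ia = 3 * ib) && decide (flip (w (vs ia)) r % 2 = q % 2)) := rfl
  have e2 : inn vs 3 ib (act vs w 3 ib q) 1 ia r =
      (decide (ia = 3 * ib) && decide (act vs w 3 ib q % 2 = r % 2)) := rfl
  rw [e1, e2]
  by_cases h : ia = 3 * ib
  · subst h
    have e3 : act vs w 3 ib q = (if w (vs (3 * ib)) = true then flip true q else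
      if w (vs (3 * ib + 1)) = true then sw q else q) := rfl
    rw [e3]
    rcases hw ib hb with ⟨a, b, c⟩ | ⟨a, b, c⟩ | ⟨a, b, c⟩ <;> rw [a, b] <;>
        unfold flip sw <;> interval_cases r <;> interval_cases q <;> simp
  · simp [h]

/-- positions and the classes of the third kind -/
theorem act_14 {vs : ℕ → ℕ} {w : ℕ → Bool} {K : ℕ} (hw : OneK K vs w) {ia ib r q : ℕ}
    (hr : r < 4) (hq : q < 4) (hb : ib < K) :
    inn vs 1 ia (act vs w 1 ia r) 4 ib q = inn vs 4 ib (act vs w 4 ib q) 1 ia r := by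
  have e1 : inn vs 1 ia (act vs w 1 ia r) 4 ib q =
      (decide (ia = 3 * ib + 1) && decide (flip (w (vs ia)) r % 2 = q % 2)) := rfl
  have e2 : inn vs 4 ib (act vs w 4 ib q) 1 ia r =
      (decide (ia = 3 * ib + 1) && decide (act vs w 4 ib q % 2 = r % 2)) := rfl
  rw [e1, e2]
  by_cases h : ia = 3 * ib + 1
  · subst h
    have e3 : act vs w 4 ib q = (if w (vs (3 * ib)) = true then sw q else
      if w (vs (3 * ib + 1)) = true then 3 - q else q) := rfl
    rw [e3]
    rcases hw ib hb with ⟨a, b, c⟩ | ⟨a, b, c⟩ | ⟨a, b, c⟩ <;> rw [a, b] <;>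
        unfold flip <;> unfold sw <;> interval_cases r <;> interval_cases q <;> simp
  · simp [h]

theorem act_33 {vs : ℕ → ℕ} {w : ℕ → Bool} {K : ℕ} (hw : OneK K vs w) {ia ib r q : ℕ}
    (hr : r < 4) (hq : q < 4) (hb : ib < K) :
    inn vs 3 ia (act vs w 3 ia r) 3 ib q = inn vs 3 ib (act vs w 3 ib q) 3 ia r := by
  have e1 : inn vs 3 ia (act vs w 3 ia r) 3 ib q =
      (decide (ia = ib) && decide (act vs w 3 ia r = q)) := rfl
  have e2 : inn vs 3 ib (act vs w 3 ib q) 3 ia r =
      (decide (ib = ia) && decide (act vs w 3 ib q = r)) := rfl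
  rw [e1, e2]
  by_cases h : ia = ib
  · subst h
    have e3 : ∀ q, act vs w 3 ia q = (if w (vs (3 * ia)) = true then flip true q else
      if w (vs (3 * ia + 1)) = true then sw q else q) := fun _ => rfl
    rw [e3, e3]
    rcases hw ia hb with ⟨a, b, c⟩ | ⟨a, b, c⟩ | ⟨a, b, c⟩ <;> rw [a, b] <;>
        unfold flip sw <;> interval_cases r <;> interval_cases q <;> simp
  · simp [h, Ne.symm h]

theorem act_34 {vs : ℕ → ℕ} {w : ℕ → Bool} {K : ℕ} (hw : OneK K vs w) {ia ib r q : ℕ}
    (hr : r < 4) (hq : q < 4) (hb : ib < K) :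
    inn vs 3 ia (act vs w 3 ia r) 4 ib q = inn vs 4 ib (act vs w 4 ib q) 3 ia r := by
  have e1 : inn vs 3 ia (act vs w 3 ia r) 4 ib q =
      (decide (ia = ib) && (decide (act vs w 3 ia r = q) ||
        decide (act vs w 3 ia r = (q + 1) % 4))) := rfl
  have e2 : inn vs 4 ib (act vs w 4 ib q) 3 ia r =
      (decide (ib = ia) && (decide (r = act vs w 4 ib q) ||
        decide (r = (act vs w 4 ib q + 1) % 4))) := rfl
  rw [e1, e2]
  by_cases h : ia = ib
  · subst h
    have e3 : ∀ q, act vs w 3 ia q = (if w (vs (3 * ia)) = true then flip true q else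
      if w (vs (3 * ia + 1)) = true then sw q else q) := fun _ => rfl
    have e4 : ∀ q, act vs w 4 ia q = (if w (vs (3 * ia)) = true then sw q else
      if w (vs (3 * ia + 1)) = true then 3 - q else q) := fun _ => rfl
    rw [e3, e4]
    rcases hw ia hb with ⟨a, b, c⟩ | ⟨a, b, c⟩ | ⟨a, b, c⟩ <;> rw [a, b] <;>
        unfold flip sw <;> interval_cases r <;> interval_cases q <;> simp
  · simp [h, Ne.symm h]

theorem act_spec {vs : ℕ → ℕ} {w : ℕ → Bool} {K : ℕ} (hw : OneK K vs w) {ka ia kb ib r q : ℕ}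
    (hr : r < 4) (hq : q < 4) (ha : 2 ≤ ka → ia < K) (hb : 2 ≤ kb → ib < K)
    (hka : ka < 5) (hkb : kb < 5) :
    inn vs ka ia (act vs w ka ia r) kb ib q = inn vs kb ib (act vs w kb ib q) ka ia r := by
  interval_cases ka <;> interval_cases kb
  · rfl
  · exact act_01 hr hq
  · rfl
  · rfl
  · rfl
  · exact (act_01 hq hr).symm
  · rfl
  · exact act_12 hw hr hq (hb (by omega))
  · exact act_13 hw hr hq (hb (by omega))
  · exact act_14 hw hr hq (hb (by omega))
  · rfl
  · exact (act_12 hw hq hr (ha (by omega))).symm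
  · rfl
  · rfl
  · rfl
  · rfl
  · exact (act_13 hw hq hr (ha (by omega))).symm
  · rfl
  · exact act_33 hw hr hq (hb (by omega))
  · exact act_34 hw hr hq (hb (by omega))
  · rfl
  · exact (act_14 hw hq hr (ha (by omega))).symm
  · rfl
  · exact (act_34 hw hq hr (ha (by omega))).symm
  · rfl

end Pool.Agent.Q325.MS
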