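import Pool.Agent.Q325.MsRed
import Pool.Agent.Q325.CsMem

/-!
# Matrix symmetry is in NP
-/

set_option autoImplicit false

namespace Pool.Agent.NPC.Q325MS

open Pool.Agent.Q325.MS Pool.Agent.H958R2 Pool.Agent.NPC.H958NLT

/-- The test of the format. -/
def sqB (A : List (List Bool)) : Bool := A.all fun r => decide (r.length = A.length)

/-- The test of the permutation. -/
def permB (A : List (List Bool)) (w : List ℕ) : Bool :=
  (List.range A.length).all fun i => decide (w.getD i 0 < A.length) &&
    (List.range A.length).all fun j => decide (i = j) || !decide (w.getD i 0 = w.getD j 0)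

/-- The test of the symmetry. -/
def symB (A : List (List Bool)) (w : List ℕ) : Bool :=
  (List.range A.length).all fun i => (List.range A.length).all fun j =>
    decide (ent A (w.getD i 0) j = ent A (w.getD j 0) i)

theorem sqB_iff (A : List (List Bool)) : sqB A = true ↔ Pool.Agent.Q325.MS.IsSquare A := by
  unfold sqB Pool.Agent.Q325.MS.IsSquare
  simp only [List.all_eq_true, decide_eq_true_eq]

theorem permB_iff (A : List (List Bool)) (w : List ℕ) : permB A w = true ↔
    (∀ i < A.length, w.getD i 0 < A.length) ∧
      ∀ i < A.length, ∀ j < A.length, w.getD i 0 = w.getD j 0 → i = j := by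
  unfold permB
  simp only [List.all_eq_true, List.mem_range, Bool.and_eq_true, decide_eq_true_eq,
    Bool.or_eq_true, Bool.not_eq_true', decide_eq_false_iff_not]
  constructor
  · intro h
    refine ⟨fun i hi => (h i hi).1, fun i hi j hj e => ?_⟩
    rcases (h i hi).2 j hj with h1 | h1
    · exact h1
    · exact absurd e h1
  · rintro ⟨h1, h2⟩ i hi
    refine ⟨h1 i hi, fun j hj => ?_⟩
    by_cases e : i = j
    · exact Or.inl e
    · exact Or.inr fun e' => e (h2 i hi j hj e')

theorem symB_iff (A : List (List Bool)) (w : List ℕ) : symB A w = true ↔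
    ∀ i < A.length, ∀ j < A.length, ent A (w.getD i 0) j = ent A (w.getD j 0) i := by
  unfold symB
  simp only [List.all_eq_true, List.mem_range, decide_eq_true_eq]

theorem MS_iff_cert (A : List (List Bool)) : MS A ↔ ∃ w : List ℕ, (w.length ≤ A.length ∧
    ∀ x ∈ w, x ≤ A.length) ∧ sqB A = true ∧ permB A w = true ∧ symB A w = true := by
  constructor
  · rintro ⟨h1, σ, h2⟩
    have e : ∀ i (hi : i < A.length),
        (List.ofFn fun i : Fin A.length => ((σ i : Fin A.length) : ℕ)).getD i 0 =
          ((σ ⟨i, hi⟩ : Fin A.length) : ℕ) := by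
      intro i hi
      rw [List.getD_eq_getElem _ _ (by simpa using hi)]
      simp
    refine ⟨List.ofFn fun i : Fin A.length => ((σ i : Fin A.length) : ℕ), ⟨by simp, ?_⟩,
      (sqB_iff A).2 h1, (permB_iff _ _).2 ⟨fun i hi => ?_, fun i hi j hj h => ?_⟩,
      (symB_iff _ _).2 fun i hi j hj => ?_⟩
    · intro x hx
      rw [List.mem_ofFn] at hx
      obtain ⟨i, rfl⟩ := hx
      exact (σ i).2.le
    · rw [e i hi]
      exact (σ ⟨i, hi⟩).2
    · rw [e i hi, e j hj] at h
      have := σ.injective (Fin.ext h)
      simpa using this
    · rw [e i hi, e j hj]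
      exact h2 ⟨i, hi⟩ ⟨j, hj⟩
  · rintro ⟨w, -, h1, h2, h3⟩
    rw [sqB_iff] at h1
    rw [permB_iff] at h2
    rw [symB_iff] at h3
    have inj : Function.Injective fun i : Fin A.length => (⟨w.getD i 0, h2.1 i i.2⟩ : Fin A.length) := by
      intro i j h
      exact Fin.ext (h2.2 i i.2 j j.2 (by simpa using h))
    refine ⟨h1, Equiv.ofBijective _ (Finite.injective_iff_bijective.1 inj), fun i j => ?_⟩
    exact h3 i i.2 j j.2

variable {α : Type} [TEnc α] {A : α → List (List Bool)} {w : α → List ℕ} {x y : α → ℕ}

@[fun_prop]
theorem poly_ent (hA : Poly A) (hx : Poly x) (hy : Poly y) :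
    Poly (fun a => ent (A a) (x a) (y a)) := by
  unfold ent
  fun_prop

@[fun_prop]
theorem poly_sqB (hA : Poly A) : Poly (fun a => sqB (A a)) := by
  unfold sqB
  exact Poly.all (p := fun a r => decide (r.length = (A a).length)) hA (by fun_prop)

@[fun_prop]
theorem poly_permB (hA : Poly A) (hw : Poly w) : Poly (fun a => permB (A a) (w a)) := by
  unfold permB
  exact Poly.all (p := fun a i => decide ((w a).getD i 0 < (A a).length) &&
    (List.range (A a).length).all fun j => decide (i = j) ||
      !decide ((w a).getD i 0 = (w a).getD j 0)) (Poly.range_length hA)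
    (Poly.and (by fun_prop) (Poly.all (p := fun (p : α × ℕ) j => decide (p.2 = j) ||
      !decide ((w p.1).getD p.2 0 = (w p.1).getD j 0)) (Poly.range_length (by fun_prop))
      (by fun_prop)))

@[fun_prop]
theorem poly_symB (hA : Poly A) (hw : Poly w) : Poly (fun a => symB (A a) (w a)) := by
  unfold symB
  exact Poly.all (p := fun a i => (List.range (A a).length).all fun j =>
    decide (ent (A a) ((w a).getD i 0) j = ent (A a) ((w a).getD j 0) i)) (Poly.range_length hA)
    (Poly.all (p := fun (p : α × ℕ) j => decide (ent (A p.1) ((w p.1).getD p.2 0) j =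
      ent (A p.1) ((w p.1).getD j 0) p.2)) (Poly.range_length (by fun_prop)) (by fun_prop))

theorem w_sz' {A : List (List Bool)} {w : List ℕ} (h1 : w.length ≤ A.length)
    (h2 : ∀ x ∈ w, x ≤ A.length) : sz w ≤ sz A * (4 * sz A + 2) + 1 := by
  have h3 := length_lt_sz A
  have h4 : ∀ x ∈ w, sz x ≤ 4 * sz A + 1 := by
    intro x hx
    have h5 := sz_nat_le x
    have h6 : x.size ≤ x := by
      rw [Nat.size_le]
      exact Nat.lt_two_pow_self
    have h7 := h2 x hx
    omega
  exact (sz_le_length_mul w _ h4).trans (Nat.add_le_add_right (Nat.mul_le_mul_right _ (by omega)) 1)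

theorem inNP_MS : InNPP MS := by
  refine inNPP_of (R := fun p : List (List Bool) × List ℕ =>
    sqB p.1 && (permB p.1 p.2 && symB p.1 p.2)) ?_
    (Polynomial.X * (4 * Polynomial.X + 2) + 1) fun A => ?_
  · exact Poly.and (poly_sqB (by fun_prop)) (Poly.and (poly_permB (by fun_prop) (by fun_prop))
      (poly_symB (by fun_prop) (by fun_prop)))
  · have e : (Polynomial.X * (4 * Polynomial.X + 2) + 1 : Polynomial ℕ).eval (sz A) =
        sz A * (4 * sz A + 2) + 1 := by simp
    rw [e, MS_iff_cert]
    constructor
    · rintro ⟨w, h1, h3, h4, h5⟩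
      refine ⟨w, w_sz' h1.1 h1.2, ?_⟩
      simp only [Bool.and_eq_true]
      exact ⟨h3, h4, h5⟩
    · rintro ⟨w, -, h⟩
      simp only [Bool.and_eq_true] at h
      obtain ⟨h1, h2, h3⟩ := h
      exact (MS_iff_cert A).1 ((MS_iff_cert A).2 ⟨w.take A.length |>.map fun x => min x A.length, ⟨by
        simp, by
        intro x hx
        rw [List.mem_map] at hx
        obtain ⟨y, -, rfl⟩ := hx
        exact min_le_right _ _⟩, h1, by
        have hg : ∀ i < A.length, ((w.take A.length).map fun x => min x A.length).getD i 0 =
            w.getD i 0 := by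
          intro i hi
          have := ((permB_iff _ _).1 h2).1 i hi
          by_cases hw : i < w.length
          · rw [List.getD_eq_getElem _ _ (by simp; omega), List.getD_eq_getElem _ _ hw]
            rw [List.getD_eq_getElem _ _ hw] at this
            simp
            omega
          · rw [List.getD_eq_default _ _ (by simp; omega), List.getD_eq_default _ _ (by omega)]
        rw [permB_iff] at h2 ⊢
        refine ⟨fun i hi => by rw [hg i hi]; exact h2.1 i hi, fun i hi j hj e => ?_⟩
        rw [hg i hi, hg j hj] at e
        exact h2.2 i hi j hj e, by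
        have hg : ∀ i < A.length, ((w.take A.length).map fun x => min x A.length).getD i 0 =
            w.getD i 0 := by
          intro i hi
          have := ((permB_iff _ _).1 h2).1 i hi
          by_cases hw : i < w.length
          · rw [List.getD_eq_getElem _ _ (by simp; omega), List.getD_eq_getElem _ _ hw]
            rw [List.getD_eq_getElem _ _ hw] at this
            simp
            omega
          · rw [List.getD_eq_default _ _ (by simp; omega), List.getD_eq_default _ _ (by omega)]
        rw [symB_iff] at h3 ⊢
        intro i hi j hj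
        rw [hg i hi, hg j hj]
        exact h3 i hi j hj⟩)

end Pool.Agent.NPC.Q325MS
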