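import Pool.Agent.Q325.MsCore
import Pool.Agent.Q325.CsRed

/-!
# Matrix symmetry is NP-hard
-/

set_option autoImplicit false

namespace Pool.Agent.NPC.Q325MS

open Pool.Agent.Q325.MS Pool.Agent.H958R2 Pool.Agent.NPC.H958NLT
open Pool.Agent.NPC.Q325CS (Fm pcl Kp Vp vs comp3 par vs_lt x13_iff one_iff length_pcl poly_vs)

theorem one3_iff (a b c : Bool) : one3 a b c = true ↔
    (a = true ∧ b = false ∧ c = false) ∨ (a = false ∧ b = true ∧ c = false) ∨
    (a = false ∧ b = false ∧ c = true) := by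
  unfold one3
  cases a <;> cases b <;> cases c <;> simp

theorem oneK_iff {φ : Fm} (h : Bd13 φ) (w : ℕ → Bool) :
    OneK (Kp φ) (vs φ) w ↔ (par φ h).One w := by
  rw [one_iff]
  have key : ∀ i (hi : i < Kp φ), vs φ (3 * i) = ((pcl φ)[i]'(by rw [length_pcl]; exact hi)).1 ∧
      vs φ (3 * i + 1) = ((pcl φ)[i]'(by rw [length_pcl]; exact hi)).2.1 ∧
      vs φ (3 * i + 2) = ((pcl φ)[i]'(by rw [length_pcl]; exact hi)).2.2 := by
    intro i hi
    refine ⟨?_, ?_, ?_⟩
    · unfold vs comp3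
      rw [show 3 * i / 3 = i by omega, if_pos (by omega),
        List.getD_eq_getElem _ _ (by rw [length_pcl]; exact hi)]
    · unfold vs comp3
      rw [show (3 * i + 1) / 3 = i by omega, if_neg (by omega), if_pos (by omega),
        List.getD_eq_getElem _ _ (by rw [length_pcl]; exact hi)]
    · unfold vs comp3
      rw [show (3 * i + 2) / 3 = i by omega, if_neg (by omega), if_neg (by omega),
        List.getD_eq_getElem _ _ (by rw [length_pcl]; exact hi)]
  constructor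
  · intro hw c hc
    obtain ⟨i, hi, rfl⟩ := List.getElem_of_mem hc
    rw [length_pcl] at hi
    obtain ⟨e0, e1, e2⟩ := key i hi
    have := hw i hi
    rw [e0, e1, e2] at this
    exact (one3_iff _ _ _).2 this
  · intro hw i hi
    obtain ⟨e0, e1, e2⟩ := key i hi
    rw [e0, e1, e2]
    exact (one3_iff _ _ _).1 (hw _ (List.getElem_mem _))

/-- The reduction. -/
def red (φ : Fm) : List (List Bool) := matA (Vp φ) (Kp φ) (vs φ)

theorem red_iff {φ : Fm} (h : Bd13 φ) : X13 φ ↔ MS (red φ) := by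
  unfold red
  rw [ms_iff (fun s hs => vs_lt h hs), x13_iff h]
  constructor
  · rintro ⟨w, hw⟩
    exact ⟨w, (oneK_iff h w).2 hw⟩
  · rintro ⟨w, hw⟩
    exact ⟨w, (oneK_iff h w).1 hw⟩

/-! ### Polynomial time -/

variable {α : Type} [TEnc α] {φ : α → Fm} {x y : α → ℕ}

theorem uK (hφ : Poly φ) : UPoly (fun a => Kp (φ a)) :=
  ((UPoly.const 4).mul (UPoly.length hφ)).add (UPoly.const 1)

theorem uT (hφ : Poly φ) : UPoly (fun a => TT (Vp (φ a)) (Kp (φ a))) :=
  (Pool.Agent.NPC.Q325CS.uV hφ).add ((UPoly.const 6).mul (uK hφ))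

theorem uN (hφ : Poly φ) : UPoly (fun a => NN (Vp (φ a)) (Kp (φ a))) :=
  ((UPoly.const 4).mul (uT hφ)).add
    ((uT hφ).mul (((UPoly.const 4).mul (uT hφ)).add (UPoly.const 1)))

@[fun_prop]
theorem poly_K (hφ : Poly φ) : Poly (fun a => Kp (φ a)) := (uK hφ).toPoly

@[fun_prop]
theorem poly_V (hφ : Poly φ) : Poly (fun a => Vp (φ a)) := (Pool.Agent.NPC.Q325CS.uV hφ).toPoly

@[fun_prop]
theorem poly_T (hφ : Poly φ) : Poly (fun a => TT (Vp (φ a)) (Kp (φ a))) := (uT hφ).toPoly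

@[fun_prop]
theorem poly_colc (hx : Poly x) (hy : Poly y) : Poly (fun a => colc (x a) (y a)) := by
  unfold colc
  fun_prop

@[fun_prop]
theorem poly_rowc (hx : Poly x) (hy : Poly y) : Poly (fun a => rowc (x a) (y a)) := by
  unfold rowc
  fun_prop

@[fun_prop]
theorem poly_kn (hφ : Poly φ) (hx : Poly x) : Poly (fun a => kn (Vp (φ a)) (Kp (φ a)) (x a)) := by
  unfold kn
  fun_prop

@[fun_prop]
theorem poly_ki (hφ : Poly φ) (hx : Poly x) : Poly (fun a => ki (Vp (φ a)) (Kp (φ a)) (x a)) := by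
  unfold ki
  fun_prop

@[fun_prop]
theorem poly_inn {ka ia r kb ib q : α → ℕ} (hφ : Poly φ) (h1 : Poly ka) (h2 : Poly ia)
    (h3 : Poly r) (h4 : Poly kb) (h5 : Poly ib) (h6 : Poly q) :
    Poly (fun a => inn (vs (φ a)) (ka a) (ia a) (r a) (kb a) (ib a) (q a)) := by
  unfold inn
  fun_prop

@[fun_prop]
theorem poly_ae (hφ : Poly φ) (hx : Poly x) (hy : Poly y) :
    Poly (fun a => ae (Vp (φ a)) (Kp (φ a)) (vs (φ a)) (x a) (y a)) := by
  unfold ae
  fun_prop

theorem poly_red (hφ : Poly φ) : Poly (fun a => red (φ a)) := by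
  unfold red matA
  refine Poly.map (F := fun (a : α) (i : ℕ) => (List.range (NN (Vp (φ a)) (Kp (φ a)))).map
    fun j => ae (Vp (φ a)) (Kp (φ a)) (vs (φ a)) i j) (uN hφ).range ?_
  exact Poly.map (F := fun (p : α × ℕ) (j : ℕ) => ae (Vp (φ p.1)) (Kp (φ p.1)) (vs (φ p.1)) p.2 j)
    (uN (hφ.comp (Poly.fst Poly.id))).range
    (poly_ae (hφ.comp (Poly.fst (Poly.fst Poly.id))) (Poly.snd (Poly.fst Poly.id))
      (Poly.snd Poly.id))

theorem hard_MS : NPHardP MS :=
  (hardPr_X13.trans (Pr' := fun _ => True) (poly_red Poly.id) (fun _ _ => trivial)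
    (fun _ h => red_iff h)).toHardI.toNPHardP

end Pool.Agent.NPC.Q325MS
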