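import Mathlib

/-! Hierarchical good boxes and their cores (deterministic part). -/

namespace Pool.Agent.Q325.Pc

/-- a box of side `3^k` is good when at most one of its nine sub-boxes is bad -/
def good (s : ℕ → ℕ → Prop) : ℕ → ℕ → ℕ → Prop
  | 0, a, b => s a b
  | k + 1, a, b => ∃ c : Fin 3 × Fin 3, ∀ d : Fin 3 × Fin 3, d ≠ c →
      good s k (a + 3 ^ k * (d.1 : ℕ)) (b + 3 ^ k * (d.2 : ℕ))

/-- the core of a box -/
def core (s : ℕ → ℕ → Prop) : ℕ → ℕ → ℕ → ℕ → ℕ → Prop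
  | 0, a, b, x, y => x = a ∧ y = b ∧ s a b
  | k + 1, a, b, x, y => ∃ d : Fin 3 × Fin 3,
      good s k (a + 3 ^ k * (d.1 : ℕ)) (b + 3 ^ k * (d.2 : ℕ)) ∧
      core s k (a + 3 ^ k * (d.1 : ℕ)) (b + 3 ^ k * (d.2 : ℕ)) x y

theorem core_range {s : ℕ → ℕ → Prop} : ∀ (k a b x y : ℕ), core s k a b x y →
    (a ≤ x ∧ x < a + 3 ^ k) ∧ (b ≤ y ∧ y < b + 3 ^ k) ∧ s x y := by
  intro k
  induction k with
  | zero =>
    rintro a b x y ⟨rfl, rfl, h⟩
    exact ⟨⟨le_refl _, by simp⟩, ⟨le_refl _, by simp⟩, h⟩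
  | succ k ih =>
    rintro a b x y ⟨d, -, h⟩
    obtain ⟨⟨h1, h2⟩, ⟨h3, h4⟩, h5⟩ := ih _ _ _ _ h
    have d1 := d.1.isLt
    have d2 := d.2.isLt
    have e1 : 3 ^ k * (d.1 : ℕ) ≤ 3 ^ k * 2 := Nat.mul_le_mul_left _ (by omega)
    have e2 : 3 ^ k * (d.2 : ℕ) ≤ 3 ^ k * 2 := Nat.mul_le_mul_left _ (by omega)
    have e3 : 3 ^ (k + 1) = 3 ^ k * 3 := pow_succ 3 k
    refine ⟨⟨by omega, by omega⟩, ⟨by omega, by omega⟩, h5⟩

/-- good boxes are non-empty, touching each of the columns of a given sub-box column -/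
theorem core_left {s : ℕ → ℕ → Prop} : ∀ (k a b : ℕ), good s k a b →
    ∃ y, core s k a b a y := by
  intro k
  induction k with
  | zero => intro a b h; exact ⟨b, rfl, rfl, h⟩
  | succ k ih =>
    rintro a b ⟨c, hc⟩
    obtain ⟨j, hj⟩ : ∃ j : Fin 3, j ≠ c.2 := by
      have : ∀ u : Fin 3, ∃ j : Fin 3, j ≠ u := by decide
      exact this _
    have hg := hc (0, j) (by intro h; exact hj (congrArg Prod.snd h))
    obtain ⟨y, hy⟩ := ih _ _ hg
    refine ⟨y, (0, j), hg, ?_⟩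
    simpa using hy

theorem core_right {s : ℕ → ℕ → Prop} : ∀ (k a b : ℕ), good s k a b →
    ∃ y, core s k a b (a + 3 ^ k - 1) y := by
  intro k
  induction k with
  | zero => intro a b h; exact ⟨b, by simp, rfl, h⟩
  | succ k ih =>
    rintro a b ⟨c, hc⟩
    obtain ⟨j, hj⟩ : ∃ j : Fin 3, j ≠ c.2 := by
      have : ∀ u : Fin 3, ∃ j : Fin 3, j ≠ u := by decide
      exact this _
    have hg := hc (2, j) (by intro h; exact hj (congrArg Prod.snd h))
    obtain ⟨y, hy⟩ := ih _ _ hg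
    refine ⟨y, (2, j), hg, ?_⟩
    have e : a + 3 ^ (k + 1) - 1 = a + 3 ^ k * (((2 : Fin 3) : ℕ)) + 3 ^ k - 1 := by
      have : ((2 : Fin 3) : ℕ) = 2 := rfl
      rw [this, pow_succ]
      have := Nat.pos_of_ne_zero (pow_ne_zero k (show (3 : ℕ) ≠ 0 by norm_num))
      omega
    rw [e]
    exact hy

theorem chain3 (R : Fin 3 → Fin 3 → Prop) (hr : ∀ j, R j j) (hs : ∀ i j, R i j → R j i)
    (h01 : R 0 1) (h12 : R 1 2) (h02 : R 0 2) : ∀ i j, R i j := by
  intro i j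
  fin_cases i <;> fin_cases j
  · exact hr _
  · exact h01
  · exact h02
  · exact hs _ _ h01
  · exact hr _
  · exact h12
  · exact hs _ _ h02
  · exact hs _ _ h12
  · exact hr _

section

variable {s : ℕ → ℕ → Prop} {C : ℕ × ℕ → ℕ × ℕ → Prop}

/-- `k`-boxes: connection between the cores of two boxes -/
def Lk (s : ℕ → ℕ → Prop) (C : ℕ × ℕ → ℕ × ℕ → Prop) (k a b a' b' : ℕ) : Prop :=
  ∀ x y x' y', core s k a b x y → core s k a' b' x' y' → C (x, y) (x', y')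

theorem Lk.symm (hC : Equivalence C) {k a b a' b' : ℕ} (h : Lk s C k a b a' b') :
    Lk s C k a' b' a b := fun x y x' y' h1 h2 => hC.symm (h x' y' x y h2 h1)

theorem Lk.trans (hC : Equivalence C) {k a b a' b' a'' b'' : ℕ} (hg : good s k a' b')
    (h : Lk s C k a b a' b') (h' : Lk s C k a' b' a'' b'') : Lk s C k a b a'' b'' := by
  intro x y x' y' h1 h2
  obtain ⟨z, hz⟩ := core_left k a' b' hg
  exact hC.trans (h _ _ _ _ h1 hz) (h' _ _ _ _ hz h2)

structure Pk (s : ℕ → ℕ → Prop) (C : ℕ × ℕ → ℕ × ℕ → Prop) (k : ℕ) : Prop where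
  con : ∀ a b, good s k a b → Lk s C k a b a b
  hor : ∀ a b, good s k a b → good s k (a + 3 ^ k) b → Lk s C k a b (a + 3 ^ k) b
  ver : ∀ a b, good s k a b → good s k a (b + 3 ^ k) → Lk s C k a b a (b + 3 ^ k)

theorem con_step (hC : Equivalence C) {k : ℕ} (ih : Pk s C k) (a b : ℕ)
    (h : good s (k + 1) a b) (d e : Fin 3 × Fin 3)
    (hd : good s k (a + 3 ^ k * (d.1 : ℕ)) (b + 3 ^ k * (d.2 : ℕ)))
    (he : good s k (a + 3 ^ k * (e.1 : ℕ)) (b + 3 ^ k * (e.2 : ℕ))) :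
    Lk s C k (a + 3 ^ k * (d.1 : ℕ)) (b + 3 ^ k * (d.2 : ℕ))
      (a + 3 ^ k * (e.1 : ℕ)) (b + 3 ^ k * (e.2 : ℕ)) := by
  obtain ⟨c, hc⟩ := h
  set G : Fin 3 → Fin 3 → Prop := fun i j =>
    good s k (a + 3 ^ k * (i : ℕ)) (b + 3 ^ k * (j : ℕ)) with hG
  set R : Fin 3 → Fin 3 → Fin 3 → Fin 3 → Prop := fun i j i' j' =>
    Lk s C k (a + 3 ^ k * (i : ℕ)) (b + 3 ^ k * (j : ℕ))
      (a + 3 ^ k * (i' : ℕ)) (b + 3 ^ k * (j' : ℕ)) with hR
  have hGc : ∀ i j, (i ≠ c.1 ∨ j ≠ c.2) → G i j := by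
    intro i j hij
    refine hc (i, j) ?_
    intro h
    rw [← h] at hij
    simp at hij
  have Rs : ∀ {i j i' j'}, R i j i' j' → R i' j' i j := fun h => Lk.symm hC h
  have Rt : ∀ {i j i' j' i'' j''}, G i' j' → R i j i' j' → R i' j' i'' j'' → R i j i'' j'' :=
    fun hg h h' => Lk.trans hC hg h h'
  have Rr : ∀ i j, G i j → R i j i j := fun i j h => ih.con _ _ h
  have hh : ∀ (i i' : Fin 3) (j : Fin 3), (i' : ℕ) = i + 1 → G i j → G i' j → R i j i' j := by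
    intro i i' j hi h1 h2
    have e : a + 3 ^ k * (i' : ℕ) = a + 3 ^ k * (i : ℕ) + 3 ^ k := by rw [hi]; ring
    have h2' : good s k (a + 3 ^ k * (i : ℕ) + 3 ^ k) (b + 3 ^ k * (j : ℕ)) := by
      rw [← e]; exact h2
    have := ih.hor _ _ h1 h2'
    rw [← e] at this
    exact this
  have hv : ∀ (i j j' : Fin 3), (j' : ℕ) = j + 1 → G i j → G i j' → R i j i j' := by
    intro i j j' hi h1 h2
    have e : b + 3 ^ k * (j' : ℕ) = b + 3 ^ k * (j : ℕ) + 3 ^ k := by rw [hi]; ring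
    have h2' : good s k (a + 3 ^ k * (i : ℕ)) (b + 3 ^ k * (j : ℕ) + 3 ^ k) := by
      rw [← e]; exact h2
    have := ih.ver _ _ h1 h2'
    rw [← e] at this
    exact this
  -- full columns and rows
  have hcol : ∀ i, (∀ j, G i j) → ∀ j j', R i j i j' := by
    intro i hi
    have h01 : R i 0 i 1 := hv i 0 1 rfl (hi 0) (hi 1)
    have h12 : R i 1 i 2 := hv i 1 2 rfl (hi 1) (hi 2)
    exact chain3 (fun j j' => R i j i j') (fun j => Rr i j (hi j)) (fun _ _ h => Rs h)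
      h01 h12 (Rt (hi 1) h01 h12)
  have hrow : ∀ j, (∀ i, G i j) → ∀ i i', R i j i' j := by
    intro j hj
    have h01 : R 0 j 1 j := hh 0 1 j rfl (hj 0) (hj 1)
    have h12 : R 1 j 2 j := hh 1 2 j rfl (hj 1) (hj 2)
    exact chain3 (fun i i' => R i j i' j) (fun i => Rr i j (hj i)) (fun _ _ h => Rs h)
      h01 h12 (Rt (hj 1) h01 h12)
  obtain ⟨i0, hi0⟩ : ∃ i : Fin 3, i ≠ c.1 := by
    have : ∀ u : Fin 3, ∃ j : Fin 3, j ≠ u := by decide
    exact this _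
  obtain ⟨j0, hj0⟩ : ∃ i : Fin 3, i ≠ c.2 := by
    have : ∀ u : Fin 3, ∃ j : Fin 3, j ≠ u := by decide
    exact this _
  have hcolg : ∀ i, i ≠ c.1 → ∀ j, G i j := fun i hi j => hGc i j (Or.inl hi)
  have hrowg : ∀ j, j ≠ c.2 → ∀ i, G i j := fun j hj i => hGc i j (Or.inr hj)
  have main1 : ∀ i j, i ≠ c.1 → R i j i0 j0 := by
    intro i j hi
    exact Rt (hrowg j0 hj0 i) (hcol i (hcolg i hi) j j0) (hrow j0 (hrowg j0 hj0) i i0)
  have main : ∀ i j, G i j → R i j i0 j0 := by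
    intro i j hg
    by_cases hi : i = c.1
    · by_cases hj : j = c.2
      · -- neighbour in the next column
        have : ∀ u : Fin 3, ∃ v : Fin 3, (v : ℕ) = u + 1 ∨ (u : ℕ) = v + 1 := by decide
        obtain ⟨i', hi'⟩ := this i
        have hne : i' ≠ c.1 := by
          rw [← hi]
          intro h
          rw [h] at hi'
          omega
        rcases hi' with h | h
        · exact Rt (hcolg i' hne j) (hh i i' j h hg (hcolg i' hne j)) (main1 i' j hne)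
        · exact Rt (hcolg i' hne j) (Rs (hh i' i j h (hcolg i' hne j) hg)) (main1 i' j hne)
      · exact Rt (hGc i0 j (Or.inl hi0)) (hrow j (hrowg j hj) i i0) (main1 i0 j hi0)
    · exact main1 i j hi
  exact Rt (hGc i0 j0 (Or.inl hi0)) (main _ _ hd) (Rs (main _ _ he))

theorem pk_all (hC : Equivalence C) (h1 : ∀ x y, s x y → s (x + 1) y → C (x, y) (x + 1, y))
    (h2 : ∀ x y, s x y → s x (y + 1) → C (x, y) (x, y + 1)) : ∀ k, Pk s C k := by
  intro k
  induction k with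
  | zero =>
    refine ⟨?_, ?_, ?_⟩
    · rintro a b - x y x' y' ⟨rfl, rfl, -⟩ ⟨rfl, rfl, -⟩
      exact hC.refl _
    · rintro a b hg hg' x y x' y' ⟨rfl, rfl, -⟩ ⟨rfl, rfl, -⟩
      exact h1 _ _ hg hg'
    · rintro a b hg hg' x y x' y' ⟨rfl, rfl, -⟩ ⟨rfl, rfl, -⟩
      exact h2 _ _ hg hg'
  | succ k ih =>
    have hcon : ∀ a b, good s (k + 1) a b → Lk s C (k + 1) a b a b := by
      rintro a b hg x y x' y' ⟨d, hd, hx⟩ ⟨e, he, hx'⟩
      exact con_step hC ih a b hg d e hd he x y x' y' hx hx'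
    refine ⟨hcon, ?_, ?_⟩
    · intro a b hg hg'
      obtain ⟨c, hc⟩ := id hg
      obtain ⟨c', hc'⟩ := id hg'
      obtain ⟨j, hj, hj'⟩ : ∃ j : Fin 3, j ≠ c.2 ∧ j ≠ c'.2 := by
        have : ∀ u v : Fin 3, ∃ j : Fin 3, j ≠ u ∧ j ≠ v := by decide
        exact this _ _
      have g1 := hc (2, j) (by intro h; exact hj (congrArg Prod.snd h))
      have g2 := hc' (0, j) (by intro h; exact hj' (congrArg Prod.snd h))
      obtain ⟨z, hz⟩ := core_left k _ _ g1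
      obtain ⟨z', hz'⟩ := core_left k _ _ g2
      have e2 : ((2 : Fin 3) : ℕ) = 2 := rfl
      have e0 : ((0 : Fin 3) : ℕ) = 0 := rfl
      have e : a + 3 ^ (k + 1) + 3 ^ k * (((0 : Fin 3) : ℕ)) =
          a + 3 ^ k * (((2 : Fin 3) : ℕ)) + 3 ^ k := by
        rw [e2, e0, pow_succ]; ring
      have hl : C (a + 3 ^ k * (((2 : Fin 3) : ℕ)), z)
          (a + 3 ^ (k + 1) + 3 ^ k * (((0 : Fin 3) : ℕ)), z') := by
        have g2' := g2
        simp only at g2' hz' g1 hz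
        rw [e] at g2' hz' ⊢
        exact ih.hor _ _ g1 g2' _ _ _ _ hz hz'
      intro x y x' y' hx hx'
      refine hC.trans (hcon a b hg _ _ _ _ hx ⟨(2, j), g1, hz⟩) (hC.trans hl ?_)
      exact hcon _ _ hg' _ _ _ _ ⟨(0, j), g2, hz'⟩ hx'
    · intro a b hg hg'
      obtain ⟨c, hc⟩ := id hg
      obtain ⟨c', hc'⟩ := id hg'
      obtain ⟨j, hj, hj'⟩ : ∃ j : Fin 3, j ≠ c.1 ∧ j ≠ c'.1 := by
        have : ∀ u v : Fin 3, ∃ j : Fin 3, j ≠ u ∧ j ≠ v := by decide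
        exact this _ _
      have g1 := hc (j, 2) (by intro h; exact hj (congrArg Prod.fst h))
      have g2 := hc' (j, 0) (by intro h; exact hj' (congrArg Prod.fst h))
      obtain ⟨z, hz⟩ := core_left k _ _ g1
      obtain ⟨z', hz'⟩ := core_left k _ _ g2
      have e2 : ((2 : Fin 3) : ℕ) = 2 := rfl
      have e0 : ((0 : Fin 3) : ℕ) = 0 := rfl
      have e : b + 3 ^ (k + 1) + 3 ^ k * (((0 : Fin 3) : ℕ)) =
          b + 3 ^ k * (((2 : Fin 3) : ℕ)) + 3 ^ k := by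
        rw [e2, e0, pow_succ]; ring
      have hl : C (a + 3 ^ k * (j : ℕ), z) (a + 3 ^ k * (j : ℕ), z') := by
        have g2' := g2
        simp only at g2' hz' g1 hz
        rw [e] at g2' hz'
        exact ih.ver _ _ g1 g2' _ _ _ _ hz hz'
      intro x y x' y' hx hx'
      refine hC.trans (hcon a b hg _ _ _ _ hx ⟨(j, 2), g1, hz⟩) (hC.trans hl ?_)
      exact hcon _ _ hg' _ _ _ _ ⟨(j, 0), g2, hz'⟩ hx'

end

/-- goodness depends on the sites of the box only -/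
theorem good_congr : ∀ (k : ℕ) {s s' : ℕ → ℕ → Prop} {a b a' b' : ℕ},
    (∀ x y, x < 3 ^ k → y < 3 ^ k → (s (a + x) (b + y) ↔ s' (a' + x) (b' + y))) →
    (good s k a b ↔ good s' k a' b') := by
  intro k
  induction k with
  | zero =>
    intro s s' a b a' b' h
    have := h 0 0 (by simp) (by simp)
    simpa [good] using this
  | succ k ih =>
    intro s s' a b a' b' h
    have key : ∀ d : Fin 3 × Fin 3,
        (good s k (a + 3 ^ k * (d.1 : ℕ)) (b + 3 ^ k * (d.2 : ℕ)) ↔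
          good s' k (a' + 3 ^ k * (d.1 : ℕ)) (b' + 3 ^ k * (d.2 : ℕ))) := by
      intro d
      refine ih ?_
      intro x y hx hy
      have d1 := d.1.isLt
      have d2 := d.2.isLt
      have e1 : 3 ^ k * (d.1 : ℕ) ≤ 3 ^ k * 2 := Nat.mul_le_mul_left _ (by omega)
      have e2 : 3 ^ k * (d.2 : ℕ) ≤ 3 ^ k * 2 := Nat.mul_le_mul_left _ (by omega)
      have e3 : 3 ^ (k + 1) = 3 ^ k * 3 := pow_succ 3 k
      have := h (3 ^ k * (d.1 : ℕ) + x) (3 ^ k * (d.2 : ℕ) + y) (by omega) (by omega)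
      simpa [add_assoc] using this
    unfold good
    constructor
    · rintro ⟨c, hc⟩
      exact ⟨c, fun d hd => (key d).mp (hc d hd)⟩
    · rintro ⟨c, hc⟩
      exact ⟨c, fun d hd => (key d).mpr (hc d hd)⟩

theorem core_congr : ∀ (k : ℕ) {s s' : ℕ → ℕ → Prop} {a b a' b' u v : ℕ},
    (∀ x y, x < 3 ^ k → y < 3 ^ k → (s (a + x) (b + y) ↔ s' (a' + x) (b' + y))) →
    (core s k a b (a + u) (b + v) ↔ core s' k a' b' (a' + u) (b' + v)) := by
  intro k
  induction k with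
  | zero =>
    intro s s' a b a' b' u v h
    have := h 0 0 (by simp) (by simp)
    simp only [add_zero] at this
    simp [core, this]
  | succ k ih =>
    intro s s' a b a' b' u v h
    have hs : ∀ d : Fin 3 × Fin 3, ∀ x y, x < 3 ^ k → y < 3 ^ k →
        (s (a + 3 ^ k * (d.1 : ℕ) + x) (b + 3 ^ k * (d.2 : ℕ) + y) ↔
          s' (a' + 3 ^ k * (d.1 : ℕ) + x) (b' + 3 ^ k * (d.2 : ℕ) + y)) := by
      intro d x y hx hy
      have d1 := d.1.isLt
      have d2 := d.2.isLt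
      have e1 : 3 ^ k * (d.1 : ℕ) ≤ 3 ^ k * 2 := Nat.mul_le_mul_left _ (by omega)
      have e2 : 3 ^ k * (d.2 : ℕ) ≤ 3 ^ k * 2 := Nat.mul_le_mul_left _ (by omega)
      have e3 : 3 ^ (k + 1) = 3 ^ k * 3 := pow_succ 3 k
      have := h (3 ^ k * (d.1 : ℕ) + x) (3 ^ k * (d.2 : ℕ) + y) (by omega) (by omega)
      simpa [add_assoc] using this
    have key : ∀ d : Fin 3 × Fin 3,
        (core s k (a + 3 ^ k * (d.1 : ℕ)) (b + 3 ^ k * (d.2 : ℕ)) (a + u) (b + v) ↔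
          core s' k (a' + 3 ^ k * (d.1 : ℕ)) (b' + 3 ^ k * (d.2 : ℕ)) (a' + u) (b' + v)) := by
      intro d
      by_cases hu : 3 ^ k * (d.1 : ℕ) ≤ u
      · by_cases hv : 3 ^ k * (d.2 : ℕ) ≤ v
        · have := ih (s := s) (s' := s') (a := a + 3 ^ k * (d.1 : ℕ))
            (b := b + 3 ^ k * (d.2 : ℕ)) (a' := a' + 3 ^ k * (d.1 : ℕ))
            (b' := b' + 3 ^ k * (d.2 : ℕ)) (u := u - 3 ^ k * (d.1 : ℕ))
            (v := v - 3 ^ k * (d.2 : ℕ)) (hs d)
          have q1 : a + 3 ^ k * (d.1 : ℕ) + (u - 3 ^ k * (d.1 : ℕ)) = a + u := by omega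
          have q2 : b + 3 ^ k * (d.2 : ℕ) + (v - 3 ^ k * (d.2 : ℕ)) = b + v := by omega
          have q3 : a' + 3 ^ k * (d.1 : ℕ) + (u - 3 ^ k * (d.1 : ℕ)) = a' + u := by omega
          have q4 : b' + 3 ^ k * (d.2 : ℕ) + (v - 3 ^ k * (d.2 : ℕ)) = b' + v := by omega
          rw [q1, q2, q3, q4] at this
          exact this
        · constructor <;> intro h
          · have := (core_range _ _ _ _ _ h).2.1.1; omega
          · have := (core_range _ _ _ _ _ h).2.1.1; omega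
      · constructor <;> intro h
        · have := (core_range _ _ _ _ _ h).1.1; omega
        · have := (core_range _ _ _ _ _ h).1.1; omega
    have key2 : ∀ d : Fin 3 × Fin 3,
        (good s k (a + 3 ^ k * (d.1 : ℕ)) (b + 3 ^ k * (d.2 : ℕ)) ↔
          good s' k (a' + 3 ^ k * (d.1 : ℕ)) (b' + 3 ^ k * (d.2 : ℕ))) :=
      fun d => good_congr k (hs d)
    unfold core
    constructor
    · rintro ⟨d, h1, h2⟩
      exact ⟨d, (key2 d).mp h1, (key d).mp h2⟩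
    · rintro ⟨d, h1, h2⟩
      exact ⟨d, (key2 d).mpr h1, (key d).mpr h2⟩

end Pool.Agent.Q325.Pc
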