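import Mathlib

/-! Finite product probability with Bernoulli coordinates, by finite sums. -/

namespace Pool.Agent.Q325.Pc

open Finset

noncomputable section

open Classical

variable {ι ι' ι'' : Type*} [Fintype ι] [Fintype ι'] [Fintype ι'']

theorem univ_inst {α : Type*} (i j : Fintype α) :
    @Finset.univ α i = @Finset.univ α j :=
  congrArg (fun i : Fintype α => @Finset.univ α i) (Subsingleton.elim i j)

/-- the weight of a configuration -/
def wt (p : ℝ) (ω : ι → Bool) : ℝ := ∏ i, (if ω i = true then p else 1 - p)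

/-- the probability of an event -/
def Pr (p : ℝ) (A : (ι → Bool) → Prop) : ℝ := ∑ ω : ι → Bool, if A ω then wt p ω else 0

theorem wt_nonneg {p : ℝ} (h0 : 0 ≤ p) (h1 : p ≤ 1) (ω : ι → Bool) : 0 ≤ wt p ω := by
  unfold wt
  refine Finset.prod_nonneg fun i _ => ?_
  split_ifs <;> linarith

theorem Pr_nonneg {p : ℝ} (h0 : 0 ≤ p) (h1 : p ≤ 1) (A : (ι → Bool) → Prop) : 0 ≤ Pr p A := by
  unfold Pr
  refine Finset.sum_nonneg fun ω _ => ?_
  split_ifs
  · exact wt_nonneg h0 h1 ω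
  · exact le_refl _

theorem Pr_true (p : ℝ) : Pr (ι := ι) p (fun _ => True) = 1 := by
  unfold Pr wt
  simp only [if_true]
  have h := Fintype.prod_sum (R := ℝ) (fun (i : ι) (b : Bool) => if b = true then p else 1 - p)
  rw [← h]
  simp

theorem Pr_pos {p : ℝ} (h0 : 0 < p) (h1 : p < 1) (A : (ι → Bool) → Prop) (ω₀ : ι → Bool)
    (h : A ω₀) : 0 < Pr p A := by
  unfold Pr
  refine Finset.sum_pos' ?_ ⟨ω₀, Finset.mem_univ _, ?_⟩
  · intro ω _
    split_ifs
    · exact wt_nonneg h0.le h1.le ω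
    · exact le_refl _
  · rw [if_pos h]
    unfold wt
    refine Finset.prod_pos fun i _ => ?_
    split_ifs <;> linarith

theorem Pr_mono {p : ℝ} (h0 : 0 ≤ p) (h1 : p ≤ 1) {A B : (ι → Bool) → Prop}
    (h : ∀ ω, A ω → B ω) : Pr p A ≤ Pr p B := by
  unfold Pr
  refine Finset.sum_le_sum fun ω _ => ?_
  by_cases hA : A ω
  · simp [hA, h ω hA]
  · simp only [hA, if_false]
    split_ifs
    · exact wt_nonneg h0 h1 ω
    · exact le_refl _

theorem Pr_congr {p : ℝ} {A B : (ι → Bool) → Prop}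
    (h : ∀ ω, A ω ↔ B ω) : Pr p A = Pr p B := by
  have : A = B := funext fun ω => propext (h ω)
  rw [this]

theorem Pr_le_one {p : ℝ} (h0 : 0 ≤ p) (h1 : p ≤ 1) (A : (ι → Bool) → Prop) : Pr p A ≤ 1 := by
  rw [← Pr_true (ι := ι) p]
  exact Pr_mono h0 h1 (fun _ _ => trivial)

theorem Pr_or {p : ℝ} (h0 : 0 ≤ p) (h1 : p ≤ 1) (A B : (ι → Bool) → Prop) :
    Pr p (fun ω => A ω ∨ B ω) ≤ Pr p A + Pr p B := by
  unfold Pr
  rw [← Finset.sum_add_distrib]
  refine Finset.sum_le_sum fun ω _ => ?_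
  have := wt_nonneg h0 h1 ω
  by_cases hA : A ω <;> by_cases hB : B ω <;> simp [hA, hB, this]

theorem Pr_not {p : ℝ} (A : (ι → Bool) → Prop) :
    Pr p (fun ω => ¬ A ω) = 1 - Pr p A := by
  rw [← Pr_true (ι := ι) p]
  unfold Pr
  rw [← Finset.sum_sub_distrib]
  refine Finset.sum_congr rfl fun ω _ => ?_
  by_cases hA : A ω <;> simp [hA]

/-- union bound over a finite set -/
theorem Pr_exists {p : ℝ} (h0 : 0 ≤ p) (h1 : p ≤ 1) {κ : Type*} (s : Finset κ)
    (A : κ → (ι → Bool) → Prop) :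
    Pr p (fun ω => ∃ k ∈ s, A k ω) ≤ ∑ k ∈ s, Pr p (A k) := by
  induction s using Finset.induction_on with
  | empty =>
    simp only [Finset.notMem_empty, false_and, exists_false, Finset.sum_empty]
    unfold Pr
    simp
  | insert a s ha ih =>
    rw [Finset.sum_insert ha]
    refine le_trans (Pr_mono h0 h1 (B := fun ω => A a ω ∨ ∃ k ∈ s, A k ω) ?_) ?_
    · rintro ω ⟨k, hk, hA⟩
      rcases Finset.mem_insert.mp hk with rfl | hk
      · exact Or.inl hA
      · exact Or.inr ⟨k, hk, hA⟩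
    · exact le_trans (Pr_or h0 h1 _ _) (by linarith)

/-- Lower bound for an intersection. -/
theorem Pr_and_ge {p : ℝ} (h0 : 0 ≤ p) (h1 : p ≤ 1) (A B : (ι → Bool) → Prop) :
    Pr p A - Pr p (fun ω => ¬ B ω) ≤ Pr p (fun ω => A ω ∧ B ω) := by
  have := le_trans (Pr_mono h0 h1 (A := A) (B := fun ω => (A ω ∧ B ω) ∨ ¬ B ω) (by
    intro ω h
    by_cases hB : B ω
    · exact Or.inl ⟨h, hB⟩
    · exact Or.inr hB)) (Pr_or h0 h1 _ _)
  linarith

theorem wt_sum (p : ℝ) (ω : ι ⊕ ι' → Bool) :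
    wt p ω = wt p (fun i => ω (Sum.inl i)) * wt p (fun i => ω (Sum.inr i)) := by
  unfold wt
  rw [Fintype.prod_sum_type]

/-- the sum over the configurations on a disjoint union -/
theorem Pr_sum (p : ℝ) (A : (ι ⊕ ι' → Bool) → Prop) :
    Pr p A = ∑ ω : ι → Bool, ∑ ω' : ι' → Bool,
      if A (Sum.elim ω ω') then wt p ω * wt p ω' else 0 := by
  unfold Pr
  have hp := Fintype.sum_prod_type' (f := fun (ω : ι → Bool) (ω' : ι' → Bool) =>
    if A (Sum.elim ω ω') then wt p ω * wt p ω' else 0)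
  refine Eq.trans ?_ hp
  have he := Fintype.sum_equiv (Equiv.sumArrowEquivProdArrow ι ι' Bool)
    (fun ω => if A ω then wt p ω else 0)
    (fun x => if A (Sum.elim x.1 x.2) then wt p x.1 * wt p x.2 else 0) ?_
  · refine Eq.trans ?_ he
    refine Finset.sum_congr ?_ (fun _ _ => rfl)
    exact univ_inst _ _
  intro ω
  have h : Sum.elim (ω ∘ Sum.inl) (ω ∘ Sum.inr) = ω := Sum.elim_comp_inl_inr ω
  simp only [Equiv.sumArrowEquivProdArrow, Equiv.coe_fn_mk, h]
  rw [wt_sum]
  rfl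

theorem Pr_equiv (p : ℝ) (e : ι' ≃ ι) (A : (ι' → Bool) → Prop) :
    Pr p (fun ω : ι → Bool => A (fun i => ω (e i))) = Pr p A := by
  unfold Pr
  refine Fintype.sum_equiv (Equiv.arrowCongr e.symm (Equiv.refl Bool)) _ _ ?_
  intro ω
  have hw : wt p ((Equiv.arrowCongr e.symm (Equiv.refl Bool)) ω) = wt p ω := by
    unfold wt
    refine Fintype.prod_equiv e _ _ ?_
    intro i
    simp [Equiv.arrowCongr]
  rw [hw]
  congr 1

theorem sel_sum {p : ℝ} (h0 : 0 ≤ p) (h1 : p ≤ 1) {Y : Type*} (A : (ι → Bool) → Prop)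
    (w : (ι → Bool) → Y) (B : Y → (ι' → Bool) → Prop) (ε : ℝ)
    (hB : ∀ y, Pr p (B y) ≤ ε) :
    Pr p (fun ω : ι ⊕ ι' → Bool => A (fun i => ω (Sum.inl i)) ∧
      B (w (fun i => ω (Sum.inl i))) (fun i => ω (Sum.inr i))) ≤ Pr p A * ε := by
  rw [Pr_sum]
  unfold Pr
  rw [Finset.sum_mul]
  refine Finset.sum_le_sum fun ω _ => ?_
  by_cases hA : A ω
  · simp only [Sum.elim_inl, Sum.elim_inr, hA, true_and, if_true]
    have := hB (w ω)
    unfold Pr at this
    have h2 := mul_le_mul_of_nonneg_left this (wt_nonneg h0 h1 ω)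
    rw [Finset.mul_sum] at h2
    refine le_trans (le_of_eq ?_) h2
    refine Finset.sum_congr rfl fun ω' _ => ?_
    split_ifs <;> simp
  · simp [hA]

theorem and_sum (p : ℝ) (A : (ι → Bool) → Prop) (B : (ι' → Bool) → Prop) :
    Pr p (fun ω : ι ⊕ ι' → Bool => A (fun i => ω (Sum.inl i)) ∧
      B (fun i => ω (Sum.inr i))) = Pr p A * Pr p B := by
  rw [Pr_sum]
  unfold Pr
  rw [Finset.sum_mul]
  refine Finset.sum_congr rfl fun ω _ => ?_
  rw [Finset.mul_sum]
  refine Finset.sum_congr rfl fun ω' _ => ?_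
  by_cases hA : A ω <;> by_cases hB : B ω' <;> simp [hA, hB]

/-- the decomposition of the index set along an injection -/
def splitEquiv (f : ι' → ι) (hf : Function.Injective f) :
    ι' ⊕ {i // i ∉ Set.range f} ≃ ι :=
  (Equiv.sumCongr (Equiv.ofInjective f hf) (Equiv.refl _)).trans
    (Equiv.sumCompl (fun i => i ∈ Set.range f))

omit [Fintype ι] in
theorem splitEquiv_inl (f : ι' → ι) (hf : Function.Injective f) (i : ι') :
    splitEquiv f hf (Sum.inl i) = f i := by
  simp [splitEquiv]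

/-- **marginal law** -/
theorem marg (p : ℝ) (f : ι' → ι) (hf : Function.Injective f) (A : (ι' → Bool) → Prop) :
    Pr p (fun ω : ι → Bool => A (fun i => ω (f i))) = Pr p A := by
  have h1 := Pr_equiv p (splitEquiv f hf) (fun ω => A (fun i => ω (Sum.inl i)) ∧ True)
  have h2 := and_sum (ι' := {i // i ∉ Set.range f}) p A (fun _ => True)
  rw [Pr_true, mul_one] at h2
  rw [← h2]
  refine Eq.trans ?_ h1
  refine Pr_congr fun ω => ?_
  simp only [splitEquiv_inl, and_true]

/-- **independence** -/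
theorem marg2 (p : ℝ) (f : ι' → ι) (g : ι'' → ι) (hf : Function.Injective f)
    (hg : Function.Injective g) (hd : ∀ i j, f i ≠ g j) (A : (ι' → Bool) → Prop)
    (B : (ι'' → Bool) → Prop) :
    Pr p (fun ω : ι → Bool => A (fun i => ω (f i)) ∧ B (fun i => ω (g i))) =
      Pr p A * Pr p B := by
  rw [← and_sum]
  have hinj : Function.Injective (Sum.elim f g) := by
    rintro (a | a) (b | b) h
    · simp only [Sum.elim_inl] at h
      rw [hf h]
    · exact absurd h (hd a b)
    · exact absurd h.symm (hd b a)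
    · simp only [Sum.elim_inr] at h
      rw [hg h]
  have := marg p (Sum.elim f g) hinj (fun ω : ι' ⊕ ι'' → Bool =>
    A (fun i => ω (Sum.inl i)) ∧ B (fun i => ω (Sum.inr i)))
  simpa using this

/-- **selection with independence** -/
theorem sel {p : ℝ} (h0 : 0 ≤ p) (h1 : p ≤ 1) {Y : Type*} (f : ι' → ι) (g : ι'' → ι)
    (hf : Function.Injective f) (hg : Function.Injective g) (hd : ∀ i j, f i ≠ g j)
    (A : (ι' → Bool) → Prop) (w : (ι' → Bool) → Y) (B : Y → (ι'' → Bool) → Prop) (ε : ℝ)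
    (hB : ∀ y, Pr p (B y) ≤ ε) :
    Pr p (fun ω : ι → Bool => A (fun i => ω (f i)) ∧
      B (w (fun i => ω (f i))) (fun i => ω (g i))) ≤ Pr p A * ε := by
  have hinj : Function.Injective (Sum.elim f g) := by
    rintro (a | a) (b | b) h
    · simp only [Sum.elim_inl] at h
      rw [hf h]
    · exact absurd h (hd a b)
    · exact absurd h.symm (hd b a)
    · simp only [Sum.elim_inr] at h
      rw [hg h]
  refine le_trans (le_of_eq ?_) (sel_sum h0 h1 A w B ε hB)
  have := marg p (Sum.elim f g) hinj (fun ω : ι' ⊕ ι'' → Bool =>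
    A (fun i => ω (Sum.inl i)) ∧ B (w (fun i => ω (Sum.inl i))) (fun i => ω (Sum.inr i)))
  simpa using this

end

end Pool.Agent.Q325.Pc
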