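import Mathlib
import Pool.Agent.Q325.PcProb
import Pool.Agent.Q325.PcGeo

/-! Probabilities of good boxes. -/

namespace Pool.Agent.Q325.Pc

open Finset

/-- the edges of a box -/
abbrev BI (k : ℕ) : Type := Fin (3 ^ k) × Fin (3 ^ k) × Bool

/-- good sites of a configuration of a box -/
def sB {k : ℕ} (τ : BI k → Bool) (x y : ℕ) : Prop :=
  ∃ (hx : x < 3 ^ k) (hy : y < 3 ^ k), τ (⟨x, hx⟩, ⟨y, hy⟩, false) = true ∧
    τ (⟨x, hx⟩, ⟨y, hy⟩, true) = true

theorem good_box {ι : Type*} {k : ℕ} (ω : ι → Bool) (s : ℕ → ℕ → Prop) (a b : ℕ)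
    (f : BI k → ι)
    (h : ∀ x y (hx : x < 3 ^ k) (hy : y < 3 ^ k), s (a + x) (b + y) ↔
      (ω (f (⟨x, hx⟩, ⟨y, hy⟩, false)) = true ∧ ω (f (⟨x, hx⟩, ⟨y, hy⟩, true)) = true)) :
    good s k a b ↔ good (sB (fun i => ω (f i))) k 0 0 := by
  refine good_congr k ?_
  intro x y hx hy
  rw [h x y hx hy, zero_add, zero_add]
  unfold sB
  constructor
  · intro h'
    exact ⟨hx, hy, h'⟩
  · rintro ⟨_, _, h'⟩
    exact h'

theorem core_box {ι : Type*} {k : ℕ} (ω : ι → Bool) (s : ℕ → ℕ → Prop) (a b : ℕ)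
    (f : BI k → ι) (u v : ℕ)
    (h : ∀ x y (hx : x < 3 ^ k) (hy : y < 3 ^ k), s (a + x) (b + y) ↔
      (ω (f (⟨x, hx⟩, ⟨y, hy⟩, false)) = true ∧ ω (f (⟨x, hx⟩, ⟨y, hy⟩, true)) = true)) :
    core s k a b (a + u) (b + v) ↔ core (sB (fun i => ω (f i))) k 0 0 u v := by
  have := core_congr k (s := s) (s' := sB (fun i => ω (f i))) (a := a) (b := b) (a' := 0)
    (b' := 0) (u := u) (v := v) ?_
  · simpa using this
  intro x y hx hy
  rw [h x y hx hy, zero_add, zero_add]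
  unfold sB
  constructor
  · intro h'
    exact ⟨hx, hy, h'⟩
  · rintro ⟨_, _, h'⟩
    exact h'

/-- probability that a box is bad -/
noncomputable def qk (p : ℝ) (k : ℕ) : ℝ := Pr p (fun τ : BI k → Bool => ¬ good (sB τ) k 0 0)

/-- sub-box inclusion -/
def sub (k : ℕ) (d : Fin 3 × Fin 3) (i : BI k) : BI (k + 1) :=
  (⟨3 ^ k * (d.1 : ℕ) + i.1, by
      have d1 := d.1.isLt
      have e1 : 3 ^ k * (d.1 : ℕ) ≤ 3 ^ k * 2 := Nat.mul_le_mul_left _ (by omega)
      have e3 : 3 ^ (k + 1) = 3 ^ k * 3 := pow_succ 3 k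
      have := i.1.isLt
      omega⟩,
   ⟨3 ^ k * (d.2 : ℕ) + i.2.1, by
      have d1 := d.2.isLt
      have e1 : 3 ^ k * (d.2 : ℕ) ≤ 3 ^ k * 2 := Nat.mul_le_mul_left _ (by omega)
      have e3 : 3 ^ (k + 1) = 3 ^ k * 3 := pow_succ 3 k
      have := i.2.1.isLt
      omega⟩, i.2.2)

theorem mul_add_cancel' {m a b x y : ℕ} (hx : x < m) (hy : y < m)
    (h : m * a + x = m * b + y) : a = b ∧ x = y := by
  have hm : 0 < m := by omega
  have h1 := congrArg (· / m) h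
  simp only [Nat.mul_add_div hm, Nat.div_eq_of_lt hx, Nat.div_eq_of_lt hy, add_zero] at h1
  subst h1
  exact ⟨rfl, by omega⟩

theorem sub_eq {k : ℕ} {d e : Fin 3 × Fin 3} {i j : BI k} (h : sub k d i = sub k e j) :
    d = e ∧ i = j := by
  simp only [sub, Prod.mk.injEq, Fin.mk.injEq] at h
  obtain ⟨h1, h2, h3⟩ := h
  obtain ⟨a1, a2⟩ := mul_add_cancel' i.1.isLt j.1.isLt h1
  obtain ⟨b1, b2⟩ := mul_add_cancel' i.2.1.isLt j.2.1.isLt h2
  exact ⟨Prod.ext (Fin.ext a1) (Fin.ext b1), Prod.ext (Fin.ext a2) (Prod.ext (Fin.ext b2) h3)⟩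

theorem sub_sites {k : ℕ} (τ : BI (k + 1) → Bool) (d : Fin 3 × Fin 3) :
    ∀ x y (hx : x < 3 ^ k) (hy : y < 3 ^ k),
      sB τ (0 + 3 ^ k * (d.1 : ℕ) + x) (0 + 3 ^ k * (d.2 : ℕ) + y) ↔
      (τ (sub k d (⟨x, hx⟩, ⟨y, hy⟩, false)) = true ∧
        τ (sub k d (⟨x, hx⟩, ⟨y, hy⟩, true)) = true) := by
  intro x y hx hy
  unfold sB
  have d1 := d.1.isLt
  have d2 := d.2.isLt
  have e1 : 3 ^ k * (d.1 : ℕ) ≤ 3 ^ k * 2 := Nat.mul_le_mul_left _ (by omega)
  have e2 : 3 ^ k * (d.2 : ℕ) ≤ 3 ^ k * 2 := Nat.mul_le_mul_left _ (by omega)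
  have e3 : 3 ^ (k + 1) = 3 ^ k * 3 := pow_succ 3 k
  constructor
  · rintro ⟨h1, h2, h3, h4⟩
    simp only [zero_add] at h3 h4
    exact ⟨h3, h4⟩
  · rintro ⟨h3, h4⟩
    refine ⟨by omega, by omega, ?_⟩
    simp only [zero_add]
    exact ⟨h3, h4⟩

theorem qk_zero {p : ℝ} (h0 : 0 ≤ p) (h1 : p ≤ 1) : qk p 0 ≤ 2 * (1 - p) := by
  unfold qk
  have hs : ∀ τ : BI 0 → Bool, (¬ good (sB τ) 0 0 0) →
      (¬ τ (0, 0, false) = true) ∨ (¬ τ (0, 0, true) = true) := by
    intro τ h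
    by_contra hcon
    push Not at hcon
    apply h
    refine ⟨by simp, by simp, hcon.1, hcon.2⟩
  refine le_trans (Pr_mono h0 h1 hs) (le_trans (Pr_or h0 h1 _ _) ?_)
  have key : ∀ t : Bool, Pr p (fun τ : BI 0 → Bool => ¬ τ (0, 0, t) = true) = 1 - p := by
    intro t
    have := marg p (fun _ : Unit => ((0, 0, t) : BI 0)) (fun _ _ _ => rfl)
      (fun τ => ¬ τ () = true)
    rw [this]
    have he := Fintype.sum_equiv (Equiv.funUnique Unit Bool)
      (fun τ => if ¬ τ () = true then wt p τ else 0)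
      (fun b => if ¬ b = true then (if b = true then p else 1 - p) else 0) ?_
    · unfold Pr
      refine Eq.trans (Eq.trans ?_ he) ?_
      · refine Finset.sum_congr (univ_inst _ _) ?_
        intro x _
        by_cases h : x () = true <;> simp [h]
      · simp
    · intro τ
      simp [wt]
  rw [key, key]
  linarith

theorem good_sub {k : ℕ} (τ : BI (k + 1) → Bool) (d : Fin 3 × Fin 3) :
    good (sB τ) k (0 + 3 ^ k * (d.1 : ℕ)) (0 + 3 ^ k * (d.2 : ℕ)) ↔
      good (sB (fun i => τ (sub k d i))) k 0 0 :=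
  good_box τ (sB τ) _ _ (sub k d) (sub_sites τ d)

theorem qk_succ {p : ℝ} (h0 : 0 ≤ p) (h1 : p ≤ 1) (k : ℕ) :
    qk p (k + 1) ≤ 81 * (qk p k) ^ 2 := by
  have hs : ∀ τ : BI (k + 1) → Bool, (¬ good (sB τ) (k + 1) 0 0) →
      ∃ de ∈ (Finset.univ : Finset ((Fin 3 × Fin 3) × (Fin 3 × Fin 3))).filter
        (fun de => de.1 ≠ de.2),
        (¬ good (sB (fun i => τ (sub k de.1 i))) k 0 0) ∧
        (¬ good (sB (fun i => τ (sub k de.2 i))) k 0 0) := by
    intro τ h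
    unfold good at h
    push Not at h
    obtain ⟨d, hd, hd'⟩ := h (0, 0)
    obtain ⟨e, he, he'⟩ := h d
    rw [good_sub] at hd' he'
    exact ⟨(e, d), by simpa using he, he', hd'⟩
  unfold qk
  refine le_trans (Pr_mono h0 h1 hs) (le_trans (Pr_exists h0 h1 _ _) ?_)
  have hterm : ∀ de ∈ (Finset.univ : Finset ((Fin 3 × Fin 3) × (Fin 3 × Fin 3))).filter
        (fun de => de.1 ≠ de.2),
      Pr p (fun τ : BI (k + 1) → Bool => (¬ good (sB (fun i => τ (sub k de.1 i))) k 0 0) ∧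
        (¬ good (sB (fun i => τ (sub k de.2 i))) k 0 0)) ≤ (qk p k) ^ 2 := by
    intro de hde
    have hne : de.1 ≠ de.2 := by simpa using hde
    have := marg2 p (sub k de.1) (sub k de.2) (fun i j h => (sub_eq h).2)
      (fun i j h => (sub_eq h).2) (fun i j h => hne (sub_eq h).1)
      (fun τ : BI k → Bool => ¬ good (sB τ) k 0 0) (fun τ : BI k → Bool => ¬ good (sB τ) k 0 0)
    rw [this, sq]
    exact le_refl _
  refine le_trans (Finset.sum_le_card_nsmul _ _ _ hterm) ?_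
  have hc : ((Finset.univ : Finset ((Fin 3 × Fin 3) × (Fin 3 × Fin 3))).filter
        (fun de => de.1 ≠ de.2)).card ≤ 81 := by
    refine le_trans (Finset.card_filter_le _ _) ?_
    simp [Fintype.card_prod]
  rw [nsmul_eq_mul]
  have hc' : (((Finset.univ : Finset ((Fin 3 × Fin 3) × (Fin 3 × Fin 3))).filter
        (fun de => de.1 ≠ de.2)).card : ℝ) ≤ 81 := by exact_mod_cast hc
  exact mul_le_mul_of_nonneg_right hc' (sq_nonneg _)

theorem qk_nonneg {p : ℝ} (h0 : 0 ≤ p) (h1 : p ≤ 1) (k : ℕ) : 0 ≤ qk p k := Pr_nonneg h0 h1 _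

/-- the parameter of the percolation -/
noncomputable def p0 : ℝ := 1 - 1 / 100000

theorem p0_nonneg : 0 ≤ p0 := by unfold p0; norm_num
theorem p0_le : p0 ≤ 1 := by unfold p0; norm_num

theorem qk_bound (k : ℕ) : qk p0 k ≤ (1 / 50000) * (1 / 500) ^ k := by
  induction k with
  | zero =>
    refine le_trans (qk_zero p0_nonneg p0_le) ?_
    unfold p0
    norm_num
  | succ k ih =>
    refine le_trans (qk_succ p0_nonneg p0_le k) ?_
    have hn := qk_nonneg p0_nonneg p0_le k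
    have hp : (0 : ℝ) < (1 / 500) ^ k := by positivity
    have hp1 : ((1 : ℝ) / 500) ^ k ≤ 1 := pow_le_one₀ (by norm_num) (by norm_num)
    have h2 : (qk p0 k) ^ 2 ≤ ((1 / 50000) * (1 / 500) ^ k) * (1 / 50000) := by
      rw [sq]
      refine mul_le_mul ih ?_ hn (by positivity)
      refine le_trans ih ?_
      nlinarith
    have e : ((1 : ℝ) / 500) ^ (k + 1) = (1 / 500) ^ k * (1 / 500) := pow_succ _ _
    rw [e]
    nlinarith

/-- a given site is in the core of a good box with high probability -/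
theorem rk_bound (k : ℕ) : ∀ u v : ℕ, u < 3 ^ k → v < 3 ^ k →
    Pr p0 (fun τ : BI k → Bool => ¬ (good (sB τ) k 0 0 ∧ core (sB τ) k 0 0 u v)) ≤
      1 / 25000 - (1 / 50000) * (1 / 500) ^ k := by
  induction k with
  | zero =>
    intro u v hu hv
    have hu0 : u = 0 := by simpa using hu
    have hv0 : v = 0 := by simpa using hv
    subst hu0
    subst hv0
    refine le_trans (Pr_mono p0_nonneg p0_le (B := fun τ : BI 0 → Bool => ¬ good (sB τ) 0 0 0)
      ?_) ?_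
    · intro τ h hg
      exact h ⟨hg, rfl, rfl, hg⟩
    · have := qk_bound 0
      unfold qk at this
      refine le_trans this ?_
      norm_num
  | succ k ih =>
    intro u v hu hv
    have hpos : 0 < 3 ^ k := by positivity
    have e3 : 3 ^ (k + 1) = 3 ^ k * 3 := pow_succ 3 k
    have hd1 : u / 3 ^ k < 3 := by
      rw [Nat.div_lt_iff_lt_mul hpos]; omega
    have hd2 : v / 3 ^ k < 3 := by
      rw [Nat.div_lt_iff_lt_mul hpos]; omega
    set d : Fin 3 × Fin 3 := (⟨u / 3 ^ k, hd1⟩, ⟨v / 3 ^ k, hd2⟩) with hd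
    have hmu : u = 0 + 3 ^ k * (d.1 : ℕ) + u % 3 ^ k := by
      rw [zero_add]; exact (Nat.div_add_mod u (3 ^ k)).symm
    have hmv : v = 0 + 3 ^ k * (d.2 : ℕ) + v % 3 ^ k := by
      rw [zero_add]; exact (Nat.div_add_mod v (3 ^ k)).symm
    refine le_trans (Pr_mono p0_nonneg p0_le
      (B := fun τ : BI (k + 1) → Bool => (¬ good (sB τ) (k + 1) 0 0) ∨
        ¬ (good (sB (fun i => τ (sub k d i))) k 0 0 ∧
          core (sB (fun i => τ (sub k d i))) k 0 0 (u % 3 ^ k) (v % 3 ^ k))) ?_) ?_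
    · intro τ h
      by_contra hcon
      push Not at hcon
      obtain ⟨h1, h2, h3⟩ := hcon
      apply h
      refine ⟨h1, d, (good_sub τ d).mpr h2, ?_⟩
      have := (core_box τ (sB τ) (0 + 3 ^ k * (d.1 : ℕ)) (0 + 3 ^ k * (d.2 : ℕ))
        (sub k d) (u % 3 ^ k) (v % 3 ^ k) (sub_sites τ d)).mpr h3
      rw [← hmu, ← hmv] at this
      exact this
    · refine le_trans (Pr_or p0_nonneg p0_le _ _) ?_
      have hm := marg p0 (sub k d) (fun i j h => (sub_eq h).2) (fun τ : BI k → Bool =>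
        ¬ (good (sB τ) k 0 0 ∧ core (sB τ) k 0 0 (u % 3 ^ k) (v % 3 ^ k)))
      rw [hm]
      have h1 := ih (u % 3 ^ k) (v % 3 ^ k) (Nat.mod_lt _ hpos) (Nat.mod_lt _ hpos)
      have h2 := qk_bound (k + 1)
      unfold qk at h2
      have hp : (0 : ℝ) < (1 / 500) ^ k := by positivity
      have e : ((1 : ℝ) / 500) ^ (k + 1) = (1 / 500) ^ k * (1 / 500) := pow_succ _ _
      rw [e] at h2 ⊢
      nlinarith

end Pool.Agent.Q325.Pc
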