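import Mathlib
import Pool.Agent.Q325.PcGeo

/-! Connections in windows of a cylinder. -/

namespace Pool.Agent.Q325.Pc

variable {M : ℕ}

/-- configurations of the cylinder: column, row, edge (`false`: to the right, `true`: up) -/
abbrev Cf (M : ℕ) : Type := ℕ → ZMod M → Bool → Bool

/-- an open edge inside the window `[a,b)` -/
def st (ω : Cf M) (a b : ℕ) (u v : ℕ × ZMod M) : Prop :=
  (a ≤ u.1 ∧ u.1 < b ∧ a ≤ v.1 ∧ v.1 < b) ∧
    ((v.1 = u.1 + 1 ∧ v.2 = u.2 ∧ ω u.1 u.2 false = true) ∨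
      (v.1 = u.1 ∧ v.2 = u.2 + 1 ∧ ω u.1 u.2 true = true))

def ss (ω : Cf M) (a b : ℕ) (u v : ℕ × ZMod M) : Prop := st ω a b u v ∨ st ω a b v u

/-- connected by an open path inside the window -/
def Conn (ω : Cf M) (a b : ℕ) (u v : ℕ × ZMod M) : Prop := Relation.ReflTransGen (ss ω a b) u v

theorem ss_symm {ω : Cf M} {a b : ℕ} {u v : ℕ × ZMod M} (h : ss ω a b u v) : ss ω a b v u := h.symm

theorem Conn.refl {ω : Cf M} {a b : ℕ} (u : ℕ × ZMod M) : Conn ω a b u u :=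
  Relation.ReflTransGen.refl

theorem Conn.trans {ω : Cf M} {a b : ℕ} {u v w : ℕ × ZMod M} (h : Conn ω a b u v)
    (h' : Conn ω a b v w) : Conn ω a b u w := Relation.ReflTransGen.trans h h'

theorem Conn.symm {ω : Cf M} {a b : ℕ} {u v : ℕ × ZMod M} (h : Conn ω a b u v) :
    Conn ω a b v u := by
  unfold Conn at *
  induction h with
  | refl => exact Relation.ReflTransGen.refl
  | tail _ h ih => exact Relation.ReflTransGen.head h.symm ih

theorem Conn.mono {ω : Cf M} {a b a' b' : ℕ} (ha : a' ≤ a) (hb : b ≤ b') {u v : ℕ × ZMod M}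
    (h : Conn ω a b u v) : Conn ω a' b' u v := by
  refine Relation.ReflTransGen.mono ?_ _ _ h
  rintro x y (⟨⟨h1, h2, h3, h4⟩, h⟩ | ⟨⟨h1, h2, h3, h4⟩, h⟩)
  · exact Or.inl ⟨⟨by omega, by omega, by omega, by omega⟩, h⟩
  · exact Or.inr ⟨⟨by omega, by omega, by omega, by omega⟩, h⟩

theorem Conn.congr {ω ω' : Cf M} {a b : ℕ}
    (hω : ∀ x, a ≤ x → x < b → ∀ y t, ω x y t = ω' x y t) {u v : ℕ × ZMod M}
    (h : Conn ω a b u v) : Conn ω' a b u v := by
  refine Relation.ReflTransGen.mono ?_ _ _ h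
  rintro x y (⟨⟨h1, h2, h3, h4⟩, h⟩ | ⟨⟨h1, h2, h3, h4⟩, h⟩)
  · refine Or.inl ⟨⟨h1, h2, h3, h4⟩, ?_⟩
    rw [hω _ h1 h2, hω _ h1 h2] at h
    exact h
  · refine Or.inr ⟨⟨h1, h2, h3, h4⟩, ?_⟩
    rw [hω _ h1 h2, hω _ h1 h2] at h
    exact h

/-- translation of configurations -/
def sh (c : ℕ) (ω : Cf M) : Cf M := fun x y t => ω (x + c) y t

theorem Conn.of_sh {c : ℕ} {ω : Cf M} {a b : ℕ} {u v : ℕ × ZMod M}
    (h : Conn (sh c ω) a b u v) : Conn ω (a + c) (b + c) (u.1 + c, u.2) (v.1 + c, v.2) := by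
  refine Relation.ReflTransGen.lift (fun u : ℕ × ZMod M => (u.1 + c, u.2)) ?_ _ _ h
  rintro x y (⟨⟨h1, h2, h3, h4⟩, h⟩ | ⟨⟨h1, h2, h3, h4⟩, h⟩)
  · refine Or.inl ⟨⟨by simpa using h1, by simpa using h2, by simpa using h3,
      by simpa using h4⟩, ?_⟩
    rcases h with ⟨e1, e2, e3⟩ | ⟨e1, e2, e3⟩
    · exact Or.inl ⟨by simp only; omega, e2, e3⟩
    · exact Or.inr ⟨by simp only; omega, e2, e3⟩
  · refine Or.inr ⟨⟨by simpa using h1, by simpa using h2, by simpa using h3,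
      by simpa using h4⟩, ?_⟩
    rcases h with ⟨e1, e2, e3⟩ | ⟨e1, e2, e3⟩
    · exact Or.inl ⟨by simp only; omega, e2, e3⟩
    · exact Or.inr ⟨by simp only; omega, e2, e3⟩

theorem Conn.to_sh {c : ℕ} {ω : Cf M} {a b : ℕ} {u v : ℕ × ZMod M} (hac : c ≤ a)
    (h : Conn ω a b u v) : Conn (sh c ω) (a - c) (b - c) (u.1 - c, u.2) (v.1 - c, v.2) := by
  refine Relation.ReflTransGen.lift (fun u : ℕ × ZMod M => (u.1 - c, u.2)) ?_ _ _ h
  rintro x y (⟨⟨h1, h2, h3, h4⟩, h⟩ | ⟨⟨h1, h2, h3, h4⟩, h⟩)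
  · refine Or.inl ⟨⟨by simp only; omega, by simp only; omega, by simp only; omega,
      by simp only; omega⟩, ?_⟩
    have e : x.1 - c + c = x.1 := by omega
    rcases h with ⟨e1, e2, e3⟩ | ⟨e1, e2, e3⟩
    · refine Or.inl ⟨by simp only; omega, e2, ?_⟩
      simp only [sh, e]; exact e3
    · refine Or.inr ⟨by simp only; omega, e2, ?_⟩
      simp only [sh, e]; exact e3
  · refine Or.inr ⟨⟨by simp only; omega, by simp only; omega, by simp only; omega,
      by simp only; omega⟩, ?_⟩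
    have e : y.1 - c + c = y.1 := by omega
    rcases h with ⟨e1, e2, e3⟩ | ⟨e1, e2, e3⟩
    · refine Or.inl ⟨by simp only; omega, e2, ?_⟩
      simp only [sh, e]; exact e3
    · refine Or.inr ⟨by simp only; omega, e2, ?_⟩
      simp only [sh, e]; exact e3

/-- last entrance into `[a',b)` -/
theorem Conn.last {ω : Cf M} {a b a' : ℕ} {u v : ℕ × ZMod M}
    (h : Conn ω a b u v) (hu : u.1 ≤ a') (hv : a' ≤ v.1) :
    ∃ z, Conn ω a b u (a', z) ∧ Conn ω a' b (a', z) v := by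
  have key : ∀ u, Conn ω a b u v →
      (a' ≤ u.1 ∧ Conn ω a' b u v) ∨ ∃ z, Conn ω a b u (a', z) ∧ Conn ω a' b (a', z) v := by
    intro u h
    unfold Conn at h
    induction h using Relation.ReflTransGen.head_induction_on with
    | refl => exact Or.inl ⟨hv, Conn.refl _⟩
    | head h h' ih =>
      rename_i x w
      rcases ih with ⟨h1, h2⟩ | ⟨z, h1, h2⟩
      · by_cases hx : a' ≤ x.1
        · left
          refine ⟨hx, Relation.ReflTransGen.head ?_ h2⟩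
          rcases h with ⟨⟨q1, q2, q3, q4⟩, h⟩ | ⟨⟨q1, q2, q3, q4⟩, h⟩
          · exact Or.inl ⟨⟨hx, q2, h1, q4⟩, h⟩
          · exact Or.inr ⟨⟨h1, q2, hx, q4⟩, h⟩
        · right
          have hw : w.1 = a' := by
            rcases h with ⟨⟨q1, q2, q3, q4⟩, h⟩ | ⟨⟨q1, q2, q3, q4⟩, h⟩
            · rcases h with ⟨e, _⟩ | ⟨e, _⟩ <;> omega
            · rcases h with ⟨e, _⟩ | ⟨e, _⟩ <;> omega
          have ew : (a', w.2) = w := by rw [← hw]
          refine ⟨w.2, ?_, ?_⟩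
          · rw [ew]; exact Relation.ReflTransGen.single h
          · rw [ew]; exact h2
      · exact Or.inr ⟨z, Relation.ReflTransGen.head h h1, h2⟩
  rcases key u h with ⟨h1, h2⟩ | h
  · have : u.1 = a' := le_antisymm hu h1
    refine ⟨u.2, ?_, ?_⟩
    · rw [← this]; exact Conn.refl _
    · have e : (a', u.2) = u := by rw [← this]
      rw [e]; exact h2
  · exact h

/-- first exit from `[a,b')` -/
theorem Conn.first {ω : Cf M} {a b b' : ℕ} (ha : a < b') {u v : ℕ × ZMod M}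
    (h : Conn ω a b u v) (hu : u.1 < b') (hv : b' ≤ v.1) :
    ∃ z, Conn ω a b' u (b' - 1, z) ∧ ω (b' - 1) z false = true ∧ Conn ω a b u (b', z) := by
  have key : ∀ v, Conn ω a b u v → (v.1 < b' ∧ Conn ω a b' u v) ∨
      ∃ z, Conn ω a b' u (b' - 1, z) ∧ ω (b' - 1) z false = true ∧ Conn ω a b u (b', z) := by
    intro v h
    unfold Conn at h
    induction h with
    | refl => exact Or.inl ⟨hu, Conn.refl _⟩
    | tail h' h ih =>
      rename_i x w
      rcases ih with ⟨h1, h2⟩ | h2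
      · by_cases hw : w.1 < b'
        · left
          refine ⟨hw, Relation.ReflTransGen.tail h2 ?_⟩
          rcases h with ⟨⟨q1, q2, q3, q4⟩, h⟩ | ⟨⟨q1, q2, q3, q4⟩, h⟩
          · exact Or.inl ⟨⟨q1, h1, q3, hw⟩, h⟩
          · exact Or.inr ⟨⟨q1, hw, q3, h1⟩, h⟩
        · right
          rcases id h with ⟨⟨q1, q2, q3, q4⟩, hh⟩ | ⟨⟨q1, q2, q3, q4⟩, hh⟩
          · rcases hh with ⟨e, e2, e3⟩ | ⟨e, _⟩
            · have hx : x.1 = b' - 1 := by omega
              have hw' : w.1 = b' := by omega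
              refine ⟨x.2, ?_, ?_, ?_⟩
              · have ex : (b' - 1, x.2) = x := by rw [← hx]
                rw [ex]; exact h2
              · rw [← hx]; exact e3
              · have ex : (b', x.2) = w := by rw [← hw', ← e2]
                rw [ex]; exact Relation.ReflTransGen.tail h' h
            · omega
          · rcases hh with ⟨e, _⟩ | ⟨e, _⟩ <;> omega
      · exact Or.inr h2
  rcases key v h with ⟨h1, _⟩ | h
  · omega
  · exact h

/-- crossing of the window `[0,L)` -/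
def LR (ω : Cf M) (L : ℕ) : Prop := ∃ y y', Conn ω 0 L (0, y) (L - 1, y')

/-- good sites -/
def sC (ω : Cf M) (x y : ℕ) : Prop :=
  ω x (y : ZMod M) false = true ∧ ω x (y : ZMod M) true = true

/-- the gluing event for `T` blocks of scale `k` -/
def Gl (k : ℕ) (ω : Cf (3 ^ k)) (T : ℕ) : Prop :=
  (∀ i < T, good (sC ω) k (i * 3 ^ k) 0) ∧
    ∀ y y', Conn ω 0 (T * 3 ^ k) (0, y) (T * 3 ^ k - 1, y') →
      ∃ i < T, ∃ x z, core (sC ω) k (i * 3 ^ k) 0 x z ∧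
        Conn ω 0 (T * 3 ^ k) (0, y) (x, (z : ZMod (3 ^ k)))

section

variable (k : ℕ) (ω : Cf (3 ^ k))

theorem conn_equiv {M : ℕ} (ω : Cf M) (L : ℕ) : Equivalence (fun p q : ℕ × ℕ =>
    Conn ω 0 L (p.1, (p.2 : ZMod M)) (q.1, (q.2 : ZMod M))) :=
  ⟨fun _ => Conn.refl _, fun h => h.symm, fun h h' => h.trans h'⟩

theorem pk_conn {M : ℕ} (ω : Cf M) (L : ℕ) (k : ℕ) : Pk (fun x y => x < L ∧ sC ω x y)
    (fun p q : ℕ × ℕ => Conn ω 0 L (p.1, (p.2 : ZMod M)) (q.1, (q.2 : ZMod M))) k := by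
  refine pk_all (conn_equiv ω L) ?_ ?_ k
  · rintro x y ⟨h1, h2⟩ ⟨h3, h4⟩
    refine Relation.ReflTransGen.single (Or.inl ⟨⟨Nat.zero_le _, h1, Nat.zero_le _, h3⟩, ?_⟩)
    exact Or.inl ⟨rfl, rfl, h2.1⟩
  · rintro x y ⟨h1, h2⟩ ⟨h3, h4⟩
    refine Relation.ReflTransGen.single (Or.inl ⟨⟨Nat.zero_le _, h1, Nat.zero_le _, h3⟩, ?_⟩)
    exact Or.inr ⟨rfl, by simp, h2.2⟩

theorem good_cut {k : ℕ} {ω : Cf (3 ^ k)} {T i : ℕ} (hi : i < T) :
    good (sC ω) k (i * 3 ^ k) 0 ↔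
      good (fun x y => x < T * 3 ^ k ∧ sC ω x y) k (i * 3 ^ k) 0 := by
  refine good_congr k ?_
  intro x y hx hy
  have : i * 3 ^ k + x < T * 3 ^ k := by
    have : (i + 1) * 3 ^ k ≤ T * 3 ^ k := Nat.mul_le_mul_right _ hi
    rw [add_mul] at this
    omega
  simp [this]

theorem core_cut {k : ℕ} {ω : Cf (3 ^ k)} {T i x z : ℕ} (hi : i < T) :
    core (sC ω) k (i * 3 ^ k) 0 x z ↔
      core (fun x y => x < T * 3 ^ k ∧ sC ω x y) k (i * 3 ^ k) 0 x z := by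
  have key : ∀ x y, x < 3 ^ k → y < 3 ^ k →
      (sC ω (i * 3 ^ k + x) (0 + y) ↔
        (fun x y => x < T * 3 ^ k ∧ sC ω x y) (i * 3 ^ k + x) (0 + y)) := by
    intro x y hx hy
    have : i * 3 ^ k + x < T * 3 ^ k := by
      have : (i + 1) * 3 ^ k ≤ T * 3 ^ k := Nat.mul_le_mul_right _ hi
      rw [add_mul] at this
      omega
    simp [this]
  by_cases hx : i * 3 ^ k ≤ x
  · have := core_congr k (s := sC ω) (s' := fun x y => x < T * 3 ^ k ∧ sC ω x y)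
      (a := i * 3 ^ k) (b := 0) (a' := i * 3 ^ k) (b' := 0) (u := x - i * 3 ^ k) (v := z) key
    rw [zero_add, show i * 3 ^ k + (x - i * 3 ^ k) = x by omega] at this
    exact this
  · constructor <;> intro h
    · have := (core_range _ _ _ _ _ h).1.1; omega
    · have := (core_range _ _ _ _ _ h).1.1; omega

/-- all the cores of consecutive good blocks are connected -/
theorem cores_conn {k : ℕ} {ω : Cf (3 ^ k)} {T : ℕ}
    (hg : ∀ i < T, good (sC ω) k (i * 3 ^ k) 0) :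
    ∀ i, i < T → ∀ x z x' z', core (sC ω) k (0 * 3 ^ k) 0 x z →
      core (sC ω) k (i * 3 ^ k) 0 x' z' →
      Conn ω 0 (T * 3 ^ k) (x, (z : ZMod (3 ^ k))) (x', (z' : ZMod (3 ^ k))) := by
  have P := pk_conn ω (T * 3 ^ k) k
  intro i
  induction i with
  | zero =>
    intro h0 x z x' z' h1 h2
    rw [core_cut h0] at h1 h2
    exact P.con _ _ ((good_cut h0).mp (hg 0 h0)) _ _ _ _ h1 h2
  | succ i ih =>
    intro hi x z x' z' h1 h2
    have hi' : i < T := by omega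
    obtain ⟨y, hy⟩ := core_left k _ _ (hg i hi')
    have h3 := ih hi' x z _ _ h1 hy
    refine h3.trans ?_
    have g1 := (good_cut hi').mp (hg i hi')
    have g2 := (good_cut hi).mp (hg (i + 1) hi)
    rw [core_cut hi'] at hy
    rw [core_cut hi] at h2
    have e : (i + 1) * 3 ^ k = i * 3 ^ k + 3 ^ k := by ring
    rw [e] at h2 g2
    exact P.hor _ _ g1 g2 _ _ _ _ hy h2

theorem cores_conn' {k : ℕ} {ω : Cf (3 ^ k)} {T : ℕ}
    (hg : ∀ i < T, good (sC ω) k (i * 3 ^ k) 0) {i j : ℕ} (hi : i < T) (hj : j < T)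
    {x z x' z' : ℕ} (h1 : core (sC ω) k (i * 3 ^ k) 0 x z)
    (h2 : core (sC ω) k (j * 3 ^ k) 0 x' z') :
    Conn ω 0 (T * 3 ^ k) (x, (z : ZMod (3 ^ k))) (x', (z' : ZMod (3 ^ k))) := by
  have h0 : 0 < T := by omega
  obtain ⟨y, hy⟩ := core_left k _ _ (hg 0 h0)
  exact (cores_conn hg i hi _ _ _ _ hy h1).symm.trans (cores_conn hg j hj _ _ _ _ hy h2)

/-- **gluing** -/
theorem Gl.glue {k : ℕ} {ω : Cf (3 ^ k)} {T : ℕ} (h : Gl k ω T) {y y' z z' : ZMod (3 ^ k)}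
    (h1 : Conn ω 0 (T * 3 ^ k) (0, y) (T * 3 ^ k - 1, y'))
    (h2 : Conn ω 0 (T * 3 ^ k) (0, z) (T * 3 ^ k - 1, z')) :
    Conn ω 0 (T * 3 ^ k) (0, y) (0, z) := by
  obtain ⟨i, hi, x, w, h3, h4⟩ := h.2 _ _ h1
  obtain ⟨j, hj, x', w', h5, h6⟩ := h.2 _ _ h2
  exact h4.trans ((cores_conn' h.1 hi hj h3 h5).trans h6.symm)

/-- consecutive good blocks are crossed -/
theorem LR_of_good {k : ℕ} {ω : Cf (3 ^ k)} {T : ℕ} (hT : 0 < T)
    (hg : ∀ i < T, good (sC ω) k (i * 3 ^ k) 0) : LR ω (T * 3 ^ k) := by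
  obtain ⟨y, hy⟩ := core_left k _ _ (hg 0 hT)
  obtain ⟨z, hz⟩ := core_right k _ _ (hg (T - 1) (by omega))
  have h := cores_conn' hg hT (by omega : T - 1 < T) hy hz
  have e : (T - 1) * 3 ^ k + 3 ^ k - 1 = T * 3 ^ k - 1 := by
    obtain ⟨t, rfl⟩ : ∃ t, T = t + 1 := ⟨T - 1, by omega⟩
    rw [Nat.add_sub_cancel, add_mul, one_mul]
  rw [e, zero_mul] at h
  exact ⟨_, _, h⟩

end

end Pool.Agent.Q325.Pc
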