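import Mathlib
import Pool.Agent.Q325.PcGood
import Pool.Agent.Q325.PcStrip

/-! Windows of the cylinder: probabilities, and the gluing event. -/

namespace Pool.Agent.Q325.Pc

open Finset

/-- edges of a window of `L` columns -/
abbrev SI (M L : ℕ) : Type := Fin L × ZMod M × Bool

def ext {M L : ℕ} (τ : SI M L → Bool) : Cf M :=
  fun x y t => if h : x < L then τ (⟨x, h⟩, y, t) else false

/-- the event depends on the first `L` columns only -/
def Dep {M : ℕ} (L : ℕ) (A : Cf M → Prop) : Prop :=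
  ∀ ω ω', (∀ x, x < L → ∀ y t, ω x y t = ω' x y t) → (A ω ↔ A ω')

noncomputable def PW (p : ℝ) (M L : ℕ) [NeZero M] (A : Cf M → Prop) : ℝ :=
  Pr p (fun τ : SI M L → Bool => A (ext τ))

theorem PW_embed {ι : Type*} [Fintype ι] {M L : ℕ} [NeZero M] (p : ℝ)
    (Φ : (ι → Bool) → Cf M) (f : SI M L → ι) (hf : Function.Injective f)
    (hΦ : ∀ ω x (h : x < L) y t, Φ ω x y t = ω (f (⟨x, h⟩, y, t)))
    (A : Cf M → Prop) (hA : Dep L A) : Pr p (fun ω => A (Φ ω)) = PW p M L A := by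
  unfold PW
  rw [← marg p f hf]
  refine Pr_congr fun ω => ?_
  refine hA _ _ ?_
  intro x hx y t
  rw [hΦ ω x hx y t]
  simp [ext, hx]

/-- inclusion of a box in a window -/
def boxIn (k L c : ℕ) (hc : c + 3 ^ k ≤ L) (i : BI k) : SI (3 ^ k) L :=
  (⟨c + i.1, by have := i.1.isLt; omega⟩, ((i.2.1 : ℕ) : ZMod (3 ^ k)), i.2.2)

theorem cast_inj {k : ℕ} {a b : ℕ} (ha : a < 3 ^ k) (hb : b < 3 ^ k)
    (h : (a : ZMod (3 ^ k)) = (b : ZMod (3 ^ k))) : a = b := by
  have := congrArg ZMod.val h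
  rwa [ZMod.val_cast_of_lt ha, ZMod.val_cast_of_lt hb] at this

theorem boxIn_inj (k L c : ℕ) (hc : c + 3 ^ k ≤ L) : Function.Injective (boxIn k L c hc) := by
  intro i j h
  simp only [boxIn, Prod.mk.injEq, Fin.mk.injEq] at h
  obtain ⟨h1, h2, h3⟩ := h
  exact Prod.ext (Fin.ext (by omega)) (Prod.ext (Fin.ext
    (cast_inj i.2.1.isLt j.2.1.isLt h2)) h3)

theorem boxIn_sites {k L c : ℕ} (hc : c + 3 ^ k ≤ L) (τ : SI (3 ^ k) L → Bool) :
    ∀ x y (hx : x < 3 ^ k) (hy : y < 3 ^ k), sC (ext τ) (c + x) (0 + y) ↔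
      (τ (boxIn k L c hc (⟨x, hx⟩, ⟨y, hy⟩, false)) = true ∧
        τ (boxIn k L c hc (⟨x, hx⟩, ⟨y, hy⟩, true)) = true) := by
  intro x y hx hy
  have h : c + x < L := by omega
  simp [sC, ext, h, boxIn]

theorem good_window {k L c : ℕ} (hc : c + 3 ^ k ≤ L) (τ : SI (3 ^ k) L → Bool) :
    good (sC (ext τ)) k c 0 ↔ good (sB (fun i => τ (boxIn k L c hc i))) k 0 0 :=
  good_box τ _ _ _ (boxIn k L c hc) (boxIn_sites hc τ)

theorem core_window {k L c : ℕ} (hc : c + 3 ^ k ≤ L) (τ : SI (3 ^ k) L → Bool) (v : ℕ) :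
    core (sC (ext τ)) k c 0 c v ↔ core (sB (fun i => τ (boxIn k L c hc i))) k 0 0 0 v := by
  have := core_box τ (sC (ext τ)) c 0 (boxIn k L c hc) 0 v (boxIn_sites hc τ)
  simpa using this

theorem bad_window {k L c : ℕ} (hc : c + 3 ^ k ≤ L) :
    PW p0 (3 ^ k) L (fun ω => ¬ good (sC ω) k c 0) = qk p0 k := by
  unfold PW qk
  rw [← marg p0 (boxIn k L c hc) (boxIn_inj k L c hc)]
  refine Pr_congr fun τ => ?_
  simp only [good_window hc]

theorem core_window_prob {k L c : ℕ} (hc : c + 3 ^ k ≤ L) (v : ℕ) (hv : v < 3 ^ k) :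
    PW p0 (3 ^ k) L (fun ω => ¬ (good (sC ω) k c 0 ∧ core (sC ω) k c 0 c v)) ≤ 1 / 25000 := by
  have h := rk_bound k 0 v (by positivity) hv
  rw [← marg p0 (boxIn k L c hc) (boxIn_inj k L c hc)] at h
  unfold PW
  refine le_trans (le_trans (le_of_eq ?_) h) ?_
  · refine Pr_congr fun τ => ?_
    simp only [good_window hc, core_window hc]
  · have : (0 : ℝ) < (1 / 500) ^ k := by positivity
    linarith

section

variable {k : ℕ}

/-- rows where the cluster of `(0,y)` enters block `i` -/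
def X (ω : Cf (3 ^ k)) (y : ZMod (3 ^ k)) (i : ℕ) (z : ZMod (3 ^ k)) : Prop :=
  if i = 0 then z = y else
    (Conn ω 0 (i * 3 ^ k) (0, y) (i * 3 ^ k - 1, z) ∧ ω (i * 3 ^ k - 1) z false = true)

noncomputable def ystar (ω : Cf (3 ^ k)) (y : ZMod (3 ^ k)) (i : ℕ) : ZMod (3 ^ k) :=
  Classical.epsilon (fun z => X ω y i z)

theorem X_congr {ω ω' : Cf (3 ^ k)} {i : ℕ}
    (h : ∀ x, x < i * 3 ^ k → ∀ y t, ω x y t = ω' x y t) (y : ZMod (3 ^ k)) :
    (fun z => X ω y i z) = (fun z => X ω' y i z) := by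
  funext z
  apply propext
  unfold X
  split_ifs with hi
  · exact Iff.rfl
  · have hpos : 0 < i * 3 ^ k := Nat.mul_pos (by omega) (by positivity)
    rw [h (i * 3 ^ k - 1) (by omega)]
    constructor
    · rintro ⟨h1, h2⟩
      exact ⟨h1.congr (fun x _ hx => h x hx), h2⟩
    · rintro ⟨h1, h2⟩
      exact ⟨h1.congr (fun x _ hx y t => (h x hx y t).symm), h2⟩

theorem ystar_congr {ω ω' : Cf (3 ^ k)} {i : ℕ}
    (h : ∀ x, x < i * 3 ^ k → ∀ y t, ω x y t = ω' x y t) (y : ZMod (3 ^ k)) :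
    ystar ω y i = ystar ω' y i := by
  unfold ystar
  rw [X_congr h y]

/-- the exploration misses all the cores -/
def Qev (ω : Cf (3 ^ k)) (y : ZMod (3 ^ k)) (T : ℕ) : Prop :=
  ∀ i < T, (∃ z, X ω y i z) ∧ ¬ (good (sC ω) k (i * 3 ^ k) 0 ∧
    core (sC ω) k (i * 3 ^ k) 0 (i * 3 ^ k) (ystar ω y i).val)

theorem good_dep {ω ω' : Cf (3 ^ k)} {c L : ℕ} (hc : c + 3 ^ k ≤ L)
    (h : ∀ x, x < L → ∀ y t, ω x y t = ω' x y t) :
    good (sC ω) k c 0 ↔ good (sC ω') k c 0 := by
  refine good_congr k ?_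
  intro x y hx hy
  unfold sC
  rw [h _ (by omega), h _ (by omega)]

theorem core_dep {ω ω' : Cf (3 ^ k)} {c L : ℕ} (hc : c + 3 ^ k ≤ L)
    (h : ∀ x, x < L → ∀ y t, ω x y t = ω' x y t) (v : ℕ) :
    core (sC ω) k c 0 c v ↔ core (sC ω') k c 0 c v := by
  have := core_congr k (s := sC ω) (s' := sC ω') (a := c) (b := 0) (a' := c) (b' := 0)
    (u := 0) (v := v) ?_
  · simpa using this
  intro x y hx hy
  unfold sC
  rw [h _ (by omega), h _ (by omega)]

theorem Qev_congr {ω ω' : Cf (3 ^ k)} {T : ℕ}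
    (h : ∀ x, x < T * 3 ^ k → ∀ y t, ω x y t = ω' x y t) (y : ZMod (3 ^ k))
    (hq : Qev ω y T) : Qev ω' y T := by
  intro i hi
  have h3 : 0 < 3 ^ k := by positivity
  obtain ⟨⟨z, hz⟩, h2⟩ := hq i hi
  have hle : i * 3 ^ k + 3 ^ k ≤ T * 3 ^ k := by
    have : (i + 1) * 3 ^ k ≤ T * 3 ^ k := Nat.mul_le_mul_right _ hi
    rw [add_mul, one_mul] at this
    exact this
  have h' : ∀ x, x < i * 3 ^ k → ∀ y t, ω x y t = ω' x y t := fun x hx => h x (by omega)
  constructor
  · have e : X ω y i z = X ω' y i z := congrFun (X_congr h' y) z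
    exact ⟨z, by rw [← e]; exact hz⟩
  · rw [← good_dep hle h, ← ystar_congr h' y, ← core_dep hle h]
    exact h2

theorem Qev_prob (y : ZMod (3 ^ k)) : ∀ T : ℕ,
    PW p0 (3 ^ k) (T * 3 ^ k) (fun ω => Qev ω y T) ≤ (1 / 25000) ^ T := by
  intro T
  induction T with
  | zero =>
    rw [pow_zero]
    exact Pr_le_one p0_nonneg p0_le _
  | succ T ih =>
    have h3 : 0 < 3 ^ k := by positivity
    have hL : T * 3 ^ k + 3 ^ k ≤ (T + 1) * 3 ^ k := by rw [add_mul, one_mul]
    have hL' : T * 3 ^ k ≤ (T + 1) * 3 ^ k := by rw [add_mul, one_mul]; omega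
    set f : SI (3 ^ k) (T * 3 ^ k) → SI (3 ^ k) ((T + 1) * 3 ^ k) := fun i =>
      (Fin.castLE hL' i.1, i.2.1, i.2.2) with hf
    set g : BI k → SI (3 ^ k) ((T + 1) * 3 ^ k) := boxIn k _ (T * 3 ^ k) hL with hg
    have hfi : Function.Injective f := by
      intro i j h
      simp only [hf, Prod.mk.injEq] at h
      obtain ⟨h1, h2, h3⟩ := h
      exact Prod.ext (Fin.castLE_injective hL' h1) (Prod.ext h2 h3)
    have hd : ∀ i j, f i ≠ g j := by
      intro i j h
      simp only [hf, hg, boxIn, Prod.mk.injEq] at h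
      have := congrArg Fin.val h.1
      simp only [Fin.val_castLE] at this
      have hi := i.1.isLt
      omega
    have hsel := sel p0_nonneg p0_le f g hfi (boxIn_inj _ _ _ _) hd
      (fun τ => Qev (ext τ) y T) (fun τ => ystar (ext τ) y T)
      (fun (z : ZMod (3 ^ k)) (σ : BI k → Bool) =>
        ¬ (good (sB σ) k 0 0 ∧ core (sB σ) k 0 0 0 z.val)) (1 / 25000) ?_
    · refine le_trans (le_trans ?_ hsel) ?_
      · refine Pr_mono p0_nonneg p0_le ?_
        intro τ hq
        have hagree : ∀ x, x < T * 3 ^ k → ∀ y t,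
            ext τ x y t = ext (fun i => τ (f i)) x y t := by
          intro x hx y t
          have hx' : x < (T + 1) * 3 ^ k := by omega
          simp only [ext, hx, hx', dif_pos, hf]
          rfl
        refine ⟨?_, ?_⟩
        · refine Qev_congr hagree y ?_
          intro i hi
          exact hq i (by omega)
        · have h2 := (hq T (by omega)).2
          rw [good_window hL, core_window hL] at h2
          rw [← ystar_congr hagree y]
          exact h2
      · rw [pow_succ]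
        exact mul_le_mul_of_nonneg_right ih (by norm_num)
    · intro z
      refine le_trans (rk_bound k 0 z.val (by positivity) (ZMod.val_lt z)) ?_
      have : (0 : ℝ) < (1 / 500) ^ k := by positivity
      linarith

/-- if the gluing event fails then a block is bad or an exploration misses all the cores -/
theorem Gl_fail {ω : Cf (3 ^ k)} {T : ℕ} (h : ¬ Gl k ω T) :
    (∃ i ∈ Finset.range T, ¬ good (sC ω) k (i * 3 ^ k) 0) ∨
      ∃ y ∈ (Finset.univ : Finset (ZMod (3 ^ k))), Qev ω y T := by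
  have h3 : 0 < 3 ^ k := by positivity
  by_contra hcon
  push Not at hcon
  obtain ⟨h1, h2⟩ := hcon
  apply h
  refine ⟨fun i hi => h1 i (Finset.mem_range.mpr hi), ?_⟩
  intro y y' hc
  by_contra hno
  push Not at hno
  apply h2 y (Finset.mem_univ y)
  intro i hi
  have hle : i * 3 ^ k + 3 ^ k ≤ T * 3 ^ k := by
    have : (i + 1) * 3 ^ k ≤ T * 3 ^ k := Nat.mul_le_mul_right _ hi
    rw [add_mul, one_mul] at this
    exact this
  have hex : ∃ z, X ω y i z := by
    unfold X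
    by_cases h0 : i = 0
    · exact ⟨y, by simp [h0]⟩
    · have hpos : 0 < i * 3 ^ k := Nat.mul_pos (by omega) h3
      obtain ⟨z, hz1, hz2, -⟩ := hc.first (b' := i * 3 ^ k) hpos (by simpa using hpos)
        (by simp only; omega)
      refine ⟨z, ?_⟩
      rw [if_neg h0]
      exact ⟨hz1, hz2⟩
  refine ⟨hex, ?_⟩
  rintro ⟨hg, hco⟩
  have hs : X ω y i (ystar ω y i) := Classical.epsilon_spec hex
  have hconn : Conn ω 0 (T * 3 ^ k) (0, y) (i * 3 ^ k, ystar ω y i) := by
    unfold X at hs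
    by_cases h0 : i = 0
    · rw [if_pos h0] at hs
      rw [hs, h0, zero_mul]
      exact Conn.refl _
    · rw [if_neg h0] at hs
      have hpos : 0 < i * 3 ^ k := Nat.mul_pos (by omega) h3
      refine (hs.1.mono (le_refl _) (by omega)).trans ?_
      refine Relation.ReflTransGen.single (Or.inl ⟨⟨Nat.zero_le _, by simp only; omega,
        Nat.zero_le _, by simp only; omega⟩, Or.inl ⟨by simp only; omega, rfl, hs.2⟩⟩)
  refine hno i hi _ _ hco ?_
  rw [ZMod.natCast_zmod_val]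
  exact hconn

theorem Gl_prob {T L : ℕ} (hL : L = T * 3 ^ k) :
    PW p0 (3 ^ k) L (fun ω => ¬ Gl k ω T) ≤
      T * ((1 / 50000) * (1 / 500) ^ k) + 3 ^ k * (1 / 25000) ^ T := by
  subst hL
  refine le_trans (Pr_mono p0_nonneg p0_le (fun τ h => Gl_fail h)) ?_
  refine le_trans (Pr_or p0_nonneg p0_le _ _) ?_
  refine add_le_add ?_ ?_
  · refine le_trans (Pr_exists p0_nonneg p0_le _ _) ?_
    refine le_trans (Finset.sum_le_card_nsmul _ _ ((1 / 50000) * (1 / 500) ^ k) ?_) ?_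
    · intro i hi
      have hi' := Finset.mem_range.mp hi
      have hle : i * 3 ^ k + 3 ^ k ≤ T * 3 ^ k := by
        have : (i + 1) * 3 ^ k ≤ T * 3 ^ k := Nat.mul_le_mul_right _ hi'
        rw [add_mul, one_mul] at this
        exact this
      have := bad_window (k := k) hle
      unfold PW at this
      rw [this]
      exact qk_bound k
    · rw [Finset.card_range, nsmul_eq_mul]
  · refine le_trans (Pr_exists p0_nonneg p0_le _ _) ?_
    refine le_trans (Finset.sum_le_card_nsmul _ _ ((1 / 25000) ^ T) ?_) ?_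
    · intro y _
      exact Qev_prob y T
    · rw [Finset.card_univ, ZMod.card, nsmul_eq_mul]
      push_cast
      exact le_refl _

end

end Pool.Agent.Q325.Pc
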