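import Mathlib
import Pool.Agent.Q325.PcGlue

/-! Crossing probabilities and the choice of the length. -/

namespace Pool.Agent.Q325.Pc

open Finset

/-! ### independent copies -/

section

open Classical

variable {ι κ : Type*} [Fintype ι] [Fintype κ]

theorem Pr_pow (p : ℝ) (A : (ι → Bool) → Prop) :
    Pr p (fun ω : κ × ι → Bool => ∀ j, A (fun i => ω (j, i))) = (Pr p A) ^ (Fintype.card κ) := by
  have h1 : (Pr p A) ^ (Fintype.card κ) =
      ∑ g : κ → (ι → Bool), ∏ j, (if A (g j) then wt p (g j) else 0) := by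
    have := Fintype.prod_sum (fun (_ : κ) (ω : ι → Bool) => if A ω then wt p ω else 0)
    rw [← this]
    unfold Pr
    rw [Finset.prod_const, Finset.card_univ]
  rw [h1]
  have he := Fintype.sum_equiv (Equiv.curry κ ι Bool)
    (fun ω => if (∀ j, A (fun i => ω (j, i))) then wt p ω else 0)
    (fun g => ∏ j, (if A (g j) then wt p (g j) else 0)) ?_
  · refine Eq.trans (Eq.trans ?_ he) ?_
    · unfold Pr
      refine Finset.sum_congr (univ_inst _ _) ?_
      intro x _
      by_cases h : ∀ j, A (fun i => x (j, i)) <;> simp [h]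
    · exact Finset.sum_congr (univ_inst _ _) (fun _ _ => rfl)
  · intro ω
    by_cases h : ∀ j, A (fun i => ω (j, i))
    · rw [if_pos h]
      have : ∀ j, (if A ((Equiv.curry κ ι Bool) ω j) then wt p ((Equiv.curry κ ι Bool) ω j)
          else 0) = wt p (fun i => ω (j, i)) := by
        intro j
        have hj : A ((Equiv.curry κ ι Bool) ω j) := h j
        rw [if_pos hj]
        rfl
      simp only [this]
      unfold wt
      rw [Fintype.prod_prod_type]
    · rw [if_neg h]
      push Not at h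
      obtain ⟨j, hj⟩ := h
      symm
      apply Finset.prod_eq_zero (Finset.mem_univ j)
      rw [if_neg]
      exact hj

end

section

variable {M : ℕ} [NeZero M]

theorem PW_shift (p : ℝ) {L L' c : ℕ} (hc : c + L ≤ L') (A : Cf M → Prop) (hA : Dep L A) :
    PW p M L' (fun ω => A (sh c ω)) = PW p M L A := by
  refine PW_embed p (fun τ : SI M L' → Bool => sh c (ext τ))
    (fun i => (⟨i.1 + c, by have := i.1.isLt; omega⟩, i.2)) ?_ ?_ A hA
  · intro i j h
    simp only [Prod.mk.injEq, Fin.mk.injEq] at h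
    exact Prod.ext (Fin.ext (by omega)) h.2
  · intro ω x h y t
    have : x + c < L' := by omega
    simp [sh, ext, this]

theorem PW_restrict (p : ℝ) {L L' : ℕ} (hc : L ≤ L') (A : Cf M → Prop) (hA : Dep L A) :
    PW p M L' A = PW p M L A := by
  have := PW_shift (M := M) p (c := 0) (L := L) (L' := L') (by omega) A hA
  exact this

omit [NeZero M] in
theorem Dep.not {L : ℕ} {A : Cf M → Prop} (h : Dep L A) : Dep L (fun ω => ¬ A ω) :=
  fun ω ω' hω => not_congr (h ω ω' hω)

omit [NeZero M] in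
theorem LR_dep (L : ℕ) : Dep (M := M) L (fun ω => LR ω L) := by
  intro ω ω' h
  constructor
  · rintro ⟨y, y', hc⟩
    exact ⟨y, y', hc.congr (fun x _ hx => h x hx)⟩
  · rintro ⟨y, y', hc⟩
    exact ⟨y, y', hc.congr (fun x _ hx y t => (h x hx y t).symm)⟩

omit [NeZero M] in
/-- crossings of longer windows contain crossings of shorter ones -/
theorem LR_shorter {ω : Cf M} {L L' : ℕ} (h0 : 0 < L) (hL : L ≤ L') (h : LR ω L') : LR ω L := by
  obtain ⟨y, y', hc⟩ := h
  rcases Nat.lt_or_ge L L' with hlt | hge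
  · obtain ⟨z, hz, -, -⟩ := hc.first h0 h0 (by simp only; omega)
    exact ⟨y, z, hz⟩
  · have : L = L' := le_antisymm hL hge
    subst this
    exact ⟨y, y', hc⟩

end

theorem Gl_congr {k T : ℕ} {ω ω' : Cf (3 ^ k)}
    (h : ∀ x, x < T * 3 ^ k → ∀ y t, ω x y t = ω' x y t) (hg : Gl k ω T) : Gl k ω' T := by
  have hle : ∀ i < T, i * 3 ^ k + 3 ^ k ≤ T * 3 ^ k := by
    intro i hi
    have : (i + 1) * 3 ^ k ≤ T * 3 ^ k := Nat.mul_le_mul_right _ hi
    rw [add_mul, one_mul] at this
    exact this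
  refine ⟨fun i hi => (good_dep (hle i hi) h).mp (hg.1 i hi), ?_⟩
  intro y y' hc
  obtain ⟨i, hi, x, z, h1, h2⟩ := hg.2 y y' (hc.congr (fun x _ hx y t => (h x hx y t).symm))
  refine ⟨i, hi, x, z, ?_, h2.congr (fun x _ hx => h x hx)⟩
  by_cases hx : i * 3 ^ k ≤ x
  · have := core_congr k (s := sC ω) (s' := sC ω') (a := i * 3 ^ k) (b := 0) (a' := i * 3 ^ k)
      (b' := 0) (u := x - i * 3 ^ k) (v := z) ?_
    · rw [zero_add, show i * 3 ^ k + (x - i * 3 ^ k) = x by omega] at this
      exact this.mp h1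
    · intro x y hx hy
      have := hle i hi
      unfold sC
      rw [h _ (by omega), h _ (by omega)]
  · have := (core_range _ _ _ _ _ h1).1.1
    omega

theorem Gl_dep {k T : ℕ} : Dep (M := 3 ^ k) (T * 3 ^ k) (fun ω => Gl k ω T) :=
  fun _ _ h => ⟨Gl_congr h, Gl_congr (fun x hx y t => (h x hx y t).symm)⟩

/-- crossing probability of `n` blocks -/
noncomputable def cr (k n : ℕ) : ℝ := PW p0 (3 ^ k) (n * 3 ^ k) (fun ω => LR ω (n * 3 ^ k))

theorem cr_ge (k n : ℕ) (hn : 0 < n) : 1 - n * ((1 / 50000) * (1 / 500) ^ k) ≤ cr k n := by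
  have h1 : PW p0 (3 ^ k) (n * 3 ^ k) (fun ω => ¬ LR ω (n * 3 ^ k)) ≤
      n * ((1 / 50000) * (1 / 500) ^ k) := by
    refine le_trans (Pr_mono p0_nonneg p0_le (B := fun τ : SI (3 ^ k) (n * 3 ^ k) → Bool =>
      ∃ i ∈ Finset.range n, ¬ good (sC (ext τ)) k (i * 3 ^ k) 0) ?_) ?_
    · intro τ h
      by_contra hcon
      push Not at hcon
      exact h (LR_of_good hn (fun i hi => hcon i (Finset.mem_range.mpr hi)))
    · refine le_trans (Pr_exists p0_nonneg p0_le _ _) ?_
      refine le_trans (Finset.sum_le_card_nsmul _ _ ((1 / 50000) * (1 / 500) ^ k) ?_) ?_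
      · intro i hi
        have hi' := Finset.mem_range.mp hi
        have hle : i * 3 ^ k + 3 ^ k ≤ n * 3 ^ k := by
          have : (i + 1) * 3 ^ k ≤ n * 3 ^ k := Nat.mul_le_mul_right _ hi'
          rw [add_mul, one_mul] at this
          exact this
        have := bad_window (k := k) hle
        unfold PW at this
        rw [this]
        exact qk_bound k
      · rw [Finset.card_range, nsmul_eq_mul]
  unfold PW at h1
  rw [Pr_not] at h1
  unfold cr PW
  linarith

/-- long windows are not crossed -/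
theorem cr_small (k : ℕ) : ∃ n, cr k (n + 1) < 3 / 4 := by
  have hMpos : 0 < 3 ^ k := by positivity
  set A : (ZMod (3 ^ k) → Bool) → Prop := fun σ => ∃ z, σ z = true with hA
  set ρ : ℝ := Pr p0 A with hρ
  have hρ0 : 0 ≤ ρ := Pr_nonneg p0_nonneg p0_le _
  have hρ1 : ρ < 1 := by
    have h1 : Pr p0 (fun σ => ¬ A σ) = 1 - ρ := Pr_not A
    have h2 : 0 < Pr p0 (fun σ => ¬ A σ) :=
      Pr_pos (by unfold p0; norm_num) (by unfold p0; norm_num) _ (fun _ => false) (by simp [hA])
    linarith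
  obtain ⟨n, hn⟩ := exists_pow_lt_of_lt_one (show (0 : ℝ) < 3 / 4 by norm_num) hρ1
  refine ⟨n, ?_⟩
  refine lt_of_le_of_lt ?_ hn
  -- columns with an open edge to the right
  set F : Fin n × ZMod (3 ^ k) → SI (3 ^ k) ((n + 1) * 3 ^ k) := fun i =>
    (⟨(i.1 + 1) * 3 ^ k - 1, by
      have h1 := i.1.isLt
      have h2 : ((i.1 : ℕ) + 1) * 3 ^ k ≤ (n + 1) * 3 ^ k := Nat.mul_le_mul_right _ (by omega)
      have h3 : 0 < ((i.1 : ℕ) + 1) * 3 ^ k := Nat.mul_pos (by omega) hMpos
      omega⟩, i.2, false) with hF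
  have hFi : Function.Injective F := by
    intro i j h
    simp only [hF, Prod.mk.injEq, Fin.mk.injEq] at h
    obtain ⟨h1, h2, -⟩ := h
    have h3 : 0 < ((i.1 : ℕ) + 1) * 3 ^ k := Nat.mul_pos (by omega) hMpos
    have h4 : 0 < ((j.1 : ℕ) + 1) * 3 ^ k := Nat.mul_pos (by omega) hMpos
    have h5 : ((i.1 : ℕ) + 1) * 3 ^ k = ((j.1 : ℕ) + 1) * 3 ^ k := by omega
    have h6 := Nat.eq_of_mul_eq_mul_right hMpos h5
    exact Prod.ext (Fin.ext (by omega)) h2
  have hp := Pr_pow (κ := Fin n) p0 A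
  rw [Fintype.card_fin] at hp
  rw [← hρ] at hp
  rw [← hp, ← marg p0 F hFi]
  unfold cr PW
  refine Pr_mono p0_nonneg p0_le ?_
  rintro τ ⟨y, y', hc⟩ j
  have h1 := j.isLt
  have h2 : ((j : ℕ) + 1) * 3 ^ k < (n + 1) * 3 ^ k := Nat.mul_lt_mul_of_pos_right (by omega) hMpos
  have h3 : 0 < ((j : ℕ) + 1) * 3 ^ k := Nat.mul_pos (by omega) hMpos
  obtain ⟨z, -, hz, -⟩ := hc.first (b' := ((j : ℕ) + 1) * 3 ^ k) h3 h3 (by simp only; omega)
  refine ⟨z, ?_⟩
  have h4 : ((j : ℕ) + 1) * 3 ^ k - 1 < (n + 1) * 3 ^ k := by omega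
  simp only [ext, h4, dif_pos] at hz
  exact hz

open Classical in
/-- the length (in blocks) of the torus -/
noncomputable def nk (k : ℕ) : ℕ := Nat.find (cr_small k)

theorem nk_spec (k : ℕ) : cr k (nk k + 1) < 3 / 4 := by
  classical
  exact Nat.find_spec (cr_small k)

theorem nk_min (k n : ℕ) (h0 : 0 < n) (hn : n ≤ nk k) : 3 / 4 ≤ cr k n := by
  classical
  by_contra hcon
  push Not at hcon
  have : nk k ≤ n - 1 := Nat.find_min' (cr_small k) (by
    rw [Nat.sub_add_cancel h0]; exact hcon)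
  omega

theorem nk_ge (k : ℕ) : 500 ^ k ≤ nk k := by
  by_contra hcon
  push Not at hcon
  have h1 := nk_spec k
  have h2 := cr_ge k (nk k + 1) (by omega)
  have h3 : ((nk k + 1 : ℕ) : ℝ) ≤ 500 ^ k := by exact_mod_cast hcon
  have h4 : (0 : ℝ) < 500 ^ k := by positivity
  have h5 : ((nk k + 1 : ℕ) : ℝ) * ((1 / 50000) * (1 / 500) ^ k) ≤ 1 / 50000 := by
    have : ((nk k + 1 : ℕ) : ℝ) * ((1 / 50000) * (1 / 500) ^ k) ≤
        500 ^ k * ((1 / 50000) * (1 / 500) ^ k) := by
      exact mul_le_mul_of_nonneg_right h3 (by positivity)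
    refine le_trans this (le_of_eq ?_)
    rw [one_div_pow]
    field_simp
  linarith

/-- extension of a crossing by one more segment -/
theorem glue_step {k A T r : ℕ} {ω : Cf (3 ^ k)} (hT : 0 < T) (hr : T < r)
    {y y' : ZMod (3 ^ k)} (h : Conn ω 0 ((A + T) * 3 ^ k) (0, y) ((A + T) * 3 ^ k - 1, y'))
    (hG : Gl k (sh (A * 3 ^ k) ω) T) (hJ : LR (sh (A * 3 ^ k) ω) (r * 3 ^ k)) :
    ∃ y'', Conn ω 0 ((A + r) * 3 ^ k) (0, y) ((A + r) * 3 ^ k - 1, y'') := by
  have h3 : 0 < 3 ^ k := by positivity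
  have eT : (A + T) * 3 ^ k = A * 3 ^ k + T * 3 ^ k := add_mul _ _ _
  have er : (A + r) * 3 ^ k = A * 3 ^ k + r * 3 ^ k := add_mul _ _ _
  have hTp : 0 < T * 3 ^ k := Nat.mul_pos hT h3
  have hTr : T * 3 ^ k < r * 3 ^ k := Nat.mul_lt_mul_of_pos_right hr h3
  obtain ⟨z, h1, h2⟩ := h.last (a' := A * 3 ^ k) (by simp) (by simp only; omega)
  have h2' := h2.to_sh (c := A * 3 ^ k) (le_refl _)
  rw [eT] at h2'
  have e1 : A * 3 ^ k + T * 3 ^ k - A * 3 ^ k = T * 3 ^ k := by omega
  have e2 : A * 3 ^ k + T * 3 ^ k - 1 - A * 3 ^ k = T * 3 ^ k - 1 := by omega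
  simp only [Nat.sub_self, e1, e2] at h2'
  obtain ⟨y1, y1', hJ'⟩ := hJ
  obtain ⟨z', hz1, -, -⟩ := hJ'.first (b' := T * 3 ^ k) hTp hTp (by simp only; omega)
  have h4 := hG.glue h2' hz1
  have h5 := h4.of_sh
  have h6 := hJ'.of_sh
  simp only [zero_add] at h5 h6
  refine ⟨y1', ?_⟩
  have e3 : r * 3 ^ k - 1 + A * 3 ^ k = (A + r) * 3 ^ k - 1 := by omega
  rw [e3] at h6
  refine (h1.mono (le_refl _) (by omega)).trans ((h5.mono (by omega) (by omega)).trans
    (h6.mono (by omega) (by omega)))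

theorem glue_all {k T r : ℕ} {ω : Cf (3 ^ k)} (hT : 0 < T) (hr : T < r) : ∀ m : ℕ,
    (∀ j ≤ m, LR (sh (j * (r - T) * 3 ^ k) ω) (r * 3 ^ k)) →
    (∀ j ≤ m, Gl k (sh (j * (r - T) * 3 ^ k) ω) T) →
    LR ω ((m * (r - T) + r) * 3 ^ k) := by
  intro m
  induction m with
  | zero =>
    intro h1 h2
    have h := h1 0 (le_refl _)
    rw [zero_mul, zero_mul] at h
    rw [zero_mul, zero_add]
    exact h
  | succ m ih =>
    intro h1 h2
    obtain ⟨y, y', h⟩ := ih (fun j hj => h1 j (by omega)) (fun j hj => h2 j (by omega))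
    have e : m * (r - T) + r = (m + 1) * (r - T) + T := by
      rw [add_mul, one_mul]; omega
    rw [e] at h
    obtain ⟨y'', h''⟩ := glue_step hT hr h (h2 (m + 1) (le_refl _)) (h1 (m + 1) (le_refl _))
    exact ⟨y, y'', h''⟩

/-- the failure probability of the gluing event with `k+1` blocks -/
theorem gk_bound (k : ℕ) {L : ℕ} (hL : L = (k + 1) * 3 ^ k) :
    PW p0 (3 ^ k) L (fun ω => ¬ Gl k ω (k + 1)) ≤ (1 / 2) ^ k / 1000 := by
  refine le_trans (Gl_prob hL) ?_
  have h1 : ((k : ℝ) + 1) * (1 / 500) ^ k ≤ (1 / 2) ^ k := by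
    have h2 : (k : ℝ) + 1 ≤ 250 ^ k := by
      have : k + 1 ≤ 250 ^ k := by
        have h := Nat.lt_pow_self (n := k) (a := 250) (by norm_num)
        omega
      exact_mod_cast this
    calc ((k : ℝ) + 1) * (1 / 500) ^ k ≤ 250 ^ k * (1 / 500) ^ k :=
          mul_le_mul_of_nonneg_right h2 (by positivity)
      _ = (1 / 2) ^ k := by rw [← mul_pow]; norm_num
  have h3 : (3 : ℝ) ^ k * (1 / 25000) ^ (k + 1) ≤ (1 / 2) ^ k / 25000 := by
    rw [pow_succ, ← mul_assoc, ← mul_pow]
    have : ((3 : ℝ) * (1 / 25000)) ^ k ≤ (1 / 2) ^ k :=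
      pow_le_pow_left₀ (by norm_num) (by norm_num) k
    linarith
  push_cast
  have h5 : (0 : ℝ) < (1 / 2) ^ k := by positivity
  nlinarith

/-- **the crossing probability of a fixed fraction of the length is bounded away from one** -/
theorem cr_frac (K : ℕ) (hK : 0 < K) (k : ℕ) (hk : K ≤ k) :
    1 / (8 * (4 * K + 1)) ≤ 1 - cr k (nk k / K) ∧ 0 < nk k / K := by
  have h3 : 0 < 3 ^ k := by positivity
  have hN := nk_ge k
  set N := nk k with hNd
  set r := N / K with hr
  set T := k + 1 with hT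
  -- arithmetic
  have hpow : (k + 2) * (k + 2) * 10 ≤ 500 ^ k := by
    clear_value N
    have hk1 : 1 ≤ k := by omega
    clear hT T hr r hN hNd N hk h3
    induction k with
    | zero => omega
    | succ k ih =>
      rcases Nat.eq_zero_or_pos k with h | h
      · subst h; norm_num
      · have := ih h
        rw [pow_succ]
        nlinarith
  have hKN : K * r + K > N := by
    have := Nat.div_add_mod N K
    have h2 := Nat.mod_lt N hK
    rw [hr]
    omega
  have hKr : K * r ≤ N := by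
    rw [hr]
    exact Nat.mul_div_le N K
  have hrT : T < r := by
    by_contra hcon
    push Not at hcon
    have h1 : K * r ≤ k * (k + 1) := Nat.mul_le_mul hk hcon
    nlinarith
  have hlen : N + 1 ≤ 4 * K * (r - T) + r := by
    have h1 : K * (r - T) = K * r - K * T := Nat.mul_sub K r T
    have h2 : K * T ≤ k * (k + 1) := Nat.mul_le_mul hk (le_refl _)
    have h4 : 4 * K * (r - T) = 4 * (K * (r - T)) := by ring
    rw [h4, h1]
    have h5 : k * (k + 1) * 10 ≤ 500 ^ k := by nlinarith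
    have h6 : k ≤ k * (k + 1) := Nat.le_mul_of_pos_right _ (by omega)
    have h7 : k * (k + 1) * 10 ≤ N := le_trans h5 hN
    have h8 : 1 ≤ k := by omega
    generalize k * (k + 1) = w at *
    generalize K * T = w2 at *
    generalize K * r = w3 at *
    omega
  refine ⟨?_, by omega⟩
  -- probability
  have hmain : 1 / 4 < (4 * K + 1 : ℕ) * (1 - cr k r) + (4 * K + 1 : ℕ) * ((1 / 2) ^ k / 1000) := by
    have hspec := nk_spec k
    have h1 : 1 / 4 < PW p0 (3 ^ k) ((4 * K * (r - T) + r) * 3 ^ k)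
        (fun ω => ¬ LR ω ((N + 1) * 3 ^ k)) := by
      rw [PW_restrict p0 (Nat.mul_le_mul_right _ hlen) _ (LR_dep _).not]
      unfold PW
      rw [Pr_not]
      unfold cr PW at hspec
      linarith
    refine lt_of_lt_of_le h1 ?_
    refine le_trans (Pr_mono p0_nonneg p0_le (B := fun τ =>
      (∃ j ∈ Finset.range (4 * K + 1), ¬ LR (sh (j * (r - T) * 3 ^ k) (ext τ)) (r * 3 ^ k)) ∨
      (∃ j ∈ Finset.range (4 * K + 1), ¬ Gl k (sh (j * (r - T) * 3 ^ k) (ext τ)) T)) ?_) ?_
    · intro τ h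
      by_contra hcon
      push Not at hcon
      obtain ⟨g1, g2⟩ := hcon
      apply h
      refine LR_shorter (Nat.mul_pos (by omega) h3) (Nat.mul_le_mul_right _ hlen) ?_
      exact glue_all (by omega) hrT (4 * K)
        (fun j hj => g1 j (Finset.mem_range.mpr (by omega)))
        (fun j hj => g2 j (Finset.mem_range.mpr (by omega)))
    · refine le_trans (Pr_or p0_nonneg p0_le _ _) (add_le_add ?_ ?_)
      · refine le_trans (Pr_exists p0_nonneg p0_le _ _) ?_
        refine le_trans (Finset.sum_le_card_nsmul _ _ (1 - cr k r) ?_) ?_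
        · intro j hj
          have hj' := Finset.mem_range.mp hj
          have hle : j * (r - T) * 3 ^ k + r * 3 ^ k ≤ (4 * K * (r - T) + r) * 3 ^ k := by
            rw [← add_mul]
            refine Nat.mul_le_mul_right _ ?_
            refine Nat.add_le_add_right (Nat.mul_le_mul_right _ (by omega)) _
          have := PW_shift (M := 3 ^ k) p0 hle (fun ω => ¬ LR ω (r * 3 ^ k)) (LR_dep _).not
          unfold PW at this
          rw [this, Pr_not]
          unfold cr PW
          exact le_refl _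
        · rw [Finset.card_range, nsmul_eq_mul]
      · refine le_trans (Pr_exists p0_nonneg p0_le _ _) ?_
        refine le_trans (Finset.sum_le_card_nsmul _ _ ((1 / 2) ^ k / 1000) ?_) ?_
        · intro j hj
          have hj' := Finset.mem_range.mp hj
          have hle : j * (r - T) * 3 ^ k + T * 3 ^ k ≤ (4 * K * (r - T) + r) * 3 ^ k := by
            rw [← add_mul]
            refine Nat.mul_le_mul_right _ ?_
            refine Nat.add_le_add (Nat.mul_le_mul_right _ (by omega)) (by omega)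
          have := PW_shift (M := 3 ^ k) p0 hle (fun ω => ¬ Gl k ω T) (Gl_dep (k := k) (T := T)).not
          unfold PW at this
          rw [this]
          exact gk_bound k rfl
        · rw [Finset.card_range, nsmul_eq_mul]
  have hK' : (K : ℝ) * (1 / 2) ^ k ≤ 1 := by
    have h1 : (K : ℝ) ≤ 2 ^ k := by
      have : K ≤ 2 ^ k := le_trans hk (Nat.lt_two_pow_self).le
      exact_mod_cast this
    calc (K : ℝ) * (1 / 2) ^ k ≤ 2 ^ k * (1 / 2) ^ k :=
          mul_le_mul_of_nonneg_right h1 (by positivity)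
      _ = 1 := by rw [← mul_pow]; norm_num
  have hp2 : ((1 : ℝ) / 2) ^ k ≤ 1 := pow_le_one₀ (by norm_num) (by norm_num)
  push_cast at hmain
  have hKp : (0 : ℝ) < 8 * (4 * K + 1) := by positivity
  rw [div_le_iff₀ hKp]
  nlinarith

end Pool.Agent.Q325.Pc
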