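import Mathlib
import Pool.Agent.Q325.PcCross

/-! Percolation on the torus, in coordinates. -/

namespace Pool.Agent.Q325.Pc

open Finset

/-- edges of the torus -/
abbrev TI (N M : ℕ) : Type := ZMod N × ZMod M × Bool

section

variable {N M : ℕ}

/-- the periodic configuration seen from column `a` -/
def cut (a : ZMod N) (η : TI N M → Bool) : Cf M := fun x y t => η ((x : ZMod N) + a, y, t)

/-- open oriented edges -/
def TA (η : TI N M → Bool) (u v : ZMod N × ZMod M) : Prop :=
  (v = (u.1 + 1, u.2) ∧ η (u.1, u.2, false) = true) ∨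
    (v = (u.1, u.2 + 1) ∧ η (u.1, u.2, true) = true)

/-- connected in the torus -/
def TC (η : TI N M → Bool) (u v : ZMod N × ZMod M) : Prop :=
  Relation.ReflTransGen (fun u v => TA η u v ∨ TA η v u) u v

theorem TC_of_conn {η : TI N M → Bool} {a : ZMod N} {i j : ℕ} {u v : ℕ × ZMod M}
    (h : Conn (cut a η) i j u v) :
    TC η ((u.1 : ZMod N) + a, u.2) ((v.1 : ZMod N) + a, v.2) := by
  refine Relation.ReflTransGen.lift (fun u : ℕ × ZMod M => (((u.1 : ℕ) : ZMod N) + a, u.2))
    ?_ _ _ h
  have key : ∀ x y : ℕ × ZMod M, st (cut a η) i j x y →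
      TA η (((x.1 : ℕ) : ZMod N) + a, x.2) (((y.1 : ℕ) : ZMod N) + a, y.2) := by
    rintro x y ⟨-, h⟩
    rcases h with ⟨e1, e2, e3⟩ | ⟨e1, e2, e3⟩
    · left
      refine ⟨?_, e3⟩
      rw [e1, e2]
      push_cast
      simp only [Prod.mk.injEq, and_true]
      ring
    · right
      refine ⟨?_, e3⟩
      rw [e1, e2]
  rintro x y (h | h)
  · exact Or.inl (key x y h)
  · exact Or.inr (key y x h)

variable [NeZero N] [NeZero M]

theorem T_embed (p : ℝ) (a : ZMod N) {L : ℕ} (hL : L ≤ N) (A : Cf M → Prop) (hA : Dep L A) :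
    Pr p (fun η : TI N M → Bool => A (cut a η)) = PW p M L A := by
  refine PW_embed p (fun η : TI N M → Bool => cut a η)
    (fun i => (((i.1 : ℕ) : ZMod N) + a, i.2)) ?_ ?_ A hA
  · intro i j h
    simp only [Prod.mk.injEq, add_left_inj] at h
    have h1 := congrArg ZMod.val h.1
    rw [ZMod.val_cast_of_lt (lt_of_lt_of_le i.1.isLt hL),
      ZMod.val_cast_of_lt (lt_of_lt_of_le j.1.isLt hL)] at h1
    exact Prod.ext (Fin.ext h1) h.2
  · intro ω x h y t
    rfl

/-- window coordinate -/
def Xc (a : ZMod N) (u : ZMod N × ZMod M) : ℕ := (u.1 - a).val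

omit [NeZero M] in
theorem Xc_lt (a : ZMod N) (u : ZMod N × ZMod M) : Xc a u < N := ZMod.val_lt _

omit [NeZero M] in
theorem cast_Xc (a : ZMod N) (u : ZMod N × ZMod M) : ((Xc a u : ℕ) : ZMod N) + a = u.1 := by
  unfold Xc
  rw [ZMod.natCast_zmod_val]
  ring

omit [NeZero M] in
theorem Xc_eq {a : ZMod N} {u : ZMod N × ZMod M} {x : ℕ} (hx : x < N)
    (h : (x : ZMod N) + a = u.1) : Xc a u = x := by
  unfold Xc
  rw [← h, add_sub_cancel_right, ZMod.val_cast_of_lt hx]

omit [NeZero M] in
/-- steps in window coordinates -/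
theorem Xc_step {η : TI N M → Bool} {a : ZMod N} {u v : ZMod N × ZMod M} (h : TA η u v) :
    (Xc a v = Xc a u + 1 ∧ v.2 = u.2 ∧ cut a η (Xc a u) u.2 false = true) ∨
    (Xc a u = N - 1 ∧ Xc a v = 0) ∨
    (Xc a v = Xc a u ∧ v.2 = u.2 + 1 ∧ cut a η (Xc a u) u.2 true = true) := by
  have hu := Xc_lt a u
  rcases h with ⟨rfl, h⟩ | ⟨rfl, h⟩
  · by_cases hlt : Xc a u + 1 < N
    · left
      refine ⟨?_, rfl, ?_⟩
      · refine Xc_eq hlt ?_
        have := cast_Xc a u
        push_cast
        rw [← this]
        ring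
      · simp only [cut, cast_Xc]
        exact h
    · right; left
      have e : Xc a u = N - 1 := by omega
      refine ⟨e, ?_⟩
      refine Xc_eq (Nat.pos_of_ne_zero (NeZero.ne N)) ?_
      have := cast_Xc a u
      have h1 : ((Xc a u + 1 : ℕ) : ZMod N) = 0 := by
        rw [e, Nat.sub_add_cancel (Nat.pos_of_ne_zero (NeZero.ne N))]
        exact ZMod.natCast_self N
      push_cast at h1 ⊢
      rw [← this]
      have : ((Xc a u : ℕ) : ZMod N) + a + 1 = (((Xc a u : ℕ) : ZMod N) + 1) + a := by ring
      rw [this, h1]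
  · right; right
    refine ⟨rfl, rfl, ?_⟩
    simp only [cut, cast_Xc]
    exact h

omit [NeZero M] in
/-- **confinement of clusters between two uncrossed windows** -/
theorem confine {η : TI N M → Bool} {a : ZMod N} {B m : ℕ} (hB : 1 ≤ B) (hm : 1 ≤ m)
    (hN : 2 * B + m ≤ N) (hL : ¬ LR (cut a η) B)
    (hR : ¬ LR (cut (a + ((B + m : ℕ) : ZMod N)) η) B) {v u : ZMod N × ZMod M}
    (hv : B ≤ Xc a v ∧ Xc a v < B + m) (h : TC η v u) : Xc a u < 2 * B + m := by
  set c : Cf M := cut a η with hc
  have hR' : ∀ z z', ¬ Conn c (B + m) (2 * B + m) (B + m, z) (2 * B + m - 1, z') := by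
    intro z z' hcon
    apply hR
    refine ⟨z, z', ?_⟩
    have h1 := hcon.to_sh (c := B + m) (le_refl _)
    have e1 : 2 * B + m - (B + m) = B := by omega
    have e2 : 2 * B + m - 1 - (B + m) = B - 1 := by omega
    simp only [Nat.sub_self, e1, e2] at h1
    refine h1.congr ?_
    intro x _ _ y t
    simp only [sh, hc, cut]
    push_cast
    congr 2
    ring
  -- the invariant
  set U : ZMod N × ZMod M → Prop := fun u =>
    (B ≤ Xc a u ∧ Xc a u < B + m) ∨
    (Xc a u < B ∧ ∃ z, Conn c 0 B (Xc a u, u.2) (B - 1, z)) ∨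
    ((B + m ≤ Xc a u ∧ Xc a u < 2 * B + m) ∧
      ∃ z, Conn c (B + m) (2 * B + m) (B + m, z) (Xc a u, u.2)) with hU
  have hUlt : ∀ u, U u → Xc a u < 2 * B + m := by
    rintro u (h | h | h) <;> omega
  refine hUlt u ?_
  have hstep : ∀ u w, U u → (TA η u w ∨ TA η w u) → U w := by
    intro u w hu hs
    have hXu := Xc_lt a u
    have hXw := Xc_lt a w
    rcases hs with hs | hs
    · rcases Xc_step (a := a) hs with ⟨e1, e2, e3⟩ | ⟨e1, e2⟩ | ⟨e1, e2, e3⟩
      · -- forward
        rcases hu with hu | ⟨hu, z, hz⟩ | ⟨hu, z, hz⟩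
        · by_cases hlt : Xc a w < B + m
          · exact Or.inl ⟨by omega, hlt⟩
          · right; right
            have e : Xc a w = B + m := by omega
            refine ⟨⟨by omega, by omega⟩, w.2, ?_⟩
            rw [e]
            exact Conn.refl _
        · by_cases hlt : Xc a w < B
          · right; left
            refine ⟨hlt, z, Relation.ReflTransGen.head ?_ hz⟩
            exact Or.inr ⟨⟨Nat.zero_le _, hu, Nat.zero_le _, hlt⟩, Or.inl ⟨e1, e2, e3⟩⟩
          · exact Or.inl ⟨by omega, by omega⟩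
        · by_cases hlt : Xc a w < 2 * B + m
          · right; right
            refine ⟨⟨by omega, hlt⟩, z, Relation.ReflTransGen.tail hz ?_⟩
            exact Or.inl ⟨⟨hu.1, hu.2, by simp only; omega, hlt⟩, Or.inl ⟨e1, e2, e3⟩⟩
          · exfalso
            have e : Xc a u = 2 * B + m - 1 := by omega
            rw [e] at hz
            exact hR' _ _ hz
      · -- wrap forward
        exfalso
        rcases hu with hu | ⟨hu, z, hz⟩ | ⟨hu, z, hz⟩
        · omega
        · omega
        · have e : Xc a u = 2 * B + m - 1 := by omega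
          rw [e] at hz
          exact hR' _ _ hz
      · -- vertical up
        rcases hu with hu | ⟨hu, z, hz⟩ | ⟨hu, z, hz⟩
        · exact Or.inl ⟨by omega, by omega⟩
        · right; left
          refine ⟨by omega, z, Relation.ReflTransGen.head ?_ hz⟩
          exact Or.inr ⟨⟨Nat.zero_le _, hu, Nat.zero_le _, by simp only; omega⟩,
            Or.inr ⟨e1, e2, e3⟩⟩
        · right; right
          refine ⟨by omega, z, Relation.ReflTransGen.tail hz ?_⟩
          exact Or.inl ⟨⟨hu.1, hu.2, by simp only; omega, by simp only; omega⟩,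
            Or.inr ⟨e1, e2, e3⟩⟩
    · rcases Xc_step (a := a) hs with ⟨e1, e2, e3⟩ | ⟨e1, e2⟩ | ⟨e1, e2, e3⟩
      · -- backward
        rcases hu with hu | ⟨hu, z, hz⟩ | ⟨hu, z, hz⟩
        · by_cases hlt : B ≤ Xc a w
          · exact Or.inl ⟨hlt, by omega⟩
          · right; left
            have e : Xc a w = B - 1 := by omega
            refine ⟨by omega, w.2, ?_⟩
            rw [e]
            exact Conn.refl _
        · right; left
          refine ⟨by omega, z, Relation.ReflTransGen.head ?_ hz⟩
          exact Or.inl ⟨⟨Nat.zero_le _, by simp only; omega, Nat.zero_le _, hu⟩,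
            Or.inl ⟨e1, e2, e3⟩⟩
        · by_cases hlt : B + m ≤ Xc a w
          · right; right
            refine ⟨⟨hlt, by omega⟩, z, Relation.ReflTransGen.tail hz ?_⟩
            exact Or.inr ⟨⟨hlt, by simp only; omega, hu.1, hu.2⟩, Or.inl ⟨e1, e2, e3⟩⟩
          · exact Or.inl ⟨by omega, by omega⟩
      · -- wrap backward
        exfalso
        rcases hu with hu | ⟨hu, z, hz⟩ | ⟨hu, z, hz⟩
        · omega
        · rw [e2] at hz
          exact hL ⟨u.2, z, hz⟩
        · omega
      · -- vertical down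
        rcases hu with hu | ⟨hu, z, hz⟩ | ⟨hu, z, hz⟩
        · exact Or.inl ⟨by omega, by omega⟩
        · right; left
          refine ⟨by omega, z, Relation.ReflTransGen.head ?_ hz⟩
          exact Or.inl ⟨⟨Nat.zero_le _, by simp only; omega, Nat.zero_le _, hu⟩,
            Or.inr ⟨e1, e2, e3⟩⟩
        · right; right
          refine ⟨by omega, z, Relation.ReflTransGen.tail hz ?_⟩
          exact Or.inr ⟨⟨by simp only; omega, by simp only; omega, hu.1, hu.2⟩,
            Or.inr ⟨e1, e2, e3⟩⟩
  unfold TC at h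
  induction h with
  | refl => exact Or.inl hv
  | tail _ h ih => exact hstep _ _ ih h

omit [NeZero M] in
/-- clusters are small when `K` disjoint windows are not crossed -/
theorem small_clusters {η : TI N M → Bool} {K B : ℕ} (hK : 3 ≤ K) (hB : 1 ≤ B)
    (hKB : K * B ≤ N) (h : ∀ j < K, ¬ LR (cut ((j * B : ℕ) : ZMod N) η) B)
    (v : ZMod N × ZMod M) : ∃ a : ZMod N, ∀ u, TC η v u → Xc a u < 3 * B + (N - K * B) := by
  set x := v.1.val with hx
  have hxN : x < N := ZMod.val_lt _
  have hxv : (x : ZMod N) = v.1 := ZMod.natCast_zmod_val _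
  obtain ⟨K', rfl⟩ : ∃ K', K = K' + 3 := ⟨K - 3, by omega⟩
  have e1 : (K' + 3) * B = K' * B + 3 * B := by ring
  have e2 : (K' + 2) * B = K' * B + 2 * B := by ring
  have e3 : (K' + 1) * B = K' * B + B := by ring
  by_cases hA : x < B
  · -- left barrier is the last window
    refine ⟨(((K' + 2) * B : ℕ) : ZMod N), fun u hu => ?_⟩
    have hXv : Xc (((K' + 2) * B : ℕ) : ZMod N) v = x + N - (K' + 2) * B := by
      refine Xc_eq (by omega) ?_
      rw [← Nat.cast_add, Nat.sub_add_cancel (by omega), Nat.cast_add, hxv,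
        ZMod.natCast_self, add_zero]
    have := confine (η := η) (a := (((K' + 2) * B : ℕ) : ZMod N)) (B := B)
      (m := B + (N - (K' + 3) * B)) hB (by omega) (by omega) (h _ (by omega)) ?_
      (v := v) (u := u) ⟨by omega, by omega⟩ hu
    · omega
    · have e : (((K' + 2) * B : ℕ) : ZMod N) + ((B + (B + (N - (K' + 3) * B)) : ℕ) : ZMod N) =
          ((1 * B : ℕ) : ZMod N) := by
        rw [← Nat.cast_add]
        have : (K' + 2) * B + (B + (B + (N - (K' + 3) * B))) = 1 * B + N := by omega
        rw [this, Nat.cast_add, ZMod.natCast_self, add_zero]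
      rw [e]
      exact h 1 (by omega)
  · by_cases hB' : (K' + 2) * B ≤ x
    · refine ⟨(((K' + 1) * B : ℕ) : ZMod N), fun u hu => ?_⟩
      have hXv : Xc (((K' + 1) * B : ℕ) : ZMod N) v = x - (K' + 1) * B := by
        refine Xc_eq (by omega) ?_
        rw [← Nat.cast_add, Nat.sub_add_cancel (by omega), hxv]
      have := confine (η := η) (a := (((K' + 1) * B : ℕ) : ZMod N)) (B := B)
        (m := B + (N - (K' + 3) * B)) hB (by omega) (by omega) (h _ (by omega)) ?_
        (v := v) (u := u) ⟨by omega, by omega⟩ hu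
      · omega
      · have e : (((K' + 1) * B : ℕ) : ZMod N) +
            ((B + (B + (N - (K' + 3) * B)) : ℕ) : ZMod N) = ((0 * B : ℕ) : ZMod N) := by
          rw [← Nat.cast_add]
          have : (K' + 1) * B + (B + (B + (N - (K' + 3) * B))) = N := by omega
          rw [this, ZMod.natCast_self, zero_mul, Nat.cast_zero]
        rw [e]
        exact h 0 (by omega)
    · -- in the middle
      push Not at hA hB'
      obtain ⟨j, hj⟩ : ∃ j, x / B = j + 1 := by
        have : 1 ≤ x / B := (Nat.one_le_div_iff (by omega)).mpr hA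
        exact ⟨x / B - 1, by omega⟩
      have hj1 : (j + 1) * B ≤ x := by
        rw [← hj]; exact Nat.div_mul_le_self x B
      have hj2 : x < (j + 2) * B := by
        have := Nat.lt_div_mul_add (a := x) (b := B) (by omega)
        rw [hj] at this
        calc x < (j + 1) * B + B := this
          _ = (j + 2) * B := by ring
      have hjK : j + 1 < K' + 2 := by
        by_contra hcon
        push Not at hcon
        have := Nat.mul_le_mul_right B hcon
        omega
      have f1 : (j + 1) * B = j * B + B := by ring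
      have f2 : (j + 2) * B = j * B + 2 * B := by ring
      have f3 : (j + 2) * B ≤ (K' + 2) * B := Nat.mul_le_mul_right _ (by omega)
      refine ⟨((j * B : ℕ) : ZMod N), fun u hu => ?_⟩
      have hXv : Xc ((j * B : ℕ) : ZMod N) v = x - j * B := by
        refine Xc_eq (by omega) ?_
        rw [← Nat.cast_add, Nat.sub_add_cancel (by omega), hxv]
      have := confine (η := η) (a := ((j * B : ℕ) : ZMod N)) (B := B)
        (m := B) hB hB (by omega) (h _ (by omega)) ?_
        (v := v) (u := u) ⟨by omega, by omega⟩ hu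
      · omega
      · have e : ((j * B : ℕ) : ZMod N) + ((B + B : ℕ) : ZMod N) =
            (((j + 2) * B : ℕ) : ZMod N) := by
          rw [← Nat.cast_add]
          congr 1
          omega
        rw [e]
        exact h _ (by omega)

theorem card_window (a : ZMod N) (W : ℕ) (S : Finset (ZMod N × ZMod M))
    (hS : ∀ u ∈ S, Xc a u < W) : S.card ≤ W * M := by
  rcases Nat.eq_zero_or_pos W with h0 | h0
  · subst h0
    have : S = ∅ := by
      rw [Finset.eq_empty_iff_forall_notMem]
      intro u hu
      exact absurd (hS u hu) (Nat.not_lt_zero _)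
    rw [this]
    simp
  · have h1 : (Finset.univ : Finset (Fin W × ZMod M)).card = W * M := by
      rw [Finset.card_univ, Fintype.card_prod, Fintype.card_fin, ZMod.card]
    rw [← h1]
    refine Finset.card_le_card_of_injOn
      (fun u => ((⟨Xc a u % W, Nat.mod_lt _ h0⟩, u.2) : Fin W × ZMod M))
      (fun u _ => Finset.mem_univ _) ?_
    intro u hu v hv h
    have hu' := hS u hu
    have hv' := hS v hv
    simp only [Prod.mk.injEq, Fin.mk.injEq] at h
    rw [Nat.mod_eq_of_lt hu', Nat.mod_eq_of_lt hv'] at h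
    refine Prod.ext ?_ h.2
    rw [← cast_Xc a u, ← cast_Xc a v, h.1]

end

end Pool.Agent.Q325.Pc
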