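import Mathlib
import Pool.Agent.Q325.PcTorus

/-! The two estimates on the tori. -/

namespace Pool.Agent.Q325.Pc

open Finset

theorem nk_pos (k : ℕ) : 0 < nk k := lt_of_lt_of_le (by positivity) (nk_ge k)

theorem succ_le_nk (k : ℕ) : k + 1 ≤ nk k := by
  have h := Nat.lt_pow_self (n := k) (a := 500) (by norm_num)
  exact le_trans h (nk_ge k)

/-- **each vertex is in a long cluster with probability at least one half** -/
theorem long_prob (k N : ℕ) [NeZero N] (hN : N = nk k * 3 ^ k)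
    (v : ZMod N × ZMod (3 ^ k)) :
    1 / 2 ≤ Pr p0 (fun η : TI N (3 ^ k) → Bool =>
      ∀ x < N, ∃ z, TC η v ((x : ZMod N) + v.1, z)) := by
  have h3 : 0 < 3 ^ k := by positivity
  have hn := nk_pos k
  have hkn := succ_le_nk k
  have hMN : 3 ^ k ≤ N := by
    rw [hN]; exact Nat.le_mul_of_pos_left _ hn
  have hTN : (k + 1) * 3 ^ k ≤ N := by
    rw [hN]; exact Nat.mul_le_mul_right _ hkn
  -- the three events
  have e1 : 3 / 4 ≤ Pr p0 (fun η : TI N (3 ^ k) → Bool => LR (cut v.1 η) N) := by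
    rw [T_embed p0 v.1 (le_refl N) (fun ω => LR ω N) (LR_dep N)]
    have := nk_min k (nk k) hn (le_refl _)
    unfold cr at this
    rw [← hN] at this
    exact this
  have e2 : Pr p0 (fun η : TI N (3 ^ k) → Bool => ¬ Gl k (cut v.1 η) (k + 1)) ≤ 1 / 1000 := by
    rw [T_embed p0 v.1 hTN (fun ω => ¬ Gl k ω (k + 1)) (Gl_dep (k := k) (T := k + 1)).not]
    refine le_trans (gk_bound k rfl) ?_
    have : ((1 : ℝ) / 2) ^ k ≤ 1 := pow_le_one₀ (by norm_num) (by norm_num)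
    linarith
  have e3 : Pr p0 (fun η : TI N (3 ^ k) → Bool =>
      ¬ (good (sC (cut v.1 η)) k 0 0 ∧ core (sC (cut v.1 η)) k 0 0 0 v.2.val)) ≤ 1 / 25000 := by
    rw [T_embed p0 v.1 hMN
      (fun ω => ¬ (good (sC ω) k 0 0 ∧ core (sC ω) k 0 0 0 v.2.val)) ?_]
    · exact core_window_prob (k := k) (L := 3 ^ k) (c := 0) (by omega) v.2.val (ZMod.val_lt _)
    · intro ω ω' h
      simp only [good_dep (c := 0) (L := 3 ^ k) (by omega) h,
        core_dep (c := 0) (L := 3 ^ k) (by omega) h]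
  have e4 := Pr_and_ge p0_nonneg p0_le (fun η : TI N (3 ^ k) → Bool => LR (cut v.1 η) N)
    (fun η => Gl k (cut v.1 η) (k + 1))
  have e5 := Pr_and_ge p0_nonneg p0_le (fun η : TI N (3 ^ k) → Bool => LR (cut v.1 η) N ∧
    Gl k (cut v.1 η) (k + 1))
    (fun η => good (sC (cut v.1 η)) k 0 0 ∧ core (sC (cut v.1 η)) k 0 0 0 v.2.val)
  refine le_trans (show (1 : ℝ) / 2 ≤ _ by linarith) (Pr_mono p0_nonneg p0_le ?_ (A := fun η =>
    (LR (cut v.1 η) N ∧ Gl k (cut v.1 η) (k + 1)) ∧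
      (good (sC (cut v.1 η)) k 0 0 ∧ core (sC (cut v.1 η)) k 0 0 0 v.2.val)))
  rintro η ⟨⟨⟨y, y', hLR⟩, hG⟩, -, hcore⟩
  set c := cut v.1 η with hc
  have hT0 : 0 < (k + 1) * 3 ^ k := Nat.mul_pos (by omega) h3
  -- crossing of the gluing region
  obtain ⟨z, hz⟩ : ∃ z, Conn c 0 ((k + 1) * 3 ^ k) (0, y) ((k + 1) * 3 ^ k - 1, z) := by
    rcases Nat.lt_or_ge ((k + 1) * 3 ^ k) N with hlt | hge
    · obtain ⟨z, hz, -, -⟩ := hLR.first hT0 hT0 (by simp only; omega)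
      exact ⟨z, hz⟩
    · have : (k + 1) * 3 ^ k = N := by omega
      rw [this]
      exact ⟨y', hLR⟩
  obtain ⟨i, hi, x0, z0, h1, h2⟩ := hG.2 y z hz
  have hcore' : core (sC c) k (0 * 3 ^ k) 0 0 v.2.val := by
    rw [zero_mul]; exact hcore
  have h4 := cores_conn' hG.1 (show 0 < k + 1 by omega) hi hcore' h1
  rw [ZMod.natCast_zmod_val] at h4
  have h5 : Conn c 0 N (0, v.2) (0, y) := (h4.trans h2.symm).mono (le_refl _) hTN
  have hv : (((0 : ℕ) : ZMod N) + v.1, v.2) = v := by simp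
  intro x hx
  by_cases hx0 : x = 0
  · refine ⟨v.2, ?_⟩
    rw [hx0, hv]
    exact Relation.ReflTransGen.refl
  · obtain ⟨w, hw, -⟩ := hLR.last (a' := x) (by simp) (by simp only; omega)
    refine ⟨w, ?_⟩
    have := TC_of_conn (h5.trans hw)
    rw [hv] at this
    exact this

/-- **all clusters are short with probability bounded below** -/
theorem short_prob (K k N : ℕ) [NeZero N] (hN : N = nk k * 3 ^ k) (hK : 3 ≤ K) (hk : K ≤ k) :
    (1 / (8 * (4 * (K : ℝ) + 1))) ^ K ≤ Pr p0 (fun η : TI N (3 ^ k) → Bool =>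
      ∀ j < K, ¬ LR (cut ((j * (nk k / K * 3 ^ k) : ℕ) : ZMod N) η) (nk k / K * 3 ^ k)) := by
  have h3 : 0 < 3 ^ k := by positivity
  obtain ⟨hc, hr⟩ := cr_frac K (by omega) k hk
  set r := nk k / K with hrd
  set B := r * 3 ^ k with hB
  have hBpos : 0 < B := Nat.mul_pos hr h3
  have hKr : K * r ≤ nk k := Nat.mul_div_le (nk k) K
  have hKB : K * B ≤ N := by
    rw [hN, hB, ← mul_assoc]
    exact Nat.mul_le_mul_right _ hKr
  set F : Fin K × SI (3 ^ k) B → TI N (3 ^ k) := fun i =>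
    (((i.1 * B + i.2.1 : ℕ) : ZMod N), i.2.2.1, i.2.2.2) with hF
  have hlt : ∀ i : Fin K × SI (3 ^ k) B, (i.1 : ℕ) * B + i.2.1 < N := by
    intro i
    have h1 := i.1.isLt
    have h2 := i.2.1.isLt
    have h4 : ((i.1 : ℕ) + 1) * B ≤ K * B := Nat.mul_le_mul_right _ h1
    rw [add_mul, one_mul] at h4
    omega
  have hFi : Function.Injective F := by
    intro i j h
    simp only [hF, Prod.mk.injEq] at h
    obtain ⟨h1, h2, h4⟩ := h
    have h5 := congrArg ZMod.val h1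
    rw [ZMod.val_cast_of_lt (hlt i), ZMod.val_cast_of_lt (hlt j)] at h5
    rw [mul_comm (i.1 : ℕ), mul_comm (j.1 : ℕ)] at h5
    obtain ⟨h6, h7⟩ := mul_add_cancel' i.2.1.isLt j.2.1.isLt h5
    exact Prod.ext (Fin.ext h6) (Prod.ext (Fin.ext h7) (Prod.ext h2 h4))
  have hp := Pr_pow (κ := Fin K) p0 (fun τ : SI (3 ^ k) B → Bool => ¬ LR (ext τ) B)
  rw [Fintype.card_fin, ← marg p0 F hFi] at hp
  have h1 : Pr p0 (fun τ : SI (3 ^ k) B → Bool => ¬ LR (ext τ) B) = 1 - cr k r := by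
    rw [Pr_not]
    rfl
  rw [h1] at hp
  refine le_trans (pow_le_pow_left₀ (by positivity) hc K) ?_
  rw [← hp]
  refine Pr_mono p0_nonneg p0_le ?_
  intro η h j hj hcon
  apply h ⟨j, hj⟩
  refine ((LR_dep B) _ _ ?_).mp hcon
  intro x hx y t
  simp only [cut, ext, hx, dif_pos, hF]
  push_cast
  congr 2
  ring

/-- the clusters are small on this event -/
theorem small_card (K k N : ℕ) [NeZero N] (hN : N = nk k * 3 ^ k) (hK : 3 ≤ K) (hk : K ≤ k)
    (C : ℝ) (hC : 6 / K < C) (η : TI N (3 ^ k) → Bool)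
    (h : ∀ j < K, ¬ LR (cut ((j * (nk k / K * 3 ^ k) : ℕ) : ZMod N) η) (nk k / K * 3 ^ k))
    (v : ZMod N × ZMod (3 ^ k)) (S : Finset (ZMod N × ZMod (3 ^ k)))
    (hS : ∀ u ∈ S, TC η v u) : (S.card : ℝ) < C * (N * 3 ^ k) := by
  have h3 : 0 < 3 ^ k := by positivity
  obtain ⟨-, hr⟩ := cr_frac K (by omega) k hk
  set r := nk k / K with hrd
  have hBpos : 0 < r * 3 ^ k := Nat.mul_pos hr h3
  have hKr : K * r ≤ nk k := Nat.mul_div_le (nk k) K
  have hKB : K * (r * 3 ^ k) ≤ N := by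
    rw [hN, ← mul_assoc]
    exact Nat.mul_le_mul_right _ hKr
  obtain ⟨a, ha⟩ := small_clusters hK hBpos hKB h v
  have hcard := card_window a _ S (fun u hu => ha u (hS u hu))
  have hcard' : (S.card : ℝ) ≤ ((3 * (r * 3 ^ k) + (N - K * (r * 3 ^ k)) : ℕ) : ℝ) * 3 ^ k := by
    exact_mod_cast hcard
  refine lt_of_le_of_lt hcard' ?_
  have e0 : C * ((N : ℝ) * 3 ^ k) = C * N * 3 ^ k := by ring
  rw [e0]
  have h3' : (0 : ℝ) < 3 ^ k := by positivity
  refine mul_lt_mul_of_pos_right ?_ h3'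
  have hKN : nk k < K * r + K := by
    have h5 := Nat.div_add_mod (nk k) K
    have h6 := Nat.mod_lt (nk k) (show 0 < K by omega)
    rw [hrd]
    omega
  have e : ((3 * (r * 3 ^ k) + (N - K * (r * 3 ^ k)) : ℕ) : ℝ) =
      (3 * r + (nk k - K * r)) * 3 ^ k := by
    rw [hN] at hKB ⊢
    push_cast [Nat.cast_sub hKB]
    ring
  rw [e]
  have eN : (N : ℝ) = nk k * 3 ^ k := by rw [hN]; push_cast; ring
  have e00 : C * (N : ℝ) = C * nk k * 3 ^ k := by rw [eN]; ring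
  rw [e00]
  refine mul_lt_mul_of_pos_right ?_ h3'
  have hK' : (3 : ℝ) ≤ K := by exact_mod_cast hK
  have hKN' : (nk k : ℝ) < K * r + K := by exact_mod_cast hKN
  have hKr' : (K : ℝ) * r ≤ nk k := by exact_mod_cast hKr
  have hbig : (K : ℝ) * K ≤ 3 * nk k := by
    have h5 : k * k ≤ 500 ^ k := by
      have h6 : k < 20 ^ k := Nat.lt_pow_self (by norm_num)
      calc k * k ≤ 20 ^ k * 20 ^ k := Nat.mul_le_mul h6.le h6.le
        _ = 400 ^ k := by rw [← mul_pow]; norm_num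
        _ ≤ 500 ^ k := Nat.pow_le_pow_left (by norm_num) k
    have h7 : K * K ≤ nk k := le_trans (Nat.mul_le_mul hk hk) (le_trans h5 (nk_ge k))
    have : (K : ℝ) * K ≤ nk k := by exact_mod_cast h7
    have h8 : (0 : ℝ) ≤ nk k := Nat.cast_nonneg _
    linarith
  have hnkpos : (0 : ℝ) < nk k := by exact_mod_cast nk_pos k
  have h9 : (6 : ℝ) / K * nk k < C * nk k := mul_lt_mul_of_pos_right hC hnkpos
  have hKpos : (0 : ℝ) < K := by linarith
  have h10 : (3 : ℝ) * r + (nk k - K * r) ≤ 6 / K * nk k := by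
    rw [div_mul_eq_mul_div, le_div_iff₀ hKpos]
    nlinarith
  linarith

end Pool.Agent.Q325.Pc
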