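import Mathlib
import Pool.Agent.Q325.PcEvents

/-! Bond percolation on finite graphs, and the tori as graphs. -/

namespace Pool.Agent.Q325.Pc

open Finset

/-- The open subgraph of a bond configuration `ω` on `G`: `ω e = true` means that the edge `e`
is kept. -/
def openGraph {V : Type} (G : SimpleGraph V) (ω : G.edgeSet → Bool) : SimpleGraph V where
  Adj u v := ∃ h : G.Adj u v, ω ⟨s(u, v), h⟩ = true
  symm := ⟨fun u v ⟨h, h'⟩ => ⟨h.symm, by
    have e : (⟨s(v, u), h.symm⟩ : G.edgeSet) = ⟨s(u, v), h⟩ := Subtype.ext Sym2.eq_swap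
    rw [e]; exact h'⟩⟩
  loopless := ⟨fun v ⟨h, _⟩ => G.loopless.irrefl v h⟩

section

variable (N M : ℕ)

/-- the torus as a graph -/
def torus : SimpleGraph (ZMod N × ZMod M) where
  Adj u v := u ≠ v ∧ (v = (u.1 + 1, u.2) ∨ u = (v.1 + 1, v.2) ∨ v = (u.1, u.2 + 1) ∨
    u = (v.1, v.2 + 1))
  symm := ⟨by
    rintro u v ⟨h, h1 | h1 | h1 | h1⟩
    · exact ⟨h.symm, Or.inr (Or.inl h1)⟩
    · exact ⟨h.symm, Or.inl h1⟩
    · exact ⟨h.symm, Or.inr (Or.inr (Or.inr h1))⟩
    · exact ⟨h.symm, Or.inr (Or.inr (Or.inl h1))⟩⟩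
  loopless := ⟨fun v h => h.1 rfl⟩

variable {N M}

theorem one_ne {n : ℕ} (h : 3 ≤ n) : (1 : ZMod n) ≠ 0 := by
  intro h1
  have : ((1 : ℕ) : ZMod n) = 0 := by exact_mod_cast h1
  rw [ZMod.natCast_eq_zero_iff] at this
  have := Nat.le_of_dvd (by norm_num) this
  omega

theorem two_ne {n : ℕ} (h : 3 ≤ n) : (1 : ZMod n) + 1 ≠ 0 := by
  intro h1
  have : ((2 : ℕ) : ZMod n) = 0 := by
    push_cast
    rw [← h1]; norm_num
  rw [ZMod.natCast_eq_zero_iff] at this
  have := Nat.le_of_dvd (by norm_num) this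
  omega

theorem adj_h (hN : 3 ≤ N) (u : ZMod N × ZMod M) : (torus N M).Adj u (u.1 + 1, u.2) := by
  refine ⟨?_, Or.inl rfl⟩
  intro h
  have := congrArg Prod.fst h
  simp only [left_eq_add] at this
  exact one_ne hN this

theorem adj_v (hM : 3 ≤ M) (u : ZMod N × ZMod M) : (torus N M).Adj u (u.1, u.2 + 1) := by
  refine ⟨?_, Or.inr (Or.inr (Or.inl rfl))⟩
  intro h
  have := congrArg Prod.snd h
  simp only [left_eq_add] at this
  exact one_ne hM this

/-- the edges -/
def edgeMap (hN : 3 ≤ N) (hM : 3 ≤ M) (i : TI N M) : (torus N M).edgeSet :=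
  match i with
  | (x, y, false) => ⟨s((x, y), (x + 1, y)), adj_h hN (x, y)⟩
  | (x, y, true) => ⟨s((x, y), (x, y + 1)), adj_v hM (x, y)⟩

theorem edgeMap_inj (hN : 3 ≤ N) (hM : 3 ≤ M) : Function.Injective (edgeMap hN hM) := by
  have h1 := one_ne hN
  have h2 := two_ne hN
  have h3 := one_ne hM
  have h4 := two_ne hM
  rintro ⟨x, y, b⟩ ⟨x', y', b'⟩ h
  cases b <;> cases b'
  · simp only [edgeMap, Subtype.mk.injEq, Sym2.eq_iff, Prod.mk.injEq] at h
    rcases h with ⟨⟨e1, e2⟩, -⟩ | ⟨⟨e1, e2⟩, e3, e4⟩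
    · rw [e1, e2]
    · exfalso
      apply h2
      rw [e1, add_assoc] at e3
      have := add_eq_left.mp e3
      exact this
  · simp only [edgeMap, Subtype.mk.injEq, Sym2.eq_iff, Prod.mk.injEq] at h
    rcases h with ⟨⟨e1, e2⟩, e3, e4⟩ | ⟨⟨e1, e2⟩, e3, e4⟩
    · exfalso
      apply h1
      rw [e1] at e3
      exact add_eq_left.mp e3
    · exfalso
      apply h1
      rw [e1] at e3
      exact add_eq_left.mp e3
  · simp only [edgeMap, Subtype.mk.injEq, Sym2.eq_iff, Prod.mk.injEq] at h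
    rcases h with ⟨⟨e1, e2⟩, e3, e4⟩ | ⟨⟨e1, e2⟩, e3, e4⟩
    · exfalso
      apply h3
      rw [e2] at e4
      exact add_eq_left.mp e4
    · exfalso
      apply h3
      rw [e2] at e4
      exact add_eq_left.mp e4
  · simp only [edgeMap, Subtype.mk.injEq, Sym2.eq_iff, Prod.mk.injEq] at h
    rcases h with ⟨⟨e1, e2⟩, -⟩ | ⟨⟨e1, e2⟩, e3, e4⟩
    · rw [e1, e2]
    · exfalso
      apply h4
      rw [e2, add_assoc] at e4
      exact add_eq_left.mp e4

/-- the open graph in coordinates -/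
theorem open_iff (hN : 3 ≤ N) (hM : 3 ≤ M) (ω : (torus N M).edgeSet → Bool)
    (u v : ZMod N × ZMod M) : (openGraph (torus N M) ω).Reachable u v ↔
      TC (fun i => ω (edgeMap hN hM i)) u v := by
  rw [SimpleGraph.reachable_iff_reflTransGen]
  have key : ∀ u v, (openGraph (torus N M) ω).Adj u v ↔
      (TA (fun i => ω (edgeMap hN hM i)) u v ∨ TA (fun i => ω (edgeMap hN hM i)) v u) := by
    intro u v
    constructor
    · rintro ⟨h, hω⟩
      rcases h.2 with h1 | h1 | h1 | h1
      · left; left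
        refine ⟨h1, ?_⟩
        subst h1
        exact hω
      · right; left
        refine ⟨h1, ?_⟩
        subst h1
        have e : (⟨s((v.1 + 1, v.2), v), h⟩ : (torus N M).edgeSet) =
            edgeMap hN hM (v.1, v.2, false) := Subtype.ext Sym2.eq_swap
        rw [e] at hω
        exact hω
      · left; right
        refine ⟨h1, ?_⟩
        subst h1
        exact hω
      · right; right
        refine ⟨h1, ?_⟩
        subst h1
        have e : (⟨s((v.1, v.2 + 1), v), h⟩ : (torus N M).edgeSet) =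
            edgeMap hN hM (v.1, v.2, true) := Subtype.ext Sym2.eq_swap
        rw [e] at hω
        exact hω
    · rintro ((⟨h1, h2⟩ | ⟨h1, h2⟩) | (⟨h1, h2⟩ | ⟨h1, h2⟩))
      · subst h1
        exact ⟨adj_h hN u, h2⟩
      · subst h1
        exact ⟨adj_v hM u, h2⟩
      · subst h1
        refine SimpleGraph.Adj.symm (G := openGraph (torus N M) ω) ?_
        exact ⟨adj_h hN v, h2⟩
      · subst h1
        refine SimpleGraph.Adj.symm (G := openGraph (torus N M) ω) ?_
        exact ⟨adj_v hM v, h2⟩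
  unfold TC
  have hfun : (openGraph (torus N M) ω).Adj = (fun u v =>
      TA (fun i => ω (edgeMap hN hM i)) u v ∨ TA (fun i => ω (edgeMap hN hM i)) v u) := by
    funext u v
    exact propext (key u v)
  rw [hfun]

/-- each vertex has four neighbours -/
theorem torus_regular (hN : 3 ≤ N) (hM : 3 ≤ M) (u : ZMod N × ZMod M) :
    ((torus N M).neighborSet u).ncard = 4 := by
  classical
  have h1 := one_ne hN
  have h2 := two_ne hN
  have h3 := one_ne hM
  have h4 := two_ne hM
  have e : (torus N M).neighborSet u =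
      ((({(u.1 + 1, u.2), (u.1 - 1, u.2), (u.1, u.2 + 1), (u.1, u.2 - 1)} :
        Finset (ZMod N × ZMod M))) : Set (ZMod N × ZMod M)) := by
    ext v
    simp only [SimpleGraph.mem_neighborSet, Finset.coe_insert, Finset.coe_singleton,
      Set.mem_insert_iff, Set.mem_singleton_iff]
    constructor
    · rintro ⟨-, h | h | h | h⟩
      · exact Or.inl h
      · right; left
        rw [h]; simp
      · exact Or.inr (Or.inr (Or.inl h))
      · right; right; right
        rw [h]; simp
    · rintro (h | h | h | h)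
      · subst h; exact adj_h hN u
      · subst h
        have := (adj_h (M := M) hN (u.1 - 1, u.2)).symm
        simpa using this
      · subst h; exact adj_v hM u
      · subst h
        have := (adj_v (N := N) hM (u.1, u.2 - 1)).symm
        simpa using this
  have n1 : u.1 + 1 ≠ u.1 - 1 := by
    intro h
    apply h2
    have : u.1 + (1 + 1) = u.1 := by rw [← add_assoc, h]; ring
    exact add_eq_left.mp this
  have n2 : u.2 + 1 ≠ u.2 - 1 := by
    intro h
    apply h4
    have : u.2 + (1 + 1) = u.2 := by rw [← add_assoc, h]; ring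
    exact add_eq_left.mp this
  have n3 : u.1 + 1 ≠ u.1 := fun h => h1 (add_eq_left.mp h)
  have n4 : u.1 - 1 ≠ u.1 := fun h => h1 (sub_eq_self.mp h)
  rw [e, Set.ncard_coe_finset]
  rw [Finset.card_insert_of_notMem, Finset.card_insert_of_notMem, Finset.card_insert_of_notMem,
    Finset.card_singleton]
  · simp [n2]
  · simp [n4]
  · simp [n1, n3]

/-- the torus is vertex-transitive -/
theorem torus_transitive (u v : ZMod N × ZMod M) :
    ∃ φ : torus N M ≃g torus N M, φ u = v := by
  refine ⟨⟨Equiv.addRight (v - u), ?_⟩, add_sub_cancel u v⟩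
  intro a b
  simp only [torus, Equiv.coe_addRight, ne_eq, add_left_inj, Prod.ext_iff, Prod.fst_add,
    Prod.snd_add, Prod.fst_sub, Prod.snd_sub]
  have k1 : ∀ (n : ℕ) (x y t : ZMod n), x + t = y + t + 1 ↔ x = y + 1 := by
    intro n x y t
    rw [show y + t + 1 = y + 1 + t by ring, add_left_inj]
  simp only [k1]

section dist

variable [NeZero N] [NeZero M]

omit [NeZero N] [NeZero M] in
theorem reach_h (hN : 3 ≤ N) (u : ZMod N × ZMod M) (n : ℕ) :
    ∃ p : (torus N M).Walk u (u.1 + (n : ZMod N), u.2), p.length = n := by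
  induction n with
  | zero =>
    refine ⟨SimpleGraph.Walk.nil.copy rfl (by simp), by simp⟩
  | succ n ih =>
    obtain ⟨p, hp⟩ := ih
    have h := adj_h hN (u.1 + (n : ZMod N), u.2)
    refine ⟨(p.concat h).copy rfl (by simp [add_assoc]), ?_⟩
    simp [hp]

omit [NeZero N] [NeZero M] in
theorem reach_v (hM : 3 ≤ M) (u : ZMod N × ZMod M) (n : ℕ) :
    ∃ p : (torus N M).Walk u (u.1, u.2 + (n : ZMod M)), p.length = n := by
  induction n with
  | zero =>
    refine ⟨SimpleGraph.Walk.nil.copy rfl (by simp), by simp⟩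
  | succ n ih =>
    obtain ⟨p, hp⟩ := ih
    have h := adj_v hM (u.1, u.2 + (n : ZMod M))
    refine ⟨(p.concat h).copy rfl (by simp [add_assoc]), ?_⟩
    simp [hp]

theorem torus_connected (hN : 3 ≤ N) (hM : 3 ≤ M) : (torus N M).Connected := by
  have : Nonempty (ZMod N × ZMod M) := ⟨(0, 0)⟩
  refine ⟨?_⟩
  intro u v
  obtain ⟨p, -⟩ := reach_h (M := M) hN u (v.1 - u.1).val
  obtain ⟨q, -⟩ := reach_v (N := N) hM (u.1 + (((v.1 - u.1).val : ℕ) : ZMod N), u.2)
    (v.2 - u.2).val
  have e : ((u.1 + (((v.1 - u.1).val : ℕ) : ZMod N), u.2).1,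
      (u.1 + (((v.1 - u.1).val : ℕ) : ZMod N), u.2).2 + (((v.2 - u.2).val : ℕ) : ZMod M)) = v := by
    simp
  exact (p.append (q.copy rfl e)).reachable

omit [NeZero N] [NeZero M] in
theorem dist_h (hN : 3 ≤ N) (u : ZMod N × ZMod M) (n : ℤ) :
    (torus N M).dist u (u.1 + (n : ZMod N), u.2) ≤ n.natAbs := by
  obtain ⟨m, rfl | rfl⟩ := Int.eq_nat_or_neg n
  · obtain ⟨p, hp⟩ := reach_h (M := M) hN u m
    have := SimpleGraph.dist_le p
    simpa [hp] using this
  · obtain ⟨p, hp⟩ := reach_h (M := M) hN (u.1 - (m : ZMod N), u.2) m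
    have e : ((u.1 - (m : ZMod N), u.2).1 + (m : ZMod N), (u.1 - (m : ZMod N), u.2).2) = u := by
      simp
    have := SimpleGraph.dist_le (p.copy rfl e)
    rw [SimpleGraph.dist_comm]
    have e2 : (u.1 + ((-(m : ℤ) : ℤ) : ZMod N), u.2) = (u.1 - (m : ZMod N), u.2) := by
      push_cast
      rw [sub_eq_add_neg]
    rw [e2]
    simpa [hp] using this

omit [NeZero N] [NeZero M] in
theorem dist_v (hM : 3 ≤ M) (u : ZMod N × ZMod M) (n : ℤ) :
    (torus N M).dist u (u.1, u.2 + (n : ZMod M)) ≤ n.natAbs := by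
  obtain ⟨m, rfl | rfl⟩ := Int.eq_nat_or_neg n
  · obtain ⟨p, hp⟩ := reach_v (N := N) hM u m
    have := SimpleGraph.dist_le p
    simpa [hp] using this
  · obtain ⟨p, hp⟩ := reach_v (N := N) hM (u.1, u.2 - (m : ZMod M)) m
    have e : ((u.1, u.2 - (m : ZMod M)).1, (u.1, u.2 - (m : ZMod M)).2 + (m : ZMod M)) = u := by
      simp
    have := SimpleGraph.dist_le (p.copy rfl e)
    rw [SimpleGraph.dist_comm]
    have e2 : (u.1, u.2 + ((-(m : ℤ) : ℤ) : ZMod M)) = (u.1, u.2 - (m : ZMod M)) := by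
      push_cast
      rw [sub_eq_add_neg]
    rw [e2]
    simpa [hp] using this

theorem torus_diam (hN : 3 ≤ N) (hM : 3 ≤ M) : (torus N M).diam ≤ N / 2 + M / 2 := by
  have : Nonempty (ZMod N × ZMod M) := ⟨(0, 0)⟩
  obtain ⟨u, v, huv⟩ := (torus N M).exists_dist_eq_diam
  rw [← huv]
  have h1 := dist_h (M := M) hN u (v.1 - u.1).valMinAbs
  have h2 := dist_v (N := N) hM (u.1 + (((v.1 - u.1).valMinAbs : ℤ) : ZMod N), u.2)
    (v.2 - u.2).valMinAbs
  have e : ((u.1 + (((v.1 - u.1).valMinAbs : ℤ) : ZMod N), u.2).1,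
      (u.1 + (((v.1 - u.1).valMinAbs : ℤ) : ZMod N), u.2).2 +
        (((v.2 - u.2).valMinAbs : ℤ) : ZMod M)) = v := by
    simp
  rw [e] at h2
  have h3 := (torus_connected hN hM).dist_triangle (u := u)
    (v := (u.1 + (((v.1 - u.1).valMinAbs : ℤ) : ZMod N), u.2)) (w := v)
  have h4 := ZMod.natAbs_valMinAbs_le (v.1 - u.1)
  have h5 := ZMod.natAbs_valMinAbs_le (v.2 - u.2)
  omega

/-- lower bound of the distance -/
theorem dist_ge (hN : 3 ≤ N) (hM : 3 ≤ M) (v : ZMod N × ZMod M) (z : ZMod M) :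
    N / 2 ≤ (torus N M).dist v (((N / 2 : ℕ) : ZMod N) + v.1, z) := by
  obtain ⟨p, hp⟩ := (torus_connected hN hM).exists_walk_length_eq_dist v
    (((N / 2 : ℕ) : ZMod N) + v.1, z)
  rw [← hp]
  have h1v : ((1 : ZMod N).valMinAbs).natAbs ≤ 1 := by
    have : (((1 : ℕ) : ZMod N)).valMinAbs = 1 := ZMod.valMinAbs_natCast_of_le_half (by omega)
    rw [Nat.cast_one] at this
    rw [this]
    norm_num
  have key : ∀ (a b : ZMod N × ZMod M) (p : (torus N M).Walk a b),
      ((b.1 - v.1).valMinAbs).natAbs ≤ ((a.1 - v.1).valMinAbs).natAbs + p.length := by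
    intro a b p
    induction p with
    | nil => simp
    | cons h p ih =>
      rename_i x y w
      have hs : ((y.1 - v.1).valMinAbs).natAbs ≤ ((x.1 - v.1).valMinAbs).natAbs + 1 := by
        have hadd : ∀ (s t : ZMod N), ((t).valMinAbs).natAbs ≤ 1 →
            ((s + t).valMinAbs).natAbs ≤ (s.valMinAbs).natAbs + 1 := by
          intro s t ht
          refine le_trans (ZMod.natAbs_valMinAbs_add_le s t) ?_
          refine le_trans (Int.natAbs_add_le _ _) (by omega)
        rcases h.2 with h | h | h | h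
        · rw [h]
          have := hadd (x.1 - v.1) 1 h1v
          have e : x.1 + 1 - v.1 = x.1 - v.1 + 1 := by ring
          simp only [e]
          exact this
        · have := hadd (x.1 - v.1) (-1) (by rw [ZMod.natAbs_valMinAbs_neg]; exact h1v)
          have e : y.1 - v.1 = x.1 - v.1 + -1 := by rw [h]; ring
          rw [e]
          exact this
        · rw [h]; simp
        · rw [h]; simp
      rw [SimpleGraph.Walk.length_cons]
      omega
  have h := key _ _ p
  simp only [add_sub_cancel_right, sub_self] at h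
  rw [ZMod.valMinAbs_natCast_of_le_half (le_refl _), Int.natAbs_natCast, ZMod.valMinAbs_zero,
    Int.natAbs_zero, zero_add] at h
  exact h

end dist

end

end Pool.Agent.Q325.Pc
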