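import Mathlib
import Pool.Agent.Q325.PcGraph

/-! Clusters of large diameter need not give giant clusters: thin tori. -/

namespace Pool.Agent.Q325.Pc

open Finset Filter

/-- The probability of an event under Bernoulli bond percolation with parameter `p` on the
finite graph `G`: the sum, over the configurations in the event, of the product of `p` over the
open edges and `1 - p` over the closed edges. -/
noncomputable def Prob {V : Type} [Fintype V] (G : SimpleGraph V) (p : ℝ)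
    (A : (G.edgeSet → Bool) → Prop) : ℝ :=
  letI : Fintype G.edgeSet := Fintype.ofFinite _
  Pr p A

/-- The vertex `v` lies in an open component whose diameter, in the metric of `G`, is at least
half of the diameter of `G`. -/
def InLarge {V : Type} (G : SimpleGraph V) (v : V) (ω : G.edgeSet → Bool) : Prop :=
  ∃ a b, (openGraph G ω).Reachable v a ∧ (openGraph G ω).Reachable v b ∧
    G.diam ≤ 2 * G.dist a b

/-- Some open component has at least `C * |V|` vertices. -/
def HasGiant {V : Type} [Fintype V] (G : SimpleGraph V) (C : ℝ) (ω : G.edgeSet → Bool) : Prop :=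
  ∃ v, C * (Fintype.card V : ℝ) ≤ ((({u | (openGraph G ω).Reachable v u} : Set V).ncard : ℕ) : ℝ)

/-- Sequences of finite connected `d`-regular vertex-transitive graphs whose numbers of vertices
tend to infinity. -/
structure TransSeq (d : ℕ) (V : ℕ → Type) [∀ n, Fintype (V n)]
    (G : ∀ n, SimpleGraph (V n)) : Prop where
  connected : ∀ n, (G n).Connected
  regular : ∀ n v, ((G n).neighborSet v).ncard = d
  transitive : ∀ n u v, ∃ φ : G n ≃g G n, φ u = v
  card_tendsto : Tendsto (fun n => Fintype.card (V n)) atTop atTop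

/-- The statement of the question. -/
def Question : Prop :=
  ∀ (d : ℕ) (V : ℕ → Type) (_ : ∀ n, Fintype (V n)) (G : ∀ n, SimpleGraph (V n)),
    TransSeq d V G → ∀ δ : ℝ, 0 < δ → ∃ C : ℝ, 0 < C ∧ ∀ p : ℝ, 0 ≤ p → p ≤ 1 →
      (∀ n v, δ < Prob (G n) p (InLarge (G n) v)) →
      Tendsto (fun n => Prob (G n) p (HasGiant (G n) C)) atTop (nhds 1)

instance instNk (k : ℕ) : NeZero (nk k * 3 ^ k) :=
  ⟨Nat.mul_ne_zero (nk_pos k).ne' (pow_ne_zero _ (by norm_num))⟩

/-- the long side -/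
noncomputable abbrev LN (k : ℕ) : ℕ := nk k * 3 ^ k

theorem three_le_pow (k : ℕ) (hk : 1 ≤ k) : 3 ≤ 3 ^ k := by
  calc 3 = 3 ^ 1 := by norm_num
    _ ≤ 3 ^ k := Nat.pow_le_pow_right (by norm_num) hk

theorem pow_le_LN (k : ℕ) : 3 ^ k ≤ LN k := Nat.le_mul_of_pos_left _ (nk_pos k)

theorem Prob_torus {N M : ℕ} [NeZero N] [NeZero M] (hN : 3 ≤ N) (hM : 3 ≤ M) (p : ℝ)
    (A : ((torus N M).edgeSet → Bool) → Prop) (A' : (TI N M → Bool) → Prop)
    (h : ∀ ω, A ω ↔ A' (fun i => ω (edgeMap hN hM i))) :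
    Prob (torus N M) p A = Pr p A' := by
  unfold Prob
  letI : Fintype (torus N M).edgeSet := Fintype.ofFinite _
  rw [← marg p (edgeMap hN hM) (edgeMap_inj hN hM) A']
  exact Pr_congr h

theorem inLarge_prob (k : ℕ) (hk : 1 ≤ k) (v : ZMod (LN k) × ZMod (3 ^ k)) :
    1 / 2 ≤ Prob (torus (LN k) (3 ^ k)) p0 (InLarge (torus (LN k) (3 ^ k)) v) := by
  have hM := three_le_pow k hk
  have hMN := pow_le_LN k
  have hN : 3 ≤ LN k := le_trans hM hMN
  rw [Prob_torus hN hM p0 _ (fun η => ∃ a b, TC η v a ∧ TC η v b ∧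
    (torus (LN k) (3 ^ k)).diam ≤ 2 * (torus (LN k) (3 ^ k)).dist a b) ?_]
  · refine le_trans (long_prob k (LN k) rfl v) (Pr_mono p0_nonneg p0_le ?_)
    intro η h
    obtain ⟨z, hz⟩ := h (LN k / 2) (by omega)
    refine ⟨v, _, Relation.ReflTransGen.refl, hz, ?_⟩
    have h1 := torus_diam (N := LN k) (M := 3 ^ k) hN hM
    have h2 := dist_ge (N := LN k) (M := 3 ^ k) hN hM v z
    have h3 : 3 ^ k / 2 ≤ LN k / 2 := Nat.div_le_div_right hMN
    omega
  · intro ω
    unfold InLarge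
    simp only [open_iff hN hM]

theorem giant_prob (C : ℝ) (hC : 0 < C) : ∃ ε : ℝ, 0 < ε ∧ ∀ᶠ k in atTop,
    Prob (torus (LN k) (3 ^ k)) p0 (HasGiant (torus (LN k) (3 ^ k)) C) ≤ 1 - ε := by
  classical
  obtain ⟨K0, hK0⟩ := exists_nat_gt (6 / C)
  set K := K0 + 3 with hK
  have hKC : 6 / (K : ℝ) < C := by
    have h1 : 6 / C < (K : ℝ) := by
      rw [hK]; push_cast; linarith
    rw [div_lt_iff₀ hC] at h1
    rw [div_lt_iff₀ (by positivity)]
    linarith
  refine ⟨(1 / (8 * (4 * (K : ℝ) + 1))) ^ K, by positivity, ?_⟩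
  filter_upwards [Filter.eventually_ge_atTop K] with k hk
  have hM := three_le_pow k (by omega)
  have hMN := pow_le_LN k
  have hN : 3 ≤ LN k := le_trans hM hMN
  have hs := short_prob K k (LN k) rfl (by omega) hk
  rw [Prob_torus hN hM p0 _ (fun η => ∃ v, C * (Fintype.card (ZMod (LN k) × ZMod (3 ^ k)) : ℝ) ≤
    ((({u | TC η v u} : Set (ZMod (LN k) × ZMod (3 ^ k))).ncard : ℕ) : ℝ)) ?_]
  · refine le_trans (Pr_mono p0_nonneg p0_le (B := fun η => ¬ ∀ j < K,
      ¬ LR (cut ((j * (nk k / K * 3 ^ k) : ℕ) : ZMod (LN k)) η) (nk k / K * 3 ^ k)) ?_) ?_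
    · rintro η ⟨v, hv⟩ hcon
      have h1 := small_card K k (LN k) rfl (by omega) hk C hKC η hcon v
        ({u | TC η v u} : Set _).toFinset (fun u hu => by simpa using hu)
      rw [Set.ncard_eq_toFinset_card'] at hv
      rw [Fintype.card_prod, ZMod.card, ZMod.card] at hv
      push_cast at hv h1
      linarith
    · rw [Pr_not]
      linarith
  · intro ω
    unfold HasGiant
    simp only [open_iff hN hM]

/-- the example -/
theorem example_seq :
    TransSeq 4 (fun n => ZMod (LN (n + 1)) × ZMod (3 ^ (n + 1)))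
      (fun n => torus (LN (n + 1)) (3 ^ (n + 1))) := by
  have hM : ∀ n : ℕ, 3 ≤ 3 ^ (n + 1) := fun n => three_le_pow (n + 1) (by omega)
  have hN : ∀ n : ℕ, 3 ≤ LN (n + 1) := fun n => le_trans (hM n) (pow_le_LN _)
  refine ⟨fun n => torus_connected (hN n) (hM n), fun n v => torus_regular (hN n) (hM n) v,
    fun n u v => torus_transitive u v, ?_⟩
  refine tendsto_atTop_mono (fun n => ?_) tendsto_id
  rw [Fintype.card_prod, ZMod.card, ZMod.card]
  have h1 : n < 3 ^ (n + 1) := lt_trans (Nat.lt_succ_self n) (Nat.lt_pow_self (by norm_num))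
  have h2 := hN n
  simp only [id]
  nlinarith

theorem main :
    (∃ (V : ℕ → Type) (_ : ∀ n, Fintype (V n)) (G : ∀ n, SimpleGraph (V n)),
      TransSeq 4 V G ∧ ∃ p : ℝ, 0 < p ∧ p < 1 ∧
        (∀ n v, 1 / 4 < Prob (G n) p (InLarge (G n) v)) ∧
        ∀ C : ℝ, 0 < C → ∃ ε : ℝ, 0 < ε ∧
          ∀ᶠ n in atTop, Prob (G n) p (HasGiant (G n) C) ≤ 1 - ε) ∧
    ¬ Question := by
  have hex : ∀ C : ℝ, 0 < C → ∃ ε : ℝ, 0 < ε ∧ ∀ᶠ n in atTop,
      Prob (torus (LN (n + 1)) (3 ^ (n + 1))) p0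
        (HasGiant (torus (LN (n + 1)) (3 ^ (n + 1))) C) ≤ 1 - ε := by
    intro C hC
    obtain ⟨ε, hε, h⟩ := giant_prob C hC
    exact ⟨ε, hε, (Filter.tendsto_add_atTop_nat 1).eventually h⟩
  have hlarge : ∀ (n : ℕ) (v : ZMod (LN (n + 1)) × ZMod (3 ^ (n + 1))),
      1 / 4 < Prob (torus (LN (n + 1)) (3 ^ (n + 1))) p0
        (InLarge (torus (LN (n + 1)) (3 ^ (n + 1))) v) := by
    intro n v
    have := inLarge_prob (n + 1) (by omega) v
    linarith
  refine ⟨⟨_, fun n => inferInstance, _, example_seq, p0, by unfold p0; norm_num,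
    by unfold p0; norm_num, hlarge, hex⟩, ?_⟩
  intro hQ
  obtain ⟨C, hC, h⟩ := hQ 4 _ _ _ example_seq (1 / 4) (by norm_num)
  have ht := h p0 p0_nonneg p0_le hlarge
  obtain ⟨ε, hε, he⟩ := hex C hC
  have := le_of_tendsto ht he
  linarith

end Pool.Agent.Q325.Pc
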