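import Pool.Agent.H623R2.PS.TM

/-!
# Recognising reset Mealy automata is `PSPACE`-hard

Definitions of Mealy automata, synchronizing words and reset automata, and the reduction from
systems of tokens (intersection nonemptiness for finite automata).
-/

namespace Pool.Agent.Q325.RM

open Pool.Agent.NPC Pool.Agent.H623R2.PS

/-- A Mealy automaton with states `Fin n`, alphabet `Fin m`, transition map `δ` and output map
`out`. -/
structure Mealy where
  /-- the number of states -/
  n : ℕ
  /-- the number of letters -/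
  m : ℕ
  /-- the transition map -/
  δ : Fin n → Fin m → Fin n
  /-- the output map -/
  out : Fin n → Fin m → Fin m

/-- The state `q · u` reached from `q` by reading the word `u`. -/
def Mealy.run (A : Mealy) (q : Fin A.n) (u : List (Fin A.m)) : Fin A.n := u.foldl A.δ q

/-- The output word `q ∘ u` produced from the state `q` when the word `u` is read. -/
def Mealy.word (A : Mealy) : Fin A.n → List (Fin A.m) → List (Fin A.m)
  | _, [] => []
  | q, a :: u => A.out q a :: A.word (A.δ q a) u

/-- `u` is a synchronizing word: `|Q · u| = 1`. -/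
def Mealy.Syn (A : Mealy) (u : List (Fin A.m)) : Prop :=
  (Finset.univ.image fun q => A.run q u).card = 1

/-- The automaton is reset: it is synchronizing, and `q ∘ u` is a synchronizing word whenever `q` is
a state and `u` is a synchronizing word. -/
def Mealy.Reset (A : Mealy) : Prop :=
  (∃ u, A.Syn u) ∧ ∀ (q : Fin A.n) (u : List (Fin A.m)), A.Syn u → A.Syn (A.word q u)

/-- A Mealy automaton is encoded by the numbers of its states and letters and by the tables of its
transition map and output map (one row per letter). -/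
def Mealy.code (A : Mealy) : ℕ × ℕ × List (List ℕ) × List (List ℕ) :=
  (A.n, A.m, (List.finRange A.m).map fun a => (List.finRange A.n).map fun q => (A.δ q a).val,
    (List.finRange A.m).map fun a => (List.finRange A.n).map fun q => (A.out q a).val)

theorem Mealy.code_injective : Function.Injective Mealy.code := by
  rintro ⟨n, m, δ, P⟩ ⟨n', m', δ', P'⟩ h
  simp only [Mealy.code, Prod.mk.injEq] at h
  obtain ⟨rfl, rfl, h1, h2⟩ := h
  have e1 : δ = δ' := by
    funext q a
    have h3 := (List.map_inj_left.1 h1) a (List.mem_finRange a)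
    have h4 := (List.map_inj_left.1 h3) q (List.mem_finRange q)
    exact Fin.ext h4
  have e2 : P = P' := by
    funext q a
    have h3 := (List.map_inj_left.1 h2) a (List.mem_finRange a)
    have h4 := (List.map_inj_left.1 h3) q (List.mem_finRange q)
    exact Fin.ext h4
  rw [e1, e2]

instance : TEnc Mealy := ⟨fun A => toT A.code, fun _ _ h => Mealy.code_injective (TEnc.inj h)⟩

/-! ### The automaton of a rule system -/

/-- The transition function: states `0 = c`, `1 = d`, `2 = k`, `3 = e` and
`4 + (t * (V + 1) + v)` for the token `t` with value `v`; letters `0 = s`, `1 = r`, `2 = r'` and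
`3 + i` for the `i`-th rule. -/
def dl (S : RS) (s a : ℕ) : ℕ :=
  if s < 4 then
    if a = 0 then (if s = 3 then 3 else 2)
    else if a = 1 then (if s = 1 then 1 else 0)
    else if a = 2 then (if s = 1 ∨ s = 2 then 1 else 0)
    else s
  else
    if a = 0 then
      4 + (((s - 4) / (S.1 + 1)) * (S.1 + 1) +
        min (S.2.1.getD ((s - 4) / (S.1 + 1)) 0) S.1)
    else if a = 1 then
      if okf S.1 S.2.2.2 ((s - 4) / (S.1 + 1)) ((s - 4) % (S.1 + 1)) = true
        then 0 else 1
    else if a = 2 then 0
    else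
      4 + (((s - 4) / (S.1 + 1)) * (S.1 + 1) +
        min (tok S.1 (S.2.2.1.getD (a - 3) []) ((s - 4) / (S.1 + 1))
          ((s - 4) % (S.1 + 1))) S.1)

/-- The output function: the state `2 = k` changes `r` to `r'`. -/
def ol (s a : ℕ) : ℕ := if s = 2 ∧ a = 1 then 2 else a

/-- The number of states. -/
def nst (S : RS) : ℕ := 4 + S.2.1.length * (S.1 + 1)

/-- The state of the token `t` with value `v`. -/
def stt (S : RS) (t v : ℕ) : ℕ := 4 + (t * (S.1 + 1) + v)

theorem stt_lt {S : RS} {t v : ℕ} (ht : t < S.2.1.length) (hv : v ≤ S.1) :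
    stt S t v < nst S := by
  unfold stt nst
  have : (t + 1) * (S.1 + 1) ≤ S.2.1.length * (S.1 + 1) := Nat.mul_le_mul_right _ ht
  have : (t + 1) * (S.1 + 1) = t * (S.1 + 1) + (S.1 + 1) := by ring
  omega

theorem exists_stt {S : RS} {s : ℕ} (h : s < nst S) (h' : ¬ s < 4) :
    ∃ t v, t < S.2.1.length ∧ v ≤ S.1 ∧ s = stt S t v := by
  refine ⟨(s - 4) / (S.1 + 1), (s - 4) % (S.1 + 1), ?_, ?_, ?_⟩
  · unfold nst at h
    rw [Nat.div_lt_iff_lt_mul (by omega)]
    omega
  · have := Nat.mod_lt (s - 4) (show 0 < S.1 + 1 by omega)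
    omega
  · unfold stt
    have := Nat.div_add_mod (s - 4) (S.1 + 1)
    have e : (s - 4) / (S.1 + 1) * (S.1 + 1) = (S.1 + 1) * ((s - 4) / (S.1 + 1)) :=
      Nat.mul_comm _ _
    omega

theorem stt_div {S : RS} {t v : ℕ} (hv : v ≤ S.1) :
    (stt S t v - 4) / (S.1 + 1) = t := by
  unfold stt
  rw [Nat.add_sub_cancel_left, Nat.add_comm, Nat.add_mul_div_right _ _ (by omega),
    Nat.div_eq_of_lt (by omega), Nat.zero_add]

theorem stt_mod {S : RS} {t v : ℕ} (hv : v ≤ S.1) :
    (stt S t v - 4) % (S.1 + 1) = v := by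
  unfold stt
  rw [Nat.add_sub_cancel_left, Nat.add_comm, Nat.add_mul_mod_self_right,
    Nat.mod_eq_of_lt (by omega)]

theorem stt_not_lt {S : RS} {t v : ℕ} : ¬ stt S t v < 4 := by
  unfold stt; omega

theorem dl_s {S : RS} {t v : ℕ} (hv : v ≤ S.1) :
    dl S (stt S t v) 0 = stt S t (min (S.2.1.getD t 0) S.1) := by
  unfold dl
  rw [if_neg stt_not_lt, if_pos rfl, stt_div hv]
  rfl

theorem dl_r {S : RS} {t v : ℕ} (hv : v ≤ S.1) :
    dl S (stt S t v) 1 = if okf S.1 S.2.2.2 t v = true then 0 else 1 := by
  unfold dl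
  rw [if_neg stt_not_lt, if_neg (by omega), if_pos rfl, stt_div hv, stt_mod hv]

theorem dl_r' {S : RS} {t v : ℕ} : dl S (stt S t v) 2 = 0 := by
  unfold dl
  rw [if_neg stt_not_lt, if_neg (by omega), if_neg (by omega), if_pos rfl]

theorem dl_rule {S : RS} {t v i : ℕ} (hv : v ≤ S.1) :
    dl S (stt S t v) (3 + i) =
      stt S t (min (tok S.1 (S.2.2.1.getD i []) t v) S.1) := by
  unfold dl
  rw [if_neg stt_not_lt, if_neg (by omega), if_neg (by omega), if_neg (by omega), stt_div hv,
    stt_mod hv, Nat.add_sub_cancel_left]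
  rfl

theorem dl_low {S : RS} {s i : ℕ} (hs : s < 4) : dl S s (3 + i) = s := by
  unfold dl
  rw [if_pos hs, if_neg (by omega), if_neg (by omega), if_neg (by omega)]

theorem dl_lt {S : RS} {s a : ℕ} (hs : s < nst S) : dl S s a < nst S := by
  by_cases h : s < 4
  · have h2 : 4 ≤ nst S := by unfold nst; omega
    unfold dl
    rw [if_pos h]
    split_ifs <;> omega
  · obtain ⟨t, v, ht, hv, rfl⟩ := exists_stt hs h
    have h2 : 4 ≤ nst S := by unfold nst; omega
    rcases a with _ | _ | _ | a
    · rw [dl_s hv]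
      exact stt_lt ht (min_le_right _ _)
    · rw [zero_add, dl_r hv]
      split_ifs <;> omega
    · rw [zero_add, dl_r']
      omega
    · rw [show a + 1 + 1 + 1 = 3 + a by omega, dl_rule hv]
      exact stt_lt ht (min_le_right _ _)

theorem ol_lt {R s a : ℕ} (ha : a < 3 + R) : ol s a < 3 + R := by
  unfold ol
  split_ifs <;> omega

/-- The Mealy automaton of a rule system. -/
def toMealy (S : RS) : Mealy where
  n := nst S
  m := 3 + S.2.2.1.length
  δ := fun q a => ⟨dl S q.val a.val, dl_lt q.2⟩
  out := fun q a => ⟨ol q.val a.val, ol_lt a.2⟩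

/-- Running the automaton on numbers. -/
def runN (S : RS) (w : List ℕ) (s : ℕ) : ℕ := w.foldl (dl S) s

/-- Output on numbers. -/
def outN (S : RS) : ℕ → List ℕ → List ℕ
  | _, [] => []
  | q, a :: u => ol q a :: outN S (dl S q a) u

theorem runN_lt {S : RS} (w : List ℕ) {s : ℕ} (hs : s < nst S) :
    runN S w s < nst S := by
  induction w generalizing s with
  | nil => exact hs
  | cons a w ih => exact ih (dl_lt hs)

theorem runN_append (S : RS) (u v : List ℕ) (s : ℕ) :
    runN S (u ++ v) s = runN S v (runN S u s) := List.foldl_append ..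

theorem runN_cons (S : RS) (a : ℕ) (v : List ℕ) (s : ℕ) :
    runN S (a :: v) s = runN S v (dl S s a) := rfl

theorem run_toMealy (S : RS) (w : List (Fin (toMealy S).m)) (q : Fin (toMealy S).n) :
    ((toMealy S).run q w).val = runN S (w.map Fin.val) q.val := by
  induction w generalizing q with
  | nil => rfl
  | cons a w ih =>
    have := ih ((toMealy S).δ q a)
    exact this

theorem word_toMealy (S : RS) (w : List (Fin (toMealy S).m)) (q : Fin (toMealy S).n) :
    ((toMealy S).word q w).map Fin.val = outN S q.val (w.map Fin.val) := by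
  induction w generalizing q with
  | nil => rfl
  | cons a w ih =>
    have := ih ((toMealy S).δ q a)
    simp only [Mealy.word, List.map_cons, outN]
    rw [this]
    rfl

/-- Synchronizing words of the automaton, on numbers. -/
def SynN (S : RS) (u : List ℕ) : Prop := ∀ s s', s < nst S → s' < nst S → runN S u s = runN S u s'

theorem syn_iff (S : RS) (u : List (Fin (toMealy S).m)) :
    (toMealy S).Syn u ↔ SynN S (u.map Fin.val) := by
  unfold Mealy.Syn SynN
  rw [Finset.card_eq_one]
  constructor
  · rintro ⟨p, hp⟩ s s' hs hs'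
    have h1 : ∀ q, (toMealy S).run q u = p := by
      intro q
      have : (toMealy S).run q u ∈ (Finset.univ.image fun q => (toMealy S).run q u) :=
        Finset.mem_image_of_mem _ (Finset.mem_univ _)
      rw [hp] at this
      simpa using this
    have e1 := run_toMealy S u ⟨s, hs⟩
    have e2 := run_toMealy S u ⟨s', hs'⟩
    rw [h1] at e1 e2
    simp only at e1 e2
    rw [← e1, ← e2]
  · intro h
    have h0 : 0 < nst S := by unfold nst; omega
    refine ⟨(toMealy S).run ⟨0, h0⟩ u, ?_⟩
    ext p
    simp only [Finset.mem_image, Finset.mem_univ, true_and, Finset.mem_singleton]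
    constructor
    · rintro ⟨q, rfl⟩
      apply Fin.ext
      rw [run_toMealy, run_toMealy]
      exact h _ _ q.2 h0
    · rintro rfl
      exact ⟨_, rfl⟩

/-! ### Analysis -/

/-- The letter `s` occurs after one of the letters `r`, `r'`. -/
def Pat (u : List ℕ) : Prop := ∃ u1 x u2, u = u1 ++ x :: u2 ∧ (x = 1 ∨ x = 2) ∧ 0 ∈ u2

theorem run_low_eq (S : RS) {z : List ℕ} (hz : 0 ∈ z) : runN S z 0 = runN S z 1 := by
  induction z with
  | nil => simp at hz
  | cons a z ih =>
    rw [runN_cons, runN_cons]
    by_cases ha : a = 0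
    · subst ha
      simp [dl]
    · have hz' : 0 ∈ z := by
        rcases List.mem_cons.1 hz with h | h
        · exact absurd h.symm ha
        · exact h
      have e0 : dl S 0 a = 0 := by
        unfold dl
        simp only [Nat.ofNat_pos, if_true, ha, if_false]
        split_ifs <;> simp_all
      have e1 : dl S 1 a = 1 := by
        unfold dl
        simp only [Nat.one_lt_ofNat, if_true, ha, if_false]
        split_ifs <;> simp_all
      rw [e0, e1]
      exact ih hz'

theorem run_low_fix (S : RS) {z : List ℕ} (hz : 0 ∉ z) : runN S z 0 = 0 ∧ runN S z 1 = 1 := by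
  induction z with
  | nil => exact ⟨rfl, rfl⟩
  | cons a z ih =>
    rw [runN_cons, runN_cons]
    have ha : a ≠ 0 := fun h => hz (by simp [h])
    have e0 : dl S 0 a = 0 := by
      unfold dl
      simp only [Nat.ofNat_pos, if_true, ha, if_false]
      split_ifs <;> simp_all
    have e1 : dl S 1 a = 1 := by
      unfold dl
      simp only [Nat.one_lt_ofNat, if_true, ha, if_false]
      split_ifs <;> simp_all
    rw [e0, e1]
    exact ih fun h => hz (List.mem_cons_of_mem _ h)

theorem dl_r_low {S : RS} {s x : ℕ} (hs : s < nst S) (hx : x = 1 ∨ x = 2) :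
    dl S s x = 0 ∨ dl S s x = 1 := by
  by_cases h : s < 4
  · unfold dl
    rw [if_pos h]
    rcases hx with rfl | rfl
    · simp only [one_ne_zero, if_false, if_true]
      split_ifs <;> simp
    · simp only [OfNat.ofNat_ne_zero, OfNat.ofNat_ne_one, if_false, if_true]
      split_ifs <;> simp
  · obtain ⟨t, v, ht, hv, rfl⟩ := exists_stt hs h
    rcases hx with rfl | rfl
    · rw [dl_r hv]
      split_ifs <;> simp
    · rw [dl_r']
      simp

theorem syn_of_pat {S : RS} {u : List ℕ} (h : Pat u) : SynN S u := by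
  obtain ⟨u1, x, u2, rfl, hx, h0⟩ := h
  intro s s' hs hs'
  rw [runN_append, runN_append, runN_cons, runN_cons]
  rcases dl_r_low (runN_lt u1 hs) hx with h1 | h1 <;>
    rcases dl_r_low (runN_lt u1 hs') hx with h2 | h2 <;> rw [h1, h2]
  · exact run_low_eq S h0
  · exact (run_low_eq S h0).symm

theorem pat_out {S : RS} {u : List ℕ} (h : Pat u) (q : ℕ) : Pat (outN S q u) := by
  obtain ⟨u1, x, u2, rfl, hx, h0⟩ := h
  have happ : ∀ (u1 : List ℕ) (v : List ℕ) (q : ℕ), ∃ q' v1, outN S q (u1 ++ v) =
      v1 ++ outN S q' v := by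
    intro u1
    induction u1 with
    | nil => intro v q; exact ⟨q, [], rfl⟩
    | cons a u1 ih =>
      intro v q
      obtain ⟨q', v1, h⟩ := ih v (dl S q a)
      refine ⟨q', ol q a :: v1, ?_⟩
      rw [List.cons_append, outN, h]
      rfl
  have hmem : ∀ (z : List ℕ) (q : ℕ), 0 ∈ z → 0 ∈ outN S q z := by
    intro z
    induction z with
    | nil => intro q h; simp at h
    | cons a z ih =>
      intro q h
      rw [outN]
      rcases List.mem_cons.1 h with h | h
      · rw [← h]
        simp [ol]
      · exact List.mem_cons_of_mem _ (ih _ h)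
  obtain ⟨q', v1, h1⟩ := happ u1 (x :: u2) q
  refine ⟨v1, ol q' x, outN S (dl S q' x) u2, by rw [h1]; rfl, ?_, hmem _ _ h0⟩
  unfold ol
  rcases hx with rfl | rfl
  · split_ifs <;> simp
  · simp

/-- Rule letters. -/
theorem run_rules {S : RS} (hS : RSwf S) {w : List ℕ} (hw : ∀ i ∈ w, i < S.2.2.1.length)
    {t v : ℕ} (hv : v ≤ S.1) :
    runN S (w.map fun i => 3 + i) (stt S t v) = stt S t (runT S w t v) := by
  induction w generalizing v with
  | nil => rfl
  | cons a w ih =>
    rw [List.map_cons, runN_cons, dl_rule hv]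
    have hR : S.2.2.1.getD a [] ∈ S.2.2.1 := getD_mem (hw a (by simp))
    have htok := tok_le hS hR (t := t) hv
    rw [min_eq_left htok, ih (fun i hi => hw i (List.mem_cons_of_mem _ hi)) htok]
    rfl

theorem run_rules_low {S : RS} {w : List ℕ} {s : ℕ} (hs : s < 4) :
    runN S (w.map fun i => 3 + i) s = s := by
  induction w with
  | nil => rfl
  | cons a w ih => rw [List.map_cons, runN_cons, dl_low hs, ih]

/-- A solution of the rule system shows that the automaton is not reset. -/
theorem not_reset_of_yes {S : RS} (hS : RSwf S) (h : RSyes S) :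
    ∃ (u : List ℕ), (∀ a ∈ u, a < 3 + S.2.2.1.length) ∧ SynN S u ∧ ¬ SynN S (outN S 0 u) := by
  rw [RSyes_iff] at h
  obtain ⟨w, hw, hok⟩ := h
  refine ⟨0 :: (w.map (fun i => 3 + i) ++ [1]), ?_, ?_, ?_⟩
  · intro a ha
    simp only [List.mem_cons, List.mem_append, List.mem_map, List.not_mem_nil, or_false] at ha
    rcases ha with rfl | ⟨i, hi, rfl⟩ | rfl
    · omega
    · have := hw i hi
      omega
    · omega
  · have key : ∀ s < nst S, runN S (0 :: (w.map (fun i => 3 + i) ++ [1])) s = 0 := by
      intro s hs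
      rw [runN_cons, runN_append]
      by_cases h4 : s < 4
      · have h1 : dl S s 0 < 4 ∧ dl S s 0 ≠ 1 := by
          unfold dl
          rw [if_pos h4, if_pos rfl]
          split_ifs <;> omega
        rw [run_rules_low h1.1]
        show dl S (dl S s 0) 1 = 0
        generalize dl S s 0 = z at h1
        unfold dl
        rw [if_pos h1.1]
        simp [h1.2]
      · obtain ⟨t, v, ht, hv, rfl⟩ := exists_stt hs h4
        rw [dl_s hv]
        have hmem : S.2.1.getD t 0 ∈ S.2.1 := by
          rw [List.getD_eq_getElem _ _ ht]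
          exact List.getElem_mem ht
        have hlt : S.2.1.getD t 0 ≤ S.1 := (hS.1 _ hmem).le
        rw [min_eq_left hlt, run_rules hS hw hlt]
        show dl S _ 1 = 0
        rw [dl_r (runT_le hS hw hlt), if_pos (hok t ht)]
    intro s s' hs hs'
    rw [key s hs, key s' hs']
  · intro hsyn
    have hout : outN S 0 (0 :: (w.map (fun i => 3 + i) ++ [1])) =
        0 :: (w.map (fun i => 3 + i) ++ [2]) := by
      have h1 : ∀ w : List ℕ, outN S 2 (w.map (fun i => 3 + i) ++ [1]) =
          w.map (fun i => 3 + i) ++ [2] := by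
        intro w
        induction w with
        | nil => rfl
        | cons a w ih =>
          rw [List.map_cons, List.cons_append, outN, dl_low (by omega), ih]
          have : ol 2 (3 + a) = 3 + a := by
            unfold ol
            rw [if_neg (by omega)]
          rw [this]
          rfl
      rw [outN]
      have h2 : dl S 0 0 = 2 := by simp [dl]
      rw [h2, h1]
      rfl
    rw [hout] at hsyn
    have h4 : 4 ≤ nst S := by unfold nst; omega
    have h5 := hsyn 0 3 (by omega) (by omega)
    rw [runN_cons, runN_cons, runN_append, runN_append] at h5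
    have e0 : dl S 0 0 = 2 := by simp [dl]
    have e3 : dl S 3 0 = 3 := by simp [dl]
    rw [e0, e3, run_rules_low (by omega), run_rules_low (by omega)] at h5
    have f2 : runN S [2] 2 = 1 := by simp [runN, dl]
    have f3 : runN S [2] 3 = 0 := by simp [runN, dl]
    rw [f2, f3] at h5
    omega

/-- Words without the letters `r`, `r'`, on low states. -/
theorem run_three {S : RS} {v : List ℕ} (hv : ∀ x ∈ v, x ≠ 1 ∧ x ≠ 2) : runN S v 3 = 3 := by
  induction v with
  | nil => rfl
  | cons a v ih =>
    have ha := hv a (by simp)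
    rw [runN_cons]
    have e : dl S 3 a = 3 := by
      unfold dl
      simp only [Nat.lt_add_one, if_true, ha.1, ha.2, if_false]
      split_ifs <;> rfl
    rw [e]
    exact ih fun x hx => hv x (List.mem_cons_of_mem _ hx)

theorem run_zero {S : RS} {v : List ℕ} (hv : ∀ x ∈ v, x ≠ 1 ∧ x ≠ 2) (s : ℕ)
    (hs : s = 0 ∨ s = 2) : runN S v s = 0 ∨ runN S v s = 2 := by
  induction v generalizing s with
  | nil => exact hs
  | cons a v ih =>
    have ha := hv a (by simp)
    rw [runN_cons]
    refine ih (fun x hx => hv x (List.mem_cons_of_mem _ hx)) _ ?_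
    unfold dl
    rcases hs with rfl | rfl
    · simp only [Nat.ofNat_pos, if_true, ha.1, ha.2, if_false]
      split_ifs <;> simp_all
    · simp only [Nat.reduceLT, if_true, ha.1, ha.2, if_false]
      split_ifs <;> simp_all

/-- If the rule system has no solution, every synchronizing word contains the pattern. -/
theorem pat_of_syn {S : RS} (hS : RSwf S) (hno : ¬ RSyes S) {u : List ℕ}
    (hu : ∀ a ∈ u, a < 3 + S.2.2.1.length) (h : SynN S u) : Pat u := by
  have h4 : 4 ≤ nst S := by unfold nst; omega
  by_contra hp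
  -- first occurrence of `r` or `r'`
  by_cases hr : ∃ x ∈ u, x = 1 ∨ x = 2
  · obtain ⟨v, x, z, rfl, hx, hv⟩ : ∃ v x z, u = v ++ x :: z ∧ (x = 1 ∨ x = 2) ∧
        ∀ y ∈ v, y ≠ 1 ∧ y ≠ 2 := by
      clear h hp hu
      induction u with
      | nil => obtain ⟨x, hx, _⟩ := hr; simp at hx
      | cons a u ih =>
        by_cases ha : a = 1 ∨ a = 2
        · exact ⟨[], a, u, rfl, ha, by simp⟩
        · obtain ⟨x, hx, hx'⟩ := hr
          have hxu : x ∈ u := by
            rcases List.mem_cons.1 hx with rfl | h
            · exact absurd hx' ha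
            · exact h
          obtain ⟨v, x, z, rfl, h1, h2⟩ := ih ⟨x, hxu, hx'⟩
          refine ⟨a :: v, x, z, rfl, h1, ?_⟩
          intro y hy
          rcases List.mem_cons.1 hy with rfl | hy
          · exact not_or.1 ha
          · exact h2 y hy
    have hz : 0 ∉ z := fun h0 => hp ⟨v, x, z, rfl, hx, h0⟩
    have hfix := run_low_fix S hz
    -- it is enough to find two states that go to `0` and to `1`
    have key : ∀ s s', s < nst S → s' < nst S → dl S (runN S v s) x = 0 →
        dl S (runN S v s') x = 1 → False := by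
      intro s s' hs hs' e1 e2
      have h5 := h s s' hs hs'
      rw [runN_append, runN_append, runN_cons, runN_cons, e1, e2, hfix.1, hfix.2] at h5
      omega
    by_cases h0v : 0 ∈ v
    · -- decompose at the last `0`
      obtain ⟨v1, w, rfl, hw⟩ : ∃ v1 w, v = v1 ++ 0 :: w ∧ 0 ∉ w := by
        clear key hfix hz hv hu h hp hr
        induction v with
        | nil => simp at h0v
        | cons a v ih =>
          by_cases h : 0 ∈ v
          · obtain ⟨v1, w, rfl, hw⟩ := ih h
            exact ⟨a :: v1, w, rfl, hw⟩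
          · rcases List.mem_cons.1 h0v with h1 | h1
            · exact ⟨[], v, by rw [← h1]; rfl, h⟩
            · exact absurd h1 h
      -- `w` consists of rules
      have hwr : ∀ a ∈ w, 3 ≤ a ∧ a - 3 < S.2.2.1.length := by
        intro a ha
        have h1 := hv a (by simp [ha])
        have h2 := hu a (by simp [ha])
        have h3 : a ≠ 0 := fun h => hw (h ▸ ha)
        omega
      set w' : List ℕ := w.map fun a => a - 3 with hw'
      have hww : w = w'.map fun i => 3 + i := by
        rw [hw', List.map_map]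
        conv_lhs => rw [← List.map_id w]
        refine List.map_congr_left fun a ha => ?_
        have := (hwr a ha).1
        simp only [id, Function.comp_apply]
        omega
      have hw'l : ∀ i ∈ w', i < S.2.2.1.length := by
        intro i hi
        rw [hw', List.mem_map] at hi
        obtain ⟨a, ha, rfl⟩ := hi
        exact (hwr a ha).2
      have hv1 : ∀ y ∈ v1, y ≠ 1 ∧ y ≠ 2 := fun y hy => hv y (by simp [hy])
      have r3 : runN S (v1 ++ 0 :: w) 3 = 3 := run_three hv
      have r0 : runN S (v1 ++ 0 :: w) 0 = 2 := by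
        rw [runN_append, runN_cons]
        have : dl S (runN S v1 0) 0 = 2 := by
          rcases run_zero (S := S) hv1 0 (Or.inl rfl) with h | h <;> rw [h] <;> simp [dl]
        rw [this, hww]
        exact run_rules_low (by omega)
      rcases hx with rfl | rfl
      · -- the letter `r`: some token fails
        have hbad : ∃ t < S.2.1.length, okf S.1 S.2.2.2 t (runT S w' t (S.2.1.getD t 0)) ≠ true := by
          by_contra hcon
          push Not at hcon
          exact hno ((RSyes_iff S).2 ⟨w', hw'l, hcon⟩)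
        obtain ⟨t, ht, hbad⟩ := hbad
        have hmem : S.2.1.getD t 0 ∈ S.2.1 := by
          rw [List.getD_eq_getElem _ _ ht]
          exact List.getElem_mem ht
        have hlt : S.2.1.getD t 0 ≤ S.1 := (hS.1 _ hmem).le
        -- the run of the token state over `v1`
        have hstay : ∀ (v : List ℕ), (∀ y ∈ v, y ≠ 1 ∧ y ≠ 2) → ∀ x ≤ S.1,
            ∃ x' ≤ S.1, runN S v (stt S t x) = stt S t x' := by
          intro v
          induction v with
          | nil => intro _ x hx; exact ⟨x, hx, rfl⟩
          | cons a v ih =>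
            intro hv x hx
            have ha := hv a (by simp)
            have ih' := ih fun y hy => hv y (List.mem_cons_of_mem _ hy)
            rw [runN_cons]
            rcases a with _ | _ | _ | a
            · rw [dl_s hx]
              exact ih' _ (min_le_right _ _)
            · exact absurd rfl ha.1
            · exact absurd rfl ha.2
            · rw [show a + 1 + 1 + 1 = 3 + a by omega, dl_rule hx]
              exact ih' _ (min_le_right _ _)
        obtain ⟨x', hx', hrun⟩ := hstay v1 hv1 0 (Nat.zero_le _)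
        refine key 3 (stt S t 0) (by omega) (stt_lt ht (Nat.zero_le _)) ?_ ?_
        · rw [r3]; simp [dl]
        · rw [runN_append, hrun, runN_cons, dl_s hx', min_eq_left hlt, hww,
            run_rules hS hw'l hlt, dl_r (runT_le hS hw'l hlt), if_neg hbad]
      · refine key 3 0 (by omega) (by omega) ?_ ?_
        · rw [r3]; simp [dl]
        · rw [r0]; simp [dl]
    · have hf := run_low_fix S h0v
      refine key 0 1 (by omega) (by omega) ?_ ?_
      · rw [hf.1]
        rcases hx with rfl | rfl <;> simp [dl]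
      · rw [hf.2]
        rcases hx with rfl | rfl <;> simp [dl]
  · push Not at hr
    have h3 := run_three (S := S) hr
    have h0 := run_zero (S := S) hr 0 (Or.inl rfl)
    have := h 3 0 (by omega) (by omega)
    omega

theorem reset_iff {S : RS} (hS : RSwf S) : (toMealy S).Reset ↔ ¬ RSyes S := by
  constructor
  · intro hR hy
    obtain ⟨u, hu, h1, h2⟩ := not_reset_of_yes hS hy
    obtain ⟨u', hu'⟩ : ∃ u' : List (Fin (toMealy S).m), u'.map Fin.val = u := by
      refine ⟨u.attach.map fun a => ⟨a.1, hu a.1 a.2⟩, ?_⟩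
      rw [List.map_map]
      exact List.attach_map_subtype_val u
    have h0 : 0 < nst S := by unfold nst; omega
    have h3 := hR.2 ⟨0, h0⟩ u' (by rw [syn_iff, hu']; exact h1)
    rw [syn_iff, word_toMealy, hu'] at h3
    exact h2 h3
  · intro hno
    refine ⟨?_, ?_⟩
    · have h1 : (1 : ℕ) < 3 + S.2.2.1.length := by omega
      have h0 : (0 : ℕ) < 3 + S.2.2.1.length := by omega
      refine ⟨[(⟨1, h1⟩ : Fin (3 + S.2.2.1.length)), ⟨0, h0⟩], ?_⟩
      rw [syn_iff]
      apply syn_of_pat
      exact ⟨[], 1, [0], rfl, Or.inl rfl, by simp⟩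
    · intro q u hu
      rw [syn_iff] at hu ⊢
      rw [word_toMealy]
      apply syn_of_pat
      apply pat_out
      refine pat_of_syn hS hno ?_ hu
      intro a ha
      rw [List.mem_map] at ha
      obtain ⟨b, _, rfl⟩ := ha
      exact b.2

/-! ### Polynomial time -/

section

variable {α : Type} [TEnc α]

theorem poly_dl {S : α → RS} {s a : α → ℕ} (hS : NPC.Poly S) (hs : NPC.Poly s)
    (ha : NPC.Poly a) : NPC.Poly (fun x => dl (S x) (s x) (a x)) := by
  have hV : NPC.Poly (fun x => (S x).1) := NPC.Poly.fst hS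
  have hI : NPC.Poly (fun x => (S x).2.1) := NPC.Poly.fst (NPC.Poly.snd hS)
  have hR : NPC.Poly (fun x => (S x).2.2.1) := NPC.Poly.fst (NPC.Poly.snd (NPC.Poly.snd hS))
  have hF : NPC.Poly (fun x => (S x).2.2.2) := NPC.Poly.snd (NPC.Poly.snd (NPC.Poly.snd hS))
  have hc : ∀ n : ℕ, NPC.Poly (fun _ : α => n) := fun n => NPC.Poly.const n
  have heq : ∀ (n : ℕ) {f : α → ℕ}, NPC.Poly f → NPC.Poly (fun x => decide (f x = n)) :=
    fun n f hf => NPC.Poly.decide_eq hf (hc n)
  have hV1 : NPC.Poly (fun x => (S x).1 + 1) := NPC.Poly.succ hV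
  have hsub : NPC.Poly (fun x => s x - 4) := NPC.Poly.sub hs (hc _)
  have ht : NPC.Poly (fun x => (s x - 4) / ((S x).1 + 1)) := NPC.Poly.div hsub hV1
  have hv : NPC.Poly (fun x => (s x - 4) % ((S x).1 + 1)) := NPC.Poly.mod hsub hV1
  have hbase : ∀ {f : α → ℕ}, NPC.Poly f → NPC.Poly (fun x => 4 +
      (((s x - 4) / ((S x).1 + 1)) * ((S x).1 + 1) + min (f x) (S x).1)) :=
    fun hf => NPC.Poly.add (hc _) (NPC.Poly.add (NPC.Poly.mul ht hV1) (NPC.Poly.min hf hV))
  unfold dl
  refine NPC.Poly.ite (NPC.Poly.decide_lt hs (hc _)) ?_ ?_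
  · refine NPC.Poly.ite (heq 0 ha) ?_ (NPC.Poly.ite (heq 1 ha) ?_ (NPC.Poly.ite (heq 2 ha) ?_ hs))
    · exact NPC.Poly.ite (heq 3 hs) (hc 3) (hc 2)
    · exact NPC.Poly.ite (heq 1 hs) (hc 1) (hc 0)
    · exact NPC.Poly.ite (NPC.Poly.decide_or (heq 1 hs) (heq 2 hs)) (hc 1) (hc 0)
  · refine NPC.Poly.ite (heq 0 ha) (hbase (NPC.Poly.getD hI ht (hc 0)))
      (NPC.Poly.ite (heq 1 ha) ?_ (NPC.Poly.ite (heq 2 ha) (hc 0) ?_))
    · exact NPC.Poly.ite (NPC.Poly.decide_bool (poly_okf hV hF ht hv)) (hc 0) (hc 1)
    · exact hbase (poly_tok hV (NPC.Poly.getD hR (NPC.Poly.sub ha (hc 3)) (NPC.Poly.const []))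
        ht hv)

theorem poly_ol {s a : α → ℕ} (hs : NPC.Poly s) (ha : NPC.Poly a) :
    NPC.Poly (fun x => ol (s x) (a x)) :=
  NPC.Poly.ite (NPC.Poly.decide_and (NPC.Poly.decide_eq hs (NPC.Poly.const 2))
    (NPC.Poly.decide_eq ha (NPC.Poly.const 1))) (NPC.Poly.const 2) ha

theorem poly_toMealy {S : α → RS} (hS : NPC.Poly S) (hU : UPoly (fun x => (S x).1)) :
    NPC.Poly (fun x => toMealy (S x)) := by
  have hI : NPC.Poly (fun x => (S x).2.1) := NPC.Poly.fst (NPC.Poly.snd hS)
  have hR : NPC.Poly (fun x => (S x).2.2.1) := NPC.Poly.fst (NPC.Poly.snd (NPC.Poly.snd hS))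
  have hn : UPoly (fun x => nst (S x)) := by
    unfold nst
    exact UPoly.add (UPoly.const _) (UPoly.mul (UPoly.length hI) (UPoly.add hU (UPoly.const 1)))
  have hm : UPoly (fun x => 3 + (S x).2.2.1.length) := UPoly.add (UPoly.const 3) (UPoly.length hR)
  have h1 : NPC.Poly (fun x => (List.range (3 + (S x).2.2.1.length)).map fun a =>
      (List.range (nst (S x))).map fun s => dl (S x) s a) := by
    refine NPC.Poly.map (F := fun x a => (List.range (nst (S x))).map fun s => dl (S x) s a)
      hm.range ?_
    have hx : NPC.Poly (fun p : α × ℕ => p.1) := NPC.Poly.fst NPC.Poly.id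
    refine NPC.Poly.map (F := fun (p : α × ℕ) s => dl (S p.1) s p.2) (hn.comp hx).range ?_
    have hx : NPC.Poly (fun p : (α × ℕ) × ℕ => p.1.1) := NPC.Poly.fst (NPC.Poly.fst NPC.Poly.id)
    have ha : NPC.Poly (fun p : (α × ℕ) × ℕ => p.1.2) := NPC.Poly.snd (NPC.Poly.fst NPC.Poly.id)
    have hs : NPC.Poly (fun p : (α × ℕ) × ℕ => p.2) := NPC.Poly.snd NPC.Poly.id
    exact poly_dl (hS.comp hx) hs ha
  have h2 : NPC.Poly (fun x => (List.range (3 + (S x).2.2.1.length)).map fun a =>
      (List.range (nst (S x))).map fun s => ol s a) := by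
    refine NPC.Poly.map (F := fun x a => (List.range (nst (S x))).map fun s => ol s a)
      hm.range ?_
    have hx : NPC.Poly (fun p : α × ℕ => p.1) := NPC.Poly.fst NPC.Poly.id
    refine NPC.Poly.map (F := fun (p : α × ℕ) s => ol s p.2) (hn.comp hx).range ?_
    have ha : NPC.Poly (fun p : (α × ℕ) × ℕ => p.1.2) := NPC.Poly.snd (NPC.Poly.fst NPC.Poly.id)
    have hs : NPC.Poly (fun p : (α × ℕ) × ℕ => p.2) := NPC.Poly.snd NPC.Poly.id
    exact poly_ol hs ha
  have h3 := NPC.Poly.pair hn.toPoly (NPC.Poly.pair hm.toPoly (NPC.Poly.pair h1 h2))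
  refine NPC.Poly.of_toT (h3.toT'.congr fun x => ?_)
  show toT _ = toT (toMealy (S x)).code
  congr 1
  unfold Mealy.code
  have e1 : ∀ a : Fin (toMealy (S x)).m,
      ((List.finRange (toMealy (S x)).n).map fun q => ((toMealy (S x)).δ q a).val) =
      (List.range (nst (S x))).map fun s => dl (S x) s a.val :=
    fun a => finRange_map_val (nst (S x)) (fun s => dl (S x) s a.val)
  have e2 : ∀ a : Fin (toMealy (S x)).m,
      ((List.finRange (toMealy (S x)).n).map fun q => ((toMealy (S x)).out q a).val) =
      (List.range (nst (S x))).map fun s => ol s a.val :=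
    fun a => finRange_map_val (nst (S x)) (fun s => ol s a.val)
  simp only [e1, e2]
  have e3 := finRange_map_val (3 + (S x).2.2.1.length) (fun a =>
    (List.range (nst (S x))).map fun s => dl (S x) s a)
  have e4 := finRange_map_val (3 + (S x).2.2.1.length) (fun a =>
    (List.range (nst (S x))).map fun s => ol s a)
  exact congrArg₂ Prod.mk rfl (congrArg₂ Prod.mk rfl (congrArg₂ Prod.mk e3.symm e4.symm))

end

/-- `PSPACE` is closed under complement. -/
theorem inPSPACE_compl {L : Set (List Bool)} (h : InPSPACE L) : InPSPACE Lᶜ := by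
  obtain ⟨f, M, p, hf, hp⟩ := h
  refine ⟨fun x => !(f x), ⟨⟨M.tm, M.inputAlphabet, M.outputAlphabet.trans Equiv.boolNot⟩,
    fun x => ?_⟩, p, ?_, hp⟩
  · have h1 := M.outputsFun x
    have e : List.map (M.outputAlphabet.trans Equiv.boolNot).invFun ([!(f x)] : List Bool) =
        List.map M.outputAlphabet.invFun [f x] := by
      simp
    rw [e]
    exact h1
  · intro x
    rw [Set.mem_compl_iff, hf]
    simp

/-- Recognising reset Mealy automata is `PSPACE`-hard. -/
theorem reset_hard : PSPACEHard (lang Mealy.Reset) := by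
  intro L hL
  obtain ⟨S, hS, hU, hwf, hiff⟩ := pspace_rules (inPSPACE_compl hL)
  refine ⟨fun x => bits (toMealy (S x)), ?_, ?_⟩
  · have h1 : PC (bits : List Bool → List Bool) (bits : Mealy → List Bool)
        (fun x => toMealy (S x)) := poly_toMealy hS hU
    have h2 : PC (fun x : List Bool => x) (bits : List Bool → List Bool) (fun x => x) := PC.ofBits
    obtain ⟨c, p, h⟩ := PC.comp h1 h2
    exact PC.toPolyTime ⟨c, p, h⟩
  · intro x
    have h1 := hiff x
    rw [Set.mem_compl_iff] at h1
    have h2 : x ∈ L ↔ (toMealy (S x)).Reset := by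
      rw [reset_iff (hwf x), ← h1, not_not]
    rw [h2]
    constructor
    · intro h
      exact ⟨_, rfl, h⟩
    · rintro ⟨I, hI, h⟩
      have : I = toMealy (S x) := TEnc.inj (T.enc_injective hI)
      rwa [this] at h

end Pool.Agent.Q325.RM
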