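import Mathlib

set_option autoImplicit false

namespace Pool.Agent.Q325.Sh

variable {A : Type}

/-- The shuffle of two words: all words `u₁ v₁ u₂ v₂ ⋯ u_k v_k` with `k ≥ 1`, `u = u₁ ⋯ u_k` and
`v = v₁ ⋯ v_k`; the pairs `(u_i, v_i)` are listed in `ps`. -/
def shuffleWords (u v : List A) : Set (List A) :=
  {w | ∃ ps : List (List A × List A), ps ≠ [] ∧ u = (ps.map Prod.fst).flatten ∧
    v = (ps.map Prod.snd).flatten ∧ w = (ps.map fun p => p.1 ++ p.2).flatten}

/-- The shuffle of two languages. -/
def shuffle (L₁ L₂ : Set (List A)) : Set (List A) :=
  {w | ∃ u ∈ L₁, ∃ v ∈ L₂, w ∈ shuffleWords u v}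

/-- What a one-counter machine does with its counter in one step. -/
inductive Act
  | up
  | stay
  | down

/-- A deterministic one-counter machine that reads one letter in every step: the next state and
the change of the counter are determined by the state, by the test whether the counter is zero,
and by the letter. The counter is never decremented when it is zero. -/
structure Machine (A : Type) where
  /-- the states -/
  Q : Type
  /-- there are finitely many states -/
  fin : Finite Q
  /-- the initial state -/
  start : Q
  /-- the transition function; the truth value tells whether the counter is zero -/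
  step : Q → Bool → A → Q × Act
  /-- the final states -/
  final : Q → Prop
  /-- no decrement at zero -/
  pos : ∀ q x, (step q true x).2 ≠ Act.down

namespace Machine

variable (M : Machine A)

/-- One step of the machine; the second component is the content of the counter. -/
def next (c : M.Q × ℕ) (x : A) : M.Q × ℕ :=
  ((M.step c.1 (decide (c.2 = 0)) x).1,
    match (M.step c.1 (decide (c.2 = 0)) x).2 with
    | Act.up => c.2 + 1
    | Act.stay => c.2
    | Act.down => c.2 - 1)

/-- The configuration after reading a word. -/
def run (w : List A) : M.Q × ℕ := w.foldl M.next (M.start, 0)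

/-- The accepted language (acceptance by final state). -/
def lang : Set (List A) := {w | M.final (M.run w).1}

/-- The counter is `1`-reversal-bounded: on every input its content is first nondecreasing and
from some moment on nonincreasing. -/
def OneReversal : Prop :=
  ∀ w : List A, ∃ m : ℕ,
    (∀ i < m, (M.run (w.take i)).2 ≤ (M.run (w.take (i + 1))).2) ∧
    (∀ i, m ≤ i → (M.run (w.take (i + 1))).2 ≤ (M.run (w.take i)).2)

end Machine

/-- A description of a complete deterministic finite automaton over the alphabet `A`. The states
are natural numbers (`some q`) and one more state `none`; the initial state is `some 0`. The first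
list contains the transitions `((q, x), q')`, all other transitions lead to the state `none`, which
is never left. If the truth value is `true`, the second list contains the accepting states; if it
is `false`, the second list contains the rejecting states. -/
abbrev Code (A : Type) : Type := List ((ℕ × A) × ℕ) × List (Option ℕ) × Bool

namespace Code

variable [DecidableEq A]

/-- The transition function of the automaton described by a code. -/
def step (D : Code A) : Option ℕ → A → Option ℕ
  | none, _ => none
  | some q, x => (D.1.find? fun r => decide (r.1 = (q, x))).map Prod.snd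

/-- The language accepted by the automaton described by a code. -/
def lang (D : Code A) : Set (List A) :=
  {w | w.foldl D.step (some 0) ∈ D.2.1 ↔ D.2.2 = true}

end Code

/-- The alphabet with `3 + 2 * k` letters. -/
abbrev Alph (k : ℕ) : Type := Fin 3 ⊕ (Fin k ⊕ Fin k)

/-! ### Inductive description of shuffles -/

inductive Shuf : List A → List A → List A → Prop
  | nil : Shuf [] [] []
  | left {u v w : List A} (a : A) : Shuf u v w → Shuf (a :: u) v (a :: w)
  | right {u v w : List A} (a : A) : Shuf u v w → Shuf u (a :: v) (a :: w)

theorem Shuf.append_left {u v w : List A} (p : List A) (h : Shuf u v w) :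
    Shuf (p ++ u) v (p ++ w) := by
  induction p with
  | nil => exact h
  | cons a p ih => exact Shuf.left a ih

theorem Shuf.append_right {u v w : List A} (p : List A) (h : Shuf u v w) :
    Shuf u (p ++ v) (p ++ w) := by
  induction p with
  | nil => exact h
  | cons a p ih => exact Shuf.right a ih

theorem shuf_iff {u v w : List A} : w ∈ shuffleWords u v ↔ Shuf u v w := by
  constructor
  · rintro ⟨ps, -, rfl, rfl, rfl⟩
    induction ps with
    | nil => exact Shuf.nil
    | cons p ps ih =>
      simp only [List.map_cons, List.flatten_cons, List.append_assoc]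
      exact (ih.append_right p.2).append_left p.1
  · intro h
    induction h with
    | nil => exact ⟨[([], [])], by simp, by simp, by simp, by simp⟩
    | @left u v w a h ih =>
      obtain ⟨ps, -, h1, h2, h3⟩ := ih
      exact ⟨([a], []) :: ps, by simp, by simp [h1], by simp [h2], by simp [h3]⟩
    | @right u v w a h ih =>
      obtain ⟨ps, -, h1, h2, h3⟩ := ih
      exact ⟨([], [a]) :: ps, by simp, by simp [h1], by simp [h2], by simp [h3]⟩

theorem Shuf.count {u v w : List A} (h : Shuf u v w) (p : A → Bool) :
    w.countP p = u.countP p + v.countP p := by
  induction h with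
  | nil => simp
  | left a h ih => simp only [List.countP_cons, ih]; omega
  | right a h ih => simp only [List.countP_cons, ih]; omega

theorem Shuf.comm {u v w : List A} (h : Shuf u v w) : Shuf v u w := by
  induction h with
  | nil => exact Shuf.nil
  | left a h ih => exact Shuf.right a ih
  | right a h ih => exact Shuf.left a ih

theorem Shuf.nil_right (u : List A) : Shuf u [] u := by
  induction u with
  | nil => exact Shuf.nil
  | cons a u ih => exact Shuf.left a ih

theorem Shuf.eq_of_nil {u w : List A} (h : Shuf u [] w) : w = u := by
  generalize hv : ([] : List A) = v at h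
  induction h with
  | nil => rfl
  | left a h ih => rw [ih hv]
  | right a h ih => cases hv

/-- `v` arises from `w` by deleting some letters with the property `P`. -/
inductive Del (P : A → Prop) : List A → List A → Prop
  | nil : Del P [] []
  | keep {v w : List A} (a : A) : Del P v w → Del P (a :: v) (a :: w)
  | drop {v w : List A} (a : A) (ha : P a) : Del P v w → Del P v (a :: w)

theorem del_iff {P : A → Prop} {v w : List A} :
    (∃ u, (∀ x ∈ u, P x) ∧ Shuf u v w) ↔ Del P v w := by
  constructor
  · rintro ⟨u, hu, h⟩
    induction h with
    | nil => exact Del.nil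
    | left a h ih =>
      exact Del.drop a (hu a (by simp)) (ih fun x hx => hu x (by simp [hx]))
    | right a h ih => exact Del.keep a (ih hu)
  · intro h
    induction h with
    | nil => exact ⟨[], by simp, Shuf.nil⟩
    | keep a h ih =>
      obtain ⟨u, hu, h⟩ := ih
      exact ⟨u, hu, Shuf.right a h⟩
    | drop a ha h ih =>
      obtain ⟨u, hu, h⟩ := ih
      refine ⟨a :: u, ?_, Shuf.left a h⟩
      intro x hx
      rcases List.mem_cons.1 hx with rfl | hx
      · exact ha
      · exact hu x hx

theorem Del.append {P : A → Prop} {v w v' w' : List A} (h : Del P v w) (h' : Del P v' w') :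
    Del P (v ++ v') (w ++ w') := by
  induction h with
  | nil => exact h'
  | keep a h ih => exact Del.keep a ih
  | drop a ha h ih => exact Del.drop a ha ih

theorem Del.refl {P : A → Prop} (w : List A) : Del P w w := by
  induction w with
  | nil => exact Del.nil
  | cons a w ih => exact Del.keep a ih

theorem Del.nil_of {P : A → Prop} {w : List A} (h : ∀ x ∈ w, P x) : Del P [] w := by
  induction w with
  | nil => exact Del.nil
  | cons a w ih => exact Del.drop a (h a (by simp)) (ih fun x hx => h x (by simp [hx]))

theorem Del.single {P : A → Prop} {w : List A} {x : A} (h : ∀ y ∈ w, P y) (hx : x ∈ w) :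
    Del P [x] w := by
  induction w with
  | nil => simp at hx
  | cons a w ih =>
    rcases List.mem_cons.1 hx with rfl | hx
    · exact Del.keep x (Del.nil_of fun y hy => h y (by simp [hy]))
    · exact Del.drop a (h a (by simp)) (ih (fun y hy => h y (by simp [hy])) hx)

/-- Splitting. -/
theorem Del.split {P : A → Prop} {w₁ : List A} : ∀ {v w₂ : List A}, Del P v (w₁ ++ w₂) →
    ∃ v₁ v₂, v = v₁ ++ v₂ ∧ Del P v₁ w₁ ∧ Del P v₂ w₂ := by
  induction w₁ with
  | nil => intro v w₂ h; exact ⟨[], v, rfl, Del.nil, h⟩
  | cons a w₁ ih =>
    intro v w₂ h
    cases h with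
    | keep _ h =>
      obtain ⟨v₁, v₂, rfl, h1, h2⟩ := ih h
      exact ⟨a :: v₁, v₂, rfl, Del.keep a h1, h2⟩
    | drop _ ha h =>
      obtain ⟨v₁, v₂, rfl, h1, h2⟩ := ih h
      exact ⟨v₁, v₂, rfl, Del.drop a ha h1, h2⟩

theorem Del.eq_of_not {P : A → Prop} {v w : List A} (h : Del P v w) (hw : ∀ x ∈ w, ¬ P x) :
    v = w := by
  induction h with
  | nil => rfl
  | keep a h ih => rw [ih fun x hx => hw x (by simp [hx])]
  | drop a ha h ih => exact absurd ha (hw a (by simp))

theorem Del.all {P : A → Prop} {v w : List A} (h : Del P v w) (hw : ∀ x ∈ w, P x) :
    ∀ x ∈ v, P x := by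
  induction h with
  | nil => simp
  | keep a h ih =>
    intro x hx
    rcases List.mem_cons.1 hx with rfl | hx
    · exact hw _ (by simp)
    · exact ih (fun y hy => hw y (by simp [hy])) x hx
  | drop a ha h ih => exact ih fun y hy => hw y (by simp [hy])

/-- A criterion for `1`-reversal-boundedness. -/
theorem Machine.oneReversal_of (M : Machine A) (late : M.Q → Prop)
    (h1 : ∀ q z x, late q → late (M.step q z x).1)
    (h2 : ∀ q z x, late q → (M.step q z x).2 ≠ Act.up)
    (h3 : ∀ q z x, ¬ late q → (M.step q z x).2 ≠ Act.down) : M.OneReversal := by
  classical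
  intro w
  have hs : ∀ i, i < w.length → ∃ x, M.run (w.take (i + 1)) = M.next (M.run (w.take i)) x := by
    intro i hi
    refine ⟨w[i], ?_⟩
    unfold Machine.run
    rw [List.take_succ_eq_append_getElem hi, List.foldl_append]
    rfl
  have hs' : ∀ i, w.length ≤ i → M.run (w.take (i + 1)) = M.run (w.take i) := by
    intro i hi
    rw [List.take_of_length_le hi, List.take_of_length_le (by omega)]
  have hup : ∀ i, ¬ late (M.run (w.take i)).1 →
      (M.run (w.take i)).2 ≤ (M.run (w.take (i + 1))).2 := by
    intro i hi
    by_cases hl : i < w.length
    · obtain ⟨x, hx⟩ := hs i hl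
      rw [hx]
      have := h3 _ (decide ((M.run (w.take i)).2 = 0)) x hi
      unfold Machine.next
      simp only
      split
      · omega
      · omega
      · exact absurd (by assumption) this
    · rw [hs' i (by omega)]
  have hdn : ∀ i, late (M.run (w.take i)).1 →
      (M.run (w.take (i + 1))).2 ≤ (M.run (w.take i)).2 ∧ late (M.run (w.take (i + 1))).1 := by
    intro i hi
    by_cases hl : i < w.length
    · obtain ⟨x, hx⟩ := hs i hl
      rw [hx]
      refine ⟨?_, h1 _ _ _ hi⟩
      have := h2 _ (decide ((M.run (w.take i)).2 = 0)) x hi
      unfold Machine.next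
      simp only
      split
      · exact absurd (by assumption) this
      · omega
      · omega
    · rw [hs' i (by omega)]
      exact ⟨le_rfl, hi⟩
  by_cases hex : ∃ i, late (M.run (w.take i)).1
  · refine ⟨Nat.find hex, fun i hi => hup i (Nat.find_min hex hi), ?_⟩
    have : ∀ i, Nat.find hex ≤ i → late (M.run (w.take i)).1 := by
      intro i hi
      induction i, hi using Nat.le_induction with
      | base => exact Nat.find_spec hex
      | succ i _ ih => exact (hdn i ih).2
    exact fun i hi => (hdn i (this i hi)).1
  · push Not at hex
    refine ⟨w.length, fun i _ => hup i (hex i), fun i hi => ?_⟩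
    rw [hs' i hi]

end Pool.Agent.Q325.Sh
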