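import Mathlib
import Pool.Agent.Q325.ShDefs

set_option autoImplicit false

namespace Pool.Agent.Q325.Sh

/-- A residue machine with `k` transitions. -/
structure Res (k : ℕ) where
  src : Fin k → ℕ
  s : Fin k → ℕ
  s0 : Fin k → ℕ
  r : Fin k → ℕ
  r0 : Fin k → ℕ
  o : Fin k → Option ℕ
  hs : ∀ j, s0 j < s j
  hr : ∀ j, r0 j < r j

/-- letters -/
def la {k : ℕ} : Alph k := Sum.inl 0
def le {k : ℕ} : Alph k := Sum.inl 1
def ld {k : ℕ} : Alph k := Sum.inl 2
def lt {k : ℕ} (j : Fin k) : Alph k := Sum.inr (Sum.inl j)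
def lm {k : ℕ} (j : Fin k) : Alph k := Sum.inr (Sum.inr j)

theorem alph_cases {k : ℕ} (x : Alph k) : x = Sum.inl 0 ∨ x = Sum.inl 1 ∨ x = Sum.inl 2 ∨
    (∃ j, x = Sum.inr (Sum.inl j)) ∨ ∃ j, x = Sum.inr (Sum.inr j) := by
  rcases x with x | x | x
  · fin_cases x
    · exact Or.inl rfl
    · exact Or.inr (Or.inl rfl)
    · exact Or.inr (Or.inr (Or.inl rfl))
  · exact Or.inr (Or.inr (Or.inr (Or.inl ⟨x, rfl⟩)))
  · exact Or.inr (Or.inr (Or.inr (Or.inr ⟨x, rfl⟩)))

/-- being a marker -/
def IsM {k : ℕ} (x : Alph k) : Prop := ∃ j, x = lm j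

/-- all markers -/
def grp (k : ℕ) : List (Alph k) := (List.finRange k).map lm

/-- states -/
inductive St (k B : ℕ)
  | ini
  | search
  | up (j : Fin k) (ρ : Fin (B + 1))
  | down (j : Fin k) (ρ : Fin (B + 1))
  | acc
  | dead
  deriving DecidableEq, Fintype

def mkF (B m : ℕ) : Fin (B + 1) := ⟨min m B, by omega⟩

theorem mkF_val {B m : ℕ} (h : m ≤ B) : (mkF B m).val = m := by simp [mkF, h]

variable {k : ℕ} (R : Res k) (B : ℕ)

/-- transition function -/
def stp : St k B → Bool → Alph k → St k B × Act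
  | .ini, _, Sum.inl 2 => (.search, .stay)
  | .ini, _, _ => (.dead, .stay)
  | .search, _, Sum.inr (Sum.inr j) => (.up j (mkF B 0), .stay)
  | .search, _, Sum.inl 2 => (.dead, .stay)
  | .search, _, _ => (.search, .stay)
  | .up j ρ, _, Sum.inl 0 =>
      if ρ.val + 1 = R.s j then (.up j (mkF B 0), .up) else (.up j (mkF B (ρ.val + 1)), .stay)
  | .up j ρ, _, Sum.inr (Sum.inl i) =>
      if i = j then (if ρ.val = R.s0 j then (.down j (mkF B 0), .stay) else (.acc, .stay))
      else (.dead, .stay)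
  | .up _ _, _, _ => (.dead, .stay)
  | .down j ρ, z, Sum.inl 0 =>
      if ρ.val + 1 = R.r j then (if z = true then (.acc, .stay) else (.down j (mkF B 0), .down))
      else (.down j (mkF B (ρ.val + 1)), .stay)
  | .down j ρ, z, Sum.inl 1 =>
      if z = true ∧ ρ.val = R.r0 j ∧ R.o j = none then (.dead, .stay) else (.acc, .stay)
  | .down j ρ, z, Sum.inr (Sum.inl i) =>
      if z = true ∧ ρ.val = R.r0 j ∧ R.o j = some (R.src i) then (.dead, .stay) else (.acc, .stay)
  | .down _ _, _, _ => (.dead, .stay)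
  | .acc, _, _ => (.acc, .stay)
  | .dead, _, _ => (.dead, .stay)

/-- The machine; the truth value chooses the initial state. -/
def mach (b : Bool) : Machine (Alph k) where
  Q := St k B
  fin := inferInstance
  start := if b then .ini else .search
  step := stp R B
  final := fun q => q = .acc ∨ q = .ini
  pos := by
    intro q x
    rcases q with _ | _ | ⟨j, ρ⟩ | ⟨j, ρ⟩ | _ | _ <;>
      rcases alph_cases x with rfl | rfl | rfl | ⟨i, rfl⟩ | ⟨i, rfl⟩ <;>
      simp only [stp] <;> (try split_ifs) <;> simp_all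

def late : St k B → Prop
  | .down _ _ => True
  | .acc => True
  | .dead => True
  | _ => False

theorem mach_oneReversal (b : Bool) : (mach R B b).OneReversal := by
  apply Machine.oneReversal_of (mach R B b) (late B)
  · intro q z x h
    rcases q with _ | _ | ⟨j, ρ⟩ | ⟨j, ρ⟩ | _ | _ <;>
      rcases alph_cases x with rfl | rfl | rfl | ⟨i, rfl⟩ | ⟨i, rfl⟩ <;>
      simp only [mach, stp] <;> (try split_ifs) <;> simp_all [late]
  · intro q z x h
    rcases q with _ | _ | ⟨j, ρ⟩ | ⟨j, ρ⟩ | _ | _ <;>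
      rcases alph_cases x with rfl | rfl | rfl | ⟨i, rfl⟩ | ⟨i, rfl⟩ <;>
      simp only [mach, stp] <;> (try split_ifs) <;> simp_all [late]
  · intro q z x h
    rcases q with _ | _ | ⟨j, ρ⟩ | ⟨j, ρ⟩ | _ | _ <;>
      rcases alph_cases x with rfl | rfl | rfl | ⟨i, rfl⟩ | ⟨i, rfl⟩ <;>
      simp only [mach, stp] <;> (try split_ifs) <;> simp_all [late]

/-- one step -/
def nx (c : St k B × ℕ) (x : Alph k) : St k B × ℕ :=
  ((stp R B c.1 (decide (c.2 = 0)) x).1,
      match (stp R B c.1 (decide (c.2 = 0)) x).2 with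
      | Act.up => c.2 + 1
      | Act.stay => c.2
      | Act.down => c.2 - 1)

/-- running from a configuration -/
def rn (c : St k B × ℕ) (w : List (Alph k)) : St k B × ℕ := w.foldl (nx R B) c

theorem rn_append (c : St k B × ℕ) (v w : List (Alph k)) :
    rn R B c (v ++ w) = rn R B (rn R B c v) w := by simp [rn]

theorem rn_cons (c : St k B × ℕ) (x : Alph k) (w : List (Alph k)) :
    rn R B c (x :: w) = rn R B (nx R B c x) w := rfl

theorem rn_nil (c : St k B × ℕ) : rn R B c [] = c := rfl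

theorem next_eq (c : St k B × ℕ) (x : Alph k) :
    nx R B c x = ((stp R B c.1 (decide (c.2 = 0)) x).1,
      match (stp R B c.1 (decide (c.2 = 0)) x).2 with
      | Act.up => c.2 + 1
      | Act.stay => c.2
      | Act.down => c.2 - 1) := rfl

theorem rn_acc (c : ℕ) (w : List (Alph k)) : rn R B (.acc, c) w = (.acc, c) := by
  induction w generalizing c with
  | nil => rfl
  | cons x w ih =>
    rw [rn_cons, next_eq]
    exact ih c

theorem rn_dead (c : ℕ) (w : List (Alph k)) : rn R B (.dead, c) w = (.dead, c) := by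
  induction w generalizing c with
  | nil => rfl
  | cons x w ih =>
    rw [rn_cons, next_eq]
    exact ih c

theorem rn_search_a (c x : ℕ) :
    rn R B (.search, c) (List.replicate x la) = (.search, c) := by
  induction x with
  | zero => rfl
  | succ x ih => rw [List.replicate_succ, rn_cons, next_eq]; simpa [stp, la] using ih

theorem next_search_t (c : ℕ) (j : Fin k) :
    nx R B (.search, c) (lt j) = (.search, c) := by
  rfl

theorem next_search_e (c : ℕ) :
    nx R B (.search, c) le = (.search, c) := by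
  rfl

theorem next_search_m (c : ℕ) (j : Fin k) :
    nx R B (.search, c) (lm j) = (.up j (mkF B 0), c) := by
  rfl

theorem next_up_m (c : ℕ) (i : Fin k) (ρ : Fin (B + 1)) (j : Fin k) :
    nx R B (.up i ρ, c) (lm j) = (.dead, c) := by
  rfl

theorem next_down_m (c : ℕ) (i : Fin k) (ρ : Fin (B + 1)) (j : Fin k) :
    nx R B (.down i ρ, c) (lm j) = (.dead, c) := by
  rfl

variable {R B}

theorem rn_up (hB : ∀ j, R.s j ≤ B) (j : Fin k) (x : ℕ) : ∀ (ρ c : ℕ), ρ < R.s j →
    rn R B (.up j (mkF B ρ), c) (List.replicate x la) =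
      (.up j (mkF B ((ρ + x) % R.s j)), c + (ρ + x) / R.s j) := by
  induction x with
  | zero =>
    intro ρ c h
    rw [Nat.add_zero, Nat.mod_eq_of_lt h, Nat.div_eq_of_lt h]
    rfl
  | succ x ih =>
    intro ρ c h
    have hb := hB j
    rw [List.replicate_succ, rn_cons, next_eq]
    simp only [stp, la, mkF_val (show ρ ≤ B by omega)]
    by_cases h1 : ρ + 1 = R.s j
    · simp only [h1, if_true]
      have := ih 0 (c + 1) (by omega)
      rw [show (Sum.inl 0 : Alph k) = la from rfl, this]
      have e1 : ρ + (x + 1) = x + R.s j := by omega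
      rw [e1, Nat.add_mod_right, Nat.add_div_right _ (by omega), Nat.zero_add]
      congr 1
      omega
    · simp only [if_neg h1]
      have := ih (ρ + 1) c (by omega)
      rw [show (Sum.inl 0 : Alph k) = la from rfl, this]
      rw [show ρ + 1 + x = ρ + (x + 1) by omega]

theorem rn_down (hB : ∀ j, R.r j ≤ B) (j : Fin k) (y : ℕ) : ∀ (ρ c : ℕ), ρ < R.r j →
    rn R B (.down j (mkF B ρ), c) (List.replicate y la) =
      if (ρ + y) / R.r j ≤ c then (.down j (mkF B ((ρ + y) % R.r j)), c - (ρ + y) / R.r j)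
      else (.acc, 0) := by
  induction y with
  | zero =>
    intro ρ c h
    rw [Nat.add_zero, Nat.mod_eq_of_lt h, Nat.div_eq_of_lt h]
    simp [rn_nil]
  | succ y ih =>
    intro ρ c h
    have hb := hB j
    rw [List.replicate_succ, rn_cons, next_eq]
    simp only [stp, la, mkF_val (show ρ ≤ B by omega)]
    by_cases h1 : ρ + 1 = R.r j
    · simp only [h1, if_true]
      have e1 : ρ + (y + 1) = y + R.r j := by omega
      rw [e1, Nat.add_mod_right, Nat.add_div_right _ (by omega)]
      by_cases hc : c = 0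
      · subst hc
        simp only [decide_true, if_true]
        rw [rn_acc, if_neg (Nat.not_succ_le_zero _)]
      · simp only [hc, decide_false, Bool.false_eq_true, if_false]
        have := ih 0 (c - 1) (by omega)
        rw [show (Sum.inl 0 : Alph k) = la from rfl, this, Nat.zero_add]
        by_cases h2 : y / R.r j ≤ c - 1
        · rw [if_pos h2, if_pos (by omega)]
          congr 1
          omega
        · rw [if_neg h2, if_neg (by omega)]
    · simp only [if_neg h1]
      have := ih (ρ + 1) c (by omega)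
      rw [show (Sum.inl 0 : Alph k) = la from rfl, this]
      rw [show ρ + 1 + y = ρ + (y + 1) by omega]

variable (R)

/-- The relation of a transition. -/
def Rel (j : Fin k) (x y : ℕ) : Prop :=
  x % R.s j = R.s0 j ∧ y % R.r j = R.r0 j ∧ x / R.s j = y / R.r j

/-- The words. -/
def W (k : ℕ) : List (ℕ × Fin k) → ℕ → List (Alph k)
  | [], y => grp k ++ (List.replicate y la ++ [le])
  | (x, j) :: bs, y => grp k ++ (List.replicate x la ++ lt j :: W k bs y)

/-- Without markers. -/
def V (k : ℕ) : List (ℕ × Fin k) → ℕ → List (Alph k)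
  | [], y => List.replicate y la ++ [le]
  | (x, j) :: bs, y => List.replicate x la ++ lt j :: V k bs y

def nv : List (ℕ × Fin k) → ℕ → ℕ
  | [], y => y
  | (x, _) :: _, _ => x

def nextOk (o : Option ℕ) : List (ℕ × Fin k) → Prop
  | [] => o = none
  | (_, j) :: _ => o = some (R.src j)

/-- There is an error. -/
def Err : List (ℕ × Fin k) → ℕ → Prop
  | [], _ => False
  | (x, j) :: bs, y => ¬ Rel R j x (nv bs y) ∨ ¬ nextOk R (R.o j) bs ∨ Err bs y

theorem grp_isM (k : ℕ) : ∀ x ∈ grp k, IsM x := by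
  intro x hx
  simp only [grp, List.mem_map] at hx
  obtain ⟨j, -, rfl⟩ := hx
  exact ⟨j, rfl⟩

theorem la_not {k : ℕ} : ¬ IsM (la : Alph k) := by rintro ⟨j, hj⟩; cases hj
theorem le_not {k : ℕ} : ¬ IsM (le : Alph k) := by rintro ⟨j, hj⟩; cases hj
theorem lt_not {k : ℕ} (i : Fin k) : ¬ IsM (lt i : Alph k) := by rintro ⟨j, hj⟩; cases hj

theorem del_V (bs : List (ℕ × Fin k)) (y : ℕ) : Del IsM (V k bs y) (W k bs y) := by
  induction bs with
  | nil => exact (Del.nil_of (grp_isM k)).append (Del.refl _)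
  | cons b bs ih =>
    obtain ⟨x, j⟩ := b
    exact (Del.nil_of (grp_isM k)).append ((Del.refl _).append (Del.keep _ ih))

variable {R}

theorem head_lt {bs : List (ℕ × Fin k)} {y : ℕ} :
    ∃ c v, V k bs y = List.replicate (nv bs y) la ++ c :: v ∧
      ((bs = [] ∧ c = le) ∨ ∃ x i bs', bs = (x, i) :: bs' ∧ c = lt i) := by
  rcases bs with _ | ⟨⟨x, i⟩, bs⟩
  · exact ⟨le, [], rfl, Or.inl ⟨rfl, rfl⟩⟩
  · exact ⟨lt i, V k bs y, rfl, Or.inr ⟨x, i, bs, rfl, rfl⟩⟩

/-- The checking phase. -/
theorem check_iff (hs : ∀ j, R.s j ≤ B) (hr : ∀ j, R.r j ≤ B) (j : Fin k) (x n : ℕ)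
    (bs : List (ℕ × Fin k)) (c : Alph k) (v : List (Alph k))
    (hc : (bs = [] ∧ c = le) ∨ ∃ x i bs', bs = (x, i) :: bs' ∧ c = lt i) :
    (rn R B (.up j (mkF B 0), 0) (List.replicate x la ++ lt j :: (List.replicate n la ++ c :: v))).1
      = .acc ↔ ¬ (Rel R j x n ∧ nextOk R (R.o j) bs) := by
  have hlt := Nat.mod_lt x (Nat.lt_of_le_of_lt (Nat.zero_le _) (R.hs j))
  have hlt2 := Nat.mod_lt n (Nat.lt_of_le_of_lt (Nat.zero_le _) (R.hr j))
  have hb1 := hs j
  have hb2 := hr j
  rw [rn_append, rn_up hs j x 0 0 (Nat.lt_of_le_of_lt (Nat.zero_le _) (R.hs j)), rn_cons, next_eq]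
  simp only [stp, lt, if_true, Nat.zero_add, mkF_val (show x % R.s j ≤ B by omega)]
  by_cases h1 : x % R.s j = R.s0 j
  swap
  · simp only [if_neg h1]
    rw [rn_acc]
    simp [Rel, h1]
  simp only [if_pos h1]
  rw [rn_append, rn_down hr j n 0 _ (Nat.lt_of_le_of_lt (Nat.zero_le _) (R.hr j))]
  simp only [Nat.zero_add]
  by_cases h2 : n / R.r j ≤ x / R.s j
  swap
  · rw [if_neg h2, rn_acc]
    simp only [true_iff, not_and]
    rintro ⟨-, -, h3⟩
    omega
  rw [if_pos h2, rn_cons, next_eq]
  have key : ∀ (P : Prop) [Decidable P] (q : ℕ), nextOk R (R.o j) bs = P →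
      ((rn R B (if decide (x / R.s j - n / R.r j = 0) = true ∧ n % R.r j = R.r0 j ∧ P
        then (.dead, q) else (.acc, q)) v).1 = .acc ↔
        ¬ (Rel R j x n ∧ nextOk R (R.o j) bs)) := by
    intro P _ q hP
    by_cases h3 : decide (x / R.s j - n / R.r j = 0) = true ∧ n % R.r j = R.r0 j ∧ P
    · rw [if_pos h3, rn_dead]
      simp only [reduceCtorEq, false_iff, not_not]
      obtain ⟨h4, h5, h6⟩ := h3
      have h4' : x / R.s j - n / R.r j = 0 := by simpa using h4
      exact ⟨⟨h1, h5, by omega⟩, by rw [hP]; exact h6⟩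
    · rw [if_neg h3, rn_acc]
      simp only [true_iff]
      rintro ⟨⟨-, h5, h6⟩, h7⟩
      exact h3 ⟨by simp [h6], h5, by rw [← hP]; exact h7⟩
  rcases hc with ⟨rfl, rfl⟩ | ⟨x', i, bs', rfl, rfl⟩
  · simp only [stp, le, mkF_val (show n % R.r j ≤ B by omega)]
    have := key (R.o j = none) (x / R.s j - n / R.r j) rfl
    rw [← this]
    split_ifs <;> rfl
  · simp only [stp, lt, mkF_val (show n % R.r j ≤ B by omega)]
    have := key (R.o j = some (R.src i)) (x / R.s j - n / R.r j) rfl
    rw [← this]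
    split_ifs <;> rfl

/-- Completeness. -/
theorem exists_of_err (hs : ∀ j, R.s j ≤ B) (hr : ∀ j, R.r j ≤ B) (y : ℕ) :
    ∀ bs : List (ℕ × Fin k), Err R bs y →
      ∃ v, Del IsM v (W k bs y) ∧ (rn R B (.search, 0) v).1 = .acc := by
  intro bs
  induction bs with
  | nil => intro h; exact h.elim
  | cons b bs ih =>
    obtain ⟨x, j⟩ := b
    intro h
    by_cases h1 : Rel R j x (nv bs y) ∧ nextOk R (R.o j) bs
    · have h2 : Err R bs y := by
        rcases h with h | h | h
        · exact absurd h1.1 h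
        · exact absurd h1.2 h
        · exact h
      obtain ⟨v, hv, ha⟩ := ih h2
      refine ⟨List.replicate x la ++ lt j :: v, ?_, ?_⟩
      · exact (Del.nil_of (grp_isM k)).append ((Del.refl _).append (Del.keep _ hv))
      · rw [rn_append, rn_search_a, rn_cons, next_search_t]
        exact ha
    · refine ⟨[lm j] ++ (List.replicate x la ++ lt j :: V k bs y), ?_, ?_⟩
      · refine (Del.single (grp_isM k) ?_).append ((Del.refl _).append (Del.keep _ (del_V bs y)))
        simp [grp]
      · rw [List.singleton_append, rn_cons, next_search_m]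
        obtain ⟨c, v, hv, hc⟩ := head_lt (k := k) (bs := bs) (y := y)
        rw [hv]
        exact (check_iff hs hr j x _ bs c v hc).2 h1

/-- A word consisting of markers cannot be read after a marker. -/
theorem rn_markers {g : List (Alph k)} (hg : ∀ x ∈ g, IsM x) (q : St k B) (c : ℕ)
    (hq : (∃ i ρ, q = .up i ρ) ∨ ∃ i ρ, q = .down i ρ) (w : List (Alph k))
    (ha : (rn R B (q, c) (g ++ w)).1 = .acc) : g = [] := by
  rcases g with _ | ⟨x, g⟩
  · rfl
  · exfalso
    obtain ⟨j, rfl⟩ := hg x (by simp)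
    rw [List.cons_append, rn_cons] at ha
    rcases hq with ⟨i, ρ, rfl⟩ | ⟨i, ρ, rfl⟩
    · rw [next_up_m, rn_dead] at ha
      cases ha
    · rw [next_down_m, rn_dead] at ha
      cases ha

/-- A form of deletions of `W`. -/
theorem del_W {bs : List (ℕ × Fin k)} {y : ℕ} {v : List (Alph k)} (h : Del IsM v (W k bs y)) :
    ∃ g c w', (∀ x ∈ g, IsM x) ∧ v = g ++ (List.replicate (nv bs y) la ++ c :: w') ∧
      ((bs = [] ∧ c = le ∧ w' = []) ∨
        ∃ x i bs', bs = (x, i) :: bs' ∧ c = lt i ∧ Del IsM w' (W k bs' y)) := by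
  rcases bs with _ | ⟨⟨x, i⟩, bs⟩
  · obtain ⟨g, v', rfl, h1, h2⟩ := Del.split h
    have h3 := Del.eq_of_not h2 (by
      intro x hx
      simp only [List.mem_append, List.mem_replicate, List.mem_singleton] at hx
      rcases hx with ⟨-, rfl⟩ | rfl
      · exact la_not
      · exact le_not)
    subst h3
    exact ⟨g, le, [], h1.all (grp_isM k), rfl, Or.inl ⟨rfl, rfl, rfl⟩⟩
  · obtain ⟨g, v', rfl, h1, h2⟩ := Del.split h
    obtain ⟨v₁, v₂, rfl, h3, h4⟩ := Del.split h2
    have h5 := Del.eq_of_not h3 (by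
      intro x hx
      obtain ⟨-, rfl⟩ := List.mem_replicate.1 hx
      exact la_not)
    subst h5
    cases h4 with
    | keep _ h6 =>
      exact ⟨g, lt i, _, h1.all (grp_isM k), rfl, Or.inr ⟨x, i, bs, rfl, rfl, h6⟩⟩
    | drop _ ha _ => exact absurd ha (lt_not i)

/-- Soundness. -/
theorem err_of_acc (hs : ∀ j, R.s j ≤ B) (hr : ∀ j, R.r j ≤ B) (y : ℕ) :
    ∀ (bs : List (ℕ × Fin k)) (v : List (Alph k)), Del IsM v (W k bs y) →
      (rn R B (.search, 0) v).1 = .acc → Err R bs y := by
  intro bs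
  induction bs with
  | nil =>
    intro v hv ha
    obtain ⟨g, c, w', hg, rfl, h⟩ := del_W hv
    rcases h with ⟨-, rfl, rfl⟩ | ⟨x, i, bs', h, -⟩
    swap
    · cases h
    exfalso
    rcases g with _ | ⟨z, g⟩
    · rw [List.nil_append, rn_append, rn_search_a, rn_cons, next_search_e, rn_nil] at ha
      cases ha
    · obtain ⟨j, rfl⟩ := hg z (by simp)
      rw [List.cons_append, rn_cons, next_search_m] at ha
      have := rn_markers (fun x hx => hg x (by simp [hx])) _ _ (Or.inl ⟨_, _, rfl⟩) _ ha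
      subst this
      rw [List.nil_append, rn_append,
        rn_up hs j _ 0 0 (Nat.lt_of_le_of_lt (Nat.zero_le _) (R.hs j)), rn_cons, next_eq] at ha
      simp only [stp, le, rn_nil] at ha
      cases ha
  | cons b bs ih =>
    obtain ⟨x, j⟩ := b
    intro v hv ha
    obtain ⟨g, c, w', hg, rfl, h⟩ := del_W hv
    rcases h with ⟨h, -⟩ | ⟨x', i, bs', h, rfl, hw'⟩
    · cases h
    simp only [List.cons.injEq, Prod.mk.injEq] at h
    obtain ⟨⟨rfl, rfl⟩, rfl⟩ := h
    rcases g with _ | ⟨z, g⟩
    · rw [List.nil_append, rn_append, rn_search_a, rn_cons, next_search_t] at ha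
      exact Or.inr (Or.inr (ih w' hw' ha))
    · obtain ⟨i, rfl⟩ := hg z (by simp)
      rw [List.cons_append, rn_cons, next_search_m] at ha
      have := rn_markers (fun x hx => hg x (by simp [hx])) _ _ (Or.inl ⟨_, _, rfl⟩) _ ha
      subst this
      rw [List.nil_append] at ha
      by_cases hij : j = i
      swap
      · exfalso
        rw [rn_append,
          rn_up hs i _ 0 0 (Nat.lt_of_le_of_lt (Nat.zero_le _) (R.hs i)), rn_cons, next_eq] at ha
        simp only [stp, lt, if_neg hij, rn_dead] at ha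
        cases ha
      subst hij
      obtain ⟨g2, c2, w2, hg2, rfl, h⟩ := del_W hw'
      have hg2' : g2 = [] ∨ ¬ Rel R j x (nv bs y) := by
        by_cases h1 : x % R.s j = R.s0 j
        · left
          have hlt := Nat.mod_lt x (Nat.lt_of_le_of_lt (Nat.zero_le _) (R.hs j))
          have hb1 := hs j
          rw [rn_append,
            rn_up hs j _ 0 0 (Nat.lt_of_le_of_lt (Nat.zero_le _) (R.hs j)), rn_cons, next_eq] at ha
          simp only [stp, lt, if_true, Nat.zero_add, nv,
            mkF_val (show x % R.s j ≤ B by omega), if_pos h1] at ha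
          exact rn_markers hg2 _ _ (Or.inr ⟨_, _, rfl⟩) _ ha
        · right
          rintro ⟨h2, -⟩
          exact h1 h2
      rcases hg2' with rfl | hg2'
      · rw [List.nil_append] at ha
        have h2 : ((bs = [] ∧ c2 = le) ∨ ∃ x i bs', bs = (x, i) :: bs' ∧ c2 = lt i) := by
          rcases h with ⟨h, h', -⟩ | ⟨x', i, bs', h, h', -⟩
          · exact Or.inl ⟨h, h'⟩
          · exact Or.inr ⟨x', i, bs', h, h'⟩
        have h3 := (check_iff hs hr j x (nv bs y) bs c2 w2 h2).1 ha
        by_cases h4 : Rel R j x (nv bs y)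
        · exact Or.inr (Or.inl fun h5 => h3 ⟨h4, h5⟩)
        · exact Or.inl h4
      · exact Or.inl hg2'

/-- The words with an error are exactly the shuffles. -/
theorem mem_shuffle_iff (hs : ∀ j, R.s j ≤ B) (hr : ∀ j, R.r j ≤ B) (bs : List (ℕ × Fin k))
    (y : ℕ) : W k bs y ∈ shuffle {u | ∀ x ∈ u, IsM x} (mach R B false).lang ↔ Err R bs y := by
  have hfin : ∀ v, v ∈ (mach R B false).lang ↔ (rn R B (.search, 0) v).1 = .acc := by
    intro v
    have hni : ∀ (w : List (Alph k)) (c : St k B × ℕ), c.1 ≠ .ini → (rn R B c w).1 ≠ .ini := by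
      intro w
      induction w with
      | nil => intro c hc; exact hc
      | cons x w ih =>
        intro c hc
        rw [rn_cons]
        apply ih
        rw [next_eq]
        obtain ⟨q, c⟩ := c
        rcases q with _ | _ | ⟨j, ρ⟩ | ⟨j, ρ⟩ | _ | _ <;>
          rcases alph_cases x with rfl | rfl | rfl | ⟨i, rfl⟩ | ⟨i, rfl⟩ <;>
          simp only [stp] <;> (try split_ifs) <;> simp_all
    constructor
    · rintro (h | h)
      · exact h
      · exact absurd h (hni v (.search, 0) (by simp))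
    · intro h
      exact Or.inl h
  constructor
  · rintro ⟨u, hu, v, hv, hw⟩
    rw [shuf_iff] at hw
    exact err_of_acc hs hr y bs v (del_iff.1 ⟨u, hu, hw⟩) ((hfin v).1 hv)
  · intro h
    obtain ⟨v, hv, ha⟩ := exists_of_err hs hr y bs h
    obtain ⟨u, hu, hw⟩ := del_iff.2 hv
    exact ⟨u, hu, v, (hfin v).2 ha, shuf_iff.2 hw⟩

end Pool.Agent.Q325.Sh
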