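import Mathlib
import Pool.Agent.Q325.ShMach

set_option autoImplicit false

namespace Pool.Agent.Q325.Sh

variable {A : Type} [DecidableEq A]

/-- Lookups in functional tables. -/
theorem lookup_iff {α β : Type} [DecidableEq α] (t : List (α × β))
    (hf : ∀ p v v', (p, v) ∈ t → (p, v') ∈ t → v = v') (p : α) (v : β) :
    (t.find? fun r => decide (r.1 = p)).map Prod.snd = some v ↔ (p, v) ∈ t := by
  constructor
  · intro h
    rw [Option.map_eq_some_iff] at h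
    obtain ⟨⟨q, w⟩, h1, h2⟩ := h
    have h3 := List.find?_some h1
    have h4 := List.mem_of_find?_eq_some h1
    simp only [decide_eq_true_eq] at h3
    subst h3
    simp only at h2
    subst h2
    exact h4
  · intro h
    rcases h1 : t.find? fun r => decide (r.1 = p) with _ | ⟨q, w⟩
    · rw [List.find?_eq_none] at h1
      exact absurd (decide_eq_true (rfl : (p, v).1 = p)) (h1 _ h)
    · have h3 := List.find?_some h1
      have h4 := List.mem_of_find?_eq_some h1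
      simp only [decide_eq_true_eq] at h3
      rw [h1, Option.map_some]
      rw [h3] at h4
      rw [hf p v w h h4]

variable {k : ℕ} (R : Res k) (p0 : ℕ)

/-- The transitions of the automaton for the words that begin with a given number. -/
def tab (N : ℕ) : List ((ℕ × Alph k) × ℕ) :=
  (List.finRange k).map (fun i => ((i.val, lm i), i.val + 1)) ++
  (List.range N).map (fun i => ((k + i, la), k + i + 1)) ++
  ((List.finRange k).filter fun j => R.src j = p0).map (fun j => ((k + N, lt j), k + N + 1)) ++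
  (List.finRange k).map (fun i => ((k + N + 1 + i.val, lm i), k + N + 2 + i.val)) ++
  (List.finRange k).map (fun j => ((k + N + 1 + k, lt j), k + N + 1)) ++
  [((k + N + 1 + k, la), k + N + 1 + k), ((k + N + 1 + k, le), k + N + 2 + k)]

theorem mem_tab (N q q' : ℕ) (x : Alph k) : ((q, x), q') ∈ tab R p0 N ↔
    (∃ i : Fin k, q = i.val ∧ x = lm i ∧ q' = i.val + 1) ∨
    (∃ i < N, q = k + i ∧ x = la ∧ q' = k + i + 1) ∨
    (∃ j, R.src j = p0 ∧ q = k + N ∧ x = lt j ∧ q' = k + N + 1) ∨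
    (∃ i : Fin k, q = k + N + 1 + i.val ∧ x = lm i ∧ q' = k + N + 2 + i.val) ∨
    (∃ j, q = k + N + 1 + k ∧ x = lt j ∧ q' = k + N + 1) ∨
    (q = k + N + 1 + k ∧ x = la ∧ q' = k + N + 1 + k) ∨
    (q = k + N + 1 + k ∧ x = le ∧ q' = k + N + 2 + k) := by
  simp only [tab, List.mem_append, List.mem_map, List.mem_finRange, true_and, Prod.mk.injEq,
    List.mem_range, List.mem_filter, decide_eq_true_eq, List.mem_cons, List.not_mem_nil, or_false,
    or_assoc]
  constructor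
  · rintro (⟨i, ⟨rfl, rfl⟩, rfl⟩ | ⟨i, hi, ⟨rfl, rfl⟩, rfl⟩ | ⟨j, hj, ⟨rfl, rfl⟩, rfl⟩ |
      ⟨i, ⟨rfl, rfl⟩, rfl⟩ | ⟨j, ⟨rfl, rfl⟩, rfl⟩ | ⟨⟨rfl, rfl⟩, rfl⟩ | ⟨⟨rfl, rfl⟩, rfl⟩)
    · exact Or.inl ⟨i, rfl, rfl, rfl⟩
    · exact Or.inr (Or.inl ⟨i, hi, rfl, rfl, rfl⟩)
    · exact Or.inr (Or.inr (Or.inl ⟨j, hj, rfl, rfl, rfl⟩))
    · exact Or.inr (Or.inr (Or.inr (Or.inl ⟨i, rfl, rfl, rfl⟩)))
    · exact Or.inr (Or.inr (Or.inr (Or.inr (Or.inl ⟨j, rfl, rfl, rfl⟩))))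
    · exact Or.inr (Or.inr (Or.inr (Or.inr (Or.inr (Or.inl ⟨rfl, rfl, rfl⟩)))))
    · exact Or.inr (Or.inr (Or.inr (Or.inr (Or.inr (Or.inr ⟨rfl, rfl, rfl⟩)))))
  · rintro (⟨i, rfl, rfl, rfl⟩ | ⟨i, hi, rfl, rfl, rfl⟩ | ⟨j, hj, rfl, rfl, rfl⟩ |
      ⟨i, rfl, rfl, rfl⟩ | ⟨j, rfl, rfl, rfl⟩ | ⟨rfl, rfl, rfl⟩ | ⟨rfl, rfl, rfl⟩)
    · exact Or.inl ⟨i, ⟨rfl, rfl⟩, rfl⟩
    · exact Or.inr (Or.inl ⟨i, hi, ⟨rfl, rfl⟩, rfl⟩)
    · exact Or.inr (Or.inr (Or.inl ⟨j, hj, ⟨rfl, rfl⟩, rfl⟩))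
    · exact Or.inr (Or.inr (Or.inr (Or.inl ⟨i, ⟨rfl, rfl⟩, rfl⟩)))
    · exact Or.inr (Or.inr (Or.inr (Or.inr (Or.inl ⟨j, ⟨rfl, rfl⟩, rfl⟩))))
    · exact Or.inr (Or.inr (Or.inr (Or.inr (Or.inr (Or.inl ⟨⟨rfl, rfl⟩, rfl⟩)))))
    · exact Or.inr (Or.inr (Or.inr (Or.inr (Or.inr (Or.inr ⟨⟨rfl, rfl⟩, rfl⟩)))))

theorem lm_inj {k : ℕ} {i j : Fin k} (h : (lm i : Alph k) = lm j) : i = j := by
  simpa [lm] using h

theorem tab_fun (N : ℕ) (p : ℕ × Alph k) (v v' : ℕ) (h : (p, v) ∈ tab R p0 N)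
    (h' : (p, v') ∈ tab R p0 N) : v = v' := by
  obtain ⟨q, x⟩ := p
  rw [mem_tab] at h h'
  rcases h with ⟨i, h1, h2, rfl⟩ | ⟨i, hi, h1, h2, rfl⟩ | ⟨j, hj, h1, h2, rfl⟩ |
      ⟨i, h1, h2, rfl⟩ | ⟨j, h1, h2, rfl⟩ | ⟨h1, h2, rfl⟩ | ⟨h1, h2, rfl⟩ <;>
    rcases h' with ⟨i', h1', h2', rfl⟩ | ⟨i', hi', h1', h2', rfl⟩ | ⟨j', hj', h1', h2', rfl⟩ |
      ⟨i', h1', h2', rfl⟩ | ⟨j', h1', h2', rfl⟩ | ⟨h1', h2', rfl⟩ | ⟨h1', h2', rfl⟩ <;>
    first
    | omega
    | (exfalso; rw [h2] at h2'; revert h2'; simp [lm, la, lt, le]; done)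
    | (rw [h2] at h2'; have := lm_inj h2'; subst this; omega)

/-- The automaton for the words that begin with the number `N`. -/
def codeN (N : ℕ) : Code (Alph k) := (tab R p0 N, [some (k + N + 2 + k)], true)

theorem step_iff (N q q' : ℕ) (x : Alph k) :
    (codeN R p0 N).step (some q) x = some q' ↔ ((q, x), q') ∈ tab R p0 N :=
  lookup_iff _ (tab_fun R p0 N) _ _

/-- the block -/
def blk (b : ℕ × Fin k) : List (Alph k) := grp k ++ (List.replicate b.1 la ++ [lt b.2])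

theorem W_eq (bs : List (ℕ × Fin k)) (y : ℕ) :
    W k bs y = bs.flatMap blk ++ (grp k ++ (List.replicate y la ++ [le])) := by
  induction bs with
  | nil => rfl
  | cons b bs ih =>
    obtain ⟨x, j⟩ := b
    rw [W, ih, List.flatMap_cons, blk]
    simp

/-- The words from which a state can be reached. -/
def Pre (N q : ℕ) (w : List (Alph k)) : Prop :=
  (q ≤ k ∧ w = (grp k).take q) ∨
  (∃ i ≤ N, q = k + i ∧ w = grp k ++ List.replicate i la) ∨
  (∃ j bs, ∃ i ≤ k, R.src j = p0 ∧ q = k + N + 1 + i ∧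
    w = ((N, j) :: bs).flatMap blk ++ (grp k).take i) ∨
  (∃ j bs y, R.src j = p0 ∧ q = k + N + 1 + k ∧
    w = ((N, j) :: bs).flatMap blk ++ (grp k ++ List.replicate y la)) ∨
  (∃ j bs y, R.src j = p0 ∧ q = k + N + 2 + k ∧ w = W k ((N, j) :: bs) y)

theorem grp_length : (grp k).length = k := by simp [grp]

theorem grp_get (i : ℕ) (h : i < k) : (grp k)[i]'(by rw [grp_length]; exact h) = lm ⟨i, h⟩ := by
  simp [grp]

theorem grp_take (i : Fin k) : (grp k).take (i.val + 1) = (grp k).take i.val ++ [lm i] := by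
  rw [List.take_succ_eq_append_getElem (by rw [grp_length]; exact i.isLt), grp_get _ i.isLt]

theorem grp_take_k : (grp k).take k = grp k := by
  rw [List.take_of_length_le]
  rw [grp_length]

theorem pre_of (N : ℕ) (w : List (Alph k)) : ∀ q, w.foldl (codeN R p0 N).step (some 0) = some q →
    Pre R p0 N q w := by
  induction w using List.reverseRecOn with
  | nil =>
    intro q h
    simp only [List.foldl_nil, Option.some.injEq] at h
    subst h
    exact Or.inl ⟨Nat.zero_le _, rfl⟩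
  | append_singleton w x ih =>
    intro q h
    rw [List.foldl_append] at h
    simp only [List.foldl_cons, List.foldl_nil] at h
    rcases hq : w.foldl (codeN R p0 N).step (some 0) with _ | q1
    · rw [hq] at h
      simp [Code.step] at h
    rw [hq] at h
    have h1 : ((q1, x), q) ∈ tab R p0 N := (step_iff R p0 N q1 q x).1 h
    have h2 := ih q1 hq
    rw [mem_tab] at h1
    rcases h1 with ⟨i, rfl, rfl, rfl⟩ | ⟨i, hi, rfl, rfl, rfl⟩ | ⟨j, hj, rfl, rfl, rfl⟩ |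
      ⟨i, rfl, rfl, rfl⟩ | ⟨j, rfl, rfl, rfl⟩ | ⟨rfl, rfl, rfl⟩ | ⟨rfl, rfl, rfl⟩
    · -- first group
      have hi := i.isLt
      rcases h2 with ⟨-, rfl⟩ | ⟨i', -, h3, -⟩ | ⟨j', bs, i', -, -, h3, -⟩ |
        ⟨j', bs, y, -, h3, -⟩ | ⟨j', bs, y, -, h3, -⟩
      · exact Or.inl ⟨hi, (grp_take i).symm⟩
      all_goals omega
    · -- the letters `a` of the first number
      refine Or.inr (Or.inl ⟨i + 1, hi, by omega, ?_⟩)
      rcases h2 with ⟨h3, rfl⟩ | ⟨i', -, h3, rfl⟩ | ⟨j', bs, i', -, -, h3, -⟩ |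
        ⟨j', bs, y, -, h3, -⟩ | ⟨j', bs, y, -, h3, -⟩
      · have : i = 0 := by omega
        subst this
        rw [Nat.add_zero, grp_take_k]
        rfl
      · have : i' = i := by omega
        subst this
        rw [List.replicate_succ', List.append_assoc]
      all_goals omega
    · refine Or.inr (Or.inr (Or.inl ⟨j, [], 0, Nat.zero_le _, hj, by omega, ?_⟩))
      rcases h2 with ⟨h3, rfl⟩ | ⟨i', -, h3, rfl⟩ | ⟨j', bs, i', -, -, h3, -⟩ |
        ⟨j', bs, y, -, h3, -⟩ | ⟨j', bs, y, -, h3, -⟩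
      · have : N = 0 := by omega
        subst this
        rw [Nat.add_zero, grp_take_k]
        simp [blk]
      · have : i' = N := by omega
        subst this
        simp [blk]
      all_goals omega
    · have hi := i.isLt
      rcases h2 with ⟨h3, rfl⟩ | ⟨i', h4, h3, rfl⟩ | ⟨j', bs, i', h4, h5, h3, rfl⟩ |
        ⟨j', bs, y, -, h3, -⟩ | ⟨j', bs, y, -, h3, -⟩
      · omega
      · omega
      · have : i' = i.val := by omega
        subst this
        refine Or.inr (Or.inr (Or.inl ⟨j', bs, i.val + 1, hi, h5, by omega, ?_⟩))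
        rw [grp_take, ← List.append_assoc]
      all_goals omega
    · rcases h2 with ⟨h3, rfl⟩ | ⟨i', h4, h3, rfl⟩ | ⟨j', bs, i', h4, h5, h3, rfl⟩ |
        ⟨j', bs, y, h5, h3, rfl⟩ | ⟨j', bs, y, h5, h3, rfl⟩
      · omega
      · omega
      · have : i' = k := by omega
        subst this
        refine Or.inr (Or.inr (Or.inl ⟨j', bs ++ [(0, j)], 0, Nat.zero_le _, h5, by omega, ?_⟩))
        rw [grp_take_k, ← List.cons_append, List.flatMap_append]
        simp [blk]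
      · refine Or.inr (Or.inr (Or.inl ⟨j', bs ++ [(y, j)], 0, Nat.zero_le _, h5, by omega, ?_⟩))
        rw [← List.cons_append, List.flatMap_append]
        simp [blk]
      · omega
    · rcases h2 with ⟨h3, rfl⟩ | ⟨i', h4, h3, rfl⟩ | ⟨j', bs, i', h4, h5, h3, rfl⟩ |
        ⟨j', bs, y, h5, h3, rfl⟩ | ⟨j', bs, y, h5, h3, rfl⟩
      · omega
      · omega
      · have : i' = k := by omega
        subst this
        refine Or.inr (Or.inr (Or.inr (Or.inl ⟨j', bs, 1, h5, rfl, ?_⟩)))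
        rw [grp_take_k]
        simp
      · refine Or.inr (Or.inr (Or.inr (Or.inl ⟨j', bs, y + 1, h5, rfl, ?_⟩)))
        rw [List.replicate_succ']
        simp
      · omega
    · rcases h2 with ⟨h3, rfl⟩ | ⟨i', h4, h3, rfl⟩ | ⟨j', bs, i', h4, h5, h3, rfl⟩ |
        ⟨j', bs, y, h5, h3, rfl⟩ | ⟨j', bs, y, h5, h3, rfl⟩
      · omega
      · omega
      · have : i' = k := by omega
        subst this
        refine Or.inr (Or.inr (Or.inr (Or.inr ⟨j', bs, 0, h5, rfl, ?_⟩)))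
        rw [grp_take_k, W_eq]
        simp
      · refine Or.inr (Or.inr (Or.inr (Or.inr ⟨j', bs, y, h5, rfl, ?_⟩)))
        rw [W_eq]
        simp
      · omega

theorem step_some {N q q' : ℕ} {x : Alph k} (h : ((q, x), q') ∈ tab R p0 N) :
    (codeN R p0 N).step (some q) x = some q' := (step_iff R p0 N q q' x).2 h

theorem fold_grp₁ (N : ℕ) (i : ℕ) (h : i ≤ k) :
    ((grp k).take i).foldl (codeN R p0 N).step (some 0) = some i := by
  induction i with
  | zero => rfl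
  | succ i ih =>
    rw [grp_take ⟨i, h⟩, List.foldl_append, ih (by omega)]
    exact step_some R p0 ((mem_tab R p0 N _ _ _).2 (Or.inl ⟨⟨i, h⟩, rfl, rfl, rfl⟩))

theorem fold_grp₂ (N : ℕ) (i : ℕ) (h : i ≤ k) :
    ((grp k).take i).foldl (codeN R p0 N).step (some (k + N + 1)) = some (k + N + 1 + i) := by
  induction i with
  | zero => rfl
  | succ i ih =>
    rw [grp_take ⟨i, h⟩, List.foldl_append, ih (by omega)]
    exact step_some R p0 ((mem_tab R p0 N _ _ _).2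
      (Or.inr (Or.inr (Or.inr (Or.inl ⟨⟨i, h⟩, rfl, rfl, by simp only; omega⟩)))))

theorem fold_a₁ (N : ℕ) (i : ℕ) (h : i ≤ N) :
    (List.replicate i la).foldl (codeN R p0 N).step (some k) = some (k + i) := by
  induction i with
  | zero => rfl
  | succ i ih =>
    rw [List.replicate_succ', List.foldl_append, ih (by omega)]
    exact step_some R p0 ((mem_tab R p0 N _ _ _).2 (Or.inr (Or.inl ⟨i, h, rfl, rfl, rfl⟩)))

theorem fold_a₂ (N : ℕ) (i : ℕ) :
    (List.replicate i la).foldl (codeN R p0 N).step (some (k + N + 1 + k)) =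
      some (k + N + 1 + k) := by
  induction i with
  | zero => rfl
  | succ i ih =>
    rw [List.replicate_succ', List.foldl_append, ih]
    exact step_some R p0 ((mem_tab R p0 N _ _ _).2
      (Or.inr (Or.inr (Or.inr (Or.inr (Or.inr (Or.inl ⟨rfl, rfl, rfl⟩)))))))

theorem fold_W (N : ℕ) (bs : List (ℕ × Fin k)) (y : ℕ) :
    (W k bs y).foldl (codeN R p0 N).step (some (k + N + 1)) = some (k + N + 2 + k) := by
  induction bs with
  | nil =>
    have h1 := fold_grp₂ R p0 N k le_rfl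
    rw [grp_take_k] at h1
    rw [W, List.foldl_append, h1, List.foldl_append, fold_a₂]
    exact step_some R p0 ((mem_tab R p0 N _ _ _).2
      (Or.inr (Or.inr (Or.inr (Or.inr (Or.inr (Or.inr ⟨rfl, rfl, rfl⟩)))))))
  | cons b bs ih =>
    obtain ⟨x, j⟩ := b
    have h1 := fold_grp₂ R p0 N k le_rfl
    rw [grp_take_k] at h1
    rw [W, List.foldl_append, h1, List.foldl_append, fold_a₂, List.foldl_cons]
    rw [step_some R p0 ((mem_tab R p0 N _ _ _).2
      (Or.inr (Or.inr (Or.inr (Or.inr (Or.inl ⟨j, rfl, rfl, rfl⟩))))))]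
    exact ih

/-- The language of the automaton. -/
theorem mem_codeN (N : ℕ) (w : List (Alph k)) : w ∈ (codeN R p0 N).lang ↔
    ∃ j bs y, R.src j = p0 ∧ w = W k ((N, j) :: bs) y := by
  have h0 : w ∈ (codeN R p0 N).lang ↔
      w.foldl (codeN R p0 N).step (some 0) = some (k + N + 2 + k) := by
    simp [Code.lang, codeN]
  rw [h0]
  constructor
  · intro h
    rcases pre_of R p0 N w _ h with ⟨h3, rfl⟩ | ⟨i', h4, h3, rfl⟩ | ⟨j', bs, i', h4, h5, h3, rfl⟩ |
        ⟨j', bs, y, h5, h3, rfl⟩ | ⟨j', bs, y, h5, h3, rfl⟩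
    · omega
    · omega
    · omega
    · omega
    · exact ⟨j', bs, y, h5, rfl⟩
  · rintro ⟨j, bs, y, hj, rfl⟩
    have h1 := fold_grp₁ R p0 N k le_rfl
    rw [grp_take_k] at h1
    rw [W, List.foldl_append, h1, List.foldl_append, fold_a₁ R p0 N N le_rfl, List.foldl_cons]
    rw [step_some R p0 ((mem_tab R p0 N _ _ _).2
      (Or.inr (Or.inr (Or.inl ⟨j, hj, rfl, rfl, rfl⟩))))]
    exact fold_W R p0 N bs y

/-! ### The automaton for the equality problem -/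

/-- The letters that are neither markers nor the dollar. -/
def oth (k : ℕ) : List (Alph k) := la :: le :: (List.finRange k).map lt

/-- The transitions before the dollar. -/
def tab0 : List ((ℕ × Alph k) × ℕ) :=
  (grp k).map (fun x => ((0, x), 1)) ++ (oth k).map (fun x => ((0, x), 2)) ++
  (grp k).map (fun x => ((1, x), 1)) ++ (oth k).map (fun x => ((1, x), 2)) ++
  (grp k).map (fun x => ((2, x), 2)) ++ (oth k).map (fun x => ((2, x), 2))

/-- All transitions. -/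
def tab1 (N : ℕ) : List ((ℕ × Alph k) × ℕ) :=
  tab0 ++ ((0, ld), 3) :: (tab R p0 N).map (fun p => ((p.1.1 + 3, p.1.2), p.2 + 3))

/-- The code of the automaton for the words of markers and the words with a dollar that are not
`$ w` for a word `w` accepted by `codeN`. -/
def code1 (N : ℕ) : Code (Alph k) := (tab1 R p0 N, [some 2, some (k + N + 2 + k + 3)], false)

theorem mem_tab1 (N q q' : ℕ) (x : Alph k) : ((q, x), q') ∈ tab1 R p0 N ↔
    (q = 0 ∧ IsM x ∧ q' = 1) ∨ (q = 0 ∧ x ∈ oth k ∧ q' = 2) ∨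
    (q = 1 ∧ IsM x ∧ q' = 1) ∨ (q = 1 ∧ x ∈ oth k ∧ q' = 2) ∨
    (q = 2 ∧ IsM x ∧ q' = 2) ∨ (q = 2 ∧ x ∈ oth k ∧ q' = 2) ∨
    (q = 0 ∧ x = ld ∧ q' = 3) ∨
    (∃ p p', ((p, x), p') ∈ tab R p0 N ∧ q = p + 3 ∧ q' = p' + 3) := by
  have hg : ∀ x : Alph k, IsM x ↔ x ∈ grp k := by
    intro x
    simp only [IsM, grp, List.mem_map, List.mem_finRange, true_and]
    exact ⟨fun ⟨j, hj⟩ => ⟨j, hj.symm⟩, fun ⟨j, hj⟩ => ⟨j, hj.symm⟩⟩
  rw [hg]
  simp only [tab1, tab0, List.mem_append, List.mem_map, Prod.mk.injEq, List.mem_cons, or_assoc]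
  constructor
  · rintro (⟨y, hy, ⟨rfl, rfl⟩, rfl⟩ | ⟨y, hy, ⟨rfl, rfl⟩, rfl⟩ | ⟨y, hy, ⟨rfl, rfl⟩, rfl⟩ |
      ⟨y, hy, ⟨rfl, rfl⟩, rfl⟩ | ⟨y, hy, ⟨rfl, rfl⟩, rfl⟩ | ⟨y, hy, ⟨rfl, rfl⟩, rfl⟩ |
      ⟨⟨rfl, rfl⟩, rfl⟩ | ⟨⟨⟨p, y⟩, p'⟩, hp, ⟨rfl, rfl⟩, rfl⟩)
    · exact Or.inl ⟨rfl, hy, rfl⟩
    · exact Or.inr (Or.inl ⟨rfl, hy, rfl⟩)
    · exact Or.inr (Or.inr (Or.inl ⟨rfl, hy, rfl⟩))
    · exact Or.inr (Or.inr (Or.inr (Or.inl ⟨rfl, hy, rfl⟩)))
    · exact Or.inr (Or.inr (Or.inr (Or.inr (Or.inl ⟨rfl, hy, rfl⟩))))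
    · exact Or.inr (Or.inr (Or.inr (Or.inr (Or.inr (Or.inl ⟨rfl, hy, rfl⟩)))))
    · exact Or.inr (Or.inr (Or.inr (Or.inr (Or.inr (Or.inr (Or.inl ⟨rfl, rfl, rfl⟩))))))
    · exact Or.inr (Or.inr (Or.inr (Or.inr (Or.inr (Or.inr (Or.inr ⟨p, p', hp, rfl, rfl⟩))))))
  · rintro (⟨rfl, hy, rfl⟩ | ⟨rfl, hy, rfl⟩ | ⟨rfl, hy, rfl⟩ | ⟨rfl, hy, rfl⟩ | ⟨rfl, hy, rfl⟩ |
      ⟨rfl, hy, rfl⟩ | ⟨rfl, rfl, rfl⟩ | ⟨p, p', hp, rfl, rfl⟩)
    · exact Or.inl ⟨x, hy, ⟨rfl, rfl⟩, rfl⟩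
    · exact Or.inr (Or.inl ⟨x, hy, ⟨rfl, rfl⟩, rfl⟩)
    · exact Or.inr (Or.inr (Or.inl ⟨x, hy, ⟨rfl, rfl⟩, rfl⟩))
    · exact Or.inr (Or.inr (Or.inr (Or.inl ⟨x, hy, ⟨rfl, rfl⟩, rfl⟩)))
    · exact Or.inr (Or.inr (Or.inr (Or.inr (Or.inl ⟨x, hy, ⟨rfl, rfl⟩, rfl⟩))))
    · exact Or.inr (Or.inr (Or.inr (Or.inr (Or.inr (Or.inl ⟨x, hy, ⟨rfl, rfl⟩, rfl⟩)))))
    · exact Or.inr (Or.inr (Or.inr (Or.inr (Or.inr (Or.inr (Or.inl ⟨⟨rfl, rfl⟩, rfl⟩))))))
    · exact Or.inr (Or.inr (Or.inr (Or.inr (Or.inr (Or.inr (Or.inr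
        ⟨((p, x), p'), hp, ⟨rfl, rfl⟩, rfl⟩))))))

theorem alph_kinds (x : Alph k) : IsM x ∨ x ∈ oth k ∨ x = ld := by
  rcases alph_cases x with rfl | rfl | rfl | ⟨i, rfl⟩ | ⟨i, rfl⟩
  · exact Or.inr (Or.inl (by simp [oth, la]))
  · exact Or.inr (Or.inl (by simp [oth, le]))
  · exact Or.inr (Or.inr rfl)
  · exact Or.inr (Or.inl (by simp [oth, lt]))
  · exact Or.inl ⟨i, rfl⟩

theorem not_oth_of_isM {x : Alph k} (h : IsM x) : x ∉ oth k := by
  obtain ⟨j, rfl⟩ := h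
  simp [oth, lm, la, le, lt]

theorem ld_not_isM : ¬ IsM (ld : Alph k) := by rintro ⟨j, hj⟩; cases hj

theorem ld_not_oth : (ld : Alph k) ∉ oth k := by simp [oth, ld, la, le, lt]

theorem tab1_fun (N : ℕ) (p : ℕ × Alph k) (v v' : ℕ) (h : (p, v) ∈ tab1 R p0 N)
    (h' : (p, v') ∈ tab1 R p0 N) : v = v' := by
  obtain ⟨q, x⟩ := p
  rw [mem_tab1] at h h'
  rcases h with ⟨h1, h2, rfl⟩ | ⟨h1, h2, rfl⟩ | ⟨h1, h2, rfl⟩ | ⟨h1, h2, rfl⟩ | ⟨h1, h2, rfl⟩ |
      ⟨h1, h2, rfl⟩ | ⟨h1, h2, rfl⟩ | ⟨p, p', h2, h1, rfl⟩ <;>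
    rcases h' with ⟨h1', h2', rfl⟩ | ⟨h1', h2', rfl⟩ | ⟨h1', h2', rfl⟩ | ⟨h1', h2', rfl⟩ |
      ⟨h1', h2', rfl⟩ | ⟨h1', h2', rfl⟩ | ⟨h1', h2', rfl⟩ | ⟨r, r', h2', h1', rfl⟩ <;>
    first
    | omega
    | exact absurd h2' (not_oth_of_isM h2)
    | exact absurd h2 (not_oth_of_isM h2')
    | (exfalso; rw [h2'] at h2; exact ld_not_isM h2)
    | (exfalso; rw [h2'] at h2; exact ld_not_oth h2)
    | (exfalso; rw [h2] at h2'; exact ld_not_isM h2')
    | (exfalso; rw [h2] at h2'; exact ld_not_oth h2')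
    | (have hpr : p = r := by omega
       subst hpr
       rw [tab_fun R p0 N _ _ _ h2 h2'])

theorem step1_iff (N q q' : ℕ) (x : Alph k) :
    (code1 R p0 N).step (some q) x = some q' ↔ ((q, x), q') ∈ tab1 R p0 N :=
  lookup_iff _ (tab1_fun R p0 N) _ _

theorem step1_some {N q q' : ℕ} {x : Alph k} (h : ((q, x), q') ∈ tab1 R p0 N) :
    (code1 R p0 N).step (some q) x = some q' := (step1_iff R p0 N q q' x).2 h

theorem step1_none {N q : ℕ} {x : Alph k} (h : ∀ q', ((q, x), q') ∉ tab1 R p0 N) :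
    (code1 R p0 N).step (some q) x = none := by
  rcases h1 : (code1 R p0 N).step (some q) x with _ | q'
  · rfl
  · exact absurd ((step1_iff R p0 N q q' x).1 h1) (h q')

theorem fold_none (D : Code (Alph k)) (w : List (Alph k)) : w.foldl D.step none = none := by
  induction w with
  | nil => rfl
  | cons x w ih => exact ih

/-- In the copy of the first automaton. -/
theorem fold_copy (N : ℕ) (w : List (Alph k)) : ∀ q : Option ℕ,
    w.foldl (code1 R p0 N).step (q.map (· + 3)) =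
      (w.foldl (codeN R p0 N).step q).map (· + 3) := by
  induction w with
  | nil => intro q; rfl
  | cons x w ih =>
    intro q
    rw [List.foldl_cons, List.foldl_cons, ← ih]
    congr 1
    rcases q with _ | q
    · rfl
    rw [Option.map_some]
    rcases h : (codeN R p0 N).step (some q) x with _ | q'
    · rw [Option.map_none]
      apply step1_none
      intro q' hq'
      rw [mem_tab1] at hq'
      rcases hq' with ⟨h1, -⟩ | ⟨h1, -⟩ | ⟨h1, -⟩ | ⟨h1, -⟩ | ⟨h1, -⟩ | ⟨h1, -⟩ | ⟨h1, -⟩ |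
        ⟨p, p', h2, h1, rfl⟩
      any_goals omega
      have : p = q := by omega
      subst this
      have := step_some R p0 h2
      rw [h] at this
      cases this
    · rw [Option.map_some]
      apply step1_some
      rw [mem_tab1]
      have h2 : ((q, x), q') ∈ tab R p0 N := (step_iff R p0 N q q' x).1 h
      exact Or.inr (Or.inr (Or.inr (Or.inr (Or.inr (Or.inr (Or.inr ⟨q, q', h2, rfl, rfl⟩))))))

open scoped Classical in
theorem fold_two (N : ℕ) (w : List (Alph k)) :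
    w.foldl (code1 R p0 N).step (some 2) = if (ld : Alph k) ∈ w then none else some 2 := by
  induction w with
  | nil => simp
  | cons x w ih =>
    rw [List.foldl_cons]
    rcases alph_kinds x with h | h | h
    · rw [step1_some R p0 ((mem_tab1 R p0 N 2 2 x).2
        (Or.inr (Or.inr (Or.inr (Or.inr (Or.inl ⟨rfl, h, rfl⟩)))))), ih]
      have : (ld : Alph k) ≠ x := fun hh => ld_not_isM (hh ▸ h)
      simp [this]
    · rw [step1_some R p0 ((mem_tab1 R p0 N 2 2 x).2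
        (Or.inr (Or.inr (Or.inr (Or.inr (Or.inr (Or.inl ⟨rfl, h, rfl⟩))))))), ih]
      have : (ld : Alph k) ≠ x := fun hh => ld_not_oth (hh ▸ h)
      simp [this]
    · subst h
      rw [step1_none, fold_none]
      · simp
      · intro q' hq'
        rw [mem_tab1] at hq'
        rcases hq' with ⟨h1, -⟩ | ⟨h1, -⟩ | ⟨h1, -⟩ | ⟨h1, -⟩ | ⟨h1, h2, -⟩ | ⟨h1, h2, -⟩ |
          ⟨h1, -⟩ | ⟨p, p', h2, h1, rfl⟩
        any_goals omega
        · exact ld_not_isM h2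
        · exact ld_not_oth h2

theorem fold_one (N : ℕ) (w : List (Alph k)) :
    (w.foldl (code1 R p0 N).step (some 1) = some 1 ∧ (∀ x ∈ w, IsM x)) ∨
    (w.foldl (code1 R p0 N).step (some 1) = some 2 ∧ ¬ (∀ x ∈ w, IsM x) ∧ (ld : Alph k) ∉ w) ∨
    (w.foldl (code1 R p0 N).step (some 1) = none ∧ (ld : Alph k) ∈ w) := by
  induction w with
  | nil => exact Or.inl ⟨rfl, by simp⟩
  | cons x w ih =>
    rw [List.foldl_cons]
    rcases alph_kinds x with h | h | h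
    · rw [step1_some R p0 ((mem_tab1 R p0 N 1 1 x).2 (Or.inr (Or.inr (Or.inl ⟨rfl, h, rfl⟩))))]
      have hx : (ld : Alph k) ≠ x := fun hh => ld_not_isM (hh ▸ h)
      rcases ih with ⟨h1, h2⟩ | ⟨h1, h2, h3⟩ | ⟨h1, h2⟩
      · exact Or.inl ⟨h1, by simp only [List.mem_cons, forall_eq_or_imp]; exact ⟨h, h2⟩⟩
      · refine Or.inr (Or.inl ⟨h1, ?_, by simp [hx, h3]⟩)
        intro h4
        exact h2 fun y hy => h4 y (List.mem_cons_of_mem _ hy)
      · exact Or.inr (Or.inr ⟨h1, by simp [h2]⟩)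
    · rw [step1_some R p0 ((mem_tab1 R p0 N 1 2 x).2
        (Or.inr (Or.inr (Or.inr (Or.inl ⟨rfl, h, rfl⟩))))), fold_two]
      have hx : (ld : Alph k) ≠ x := fun hh => ld_not_oth (hh ▸ h)
      by_cases h1 : (ld : Alph k) ∈ w
      · exact Or.inr (Or.inr ⟨by simp [h1], by simp [h1]⟩)
      · refine Or.inr (Or.inl ⟨by simp [h1], ?_, by simp [hx, h1]⟩)
        intro h4
        exact not_oth_of_isM (h4 x (List.mem_cons_self ..)) h
    · subst h
      rw [step1_none, fold_none]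
      · exact Or.inr (Or.inr ⟨rfl, by simp⟩)
      · intro q' hq'
        rw [mem_tab1] at hq'
        rcases hq' with ⟨h1, -⟩ | ⟨h1, -⟩ | ⟨h1, h2, -⟩ | ⟨h1, h2, -⟩ | ⟨h1, h2, -⟩ | ⟨h1, h2, -⟩ |
          ⟨h1, -⟩ | ⟨p, p', h2, h1, rfl⟩
        any_goals omega
        · exact ld_not_isM h2
        · exact ld_not_oth h2

/-- The language of the second automaton. -/
theorem mem_code1 (N : ℕ) (w : List (Alph k)) : w ∈ (code1 R p0 N).lang ↔
    (∀ x ∈ w, IsM x) ∨ (ld ∈ w ∧ ¬ ∃ g ∈ (codeN R p0 N).lang, w = ld :: g) := by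
  have h0 : w ∈ (code1 R p0 N).lang ↔
      (w.foldl (code1 R p0 N).step (some 0) ≠ some 2 ∧
        w.foldl (code1 R p0 N).step (some 0) ≠ some (k + N + 2 + k + 3)) := by
    simp [Code.lang, code1]
  rw [h0]
  rcases w with _ | ⟨x, w⟩
  · simp
  rw [List.foldl_cons]
  rcases alph_kinds x with h | h | h
  · rw [step1_some R p0 ((mem_tab1 R p0 N 0 1 x).2 (Or.inl ⟨rfl, h, rfl⟩))]
    have hx : x ≠ (ld : Alph k) := fun hh => ld_not_isM (hh ▸ h)
    rcases fold_one R p0 N w with ⟨h1, h2⟩ | ⟨h1, h2, h3⟩ | ⟨h1, h2⟩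
    · rw [h1]
      simp only [ne_eq, Option.some.injEq]
      constructor
      · intro _
        left
        simp only [List.mem_cons, forall_eq_or_imp]
        exact ⟨h, h2⟩
      · intro _
        exact ⟨by omega, by omega⟩
    · rw [h1]
      simp only [ne_eq, not_true_eq_false, false_and, false_iff, not_or, List.mem_cons,
        forall_eq_or_imp, not_and, h3, or_false]
      exact ⟨fun _ => h2, fun h4 => absurd h4.symm hx⟩
    · rw [h1]
      simp only [ne_eq, reduceCtorEq, not_false_eq_true, and_self, true_iff]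
      right
      refine ⟨by simp [h2], ?_⟩
      rintro ⟨g, -, h4⟩
      simp only [List.cons.injEq] at h4
      exact hx h4.1
  · rw [step1_some R p0 ((mem_tab1 R p0 N 0 2 x).2 (Or.inr (Or.inl ⟨rfl, h, rfl⟩))), fold_two]
    have hx : x ≠ (ld : Alph k) := fun hh => ld_not_oth (hh ▸ h)
    by_cases h1 : (ld : Alph k) ∈ w
    · simp only [if_pos h1, ne_eq, reduceCtorEq, not_false_eq_true, and_self, true_iff]
      refine Or.inr ⟨by simp [h1], ?_⟩
      rintro ⟨g, -, h4⟩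
      simp only [List.cons.injEq] at h4
      exact hx h4.1
    · rw [if_neg h1]
      constructor
      · rintro ⟨h2, -⟩
        exact absurd rfl h2
      · rintro (h2 | ⟨h2, -⟩)
        · exact absurd h (not_oth_of_isM (h2 x (List.mem_cons_self ..)))
        · rcases List.mem_cons.1 h2 with h2 | h2
          · exact absurd h2.symm hx
          · exact absurd h2 h1
  · subst h
    rw [step1_some R p0 ((mem_tab1 R p0 N 0 3 ld).2
      (Or.inr (Or.inr (Or.inr (Or.inr (Or.inr (Or.inr (Or.inl ⟨rfl, rfl, rfl⟩))))))))]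
    have h1 := fold_copy R p0 N w (some 0)
    rw [show ((some 0 : Option ℕ).map (· + 3)) = some 3 from rfl] at h1
    rw [h1]
    have h2 : w ∈ (codeN R p0 N).lang ↔
        w.foldl (codeN R p0 N).step (some 0) = some (k + N + 2 + k) := by
      simp [Code.lang, codeN]
    simp only [List.cons.injEq, true_and, exists_eq_right', List.mem_cons, true_or,
      forall_eq_or_imp, ld_not_isM, false_and, false_or]
    rw [h2]
    rcases w.foldl (codeN R p0 N).step (some 0) with _ | q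
    · simp
    · simp

/-- The fixed automaton for the words of markers and the words with a dollar. -/
def code0 (k : ℕ) : Code (Alph k) :=
  ((grp k).map (fun x => ((0, x), 0)) ++ (oth k).map (fun x => ((0, x), 1)) ++
    (grp k).map (fun x => ((1, x), 1)) ++ (oth k).map (fun x => ((1, x), 1)), [some 1], false)

theorem code0_step (q q' : ℕ) (x : Alph k) : (code0 k).step (some q) x = some q' ↔
    (q = 0 ∧ IsM x ∧ q' = 0) ∨ (q = 0 ∧ x ∈ oth k ∧ q' = 1) ∨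
    (q = 1 ∧ IsM x ∧ q' = 1) ∨ (q = 1 ∧ x ∈ oth k ∧ q' = 1) := by
  have hg : ∀ x : Alph k, IsM x ↔ x ∈ grp k := by
    intro x
    simp only [IsM, grp, List.mem_map, List.mem_finRange, true_and]
    exact ⟨fun ⟨j, hj⟩ => ⟨j, hj.symm⟩, fun ⟨j, hj⟩ => ⟨j, hj.symm⟩⟩
  have hm : ∀ (q q' : ℕ) (x : Alph k), ((q, x), q') ∈ (code0 k).1 ↔
      (q = 0 ∧ IsM x ∧ q' = 0) ∨ (q = 0 ∧ x ∈ oth k ∧ q' = 1) ∨
      (q = 1 ∧ IsM x ∧ q' = 1) ∨ (q = 1 ∧ x ∈ oth k ∧ q' = 1) := by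
    intro q q' x
    rw [hg]
    simp only [code0, List.mem_append, List.mem_map, Prod.mk.injEq, or_assoc]
    constructor
    · rintro (⟨y, hy, ⟨rfl, rfl⟩, rfl⟩ | ⟨y, hy, ⟨rfl, rfl⟩, rfl⟩ | ⟨y, hy, ⟨rfl, rfl⟩, rfl⟩ |
        ⟨y, hy, ⟨rfl, rfl⟩, rfl⟩)
      · exact Or.inl ⟨rfl, hy, rfl⟩
      · exact Or.inr (Or.inl ⟨rfl, hy, rfl⟩)
      · exact Or.inr (Or.inr (Or.inl ⟨rfl, hy, rfl⟩))
      · exact Or.inr (Or.inr (Or.inr ⟨rfl, hy, rfl⟩))
    · rintro (⟨rfl, hy, rfl⟩ | ⟨rfl, hy, rfl⟩ | ⟨rfl, hy, rfl⟩ | ⟨rfl, hy, rfl⟩)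
      · exact Or.inl ⟨x, hy, ⟨rfl, rfl⟩, rfl⟩
      · exact Or.inr (Or.inl ⟨x, hy, ⟨rfl, rfl⟩, rfl⟩)
      · exact Or.inr (Or.inr (Or.inl ⟨x, hy, ⟨rfl, rfl⟩, rfl⟩))
      · exact Or.inr (Or.inr (Or.inr ⟨x, hy, ⟨rfl, rfl⟩, rfl⟩))
  rw [← hm]
  apply lookup_iff
  rintro ⟨q, x⟩ v v' h h'
  rw [hm] at h h'
  rcases h with ⟨h1, h2, rfl⟩ | ⟨h1, h2, rfl⟩ | ⟨h1, h2, rfl⟩ | ⟨h1, h2, rfl⟩ <;>
    rcases h' with ⟨h1', h2', rfl⟩ | ⟨h1', h2', rfl⟩ | ⟨h1', h2', rfl⟩ | ⟨h1', h2', rfl⟩ <;>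
    first
    | omega
    | exact absurd h2' (not_oth_of_isM h2)
    | exact absurd h2 (not_oth_of_isM h2')

theorem code0_none (q : ℕ) : (code0 k).step (some q) ld = none := by
  rcases h1 : (code0 k).step (some q) ld with _ | q'
  · rfl
  · rw [code0_step] at h1
    rcases h1 with ⟨-, h, -⟩ | ⟨-, h, -⟩ | ⟨-, h, -⟩ | ⟨-, h, -⟩
    · exact absurd h ld_not_isM
    · exact absurd h ld_not_oth
    · exact absurd h ld_not_isM
    · exact absurd h ld_not_oth

open scoped Classical in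
theorem code0_fold_one (w : List (Alph k)) :
    w.foldl (code0 k).step (some 1) = if (ld : Alph k) ∈ w then none else some 1 := by
  induction w with
  | nil => simp
  | cons x w ih =>
    rw [List.foldl_cons]
    rcases alph_kinds x with h | h | h
    · rw [(code0_step 1 1 x).2 (Or.inr (Or.inr (Or.inl ⟨rfl, h, rfl⟩))), ih]
      have : (ld : Alph k) ≠ x := fun hh => ld_not_isM (hh ▸ h)
      simp [this]
    · rw [(code0_step 1 1 x).2 (Or.inr (Or.inr (Or.inr ⟨rfl, h, rfl⟩))), ih]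
      have : (ld : Alph k) ≠ x := fun hh => ld_not_oth (hh ▸ h)
      simp [this]
    · subst h
      rw [code0_none, fold_none]
      simp

theorem mem_code0 (w : List (Alph k)) : w ∈ (code0 k).lang ↔ (∀ x ∈ w, IsM x) ∨ ld ∈ w := by
  have h0 : w ∈ (code0 k).lang ↔ w.foldl (code0 k).step (some 0) ≠ some 1 := by
    simp [Code.lang, code0]
  rw [h0]
  clear h0
  induction w with
  | nil => simp
  | cons x w ih =>
    rw [List.foldl_cons]
    rcases alph_kinds x with h | h | h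
    · rw [(code0_step 0 0 x).2 (Or.inl ⟨rfl, h, rfl⟩)]
      refine ih.trans ?_
      have : (ld : Alph k) ≠ x := fun hh => ld_not_isM (hh ▸ h)
      simp [this, h]
    · rw [(code0_step 0 1 x).2 (Or.inr (Or.inl ⟨rfl, h, rfl⟩)), code0_fold_one]
      have hx : (ld : Alph k) ≠ x := fun hh => ld_not_oth (hh ▸ h)
      have hx2 : ¬ IsM x := fun hh => not_oth_of_isM hh h
      by_cases h1 : (ld : Alph k) ∈ w
      · simp [h1]
      · simp [h1, hx, hx2]
    · subst h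
      rw [code0_none, fold_none]
      simp

/-- The fixed automaton for the words of markers. -/
def codeM (k : ℕ) : Code (Alph k) := ((grp k).map (fun x => ((0, x), 0)), [some 0], true)

theorem mem_codeM (w : List (Alph k)) : w ∈ (codeM k).lang ↔ ∀ x ∈ w, IsM x := by
  have hg : ∀ x : Alph k, IsM x ↔ x ∈ grp k := by
    intro x
    simp only [IsM, grp, List.mem_map, List.mem_finRange, true_and]
    exact ⟨fun ⟨j, hj⟩ => ⟨j, hj.symm⟩, fun ⟨j, hj⟩ => ⟨j, hj.symm⟩⟩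
  have h0 : w ∈ (codeM k).lang ↔ w.foldl (codeM k).step (some 0) = some 0 := by
    simp [Code.lang, codeM]
  have hst : ∀ x q', (codeM k).step (some 0) x = some q' ↔ IsM x ∧ q' = 0 := by
    intro x q'
    have h1 : ((0, x), q') ∈ (codeM k).1 ↔ IsM x ∧ q' = 0 := by
      rw [hg]
      simp only [codeM, List.mem_map, Prod.mk.injEq]
      constructor
      · rintro ⟨y, hy, ⟨-, rfl⟩, rfl⟩
        exact ⟨hy, rfl⟩
      · rintro ⟨hy, rfl⟩
        exact ⟨x, hy, by simp⟩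
    rw [← h1]
    apply lookup_iff
    rintro ⟨q, x⟩ v v' h h'
    simp only [codeM, List.mem_map, Prod.mk.injEq] at h h'
    obtain ⟨-, -, -, rfl⟩ := h
    obtain ⟨-, -, -, rfl⟩ := h'
    rfl
  rw [h0]
  clear h0
  induction w with
  | nil => simp
  | cons x w ih =>
    rw [List.foldl_cons]
    by_cases h : IsM x
    · rw [(hst x 0).2 ⟨h, rfl⟩]
      refine ih.trans ?_
      simp [h]
    · have h1 : (codeM k).step (some 0) x = none := by
        rcases h1 : (codeM k).step (some 0) x with _ | q'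
        · rfl
        · exact absurd ((hst x q').1 h1).1 h
      rw [h1, fold_none]
      simp [h]

end Pool.Agent.Q325.Sh
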