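import Mathlib
import Pool.Agent.Q325.ShCode
import Pool.Agent.H109R3.CF.Src

set_option autoImplicit false

namespace Pool.Agent.Q325.Sh

open Pool.Agent.H109R3.CF Pool.Agent.H502.PcSrc

theorem code_pos' (c : Bool × Bool → ℤ) : 0 < code c := code_pos c

/-- A fixed residue machine with an undecidable halting problem, with reduced residues. -/
theorem exists_tr' : ∃ (T : List Tr) (p0 : ℕ) (N : ℕ → ℕ),
    (∀ x ∈ T, x.2.2.1 < x.2.1 ∧ x.2.2.2.2.1 < x.2.2.2.1) ∧ Computable N ∧
    ¬ ComputablePred (fun n => HaltsT T (some p0) (N n)) := by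
  obtain ⟨Q, hQ, M, q0, N, _, hN, h⟩ := exists_sys
  have hf : Finite (RS M) := inferInstance
  let _ : Fintype (RS M) := Fintype.ofFinite _
  let D : DM (RS M) (Bool × Bool) := dm M q0 0
  let e : RS M → ℕ := fun p => (Fintype.equivFin (RS M) p : ℕ)
  have he : Function.Injective e := by
    intro x y hxy
    exact (Fintype.equivFin (RS M)).injective (Fin.ext hxy)
  refine ⟨allT D e, e (.d1 q0 (z0 M)), fun n => 2 ^ N n, ?_, ?_, ?_⟩
  · intro x hx
    obtain ⟨p, hp⟩ := (mem_allT D e x).1 hx
    unfold trs at hp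
    rw [List.mem_cons] at hp
    rcases hp with rfl | hp
    · exact ⟨(pr_prime _).pos, code_pos _⟩
    · rw [List.mem_map] at hp
      obtain ⟨i, hi, rfl⟩ := hp
      rw [List.mem_range] at hi
      have h1 := (pr_prime (D.reg p)).two_le
      refine ⟨by simp only; omega, ?_⟩
      simp only
      exact Nat.mul_lt_mul_of_pos_right (by omega) (code_pos _)
  · have h1 : Primrec (fun n : ℕ => 2 ^ n) := by
      have : Primrec₂ (fun _ n : ℕ => 2 ^ n) := by
        refine (Primrec.nat_rec (f := fun _ : ℕ => 1) (g := fun _ (p : ℕ × ℕ) => 2 * p.2)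
          (Primrec.const 1) ?_).of_eq ?_
        · exact (Primrec.nat_mul.comp (Primrec.const 2) (Primrec.snd.comp Primrec.snd))
        · intro a n
          induction n with
          | zero => rfl
          | succ n ih =>
            simp only at ih ⊢
            rw [ih, pow_succ]
            ring
      exact this.comp (Primrec.const 0) Primrec.id
    exact h1.to_comp.comp hN
  · intro hc
    apply h
    refine hc.of_eq ?_
    intro n
    have h1 := dm_halts_iff M q0 0 q0 (ini (N n))
    rw [← h1]
    have hcode : code (v4 (ini (N n) true) (ini (N n) false) 0 0) = 2 ^ N n := by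
      unfold code
      rw [Fintype.prod_prod_type]
      simp [v4, Pool.Agent.H502.PcSrc.ini, pr]
    have hnn : ∀ j, 0 ≤ v4 (ini (N n) true : ℤ) (ini (N n) false : ℤ) 0 0 j := by
      rintro ⟨a, b⟩
      cases a <;> cases b <;> simp [v4]
    constructor
    · intro hh
      exact halts_of D e he _ _ hh (some (.d1 q0 (z0 M))) _ hnn rfl hcode.symm
    · rintro ⟨k, hk⟩
      have := of_halts D e k _ _ hnn hk
      rw [hcode] at this
      exact this

/-- The residue machine of a list of transitions. -/
def resOf (T : List Tr) (hT : ∀ x ∈ T, x.2.2.1 < x.2.1 ∧ x.2.2.2.2.1 < x.2.2.2.1) :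
    Res T.length where
  src j := (T.get j).1
  s j := (T.get j).2.1
  s0 j := (T.get j).2.2.1
  r j := (T.get j).2.2.2.1
  r0 j := (T.get j).2.2.2.2.1
  o j := (T.get j).2.2.2.2.2
  hs j := (hT _ (List.get_mem ..)).1
  hr j := (hT _ (List.get_mem ..)).2

variable {T : List Tr} {hT : ∀ x ∈ T, x.2.2.1 < x.2.1 ∧ x.2.2.2.2.1 < x.2.2.2.1}

theorem noErr_of_halts {o : Option ℕ} {x : ℕ} (h : HaltsT T o x) : o = none ∨
    ∃ j bs y, o = some ((resOf T hT).src j) ∧ ¬ Err (resOf T hT) ((x, j) :: bs) y := by
  induction h with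
  | stop x => exact Or.inl rfl
  | step p s s0 r r0 o hm t _ ih =>
    right
    obtain ⟨j, hj⟩ := List.get_of_mem hm
    have e1 : (resOf T hT).src j = p := by simp only [resOf, hj]
    have e2 : (resOf T hT).s j = s := by simp only [resOf, hj]
    have e3 : (resOf T hT).s0 j = s0 := by simp only [resOf, hj]
    have e4 : (resOf T hT).r j = r := by simp only [resOf, hj]
    have e5 : (resOf T hT).r0 j = r0 := by simp only [resOf, hj]
    have e6 : (resOf T hT).o j = o := by simp only [resOf, hj]
    have hs : s0 < s := by rw [← e2, ← e3]; exact (resOf T hT).hs j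
    have hr : r0 < r := by rw [← e4, ← e5]; exact (resOf T hT).hr j
    have hrel : Rel (resOf T hT) j (s * t + s0) (r * t + r0) := by
      unfold Rel
      rw [e2, e3, e4, e5]
      refine ⟨?_, ?_, ?_⟩
      · rw [Nat.mul_add_mod, Nat.mod_eq_of_lt hs]
      · rw [Nat.mul_add_mod, Nat.mod_eq_of_lt hr]
      · rw [Nat.mul_add_div (by omega), Nat.mul_add_div (by omega), Nat.div_eq_of_lt hs,
          Nat.div_eq_of_lt hr]
    rcases ih with rfl | ⟨j', bs, y, h1, h2⟩
    · refine ⟨j, [], r * t + r0, by rw [e1], ?_⟩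
      rintro (h3 | h3 | h3)
      · exact h3 hrel
      · exact h3 e6
      · exact h3
    · refine ⟨j, (r * t + r0, j') :: bs, y, by rw [e1], ?_⟩
      rintro (h3 | h3 | h3)
      · exact h3 hrel
      · apply h3
        change (resOf T hT).o j = some ((resOf T hT).src j')
        rw [e6, h1]
      · exact h2 h3

theorem halts_of_noErr (y : ℕ) : ∀ (bs : List (ℕ × Fin T.length)) (x : ℕ) (j : Fin T.length),
    ¬ Err (resOf T hT) ((x, j) :: bs) y → HaltsT T (some ((resOf T hT).src j)) x := by
  intro bs
  induction bs with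
  | nil =>
    intro x j h
    unfold Err at h
    push Not at h
    obtain ⟨⟨h1, h2, h3⟩, h4, -⟩ := h
    have hm : ((resOf T hT).src j, (resOf T hT).s j, (resOf T hT).s0 j, (resOf T hT).r j,
      (resOf T hT).r0 j, (resOf T hT).o j) ∈ T := List.get_mem T j
    have h5 := HaltsT.step _ _ _ _ _ _ hm (x / (resOf T hT).s j) (by
      rw [show (resOf T hT).o j = none from h4]
      exact HaltsT.stop _)
    rwa [← h1, Nat.div_add_mod] at h5
  | cons b bs ih =>
    intro x j h
    obtain ⟨x', j'⟩ := b
    unfold Err at h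
    push Not at h
    obtain ⟨⟨h1, h2, h3⟩, h4, h5⟩ := h
    have hm : ((resOf T hT).src j, (resOf T hT).s j, (resOf T hT).s0 j, (resOf T hT).r j,
      (resOf T hT).r0 j, (resOf T hT).o j) ∈ T := List.get_mem T j
    have h5 := HaltsT.step _ _ _ _ _ _ hm (x / (resOf T hT).s j) (by
      rw [show (resOf T hT).o j = some ((resOf T hT).src j') from h4, h3, ← h2,
        Nat.div_add_mod]
      exact ih x' j' h5)
    rwa [← h1, Nat.div_add_mod] at h5

theorem halts_iff (p0 x : ℕ) : HaltsT T (some p0) x ↔
    ∃ j bs y, (resOf T hT).src j = p0 ∧ ¬ Err (resOf T hT) ((x, j) :: bs) y := by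
  constructor
  · intro h
    rcases noErr_of_halts (hT := hT) h with h | ⟨j, bs, y, h1, h2⟩
    · cases h
    · simp only [Option.some.injEq] at h1
      exact ⟨j, bs, y, h1.symm, h2⟩
  · rintro ⟨j, bs, y, rfl, h⟩
    exact halts_of_noErr y bs x j h

/-- The inclusion holds exactly if the machine does not stop. -/
theorem incl_iff {B : ℕ} (hs : ∀ j, (resOf T hT).s j ≤ B) (hr : ∀ j, (resOf T hT).r j ≤ B)
    (p0 N : ℕ) : (codeN (resOf T hT) p0 N).lang ⊆
      shuffle (codeM T.length).lang (mach (resOf T hT) B false).lang ↔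
      ¬ HaltsT T (some p0) N := by
  rw [halts_iff (hT := hT)]
  push Not
  have hM : (codeM T.length).lang = {u | ∀ x ∈ u, IsM x} := Set.ext fun w => mem_codeM w
  rw [hM]
  constructor
  · intro h j bs y hj
    exact (mem_shuffle_iff hs hr _ y).1 (h ((mem_codeN _ _ _ _).2 ⟨j, bs, y, hj, rfl⟩))
  · intro h w hw
    obtain ⟨j, bs, y, hj, rfl⟩ := (mem_codeN _ _ _ _).1 hw
    exact (mem_shuffle_iff hs hr _ y).2 (h j bs y hj)

/-- The second machine. -/
theorem mem_mach_true {k : ℕ} (R : Res k) (B : ℕ) (v : List (Alph k)) :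
    v ∈ (mach R B true).lang ↔ v = [] ∨ ∃ v' ∈ (mach R B false).lang, v = ld :: v' := by
  have key : ∀ w, (mach R B true).run w = rn R B (.ini, 0) w := fun w => rfl
  have key2 : ∀ w, (mach R B false).run w = rn R B (.search, 0) w := fun w => rfl
  have f1 : ∀ w, w ∈ (mach R B true).lang ↔ ((rn R B (.ini, 0) w).1 = .acc ∨
    (rn R B (.ini, 0) w).1 = .ini) := fun w => Iff.rfl
  have f2 : ∀ w, w ∈ (mach R B false).lang ↔ ((rn R B (.search, 0) w).1 = .acc ∨
    (rn R B (.search, 0) w).1 = .ini) := fun w => Iff.rfl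
  rw [f1]
  rcases v with _ | ⟨x, v⟩
  · simp [rn]
  · rw [rn_cons]
    have : (∃ v' ∈ (mach R B false).lang, x :: v = ld :: v') ↔
        (x = ld ∧ v ∈ (mach R B false).lang) := by
      constructor
      · rintro ⟨v', h1, h2⟩
        simp only [List.cons.injEq] at h2
        obtain ⟨rfl, rfl⟩ := h2
        exact ⟨rfl, h1⟩
      · rintro ⟨rfl, h⟩
        exact ⟨v, h, rfl⟩
    rw [this]
    simp only [reduceCtorEq, false_or]
    have hd : x ≠ ld → nx R B (.ini, 0) x = (.dead, 0) := by
      intro hx
      rcases alph_cases x with rfl | rfl | rfl | ⟨i, rfl⟩ | ⟨i, rfl⟩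
      · rfl
      · rfl
      · exact absurd rfl hx
      · rfl
      · rfl
    by_cases hx : x = ld
    · subst hx
      rw [f2]
      simp only [true_and]
      rfl
    · rw [hd hx, rn_dead]
      simp [hx]

theorem codeN_no_ld {k : ℕ} (R : Res k) (p0 N : ℕ) {w : List (Alph k)}
    (hw : w ∈ (codeN R p0 N).lang) : (ld : Alph k) ∉ w := by
  obtain ⟨j, bs, y, -, rfl⟩ := (mem_codeN R p0 N w).1 hw
  have hg : (ld : Alph k) ∉ grp k := fun h => ld_not_isM (grp_isM k _ h)
  have : ∀ (bs : List (ℕ × Fin k)), (ld : Alph k) ∉ W k bs y := by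
    intro bs
    induction bs with
    | nil =>
      intro h
      simp only [W, List.mem_append, List.mem_replicate, List.mem_singleton] at h
      rcases h with h | ⟨-, h⟩ | h
      · exact hg h
      · cases h
      · cases h
    | cons b bs ih =>
      obtain ⟨x, i⟩ := b
      intro h
      simp only [W, List.mem_append, List.mem_replicate, List.mem_cons] at h
      rcases h with h | ⟨-, h⟩ | h | h
      · exact hg h
      · cases h
      · cases h
      · exact ih h
  exact this _

/-- Equality reduces to inclusion. -/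
theorem eq_iff {k : ℕ} (R : Res k) (B p0 N : ℕ) :
    (code0 k).lang = shuffle (code1 R p0 N).lang (mach R B true).lang ↔
      (codeN R p0 N).lang ⊆ shuffle (codeM k).lang (mach R B false).lang := by
  constructor
  · intro h g hg
    have h1 : ld :: g ∈ (code0 k).lang := (mem_code0 _).2 (Or.inr (by simp))
    rw [h] at h1
    obtain ⟨u, hu, v, hv, hw⟩ := h1
    rw [shuf_iff] at hw
    have hcount := hw.count fun x => decide (x = ld)
    have hc0 : g.countP (fun x => decide (x = (ld : Alph k))) = 0 := by
      rw [List.countP_eq_zero]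
      intro x hx hx'
      simp only [decide_eq_true_eq] at hx'
      exact codeN_no_ld R p0 N hg (hx' ▸ hx)
    rw [List.countP_cons_of_pos (by simp), hc0] at hcount
    rcases (mem_mach_true R B v).1 hv with rfl | ⟨v', hv', rfl⟩
    · have := hw.eq_of_nil
      subst this
      rcases (mem_code1 R p0 N _).1 hu with h2 | ⟨-, h2⟩
      · exact absurd (h2 ld (by simp)) ld_not_isM
      · exact absurd ⟨g, hg, rfl⟩ h2
    · rw [List.countP_cons_of_pos (by simp)] at hcount
      have hu0 : (ld : Alph k) ∉ u := by
        intro hh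
        have := (List.countP_pos_iff (p := fun x => decide (x = (ld : Alph k)))).2
          ⟨ld, hh, by simp⟩
        omega
      have hu1 : ∀ x ∈ u, IsM x := by
        rcases (mem_code1 R p0 N _).1 hu with h2 | ⟨h2, -⟩
        · exact h2
        · exact absurd h2 hu0
      refine ⟨u, (mem_codeM u).2 hu1, v', hv', shuf_iff.2 ?_⟩
      cases hw with
      | left _ hw => exact absurd (List.mem_cons_self ..) hu0
      | right _ hw => exact hw
  · intro h
    apply Set.ext
    intro w
    rw [mem_code0]
    constructor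
    · intro hw
      by_cases h1 : w ∈ (code1 R p0 N).lang
      · exact ⟨w, h1, [], (mem_mach_true R B []).2 (Or.inl rfl), shuf_iff.2 (Shuf.nil_right w)⟩
      · rw [mem_code1] at h1
        push Not at h1
        obtain ⟨h2, h3⟩ := h1
        have h4 : ld ∈ w := by
          rcases hw with hw | hw
          · obtain ⟨x, hx, hx'⟩ := h2
            exact absurd (hw x hx) hx'
          · exact hw
        obtain ⟨g, hg, rfl⟩ := h3 h4
        obtain ⟨u, hu, v, hv, hw'⟩ := h hg
        refine ⟨u, (mem_code1 R p0 N u).2 (Or.inl ((mem_codeM u).1 hu)), ld :: v,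
          (mem_mach_true R B _).2 (Or.inr ⟨v, hv, rfl⟩), ?_⟩
        rw [shuf_iff] at hw' ⊢
        exact Shuf.right _ hw'
    · rintro ⟨u, hu, v, hv, hw⟩
      rw [shuf_iff] at hw
      have hcount := hw.count fun x => decide (x = ld)
      rcases (mem_mach_true R B v).1 hv with rfl | ⟨v', hv', rfl⟩
      · have := hw.eq_of_nil
        subst this
        rcases (mem_code1 R p0 N _).1 hu with h2 | ⟨h2, -⟩
        · exact Or.inl h2
        · exact Or.inr h2
      · right
        rw [List.countP_cons_of_pos (by simp)] at hcount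
        obtain ⟨x, hx, hx'⟩ := (List.countP_pos_iff (p := fun x => decide (x = (ld : Alph k)))
          (l := w)).1 (by omega)
        simp only [decide_eq_true_eq] at hx'
        exact hx' ▸ hx

/-! ### Computability -/

theorem tab_primrec {k : ℕ} (R : Res k) (p0 : ℕ) : Primrec (tab R p0) := by
  have hadd : Primrec₂ (fun a b : ℕ => a + b) := Primrec.nat_add
  have c : ∀ (m : ℕ), Primrec (fun N : ℕ => k + N + m) := fun m =>
    hadd.comp (hadd.comp (Primrec.const k) Primrec.id) (Primrec.const m)
  have c2 : ∀ (m : ℕ), Primrec (fun p : ℕ × Fin k => k + p.1 + m) := fun m =>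
    (c m).comp Primrec.fst
  have hval : Primrec (fun p : ℕ × Fin k => p.2.val) := Primrec.fin_val.comp Primrec.snd
  have hlt : Primrec (fun p : ℕ × Fin k => (lt p.2 : Alph k)) :=
    Primrec.sumInr.comp (Primrec.sumInl.comp Primrec.snd)
  have hlm : Primrec (fun p : ℕ × Fin k => (lm p.2 : Alph k)) :=
    Primrec.sumInr.comp (Primrec.sumInr.comp Primrec.snd)
  unfold tab
  refine Primrec.list_append.comp (Primrec.list_append.comp (Primrec.list_append.comp
    (Primrec.list_append.comp (Primrec.list_append.comp (Primrec.const _) ?_) ?_) ?_) ?_) ?_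
  · exact Primrec.list_map Primrec.list_range (Primrec.pair (Primrec.pair
      (hadd.comp (Primrec.const k) Primrec.snd) (Primrec.const _))
      (hadd.comp (hadd.comp (Primrec.const k) Primrec.snd) (Primrec.const 1)))
  · exact Primrec.list_map (Primrec.const _) (Primrec.pair (Primrec.pair
      ((c 0).comp Primrec.fst) hlt) ((c2 1)))
  · exact Primrec.list_map (Primrec.const _) (Primrec.pair (Primrec.pair
      (hadd.comp (c2 1) hval) hlm) (hadd.comp (c2 2) hval))
  · exact Primrec.list_map (Primrec.const _) (Primrec.pair (Primrec.pair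
      (hadd.comp (c2 1) (Primrec.const k)) hlt) (c2 1))
  · have h1 : Primrec (fun N : ℕ => k + N + 1 + k) := hadd.comp (c 1) (Primrec.const k)
    have h2 : Primrec (fun N : ℕ => k + N + 2 + k) := hadd.comp (c 2) (Primrec.const k)
    exact Primrec.list_cons.comp (Primrec.pair (Primrec.pair h1 (Primrec.const _)) h1)
      (Primrec.list_cons.comp (Primrec.pair (Primrec.pair h1 (Primrec.const _)) h2)
        (Primrec.const _))

theorem codeN_primrec {k : ℕ} (R : Res k) (p0 : ℕ) : Primrec (codeN R p0) := by
  have hadd : Primrec₂ (fun a b : ℕ => a + b) := Primrec.nat_add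
  have h2 : Primrec (fun N : ℕ => k + N + 2 + k) :=
    hadd.comp (hadd.comp (hadd.comp (Primrec.const k) Primrec.id) (Primrec.const 2))
      (Primrec.const k)
  exact Primrec.pair (tab_primrec R p0) (Primrec.pair (Primrec.list_cons.comp
    (Primrec.option_some.comp h2) (Primrec.const _)) (Primrec.const _))

theorem code1_primrec {k : ℕ} (R : Res k) (p0 : ℕ) : Primrec (code1 R p0) := by
  have hadd : Primrec₂ (fun a b : ℕ => a + b) := Primrec.nat_add
  have h2 : Primrec (fun N : ℕ => k + N + 2 + k + 3) :=
    hadd.comp (hadd.comp (hadd.comp (hadd.comp (Primrec.const k) Primrec.id) (Primrec.const 2))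
      (Primrec.const k)) (Primrec.const 3)
  have h3 : Primrec (tab1 R p0) := by
    unfold tab1
    refine Primrec.list_append.comp (Primrec.const _) (Primrec.list_cons.comp (Primrec.const _) ?_)
    refine Primrec.list_map (tab_primrec R p0) (Primrec.pair (Primrec.pair ?_ ?_) ?_)
    · exact hadd.comp (Primrec.fst.comp (Primrec.fst.comp Primrec.snd)) (Primrec.const 3)
    · exact Primrec.snd.comp (Primrec.fst.comp Primrec.snd)
    · exact hadd.comp (Primrec.snd.comp Primrec.snd) (Primrec.const 3)
  exact Primrec.pair h3 (Primrec.pair (Primrec.list_cons.comp (Primrec.const _)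
    (Primrec.list_cons.comp (Primrec.option_some.comp h2) (Primrec.const _))) (Primrec.const _))

theorem sum_bound (T : List Tr) : ∃ B : ℕ, ∀ x ∈ T, x.2.1 ≤ B ∧ x.2.2.2.1 ≤ B := by
  refine ⟨(T.map fun x => x.2.1 + x.2.2.2.1).sum, fun x hx => ?_⟩
  have := List.single_le_sum (fun _ _ => Nat.zero_le _) _
    (List.mem_map_of_mem (f := fun x : Tr => x.2.1 + x.2.2.2.1) hx)
  exact ⟨by omega, by omega⟩

/-- Undecidability of inclusion. -/
theorem inclusion : ∃ (k : ℕ) (D₁ : Code (Alph k)) (M : Machine (Alph k)), M.OneReversal ∧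
    ¬ ComputablePred (fun D : Code (Alph k) => D.lang ⊆ shuffle D₁.lang M.lang) := by
  obtain ⟨T, p0, N, hT, hN, h⟩ := exists_tr'
  obtain ⟨B, hB⟩ := sum_bound T
  have hs : ∀ j, (resOf T hT).s j ≤ B := fun j => (hB _ (List.get_mem ..)).1
  have hr : ∀ j, (resOf T hT).r j ≤ B := fun j => (hB _ (List.get_mem ..)).2
  refine ⟨T.length, codeM T.length, mach (resOf T hT) B false, mach_oneReversal _ _ _, ?_⟩
  intro hc
  apply h
  have h1 : ComputablePred (fun n => (codeN (resOf T hT) p0 (N n)).lang ⊆
      shuffle (codeM T.length).lang (mach (resOf T hT) B false).lang) :=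
    ComputablePred.computable_of_manyOneReducible
      (p := fun n => (codeN (resOf T hT) p0 (N n)).lang ⊆
        shuffle (codeM T.length).lang (mach (resOf T hT) B false).lang)
      ⟨fun n => codeN (resOf T hT) p0 (N n), ((codeN_primrec _ _).to_comp.comp hN),
        fun n => Iff.rfl⟩ hc
  refine h1.not.of_eq fun n => ?_
  rw [incl_iff hs hr, not_not]

/-- Undecidability of equality. -/
theorem equality : ∃ (k : ℕ) (D : Code (Alph k)) (M : Machine (Alph k)), M.OneReversal ∧
    ¬ ComputablePred (fun D₁ : Code (Alph k) => D.lang = shuffle D₁.lang M.lang) := by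
  obtain ⟨T, p0, N, hT, hN, h⟩ := exists_tr'
  obtain ⟨B, hB⟩ := sum_bound T
  have hs : ∀ j, (resOf T hT).s j ≤ B := fun j => (hB _ (List.get_mem ..)).1
  have hr : ∀ j, (resOf T hT).r j ≤ B := fun j => (hB _ (List.get_mem ..)).2
  refine ⟨T.length, code0 T.length, mach (resOf T hT) B true, mach_oneReversal _ _ _, ?_⟩
  intro hc
  apply h
  have h1 : ComputablePred (fun n => (code0 T.length).lang =
      shuffle (code1 (resOf T hT) p0 (N n)).lang (mach (resOf T hT) B true).lang) :=
    ComputablePred.computable_of_manyOneReducible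
      (p := fun n => (code0 T.length).lang =
        shuffle (code1 (resOf T hT) p0 (N n)).lang (mach (resOf T hT) B true).lang)
      ⟨fun n => code1 (resOf T hT) p0 (N n), ((code1_primrec _ _).to_comp.comp hN),
        fun n => Iff.rfl⟩ hc
  refine h1.not.of_eq fun n => ?_
  rw [eq_iff, incl_iff hs hr, not_not]

end Pool.Agent.Q325.Sh
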