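import Pool.Agent.H78R3.TSV.Sing

/-!
# The spectral norm of a tensor with rational entries
-/

namespace Pool.Agent.Q325.Spec

open Finset Pool.Agent.H78R3.TSV

/-- The spectral norm of a real tensor of dimension `d × d × d`: the supremum of the numbers
`|T(x,y,z)|`, where `x`, `y`, `z` are unit vectors of the Euclidean space `ℝᵈ`. -/
noncomputable def spectralNorm {d : ℕ} (t : Fin d → Fin d → Fin d → ℝ) : ℝ :=
  sSup {r : ℝ | ∃ x y z : EuclideanSpace ℝ (Fin d), ‖x‖ = 1 ∧ ‖y‖ = 1 ∧ ‖z‖ = 1 ∧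
    r = |∑ i, ∑ j, ∑ k, t i j k * x i * y j * z k|}

/-- **SPECTRAL-NORM-BOUND**: the input is a `d × d × d` tensor with rational entries (a nested
list; `d` is its length) and a positive rational number `σ`; the question is whether the spectral
norm of the tensor is at most `σ`. -/
def SpectralNormBound (q : List (List (List ℚ)) × ℚ) : Prop :=
  IsCube q.1 ∧ 0 < q.2 ∧
    spectralNorm (fun i j k : Fin q.1.length => ((entry q.1 i j k : ℚ) : ℝ)) ≤ (q.2 : ℝ)

/-- **SPECTRAL-NORM-EXCEED**: the same input; the question is whether the spectral norm of the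
tensor is greater than `σ`. -/
def SpectralNormExceed (q : List (List (List ℚ)) × ℚ) : Prop :=
  IsCube q.1 ∧ 0 < q.2 ∧
    (q.2 : ℝ) < spectralNorm (fun i j k : Fin q.1.length => ((entry q.1 i j k : ℚ) : ℝ))

theorem abs_le_one {d : ℕ} {x : EuclideanSpace ℝ (Fin d)} (h : ‖x‖ = 1) (i : Fin d) :
    |x i| ≤ 1 := by
  rw [← h]
  exact PiLp.norm_apply_le x i

theorem bdd {d : ℕ} (t : Fin d → Fin d → Fin d → ℝ) :
    BddAbove {r : ℝ | ∃ x y z : EuclideanSpace ℝ (Fin d), ‖x‖ = 1 ∧ ‖y‖ = 1 ∧ ‖z‖ = 1 ∧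
    r = |∑ i, ∑ j, ∑ k, t i j k * x i * y j * z k|} := by
  refine ⟨∑ i, ∑ j, ∑ k, |t i j k|, ?_⟩
  rintro r ⟨x, y, z, hx, hy, hz, rfl⟩
  refine (abs_sum_le_sum_abs _ _).trans (sum_le_sum fun i _ => ?_)
  refine (abs_sum_le_sum_abs _ _).trans (sum_le_sum fun j _ => ?_)
  refine (abs_sum_le_sum_abs _ _).trans (sum_le_sum fun k _ => ?_)
  rw [abs_mul, abs_mul, abs_mul]
  have h1 := abs_le_one hx i
  have h2 := abs_le_one hy j
  have h3 := abs_le_one hz k
  calc |t i j k| * |x i| * |y j| * |z k| ≤ |t i j k| * 1 * 1 * 1 := by gcongr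
    _ = |t i j k| := by ring

theorem spectralNorm_le {d : ℕ} (t : Fin d → Fin d → Fin d → ℝ) {σ : ℝ} (hσ : 0 ≤ σ) :
    spectralNorm t ≤ σ ↔ ∀ x y z : EuclideanSpace ℝ (Fin d), ‖x‖ = 1 → ‖y‖ = 1 → ‖z‖ = 1 →
      |∑ i, ∑ j, ∑ k, t i j k * x i * y j * z k| ≤ σ := by
  constructor
  · intro h x y z hx hy hz
    exact (le_csSup (bdd t) ⟨x, y, z, hx, hy, hz, rfl⟩).trans h
  · intro h
    refine Real.sSup_le ?_ hσ
    rintro r ⟨x, y, z, hx, hy, hz, rfl⟩
    exact h x y z hx hy hz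

/-- A version with vectors indexed by all natural numbers. -/
def NB (d : ℕ) (t : ℕ → ℕ → ℕ → ℝ) (σ : ℝ) : Prop :=
  ∀ x y z : ℕ → ℝ, ∑ i ∈ range d, x i ^ 2 = 1 → ∑ i ∈ range d, y i ^ 2 = 1 →
    ∑ i ∈ range d, z i ^ 2 = 1 →
    |∑ i ∈ range d, ∑ j ∈ range d, ∑ k ∈ range d, t i j k * x i * y j * z k| ≤ σ

theorem spectralNorm_le_iff {d : ℕ} (t : ℕ → ℕ → ℕ → ℝ) {σ : ℝ} (hσ : 0 ≤ σ) :
    spectralNorm (fun i j k : Fin d => t i j k) ≤ σ ↔ NB d t σ := by
  rw [spectralNorm_le _ hσ]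
  have key : ∀ x y z : ℕ → ℝ, ∑ i : Fin d, ∑ j : Fin d, ∑ k : Fin d,
      t i j k * x i * y j * z k =
      ∑ i ∈ range d, ∑ j ∈ range d, ∑ k ∈ range d, t i j k * x i * y j * z k := by
    intro x y z
    rw [← Fin.sum_univ_eq_sum_range (fun i => ∑ j ∈ range d, ∑ k ∈ range d,
      t i j k * x i * y j * z k)]
    refine sum_congr rfl fun i _ => ?_
    rw [← Fin.sum_univ_eq_sum_range (fun j => ∑ k ∈ range d, t i j k * x i * y j * z k)]
    refine sum_congr rfl fun j _ => ?_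
    rw [← Fin.sum_univ_eq_sum_range (fun k => t i j k * x i * y j * z k)]
  constructor
  · intro h x y z hx hy hz
    rw [← key]
    refine h (WithLp.toLp 2 fun i => x i) (WithLp.toLp 2 fun i => y i)
      (WithLp.toLp 2 fun i => z i) ?_ ?_ ?_
    · rw [norm_eq_one_iff, ← hx]
      exact Fin.sum_univ_eq_sum_range (fun i => x i ^ 2) d
    · rw [norm_eq_one_iff, ← hy]
      exact Fin.sum_univ_eq_sum_range (fun i => y i ^ 2) d
    · rw [norm_eq_one_iff, ← hz]
      exact Fin.sum_univ_eq_sum_range (fun i => z i ^ 2) d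
  · intro h x y z hx hy hz
    rw [norm_eq_one_iff] at hx hy hz
    let X : ℕ → ℝ := fun i => if h : i < d then x ⟨i, h⟩ else 0
    let Y : ℕ → ℝ := fun i => if h : i < d then y ⟨i, h⟩ else 0
    let Z : ℕ → ℝ := fun i => if h : i < d then z ⟨i, h⟩ else 0
    have eX : ∀ i : Fin d, X i = x i := fun i => by simp [X]
    have eY : ∀ i : Fin d, Y i = y i := fun i => by simp [Y]
    have eZ : ∀ i : Fin d, Z i = z i := fun i => by simp [Z]
    have h1 := h X Y Z
      (by rw [← Fin.sum_univ_eq_sum_range (fun i => X i ^ 2)]; simpa only [eX] using hx)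
      (by rw [← Fin.sum_univ_eq_sum_range (fun i => Y i ^ 2)]; simpa only [eY] using hy)
      (by rw [← Fin.sum_univ_eq_sum_range (fun i => Z i ^ 2)]; simpa only [eZ] using hz)
    rw [← key] at h1
    simpa only [eX, eY, eZ] using h1

/-- The square of the norm. -/
def nn (n : ℕ) (x : ℕ → ℝ) : ℝ := ∑ i ∈ range n, x i ^ 2

theorem nn_nonneg (n : ℕ) (x : ℕ → ℝ) : 0 ≤ nn n x := sum_nonneg fun _ _ => sq_nonneg _

theorem nn_mono {n d : ℕ} (h : n ≤ d) (x : ℕ → ℝ) : nn n x ≤ nn d x :=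
  sum_le_sum_of_subset_of_nonneg (Finset.range_subset_range.2 h) fun _ _ _ => sq_nonneg _

theorem nn_smul (n : ℕ) (c : ℝ) (x : ℕ → ℝ) : nn n (fun i => c * x i) = c ^ 2 * nn n x := by
  unfold nn
  rw [mul_sum]
  exact sum_congr rfl fun i _ => by ring

theorem fev_congr {n : ℕ} {x y x' y' : ℕ → ℝ} {f : List QT} (hf : FOk n f)
    (hx : ∀ i < n, x i = x' i) (hy : ∀ i < n, y i = y' i) : fev x y f = fev x' y' f := by
  induction f with
  | nil => rfl
  | cons t f ih =>
    obtain ⟨h1, h2⟩ := hf t List.mem_cons_self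
    rw [fev_cons, fev_cons, ih fun t ht => hf t (List.mem_cons_of_mem _ ht)]
    unfold tev bev
    rw [hx _ h1, hx _ h2, hy _ h1, hy _ h2]

theorem fev_smul (a b : ℝ) (x y : ℕ → ℝ) (f : List QT) :
    fev (fun i => a * x i) (fun i => b * y i) f = a * b * fev x y f := by
  induction f with
  | nil => simp
  | cons t f ih =>
    rw [fev_cons, fev_cons, ih]
    unfold tev bev
    ring

theorem S_congr {n : ℕ} {x y x' y' : ℕ → ℝ} {L : List (List QT)} (hL : ∀ f ∈ L, FOk n f)
    (hx : ∀ i < n, x i = x' i) (hy : ∀ i < n, y i = y' i) : S x y x y L = S x' y' x' y' L := by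
  unfold S
  congr 1
  refine List.map_congr_left fun f hf => ?_
  rw [fev_congr (hL f hf) hx hy]

theorem S_smul (a b : ℝ) (x y : ℕ → ℝ) (L : List (List QT)) :
    S (fun i => a * x i) (fun i => b * y i) (fun i => a * x i) (fun i => b * y i) L =
      a ^ 2 * b ^ 2 * S x y x y L := by
  unfold S
  rw [← List.sum_map_mul_left]
  congr 1
  refine List.map_congr_left fun f _ => ?_
  rw [fev_smul]
  ring

theorem S_nonneg (x y : ℕ → ℝ) (L : List (List QT)) : 0 ≤ S x y x y L := by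
  unfold S
  refine List.sum_nonneg ?_
  intro r hr
  rw [List.mem_map] at hr
  obtain ⟨f, _, rfl⟩ := hr
  exact mul_self_nonneg _

/-- The trilinear form in terms of the slices. -/
theorem tri_eq {d : ℕ} {L : List (List QT)} (hF : ∀ k, FOk d (L.getD k [])) (x y z : ℕ → ℝ) :
    ∑ i ∈ range d, ∑ j ∈ range d, ∑ k ∈ range d, (ten L i j k : ℝ) * x i * y j * z k =
      ∑ k ∈ range d, fev x y (L.getD k []) * z k := by
  have h1 : ∀ k, fev x y (L.getD k []) * z k =
      ∑ i ∈ range d, ∑ j ∈ range d, (ten L i j k : ℝ) * x i * y j * z k := by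
    intro k
    rw [← sum_cf d _ (hF k), sum_mul]
    refine sum_congr rfl fun i _ => ?_
    rw [sum_mul]
    rfl
  simp_rw [h1]
  symm
  rw [sum_comm]
  exact sum_congr rfl fun i _ => sum_comm

/-- The bound of the spectral norm in terms of the slices. -/
theorem nb_iff {n d : ℕ} {L : List (List QT)} (hL : ∀ f ∈ L, FOk n f) (hnd : n ≤ d)
    (hd : L.length ≤ d) {σ : ℝ} (hσ : 0 ≤ σ) : NB d (fun i j k => (ten L i j k : ℝ)) σ ↔
    ∀ x y : ℕ → ℝ, S x y x y L ≤ σ ^ 2 * (nn n x * nn n y) := by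
  have hFd : ∀ k, FOk d (L.getD k []) := fun k t ht =>
    ⟨(fok_getD hL k t ht).1.trans_le hnd, (fok_getD hL k t ht).2.trans_le hnd⟩
  have hS : ∀ x y : ℕ → ℝ, ∑ k ∈ range d, fev x y (L.getD k []) ^ 2 = S x y x y L := by
    intro x y
    unfold S
    rw [← sum_getD L hd (fun f => fev x y f * fev x y f) (by simp)]
    exact sum_congr rfl fun k _ => sq _
  constructor
  · intro h x y
    have h0 : ∀ u : ℕ → ℝ, nn n u = 0 → ∀ i < n, u i = 0 := by
      intro u hu i hi
      have := (sum_eq_zero_iff_of_nonneg (fun i _ => sq_nonneg (u i))).1 hu i (mem_range.2 hi)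
      exact pow_eq_zero_iff (two_ne_zero) |>.1 this
    rcases (nn_nonneg n x).eq_or_lt with hx | hx
    · have h1 : S x y x y L = S (fun i => 0 * x i) (fun i => 1 * y i) (fun i => 0 * x i)
          (fun i => 1 * y i) L :=
        S_congr hL (fun i hi => by rw [h0 x hx.symm i hi]; ring) fun i _ => by ring
      rw [h1, S_smul, ← hx]
      simp
    rcases (nn_nonneg n y).eq_or_lt with hy | hy
    · have h1 : S x y x y L = S (fun i => 1 * x i) (fun i => 0 * y i) (fun i => 1 * x i)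
          (fun i => 0 * y i) L :=
        S_congr hL (fun i _ => by ring) fun i hi => by rw [h0 y hy.symm i hi]; ring
      rw [h1, S_smul, ← hy]
      simp
    set a := nn n x with ha
    set b := nn n y with hb
    have hsa : Real.sqrt a ^ 2 = a := Real.sq_sqrt hx.le
    have hsb : Real.sqrt b ^ 2 = b := Real.sq_sqrt hy.le
    have hpa : 0 < Real.sqrt a := Real.sqrt_pos.2 hx
    have hpb : 0 < Real.sqrt b := Real.sqrt_pos.2 hy
    let x' : ℕ → ℝ := fun i => if i < n then (Real.sqrt a)⁻¹ * x i else 0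
    let y' : ℕ → ℝ := fun i => if i < n then (Real.sqrt b)⁻¹ * y i else 0
    have trunc : ∀ (u : ℕ → ℝ) (c : ℝ), ∑ i ∈ range d, (if i < n then c * u i else 0) ^ 2 =
        c ^ 2 * nn n u := by
      intro u c
      rw [← nn_smul]
      unfold nn
      symm
      have hsub : range n ⊆ range d := Finset.range_subset_range.2 hnd
      rw [← sum_subset hsub (f := fun i => (if i < n then c * u i else 0) ^ 2)]
      · refine sum_congr rfl fun i hi => ?_
        rw [if_pos (mem_range.1 hi)]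
      · intro i _ hi
        rw [if_neg (fun h => hi (mem_range.2 h))]
        ring
    have hx' : ∑ i ∈ range d, x' i ^ 2 = 1 := by
      simp only [x']
      rw [trunc, ← ha, inv_pow, hsa, inv_mul_cancel₀ hx.ne']
    have hy' : ∑ i ∈ range d, y' i ^ 2 = 1 := by
      simp only [y']
      rw [trunc, ← hb, inv_pow, hsb, inv_mul_cancel₀ hy.ne']
    have e1 : S x' y' x' y' L = (a * b)⁻¹ * S x y x y L := by
      have h1 : S x' y' x' y' L = S (fun i => (Real.sqrt a)⁻¹ * x i)
          (fun i => (Real.sqrt b)⁻¹ * y i) (fun i => (Real.sqrt a)⁻¹ * x i)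
          (fun i => (Real.sqrt b)⁻¹ * y i) L :=
        S_congr hL (fun i hi => if_pos hi) fun i hi => if_pos hi
      rw [h1, S_smul, inv_pow, inv_pow, hsa, hsb, mul_inv]
    set s := S x' y' x' y' L with hs
    have hs0 : 0 ≤ s := S_nonneg _ _ _
    have hle : s ≤ σ ^ 2 := by
      rcases hs0.eq_or_lt with h2 | h2
      · rw [← h2]; positivity
      · have hr : Real.sqrt s ^ 2 = s := Real.sq_sqrt hs0
        have hr0 : 0 < Real.sqrt s := Real.sqrt_pos.2 h2
        have h3 := h x' y' (fun k => (Real.sqrt s)⁻¹ * fev x' y' (L.getD k [])) hx' hy' (by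
          simp_rw [mul_pow]
          rw [← mul_sum, hS, ← hs, inv_pow, hr, inv_mul_cancel₀ h2.ne'])
        rw [tri_eq hFd] at h3
        have h4 : ∀ k, fev x' y' (L.getD k []) * ((Real.sqrt s)⁻¹ * fev x' y' (L.getD k [])) =
            (Real.sqrt s)⁻¹ * fev x' y' (L.getD k []) ^ 2 := fun k => by ring
        simp_rw [h4] at h3
        rw [← mul_sum, hS, ← hs] at h3
        have h5 : (Real.sqrt s)⁻¹ * s = Real.sqrt s := by
          rw [inv_mul_eq_div, div_eq_iff hr0.ne', ← sq, hr]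
        rw [h5, abs_of_pos hr0] at h3
        calc s = Real.sqrt s ^ 2 := hr.symm
          _ ≤ σ ^ 2 := pow_le_pow_left₀ hr0.le h3 2
    have hab : 0 < a * b := mul_pos hx hy
    rw [e1, inv_mul_le_iff₀ hab] at hle
    linarith
  · intro h x y z hx hy hz
    rw [tri_eq hFd]
    apply abs_le_of_sq_le_sq _ hσ
    have h1 := sum_mul_sq_le_sq_mul_sq (range d) (fun k => fev x y (L.getD k [])) z
    rw [hz, hS, mul_one] at h1
    have h2 := h x y
    have h3 : nn n x ≤ 1 := (nn_mono hnd x).trans_eq hx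
    have h4 : nn n y ≤ 1 := (nn_mono hnd y).trans_eq hy
    have h5 : nn n x * nn n y ≤ 1 := mul_le_one₀ h3 (nn_nonneg _ _) h4
    have h6 : σ ^ 2 * (nn n x * nn n y) ≤ σ ^ 2 * 1 := mul_le_mul_of_nonneg_left h5 (sq_nonneg _)
    linarith

end Pool.Agent.Q325.Spec
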