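import Pool.Agent.Q325.SpecA

/-!
# From biquadratic forms to quartic forms
-/

namespace Pool.Agent.Q325.Spec

open Finset Pool.Agent.H78R3.TSV

/-- The coefficients of a constraint are small. -/
def GSm (g : QC) : Prop := g.1.1.natAbs + g.2.1.1.natAbs + g.2.2.1.natAbs ≤ 9

theorem sq_le_nn {n : ℕ} (u : ℕ → ℝ) {i : ℕ} (hi : i < n) : u i ^ 2 ≤ nn n u :=
  single_le_sum (f := fun i => u i ^ 2) (fun _ _ => sq_nonneg _) (mem_range.2 hi)

theorem abs_bev_le {n : ℕ} (u : ℕ → ℝ) {p : ℕ × ℕ} (h1 : p.1 < n) (h2 : p.2 < n) :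
    |bev u u p| ≤ 2 * nn n u := by
  have a1 := sq_le_nn u h1
  have a2 := sq_le_nn u h2
  unfold bev
  rw [abs_le]
  constructor
  · nlinarith [sq_nonneg (u p.1 + u p.2)]
  · nlinarith [sq_nonneg (u p.1 - u p.2)]

theorem abs_tev_le {n : ℕ} (u : ℕ → ℝ) {t : QT} (ht : TOk n t) :
    |tev u u t| ≤ t.1.natAbs * (2 * nn n u) := by
  unfold tev
  rw [abs_mul]
  have h1 := abs_bev_le u ht.2.1 ht.2.2
  have h2 : |(t.1 : ℝ)| = (t.1.natAbs : ℝ) := by
    rw [Nat.cast_natAbs]
    push_cast
    rfl
  rw [h2]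
  exact mul_le_mul_of_nonneg_left h1 (Nat.cast_nonneg _)

theorem abs_gev_le {n : ℕ} (u : ℕ → ℝ) {g : QC} (hg : GOk n g) (hs : GSm g) :
    |gev u u g| ≤ 18 * nn n u := by
  have h1 := abs_tev_le u hg.1
  have h2 := abs_tev_le u hg.2.1
  have h3 := abs_tev_le u hg.2.2
  have h4 : ((g.1.1.natAbs : ℝ) + g.2.1.1.natAbs + g.2.2.1.natAbs) ≤ 9 := by
    exact_mod_cast hs
  have h5 := nn_nonneg n u
  unfold gev
  have h6 := abs_add_three (tev u u g.1) (tev u u g.2.1) (tev u u g.2.2)
  have h7 : ((g.1.1.natAbs : ℝ) + g.2.1.1.natAbs + g.2.2.1.natAbs) * (2 * nn n u) ≤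
      9 * (2 * nn n u) := mul_le_mul_of_nonneg_right h4 (by positivity)
  linarith

theorem pen_aux {n : ℕ} (G : List QC) (hG : ∀ g ∈ G, GOk n g) (hs : ∀ g ∈ G, GSm g)
    (u v : ℕ → ℝ) : (G.map fun g => gev u u g * gev u u g).sum +
      (G.map fun g => gev v v g * gev v v g).sum - 648 * (nn n u * nn n v) * G.length ≤
      (G.map fun g => (gev u u g - gev v v g) * (gev u u g - gev v v g)).sum := by
  induction G with
  | nil => simp
  | cons g G ih =>
    have h1 := ih (fun g hg => hG g (List.mem_cons_of_mem _ hg))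
      (fun g hg => hs g (List.mem_cons_of_mem _ hg))
    have h2 := abs_gev_le u (hG g List.mem_cons_self) (hs g List.mem_cons_self)
    have h3 := abs_gev_le v (hG g List.mem_cons_self) (hs g List.mem_cons_self)
    have h4 : |gev u u g * gev v v g| ≤ 324 * (nn n u * nn n v) := by
      rw [abs_mul]
      calc |gev u u g| * |gev v v g| ≤ (18 * nn n u) * (18 * nn n v) := by
            apply mul_le_mul h2 h3 (abs_nonneg _)
            have := nn_nonneg n u
            positivity
        _ = _ := by ring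
    have h5 := le_abs_self (gev u u g * gev v v g)
    simp only [List.map_cons, List.sum_cons, List.length_cons]
    push_cast
    nlinarith

/-- The list of the forms with one more form `x_a y_0 + x_0 y_a`. -/
def formsA (n a : ℕ) (G : List QC) : List (List QT) := forms n G ++ [[((1 : ℤ), a, 0)]]

theorem fok_formsA {n a : ℕ} {G : List QC} (hG : ∀ g ∈ G, GOk n g) (ha : a < n) :
    ∀ f ∈ formsA n a G, FOk n f := by
  intro f hf
  unfold formsA at hf
  rcases List.mem_append.1 hf with hf | hf
  · exact fok_forms hG f hf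
  · rw [List.mem_singleton] at hf
    subst hf
    intro t ht
    rw [List.mem_singleton] at ht
    subst ht
    exact ⟨ha, by show 0 < n; omega⟩

theorem S_formsA {n a : ℕ} {G : List QC} (hG : ∀ g ∈ G, GOk n g) (x y : ℕ → ℝ) :
    S x y x y (formsA n a G) = 1152 * (G.length : ℝ) ^ 2 * (nn n x * nn n y +
      (∑ i ∈ range n, x i * y i) ^ 2) -
      (G.length : ℝ) * (G.map (fun g => gev x y g * gev x y g)).sum + bev x y (a, 0) ^ 2 := by
  unfold formsA
  rw [S_append, S_forms x y x y n G hG, sum_bev]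
  have ec : ∑ i ∈ range n, y i * x i = ∑ i ∈ range n, x i * y i :=
    sum_congr rfl fun i _ => mul_comm _ _
  have ea : ∀ x : ℕ → ℝ, ∑ i ∈ range n, x i * x i = nn n x := fun x =>
    sum_congr rfl fun i _ => (sq _).symm
  rw [ec, ea, ea]
  simp only [S_cons, S_nil, fev_cons, fev_nil, tev]
  push_cast
  ring

/-- **Polarization with a penalty.** -/
theorem pen_iff {n a : ℕ} {G : List QC} (hG : ∀ g ∈ G, GOk n g) (hs : ∀ g ∈ G, GSm g)
    (hne : G ≠ []) (ha : a < n) :
    (∀ x y : ℕ → ℝ, S x y x y (formsA n a G) ≤ (48 * (G.length : ℝ)) ^ 2 * (nn n x * nn n y)) ↔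
    ∀ x : ℕ → ℝ, bev x x (a, 0) ^ 2 ≤
      (G.length : ℝ) * (G.map (fun g => gev x x g * gev x x g)).sum := by
  have hm : (1 : ℝ) ≤ G.length := by
    have : 0 < G.length := List.length_pos_iff.2 hne
    exact_mod_cast this
  constructor
  · intro h x
    have h1 := h x x
    rw [S_formsA hG] at h1
    have h2 : ∑ i ∈ range n, x i * x i = nn n x := sum_congr rfl fun i _ => (sq _).symm
    rw [h2] at h1
    nlinarith
  · intro h x y
    have hL := fok_formsA hG ha
    have h0 : ∀ u : ℕ → ℝ, nn n u = 0 → ∀ i < n, u i = 0 := by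
      intro u hu i hi
      have := (sum_eq_zero_iff_of_nonneg (fun i _ => sq_nonneg (u i))).1 hu i (mem_range.2 hi)
      exact pow_eq_zero_iff (two_ne_zero) |>.1 this
    rcases (nn_nonneg n x).eq_or_lt with hx | hx
    · have h1 : S x y x y (formsA n a G) = S (fun i => 0 * x i) (fun i => 1 * y i)
          (fun i => 0 * x i) (fun i => 1 * y i) (formsA n a G) :=
        S_congr hL (fun i hi => by rw [h0 x hx.symm i hi]; ring) fun i _ => by ring
      rw [h1, S_smul, ← hx]
      simp
    rcases (nn_nonneg n y).eq_or_lt with hy | hy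
    · have h1 : S x y x y (formsA n a G) = S (fun i => 1 * x i) (fun i => 0 * y i)
          (fun i => 1 * x i) (fun i => 0 * y i) (formsA n a G) :=
        S_congr hL (fun i _ => by ring) fun i hi => by rw [h0 y hy.symm i hi]; ring
      rw [h1, S_smul, ← hy]
      simp
    set A := nn n x with hA
    set B := nn n y with hB
    set c := ∑ i ∈ range n, x i * y i with hc
    set m : ℝ := (G.length : ℝ) with hmdef
    set α := Real.sqrt A with hα
    set β := Real.sqrt B with hβ
    have hsa : α ^ 2 = A := Real.sq_sqrt hx.le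
    have hsb : β ^ 2 = B := Real.sq_sqrt hy.le
    let u : ℕ → ℝ := fun i => (β * x i + α * y i) / 2
    let v : ℕ → ℝ := fun i => (β * x i - α * y i) / 2
    have hu : nn n u = (β ^ 2 * A + α ^ 2 * B + 2 * α * β * c) / 4 := by
      simp only [hA, hB, hc, nn, u, mul_sum]
      rw [← sum_add_distrib, ← sum_add_distrib, sum_div]
      exact sum_congr rfl fun i _ => by ring
    have hv : nn n v = (β ^ 2 * A + α ^ 2 * B - 2 * α * β * c) / 4 := by
      simp only [hA, hB, hc, nn, v, mul_sum]
      rw [← sum_add_distrib, ← sum_sub_distrib, sum_div]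
      exact sum_congr rfl fun i _ => by ring
    have hg : ∀ g : QC, gev u u g - gev v v g = α * β * gev x y g := by
      intro g
      simp only [gev, tev, bev, u, v]
      ring
    have hb : bev u u (a, 0) - bev v v (a, 0) = α * β * bev x y (a, 0) := by
      simp only [bev, u, v]
      ring
    have h1 := pen_aux G hG hs u v
    have h2 : (G.map fun g => (gev u u g - gev v v g) * (gev u u g - gev v v g)).sum =
        (α * β) ^ 2 * (G.map (fun g => gev x y g * gev x y g)).sum := by
      rw [← List.sum_map_mul_left]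
      congr 1
      refine List.map_congr_left fun g _ => ?_
      rw [hg]
      ring
    rw [h2] at h1
    have h3 := h u
    have h4 := h v
    have h5 := abs_bev_le (n := n) u (p := (a, 0)) ha (by show 0 < n; omega)
    have h6 := abs_bev_le (n := n) v (p := (a, 0)) ha (by show 0 < n; omega)
    have h7 : |bev u u (a, 0) * bev v v (a, 0)| ≤ 4 * (nn n u * nn n v) := by
      rw [abs_mul]
      calc |bev u u (a, 0)| * |bev v v (a, 0)| ≤ (2 * nn n u) * (2 * nn n v) := by
            apply mul_le_mul h5 h6 (abs_nonneg _)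
            have := nn_nonneg n u
            positivity
        _ = _ := by ring
    have h8 := neg_abs_le (bev u u (a, 0) * bev v v (a, 0))
    have h9 : (α * β) ^ 2 * bev x y (a, 0) ^ 2 = (bev u u (a, 0) - bev v v (a, 0)) ^ 2 := by
      rw [hb]; ring
    have h10 : nn n u * nn n v = A * B * (A * B - c ^ 2) / 4 := by
      rw [hu, hv]
      have : (β ^ 2 * A + α ^ 2 * B + 2 * α * β * c) / 4 *
          ((β ^ 2 * A + α ^ 2 * B - 2 * α * β * c) / 4) =
          ((β ^ 2 * A + α ^ 2 * B) ^ 2 - 4 * α ^ 2 * β ^ 2 * c ^ 2) / 16 := by ring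
      rw [this, hsa, hsb]
      ring
    have h11 : 0 ≤ nn n u * nn n v := mul_nonneg (nn_nonneg _ _) (nn_nonneg _ _)
    have h12 : (α * β) ^ 2 = A * B := by rw [mul_pow, hsa, hsb]
    rw [h12] at h1 h9
    set Q := (G.map (fun g => gev x y g * gev x y g)).sum with hQ
    set Qu := (G.map fun g => gev u u g * gev u u g).sum with hQu
    set Qv := (G.map fun g => gev v v g * gev v v g).sum with hQv
    set bu := bev u u (a, 0) with hbu
    set bv := bev v v (a, 0) with hbv
    set N := nn n u * nn n v with hN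
    -- the product with `A * B`
    have h13 : m * (Qu + Qv - 648 * N * m) ≤ m * (A * B * Q) :=
      mul_le_mul_of_nonneg_left h1 (by linarith)
    have h14 : (bu - bv) ^ 2 ≤ m * Qu + m * Qv + 8 * N := by
      have e : (bu - bv) ^ 2 = bu ^ 2 + bv ^ 2 - 2 * (bu * bv) := by ring
      rw [e]
      linarith
    have h15 : A * B * bev x y (a, 0) ^ 2 ≤ A * B * (m * Q) + (648 * m ^ 2 + 8) * N := by
      rw [h9]
      linarith
    have h16 : (648 * m ^ 2 + 8) * N ≤ 4608 * m ^ 2 * N := by
      apply mul_le_mul_of_nonneg_right _ h11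
      have : 1 ≤ m ^ 2 := one_le_pow₀ hm
      linarith
    have hAB : 0 < A * B := mul_pos hx hy
    have h17 : A * B * bev x y (a, 0) ^ 2 ≤
        A * B * (m * Q + 1152 * m ^ 2 * (A * B - c ^ 2)) := by
      calc A * B * bev x y (a, 0) ^ 2 ≤ A * B * (m * Q) + 4608 * m ^ 2 * N := by linarith
        _ = A * B * (m * Q + 1152 * m ^ 2 * (A * B - c ^ 2)) := by rw [h10]; ring
    have h18 := le_of_mul_le_mul_left h17 hAB
    rw [S_formsA hG]
    linarith

end Pool.Agent.Q325.Spec
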