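import Pool.Agent.Q325.SpecB
import Pool.Agent.H78R3.TSV.Red
import Pool.Agent.ER.GapSys

/-!
# From systems of constraints to strict inequalities between quartic forms
-/

namespace Pool.Agent.Q325.Spec

open Finset Pool.Agent.H78R3.TSV Pool.Agent.NPC Pool.Agent.NPC.ER

/-- Robust repeated squaring. -/
theorem chain_small {b : ℕ → ℝ} {L : ℕ} (hb : ∀ j, 0 ≤ b j) (hL : 0 < b L) (hL1 : b L ≤ 1)
    (h0 : b 0 ≤ 1 / 4) (hs : ∀ j < L, b (j + 1) ≤ b j ^ 2 + b L / 4) :
    b L ≤ (1 / 2) ^ 2 ^ L := by
  have hA : ∀ j ≤ L, b L / 2 < b j := by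
    intro j hj
    by_contra hcon
    push Not at hcon
    have key : ∀ k, j + k ≤ L → b (j + k) ≤ b L / 2 := by
      intro k
      induction k with
      | zero => intro _; exact hcon
      | succ k ih =>
        intro hk
        have h1 := ih (by omega)
        have h2 := hs (j + k) (by omega)
        have h3 : b (j + k) ^ 2 ≤ (b L / 2) ^ 2 := pow_le_pow_left₀ (hb _) h1 2
        have h4 : (b L / 2) ^ 2 ≤ b L / 4 := by nlinarith
        have h5 : j + (k + 1) = j + k + 1 := by ring
        rw [h5]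
        linarith
    have h1 := key (L - j) (by omega)
    have h2 : j + (L - j) = L := by omega
    rw [h2] at h1
    linarith
  have hB : ∀ j ≤ L, 2 * b j ≤ (1 / 2) ^ 2 ^ j := by
    intro j
    induction j with
    | zero => intro _; norm_num; linarith
    | succ j ih =>
      intro hj
      have h1 := ih (by omega)
      have h2 := hs j (by omega)
      have h3 := hA (j + 1) hj
      have h4 : b (j + 1) ≤ 2 * b j ^ 2 := by linarith
      calc 2 * b (j + 1) ≤ (2 * b j) ^ 2 := by linarith [h4, mul_pow 2 (b j) 2]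
        _ ≤ ((1 / 2) ^ 2 ^ j) ^ 2 := pow_le_pow_left₀ (by linarith [hb j]) h1 2
        _ = (1 / 2) ^ 2 ^ (j + 1) := by rw [← pow_mul, pow_succ]
  have := hB L le_rfl
  have h5 := hb L
  linarith

/-- The number of variables. -/
def vN (T : List ER.Con) : ℕ := (svars T).length

/-- The length of the chain. -/
def cL (T : List ER.Con) : ℕ := gapK T.length

/-- The index of the variable `j` of the chain. -/
def cv (T : List ER.Con) (j : ℕ) : ℕ := 2 * vN T + 1 + j

/-- The bound `4 x² + s² = x₀²`. -/
def slack4 (i j : ℕ) : QC := ((4, i, i), (1, j, j), (-1, 0, 0))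

/-- The homogeneous quadratic forms. -/
def gsys (T : List ER.Con) : List QC :=
  T.map (hcon (svars T)) ++ ((List.range (vN T)).map (fun r => slack4 (r + 1) (vN T + 1 + r)) ++
    ([((8, cv T 0, 0), (-1, 0, 0), (0, 0, 0)), slack4 (cv T (cL T)) (cv T (cL T) + 1)] ++
      (List.range (cL T)).map (fun j => ((1, cv T j, cv T j), (-1, cv T (j + 1), 0), (0, 0, 0)))))

/-- The number of variables of the forms. -/
def gn (T : List ER.Con) : ℕ := cv T (cL T) + 2

theorem mem_gsys {T : List ER.Con} {g : QC} : g ∈ gsys T ↔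
    (∃ c ∈ T, hcon (svars T) c = g) ∨ (∃ r < vN T, slack4 (r + 1) (vN T + 1 + r) = g) ∨
    (g = ((8, cv T 0, 0), (-1, 0, 0), (0, 0, 0))) ∨ g = slack4 (cv T (cL T)) (cv T (cL T) + 1) ∨
    (∃ j < cL T, ((1, cv T j, cv T j), (-1, cv T (j + 1), 0), (0, 0, 0)) = g) := by
  unfold gsys
  simp only [List.mem_append, List.mem_map, List.mem_range, List.mem_cons, List.not_mem_nil,
    or_false, or_assoc]

theorem gsys_ok (T : List ER.Con) : ∀ g ∈ gsys T, GOk (gn T) g ∧ GSm g := by
  intro g hg
  have hcv : ∀ j ≤ cL T, cv T j < gn T := by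
    intro j hj
    unfold gn cv
    omega
  have hN : 2 * vN T + 1 < gn T := by unfold gn cv; omega
  have hL : cv T (cL T) + 1 < gn T := by unfold gn; omega
  rw [mem_gsys] at hg
  rcases hg with ⟨c, hc, rfl⟩ | ⟨r, hr, rfl⟩ | rfl | rfl | ⟨j, hj, rfl⟩
  · have hv : ∀ i ∈ c.vars, ix (svars T) i < gn T := by
      intro i hi
      have h1 := ix_lt hc hi
      have h2 : (svars T).length = vN T := rfl
      omega
    cases c with
    | one i =>
      have h1 := hv i (by simp [Con.vars])
      refine ⟨⟨⟨by simp [hcon], ?_, ?_⟩, ⟨by simp [hcon], ?_, ?_⟩, ⟨by simp [hcon], ?_, ?_⟩⟩,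
        by simp [GSm, hcon]⟩ <;> simp only [hcon] <;> omega
    | add i j k =>
      have h1 := hv i (by simp [Con.vars])
      have h2 := hv j (by simp [Con.vars])
      have h3 := hv k (by simp [Con.vars])
      refine ⟨⟨⟨by simp [hcon], ?_, ?_⟩, ⟨by simp [hcon], ?_, ?_⟩, ⟨by simp [hcon], ?_, ?_⟩⟩,
        by simp [GSm, hcon]⟩ <;> simp only [hcon] <;> omega
    | mul i j k =>
      have h1 := hv i (by simp [Con.vars])
      have h2 := hv j (by simp [Con.vars])
      have h3 := hv k (by simp [Con.vars])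
      refine ⟨⟨⟨by simp [hcon], ?_, ?_⟩, ⟨by simp [hcon], ?_, ?_⟩, ⟨by simp [hcon], ?_, ?_⟩⟩,
        by simp [GSm, hcon]⟩ <;> simp only [hcon] <;> omega
  · refine ⟨⟨⟨by simp [slack4], ?_, ?_⟩, ⟨by simp [slack4], ?_, ?_⟩, ⟨by simp [slack4], ?_, ?_⟩⟩,
        by simp [GSm, slack4]⟩ <;> simp only [slack4] <;> omega
  · have h1 := hcv 0 (by omega)
    refine ⟨⟨⟨by simp, ?_, ?_⟩, ⟨by simp, ?_, ?_⟩, ⟨by simp, ?_, ?_⟩⟩, by simp [GSm]⟩ <;>
      simp only <;> omega
  · have h1 := hcv (cL T) (by omega)
    refine ⟨⟨⟨by simp [slack4], ?_, ?_⟩, ⟨by simp [slack4], ?_, ?_⟩, ⟨by simp [slack4], ?_, ?_⟩⟩,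
        by simp [GSm, slack4]⟩ <;> simp only [slack4] <;> omega
  · have h1 := hcv j (by omega)
    have h2 := hcv (j + 1) (by omega)
    refine ⟨⟨⟨by simp, ?_, ?_⟩, ⟨by simp, ?_, ?_⟩, ⟨by simp, ?_, ?_⟩⟩, by simp [GSm]⟩ <;>
      simp only <;> omega

theorem gsys_length {T : List ER.Con} (hT : T ≠ []) : 16 ≤ (gsys T).length := by
  have h1 : 0 < T.length := List.length_pos_iff.2 hT
  unfold gsys
  simp only [List.length_append, List.length_map, List.length_range, List.length_cons,
    List.length_nil]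
  unfold cL gapK
  omega

theorem gev_hcon {V : List ℕ} {X : ℕ → ℝ} (h0 : X 0 = 1) (c : ER.Con) :
    gev X X (hcon V c) = 2 * c.err (fun i => X (ix V i)) := by
  cases c with
  | one i =>
    simp only [gev, tev, bev, hcon, Con.err, h0]
    push_cast
    ring
  | add i j k =>
    simp only [gev, tev, bev, hcon, Con.err, h0]
    push_cast
    ring
  | mul i j k =>
    simp only [gev, tev, bev, hcon, Con.err, h0]
    push_cast
    ring

theorem gev_slack4 {X : ℕ → ℝ} (h0 : X 0 = 1) (i j : ℕ) :
    gev X X (slack4 i j) = 2 * (4 * X i ^ 2 + X j ^ 2 - 1) := by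
  simp only [gev, tev, bev, slack4, h0]
  push_cast
  ring

theorem gev_scale (c : ℝ) (X : ℕ → ℝ) (g : QC) :
    gev (fun i => c * X i) (fun i => c * X i) g = c ^ 2 * gev X X g := by
  simp only [gev, tev, bev]
  ring

/-- A strict inequality gives a solution. -/
theorem sat_of_lt {S : List ER.Con} {x : ℕ → ℝ}
    (h : ((gsys (bsys S)).length : ℝ) *
      ((gsys (bsys S)).map (fun g => gev x x g * gev x x g)).sum <
      bev x x (cv (bsys S) (cL (bsys S)), 0) ^ 2) : Sat S := by
  set T := bsys S with hT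
  have hTne : T ≠ [] := bsys_ne_nil S
  set a := cv T (cL T) with ha
  set m : ℝ := ((gsys T).length : ℝ) with hm
  have hm16 : (16 : ℝ) ≤ m := by
    have h1 := gsys_length hTne
    rw [hm]
    exact_mod_cast h1
  have hx0 : x 0 ≠ 0 := by
    intro h0
    have h1 : bev x x (a, 0) = 0 := by simp [bev, h0]
    rw [h1] at h
    have h2 : 0 ≤ ((gsys T).map (fun g => gev x x g * gev x x g)).sum := by
      refine List.sum_nonneg ?_
      intro r hr
      rw [List.mem_map] at hr
      obtain ⟨g, _, rfl⟩ := hr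
      exact mul_self_nonneg _
    have h3 : 0 ≤ m * ((gsys T).map (fun g => gev x x g * gev x x g)).sum :=
      mul_nonneg (by linarith) h2
    linarith
  set X : ℕ → ℝ := fun i => x i / x 0 with hX
  have X0 : X 0 = 1 := div_self hx0
  have hxX : x = fun i => x 0 * X i := by
    funext i
    simp only [hX]
    field_simp
  have hb : bev x x (a, 0) = x 0 ^ 2 * (2 * X a) := by
    simp only [bev, hX]
    field_simp
    ring
  have hgx : ∀ g, gev x x g = x 0 ^ 2 * gev X X g := by
    intro g
    conv_lhs => rw [hxX]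
    rw [gev_scale]
  -- every form is small
  have hx04 : 0 < x 0 ^ 4 := by positivity
  have hge : ∀ g ∈ gsys T, |gev X X g| ≤ |X a| / 2 := by
    intro g hg
    have h1 : gev x x g * gev x x g ≤
        ((gsys T).map (fun g => gev x x g * gev x x g)).sum := by
      apply List.single_le_sum
      · intro r hr
        rw [List.mem_map] at hr
        obtain ⟨g, _, rfl⟩ := hr
        exact mul_self_nonneg _
      · exact List.mem_map.2 ⟨g, hg, rfl⟩
    have h2 : m * (gev x x g * gev x x g) ≤
        m * ((gsys T).map (fun g => gev x x g * gev x x g)).sum :=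
      mul_le_mul_of_nonneg_left h1 (by linarith)
    have h3 : 16 * (gev x x g * gev x x g) ≤ m * (gev x x g * gev x x g) :=
      mul_le_mul_of_nonneg_right hm16 (mul_self_nonneg _)
    have h4 : 16 * (gev x x g * gev x x g) < bev x x (a, 0) ^ 2 := by linarith
    rw [hb, hgx] at h4
    have h5 : x 0 ^ 4 * (16 * gev X X g ^ 2) < x 0 ^ 4 * (4 * X a ^ 2) := by
      calc x 0 ^ 4 * (16 * gev X X g ^ 2) =
          16 * (x 0 ^ 2 * gev X X g * (x 0 ^ 2 * gev X X g)) := by ring
        _ < (x 0 ^ 2 * (2 * X a)) ^ 2 := h4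
        _ = _ := by ring
    have h6 := lt_of_mul_lt_mul_left h5 hx04.le
    rw [← abs_of_nonneg (show (0:ℝ) ≤ |X a| / 2 by positivity)]
    apply sq_le_sq.1
    rw [div_pow, sq_abs]
    linarith
  have hXa : 0 < |X a| := by
    rw [abs_pos]
    intro h0
    have h1 : bev x x (a, 0) = 0 := by rw [hb, h0]; ring
    rw [h1] at h
    have h2 : 0 ≤ ((gsys T).map (fun g => gev x x g * gev x x g)).sum := by
      refine List.sum_nonneg ?_
      intro r hr
      rw [List.mem_map] at hr
      obtain ⟨g, _, rfl⟩ := hr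
      exact mul_self_nonneg _
    have h3 : 0 ≤ m * ((gsys T).map (fun g => gev x x g * gev x x g)).sum :=
      mul_nonneg (by linarith) h2
    linarith
  -- the last variable of the chain
  have hXa1 : |X a| ≤ 1 := by
    have h1 := hge (slack4 a (a + 1)) (mem_gsys.2 (by
      right; right; right; left; rfl))
    rw [gev_slack4 X0] at h1
    have h2 := le_abs_self (2 * (4 * X a ^ 2 + X (a + 1) ^ 2 - 1))
    have h3 : 4 * |X a| ^ 2 ≤ 1 + |X a| / 4 := by
      rw [sq_abs]
      nlinarith [sq_nonneg (X (a + 1))]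
    by_contra hcon
    push Not at hcon
    nlinarith
  -- the chain
  have hchain : |X a| ≤ (1 / 2) ^ 2 ^ cL T := by
    have h1 := chain_small (b := fun j => |X (cv T j)|) (L := cL T) (fun j => abs_nonneg _)
      hXa hXa1 (by
        have h1 := hge ((8, cv T 0, 0), (-1, 0, 0), (0, 0, 0)) (mem_gsys.2 (by
          right; right; left; rfl))
        have h2 : gev X X ((8, cv T 0, 0), (-1, 0, 0), (0, 0, 0)) = 2 * (8 * X (cv T 0) - 1) := by
          simp only [gev, tev, bev, X0]
          push_cast
          ring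
        rw [h2, abs_le] at h1
        rw [abs_le]
        constructor
        · linarith [h1.1]
        · linarith [h1.2]) (by
        intro j hj
        have h1 := hge ((1, cv T j, cv T j), (-1, cv T (j + 1), 0), (0, 0, 0)) (mem_gsys.2 (by
          right; right; right; right; exact ⟨j, hj, rfl⟩))
        have h2 : gev X X ((1, cv T j, cv T j), (-1, cv T (j + 1), 0), (0, 0, 0)) =
            2 * (X (cv T j) ^ 2 - X (cv T (j + 1))) := by
          simp only [gev, tev, bev, X0]
          push_cast
          ring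
        rw [h2, abs_le] at h1
        rw [sq_abs, abs_le]
        have h3 := sq_nonneg (X (cv T j))
        constructor
        · linarith [h1.1, h1.2]
        · linarith [h1.1, h1.2])
    exact h1
  obtain ⟨w', hw'⟩ := holds_of_approx (S := T) (w := fun i => X (ix (svars T) i)) (by
    intro i hi
    have h0 : (svars T).idxOf i < vN T := List.idxOf_lt_length_of_mem hi
    have h1 := hge (slack4 ((svars T).idxOf i + 1) (vN T + 1 + (svars T).idxOf i)) (mem_gsys.2 (by
      right; left; exact ⟨_, h0, rfl⟩))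
    rw [gev_slack4 X0] at h1
    have h2 := le_abs_self (2 * (4 * X ((svars T).idxOf i + 1) ^ 2 +
      X (vN T + 1 + (svars T).idxOf i) ^ 2 - 1))
    simp only [ix]
    have h3 : X ((svars T).idxOf i + 1) ^ 2 ≤ 1 := by
      nlinarith [sq_nonneg (X (vN T + 1 + (svars T).idxOf i))]
    rw [← sq_abs] at h3
    by_contra hcon
    push Not at hcon
    nlinarith) (by
    intro c hc
    have h1 := hge (hcon (svars T) c) (mem_gsys.2 (Or.inl ⟨c, hc, rfl⟩))
    rw [gev_hcon X0, abs_mul, abs_of_pos (show (0 : ℝ) < 2 by norm_num)] at h1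
    have h2 : |c.err fun i => X (ix (svars T) i)| ≤ (1 / 2) ^ 2 ^ cL T := by linarith
    have h3 : (0 : ℝ) < 2 ^ 2 ^ gapK T.length := by positivity
    calc |c.err fun i => X (ix (svars T) i)| * 2 ^ 2 ^ gapK T.length ≤
        (1 / 2) ^ 2 ^ cL T * 2 ^ 2 ^ gapK T.length := mul_le_mul_of_nonneg_right h2 h3.le
      _ = 1 := by
        unfold cL
        rw [← mul_pow]
        norm_num)
  exact sat_of_bsys hw'

/-- A solution gives a strict inequality. -/
theorem lt_of_sat {S : List ER.Con} (h : Sat S) : ∃ x : ℕ → ℝ,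
    ((gsys (bsys S)).length : ℝ) *
      ((gsys (bsys S)).map (fun g => gev x x g * gev x x g)).sum <
      bev x x (cv (bsys S) (cL (bsys S)), 0) ^ 2 := by
  obtain ⟨w, hw, hc⟩ := bsys_of_sat h
  set T := bsys S with hT
  set V := svars T with hV
  set N := vN T with hN
  have hNV : V.length = N := rfl
  set L := cL T with hL
  let X : ℕ → ℝ := fun i => if i = 0 then 1 else if i < N + 1 then w (V.getD (i - 1) 0) else
    if i < 2 * N + 1 then Real.sqrt (1 - 4 * w (V.getD (i - (N + 1)) 0) ^ 2) else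
    if i < 2 * N + 1 + (L + 1) then (1 / 8) ^ 2 ^ (i - (2 * N + 1)) else
    Real.sqrt (1 - 4 * ((1 / 8) ^ 2 ^ L) ^ 2)
  have x0 : X 0 = 1 := by simp [X]
  have x1 : ∀ r < N, X (r + 1) = w (V.getD r 0) := by
    intro r hr
    simp only [X]
    rw [if_neg (by omega), if_pos (by omega)]
    simp
  have x2 : ∀ r < N, X (N + 1 + r) = Real.sqrt (1 - 4 * w (V.getD r 0) ^ 2) := by
    intro r hr
    simp only [X]
    rw [if_neg (by omega), if_neg (by omega), if_pos (by omega)]
    have : N + 1 + r - (N + 1) = r := by omega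
    rw [this]
  have x3 : ∀ j ≤ L, X (cv T j) = (1 / 8) ^ 2 ^ j := by
    intro j hj
    simp only [X, cv]
    rw [if_neg (by omega), if_neg (by omega), if_neg (by omega), if_pos (by omega)]
    have : 2 * vN T + 1 + j - (2 * N + 1) = j := by omega
    rw [this]
  have x4 : X (cv T L + 1) = Real.sqrt (1 - 4 * ((1 / 8) ^ 2 ^ L) ^ 2) := by
    simp only [X, cv]
    rw [if_neg (by omega), if_neg (by omega), if_neg (by omega), if_neg (by omega)]
  have xi : ∀ i ∈ V, X (ix V i) = w i := by
    intro i hi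
    have h1 := List.idxOf_lt_length_of_mem hi
    unfold ix
    rw [x1 _ h1, List.getD_eq_getElem _ _ h1, List.getElem_idxOf h1]
  have hzero : ∀ g ∈ gsys T, gev X X g = 0 := by
    intro g hg
    rw [mem_gsys] at hg
    rcases hg with ⟨c, hcT, rfl⟩ | ⟨r, hr, rfl⟩ | rfl | rfl | ⟨j, hj, rfl⟩
    · rw [gev_hcon x0]
      have h1 : c.err (fun i => X (ix V i)) = c.err w := by
        cases c with
        | one i => simp only [Con.err]; rw [xi i (mem_svars hcT (by simp [Con.vars]))]
        | add i j k =>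
          simp only [Con.err]
          rw [xi i (mem_svars hcT (by simp [Con.vars])), xi j (mem_svars hcT (by simp [Con.vars])),
            xi k (mem_svars hcT (by simp [Con.vars]))]
        | mul i j k =>
          simp only [Con.err]
          rw [xi i (mem_svars hcT (by simp [Con.vars])), xi j (mem_svars hcT (by simp [Con.vars])),
            xi k (mem_svars hcT (by simp [Con.vars]))]
      rw [← hV, h1, Con.err_eq_zero.2 (hc c hcT), mul_zero]
    · rw [gev_slack4 x0, x1 r hr, x2 r hr, Real.sq_sqrt]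
      · ring
      · have h2 := hw (V.getD r 0)
        have h3 : w (V.getD r 0) ^ 2 ≤ (1 / 8) ^ 2 := by
          rw [← sq_abs]
          exact pow_le_pow_left₀ (abs_nonneg _) h2 2
        have h4 : ((1 : ℝ) / 8) ^ 2 = 1 / 64 := by norm_num
        rw [h4] at h3
        linarith
    · have h1 := x3 0 (by omega)
      simp only [gev, tev, bev, x0, h1]
      norm_num
    · rw [gev_slack4 x0, x3 L le_rfl, x4, Real.sq_sqrt]
      · ring
      · have h2 : ((1 : ℝ) / 8) ^ 2 ^ L ≤ 1 / 8 := by
          calc ((1 : ℝ) / 8) ^ 2 ^ L ≤ (1 / 8) ^ 1 :=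
                pow_le_pow_of_le_one (by norm_num) (by norm_num) Nat.one_le_two_pow
            _ = 1 / 8 := pow_one _
        have h3 : (0 : ℝ) ≤ (1 / 8) ^ 2 ^ L := by positivity
        nlinarith
    · have h1 := x3 j (by omega)
      have h2 := x3 (j + 1) (by omega)
      simp only [gev, tev, bev, x0, h1, h2]
      push_cast
      rw [pow_succ 2 j, pow_mul]
      ring
  refine ⟨X, ?_⟩
  have h1 : ((gsys T).map (fun g => gev X X g * gev X X g)).sum = 0 := by
    apply List.sum_eq_zero
    intro r hr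
    rw [List.mem_map] at hr
    obtain ⟨g, hg, rfl⟩ := hr
    rw [hzero g hg, mul_zero]
  rw [h1, mul_zero]
  have h2 : bev X X (cv T L, 0) = 2 * (1 / 8) ^ 2 ^ L := by
    simp only [bev, x0, x3 L le_rfl]
    ring
  rw [h2]
  positivity

end Pool.Agent.Q325.Spec
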