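import Pool.Agent.Q325.SpecC
import Pool.Agent.H78R3.TSV.Mem
import Pool.Agent.H612.AR

/-!
# The spectral norm of tensors: complexity
-/

namespace Pool.Agent.NPC.Q325SP

open Pool.Agent.NPC Pool.Agent.NPC.ER Pool.Agent.H78R3.TSV Pool.Agent.Q325.Spec
  Pool.Agent.NPC.H78TSV Pool.Agent.NPC.H670R2

theorem nb_congr {d : ℕ} {t t' : ℕ → ℕ → ℕ → ℝ} {σ : ℝ}
    (h : ∀ i < d, ∀ j < d, ∀ k < d, t i j k = t' i j k) : NB d t σ ↔ NB d t' σ := by
  have key : ∀ x y z : ℕ → ℝ,
      ∑ i ∈ Finset.range d, ∑ j ∈ Finset.range d, ∑ k ∈ Finset.range d,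
        t i j k * x i * y j * z k =
      ∑ i ∈ Finset.range d, ∑ j ∈ Finset.range d, ∑ k ∈ Finset.range d,
        t' i j k * x i * y j * z k := fun x y z =>
    Finset.sum_congr rfl fun i hi => Finset.sum_congr rfl fun j hj =>
      Finset.sum_congr rfl fun k hk => by
        rw [h i (Finset.mem_range.1 hi) j (Finset.mem_range.1 hj) k (Finset.mem_range.1 hk)]
  unfold NB
  simp only [key]

theorem bound_iff (q : List (List (List ℚ)) × ℚ) : SpectralNormBound q ↔ IsCube q.1 ∧ 0 < q.2 ∧
    NB q.1.length (fun i j k => ((entry q.1 i j k : ℚ) : ℝ)) (q.2 : ℝ) := by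
  unfold SpectralNormBound
  refine and_congr Iff.rfl ⟨fun h => ⟨h.1, ?_⟩, fun h => ⟨h.1, ?_⟩⟩
  · have h0 : (0 : ℝ) ≤ (q.2 : ℝ) := by exact_mod_cast h.1.le
    exact (spectralNorm_le_iff (fun i j k => ((entry q.1 i j k : ℚ) : ℝ)) h0).1 h.2
  · have h0 : (0 : ℝ) ≤ (q.2 : ℝ) := by exact_mod_cast h.1.le
    exact (spectralNorm_le_iff (fun i j k => ((entry q.1 i j k : ℚ) : ℝ)) h0).2 h.2

theorem exceed_iff (q : List (List (List ℚ)) × ℚ) : SpectralNormExceed q ↔
    IsCube q.1 ∧ 0 < q.2 ∧
      ¬ NB q.1.length (fun i j k => ((entry q.1 i j k : ℚ) : ℝ)) (q.2 : ℝ) := by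
  unfold SpectralNormExceed
  refine and_congr Iff.rfl ⟨fun h => ⟨h.1, ?_⟩, fun h => ⟨h.1, ?_⟩⟩
  · have h0 : (0 : ℝ) ≤ (q.2 : ℝ) := by exact_mod_cast h.1.le
    intro h1
    exact absurd ((spectralNorm_le_iff (fun i j k => ((entry q.1 i j k : ℚ) : ℝ)) h0).2 h1)
      (not_le.2 h.2)
  · have h0 : (0 : ℝ) ≤ (q.2 : ℝ) := by exact_mod_cast h.1.le
    by_contra h1
    exact h.2 ((spectralNorm_le_iff (fun i j k => ((entry q.1 i j k : ℚ) : ℝ)) h0).1
      (not_lt.1 h1))

/-- The list of the slices. -/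
def sliceL (T : List ER.Con) : List (List QT) := formsA (gn T) (cv T (cL T)) (gsys T)

/-- The dimension. -/
def dimN (T : List ER.Con) : ℕ := gn T + (sliceL T).length

/-- The instance of a system. -/
def instN (S : List ER.Con) : List (List (List ℚ)) × ℚ :=
  (tenL (dimN (bsys S)) (sliceL (bsys S)), (((48 * (gsys (bsys S)).length : ℕ) : ℤ) : ℚ))

theorem nb_tenL (d : ℕ) (L : List (List QT)) (σ : ℝ) :
    NB d (fun i j k => ((entry (tenL d L) i j k : ℚ) : ℝ)) σ ↔
    NB d (fun i j k => (ten L i j k : ℝ)) σ :=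
  nb_congr fun i hi j hj k hk => by
    rw [entry_tenL hi hj hk]
    push_cast
    rfl

/-- **Correctness of the reduction.** -/
theorem sat_iff_not_nb (S : List ER.Con) : Sat S ↔
    ¬ NB (dimN (bsys S)) (fun i j k => (ten (sliceL (bsys S)) i j k : ℝ))
      (48 * ((gsys (bsys S)).length : ℝ)) := by
  set T := bsys S with hT
  have hTne : T ≠ [] := bsys_ne_nil S
  have hG : ∀ g ∈ gsys T, GOk (gn T) g := fun g hg => (gsys_ok T g hg).1
  have hs : ∀ g ∈ gsys T, GSm g := fun g hg => (gsys_ok T g hg).2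
  have hne : gsys T ≠ [] := by
    intro h
    have := gsys_length hTne
    rw [h] at this
    simp at this
  have ha : cv T (cL T) < gn T := by unfold gn; omega
  have hlen : (formsA (gn T) (cv T (cL T)) (gsys T)).length ≤ dimN T := by
    unfold dimN sliceL
    omega
  have key : NB (dimN T) (fun i j k => (ten (sliceL T) i j k : ℝ))
      (48 * ((gsys T).length : ℝ)) ↔ ∀ x : ℕ → ℝ, bev x x (cv T (cL T), 0) ^ 2 ≤
      ((gsys T).length : ℝ) * ((gsys T).map (fun g => gev x x g * gev x x g)).sum :=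
    (nb_iff (fok_formsA hG ha) (by unfold dimN; omega) hlen (by positivity)).trans
      (pen_iff hG hs hne ha)
  rw [key]
  constructor
  · intro h h1
    obtain ⟨x, hx⟩ := lt_of_sat h
    exact absurd (h1 x) (not_le.2 hx)
  · intro h
    push Not at h
    obtain ⟨x, hx⟩ := h
    exact sat_of_lt hx

theorem instN_facts (S : List ER.Con) : IsCube (instN S).1 ∧ 0 < (instN S).2 ∧
    (NB (instN S).1.length (fun i j k => ((entry (instN S).1 i j k : ℚ) : ℝ))
      ((instN S).2 : ℝ) ↔ NB (dimN (bsys S)) (fun i j k => (ten (sliceL (bsys S)) i j k : ℝ))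
      (48 * ((gsys (bsys S)).length : ℝ))) := by
  have h16 := gsys_length (bsys_ne_nil S)
  have h2 : (0 : ℚ) < (((48 * (gsys (bsys S)).length : ℕ) : ℤ) : ℚ) := by
    exact_mod_cast (by omega : 0 < 48 * (gsys (bsys S)).length)
  have h4 : (((((48 * (gsys (bsys S)).length : ℕ) : ℤ) : ℚ)) : ℝ) =
      48 * ((gsys (bsys S)).length : ℝ) := by
    push_cast
    ring
  generalize hT : bsys S = T at *
  have hi : instN S = (tenL (dimN T) (sliceL T), (((48 * (gsys T).length : ℕ) : ℤ) : ℚ)) := by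
    rw [instN, hT]
  rw [hi]
  generalize sliceL T = L at *
  generalize dimN T = d at *
  generalize (((48 * (gsys T).length : ℕ) : ℤ) : ℚ) = r at *
  dsimp only
  refine ⟨isCube_tenL d L, h2, ?_⟩
  rw [length_tenL, h4, nb_tenL]

theorem sat_iff_exceed (S : List ER.Con) : Sat S ↔ SpectralNormExceed (instN S) := by
  obtain ⟨h1, h2, h3⟩ := instN_facts S
  rw [exceed_iff, h3, sat_iff_not_nb]
  exact ⟨fun h => ⟨h1, h2, h⟩, fun h => h.2.2⟩

theorem sat_iff_not_bound (S : List ER.Con) : Sat S ↔ ¬ SpectralNormBound (instN S) := by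
  obtain ⟨h1, h2, h3⟩ := instN_facts S
  rw [bound_iff, h3, sat_iff_not_nb]
  exact ⟨fun h h' => h h'.2.2, fun h h' => h ⟨h1, h2, h'⟩⟩

/-! ### Polynomial time -/

section

variable {α : Type} [TEnc α]

theorem poly_vN {T : α → List ER.Con} (hT : Poly T) : UPoly (fun a => vN (T a)) :=
  UPoly.length (poly_svars hT)

theorem poly_cL {T : α → List ER.Con} (hT : Poly T) : UPoly (fun a => cL (T a)) :=
  UPoly.add (UPoly.mul (UPoly.const 11) (UPoly.length hT)) (UPoly.const 7)

theorem poly_cv {T : α → List ER.Con} {j : α → ℕ} (hT : Poly T) (hj : Poly j) :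
    Poly (fun a => cv (T a) (j a)) :=
  Poly.add (Poly.succ (Poly.mul (Poly.const 2) (poly_vN hT).toPoly)) hj

theorem poly_slack4 {i j : α → ℕ} (hi : Poly i) (hj : Poly j) :
    Poly (fun a => slack4 (i a) (j a)) :=
  Poly.pair (Poly.pair (Poly.const 4) (Poly.pair hi hi))
    (Poly.pair (Poly.pair (Poly.const 1) (Poly.pair hj hj)) (Poly.const _))

theorem poly_gsys {T : α → List ER.Con} (hT : Poly T) : Poly (fun a => gsys (T a)) := by
  have hV := poly_svars hT
  have h0 := poly_cv hT (Poly.const 0)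
  have hL := poly_cv hT (poly_cL hT).toPoly
  refine Poly.append ?_ (Poly.append ?_ (Poly.append ?_ ?_))
  · exact Poly.map (F := fun a c => hcon (svars (T a)) c) hT
      (poly_hcon (hV.comp (Poly.fst Poly.id)) (Poly.snd Poly.id))
  · refine Poly.map (F := fun a r => slack4 (r + 1) (vN (T a) + 1 + r)) (poly_vN hT).range ?_
    have hr : Poly (fun q : α × ℕ => q.2) := Poly.snd Poly.id
    exact poly_slack4 (Poly.succ hr) (Poly.add (Poly.succ ((poly_vN hT).toPoly.comp
      (Poly.fst Poly.id))) hr)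
  · refine Poly.cons ?_ (Poly.cons (poly_slack4 hL (Poly.succ hL)) (Poly.const []))
    exact Poly.pair (Poly.pair (Poly.const 8) (Poly.pair h0 (Poly.const 0))) (Poly.const _)
  · refine Poly.map (F := fun a j => (((1 : ℤ), cv (T a) j, cv (T a) j),
      ((-1 : ℤ), cv (T a) (j + 1), 0), ((0 : ℤ), 0, 0))) (poly_cL hT).range ?_
    have hj : Poly (fun q : α × ℕ => q.2) := Poly.snd Poly.id
    have h1 := poly_cv (hT.comp (Poly.fst Poly.id)) hj
    have h2 := poly_cv (hT.comp (Poly.fst Poly.id)) (Poly.succ hj)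
    exact Poly.pair (Poly.pair (Poly.const 1) (Poly.pair h1 h1))
      (Poly.pair (Poly.pair (Poly.const (-1)) (Poly.pair h2 (Poly.const 0))) (Poly.const _))

theorem upoly_gn {T : α → List ER.Con} (hT : Poly T) : UPoly (fun a => gn (T a)) := by
  unfold gn cv
  exact UPoly.add (UPoly.add (UPoly.add (UPoly.mul (UPoly.const 2) (poly_vN hT)) (UPoly.const 1))
    (poly_cL hT)) (UPoly.const 2)

theorem poly_sliceL {T : α → List ER.Con} (hT : Poly T) : Poly (fun a => sliceL (T a)) := by
  unfold sliceL formsA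
  refine Poly.append (poly_forms (upoly_gn hT) (poly_gsys hT)) ?_
  refine Poly.cons (Poly.cons ?_ (Poly.const [])) (Poly.const [])
  exact Poly.pair (Poly.const 1) (Poly.pair (poly_cv hT (poly_cL hT).toPoly) (Poly.const 0))

theorem poly_instN {S : α → List ER.Con} (hS : Poly S) : Poly (fun a => instN (S a)) := by
  have hT := poly_bsys hS
  have hF := poly_sliceL hT
  refine Poly.pair (poly_tenL (UPoly.add (upoly_gn hT) (UPoly.length hF)) hF) ?_
  exact poly_intToRat (Poly.natCast (Poly.mul (Poly.const 48) (Poly.length (poly_gsys hT))))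

end

/-- SPECTRAL-NORM-EXCEED is `∃ℝ`-hard. -/
theorem exceed_hard : ERHard (lang SpectralNormExceed) :=
  ERHard.of_sys (poly_instN Poly.id) sat_iff_exceed

/-- SPECTRAL-NORM-BOUND is `∀ℝ`-hard. -/
theorem bound_hard : ARHard (lang SpectralNormBound) :=
  ARHard.of_sys (poly_instN Poly.id) sat_iff_not_bound

/-! ### Membership -/

/-- The trilinear form. -/
def trT (d : ℕ) : Tm :=
  sumTm ((List.range d).map fun i => Tm.mul (Tm.var (4 * i))
    (sumTm ((List.range d).flatMap fun j => (List.range d).map fun k =>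
      Tm.mul (Tm.mul (Tm.var (vw d i j k)) (Tm.var (4 * j + 1))) (Tm.var (4 * k + 2)))))

/-- The list of the formulas. -/
def fN (q : List (List (List ℚ)) × ℚ) : List Fm :=
  fU q.1.length 0 :: fU q.1.length 1 :: fU q.1.length 2 ::
    eqRat (Tm.var (vs q.1.length)) q.2 ::
    Fm.or (Fm.lt (Tm.var (vs q.1.length)) (trT q.1.length))
      (Fm.lt (Tm.var (vs q.1.length)) (Tm.neg (trT q.1.length))) :: fEnt q.1

/-- The formula for exceeding. -/
def fEx (q : List (List (List ℚ)) × ℚ) : Fm :=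
  bif isCubeB q.1 && isPosB q.2 then H670R2.conj (fN q) else H670R2.ff

/-- The formula for not being bounded. -/
def fNB (q : List (List (List ℚ)) × ℚ) : Fm :=
  bif isCubeB q.1 && isPosB q.2 then H670R2.conj (fN q) else H612.tt

theorem eval_trT (d : ℕ) (v : ℕ → ℝ) : (trT d).eval v =
    ∑ i ∈ Finset.range d, ∑ j ∈ Finset.range d, ∑ k ∈ Finset.range d,
      v (vw d i j k) * v (4 * i) * v (4 * j + 1) * v (4 * k + 2) := by
  unfold trT
  rw [eval_sumTm, List.map_map]
  have h1 : (Tm.eval v ∘ fun i => Tm.mul (Tm.var (4 * i))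
    (sumTm ((List.range d).flatMap fun j => (List.range d).map fun k =>
      Tm.mul (Tm.mul (Tm.var (vw d i j k)) (Tm.var (4 * j + 1))) (Tm.var (4 * k + 2))))) =
      fun i => ∑ j ∈ Finset.range d, ∑ k ∈ Finset.range d,
        v (vw d i j k) * v (4 * i) * v (4 * j + 1) * v (4 * k + 2) := by
    funext i
    simp only [Function.comp, Tm.eval, eval_sumTm, sum_flatMap_range, sum_list_range]
    rw [Finset.mul_sum]
    refine Finset.sum_congr rfl fun j _ => ?_
    rw [Finset.mul_sum]
    exact Finset.sum_congr rfl fun k _ => by ring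
  rw [h1, sum_list_range]

/-- **Correctness of the formula.** -/
theorem conj_iff (q : List (List (List ℚ)) × ℚ) : ETR (H670R2.conj (fN q)) ↔
    ¬ NB q.1.length (fun i j k => ((entry q.1 i j k : ℚ) : ℝ)) (q.2 : ℝ) := by
  unfold ETR
  have hf : ∀ v : ℕ → ℝ, (H670R2.conj (fN q)).Holds v ↔
      (fU q.1.length 0).Holds v ∧ (fU q.1.length 1).Holds v ∧ (fU q.1.length 2).Holds v ∧
      (eqRat (Tm.var (vs q.1.length)) q.2).Holds v ∧
      (Fm.or (Fm.lt (Tm.var (vs q.1.length)) (trT q.1.length))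
        (Fm.lt (Tm.var (vs q.1.length)) (Tm.neg (trT q.1.length)))).Holds v ∧
      (∀ φ ∈ fEnt q.1, φ.Holds v) := by
    intro v
    rw [H670R2.holds_conj]
    unfold fN
    simp only [List.forall_mem_cons]
  simp_rw [hf, holds_fU, holds_fEnt, holds_eqRat, Fm.Holds, Tm.eval, eval_trT]
  set d := q.1.length with hd
  constructor
  · rintro ⟨v, hx, hy, hz, v3, hlt, v4⟩ hNB
    have h1 := hNB (fun i => v (4 * i)) (fun i => v (4 * i + 1)) (fun i => v (4 * i + 2)) hx hy hz
    have h2 : ∑ i ∈ Finset.range d, ∑ j ∈ Finset.range d, ∑ k ∈ Finset.range d,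
        v (vw d i j k) * v (4 * i) * v (4 * j + 1) * v (4 * k + 2) =
        ∑ i ∈ Finset.range d, ∑ j ∈ Finset.range d, ∑ k ∈ Finset.range d,
        ((entry q.1 i j k : ℚ) : ℝ) * v (4 * i) * v (4 * j + 1) * v (4 * k + 2) :=
      Finset.sum_congr rfl fun i hi => Finset.sum_congr rfl fun j hj =>
        Finset.sum_congr rfl fun k hk => by
          rw [v4 i (Finset.mem_range.1 hi) j (Finset.mem_range.1 hj) k (Finset.mem_range.1 hk)]
    rw [v3, h2] at hlt
    rw [abs_le] at h1
    rcases hlt with h3 | h3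
    · linarith [h1.2]
    · linarith [h1.1]
  · intro hNB
    unfold NB at hNB
    push Not at hNB
    obtain ⟨x, y, z, hx, hy, hz, hlt⟩ := hNB
    let v : ℕ → ℝ := fun n => if n % 4 = 0 then x (n / 4) else if n % 4 = 1 then y (n / 4) else
      if n % 4 = 2 then z (n / 4) else
      if n / 4 = d * d * d then (q.2 : ℝ) else
        ((entry q.1 (n / 4 / d / d) (n / 4 / d % d) (n / 4 % d) : ℚ) : ℝ)
    have v0 : ∀ i, v (4 * i) = x i := by
      intro i
      simp only [v]
      rw [if_pos (by omega)]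
      congr 1; omega
    have v0' : ∀ i, v (4 * i + 0) = x i := v0
    have v1 : ∀ i, v (4 * i + 1) = y i := by
      intro i
      simp only [v]
      rw [if_neg (by omega), if_pos (by omega)]
      congr 1; omega
    have v2 : ∀ i, v (4 * i + 2) = z i := by
      intro i
      simp only [v]
      rw [if_neg (by omega), if_neg (by omega), if_pos (by omega)]
      congr 1; omega
    have v3 : v (vs d) = (q.2 : ℝ) := by
      simp only [v, vs]
      rw [if_neg (by omega), if_neg (by omega), if_neg (by omega), if_pos (by omega)]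
    have v4 : ∀ i < d, ∀ j < d, ∀ k < d, v (vw d i j k) = ((entry q.1 i j k : ℚ) : ℝ) := by
      intro i hi j hj k hk
      have e0 : (4 * ((i * d + j) * d + k) + 3) / 4 = (i * d + j) * d + k := by omega
      have hd0 : 0 < d := by omega
      have e1 : ((i * d + j) * d + k) % d = k := by
        rw [Nat.mul_comm, Nat.mul_add_mod, Nat.mod_eq_of_lt hk]
      have e2 : ((i * d + j) * d + k) / d = i * d + j := by
        rw [Nat.mul_comm, Nat.mul_add_div hd0, Nat.div_eq_of_lt hk, Nat.add_zero]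
      have e3 : (i * d + j) % d = j := by
        rw [Nat.mul_comm, Nat.mul_add_mod, Nat.mod_eq_of_lt hj]
      have e4 : (i * d + j) / d = i := by
        rw [Nat.mul_comm, Nat.mul_add_div hd0, Nat.div_eq_of_lt hj, Nat.add_zero]
      have e5 : (i * d + j) * d + k ≠ d * d * d := by
        have h5 : i * d + j < d * d := by
          calc i * d + j < i * d + d := by omega
            _ = (i + 1) * d := by ring
            _ ≤ d * d := Nat.mul_le_mul_right _ hi
        have h6 : (i * d + j) * d + k < d * d * d := by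
          calc (i * d + j) * d + k < (i * d + j) * d + d := by omega
            _ = (i * d + j + 1) * d := by ring
            _ ≤ d * d * d := Nat.mul_le_mul_right _ h5
        omega
      simp only [v, vw]
      rw [if_neg (by omega), if_neg (by omega), if_neg (by omega), e0, if_neg e5, e2, e4, e1, e3]
    refine ⟨v, ?_, ?_, ?_, v3, ?_, v4⟩
    · simp_rw [v0']; exact hx
    · simp_rw [v1]; exact hy
    · simp_rw [v2]; exact hz
    · have h2 : ∑ i ∈ Finset.range d, ∑ j ∈ Finset.range d, ∑ k ∈ Finset.range d,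
          v (vw d i j k) * v (4 * i) * v (4 * j + 1) * v (4 * k + 2) =
          ∑ i ∈ Finset.range d, ∑ j ∈ Finset.range d, ∑ k ∈ Finset.range d,
          ((entry q.1 i j k : ℚ) : ℝ) * x i * y j * z k :=
        Finset.sum_congr rfl fun i hi => Finset.sum_congr rfl fun j hj =>
          Finset.sum_congr rfl fun k hk => by
            rw [v4 i (Finset.mem_range.1 hi) j (Finset.mem_range.1 hj) k (Finset.mem_range.1 hk),
              v0, v1, v2]
      rw [v3, h2]
      exact lt_abs.1 hlt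

theorem test_iff (q : List (List (List ℚ)) × ℚ) :
    (isCubeB q.1 && isPosB q.2) = true ↔ IsCube q.1 ∧ 0 < q.2 := by
  rw [Bool.and_eq_true, isCubeB_iff, isPosB_iff]

theorem exceed_iff_etr (q : List (List (List ℚ)) × ℚ) :
    SpectralNormExceed q ↔ ETR (fEx q) := by
  rw [exceed_iff]
  unfold fEx
  by_cases hq : (isCubeB q.1 && isPosB q.2) = true
  · rw [hq, cond_true, conj_iff]
    obtain ⟨h1, h2⟩ := (test_iff q).1 hq
    exact ⟨fun h => h.2.2, fun h => ⟨h1, h2, h⟩⟩
  · rw [Bool.not_eq_true] at hq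
    rw [hq, cond_false]
    constructor
    · rintro ⟨h1, h2, -⟩
      rw [(test_iff q).2 ⟨h1, h2⟩] at hq
      exact absurd hq (by decide)
    · intro h
      exact absurd h H670R2.not_etr_ff

theorem not_bound_iff_etr (q : List (List (List ℚ)) × ℚ) :
    ¬ SpectralNormBound q ↔ ETR (fNB q) := by
  rw [bound_iff]
  unfold fNB
  by_cases hq : (isCubeB q.1 && isPosB q.2) = true
  · rw [hq, cond_true, conj_iff]
    obtain ⟨h1, h2⟩ := (test_iff q).1 hq
    exact ⟨fun h h' => h ⟨h1, h2, h'⟩, fun h h' => h h'.2.2⟩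
  · have hq' := hq
    rw [Bool.not_eq_true] at hq
    rw [hq, cond_false]
    constructor
    · intro _
      exact ⟨fun _ => 0, H612.holds_tt _⟩
    · rintro - ⟨h1, h2, -⟩
      exact hq' ((test_iff q).2 ⟨h1, h2⟩)

section

variable {α : Type} [TEnc α]

theorem poly_trT {d : α → ℕ} (hd : UPoly d) : Poly (fun a => trT (d a)) := by
  refine poly_sumTm (Poly.map (F := fun a i => Tm.mul (Tm.var (4 * i))
    (sumTm ((List.range (d a)).flatMap fun j => (List.range (d a)).map fun k =>
      Tm.mul (Tm.mul (Tm.var (vw (d a) i j k)) (Tm.var (4 * j + 1))) (Tm.var (4 * k + 2)))))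
      hd.range ?_)
  have a1 : Poly (fun p : α × ℕ => p.1) := Poly.fst Poly.id
  have a2 : Poly (fun p : α × ℕ => p.2) := Poly.snd Poly.id
  have e1 : Poly (fun p : ((α × ℕ) × ℕ) × ℕ => p.1.1.1) :=
    Poly.fst (Poly.fst (Poly.fst Poly.id))
  have e2 : Poly (fun p : ((α × ℕ) × ℕ) × ℕ => p.1.1.2) :=
    Poly.snd (Poly.fst (Poly.fst Poly.id))
  have e3 : Poly (fun p : ((α × ℕ) × ℕ) × ℕ => p.1.2) := Poly.snd (Poly.fst Poly.id)
  have e4 : Poly (fun p : ((α × ℕ) × ℕ) × ℕ => p.2) := Poly.snd Poly.id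
  refine H670R2.poly_tmul (poly_lin0 a2) ?_
  refine poly_sum2 (F := fun (p : α × ℕ) j k => Tm.mul (Tm.mul (Tm.var (vw (d p.1) p.2 j k))
    (Tm.var (4 * j + 1))) (Tm.var (4 * k + 2))) (hd.comp a1) ?_
  exact H670R2.poly_tmul (H670R2.poly_tmul (H670R2.poly_tvar (poly_vw (hd.toPoly.comp e1) e2 e3
    e4)) (poly_lin e3 1)) (poly_lin e4 2)

theorem poly_fN : Poly fN := by
  have h1 : Poly (fun q : List (List (List ℚ)) × ℚ => q.1) := Poly.fst Poly.id
  have h2 : Poly (fun q : List (List (List ℚ)) × ℚ => q.2) := Poly.snd Poly.id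
  have hd : UPoly (fun q : List (List (List ℚ)) × ℚ => q.1.length) := UPoly.length h1
  have hs : Poly (fun q : List (List (List ℚ)) × ℚ => Tm.var (vs q.1.length)) :=
    H670R2.poly_tvar (poly_vs hd.toPoly)
  refine Poly.cons (poly_fU hd 0) (Poly.cons (poly_fU hd 1) (Poly.cons (poly_fU hd 2)
      (Poly.cons (poly_eqRat hs h2) (Poly.cons ?_ (poly_fEnt h1)))))
  exact H612.poly_for (H612.poly_flt hs (poly_trT hd))
    (H612.poly_flt hs (H612.poly_tneg (poly_trT hd)))

theorem poly_test : Poly (fun q : List (List (List ℚ)) × ℚ => isCubeB q.1 && isPosB q.2) := by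
  have h1 : Poly (fun q : List (List (List ℚ)) × ℚ => q.1) := Poly.fst Poly.id
  have h2 : Poly (fun q : List (List (List ℚ)) × ℚ => q.2) := Poly.snd Poly.id
  have hd : UPoly (fun q : List (List (List ℚ)) × ℚ => q.1.length) := UPoly.length h1
  refine Poly.and ?_ ?_
  · refine Poly.all (p := fun (q : List (List (List ℚ)) × ℚ) a =>
      decide (a.length = q.1.length) && a.all fun b => decide (b.length = q.1.length)) h1 ?_
    refine Poly.and (Poly.decide_eq (Poly.length (Poly.snd Poly.id))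
      (hd.toPoly.comp (Poly.fst Poly.id))) ?_
    refine Poly.all (p := fun (r : (List (List (List ℚ)) × ℚ) × List (List ℚ)) b =>
      decide (b.length = r.1.1.length)) (Poly.snd Poly.id) ?_
    exact Poly.decide_eq (Poly.length (Poly.snd Poly.id))
      (hd.toPoly.comp (Poly.fst (Poly.fst Poly.id)))
  · exact Poly.and (Poly.not (poly_isNeg (poly_ratNum h2)))
      (Poly.not (Poly.decide_eq (poly_natAbs (poly_ratNum h2)) (Poly.const 0)))

end

/-- SPECTRAL-NORM-EXCEED belongs to `∃ℝ`. -/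
theorem exceed_mem : InER (lang SpectralNormExceed) :=
  ER.InER.of_poly (Poly.cond poly_test (H670R2.poly_conj poly_fN) (Poly.const _)) exceed_iff_etr

/-- SPECTRAL-NORM-BOUND belongs to `∀ℝ`. -/
theorem bound_mem : InAR (lang SpectralNormBound) :=
  ER.InAR.of_poly (Poly.cond poly_test (H670R2.poly_conj poly_fN) (Poly.const _))
    not_bound_iff_etr

end Pool.Agent.NPC.Q325SP
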