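import Pool.Agent.Q325.AER
import Pool.Agent.H612.ClosedHard
import Pool.Agent.H612.GalHard

/-!
# Surjectivity of integer polynomial maps between full spaces is `∀∃ℝ`-complete
-/

namespace Pool.Agent.NPC.ER.Q325S

open Pool.Agent.NPC.H612 Pool.Agent.NPC.ER.Q325A

/-- The surjectivity problem on full spaces. An instance consists of the number `n` of variables
and of a list of `m` integer polynomials in `n` variables, each written as the list of its terms
(coefficient, exponent vector); the map `ℝⁿ → ℝᵐ` given by the polynomials is surjective. -/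
def SurjectiveMap (I : ℕ × List PolyData) : Prop :=
  (∀ p ∈ I.2, p.Valid I.1) ∧ Function.Surjective fun (x : Fin I.1 → ℝ) (j : Fin I.2.length) =>
    MvPolynomial.aeval x ((I.2.get j).toPoly I.1)

/-- The surjectivity problem on full spaces for polynomials all of whose terms have total degree
at most `d`. -/
def SurjectiveMapDeg (d : ℕ) (I : ℕ × List PolyData) : Prop :=
  (∀ p ∈ I.2, ∀ t ∈ p, t.2.sum ≤ d) ∧ SurjectiveMap I

/-- Product of raw polynomials. -/
def mulR (a b : List (Bool × List ℕ)) : List (Bool × List ℕ) :=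
  a.flatMap fun p => b.map fun p' => (xor p.1 p'.1, p.2 ++ p'.2)

theorem rawEval_cons (y : ℕ → ℝ) (p : Bool × List ℕ) (a : List (Bool × List ℕ)) :
    rawEval y (p :: a) = (sgn p.1 : ℝ) * (p.2.map y).prod + rawEval y a := by
  simp [rawEval]

theorem rawEval_nil (y : ℕ → ℝ) : rawEval y [] = 0 := by simp [rawEval]

theorem rawEval_mulR (y : ℕ → ℝ) (a b : List (Bool × List ℕ)) :
    rawEval y (mulR a b) = rawEval y a * rawEval y b := by
  have h1 : ∀ (p : Bool × List ℕ) (b : List (Bool × List ℕ)),
      rawEval y (b.map fun p' => (xor p.1 p'.1, p.2 ++ p'.2)) =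
        ((sgn p.1 : ℝ) * (p.2.map y).prod) * rawEval y b := by
    intro p b
    induction b with
    | nil => simp [rawEval]
    | cons p' b ih =>
      rw [List.map_cons, rawEval_cons, rawEval_cons, ih, List.map_append, List.prod_append]
      have hs : (sgn (xor p.1 p'.1) : ℝ) = (sgn p.1 : ℝ) * (sgn p'.1 : ℝ) := by
        cases p.1 <;> cases p'.1 <;> simp [sgn]
      simp only [hs]
      ring
  unfold mulR
  induction a with
  | nil => simp [rawEval]
  | cons p a ih =>
    rw [List.flatMap_cons, rawEval_append, ih, h1, rawEval_cons]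
    ring

theorem mulR_len {a b : List (Bool × List ℕ)} {d e : ℕ} (ha : ∀ p ∈ a, p.2.length ≤ d)
    (hb : ∀ p ∈ b, p.2.length ≤ e) : ∀ p ∈ mulR a b, p.2.length ≤ d + e := by
  intro p hp
  unfold mulR at hp
  rw [List.mem_flatMap] at hp
  obtain ⟨q, hq, hp⟩ := hp
  rw [List.mem_map] at hp
  obtain ⟨q', hq', rfl⟩ := hp
  have h1 := ha q hq
  have h2 := hb q' hq'
  simp only [List.length_append]
  omega

theorem mulR_lt {a b : List (Bool × List ℕ)} {n : ℕ} (ha : ∀ p ∈ a, ∀ i ∈ p.2, i < n)
    (hb : ∀ p ∈ b, ∀ i ∈ p.2, i < n) : ∀ p ∈ mulR a b, ∀ i ∈ p.2, i < n := by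
  intro p hp i hi
  unfold mulR at hp
  rw [List.mem_flatMap] at hp
  obtain ⟨q, hq, hp⟩ := hp
  rw [List.mem_map] at hp
  obtain ⟨q', hq', rfl⟩ := hp
  rcases List.mem_append.1 hi with hi | hi
  · exact ha q hq i hi
  · exact hb q' hq' i hi

/-- The variable of a name. -/
def rv (V : List ℕ) (a : ℕ) : ℕ := V.idxOf a + 4

/-- The polynomial of a constraint. -/
def cr (V : List ℕ) : Con → List (Bool × List ℕ)
  | .one i => [(false, [rv V i]), (true, [])]
  | .add i j k => [(false, [rv V i]), (false, [rv V j]), (true, [rv V k])]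
  | .mul i j k => [(false, [rv V i, rv V j]), (true, [rv V k])]

theorem rawEval_cr (V : List ℕ) (y : ℕ → ℝ) (c : Con) :
    rawEval y (cr V c) = 0 ↔ c.Holds fun a => y (rv V a) := by
  cases c with
  | one i =>
    simp only [cr, rawEval_cons, rawEval_nil, sgn, Con.Holds]
    simp only [Bool.false_eq_true, if_false, if_true, List.map_cons, List.map_nil,
      List.prod_cons, List.prod_nil]
    push_cast
    constructor
    · intro h; linarith
    · intro h; linarith
  | add i j k =>
    simp only [cr, rawEval_cons, rawEval_nil, sgn, Con.Holds]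
    simp only [Bool.false_eq_true, if_false, if_true, List.map_cons, List.map_nil,
      List.prod_cons, List.prod_nil]
    push_cast
    constructor
    · intro h; linarith
    · intro h; linarith
  | mul i j k =>
    simp only [cr, rawEval_cons, rawEval_nil, sgn, Con.Holds]
    simp only [Bool.false_eq_true, if_false, if_true, List.map_cons, List.map_nil,
      List.prod_cons, List.prod_nil]
    push_cast
    constructor
    · intro h; linarith
    · intro h; linarith

/-- The sum of the squares of the constraints and of the square of the third variable. -/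
def rF (V : List ℕ) (S : List Con) : List (Bool × List ℕ) :=
  (false, [3, 3]) :: S.flatMap fun c => mulR (cr V c) (cr V c)

theorem rawEval_rF (V : List ℕ) (S : List Con) (y : ℕ → ℝ) :
    rawEval y (rF V S) = y 3 * y 3 + (S.map fun c => (rawEval y (cr V c)) ^ 2).sum := by
  have key : ∀ S : List Con, rawEval y (S.flatMap fun c => mulR (cr V c) (cr V c)) =
      (S.map fun c => (rawEval y (cr V c)) ^ 2).sum := by
    intro S
    induction S with
    | nil => simp [rawEval]
    | cons c S ih =>
      rw [List.flatMap_cons, rawEval_append, ih, rawEval_mulR, List.map_cons, List.sum_cons]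
      ring
  unfold rF
  rw [rawEval_cons, key]
  simp [sgn]

/-- The first of the two last components. -/
def rG (V : List ℕ) (S : List Con) : List (Bool × List ℕ) :=
  mulR (rF V S) [(false, []), (false, [0, 1])]

/-- The second of the two last components. -/
def rH (V : List ℕ) (S : List Con) : List (Bool × List ℕ) :=
  mulR (rF V S) [(false, [1]), (false, [2]), (false, [2, 0, 1])]

theorem rawEval_rG (V : List ℕ) (S : List Con) (y : ℕ → ℝ) :
    rawEval y (rG V S) = rawEval y (rF V S) * (1 + y 0 * y 1) := by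
  unfold rG
  rw [rawEval_mulR]
  simp [rawEval, sgn]

theorem rawEval_rH (V : List ℕ) (S : List Con) (y : ℕ → ℝ) :
    rawEval y (rH V S) = rawEval y (rF V S) * (y 1 + y 2 * (1 + y 0 * y 1)) := by
  unfold rH
  rw [rawEval_mulR]
  simp [rawEval, sgn]
  left
  ring

/-- The coordinates of the universally quantified names. -/
def univ (E V : List ℕ) : List ℕ :=
  (List.range V.length).filter fun j => decide (V.idxOf (V.getD j 0) = j) && isE E (V.getD j 0)

/-- The components of the map. -/
def comps (E : List ℕ) (S : List Con) : List (List (Bool × List ℕ)) :=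
  ((univ E (varsOf S)).map fun j => [(false, [j + 4])]) ++ [rG (varsOf S) S, rH (varsOf S) S]

/-- The instance. -/
def inst (p : List ℕ × Fm) : ℕ × List PolyData :=
  let S := sysOf p.2
  ((varsOf S).length + 4, (comps p.1 S).map (collect ((varsOf S).length + 4)))

theorem rv_lt {S : List Con} {c : Con} (hc : c ∈ S) {j : ℕ} (hj : j ∈ c.vars) :
    rv (varsOf S) j < (varsOf S).length + 4 := by
  have : j ∈ varsOf S := List.mem_flatMap.2 ⟨c, hc, hj⟩
  have := List.idxOf_lt_length_iff.2 this
  unfold rv
  omega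

theorem cr_lt {S : List Con} {c : Con} (hc : c ∈ S) :
    ∀ p ∈ cr (varsOf S) c, ∀ i ∈ p.2, i < (varsOf S).length + 4 := by
  intro p hp i hi
  have hv := fun j hj => rv_lt (S := S) (c := c) hc (j := j) hj
  cases c with
  | one a =>
    simp [cr] at hp
    simp [Con.vars] at hv
    rcases hp with rfl | rfl
    · simp at hi
      exact hi ▸ hv
    · simp at hi
  | add a b d =>
    simp [cr] at hp
    simp [Con.vars] at hv
    rcases hp with rfl | rfl | rfl <;> simp at hi <;> rw [hi]
    · exact hv.1
    · exact hv.2.1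
    · exact hv.2.2
  | mul a b d =>
    simp [cr] at hp
    simp [Con.vars] at hv
    rcases hp with rfl | rfl
    · simp at hi
      rcases hi with rfl | rfl
      · exact hv.1
      · exact hv.2.1
    · simp at hi
      rw [hi]
      exact hv.2.2

theorem rF_lt (S : List Con) :
    ∀ p ∈ rF (varsOf S) S, ∀ i ∈ p.2, i < (varsOf S).length + 4 := by
  intro p hp i hi
  unfold rF at hp
  rcases List.mem_cons.1 hp with rfl | hp
  · simp at hi
    omega
  · rw [List.mem_flatMap] at hp
    obtain ⟨c, hc, hp⟩ := hp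
    exact mulR_lt (cr_lt hc) (cr_lt hc) p hp i hi

theorem comps_lt (E : List ℕ) (S : List Con) :
    ∀ r ∈ comps E S, ∀ p ∈ r, ∀ i ∈ p.2, i < (varsOf S).length + 4 := by
  intro r hr
  unfold comps at hr
  rcases List.mem_append.1 hr with hr | hr
  · rw [List.mem_map] at hr
    obtain ⟨j, hj, rfl⟩ := hr
    unfold univ at hj
    rw [List.mem_filter, List.mem_range] at hj
    intro p hp i hi
    rw [List.mem_singleton] at hp
    subst hp
    simp at hi
    omega
  · simp only [List.mem_cons, List.not_mem_nil, or_false] at hr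
    rcases hr with rfl | rfl
    · refine mulR_lt (rF_lt S) ?_
      intro p hp i hi
      simp at hp
      rcases hp with rfl | rfl <;> simp at hi
      omega
    · refine mulR_lt (rF_lt S) ?_
      intro p hp i hi
      simp at hp
      rcases hp with rfl | rfl | rfl <;> simp at hi <;> omega

theorem cr_len (V : List ℕ) (c : Con) : ∀ p ∈ cr V c, p.2.length ≤ 2 := by
  intro p hp
  cases c <;> simp [cr] at hp
  · rcases hp with rfl | rfl <;> simp
  · rcases hp with rfl | rfl | rfl <;> simp
  · rcases hp with rfl | rfl <;> simp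

theorem rF_len (V : List ℕ) (S : List Con) : ∀ p ∈ rF V S, p.2.length ≤ 4 := by
  intro p hp
  unfold rF at hp
  rcases List.mem_cons.1 hp with rfl | hp
  · simp
  · rw [List.mem_flatMap] at hp
    obtain ⟨c, hc, hp⟩ := hp
    exact mulR_len (cr_len V c) (cr_len V c) p hp

theorem comps_len (E : List ℕ) (S : List Con) :
    ∀ r ∈ comps E S, ∀ p ∈ r, p.2.length ≤ 7 := by
  intro r hr
  unfold comps at hr
  rcases List.mem_append.1 hr with hr | hr
  · rw [List.mem_map] at hr
    obtain ⟨j, hj, rfl⟩ := hr
    intro p hp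
    rw [List.mem_singleton] at hp
    subst hp
    simp
  · simp only [List.mem_cons, List.not_mem_nil, or_false] at hr
    rcases hr with rfl | rfl
    · intro p hp
      refine (mulR_len (rF_len _ S) (e := 2) ?_ p hp).trans (by norm_num)
      intro p hp
      simp at hp
      rcases hp with rfl | rfl <;> simp
    · intro p hp
      refine (mulR_len (rF_len _ S) (e := 3) ?_ p hp)
      intro p hp
      simp at hp
      rcases hp with rfl | rfl | rfl <;> simp

theorem collect_deg_le {n d : ℕ} (raw : List (Bool × List ℕ)) (h : ∀ p ∈ raw, ∀ i ∈ p.2, i < n)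
    (hd : ∀ p ∈ raw, p.2.length ≤ d) : ∀ t ∈ collect n raw, t.2.sum ≤ d := by
  intro t ht
  unfold collect at ht
  rw [List.mem_filter] at ht
  obtain ⟨h1, _⟩ := ht
  rw [List.mem_map] at h1
  obtain ⟨e, he, rfl⟩ := h1
  rw [List.mem_dedup, List.map_map, List.mem_map] at he
  obtain ⟨p, hp, rfl⟩ := he
  simp only [Function.comp_def]
  rw [sum_expv p.2 (h p hp)]
  exact hd p hp

theorem inst_deg (p : List ℕ × Fm) : ∀ q ∈ (inst p).2, ∀ t ∈ q, t.2.sum ≤ 7 := by
  intro q hq
  unfold inst at hq
  simp only at hq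
  rw [List.mem_map] at hq
  obtain ⟨r, hr, rfl⟩ := hq
  exact collect_deg_le r (comps_lt _ _ r hr) (comps_len _ _ r hr)

theorem rawEval_congr {y y' : ℕ → ℝ} {n : ℕ} (hy : ∀ i < n, y i = y' i)
    {r : List (Bool × List ℕ)} (h : ∀ p ∈ r, ∀ i ∈ p.2, i < n) : rawEval y r = rawEval y' r := by
  unfold rawEval
  congr 1
  refine List.map_congr_left fun p hp => ?_
  have : p.2.map y = p.2.map y' := List.map_congr_left fun i hi => hy i (h p hp i hi)
  rw [this]

/-- Surjectivity of a map given by raw polynomials. -/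
theorem surj_raw {n : ℕ} {rs : List (List (Bool × List ℕ))}
    (h : ∀ r ∈ rs, ∀ p ∈ r, ∀ i ∈ p.2, i < n) : SurjectiveMap (n, rs.map (collect n)) ↔
    ∀ t : ℕ → ℝ, ∃ y : ℕ → ℝ, ∀ j (hj : j < rs.length), rawEval y rs[j] = t j := by
  have hlen : (rs.map (collect n)).length = rs.length := List.length_map _
  have hval : ∀ (x : Fin n → ℝ) (j : Fin (rs.map (collect n)).length),
      MvPolynomial.aeval x (((rs.map (collect n)).get j).toPoly n) =
        rawEval (xt x) (rs[(j : ℕ)]'(hlen ▸ j.2)) := by
    intro x j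
    have e : (rs.map (collect n)).get j = collect n (rs[(j : ℕ)]'(hlen ▸ j.2)) := by
      simp
    rw [e, aeval_collect _ (h _ (List.getElem_mem _))]
  constructor
  · rintro ⟨-, hs⟩ t
    obtain ⟨x, hx⟩ := hs fun j => t j
    refine ⟨xt x, fun j hj => ?_⟩
    have := congrFun hx ⟨j, hlen ▸ hj⟩
    simp only at this
    rw [hval] at this
    exact this
  · intro hs
    refine ⟨fun p hp => ?_, fun t => ?_⟩
    · rw [List.mem_map] at hp
      obtain ⟨r, hr, rfl⟩ := hp
      exact collect_valid _ _
    · obtain ⟨y, hy⟩ := hs (xt t)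
      refine ⟨fun i => y i, ?_⟩
      funext j
      simp only
      rw [hval]
      rw [rawEval_congr (y' := y) (n := n) (fun i hi => by simp [xt, hi])
        (h _ (List.getElem_mem _)), hy, xt_fin]

theorem getD_idxOf {V : List ℕ} {w : ℕ} (hw : w ∈ V) : V.getD (V.idxOf w) 0 = w := by
  have hlt := List.idxOf_lt_length_iff.2 hw
  rw [List.getD_eq_getElem?_getD, List.getElem?_eq_getElem hlt]
  simp

theorem getD_mem {V : List ℕ} {j : ℕ} (hj : j < V.length) : V.getD j 0 ∈ V := by
  rw [List.getD_eq_getElem _ _ hj]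
  exact List.getElem_mem _

theorem rF_eq_zero {V : List ℕ} {S : List Con} {y : ℕ → ℝ} (h : rawEval y (rF V S) = 0) :
    SysHolds (fun a => y (rv V a)) S := by
  rw [rawEval_rF] at h
  have h1 := sum_sq_nonneg S fun c => rawEval y (cr V c)
  have h2 : 0 ≤ y 3 * y 3 := mul_self_nonneg _
  have h3 : (S.map fun c => (rawEval y (cr V c)) ^ 2).sum = 0 := by linarith
  intro c hc
  exact (rawEval_cr V y c).1 (sum_sq_eq_zero h3 c hc)

theorem rF_of_holds {V : List ℕ} {S : List Con} {y : ℕ → ℝ}
    (h : SysHolds (fun a => y (rv V a)) S) : rawEval y (rF V S) = y 3 * y 3 := by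
  rw [rawEval_rF]
  have : (S.map fun c => (rawEval y (cr V c)) ^ 2).sum = 0 := by
    apply List.sum_eq_zero
    intro x hx
    rw [List.mem_map] at hx
    obtain ⟨c, hc, rfl⟩ := hx
    rw [(rawEval_cr V y c).2 (h c hc)]
    norm_num
  rw [this, add_zero]

/-- The image of `(p, q, s) ↦ (1 + p q, q + s (1 + p q))` is the punctured plane. -/
theorem plane_hit {a b : ℝ} (h : ¬ (a = 0 ∧ b = 0)) :
    ∃ p q s : ℝ, 1 + p * q = a ∧ q + s * (1 + p * q) = b := by
  by_cases ha : a = 0
  · have hb : b ≠ 0 := fun hb => h ⟨ha, hb⟩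
    refine ⟨-1 / b, b, 0, ?_, ?_⟩
    · rw [ha]
      field_simp
      ring
    · ring
  · refine ⟨a - 1, 1, (b - 1) / a, by ring, ?_⟩
    have : 1 + (a - 1) * 1 = a := by ring
    rw [this]
    field_simp
    ring

theorem plane_miss (p q s : ℝ) (h1 : 1 + p * q = 0) (h2 : q + s * (1 + p * q) = 0) : False := by
  rw [h1] at h2
  have : q = 0 := by linarith
  rw [this] at h1
  norm_num at h1

theorem inst_iff (p : List ℕ × Fm) : AER p ↔ SurjectiveMap (inst p) := by
  obtain ⟨E, φ⟩ := p
  rw [aer_iff_sys]
  unfold inst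
  simp only
  generalize sysOf φ = S
  rw [surj_raw (comps_lt E S)]
  set V := varsOf S with hV
  set U := univ E V with hU
  have hUn : U.Nodup := List.Nodup.filter _ List.nodup_range
  have hUm : ∀ j ∈ U, j < V.length ∧ V.idxOf (V.getD j 0) = j ∧ V.getD j 0 % 2 = 0 ∧
      V.getD j 0 / 2 ∈ E := by
    intro j hj
    rw [hU, univ, List.mem_filter, List.mem_range, Bool.and_eq_true, decide_eq_true_eq, isE,
      Bool.and_eq_true, decide_eq_true_eq, decide_eq_true_eq] at hj
    exact ⟨hj.1, hj.2.1, hj.2.2.1, hj.2.2.2⟩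
  have hcomp : comps E S = (U.map fun j => [(false, [j + 4])]) ++ [rG V S, rH V S] := rfl
  have hlen : (comps E S).length = U.length + 2 := by rw [hcomp]; simp
  have hgU : ∀ k (hk : k < U.length), (comps E S)[k]'(by omega) = [(false, [U[k] + 4])] := by
    intro k hk
    simp only [hcomp]
    rw [List.getElem_append_left (by simpa using hk)]
    simp
  have hgG : (comps E S)[U.length]'(by omega) = rG V S := by
    simp only [hcomp]
    rw [List.getElem_append_right (by simp)]
    simp
  have hgH : (comps E S)[U.length + 1]'(by omega) = rH V S := by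
    simp only [hcomp]
    rw [List.getElem_append_right (by simp)]
    simp
  have ev1 : ∀ (y : ℕ → ℝ) j, rawEval y [(false, [j + 4])] = y (j + 4) := by
    intro y j
    simp [rawEval, sgn]
  have sv : ∀ (v v' : ℕ → ℝ), (∀ w ∈ V, v w = v' w) → SysHolds v S → SysHolds v' S := by
    intro v v' h hs c hc
    refine (Con.holds_congr fun i hi => ?_).1 (hs c hc)
    exact h i (List.mem_flatMap.2 ⟨c, hc, hi⟩)
  constructor
  · intro h t
    obtain ⟨v, hv, hs⟩ := h fun i => t (U.idxOf (V.idxOf (2 * i)))
    -- the values of the auxiliary variables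
    obtain ⟨p, q, s, z, h1, h2⟩ : ∃ p q s z : ℝ, z * z * (1 + p * q) = t U.length ∧
        z * z * (q + s * (1 + p * q)) = t (U.length + 1) := by
      by_cases h0 : t U.length = 0 ∧ t (U.length + 1) = 0
      · exact ⟨0, 0, 0, 0, by rw [h0.1]; ring, by rw [h0.2]; ring⟩
      · obtain ⟨p, q, s, h1, h2⟩ := plane_hit h0
        exact ⟨p, q, s, 1, by rw [h1]; ring, by rw [h2]; ring⟩
    let y : ℕ → ℝ := fun i => if i = 0 then p else if i = 1 then q else if i = 2 then s
      else if i = 3 then z else v (V.getD (i - 4) 0)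
    have y4 : ∀ j, y (j + 4) = v (V.getD j 0) := by
      intro j
      simp only [y]
      rw [if_neg (by omega), if_neg (by omega), if_neg (by omega), if_neg (by omega)]
      rfl
    have hsys : SysHolds (fun a => y (rv V a)) S := by
      refine sv v _ (fun w hw => ?_) hs
      unfold rv
      rw [y4, getD_idxOf hw]
    have hF : rawEval y (rF V S) = z * z := rF_of_holds hsys
    refine ⟨y, fun j hj => ?_⟩
    rw [hlen] at hj
    by_cases hjU : j < U.length
    · rw [hgU j hjU, ev1, y4]
      obtain ⟨a1, a2, a3, a4⟩ := hUm _ (List.getElem_mem hjU)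
      have a5 := hv _ a4
      have a6 : 2 * (V.getD U[j] 0 / 2) = V.getD U[j] 0 := by omega
      rw [a6] at a5
      rw [a5, a2]
      rw [hUn.idxOf_getElem]
    · by_cases hj1 : j = U.length
      · subst hj1
        rw [hgG, rawEval_rG, hF]
        exact h1
      · have hj2 : j = U.length + 1 := by omega
        subst hj2
        rw [hgH, rawEval_rH, hF]
        exact h2
  · intro h x
    obtain ⟨y, hy⟩ := h fun k => if k < U.length then x (V.getD (U.getD k 0) 0 / 2) else 0
    have hG := hy U.length (by omega)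
    have hH := hy (U.length + 1) (by omega)
    rw [hgG, rawEval_rG, if_neg (by omega)] at hG
    rw [hgH, rawEval_rH, if_neg (by omega)] at hH
    have hF : rawEval y (rF V S) = 0 := by
      by_contra hne
      have b1 := (mul_eq_zero.1 hG).resolve_left hne
      have b2 := (mul_eq_zero.1 hH).resolve_left hne
      exact plane_miss _ _ _ b1 b2
    have hsys := rF_eq_zero hF
    classical
    refine ⟨fun a => if a ∈ V then y (rv V a) else x (a / 2), fun i hi => ?_, ?_⟩
    · by_cases h2 : 2 * i ∈ V
      · simp only [h2, if_true]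
        have hlt := List.idxOf_lt_length_iff.2 h2
        have hmem : V.idxOf (2 * i) ∈ U := by
          rw [hU, univ, List.mem_filter, List.mem_range, Bool.and_eq_true, decide_eq_true_eq,
            isE, Bool.and_eq_true, decide_eq_true_eq, decide_eq_true_eq, getD_idxOf h2]
          refine ⟨hlt, rfl, by omega, ?_⟩
          have : 2 * i / 2 = i := by omega
          rw [this]
          exact hi
        have hk := List.idxOf_lt_length_iff.2 hmem
        have e1 := hy (U.idxOf (V.idxOf (2 * i))) (by omega)
        rw [hgU _ hk, ev1, if_pos hk] at e1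
        rw [getD_idxOf hmem, getD_idxOf h2] at e1
        have e2 : U[U.idxOf (V.idxOf (2 * i))] = V.idxOf (2 * i) := List.getElem_idxOf hk
        rw [e2] at e1
        unfold rv
        rw [e1]
        congr 1
        omega
      · simp only [h2, if_false]
        congr 1
        omega
    · refine sv _ _ (fun w hw => ?_) hsys
      simp only [hw, if_true]

section

variable {α : Type} [TEnc α]

theorem poly_mulR {a b : α → List (Bool × List ℕ)} (ha : Poly a) (hb : Poly b) :
    Poly (fun x => mulR (a x) (b x)) := by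
  unfold mulR
  refine Poly.flatMap (F := fun x (p : Bool × List ℕ) =>
    (b x).map fun p' => (xor p.1 p'.1, p.2 ++ p'.2)) ha ?_
  refine Poly.map (F := fun (q : α × (Bool × List ℕ)) p' => (xor q.2.1 p'.1, q.2.2 ++ p'.2))
    (hb.comp (Poly.fst Poly.id)) ?_
  refine Poly.pair ?_ (Poly.append (Poly.snd (Poly.snd (Poly.fst Poly.id)))
    (Poly.snd (Poly.snd Poly.id)))
  have h1 : Poly (fun q : (α × (Bool × List ℕ)) × (Bool × List ℕ) => q.1.2.1) :=
    Poly.fst (Poly.snd (Poly.fst Poly.id))
  have h2 : Poly (fun q : (α × (Bool × List ℕ)) × (Bool × List ℕ) => q.2.1) :=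
    Poly.fst (Poly.snd Poly.id)
  refine (Poly.ite (Poly.decide_bool h1) (Poly.not h2) h2).congr fun q => ?_
  cases q.1.2.1 <;> simp

theorem poly_rv {V : α → List ℕ} {i : α → ℕ} (hV : Poly V) (hi : Poly i) :
    Poly (fun a => rv (V a) (i a)) := Poly.add (poly_idxOf hV hi) (Poly.const 4)

theorem cr_eq (V : List ℕ) (c : Con) : cr V c =
    if c.code.1 = 0 then [(false, [rv V c.code.2.1]), (true, [])]
    else if c.code.1 = 1 then [(false, [rv V c.code.2.1]), (false, [rv V c.code.2.2.1]),
      (true, [rv V c.code.2.2.2])]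
    else [(false, [rv V c.code.2.1, rv V c.code.2.2.1]), (true, [rv V c.code.2.2.2])] := by
  cases c <;> rfl

theorem poly_cr {V : α → List ℕ} {c : α → Con} (hV : Poly V) (hc : Poly c) :
    Poly (fun a => cr (V a) (c a)) := by
  simp only [cr_eq]
  have h0 := poly_con_code hc
  have i1 := poly_rv hV (Poly.fst (Poly.snd h0))
  have i2 := poly_rv hV (Poly.fst (Poly.snd (Poly.snd h0)))
  have i3 := poly_rv hV (Poly.snd (Poly.snd (Poly.snd h0)))
  have l1 := Poly.cons i1 (Poly.const [])
  have l2 := Poly.cons i2 (Poly.const [])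
  have l3 := Poly.cons i3 (Poly.const [])
  refine Poly.ite (Poly.decide_eq (Poly.fst h0) (Poly.const 0))
    (Poly.cons (Poly.pair (Poly.const _) l1) (Poly.const _))
    (Poly.ite (Poly.decide_eq (Poly.fst h0) (Poly.const 1))
      (Poly.cons (Poly.pair (Poly.const _) l1) (Poly.cons (Poly.pair (Poly.const _) l2)
        (Poly.cons (Poly.pair (Poly.const _) l3) (Poly.const []))))
      (Poly.cons (Poly.pair (Poly.const _) (Poly.cons i1 l2))
        (Poly.cons (Poly.pair (Poly.const _) l3) (Poly.const []))))

theorem poly_rF {V : α → List ℕ} {S : α → List Con} (hV : Poly V) (hS : Poly S) :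
    Poly (fun a => rF (V a) (S a)) := by
  unfold rF
  refine Poly.cons (Poly.const _) (Poly.flatMap (F := fun a c => mulR (cr (V a) c) (cr (V a) c))
    hS ?_)
  have h1 : Poly (fun q : α × Con => cr (V q.1) q.2) :=
    poly_cr (hV.comp (Poly.fst Poly.id)) (Poly.snd Poly.id)
  exact poly_mulR h1 h1

theorem poly_univ {E V : α → List ℕ} (hE : Poly E) (hV : Poly V) :
    Poly (fun a => univ (E a) (V a)) := by
  unfold univ
  have hg : Poly (fun q : α × ℕ => (V q.1).getD q.2 0) :=
    Poly.getD (hV.comp (Poly.fst Poly.id)) (Poly.snd Poly.id) (Poly.const 0)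
  refine Poly.filter (p := fun a j => decide ((V a).idxOf ((V a).getD j 0) = j) &&
    isE (E a) ((V a).getD j 0)) (UPoly.length hV).range ?_
  exact Poly.and (Poly.decide_eq (poly_idxOf (hV.comp (Poly.fst Poly.id)) hg)
    (Poly.snd Poly.id)) (poly_isE (hE.comp (Poly.fst Poly.id)) hg)

theorem poly_comps {E : α → List ℕ} {S : α → List Con} (hE : Poly E) (hS : Poly S) :
    Poly (fun a => comps (E a) (S a)) := by
  have hV : Poly (fun a => varsOf (S a)) := poly_varsOf hS
  unfold comps
  refine Poly.append (Poly.map (F := fun _ (j : ℕ) => [(false, [j + 4])]) (poly_univ hE hV) ?_) ?_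
  · exact Poly.cons (Poly.pair (Poly.const _) (Poly.cons (Poly.add (Poly.snd Poly.id)
      (Poly.const 4)) (Poly.const []))) (Poly.const [])
  · unfold rG rH
    have hF := poly_rF hV hS
    exact Poly.cons (poly_mulR hF (Poly.const _)) (Poly.cons (poly_mulR hF (Poly.const _))
      (Poly.const []))

end

theorem poly_inst : Poly inst := by
  unfold inst
  have hS : Poly (fun p : List ℕ × Fm => sysOf p.2) := poly_sysOf (Poly.snd Poly.id)
  have hV : Poly (fun p : List ℕ × Fm => varsOf (sysOf p.2)) := poly_varsOf hS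
  have hn : UPoly (fun p : List ℕ × Fm => (varsOf (sysOf p.2)).length + 4) :=
    UPoly.add (UPoly.length hV) (UPoly.const 4)
  refine Poly.pair hn.toPoly (Poly.map (F := fun (p : List ℕ × Fm) r =>
    collect ((varsOf (sysOf p.2)).length + 4) r) (poly_comps (Poly.fst Poly.id) hS) ?_)
  exact poly_collect (UPoly.comp (n := fun p : List ℕ × Fm => (varsOf (sysOf p.2)).length + 4) hn
    (Poly.fst Poly.id)) (Poly.snd Poly.id)

/-- Hardness. -/
theorem surjectiveMapDeg_hard : AERHard (lang (SurjectiveMapDeg 7)) :=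
  AERHard.of_poly poly_inst fun p => by
    rw [inst_iff]
    exact ⟨fun h => ⟨inst_deg p, h⟩, fun h => h.2⟩

theorem surjectiveMap_hard : AERHard (lang SurjectiveMap) :=
  AERHard.of_poly poly_inst inst_iff

/-! ### Membership -/

/-- A list whose length bounds the lengths of the exponent vectors and of the exponents. -/
def szL (fs : List PolyData) : List Bool :=
  fs.flatMap fun p => p.flatMap fun t => t.2.flatMap fun e => true :: e.bits

theorem expo_len {fs : List PolyData} {p : PolyData} (hp : p ∈ fs) {t : ℤ × List ℕ}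
    (ht : t ∈ p) : t.2.length ≤ (szL fs).length :=
  (length_le_flatMap' t.2).trans ((length_le_flatMap (f := fun t : ℤ × List ℕ =>
    t.2.flatMap fun e => true :: e.bits) ht).trans (length_le_flatMap (f := fun p : PolyData =>
    p.flatMap fun t => t.2.flatMap fun e => true :: e.bits) hp))

theorem bits_len {fs : List PolyData} {p : PolyData} (hp : p ∈ fs) {t : ℤ × List ℕ} (ht : t ∈ p)
    (i : ℕ) : (t.2.getD i 0).bits.length ≤ (szL fs).length := by
  by_cases hi : i < t.2.length
  · have h1 : t.2.getD i 0 ∈ t.2 := by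
      rw [List.getD_eq_getElem _ _ hi]
      exact List.getElem_mem _
    have h2 : (t.2.getD i 0).bits.length ≤ (true :: (t.2.getD i 0).bits).length := by simp
    exact h2.trans ((length_le_flatMap (f := fun e : ℕ => true :: e.bits) h1).trans
      ((length_le_flatMap (f := fun t : ℤ × List ℕ =>
      t.2.flatMap fun e => true :: e.bits) ht).trans (length_le_flatMap (f := fun p : PolyData =>
      p.flatMap fun t => t.2.flatMap fun e => true :: e.bits) hp)))
  · rw [List.getD_eq_default _ _ (by omega)]
    simp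

/-- The number of relevant coordinates. -/
def nvL (n : ℕ) (fs : List PolyData) : ℕ := min n (szL fs).length

/-- The formula of the surjectivity problem. -/
def suFm (n : ℕ) (fs : List PolyData) : Fm :=
  conj (powEqs (nvL n fs) (szL fs).length ++
    fs.zipIdx.map fun q => Fm.eq (polT (nvL n fs) q.1) (Tm.var (vC q.2)))

/-- Boolean test of validity. -/
def validL (n : ℕ) (fs : List PolyData) : Bool :=
  fs.all fun p => (p.all fun t => decide (t.1 ≠ 0 ∧ t.2.length = n)) &&
    decide ((p.map Prod.snd).dedup = p.map Prod.snd)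

/-- The sentence of the surjectivity problem. -/
def suSent (I : ℕ × List PolyData) : List ℕ × Fm :=
  if validL I.1 I.2 = true then ((List.range I.2.length).map vC, suFm I.1 I.2)
  else ([], Fm.ff)

theorem validL_iff (n : ℕ) (fs : List PolyData) :
    validL n fs = true ↔ ∀ p ∈ fs, PolyData.Valid n p := by
  unfold validL PolyData.Valid
  rw [List.all_eq_true]
  refine forall₂_congr fun p _ => ?_
  rw [Bool.and_eq_true, List.all_eq_true, decide_eq_true_eq, List.dedup_eq_self]
  simp only [decide_eq_true_eq]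

theorem eval_pol {n : ℕ} {fs : List PolyData} {v : ℕ → ℝ} {z : Fin n → ℝ}
    (hz : ∀ i < nvL n fs, ∀ k ≤ (szL fs).length, v (vP i k) = xt z i ^ 2 ^ k) {p : PolyData}
    (hp : p ∈ fs) : (polT (nvL n fs) p).eval v = pval z p := by
  refine eval_polT v (nvL n fs) z p (min_le_left _ _) ?_ ?_
  · intro t ht i hi hin
    apply List.getD_eq_default
    have h1 := expo_len hp ht
    have h2 : nvL n fs = min n (szL fs).length := rfl
    omega
  · intro t ht i hi k hk
    exact hz i hi k (hk.le.trans (bits_len hp ht i))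

theorem pow_of_eqs {n : ℕ} {fs : List PolyData} {v : ℕ → ℝ}
    (hpow : ∀ ψ ∈ powEqs (nvL n fs) (szL fs).length, ψ.Holds v) :
    ∀ i < nvL n fs, ∀ k ≤ (szL fs).length,
      v (vP i k) = xt (fun i : Fin n => v (vP i 0)) i ^ 2 ^ k := by
  intro i hi k
  have hin : i < n := hi.trans_le (min_le_left _ _)
  have e : xt (fun i : Fin n => v (vP i 0)) i = v (vP i 0) := by simp [xt, hin]
  rw [e]
  induction k with
  | zero => intro _; rw [pow_zero, pow_one]
  | succ k ih =>
    intro hk
    have h1 := hpow (Fm.eq (Tm.var (vP i (k + 1)))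
      (Tm.mul (Tm.var (vP i k)) (Tm.var (vP i k)))) (by
      simp only [powEqs, List.mem_flatMap, List.mem_range, List.mem_map]
      exact ⟨i, hi, k, hk, rfl⟩)
    simp only [Fm.Holds, Tm.eval] at h1
    rw [h1, ih (by omega), pow_succ, pow_mul]
    ring

theorem holds_powEqs {m L : ℕ} {v w : ℕ → ℝ}
    (h : ∀ i < m, ∀ k ≤ L, v (vP i k) = w i ^ 2 ^ k) : ∀ ψ ∈ powEqs m L, ψ.Holds v := by
  intro ψ hψ
  simp only [powEqs, List.mem_flatMap, List.mem_range, List.mem_map] at hψ
  obtain ⟨i, hi, k, hk, rfl⟩ := hψ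
  simp only [Fm.Holds, Tm.eval]
  rw [h i hi (k + 1) hk, h i hi k hk.le, pow_succ, pow_mul]
  ring

theorem surjectiveMap_iff (I : ℕ × List PolyData) : SurjectiveMap I ↔ AER (suSent I) := by
  obtain ⟨n, fs⟩ := I
  unfold suSent SurjectiveMap
  simp only
  by_cases hval : validL n fs = true
  swap
  · rw [if_neg hval]
    have h1 : ¬ ∀ p ∈ fs, PolyData.Valid n p := fun h => hval ((validL_iff n fs).2 h)
    simp only [h1, false_and, false_iff]
    intro h
    obtain ⟨y, hy⟩ := h fun _ => 0
    exact lt_irrefl _ hy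
  rw [if_pos hval]
  have hval' := (validL_iff n fs).1 hval
  set E := (List.range fs.length).map vC with hE
  have mC : ∀ j < fs.length, vC j ∈ E := fun j hj =>
    List.mem_map.2 ⟨j, List.mem_range.2 hj, rfl⟩
  have mP : ∀ i k, vP i k ∉ E := by
    intro i k h
    rw [hE, List.mem_map] at h
    obtain ⟨j, -, hj⟩ := h
    unfold vP vC at hj
    omega
  constructor
  · rintro ⟨-, hs⟩ x
    obtain ⟨z, hz⟩ := hs fun j => x (vC j)
    refine ⟨fun w => xt z (Nat.unpair (w / 4)).1 ^ 2 ^ (Nat.unpair (w / 4)).2, ?_⟩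
    have hyP : ∀ i k, mixv E x (fun w => xt z (Nat.unpair (w / 4)).1 ^ 2 ^
        (Nat.unpair (w / 4)).2) (vP i k) = xt z i ^ 2 ^ k := by
      intro i k
      unfold mixv
      rw [if_neg (mP i k)]
      have : vP i k / 4 = Nat.pair i k := by unfold vP; omega
      simp only [this, Nat.unpair_pair]
    unfold suFm
    rw [holds_conj]
    simp only [List.forall_mem_append]
    refine ⟨holds_powEqs fun i _ k _ => hyP i k, ?_⟩
    rw [List.forall_mem_map]
    rintro ⟨p, j⟩ hpj
    rw [List.mem_zipIdx_iff_getElem?] at hpj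
    simp only at hpj
    obtain ⟨hj, hpj'⟩ := List.getElem?_eq_some_iff.1 hpj
    have hp : p ∈ fs := hpj' ▸ List.getElem_mem _
    simp only [Fm.Holds, Tm.eval]
    rw [eval_pol (z := z) (fun i _ k _ => hyP i k) hp]
    have h1 := congrFun hz ⟨j, hj⟩
    simp only at h1
    have h2 : fs.get ⟨j, hj⟩ = p := hpj'
    rw [h2] at h1
    unfold pval
    rw [h1]
    unfold mixv
    rw [if_pos (mC j hj)]
  · intro h
    refine ⟨hval', fun t => ?_⟩
    obtain ⟨y, hy⟩ := h fun w => xt t (w / 4)
    set v := mixv E (fun w => xt t (w / 4)) y with hv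
    unfold suFm at hy
    rw [holds_conj] at hy
    simp only [List.forall_mem_append] at hy
    obtain ⟨hpow, heq⟩ := hy
    refine ⟨fun i : Fin n => v (vP i 0), ?_⟩
    funext j
    simp only
    have hj : (fs.get j) ∈ fs := List.get_mem _ _
    have h1 := heq (Fm.eq (polT (nvL n fs) (fs.get j)) (Tm.var (vC j))) (by
      rw [List.mem_map]
      refine ⟨(fs.get j, (j : ℕ)), ?_, rfl⟩
      rw [List.mem_zipIdx_iff_getElem?]
      simp)
    simp only [Fm.Holds, Tm.eval] at h1
    rw [eval_pol (pow_of_eqs hpow) hj] at h1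
    unfold pval at h1
    rw [h1, hv]
    unfold mixv
    rw [if_pos (mC j j.2)]
    have : vC (j : ℕ) / 4 = j := by unfold vC; omega
    simp only [this]
    exact xt_fin t j

section

variable {α : Type} [TEnc α]

theorem poly_szL {fs : α → List PolyData} (h : Poly fs) : Poly (fun a => szL (fs a)) := by
  unfold szL
  refine Poly.flatMap (F := fun _ (p : PolyData) => p.flatMap fun t => t.2.flatMap fun e =>
    true :: e.bits) h ?_
  refine Poly.flatMap (l := fun q : α × PolyData => q.2)
    (F := fun _ (t : ℤ × List ℕ) => t.2.flatMap fun e =>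
    true :: e.bits) (Poly.snd Poly.id) ?_
  refine Poly.flatMap (l := fun q : (α × PolyData) × (ℤ × List ℕ) => q.2.2)
    (F := fun _ (e : ℕ) => true :: e.bits) (Poly.snd (Poly.snd Poly.id)) ?_
  exact Poly.cons (Poly.const _) (Poly.natBits (Poly.snd Poly.id))

theorem upoly_nvL {n : α → ℕ} {fs : α → List PolyData} (hn : Poly n) (h : Poly fs) :
    UPoly (fun a => nvL (n a) (fs a)) := by
  unfold nvL
  have h1 : UPoly (fun a => (szL (fs a)).length) := UPoly.length (poly_szL h)
  exact UPoly.of_le (Poly.min hn h1.toPoly) h1 fun a => min_le_right _ _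

theorem poly_suFm {n : α → ℕ} {fs : α → List PolyData} (hn : Poly n) (h : Poly fs) :
    Poly (fun a => suFm (n a) (fs a)) := by
  have hm := upoly_nvL hn h
  have hL : UPoly (fun a => (szL (fs a)).length) := UPoly.length (poly_szL h)
  unfold suFm
  refine poly_conj (Poly.append (poly_powEqs hm hL) (Poly.map (F := fun a (q : PolyData × ℕ) =>
    Fm.eq (polT (nvL (n a) (fs a)) q.1) (Tm.var (vC q.2))) (Poly.zipIdx h) ?_))
  exact poly_feq (poly_polT (UPoly.comp hm (Poly.fst Poly.id)) (Poly.fst (Poly.snd Poly.id)))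
    (poly_tvar (poly_vC (Poly.snd (Poly.snd Poly.id))))

theorem poly_validL : Poly (fun a : ℕ × List PolyData => validL a.1 a.2) := by
  unfold validL
  refine Poly.all (p := fun (a : ℕ × List PolyData) (p : PolyData) =>
    (p.all fun t => decide (t.1 ≠ 0 ∧ t.2.length = a.1)) &&
    decide ((p.map Prod.snd).dedup = p.map Prod.snd)) (Poly.snd Poly.id) ?_
  have hp : Poly (fun q : (ℕ × List PolyData) × PolyData => q.2) := Poly.snd Poly.id
  have hm : Poly (fun q : (ℕ × List PolyData) × PolyData => q.2.map Prod.snd) :=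
    Poly.map (F := fun _ (t : ℤ × List ℕ) => t.2) hp (Poly.snd (Poly.snd Poly.id))
  refine Poly.and ?_ (Poly.decide_eq (poly_dedup hm) hm)
  refine Poly.all (l := fun q : (ℕ × List PolyData) × PolyData => q.2)
    (p := fun (q : (ℕ × List PolyData) × PolyData) (t : ℤ × List ℕ) =>
    decide (t.1 ≠ 0 ∧ t.2.length = q.1.1)) hp ?_
  refine Poly.decide_and (Poly.decide_not (Poly.decide_eq (Poly.fst (Poly.snd Poly.id))
    (Poly.const 0))) (Poly.decide_eq (Poly.length (Poly.snd (Poly.snd Poly.id)))
    (Poly.fst (Poly.fst (Poly.fst Poly.id))))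

end

theorem poly_suSent : Poly suSent := by
  unfold suSent
  have hf : Poly (fun I : ℕ × List PolyData => I.2) := Poly.snd Poly.id
  refine Poly.ite (Poly.decide_bool poly_validL) (Poly.pair ?_
    (poly_suFm (Poly.fst Poly.id) hf)) (Poly.const _)
  exact Poly.map (F := fun _ j => vC j) (UPoly.length hf).range (poly_vC (Poly.snd Poly.id))

theorem surjectiveMap_inAER : InAER (lang SurjectiveMap) :=
  InAER.of_poly poly_suSent surjectiveMap_iff

end Pool.Agent.NPC.ER.Q325S
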