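import Pool.Agent.Q325.TdsRed

/-!
# Total dominating sets of size `2 m` and exact covers
-/

set_option autoImplicit false

namespace Pool.Agent.Q325.TDS

open Pool.Agent.H622R2 Pool.Agent.NPC Pool.Agent.NPC.H632 Pool.Agent.H557R2.Tri

variable {S : List (ℕ × ℕ × ℕ)} {q : ℕ}

theorem core1 (h : Pr S q) (h4 : 4 ≤ S.length)
    (hT : ∃ F : Finset {x // x ∈ vs S}, F.card = 2 * S.length ∧ IsTDS (Gr S q) F) :
    ∃ j : ℕ → ℕ, ∀ x < 3 * S.length, ∃ t < S.length, x ∈ L S q t (j t) := by
  classical
  obtain ⟨F, hF, hT⟩ := hT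
  have hq := one_le_q h
  have hα : ∀ t, ∃ i, t < S.length → ∃ hi : ((0, t, i) : Lb) ∈ vs S, (⟨_, hi⟩ : {x // x ∈ vs S}) ∈ F := by
    intro t
    by_cases ht : t < S.length
    · obtain ⟨⟨⟨c, t', i⟩, hu⟩, huF, ha⟩ := hT ⟨(1, t, S.length),
        mem_vs.2 (Or.inr (Or.inl ⟨rfl, ht, by dsimp only; omega⟩))⟩
      rw [Gr_adj] at ha
      simp only at ha
      have hL : L S q t S.length = [] := by
        unfold L
        rw [if_neg (by omega), if_neg (by omega)]
      rw [hL] at ha
      have ha' : c = 0 ∧ t' = t := by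
        rcases ha with ha | ha | ha | ha
        · omega
        · simp at ha
        · exact ⟨ha.1, ha.2.2⟩
        · omega
      obtain ⟨rfl, rfl⟩ := ha'
      exact ⟨i, fun _ => ⟨hu, huF⟩⟩
    · exact ⟨0, fun h => absurd h ht⟩
  have hβ : ∀ t, ∃ i, t < S.length → ∃ hi : ((1, t, i) : Lb) ∈ vs S, (⟨_, hi⟩ : {x // x ∈ vs S}) ∈ F := by
    intro t
    by_cases ht : t < S.length
    · obtain ⟨⟨⟨c, t', i⟩, hu⟩, huF, ha⟩ := hT ⟨(0, t, 0),
        mem_vs.2 (Or.inl ⟨rfl, ht, by dsimp only; omega⟩)⟩
      rw [Gr_adj] at ha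
      simp only at ha
      have ha' : c = 1 ∧ t' = t := by
        rcases ha with ha | ha | ha | ha
        · exact ⟨ha.2.1, ha.2.2.symm⟩
        · omega
        · omega
        · omega
      obtain ⟨rfl, rfl⟩ := ha'
      exact ⟨i, fun _ => ⟨hu, huF⟩⟩
    · exact ⟨0, fun h => absurd h ht⟩
  choose i hi using hα
  choose j hj using hβ
  refine ⟨j, fun x hx => ?_⟩
  set T : Finset Lb := (Finset.range S.length).image (fun t => ((0, t, i t) : Lb)) ∪
    (Finset.range S.length).image (fun t => ((1, t, j t) : Lb)) with hTd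
  have hTc : T.card = 2 * S.length := by
    rw [hTd, Finset.card_union_of_disjoint, Finset.card_image_of_injective,
      Finset.card_image_of_injective, Finset.card_range]
    · omega
    · intro a b hab
      simp only [Prod.mk.injEq, true_and] at hab
      exact hab.1
    · intro a b hab
      simp only [Prod.mk.injEq, true_and] at hab
      exact hab.1
    · rw [Finset.disjoint_left]
      intro y hy hy'
      obtain ⟨t, -, rfl⟩ := Finset.mem_image.1 hy
      obtain ⟨t', -, h'⟩ := Finset.mem_image.1 hy'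
      simp at h'
  have hTF : T = F.image Subtype.val := by
    refine Finset.eq_of_subset_of_card_le ?_ ?_
    · intro y hy
      rw [hTd, Finset.mem_union, Finset.mem_image, Finset.mem_image] at hy
      rcases hy with ⟨t, ht, rfl⟩ | ⟨t, ht, rfl⟩
      · obtain ⟨h1, h2⟩ := hi t (Finset.mem_range.1 ht)
        exact Finset.mem_image.2 ⟨_, h2, rfl⟩
      · obtain ⟨h1, h2⟩ := hj t (Finset.mem_range.1 ht)
        exact Finset.mem_image.2 ⟨_, h2, rfl⟩
    · rw [hTc, ← hF]
      exact Finset.card_image_le
  obtain ⟨⟨u, hu⟩, huF, ha⟩ := hT ⟨(2, x, 0), mem_vs.2 (Or.inr (Or.inr ⟨rfl, hx, rfl⟩))⟩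
  have huT : u ∈ T := by
    rw [hTF]
    exact Finset.mem_image.2 ⟨_, huF, rfl⟩
  rw [Gr_adj] at ha
  simp only at ha
  rw [hTd, Finset.mem_union, Finset.mem_image, Finset.mem_image] at huT
  rcases huT with ⟨t, ht, rfl⟩ | ⟨t, ht, rfl⟩
  · simp at ha
  · refine ⟨t, Finset.mem_range.1 ht, ?_⟩
    simpa using ha

theorem core4 (h4 : 4 ≤ S.length)
    (hj : ∃ j : ℕ → ℕ, (∀ t < S.length, j t < S.length + 1) ∧
      ∀ x < 3 * S.length, ∃ t < S.length, x ∈ L S q t (j t)) :
    ∃ F : Finset {x // x ∈ vs S}, F.card = 2 * S.length ∧ IsTDS (Gr S q) F := by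
  classical
  obtain ⟨j, hj, hx⟩ := hj
  set T : Finset Lb := (Finset.range S.length).image (fun t => ((0, t, 0) : Lb)) ∪
    (Finset.range S.length).image (fun t => ((1, t, j t) : Lb)) with hTd
  have hTc : T.card = 2 * S.length := by
    rw [hTd, Finset.card_union_of_disjoint, Finset.card_image_of_injective,
      Finset.card_image_of_injective, Finset.card_range]
    · omega
    · intro a b hab
      simp only [Prod.mk.injEq, true_and] at hab
      exact hab.1
    · intro a b hab
      simp only [Prod.mk.injEq, true_and, and_true] at hab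
      exact hab
    · rw [Finset.disjoint_left]
      intro y hy hy'
      obtain ⟨t, -, rfl⟩ := Finset.mem_image.1 hy
      obtain ⟨t', -, h'⟩ := Finset.mem_image.1 hy'
      simp at h'
  have hTm : ∀ y ∈ T, y ∈ vs S := by
    intro y hy
    rw [hTd, Finset.mem_union, Finset.mem_image, Finset.mem_image] at hy
    rcases hy with ⟨t, ht, rfl⟩ | ⟨t, ht, rfl⟩
    · exact mem_vs.2 (Or.inl ⟨rfl, Finset.mem_range.1 ht, by dsimp only; omega⟩)
    · exact mem_vs.2 (Or.inr (Or.inl ⟨rfl, Finset.mem_range.1 ht, hj t (Finset.mem_range.1 ht)⟩))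
  have hA : ∀ t < S.length, ((0, t, 0) : Lb) ∈ T := fun t ht => by
    rw [hTd, Finset.mem_union]
    exact Or.inl (Finset.mem_image.2 ⟨t, Finset.mem_range.2 ht, rfl⟩)
  have hB : ∀ t < S.length, ((1, t, j t) : Lb) ∈ T := fun t ht => by
    rw [hTd, Finset.mem_union]
    exact Or.inr (Finset.mem_image.2 ⟨t, Finset.mem_range.2 ht, rfl⟩)
  refine ⟨T.attach.image (fun y => ⟨y.1, hTm y.1 y.2⟩), ?_, ?_⟩
  · rw [Finset.card_image_of_injective, Finset.card_attach, hTc]
    intro a b hab
    simp only [Subtype.mk.injEq] at hab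
    exact Subtype.ext hab
  · rintro ⟨⟨c, t, i⟩, hv⟩
    rcases mem_vs.1 hv with ⟨h1, h2, h3⟩ | ⟨h1, h2, h3⟩ | ⟨h1, h2, h3⟩
    · simp only at h1 h2 h3
      refine ⟨⟨_, hTm _ (hB t h2)⟩, Finset.mem_image.2 ⟨⟨_, hB t h2⟩, Finset.mem_attach _ _, rfl⟩, ?_⟩
      rw [Gr_adj]
      exact Or.inl ⟨h1, rfl, rfl⟩
    · simp only at h1 h2 h3
      refine ⟨⟨_, hTm _ (hA t h2)⟩, Finset.mem_image.2 ⟨⟨_, hA t h2⟩, Finset.mem_attach _ _, rfl⟩, ?_⟩
      rw [Gr_adj]
      exact Or.inr (Or.inr (Or.inl ⟨rfl, h1, rfl⟩))
    · simp only at h1 h2 h3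
      obtain ⟨t', ht', hL⟩ := hx t h2
      refine ⟨⟨_, hTm _ (hB t' ht')⟩, Finset.mem_image.2 ⟨⟨_, hB t' ht'⟩, Finset.mem_attach _ _, rfl⟩, ?_⟩
      rw [Gr_adj]
      exact Or.inr (Or.inr (Or.inr ⟨rfl, h1, hL⟩))

theorem filter_L (h : Pr S q) (j : ℕ → ℕ) {t : ℕ} (ht : t < S.length) :
    (L S q t (j t)).filter (fun x => decide (x < 3 * q)) =
      if j t = 0 then el (S.getD t (0, 0, 0)) else [] := by
  have h1 := h.lt _ (getD_mem ht)
  unfold L
  split_ifs with h2 h3
  · rw [List.filter_eq_self]
    intro x hx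
    simp only [el, List.mem_cons, List.not_mem_nil, or_false] at hx
    simp only [decide_eq_true_eq]
    omega
  · rw [List.filter_eq_nil_iff]
    intro x hx
    simp only [List.mem_cons, List.not_mem_nil, or_false] at hx
    simp only [decide_eq_true_eq]
    omega
  · rfl

theorem core2 (h : Pr S q) (j : ℕ → ℕ)
    (hx : ∀ x < 3 * S.length, ∃ t < S.length, x ∈ L S q t (j t)) : X3C (S, q) := by
  have hq := q_le h
  set B := (List.range S.length).flatMap (fun t => L S q t (j t)) with hB
  have hBl : B.length ≤ 3 * S.length := by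
    rw [hB, List.length_flatMap]
    refine (List.sum_le_card_nsmul _ 3 ?_).trans ?_
    · intro x hx
      obtain ⟨t, -, rfl⟩ := List.mem_map.1 hx
      exact L_length S q t (j t)
    · rw [List.length_map, List.length_range, smul_eq_mul, mul_comm]
  have hperm : (List.range (3 * S.length)).Perm B := by
    refine (List.nodup_range.subperm fun x hx' => ?_).perm_of_length_le (by
      rw [List.length_range]; exact hBl)
    obtain ⟨t, ht, hxt⟩ := hx x (List.mem_range.1 hx')
    exact List.mem_flatMap.2 ⟨t, List.mem_range.2 ht, hxt⟩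
  have h2 := hperm.filter (fun x => decide (x < 3 * q))
  have h3 : (List.range (3 * S.length)).filter (fun x => decide (x < 3 * q)) =
      List.range (3 * q) := by
    obtain ⟨d, hd⟩ := Nat.exists_eq_add_of_le (show 3 * q ≤ 3 * S.length by omega)
    rw [hd, List.range_add, List.filter_append]
    have e1 : (List.range (3 * q)).filter (fun x => decide (x < 3 * q)) = List.range (3 * q) := by
      rw [List.filter_eq_self]
      intro x hx
      simpa using hx
    have e2 : ((List.range d).map (fun x => 3 * q + x)).filter (fun x => decide (x < 3 * q)) = [] := by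
      rw [List.filter_eq_nil_iff]
      intro x hx
      obtain ⟨y, -, rfl⟩ := List.mem_map.1 hx
      simp
    rw [e1, e2, List.append_nil]
  refine ⟨((List.range S.length).filter (fun t => decide (j t = 0))).map
    (fun t => S.getD t (0, 0, 0)), ?_, ?_⟩
  · intro t ht
    obtain ⟨i, hi, rfl⟩ := List.mem_map.1 ht
    exact getD_mem (List.mem_range.1 (List.mem_filter.1 hi).1)
  · rw [h3] at h2
    refine List.Perm.trans (List.Perm.of_eq ?_) h2.symm
    rw [hB, List.filter_flatMap, List.flatMap_map]
    have e : ∀ l : List ℕ, (∀ t ∈ l, t < S.length) →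
        (l.filter (fun t => decide (j t = 0))).flatMap (fun t => el (S.getD t (0, 0, 0))) =
        l.flatMap (fun t => (L S q t (j t)).filter (fun x => decide (x < 3 * q))) := by
      intro l
      induction l with
      | nil => intro _; rfl
      | cons a l ih =>
        intro hl
        rw [List.flatMap_cons, filter_L h j (hl a (by simp)), ← ih fun t ht => hl t
          (List.mem_cons_of_mem _ ht)]
        by_cases ha : j a = 0
        · rw [if_pos ha, List.filter_cons_of_pos (by simpa using ha), List.flatMap_cons]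
        · rw [if_neg ha, List.filter_cons_of_neg (by simpa using ha), List.nil_append]
    exact e _ fun t ht => List.mem_range.1 ht

theorem core3 (h : Pr S q) (hX : X3C (S, q)) :
    ∃ j : ℕ → ℕ, (∀ t < S.length, j t < S.length + 1) ∧
      ∀ x < 3 * S.length, ∃ t < S.length, x ∈ L S q t (j t) := by
  classical
  obtain ⟨C, hC, hp⟩ := hX
  simp only at hC hp
  have hq := q_le h
  have hnd : (C.flatMap el).Nodup := hp.nodup_iff.2 List.nodup_range
  have hCl : C.length = q := by
    have h1 := hp.length_eq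
    rw [List.length_range, List.length_flatMap] at h1
    have h2 : (C.map fun t => (el t).length) = C.map fun _ => 3 := List.map_congr_left fun t _ => rfl
    rw [h2, List.map_const', List.sum_replicate, smul_eq_mul] at h1
    omega
  have hCnd : C.Nodup := by
    rw [List.nodup_flatMap] at hnd
    refine hnd.2.imp fun {a b} hab => ?_
    rintro rfl
    exact hab (a := a.1) (by simp [el]) (by simp [el])
  set Il := C.map (fun t => S.idxOf t) with hIl
  have hIlt : ∀ i ∈ Il, i < S.length := by
    intro i hi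
    obtain ⟨t, ht, rfl⟩ := List.mem_map.1 hi
    exact List.idxOf_lt_length_of_mem (hC t ht)
  have hInd : Il.Nodup := by
    refine List.Nodup.map_on ?_ hCnd
    intro a ha b hb hab
    exact (List.idxOf_inj (hC a ha)).1 hab
  have hIll : Il.length = q := by rw [hIl, List.length_map, hCl]
  set N := (List.range S.length).filter (fun t => decide (t ∉ Il)) with hN
  have hNnd : N.Nodup := List.nodup_range.filter _
  have hNl : N.length = S.length - q := by
    have h1 := List.length_eq_length_filter_add (l := List.range S.length)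
      (fun t => decide (t ∈ Il))
    have h2 : ((List.range S.length).filter (fun t => decide (t ∈ Il))).Perm Il := by
      rw [List.perm_ext_iff_of_nodup (List.nodup_range.filter _) hInd]
      intro a
      rw [List.mem_filter, List.mem_range]
      simp only [decide_eq_true_eq]
      exact ⟨fun h => h.2, fun h => ⟨hIlt a h, h⟩⟩
    have h3 : (List.range S.length).filter (fun x => !(decide (x ∈ Il))) = N := by
      rw [hN]
      congr 1
      funext x
      simp
    rw [h2.length_eq, hIll, h3, List.length_range] at h1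
    omega
  refine ⟨fun t => if t ∈ Il then 0 else N.idxOf t + 1, ?_, ?_⟩
  · intro t ht
    dsimp only
    split_ifs with h1
    · omega
    · have h2 : t ∈ N := List.mem_filter.2 ⟨List.mem_range.2 ht, by simpa using h1⟩
      have h3 := List.idxOf_lt_length_of_mem h2
      omega
  · intro x hx
    by_cases h1 : x < 3 * q
    · have h2 : x ∈ C.flatMap el := hp.mem_iff.2 (List.mem_range.2 h1)
      obtain ⟨t, ht, hxt⟩ := List.mem_flatMap.1 h2
      have h3 : S.idxOf t ∈ Il := List.mem_map.2 ⟨t, ht, rfl⟩
      have h4 := hIlt _ h3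
      refine ⟨S.idxOf t, h4, ?_⟩
      dsimp only
      unfold L
      rw [if_pos h3, if_pos rfl, List.getD_eq_getElem _ _ h4, List.getElem_idxOf h4]
      exact hxt
    · have h2 : (x - 3 * q) / 3 < N.length := by
        rw [hNl]
        omega
      have h3 := List.getElem_mem h2
      rw [List.mem_filter, List.mem_range] at h3
      have h4 : N[(x - 3 * q) / 3] ∉ Il := by simpa using h3.2
      refine ⟨N[(x - 3 * q) / 3], h3.1, ?_⟩
      dsimp only
      rw [if_neg h4, List.Nodup.idxOf_getElem hNnd _ h2]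
      unfold L
      rw [if_neg (by omega), if_pos (by omega)]
      simp only [List.mem_cons, List.not_mem_nil, or_false]
      omega

theorem core (h : Pr S q) (h4 : 4 ≤ S.length) :
    (∃ F : Finset {x // x ∈ vs S}, F.card = 2 * S.length ∧ IsTDS (Gr S q) F) ↔ X3C (S, q) := by
  constructor
  · intro hF
    obtain ⟨j, hj⟩ := core1 h h4 hF
    exact core2 h j hj
  · intro hX
    exact core4 h4 (core3 h hX)

theorem TDSEQ_iff (h : Pr S q) (h4 : 4 ≤ S.length) : TDSEQ (mat (vs S) (adj S q)) ↔ X3C (S, q) := by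
  classical
  have e := matIso (vs S) (adj S q) (vs_nodup S)
  unfold TDSEQ
  rw [NoIso_iso e, gammaT_iso e, subT_iso e, eq_iff (noIso h h4) (subT_Gr h h4), core h h4]
  exact and_iff_right (noIso h h4)

end Pool.Agent.Q325.TDS
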