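import Pool.Agent.H622R2.MatGraph

/-!
# Total domination and sub-total domination

Graphs are given by adjacency matrices (`Pool.Agent.H622R2.matGraph`).
-/

set_option autoImplicit false

namespace Pool.Agent.Q325.TDS

open Pool.Agent.H622R2

variable {V : Type} [Fintype V]

/-- The degree of a vertex. -/
noncomputable def dg (G : SimpleGraph V) (v : V) : ℕ := (G.neighborSet v).ncard

/-- Total dominating sets: every vertex has a neighbour in the set. -/
def IsTDS (G : SimpleGraph V) (S : Finset V) : Prop := ∀ v, ∃ u ∈ S, G.Adj v u

/-- The total domination number: the least size of a total dominating set. -/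
noncomputable def gammaT (G : SimpleGraph V) : ℕ := sInf {k | ∃ S : Finset V, S.card = k ∧ IsTDS G S}

/-- The degree sequence, in non-increasing order. -/
noncomputable def degSeq (G : SimpleGraph V) : List ℕ :=
  (Finset.univ.val.map (fun v => dg G v)).sort (· ≥ ·)

/-- The sub-total domination number: the least `k` such that the sum of the `k` largest degrees is
at least the number of vertices. -/
noncomputable def subT (G : SimpleGraph V) : ℕ :=
  sInf {k | Fintype.card V ≤ ((degSeq G).take k).sum}

/-- There are no isolated vertices. -/
def NoIso (G : SimpleGraph V) : Prop := ∀ v, ∃ u, G.Adj v u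

/-- **TDS-EQ**: the graph with the given adjacency matrix has no isolated vertices, and its total
domination number is equal to its sub-total domination number. -/
def TDSEQ (M : List (List Bool)) : Prop :=
  NoIso (matGraph M) ∧ gammaT (matGraph M) = subT (matGraph M)

end Pool.Agent.Q325.TDS
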