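import Pool.Agent.Q325.TdsDefs

/-!
# General facts on total domination and degree sequences
-/

set_option autoImplicit false

namespace Pool.Agent.Q325.TDS

open Pool.Agent.H622R2

theorem sum_sublist_le : ∀ {l' l : List ℕ}, l'.Sublist l → l.Pairwise (· ≥ ·) →
    l'.sum ≤ (l.take l'.length).sum := by
  intro l' l h
  induction h with
  | slnil => intro _; simp
  | @cons l₁ l₂ a h ih =>
    intro hp
    rw [List.pairwise_cons] at hp
    have h1 := ih hp.2
    refine h1.trans ?_
    cases h2 : l₁.length with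
    | zero => simp
    | succ k =>
      rw [List.take_succ_cons, List.sum_cons]
      have h3 : k < l₂.length := by
        have := h.length_le
        omega
      rw [List.take_succ_eq_append_getElem h3, List.sum_append, List.sum_singleton]
      have := hp.1 _ (List.getElem_mem h3)
      omega
  | @cons_cons l₁ l₂ a h ih =>
    intro hp
    rw [List.pairwise_cons] at hp
    have h1 := ih hp.2
    rw [List.length_cons, List.take_succ_cons, List.sum_cons, List.sum_cons]
    omega

variable {V : Type} [Fintype V]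

theorem degSeq_sorted (G : SimpleGraph V) : (degSeq G).Pairwise (· ≥ ·) :=
  Multiset.pairwise_sort _ _

theorem degSeq_coe (G : SimpleGraph V) :
    ((degSeq G : List ℕ) : Multiset ℕ) = Finset.univ.val.map (fun v => dg G v) :=
  Multiset.sort_eq _ _

theorem mem_degSeq (G : SimpleGraph V) {x : ℕ} (hx : x ∈ degSeq G) : ∃ v, dg G v = x := by
  have h : x ∈ Finset.univ.val.map (fun v => dg G v) := by
    rw [← degSeq_coe]
    exact hx
  obtain ⟨v, -, hv⟩ := Multiset.mem_map.1 h
  exact ⟨v, hv⟩

theorem top_ge (G : SimpleGraph V) (S : Finset V) :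
    ∑ v ∈ S, dg G v ≤ ((degSeq G).take S.card).sum := by
  have h1 : S.val.map (fun v => dg G v) ≤ ((degSeq G : List ℕ) : Multiset ℕ) := by
    rw [degSeq_coe]
    exact Multiset.map_le_map (Finset.val_le_iff.2 (Finset.subset_univ S))
  obtain ⟨l0, hl0⟩ : ∃ l0 : List ℕ, (l0 : Multiset ℕ) = S.val.map (fun v => dg G v) :=
    Quot.exists_rep _
  rw [← hl0, Multiset.coe_le] at h1
  obtain ⟨l', h2, h3⟩ := h1
  have h4 := sum_sublist_le h3 (degSeq_sorted G)
  have h5 : l'.sum = ∑ v ∈ S, dg G v := by
    rw [h2.sum_eq, ← Multiset.sum_coe, hl0]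
    rfl
  have h6 : l'.length = S.card := by
    rw [h2.length_eq, ← Multiset.coe_card, hl0, Multiset.card_map]
    rfl
  rwa [h5, h6] at h4

theorem take_le (G : SimpleGraph V) {D : ℕ} (h : ∀ v, dg G v ≤ D) (k : ℕ) :
    ((degSeq G).take k).sum ≤ k * D := by
  have h1 : ((degSeq G).take k).sum ≤ ((degSeq G).take k).length • D := by
    refine List.sum_le_card_nsmul _ _ fun x hx => ?_
    obtain ⟨v, rfl⟩ := mem_degSeq G (List.mem_of_mem_take hx)
    exact h v
  rw [smul_eq_mul] at h1
  refine h1.trans (Nat.mul_le_mul_right _ ?_)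
  rw [List.length_take]
  exact min_le_left _ _

theorem card_le_sum {G : SimpleGraph V} {S : Finset V} (h : IsTDS G S) :
    Fintype.card V ≤ ∑ v ∈ S, dg G v := by
  classical
  have h1 : (Finset.univ : Finset V) ⊆ S.biUnion (fun v => Finset.univ.filter (fun u => G.Adj v u)) := by
    intro v _
    obtain ⟨u, hu, huv⟩ := h v
    exact Finset.mem_biUnion.2 ⟨u, hu, by simpa using huv.symm⟩
  have h2 := (Finset.card_le_card h1).trans Finset.card_biUnion_le
  rw [Finset.card_univ] at h2
  refine h2.trans (Finset.sum_le_sum fun v _ => le_of_eq ?_)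
  unfold dg
  rw [Set.ncard_eq_toFinset_card']
  congr 1
  ext u
  simp

theorem univ_TDS {G : SimpleGraph V} (h : NoIso G) : IsTDS G Finset.univ := fun v => by
  obtain ⟨u, hu⟩ := h v
  exact ⟨u, Finset.mem_univ _, hu⟩

theorem gammaT_mem {G : SimpleGraph V} (h : NoIso G) : ∃ S : Finset V, S.card = gammaT G ∧ IsTDS G S :=
  Nat.sInf_mem (s := {k | ∃ S : Finset V, S.card = k ∧ IsTDS G S}) ⟨_, Finset.univ, rfl, univ_TDS h⟩

theorem gammaT_le {G : SimpleGraph V} {S : Finset V} (h : IsTDS G S) : gammaT G ≤ S.card :=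
  Nat.sInf_le ⟨S, rfl, h⟩

theorem subT_le {G : SimpleGraph V} {S : Finset V} (h : IsTDS G S) : subT G ≤ S.card :=
  Nat.sInf_le ((card_le_sum h).trans (top_ge G S))

theorem subT_mem {G : SimpleGraph V} (h : NoIso G) :
    Fintype.card V ≤ ((degSeq G).take (subT G)).sum :=
  Nat.sInf_mem (s := {k | Fintype.card V ≤ ((degSeq G).take k).sum})
    ⟨_, (card_le_sum (univ_TDS h)).trans (top_ge G _)⟩

theorem subT_le_gammaT {G : SimpleGraph V} (h : NoIso G) : subT G ≤ gammaT G := by
  obtain ⟨S, h1, h2⟩ := gammaT_mem h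
  rw [← h1]
  exact subT_le h2

theorem subT_eq {G : SimpleGraph V} (h : NoIso G) {D k : ℕ} (hn : Fintype.card V = k * D)
    (hD : ∀ v, dg G v ≤ D) (hD0 : 0 < D) {S0 : Finset V} (hS0 : S0.card = k)
    (hS : ∀ v ∈ S0, D ≤ dg G v) : subT G = k := by
  refine le_antisymm (Nat.sInf_le ?_) ?_
  · have h1 := top_ge G S0
    rw [hS0] at h1
    refine le_trans ?_ h1
    rw [hn, ← hS0, ← smul_eq_mul]
    exact Finset.card_nsmul_le_sum _ _ _ hS
  · have h1 := (subT_mem h).trans (take_le G hD (subT G))
    rw [hn] at h1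
    exact Nat.le_of_mul_le_mul_right h1 hD0

theorem eq_iff {G : SimpleGraph V} (h : NoIso G) {k : ℕ} (hk : subT G = k) :
    gammaT G = subT G ↔ ∃ S : Finset V, S.card = k ∧ IsTDS G S := by
  constructor
  · intro he
    obtain ⟨S, h1, h2⟩ := gammaT_mem h
    exact ⟨S, by rw [h1, he, hk], h2⟩
  · rintro ⟨S, h1, h2⟩
    have h3 := gammaT_le h2
    have h4 := subT_le_gammaT h
    omega

/-! ### Isomorphisms -/

theorem dg_iso {W : Type} [Fintype W] {G : SimpleGraph V} {H : SimpleGraph W} (e : G ≃g H) (v : V) :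
    dg H (e v) = dg G v := by
  unfold dg
  have h : H.neighborSet (e v) = e '' G.neighborSet v := by
    ext w
    constructor
    · intro hw
      refine ⟨e.symm w, ?_, by simp⟩
      rw [SimpleGraph.mem_neighborSet, ← e.map_adj_iff]
      simpa using hw
    · rintro ⟨u, hu, rfl⟩
      rw [SimpleGraph.mem_neighborSet] at hu ⊢
      exact e.map_adj_iff.2 hu
  rw [h, Set.ncard_image_of_injective _ e.injective]

theorem degSeq_iso {W : Type} [Fintype W] {G : SimpleGraph V} {H : SimpleGraph W} (e : G ≃g H) :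
    degSeq G = degSeq H := by
  unfold degSeq
  congr 1
  have h1 : (Finset.univ : Finset W).val = (Finset.univ : Finset V).val.map e := by
    have : (Finset.univ : Finset W) = (Finset.univ : Finset V).map e.toEquiv.toEmbedding := by
      simp
    rw [this]
    rfl
  rw [h1, Multiset.map_map]
  refine Multiset.map_congr rfl fun v _ => ?_
  exact (dg_iso e v).symm

theorem subT_iso {W : Type} [Fintype W] {G : SimpleGraph V} {H : SimpleGraph W} (e : G ≃g H) :
    subT G = subT H := by
  unfold subT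
  rw [degSeq_iso e, Fintype.card_congr e.toEquiv]

theorem IsTDS_map {W : Type} [Fintype W] {G : SimpleGraph V} {H : SimpleGraph W} (e : G ≃g H)
    {S : Finset V} (h : IsTDS G S) : IsTDS H (S.map e.toEquiv.toEmbedding) := by
  intro w
  obtain ⟨u, hu, huv⟩ := h (e.symm w)
  refine ⟨e u, Finset.mem_map.2 ⟨u, hu, rfl⟩, ?_⟩
  have := e.map_adj_iff.2 huv
  simpa using this

theorem gammaT_iso {W : Type} [Fintype W] {G : SimpleGraph V} {H : SimpleGraph W} (e : G ≃g H) :
    gammaT G = gammaT H := by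
  unfold gammaT
  congr 1
  ext k
  constructor
  · rintro ⟨S, h1, h2⟩
    exact ⟨_, by rw [Finset.card_map, h1], IsTDS_map e h2⟩
  · rintro ⟨S, h1, h2⟩
    exact ⟨_, by rw [Finset.card_map, h1], IsTDS_map e.symm h2⟩

theorem NoIso_iso {W : Type} {G : SimpleGraph V} {H : SimpleGraph W} (e : G ≃g H) :
    NoIso G ↔ NoIso H := by
  constructor
  · intro h w
    obtain ⟨u, hu⟩ := h (e.symm w)
    exact ⟨e u, by simpa using e.map_adj_iff.2 hu⟩
  · intro h w
    obtain ⟨u, hu⟩ := h (e w)
    exact ⟨e.symm u, by simpa using e.symm.map_adj_iff.2 hu⟩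

end Pool.Agent.Q325.TDS
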