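import Pool.Agent.Q325.TdsPoly
import Pool.Agent.NPC.Dec

/-!
# TDS-EQ is in NP
-/

set_option autoImplicit false

namespace Pool.Agent.NPC.Q325TDS

open Pool.Agent.Q325.TDS Pool.Agent.H622R2

/-! ### The sum of the largest degrees -/

theorem take_sum_le (l : List ℕ) (k c : ℕ) :
    (l.take k).sum ≤ k * c + (l.map (fun x => x - c)).sum := by
  induction l generalizing k with
  | nil => simp
  | cons a l ih =>
    cases k with
    | zero => simp
    | succ k =>
      rw [List.take_succ_cons, List.sum_cons, List.map_cons, List.sum_cons]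
      have h1 := ih k
      have h2 : (k + 1) * c = k * c + c := by ring
      omega

theorem exists_cut {l : List ℕ} (hl : l.Pairwise (· ≥ ·)) (k : ℕ) :
    ∃ c, (c = 0 ∨ c ∈ l) ∧ k * c + (l.map (fun x => x - c)).sum ≤ (l.take k).sum := by
  by_cases hk : k < l.length
  · refine ⟨l[k], Or.inr (List.getElem_mem hk), ?_⟩
    have h1 : l = l.take k ++ l.drop k := (List.take_append_drop k l).symm
    set c := l[k] with hc
    have h2 : ∀ x ∈ l.take k, c ≤ x := by
      intro x hx
      obtain ⟨i, hi, rfl⟩ := List.getElem_of_mem hx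
      rw [List.length_take] at hi
      rw [List.getElem_take]
      exact (List.pairwise_iff_getElem.1 hl) i k (by omega) hk (by omega)
    have h3 : ∀ x ∈ l.drop k, x ≤ c := by
      intro x hx
      obtain ⟨i, hi, rfl⟩ := List.getElem_of_mem hx
      rw [List.length_drop] at hi
      rw [List.getElem_drop]
      rcases Nat.eq_zero_or_pos i with rfl | hi0
      · exact le_of_eq (by simp [hc])
      · exact (List.pairwise_iff_getElem.1 hl) k (k + i) hk (by omega) (by omega)
    have h4 : ((l.drop k).map (fun x => x - c)).sum = 0 := by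
      rw [List.sum_eq_zero_iff]
      intro x hx
      obtain ⟨y, hy, rfl⟩ := List.mem_map.1 hx
      exact Nat.sub_eq_zero_of_le (h3 y hy)
    have h5 : ∀ m : List ℕ, (∀ x ∈ m, c ≤ x) →
        m.length * c + (m.map (fun x => x - c)).sum = m.sum := by
      intro m
      induction m with
      | nil => simp
      | cons a m ih =>
        intro hm
        have h6 := ih fun x hx => hm x (List.mem_cons_of_mem _ hx)
        have h7 := hm a (by simp)
        rw [List.length_cons, List.map_cons, List.sum_cons, List.sum_cons]
        have h8 : (m.length + 1) * c = m.length * c + c := by ring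
        omega
    have h6 := h5 _ h2
    rw [List.length_take, min_eq_left hk.le] at h6
    have h7 : (l.map (fun x => x - c)).sum = ((l.take k).map (fun x => x - c)).sum +
        ((l.drop k).map (fun x => x - c)).sum := by
      rw [← List.sum_append, ← List.map_append, List.take_append_drop]
    omega
  · refine ⟨0, Or.inl rfl, ?_⟩
    rw [List.take_of_length_le (by omega)]
    simp

variable {V : Type} [Fintype V]

theorem degSeq_map_sum (G : SimpleGraph V) (c : ℕ) :
    ((degSeq G).map (fun x => x - c)).sum = ∑ v, (dg G v - c) := by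
  have h1 : (((degSeq G).map (fun x => x - c) : List ℕ) : Multiset ℕ) =
      Finset.univ.val.map (fun v => dg G v - c) := by
    rw [← Multiset.map_coe, degSeq_coe, Multiset.map_map]
    rfl
  rw [← Multiset.sum_coe, h1]
  rfl

theorem take_mono (l : List ℕ) {j k : ℕ} (h : j ≤ k) : (l.take j).sum ≤ (l.take k).sum := by
  obtain ⟨d, rfl⟩ := Nat.exists_eq_add_of_le h
  rw [List.take_add, List.sum_append]
  omega

/-- The criterion. -/
theorem crit {G : SimpleGraph V} (hpos : 0 < Fintype.card V) :
    (NoIso G ∧ gammaT G = subT G) ↔ ∃ S : Finset V, IsTDS G S ∧ ∃ c, (c = 0 ∨ ∃ v, dg G v = c) ∧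
      (S.card - 1) * c + ∑ v, (dg G v - c) < Fintype.card V := by
  constructor
  · rintro ⟨h1, h2⟩
    obtain ⟨S, h3, h4⟩ := gammaT_mem h1
    obtain ⟨c, h5, h6⟩ := exists_cut (degSeq_sorted G) (S.card - 1)
    refine ⟨S, h4, c, h5.imp id (mem_degSeq G), ?_⟩
    rw [degSeq_map_sum] at h6
    refine lt_of_le_of_lt h6 ?_
    by_contra h7
    have h8 : subT G ≤ S.card - 1 := Nat.sInf_le (not_lt.1 h7)
    have h9 : S.card ≠ 0 := by
      intro h9
      rw [Finset.card_eq_zero] at h9
      subst h9
      obtain ⟨v⟩ := Fintype.card_pos_iff.1 hpos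
      obtain ⟨u, hu, -⟩ := h4 v
      simp at hu
    omega
  · rintro ⟨S, h1, c, -, h3⟩
    have hno : NoIso G := fun v => by
      obtain ⟨u, -, hu⟩ := h1 v
      exact ⟨u, hu⟩
    refine ⟨hno, le_antisymm ?_ (subT_le_gammaT hno)⟩
    have h4 := gammaT_le h1
    have h5 := subT_mem hno
    by_contra h6
    have h7 : subT G ≤ S.card - 1 := by omega
    have h8 := h5.trans (take_mono _ h7)
    have h9 := take_sum_le (degSeq G) (S.card - 1) c
    rw [degSeq_map_sum] at h9
    omega

/-! ### The test -/

/-- adjacency test -/
def aB (M : List (List Bool)) (u v : ℕ) : Bool := !decide (u = v) && (entry M u v || entry M v u)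

theorem aB_iff (M : List (List Bool)) (u v : Fin M.length) :
    aB M u v = true ↔ (matGraph M).Adj u v := by
  simp only [aB, matGraph, Bool.and_eq_true, Bool.not_eq_true', decide_eq_false_iff_not,
    Bool.or_eq_true]
  rw [Ne, Fin.ext_iff]

/-- degree -/
def dB (M : List (List Bool)) (u : ℕ) : ℕ := ((List.range M.length).filter (fun v => aB M u v)).length

theorem dB_eq (M : List (List Bool)) (u : Fin M.length) : dB M u = dg (matGraph M) u := by
  classical
  unfold dB dg
  rw [← List.countP_eq_length_filter, Set.ncard_eq_toFinset_card']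
  have h1 : ((matGraph M).neighborSet u).toFinset =
      Finset.univ.filter (fun v : Fin M.length => aB M u v = true) := by
    ext v
    simp only [Set.mem_toFinset, SimpleGraph.mem_neighborSet, Finset.mem_filter,
      Finset.mem_univ, true_and]
    exact (aB_iff M u v).symm
  rw [h1, Finset.card_filter, Fin.sum_univ_eq_sum_range (fun i => if aB M u i = true then 1 else 0)]
  have h2 : ∀ (l : List ℕ) (p : ℕ → Bool), l.countP p = (l.map (fun i => if p i = true then 1 else 0)).sum := by
    intro l p
    induction l with
    | nil => rfl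
    | cons a l ih =>
      rw [List.countP_cons, ih, List.map_cons, List.sum_cons]
      omega
  rw [h2]
  rfl

/-- the test -/
def test (M : List (List Bool)) (w : List ℕ) : Bool :=
  decide (M.length = 0) || (w.all (fun u => decide (u < M.length)) &&
    ((List.range M.length).all (fun v => w.any (fun u => aB M v u)) &&
      (0 :: (List.range M.length).map (fun v => dB M v)).any (fun c =>
        decide ((w.length - 1) * c + ((List.range M.length).map (fun v => dB M v - c)).sum <
          M.length))))

theorem sum_range_eq (M : List (List Bool)) (c : ℕ) :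
    ((List.range M.length).map (fun v => dB M v - c)).sum = ∑ v, (dg (matGraph M) v - c) := by
  have h1 : ∑ v : Fin M.length, (dg (matGraph M) v - c) = ∑ v : Fin M.length, (dB M v - c) :=
    Finset.sum_congr rfl fun v _ => by rw [dB_eq]
  rw [h1, Fin.sum_univ_eq_sum_range (fun i => dB M i - c)]
  rfl

theorem test_iff (M : List (List Bool)) : TDSEQ M ↔ ∃ w : List ℕ,
    w.length ≤ M.length ∧ (∀ x ∈ w, x < M.length) ∧ test M w = true := by
  classical
  by_cases h0 : M.length = 0
  · constructor
    · intro _
      exact ⟨[], by simp, by simp, by simp [test, h0]⟩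
    · intro _
      have hE : IsEmpty (Fin M.length) := by rw [h0]; infer_instance
      have h1 : NoIso (matGraph M) := fun v => (hE.false v).elim
      refine ⟨h1, ?_⟩
      have h2 := gammaT_le (univ_TDS h1)
      rw [Finset.univ_eq_empty, Finset.card_empty] at h2
      have h3 := subT_le_gammaT h1
      omega
  · have hpos : 0 < Fintype.card (Fin M.length) := by rw [Fintype.card_fin]; omega
    unfold TDSEQ
    rw [crit hpos]
    constructor
    · rintro ⟨S, h1, c, h2, h3⟩
      refine ⟨S.toList.map Fin.val, ?_, ?_, ?_⟩
      · rw [List.length_map, Finset.length_toList]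
        have := Finset.card_le_univ S
        rwa [Fintype.card_fin] at this
      · intro x hx
        obtain ⟨y, -, rfl⟩ := List.mem_map.1 hx
        exact y.2
      · unfold test
        rw [decide_eq_false h0, Bool.false_or, Bool.and_eq_true, Bool.and_eq_true]
        refine ⟨?_, ?_, ?_⟩
        · rw [List.all_eq_true]
          intro x hx
          obtain ⟨y, -, rfl⟩ := List.mem_map.1 hx
          exact decide_eq_true y.2
        · rw [List.all_eq_true]
          intro v hv
          rw [List.mem_range] at hv
          obtain ⟨u, hu, huv⟩ := h1 ⟨v, hv⟩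
          rw [List.any_eq_true]
          exact ⟨u.val, List.mem_map.2 ⟨u, Finset.mem_toList.2 hu, rfl⟩, (aB_iff M ⟨v, hv⟩ u).2 huv⟩
        · rw [List.any_eq_true]
          refine ⟨c, ?_, ?_⟩
          · rcases h2 with rfl | ⟨v, rfl⟩
            · simp
            · refine List.mem_cons_of_mem _ (List.mem_map.2 ⟨v.val, List.mem_range.2 v.2, dB_eq M v⟩)
          · rw [List.length_map, Finset.length_toList, sum_range_eq]
            rw [Fintype.card_fin] at h3
            exact decide_eq_true h3
    · rintro ⟨w, -, hw, ht⟩
      unfold test at ht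
      rw [decide_eq_false h0, Bool.false_or, Bool.and_eq_true, Bool.and_eq_true] at ht
      obtain ⟨-, h2, h3⟩ := ht
      rw [List.all_eq_true] at h2
      rw [List.any_eq_true] at h3
      obtain ⟨c, hc, h3⟩ := h3
      have h3' := of_decide_eq_true h3
      refine ⟨(w.attach.map (fun x => (⟨x.1, hw x.1 x.2⟩ : Fin M.length))).toFinset, ?_, c, ?_, ?_⟩
      · intro v
        have h4 := h2 v.val (List.mem_range.2 v.2)
        rw [List.any_eq_true] at h4
        obtain ⟨u, hu, huv⟩ := h4
        refine ⟨⟨u, hw u hu⟩, ?_, (aB_iff M v ⟨u, hw u hu⟩).1 huv⟩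
        rw [List.mem_toFinset, List.mem_map]
        exact ⟨⟨u, hu⟩, List.mem_attach _ _, rfl⟩
      · rcases List.mem_cons.1 hc with rfl | hc
        · exact Or.inl rfl
        · obtain ⟨v, hv, rfl⟩ := List.mem_map.1 hc
          rw [List.mem_range] at hv
          exact Or.inr ⟨⟨v, hv⟩, (dB_eq M ⟨v, hv⟩).symm⟩
      · rw [Fintype.card_fin, ← sum_range_eq]
        refine lt_of_le_of_lt (Nat.add_le_add_right (Nat.mul_le_mul_right _
          (Nat.sub_le_sub_right ?_ 1)) _) h3'
        refine (List.toFinset_card_le _).trans ?_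
        rw [List.length_map, List.length_attach]

variable {α : Type} [TEnc α]

theorem poly_entry {M : α → List (List Bool)} {u v : α → ℕ} (hM : Poly M) (hu : Poly u)
    (hv : Poly v) : Poly (fun a => entry (M a) (u a) (v a)) := by
  unfold entry
  exact Poly.getD (d := fun _ => false) (Poly.getD (d := fun _ => []) hM hu (Poly.const [])) hv
    (Poly.const false)

theorem poly_aB {M : α → List (List Bool)} {u v : α → ℕ} (hM : Poly M) (hu : Poly u)
    (hv : Poly v) : Poly (fun a => aB (M a) (u a) (v a)) :=
  Poly.and (Poly.not (Poly.decide_eq hu hv)) (Poly.or (poly_entry hM hu hv) (poly_entry hM hv hu))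

theorem poly_dB {M : α → List (List Bool)} {u : α → ℕ} (hM : Poly M) (hu : Poly u) :
    Poly (fun a => dB (M a) (u a)) :=
  Poly.length (Poly.filter (p := fun a v => aB (M a) (u a) v) (Poly.range_length hM)
    (poly_aB (hM.comp (Poly.fst Poly.id)) (hu.comp (Poly.fst Poly.id)) (Poly.snd Poly.id)))

theorem poly_test {M : α → List (List Bool)} {w : α → List ℕ} (hM : Poly M) (hw : Poly w) :
    Poly (fun a => test (M a) (w a)) := by
  unfold test
  refine Poly.or (Poly.decide_eq (Poly.length hM) (Poly.const 0)) (Poly.and ?_ (Poly.and ?_ ?_))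
  · exact Poly.all (p := fun a u => decide (u < (M a).length)) hw
      (Poly.decide_lt (Poly.snd Poly.id) (Poly.length (hM.comp (Poly.fst Poly.id))))
  · refine Poly.all (p := fun a v => (w a).any (fun u => aB (M a) v u)) (Poly.range_length hM) ?_
    exact Poly.any (p := fun (x : α × ℕ) u => aB (M x.1) x.2 u) (hw.comp (Poly.fst Poly.id))
      (poly_aB (hM.comp (Poly.fst (Poly.fst Poly.id))) (Poly.snd (Poly.fst Poly.id))
        (Poly.snd Poly.id))
  · refine Poly.any (p := fun a c => decide (((w a).length - 1) * c +
      ((List.range (M a).length).map (fun v => dB (M a) v - c)).sum < (M a).length))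
      (Poly.cons (Poly.const 0) (Poly.map (F := fun a v => dB (M a) v) (Poly.range_length hM)
        (poly_dB (hM.comp (Poly.fst Poly.id)) (Poly.snd Poly.id)))) ?_
    have h1 : Poly (fun x : α × ℕ => M x.1) := hM.comp (Poly.fst Poly.id)
    refine Poly.decide_lt (Poly.add (Poly.mul (Poly.sub (Poly.length (hw.comp (Poly.fst Poly.id)))
      (Poly.const 1)) (Poly.snd Poly.id)) (Poly.sum ?_)) (Poly.length h1)
    exact Poly.map (F := fun (x : α × ℕ) v => dB (M x.1) v - x.2) (Poly.range_length h1)
      (Poly.sub (poly_dB (h1.comp (Poly.fst Poly.id)) (Poly.snd Poly.id))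
        (Poly.snd (Poly.fst Poly.id)))

theorem w_sz {M : List (List Bool)} {w : List ℕ} (h1 : w.length ≤ M.length)
    (h2 : ∀ x ∈ w, x < M.length) : sz w ≤ sz M * (4 * sz M + 2) + 1 := by
  have h3 := length_lt_sz M
  have h4 : ∀ x ∈ w, sz x ≤ 4 * sz M + 1 := by
    intro x hx
    have h5 := sz_nat_le x
    have h6 : x.size ≤ x := by
      rw [Nat.size_le]
      exact Nat.lt_two_pow_self
    have h7 := h2 x hx
    omega
  exact (sz_le_length_mul w _ h4).trans (Nat.add_le_add_right (Nat.mul_le_mul_right _ (by omega)) 1)

/-- **TDS-EQ is in NP.** -/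
theorem inNP : InNPP TDSEQ := by
  refine inNPP_of (R := fun p : List (List Bool) × List ℕ =>
    p.2.all (fun x => decide (x < p.1.length)) && test p.1 p.2)
    (Poly.and (Poly.all (p := fun (p : List (List Bool) × List ℕ) x => decide (x < p.1.length))
      (Poly.snd Poly.id) (Poly.decide_lt (Poly.snd Poly.id)
        (Poly.length (Poly.fst (Poly.fst Poly.id))))) (poly_test (Poly.fst Poly.id) (Poly.snd Poly.id)))
    (Polynomial.X * (4 * Polynomial.X + 2) + 1) fun M => ?_
  have e : (Polynomial.X * (4 * Polynomial.X + 2) + 1 : Polynomial ℕ).eval (sz M) =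
      sz M * (4 * sz M + 2) + 1 := by simp
  rw [e, test_iff]
  constructor
  · rintro ⟨w, h1, h2, h3⟩
    refine ⟨w, w_sz h1 h2, ?_⟩
    rw [Bool.and_eq_true, List.all_eq_true]
    exact ⟨fun x hx => decide_eq_true (h2 x hx), h3⟩
  · rintro ⟨w, -, h⟩
    rw [Bool.and_eq_true, List.all_eq_true] at h
    have h2 : ∀ x ∈ w, x < M.length := fun x hx => of_decide_eq_true (h.1 x hx)
    -- the certificate can be shortened
    have h3 : TDSEQ M := by
      classical
      by_cases h0 : M.length = 0
      · exact (test_iff M).2 ⟨[], by simp, by simp, by simp [test, h0]⟩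
      · have hpos : 0 < Fintype.card (Fin M.length) := by rw [Fintype.card_fin]; omega
        have ht := h.2
        unfold test at ht
        rw [decide_eq_false h0, Bool.false_or, Bool.and_eq_true, Bool.and_eq_true] at ht
        obtain ⟨-, h4, h5⟩ := ht
        rw [List.all_eq_true] at h4
        rw [List.any_eq_true] at h5
        obtain ⟨c, hc, h5⟩ := h5
        have h5' := of_decide_eq_true h5
        unfold TDSEQ
        rw [crit hpos]
        refine ⟨(w.attach.map (fun x => (⟨x.1, h2 x.1 x.2⟩ : Fin M.length))).toFinset, ?_, c, ?_, ?_⟩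
        · intro v
          have h6 := h4 v.val (List.mem_range.2 v.2)
          rw [List.any_eq_true] at h6
          obtain ⟨u, hu, huv⟩ := h6
          refine ⟨⟨u, h2 u hu⟩, ?_, (aB_iff M v ⟨u, h2 u hu⟩).1 huv⟩
          rw [List.mem_toFinset, List.mem_map]
          exact ⟨⟨u, hu⟩, List.mem_attach _ _, rfl⟩
        · rcases List.mem_cons.1 hc with rfl | hc
          · exact Or.inl rfl
          · obtain ⟨v, hv, rfl⟩ := List.mem_map.1 hc
            rw [List.mem_range] at hv
            exact Or.inr ⟨⟨v, hv⟩, (dB_eq M ⟨v, hv⟩).symm⟩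
        · rw [Fintype.card_fin, ← sum_range_eq]
          refine lt_of_le_of_lt (Nat.add_le_add_right (Nat.mul_le_mul_right _
            (Nat.sub_le_sub_right ?_ 1)) _) h5'
          refine (List.toFinset_card_le _).trans ?_
          rw [List.length_map, List.length_attach]
    exact (test_iff M).1 h3

end Pool.Agent.NPC.Q325TDS
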