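import Pool.Agent.Q325.TdsCore
import Pool.Agent.H622R2.Base

/-!
# TDS-EQ is NP-hard
-/

set_option autoImplicit false

namespace Pool.Agent.NPC.Q325TDS

open Pool.Agent.Q325.TDS Pool.Agent.H622R2 Pool.Agent.NPC.H632 Pool.Agent.H557R2.Tri

variable {α : Type} [TEnc α]

/-- Four copies of a list. -/
def four (S : List (ℕ × ℕ × ℕ)) : List (ℕ × ℕ × ℕ) := S ++ (S ++ (S ++ S))

theorem mem_four {S : List (ℕ × ℕ × ℕ)} {t : ℕ × ℕ × ℕ} : t ∈ four S ↔ t ∈ S := by
  simp [four]

theorem four_Pr {S : List (ℕ × ℕ × ℕ)} {q : ℕ} (h : Pr S q) : Pr (four S) q := by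
  refine ⟨fun t ht => h.lt t (mem_four.1 ht), fun t ht t' ht' => h.d01 t (mem_four.1 ht) t'
    (mem_four.1 ht'), fun t ht t' ht' => h.d02 t (mem_four.1 ht) t' (mem_four.1 ht'),
    fun t ht t' ht' => h.d12 t (mem_four.1 ht) t' (mem_four.1 ht'), fun e he => ?_, ?_⟩
  · obtain ⟨t, ht, h1⟩ := h.occ e he
    exact ⟨t, mem_four.2 ht, h1⟩
  · obtain ⟨t, ht⟩ := List.exists_mem_of_ne_nil _ h.ne
    exact List.ne_nil_of_mem (mem_four.2 ht)

theorem four_length {S : List (ℕ × ℕ × ℕ)} {q : ℕ} (h : Pr S q) : 4 ≤ (four S).length := by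
  have := List.length_pos_iff.2 h.ne
  simp only [four, List.length_append]
  omega

theorem four_X3C (S : List (ℕ × ℕ × ℕ)) (q : ℕ) : X3C (four S, q) ↔ X3C (S, q) := by
  unfold X3C XC
  simp only [mem_four]

theorem poly_four {S : α → List (ℕ × ℕ × ℕ)} (hS : Poly S) : Poly (fun a => four (S a)) :=
  Poly.append hS (Poly.append hS (Poly.append hS hS))

theorem poly_vs {S : α → List (ℕ × ℕ × ℕ)} (hS : Poly S) : Poly (fun a => vs (S a)) := by
  have hl : UPoly (fun a => (S a).length) := UPoly.length hS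
  have hl2 : UPoly (fun a => (S a).length - 2) :=
    UPoly.of_le (Poly.sub hl.toPoly (Poly.const 2)) hl fun a => Nat.sub_le _ _
  unfold vs
  refine Poly.append (Poly.flatMap (F := fun (a : α) (t : ℕ) =>
    (List.range ((S a).length - 2)).map (fun i => ((0, t, i) : Lb)) ++
      (List.range ((S a).length + 1)).map (fun j => ((1, t, j) : Lb))) hl.range ?_) ?_
  · refine Poly.append ?_ ?_
    · exact Poly.map (F := fun (p : α × ℕ) (i : ℕ) => ((0, p.2, i) : Lb))
        ((hl2.comp (Poly.fst Poly.id)).range) (Poly.pair (Poly.const 0)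
          (Poly.pair (Poly.snd (Poly.fst Poly.id)) (Poly.snd Poly.id)))
    · exact Poly.map (F := fun (p : α × ℕ) (i : ℕ) => ((1, p.2, i) : Lb))
        (((hl.add (UPoly.const 1)).comp (Poly.fst Poly.id)).range) (Poly.pair (Poly.const 1)
          (Poly.pair (Poly.snd (Poly.fst Poly.id)) (Poly.snd Poly.id)))
  · exact Poly.map (F := fun _ (x : ℕ) => ((2, x, 0) : Lb)) ((UPoly.const 3).mul hl).range
      (Poly.pair (Poly.const 2) (Poly.pair (Poly.snd Poly.id) (Poly.const 0)))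

theorem poly_el {t : α → ℕ × ℕ × ℕ} (ht : Poly t) : Poly (fun a => el (t a)) :=
  Poly.cons (Poly.fst ht) (Poly.cons (Poly.fst (Poly.snd ht)) (Poly.cons (Poly.snd (Poly.snd ht))
    (Poly.const [])))

theorem poly_L {S : α → List (ℕ × ℕ × ℕ)} {q t j : α → ℕ} (hS : Poly S) (hq : Poly q)
    (ht : Poly t) (hj : Poly j) : Poly (fun a => L (S a) (q a) (t a) (j a)) := by
  have hb : Poly (fun a => 3 * q a + 3 * (j a - 1)) :=
    Poly.add (Poly.mul (Poly.const 3) hq) (Poly.mul (Poly.const 3) (Poly.sub hj (Poly.const 1)))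
  have hg : Poly (fun a => (S a).getD (t a) (0, 0, 0)) :=
    Poly.getD (d := fun _ => (0, 0, 0)) hS ht (Poly.const _)
  refine (Poly.cond (Poly.decide_eq hj (Poly.const 0)) (poly_el hg) (Poly.cond
    (Poly.decide_le hj (Poly.sub (Poly.length hS) hq)) (Poly.cons hb (Poly.cons (Poly.succ hb)
      (Poly.cons (Poly.succ (Poly.succ hb)) (Poly.const [])))) (Poly.const []))).congr fun a => ?_
  unfold L
  by_cases h1 : j a = 0
  · simp [h1]
  · by_cases h2 : j a ≤ (S a).length - q a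
    · simp [h1, h2]
    · simp [h1, h2]

/-- The reduction. -/
def red (I : List (ℕ × ℕ × ℕ) × ℕ) : List (List Bool) := mat (vs (four I.1)) (adj (four I.1) I.2)

theorem poly_red : Poly red := by
  unfold red
  refine mat_poly (poly_vs (poly_four (Poly.fst Poly.id))) ?_
  have hI : Poly (fun p : ((List (ℕ × ℕ × ℕ) × ℕ) × Lb) × Lb => p.1.1) := Poly.fst (Poly.fst Poly.id)
  have hu : Poly (fun p : ((List (ℕ × ℕ × ℕ) × ℕ) × Lb) × Lb => p.1.2) := Poly.snd (Poly.fst Poly.id)
  have hv : Poly (fun p : ((List (ℕ × ℕ × ℕ) × ℕ) × Lb) × Lb => p.2) := Poly.snd Poly.id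
  unfold adj
  refine Poly.or (Poly.and (Poly.decide_eq (Poly.fst hu) (Poly.const 0)) (Poly.and
    (Poly.decide_eq (Poly.fst hv) (Poly.const 1)) (Poly.decide_eq (Poly.fst (Poly.snd hu))
      (Poly.fst (Poly.snd hv))))) (Poly.and (Poly.decide_eq (Poly.fst hu) (Poly.const 1)) (Poly.and
    (Poly.decide_eq (Poly.fst hv) (Poly.const 2)) ?_))
  exact Poly.decide_mem (Poly.fst (Poly.snd hv)) (poly_L (poly_four (Poly.fst hI)) (Poly.snd hI)
    (Poly.fst (Poly.snd hu)) (Poly.snd (Poly.snd hu)))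

/-- **TDS-EQ is NP-hard.** -/
theorem hard : HardI TDSEQ := by
  refine (hardPr_X3Cr.trans (Pr' := fun _ => True) poly_red (fun _ _ => trivial)
    fun I hI => ?_).toHardI
  obtain ⟨S, q⟩ := I
  unfold red
  rw [TDSEQ_iff (four_Pr hI) (four_length hI), four_X3C]

end Pool.Agent.NPC.Q325TDS
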