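import Pool.Agent.Q325.TdsGen
import Pool.Agent.H557R2.Tri.Src

/-!
# The graph of an instance of exact cover
-/

set_option autoImplicit false

namespace Pool.Agent.Q325.TDS

open Pool.Agent.H622R2 Pool.Agent.NPC.H632 Pool.Agent.H557R2.Tri

/-- Labels of the vertices. -/
abbrev Lb := ℕ × ℕ × ℕ

/-- The elements (and dummy elements) attached to the vertex `(1, t, j)`. -/
def L (S : List (ℕ × ℕ × ℕ)) (q t j : ℕ) : List ℕ :=
  if j = 0 then el (S.getD t (0, 0, 0))
  else if j ≤ S.length - q then [3 * q + 3 * (j - 1), 3 * q + 3 * (j - 1) + 1,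
    3 * q + 3 * (j - 1) + 2]
  else []

/-- The vertices. -/
def vs (S : List (ℕ × ℕ × ℕ)) : List Lb :=
  ((List.range S.length).flatMap fun t =>
    (List.range (S.length - 2)).map (fun i => ((0, t, i) : Lb)) ++
      (List.range (S.length + 1)).map (fun j => ((1, t, j) : Lb))) ++
    (List.range (3 * S.length)).map (fun x => ((2, x, 0) : Lb))

/-- Adjacency test. -/
def adj (S : List (ℕ × ℕ × ℕ)) (q : ℕ) (u v : Lb) : Bool :=
  (decide (u.1 = 0) && (decide (v.1 = 1) && decide (u.2.1 = v.2.1))) ||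
    (decide (u.1 = 1) && (decide (v.1 = 2) && decide (v.2.1 ∈ L S q u.2.1 u.2.2)))

theorem mem_vs {S : List (ℕ × ℕ × ℕ)} {v : Lb} : v ∈ vs S ↔
    (v.1 = 0 ∧ v.2.1 < S.length ∧ v.2.2 < S.length - 2) ∨
    (v.1 = 1 ∧ v.2.1 < S.length ∧ v.2.2 < S.length + 1) ∨
    (v.1 = 2 ∧ v.2.1 < 3 * S.length ∧ v.2.2 = 0) := by
  obtain ⟨c, t, i⟩ := v
  unfold vs
  simp only [List.mem_append, List.mem_flatMap, List.mem_map, List.mem_range, Prod.mk.injEq]
  constructor
  · rintro (⟨t', ht, ⟨i', hi, h1, h2, h3⟩ | ⟨i', hi, h1, h2, h3⟩⟩ | ⟨x, hx, h1, h2, h3⟩)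
    · exact Or.inl (by omega)
    · exact Or.inr (Or.inl (by omega))
    · exact Or.inr (Or.inr (by omega))
  · rintro (⟨h1, h2, h3⟩ | ⟨h1, h2, h3⟩ | ⟨h1, h2, h3⟩)
    · exact Or.inl ⟨t, h2, Or.inl ⟨i, h3, h1.symm, rfl, rfl⟩⟩
    · exact Or.inl ⟨t, h2, Or.inr ⟨i, h3, h1.symm, rfl, rfl⟩⟩
    · exact Or.inr ⟨t, h2, h1.symm, rfl, h3.symm⟩

theorem vs_nodup (S : List (ℕ × ℕ × ℕ)) : (vs S).Nodup := by
  unfold vs
  rw [List.nodup_append]
  refine ⟨?_, ?_, ?_⟩
  · rw [List.nodup_flatMap]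
    constructor
    · intro t _
      rw [List.nodup_append]
      refine ⟨List.nodup_range.map fun a b h => by simpa using h,
        List.nodup_range.map fun a b h => by simpa using h, ?_⟩
      intro a ha b hb
      obtain ⟨i, -, rfl⟩ := List.mem_map.1 ha
      obtain ⟨j, -, rfl⟩ := List.mem_map.1 hb
      simp
    · refine List.nodup_range.imp fun {a b} hab => ?_
      intro x hx hy
      simp only [List.mem_append, List.mem_map] at hx hy
      rcases hx with ⟨i, -, rfl⟩ | ⟨i, -, rfl⟩ <;> rcases hy with ⟨j, -, h⟩ | ⟨j, -, h⟩ <;>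
        simp only [Prod.mk.injEq] at h <;> omega
  · exact List.nodup_range.map fun a b h => by simpa using h
  · intro a ha b hb
    simp only [List.mem_flatMap, List.mem_append, List.mem_map] at ha hb
    obtain ⟨t, -, ⟨i, -, rfl⟩ | ⟨i, -, rfl⟩⟩ := ha <;> obtain ⟨j, -, rfl⟩ := hb <;> simp

theorem vs_length {S : List (ℕ × ℕ × ℕ)} (h : 2 ≤ S.length) :
    (vs S).length = (2 * S.length) * (S.length + 1) := by
  unfold vs
  rw [List.length_append, List.length_flatMap, List.length_map, List.length_range]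
  simp only [List.length_append, List.length_map, List.length_range, List.map_const', List.sum_replicate,
    smul_eq_mul]
  obtain ⟨m, hm⟩ : ∃ m, S.length = m + 2 := ⟨S.length - 2, by omega⟩
  rw [hm, Nat.add_sub_cancel]
  ring

theorem L_length (S : List (ℕ × ℕ × ℕ)) (q t j : ℕ) : (L S q t j).length ≤ 3 := by
  unfold L
  split_ifs <;> simp [el]

theorem q_le {S : List (ℕ × ℕ × ℕ)} {q : ℕ} (h : Pr S q) : q ≤ S.length := by
  have h1 : (List.range (3 * q)).length ≤ (S.flatMap el).length := by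
    refine (List.nodup_range.subperm fun x hx => ?_).length_le
    obtain ⟨t, ht, hxt⟩ := h.occ x (List.mem_range.1 hx)
    exact List.mem_flatMap.2 ⟨t, ht, hxt⟩
  rw [List.length_range, List.length_flatMap] at h1
  have h2 : (S.map fun t => (el t).length).sum = 3 * S.length := by
    have : (S.map fun t => (el t).length) = S.map fun _ => 3 := List.map_congr_left fun t _ => rfl
    rw [this, List.map_const', List.sum_replicate, smul_eq_mul, mul_comm]
  omega

theorem one_le_q {S : List (ℕ × ℕ × ℕ)} {q : ℕ} (h : Pr S q) : 1 ≤ q := by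
  obtain ⟨t, ht⟩ := List.exists_mem_of_ne_nil _ h.ne
  have := (h.lt t ht).1
  omega

theorem L_lt {S : List (ℕ × ℕ × ℕ)} {q : ℕ} (h : Pr S q) {t j x : ℕ} (ht : t < S.length)
    (hx : x ∈ L S q t j) : x < 3 * S.length := by
  have hq := q_le h
  unfold L at hx
  split_ifs at hx with h1 h2
  · have := h.lt _ (getD_mem ht)
    simp only [el, List.mem_cons, List.not_mem_nil, or_false] at hx
    omega
  · simp only [List.mem_cons, List.not_mem_nil, or_false] at hx
    omega
  · simp at hx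

/-- The graph. -/
abbrev Gr (S : List (ℕ × ℕ × ℕ)) (q : ℕ) : SimpleGraph {x // x ∈ vs S} :=
  labGraph (vs S) (adj S q)

theorem Gr_adj {S : List (ℕ × ℕ × ℕ)} {q : ℕ} (u v : {x // x ∈ vs S}) : (Gr S q).Adj u v ↔
    (u.1.1 = 0 ∧ v.1.1 = 1 ∧ u.1.2.1 = v.1.2.1) ∨
    (u.1.1 = 1 ∧ v.1.1 = 2 ∧ v.1.2.1 ∈ L S q u.1.2.1 u.1.2.2) ∨
    (v.1.1 = 0 ∧ u.1.1 = 1 ∧ v.1.2.1 = u.1.2.1) ∨
    (v.1.1 = 1 ∧ u.1.1 = 2 ∧ u.1.2.1 ∈ L S q v.1.2.1 v.1.2.2) := by
  have h0 : u ≠ v ↔ u.1 ≠ v.1 := by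
    rw [Ne, Subtype.ext_iff]
  simp only [Gr, labGraph, adj, Bool.or_eq_true, Bool.and_eq_true, decide_eq_true_eq]
  rw [h0]
  constructor
  · rintro ⟨-, (h | h) | (h | h)⟩
    · exact Or.inl h
    · exact Or.inr (Or.inl h)
    · exact Or.inr (Or.inr (Or.inl h))
    · exact Or.inr (Or.inr (Or.inr h))
  · intro h
    refine ⟨?_, ?_⟩
    · intro he
      rw [he] at h
      omega
    · rcases h with h | h | h | h
      · exact Or.inl (Or.inl h)
      · exact Or.inl (Or.inr h)
      · exact Or.inr (Or.inl h)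
      · exact Or.inr (Or.inr h)

theorem ncard_le {S : List (ℕ × ℕ × ℕ)} {q : ℕ} (v : {x // x ∈ vs S}) (l : List Lb)
    (h : ∀ u, (Gr S q).Adj v u → u.1 ∈ l) : dg (Gr S q) v ≤ l.length := by
  classical
  unfold dg
  rw [← Set.ncard_image_of_injective _ Subtype.val_injective]
  have h1 : Subtype.val '' (Gr S q).neighborSet v ⊆ ((l.toFinset : Finset Lb) : Set Lb) := by
    rintro x ⟨u, hu, rfl⟩
    simpa using h u hu
  refine (Set.ncard_le_ncard h1 (Finset.finite_toSet _)).trans ?_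
  rw [Set.ncard_coe_finset]
  exact List.toFinset_card_le l

theorem le_ncard {S : List (ℕ × ℕ × ℕ)} {q : ℕ} (v : {x // x ∈ vs S}) (l : List Lb) (hl : l.Nodup)
    (h : ∀ x ∈ l, ∃ hx : x ∈ vs S, (Gr S q).Adj v ⟨x, hx⟩) : l.length ≤ dg (Gr S q) v := by
  classical
  unfold dg
  rw [← Set.ncard_image_of_injective _ Subtype.val_injective]
  have h1 : ((l.toFinset : Finset Lb) : Set Lb) ⊆ Subtype.val '' (Gr S q).neighborSet v := by
    intro x hx
    rw [List.coe_toFinset, Set.mem_setOf_eq] at hx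
    obtain ⟨hx', h2⟩ := h x hx
    exact ⟨⟨x, hx'⟩, h2, rfl⟩
  rw [← List.toFinset_card_of_nodup hl, ← Set.ncard_coe_finset]
  exact Set.ncard_le_ncard h1 (Set.toFinite _)

/-- Upper bound of the degrees. -/
theorem dg_le {S : List (ℕ × ℕ × ℕ)} {q : ℕ} (h : Pr S q) (h4 : 4 ≤ S.length)
    (v : {x // x ∈ vs S}) : dg (Gr S q) v ≤ S.length + 1 := by
  obtain ⟨⟨c, t, i⟩, hv⟩ := v
  rcases mem_vs.1 hv with ⟨h1, h2, h3⟩ | ⟨h1, h2, h3⟩ | ⟨h1, h2, h3⟩
  · simp only at h1 h2 h3
    subst h1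
    refine (ncard_le _ ((List.range (S.length + 1)).map (fun j => ((1, t, j) : Lb))) ?_).trans
      (by simp)
    rintro ⟨⟨c', t', i'⟩, hu⟩ ha
    rw [Gr_adj] at ha
    simp only at ha
    rw [List.mem_map]
    rcases mem_vs.1 hu with ⟨h5, h6, h7⟩ | ⟨h5, h6, h7⟩ | ⟨h5, h6, h7⟩
    · simp only at h5
      omega
    · simp only at h5 h6 h7
      refine ⟨i', List.mem_range.2 h7, ?_⟩
      simp only [Prod.mk.injEq, and_true]
      omega
    · simp only at h5
      omega
  · simp only at h1 h2 h3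
    subst h1
    refine (ncard_le _ ((List.range (S.length - 2)).map (fun j => ((0, t, j) : Lb)) ++
      (L S q t i).map (fun x => ((2, x, 0) : Lb))) ?_).trans ?_
    · rintro ⟨⟨c', t', i'⟩, hu⟩ ha
      rw [Gr_adj] at ha
      simp only at ha
      rw [List.mem_append, List.mem_map, List.mem_map]
      rcases mem_vs.1 hu with ⟨h5, h6, h7⟩ | ⟨h5, h6, h7⟩ | ⟨h5, h6, h7⟩
      · simp only at h5 h6 h7
        refine Or.inl ⟨i', List.mem_range.2 h7, ?_⟩
        simp only [Prod.mk.injEq, and_true]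
        omega
      · simp only at h5
        omega
      · simp only at h5 h6 h7
        refine Or.inr ⟨t', ?_, ?_⟩
        · rcases ha with ha | ha | ha | ha
          · omega
          · exact ha.2.2
          · omega
          · omega
        · subst h5 h7
          rfl
    · rw [List.length_append, List.length_map, List.length_map, List.length_range]
      have := L_length S q t i
      omega
  · simp only at h1 h2 h3
    subst h1
    refine (ncard_le _ ((List.range S.length).map (fun t' => ((1, t', if t < 3 * q then 0 else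
      (t - 3 * q) / 3 + 1) : Lb))) ?_).trans (by simp)
    rintro ⟨⟨c', t', i'⟩, hu⟩ ha
    rw [Gr_adj] at ha
    simp only at ha
    rw [List.mem_map]
    rcases mem_vs.1 hu with ⟨h5, h6, h7⟩ | ⟨h5, h6, h7⟩ | ⟨h5, h6, h7⟩
    · simp only at h5
      omega
    · simp only at h5 h6 h7
      refine ⟨t', List.mem_range.2 h6, ?_⟩
      have ha' : t ∈ L S q t' i' := by
        rcases ha with ha | ha | ha | ha
        · omega
        · omega
        · omega
        · exact ha.2.2
      simp only [Prod.mk.injEq, true_and]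
      refine ⟨h5.symm, ?_⟩
      unfold L at ha'
      have hlt := h.lt _ (getD_mem h6)
      split_ifs at ha' with h8 h9
      · simp only [el, List.mem_cons, List.not_mem_nil, or_false] at ha'
        rw [if_pos (by omega), h8]
      · simp only [List.mem_cons, List.not_mem_nil, or_false] at ha'
        rw [if_neg (by omega)]
        omega
      · simp at ha'
    · simp only at h5
      omega

theorem noIso {S : List (ℕ × ℕ × ℕ)} {q : ℕ} (h : Pr S q) (h4 : 4 ≤ S.length) :
    NoIso (Gr S q) := by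
  rintro ⟨⟨c, t, i⟩, hv⟩
  rcases mem_vs.1 hv with ⟨h1, h2, h3⟩ | ⟨h1, h2, h3⟩ | ⟨h1, h2, h3⟩
  · simp only at h1 h2 h3
    refine ⟨⟨(1, t, 0), mem_vs.2 (Or.inr (Or.inl ⟨rfl, h2, by dsimp only; omega⟩))⟩, ?_⟩
    rw [Gr_adj]
    exact Or.inl ⟨h1, rfl, rfl⟩
  · simp only at h1 h2 h3
    refine ⟨⟨(0, t, 0), mem_vs.2 (Or.inl ⟨rfl, h2, by dsimp only; omega⟩)⟩, ?_⟩
    rw [Gr_adj]
    exact Or.inr (Or.inr (Or.inl ⟨rfl, h1, rfl⟩))
  · simp only at h1 h2 h3
    by_cases h5 : t < 3 * q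
    · obtain ⟨s, hs, hts⟩ := h.occ t h5
      obtain ⟨k, hk, hks⟩ := List.getElem_of_mem hs
      refine ⟨⟨(1, k, 0), mem_vs.2 (Or.inr (Or.inl ⟨rfl, hk, by dsimp only; omega⟩))⟩, ?_⟩
      rw [Gr_adj]
      refine Or.inr (Or.inr (Or.inr ⟨rfl, h1, ?_⟩))
      unfold L
      rw [if_pos rfl, List.getD_eq_getElem _ _ hk, hks]
      exact hts
    · refine ⟨⟨(1, 0, (t - 3 * q) / 3 + 1), mem_vs.2 (Or.inr (Or.inl ⟨rfl, by dsimp only; omega,
        by dsimp only; omega⟩))⟩, ?_⟩
      rw [Gr_adj]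
      refine Or.inr (Or.inr (Or.inr ⟨rfl, h1, ?_⟩))
      unfold L
      rw [if_neg (by dsimp only; omega), if_pos (by dsimp only; omega)]
      simp only [List.mem_cons, List.not_mem_nil, or_false]
      omega

theorem card_Gr {S : List (ℕ × ℕ × ℕ)} (h4 : 4 ≤ S.length) :
    Fintype.card {x // x ∈ vs S} = (2 * S.length) * (S.length + 1) := by
  rw [← vs_length (by omega)]
  have h1 := Fintype.card_congr (List.Nodup.getEquiv (vs S) (vs_nodup S))
  rw [← h1, Fintype.card_fin]

theorem subT_Gr {S : List (ℕ × ℕ × ℕ)} {q : ℕ} (h : Pr S q) (h4 : 4 ≤ S.length) :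
    subT (Gr S q) = 2 * S.length := by
  classical
  have hm : ∀ p ∈ (Finset.range S.length ×ˢ Finset.range 2), ((0, p.1, p.2) : Lb) ∈ vs S := by
    intro p hp
    rw [Finset.mem_product, Finset.mem_range, Finset.mem_range] at hp
    exact mem_vs.2 (Or.inl ⟨rfl, hp.1, by dsimp only; omega⟩)
  refine subT_eq (S0 := (Finset.range S.length ×ˢ Finset.range 2).attach.image
    (fun p => (⟨(0, p.1.1, p.1.2), hm p.1 p.2⟩ : {x // x ∈ vs S}))) (noIso h h4) (card_Gr h4)
    (dg_le h h4) (by omega) ?_ ?_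
  · rw [Finset.card_image_of_injective, Finset.card_attach, Finset.card_product, Finset.card_range,
      Finset.card_range, mul_comm]
    intro a b hab
    simp only [Subtype.mk.injEq, Prod.mk.injEq, true_and] at hab
    exact Subtype.ext (Prod.ext hab.1 hab.2)
  · intro v hv
    obtain ⟨p, -, rfl⟩ := Finset.mem_image.1 hv
    have hp := p.2
    rw [Finset.mem_product, Finset.mem_range, Finset.mem_range] at hp
    have h1 := le_ncard (q := q) (⟨(0, p.1.1, p.1.2), hm p.1 p.2⟩ : {x // x ∈ vs S})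
      ((List.range (S.length + 1)).map (fun j => ((1, p.1.1, j) : Lb)))
      (List.nodup_range.map fun a b h => by simpa using h) (by
        intro x hx
        obtain ⟨j, hj, rfl⟩ := List.mem_map.1 hx
        refine ⟨mem_vs.2 (Or.inr (Or.inl ⟨rfl, hp.1, List.mem_range.1 hj⟩)), ?_⟩
        rw [Gr_adj]
        exact Or.inl ⟨rfl, rfl, rfl⟩)
    rwa [List.length_map, List.length_range] at h1

end Pool.Agent.Q325.TDS
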