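import Pool.Agent.H622R2.MatGraph

/-!
# 2-factors of the underlying graph of a digraph, one cycle of which is a directed cycle

Digraphs are given by adjacency matrices (`Pool.Agent.H622R2.entry`).
-/

set_option autoImplicit false

namespace Pool.Agent.Q325.TF

open Pool.Agent.H622R2

/-- The arcs of the digraph with vertices `0, ..., n - 1` and adjacency matrix `M` (`n` is the number
of rows of `M`): there is an arc from `u` to `v` if `u ≠ v` and the entry `(u, v)` is `true`. -/
def Arc (M : List (List Bool)) (u v : Fin M.length) : Prop := u ≠ v ∧ entry M u v = true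

/-- The underlying graph of a digraph. -/
def UG {V : Type} (D : V → V → Prop) : SimpleGraph V where
  Adj u v := u ≠ v ∧ (D u v ∨ D v u)
  symm := ⟨fun _ _ h => ⟨h.1.symm, h.2.symm⟩⟩
  loopless := ⟨fun _ h => h.1 rfl⟩

/-- The underlying graph of the digraph `D` has a 2-factor `H` (a spanning subgraph in which every
vertex has degree two) which contains a directed cycle `c 0, c 1, ..., c m = c 0` of `D`. (The
vertices and edges of this cycle form a component of `H`, that is, one of the cycles of the
2-factor.) -/
def HasFactor {V : Type} (D : V → V → Prop) : Prop :=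
  ∃ H : SimpleGraph V, H ≤ UG D ∧ (∀ v, (H.neighborSet v).ncard = 2) ∧
    ∃ (m : ℕ) (c : ℕ → V), 3 ≤ m ∧ (∀ i < m, ∀ j < m, c i = c j → i = j) ∧ c m = c 0 ∧
      ∀ i < m, D (c i) (c (i + 1)) ∧ H.Adj (c i) (c (i + 1))

/-- The decision problem, for digraphs given by adjacency matrices. -/
def OneDirected (M : List (List Bool)) : Prop := HasFactor (Arc M)

end Pool.Agent.Q325.TF
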