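import Pool.Agent.Q325.TfRed

/-!
# Correctness of the reduction
-/

set_option autoImplicit false

namespace Pool.Agent.NPC.Q325TF

open Pool.Agent.Q325.TF Pool.Agent.H622R2 Pool.Agent.NPC.Q325TwoPM

theorem fwd {φ : F3} (hpos : 0 < φ.length) (hw : ∃ w : ℕ → Bool, ∀ j < φ.length, ∃ s < 3,
    w (vid φ (3 * j + s)) = sgn φ (3 * j + s)) : OneDirected (red φ) := by
  obtain ⟨w, hw⟩ := hw
  choose! sj hsj using hw
  set κ : ℕ → ℕ := fun j => 3 * j + sj j with hκ
  have h : Sel φ κ := by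
    refine ⟨hpos, ?_, ?_, ?_⟩
    · intro j hj
      have := (hsj j hj).1
      simp only [hκ, NN]
      omega
    · intro j hj
      have := (hsj j hj).1
      simp only [hκ]
      omega
    · intro i hi j hj
      by_contra hc
      rw [Bool.not_eq_false, comp_iff] at hc
      have h1 := (hsj i hi).2
      have h2 := (hsj j hj).2
      simp only [hκ] at hc
      rw [hc.1] at h1
      exact hc.2 (h1.symm.trans h2)
  have hN := NN3 h
  set N := NN φ with hNdef
  set m := φ.length with hmdef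
  refine factor_of (LL φ) (List.nodup_dedup _) (arcB φ) (ff φ κ) (gg φ κ)
    (fun a ha => (good_all h ha).1.1) (fun a ha => (good_all h ha).1.2.1)
    (fun a ha => (good_all h ha).1.2.2) (fun a ha => (good_all h ha).2.1.1)
    (fun a ha => (good_all h ha).2.1.2) (fun a ha => (good_all h ha).2.2.1)
    (fun a ha => (good_all h ha).2.2.2.1) (fun a ha => (good_all h ha).2.2.2.2.1)
    (fun a ha => (good_all h ha).2.2.2.2.2)
    (m * N) (fun i => (0, κ (i / N % m), i % N)) ?_ ?_ ?_ ?_ ?_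
  · calc 3 ≤ 1 * N := by omega
      _ ≤ m * N := Nat.mul_le_mul_right _ hpos
  · intro i
    rw [mem_LL]
    exact ⟨by omega, h.lt _ (Nat.mod_lt _ hpos), Nat.mod_lt _ (by omega), Or.inl rfl⟩
  · intro i hi j hj hij
    simp only [Prod.mk.injEq, true_and] at hij
    have i1 : i / N < m := Nat.div_lt_of_lt_mul (by rwa [mul_comm] at hi)
    have j1 : j / N < m := Nat.div_lt_of_lt_mul (by rwa [mul_comm] at hj)
    rw [Nat.mod_eq_of_lt i1, Nat.mod_eq_of_lt j1] at hij
    have h1 := h.dv _ i1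
    have h2 := h.dv _ j1
    rw [hij.1, h2] at h1
    have h3 := Nat.div_add_mod i N
    have h4 := Nat.div_add_mod j N
    rw [← h3, ← h4, h1, hij.2]
  · simp only [Prod.mk.injEq, true_and]
    rw [Nat.mul_div_cancel _ (by omega), Nat.mod_self, Nat.zero_div, Nat.zero_mod,
      Nat.mul_mod_left, Nat.zero_mod]
    exact ⟨rfl, rfl⟩
  · intro i _
    have hq : i / N % m < m := Nat.mod_lt _ hpos
    have hτ : i % N < N := Nat.mod_lt _ (by omega)
    have hσ : κ (i / N % m) < N := h.lt _ hq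
    have hu := used_κ h hq
    have e1 : ff φ κ (0, κ (i / N % m), i % N) = nxt φ κ (κ (i / N % m)) (i % N) := by
      simp [ff, hu]
    have e2 : nxt φ κ (κ (i / N % m)) (i % N) = (0, κ ((i + 1) / N % m), (i + 1) % N) := by
      unfold nxt
      rw [← hNdef, ← hmdef]
      have h3 := Nat.div_add_mod i N
      split_ifs with h1
      · have h4 : (i + 1) / N = i / N := by
          rw [Nat.div_eq_iff (by omega)]
          rw [mul_comm] at h3
          constructor
          · omega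
          · have : (i / N + 1) * N = i / N * N + N := by ring
            omega
        have h5 : (i + 1) % N = i % N + 1 := by
          have := Nat.div_add_mod (i + 1) N
          rw [h4] at this
          omega
        rw [h4, h5]
      · have h6 : i % N + 1 = N := by omega
        have h4 : (i + 1) / N = i / N + 1 := by
          have : i + 1 = N * (i / N + 1) := by
            rw [mul_add, mul_one]
            omega
          rw [this, Nat.mul_div_cancel_left _ (by omega)]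
        have h5 : (i + 1) % N = 0 := by
          have : i + 1 = N * (i / N + 1) := by
            rw [mul_add, mul_one]
            omega
          rw [this, Nat.mul_mod_right]
        rw [h4, h5, h.dv _ hq, Nat.mod_add_mod]
    rw [e1, e2]
    refine ⟨rfl, ?_⟩
    rw [← e2]
    unfold nxt
    rw [← hNdef, ← hmdef]
    split_ifs with h1
    · rw [arcB_iff]
      exact Or.inl ⟨rfl, rfl, Or.inl ⟨rfl, rfl⟩⟩
    · rw [arcB_iff]
      exact Or.inl ⟨rfl, rfl, Or.inr ⟨by omega, rfl,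
        by rw [h.dv _ (Nat.mod_lt _ hpos)]⟩⟩

theorem bwd {φ : F3} (h : OneDirected (red φ)) : ∃ w : ℕ → Bool,
    ∀ j < φ.length, ∃ s < 3, w (vid φ (3 * j + s)) = sgn φ (3 * j + s) := by
  classical
  obtain ⟨S, ⟨a0, ha0⟩, hSL, hS1, hS2⟩ := of_factor _ (List.nodup_dedup _) _ h
  change ∀ a ∈ S, a ∈ LL φ at hSL
  have n3 : ∀ σ τ, (3, σ, τ) ∉ S := by
    intro σ τ hs
    obtain ⟨⟨k', σ', τ'⟩, hb, hr⟩ := hS1 _ hs
    rw [arcB_iff] at hr
    omega
  have n2 : ∀ σ τ, (2, σ, τ) ∉ S := by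
    intro σ τ hs
    obtain ⟨⟨k', σ', τ'⟩, hb, hr⟩ := hS1 _ hs
    rw [arcB_iff] at hr
    have : k' = 3 := by omega
    subst this
    exact n3 _ _ hb
  have n1 : ∀ σ τ, (1, σ, τ) ∉ S := by
    intro σ τ hs
    obtain ⟨⟨k', σ', τ'⟩, hb, hr⟩ := hS1 _ hs
    rw [arcB_iff] at hr
    have : k' = 2 ∨ k' = 3 := by omega
    rcases this with rfl | rfl
    · exact n2 _ _ hb
    · exact n3 _ _ hb
  have n0 : ∀ k σ τ, (k, σ, τ) ∈ S → k = 0 ∧ σ < NN φ ∧ τ < NN φ := by
    intro k σ τ hs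
    have h1 := mem_LL.1 (hSL _ hs)
    refine ⟨?_, h1.2.1, h1.2.2.1⟩
    have : k = 0 ∨ k = 1 ∨ k = 2 ∨ k = 3 := by omega
    rcases this with h | rfl | rfl | rfl
    · exact h
    · exact absurd hs (n1 _ _)
    · exact absurd hs (n2 _ _)
    · exact absurd hs (n3 _ _)
  have step : ∀ σ τ, (0, σ, τ) ∈ S → τ + 1 < NN φ → (0, σ, τ + 1) ∈ S := by
    intro σ τ hs hτ
    obtain ⟨⟨k', σ', τ'⟩, hb, hr⟩ := hS1 _ hs
    rw [arcB_iff] at hr
    obtain ⟨rfl, h1, h2⟩ := n0 _ _ _ hb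
    have h3 : σ' = σ ∧ τ' = τ + 1 := by omega
    rw [h3.1, h3.2] at hb
    exact hb
  have last : ∀ σ, (0, σ, NN φ - 1) ∈ S → ∃ σ', (0, σ', 0) ∈ S ∧ σ' / 3 = (σ / 3 + 1) % φ.length := by
    intro σ hs
    obtain ⟨⟨k', σ', τ'⟩, hb, hr⟩ := hS1 _ hs
    rw [arcB_iff] at hr
    obtain ⟨rfl, h1, h2⟩ := n0 _ _ _ hb
    obtain ⟨-, -, h4⟩ := n0 _ _ _ hs
    have h3 : τ' = 0 ∧ σ' / 3 = (σ / 3 + 1) % φ.length := by omega
    rw [h3.1] at hb
    exact ⟨σ', hb, h3.2⟩
  have reach : ∀ d σ τ, (0, σ, τ) ∈ S → τ + d < NN φ → (0, σ, τ + d) ∈ S := by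
    intro d
    induction d with
    | zero => intro σ τ hs _; exact hs
    | succ d ih =>
      intro σ τ hs hd
      exact step _ _ (ih σ τ hs (by omega)) (by omega)
  have hnext : ∀ σ τ, (0, σ, τ) ∈ S → ∃ σ', (0, σ', 0) ∈ S ∧ σ' / 3 = (σ / 3 + 1) % φ.length := by
    intro σ τ hs
    obtain ⟨-, h1, h2⟩ := n0 _ _ _ hs
    have h3 := reach (NN φ - 1 - τ) σ τ hs (by omega)
    rw [show τ + (NN φ - 1 - τ) = NN φ - 1 by omega] at h3
    exact last σ h3
  have hstart : ∃ σ0, (0, σ0, 0) ∈ S := by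
    obtain ⟨k, σ, τ⟩ := a0
    obtain ⟨rfl, -, -⟩ := n0 _ _ _ ha0
    obtain ⟨σ', h1, -⟩ := hnext σ τ ha0
    exact ⟨σ', h1⟩
  obtain ⟨σ0, hσ0⟩ := hstart
  have hdiv : ∀ σ, (0, σ, 0) ∈ S → σ / 3 < φ.length := fun σ hs => div_lt (n0 _ _ _ hs).2.1
  have hiter : ∀ k, ∃ σ, (0, σ, 0) ∈ S ∧ σ / 3 = (σ0 / 3 + k) % φ.length := by
    intro k
    induction k with
    | zero => exact ⟨σ0, hσ0, by rw [add_zero, Nat.mod_eq_of_lt (hdiv _ hσ0)]⟩
    | succ k ih =>
      obtain ⟨σ, h1, h2⟩ := ih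
      obtain ⟨σ', h3, h4⟩ := hnext σ 0 h1
      refine ⟨σ', h3, ?_⟩
      rw [h4, h2, Nat.mod_add_mod, add_assoc]
  have hsel : ∀ j, j < φ.length → ∃ σ, (0, σ, 0) ∈ S ∧ σ / 3 = j := by
    intro j hj
    obtain ⟨σ, h1, h2⟩ := hiter (j + φ.length - σ0 / 3)
    have h3 := hdiv _ hσ0
    refine ⟨σ, h1, ?_⟩
    rw [h2, show σ0 / 3 + (j + φ.length - σ0 / 3) = j + φ.length by omega, Nat.add_mod_right,
      Nat.mod_eq_of_lt hj]
  choose! κ hκ using hsel
  have hfull : ∀ j < φ.length, ∀ τ < NN φ, (0, κ j, τ) ∈ S := by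
    intro j hj τ hτ
    have := reach τ (κ j) 0 (hκ j hj).1 (by omega)
    rwa [zero_add] at this
  have hκN : ∀ j < φ.length, κ j < NN φ := fun j hj => (n0 _ _ _ (hκ j hj).1).2.1
  -- complementary slots are not both selected
  have pairs : ∀ σ τ, comp φ σ τ = true → σ < τ → σ < NN φ → τ < NN φ → (0, σ, τ) ∈ S →
      (0, τ, σ) ∈ S → False := by
    intro σ τ hc hlt hσ hτ h1 h2
    obtain ⟨b1, hb1, b2, hb2, hne, hn1, hn2, hr1, hr2⟩ := hS2 (1, σ, τ)
      (mem_LL.2 ⟨by omega, hσ, hτ, Or.inr (Or.inr ⟨by omega, hlt⟩)⟩) (n1 _ _)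
    have key : ∀ b : Lab, b ∉ S → (arcB φ (1, σ, τ) b = true ∨ arcB φ b (1, σ, τ) = true) →
        b = (2, σ, τ) := by
      rintro ⟨k', σ', τ'⟩ hb hr
      rcases hr with hr | hr
      · rw [arcB_iff] at hr
        rcases hr with hr | ⟨-, hr⟩ | ⟨hr0, hr⟩
        · omega
        · have : k' = 2 ∧ σ' = σ ∧ τ' = τ := by omega
          rw [this.1, this.2.1, this.2.2]
        · obtain ⟨r1, r2, -⟩ := hr
          rw [← r1, ← r2, hc] at hr0
          exact absurd hr0 (by simp)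
      · rw [arcB_iff] at hr
        rcases hr with hr | ⟨-, hr⟩ | ⟨hr0, hr⟩
        · omega
        · exfalso
          have : k' = 0 ∧ ((σ' = σ ∧ τ' = τ) ∨ (σ' = τ ∧ τ' = σ)) := by omega
          obtain ⟨rfl, ⟨rfl, rfl⟩ | ⟨rfl, rfl⟩⟩ := this
          · exact hb h1
          · exact hb h2
        · rw [hc] at hr0
          exact absurd hr0 (by simp)
    exact hne ((key b1 hn1 hr1).trans (key b2 hn2 hr2).symm)
  have hnc : ∀ i < φ.length, ∀ j < φ.length, comp φ (κ i) (κ j) = false := by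
    intro i hi j hj
    by_contra hc
    rw [Bool.not_eq_false] at hc
    have hne := comp_ne hc
    rcases Nat.lt_or_gt_of_ne hne with hlt | hlt
    · exact pairs _ _ hc hlt (hκN i hi) (hκN j hj) (hfull i hi _ (hκN j hj))
        (hfull j hj _ (hκN i hi))
    · rw [comp_comm] at hc
      exact pairs _ _ hc hlt (hκN j hj) (hκN i hi) (hfull j hj _ (hκN i hi))
        (hfull i hi _ (hκN j hj))
  refine ⟨fun x => decide (∃ i < φ.length, vid φ (κ i) = x ∧ sgn φ (κ i) = true), ?_⟩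
  intro j hj
  have hd := (hκ j hj).2
  have hj' : 3 * j + (κ j - 3 * j) = κ j := by omega
  refine ⟨κ j - 3 * j, by omega, ?_⟩
  rw [hj']
  by_cases hs : sgn φ (κ j) = true
  · rw [hs, decide_eq_true_iff]
    exact ⟨j, hj, rfl, hs⟩
  · rw [Bool.not_eq_true] at hs
    rw [hs, decide_eq_false_iff_not]
    rintro ⟨i, hi, h1, h2⟩
    have h3 := hnc i hi j hj
    have h4 : comp φ (κ i) (κ j) = true := comp_iff.2 ⟨h1, by rw [h2, hs]; simp⟩
    rw [h3] at h4
    exact absurd h4 (by simp)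

/-! ### The reduction is computable in polynomial time -/

/-- a tautological clause in front -/
def pad (φ : F3) : F3 := ((true, 0), (false, 0), (true, 0)) :: φ

theorem pad_iff (φ : F3) : SAT3 (pad φ) ↔ SAT3 φ := by
  unfold SAT3 pad
  constructor
  · rintro ⟨v, hv⟩
    exact ⟨v, fun c hc => hv c (List.mem_cons_of_mem _ hc)⟩
  · rintro ⟨v, hv⟩
    refine ⟨v, fun c hc => ?_⟩
    rcases List.mem_cons.1 hc with rfl | hc
    · rcases Bool.eq_false_or_eq_true (v 0) with hb | hb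
      · left; exact hb
      · right; left; exact hb
    · exact hv c hc

theorem red_iff (φ : F3) : SAT3 φ ↔ OneDirected (red (pad φ)) := by
  rw [← pad_iff, sat_iff]
  exact ⟨fwd (by simp [pad]), bwd⟩

section

variable {α : Type} [TEnc α]

theorem poly_sgn {φ : α → F3} {k : α → ℕ} (hφ : Poly φ) (hk : Poly k) :
    Poly (fun a => sgn (φ a) (k a)) := Poly.fst (poly_lit hφ hk)

theorem poly_comp {φ : α → F3} {σ τ : α → ℕ} (hφ : Poly φ) (hσ : Poly σ) (hτ : Poly τ) :
    Poly (fun a => comp (φ a) (σ a) (τ a)) :=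
  Poly.and (Poly.decide_eq (poly_vid hφ hσ) (poly_vid hφ hτ))
    (Poly.not (Poly.decide_eq (poly_sgn hφ hσ) (poly_sgn hφ hτ)))

theorem uNN {φ : α → F3} (hφ : Poly φ) : UPoly (fun a => NN (φ a)) :=
  UPoly.mul (UPoly.const 3) (UPoly.length hφ)

theorem poly_okB {φ : α → F3} {a : α → Lab} (hφ : Poly φ) (ha : Poly a) :
    Poly (fun x => okB (φ x) (a x)) := by
  unfold okB
  have h1 := Poly.fst ha
  have h2 := Poly.fst (Poly.snd ha)
  have h3 := Poly.snd (Poly.snd ha)
  exact Poly.or (Poly.decide_eq h1 (Poly.const 0))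
    (Poly.ite (Poly.decide_bool (poly_comp hφ h2 h3))
      (Poly.and (Poly.decide_lt h1 (Poly.const 3)) (Poly.decide_lt h2 h3)) (Poly.const true))

theorem poly_arcB {φ : α → F3} {a b : α → Lab} (hφ : Poly φ) (ha : Poly a) (hb : Poly b) :
    Poly (fun x => arcB (φ x) (a x) (b x)) := by
  unfold arcB
  have a1 := Poly.fst ha
  have a2 := Poly.fst (Poly.snd ha)
  have a3 := Poly.snd (Poly.snd ha)
  have b1 := Poly.fst hb
  have b2 := Poly.fst (Poly.snd hb)
  have b3 := Poly.snd (Poly.snd hb)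
  have e : ∀ {f : α → ℕ} (c : ℕ), Poly f → Poly (fun x => decide (f x = c)) :=
    fun c hf => Poly.decide_eq hf (Poly.const c)
  refine Poly.or (Poly.and (e 0 a1) (Poly.and (e 0 b1) (Poly.or (Poly.and (Poly.decide_eq a2 b2)
    (Poly.decide_eq b3 (Poly.add a3 (Poly.const 1)))) (Poly.and (Poly.decide_eq
    (Poly.add a3 (Poly.const 1)) (uNN hφ).toPoly) (Poly.and (e 0 b3) (Poly.decide_eq
    (Poly.div b2 (Poly.const 3)) (Poly.mod (Poly.add (Poly.div a2 (Poly.const 3)) (Poly.const 1))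
    (Poly.length hφ)))))))) ?_
  refine Poly.ite (Poly.decide_bool (poly_comp hφ b2 b3)) ?_ ?_
  · exact Poly.or (Poly.and (e 0 a1) (Poly.and (Poly.decide_le (Poly.const 1) b1)
      (Poly.and (Poly.decide_le b1 (Poly.const 2)) (Poly.or (Poly.and (Poly.decide_eq a2 b2)
      (Poly.decide_eq a3 b3)) (Poly.and (Poly.decide_eq a2 b3) (Poly.decide_eq a3 b2))))))
      (Poly.and (e 1 a1) (Poly.and (e 2 b1) (Poly.and (Poly.decide_eq a2 b2)
      (Poly.decide_eq a3 b3))))
  · exact Poly.and (Poly.decide_eq a2 b2) (Poly.and (Poly.decide_eq a3 b3)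
      (Poly.or (Poly.and (e 0 a1) (Poly.or (e 1 b1) (e 3 b1)))
      (Poly.or (Poly.and (e 1 a1) (Poly.or (e 2 b1) (e 3 b1))) (Poly.and (e 2 a1) (e 3 b1)))))

end

theorem poly_LL : Poly LL := by
  unfold LL
  refine Pool.Agent.NPC.H612.poly_dedup ?_
  refine Poly.filter (p := fun (φ : F3) a => okB φ a) ?_ (poly_okB (Poly.fst Poly.id) (Poly.snd Poly.id))
  unfold tri
  refine Poly.flatMap (F := fun (φ : F3) k => (List.range (NN φ)).flatMap fun σ =>
    (List.range (NN φ)).map fun τ => ((k, σ, τ) : Lab)) (Poly.const (List.range 4)) ?_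
  refine Poly.flatMap (F := fun (p : F3 × ℕ) σ => (List.range (NN p.1)).map fun τ =>
    ((p.2, σ, τ) : Lab)) (uNN (Poly.fst Poly.id)).range ?_
  refine Poly.map (F := fun (p : (F3 × ℕ) × ℕ) τ => ((p.1.2, p.2, τ) : Lab))
    (uNN (Poly.fst (Poly.fst Poly.id))).range ?_
  exact Poly.pair (Poly.snd (Poly.fst (Poly.fst Poly.id)))
    (Poly.pair (Poly.snd (Poly.fst Poly.id)) (Poly.snd Poly.id))

theorem poly_red : Poly (fun φ : F3 => red (pad φ)) := by
  have h1 : Poly pad := Poly.cons (Poly.const _) Poly.id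
  have h2 : Poly red := by
    unfold red
    exact mat_poly poly_LL (poly_arcB (Poly.fst (Poly.fst Poly.id)) (Poly.snd (Poly.fst Poly.id))
      (Poly.snd Poly.id))
  exact h2.comp h1

theorem hard : HardI OneDirected := hardI_SAT3.trans poly_red red_iff

end Pool.Agent.NPC.Q325TF
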