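import Pool.Agent.Q325.TfDefs

/-!
# Labelled vertices
-/

set_option autoImplicit false

namespace Pool.Agent.Q325.TF

open Pool.Agent.H622R2

variable {α : Type} [DecidableEq α]

theorem arc_mat (L : List α) (hL : L.Nodup) (r : α → α → Bool) (u v : Fin (mat L r).length)
    (hu : (u : ℕ) < L.length) (hv : (v : ℕ) < L.length) :
    Arc (mat L r) u v ↔ L[(u : ℕ)] ≠ L[(v : ℕ)] ∧ r (L[(u : ℕ)]) (L[(v : ℕ)]) = true := by
  unfold Arc
  have e : u = v ↔ L[(u : ℕ)] = L[(v : ℕ)] := by rw [hL.getElem_inj_iff, Fin.ext_iff]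
  rw [entry_mat _ _ _ _ hu hv, Ne, e]

/-- From labels to the digraph. -/
theorem factor_of (L : List α) (hL : L.Nodup) (r : α → α → Bool) (f g : α → α)
    (hf : ∀ a ∈ L, f a ∈ L) (hg : ∀ a ∈ L, g a ∈ L) (hfg : ∀ a ∈ L, f a ≠ g a)
    (hfa : ∀ a ∈ L, f a ≠ a) (hga : ∀ a ∈ L, g a ≠ a)
    (hff : ∀ a ∈ L, f (f a) = a ∨ g (f a) = a) (hgg : ∀ a ∈ L, f (g a) = a ∨ g (g a) = a)
    (hrf : ∀ a ∈ L, r a (f a) = true ∨ r (f a) a = true)
    (hrg : ∀ a ∈ L, r a (g a) = true ∨ r (g a) a = true)
    (m : ℕ) (c : ℕ → α) (hm : 3 ≤ m) (hcL : ∀ i, c i ∈ L)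
    (hci : ∀ i < m, ∀ j < m, c i = c j → i = j) (hcm : c m = c 0)
    (hc : ∀ i < m, f (c i) = c (i + 1) ∧ r (c i) (c (i + 1)) = true) :
    OneDirected (mat L r) := by
  have hlen : (mat L r).length = L.length := mat_length L r
  have hlt : ∀ u : Fin (mat L r).length, (u : ℕ) < L.length := fun u => lt_of_lt_of_eq u.2 hlen
  set lab : Fin (mat L r).length → α := fun u => L[(u : ℕ)]'(hlt u) with hlab
  have hmem : ∀ u, lab u ∈ L := fun u => List.getElem_mem _
  have hinj : ∀ u v, lab u = lab v → u = v := fun u v h => by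
    simp only [hlab] at h
    rw [hL.getElem_inj_iff] at h
    exact Fin.ext h
  have hsur : ∀ a ∈ L, ∃ u, lab u = a := fun a ha => by
    obtain ⟨i, hi, h⟩ := List.getElem_of_mem ha
    exact ⟨⟨i, lt_of_lt_of_eq hi hlen.symm⟩, h⟩
  haveI : Nonempty (Fin (mat L r).length) := ⟨(hsur _ (hcL 0)).choose⟩
  choose! num hnum using hsur
  have hD : ∀ u v, Arc (mat L r) u v ↔ lab u ≠ lab v ∧ r (lab u) (lab v) = true :=
    fun u v => arc_mat L hL r u v (hlt u) (hlt v)
  let H : SimpleGraph (Fin (mat L r).length) :=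
    { Adj := fun u v => lab v = f (lab u) ∨ lab v = g (lab u)
      symm := ⟨fun u v h => by
        rcases h with h | h
        · rw [h]
          rcases hff _ (hmem u) with h' | h'
          · exact Or.inl h'.symm
          · exact Or.inr h'.symm
        · rw [h]
          rcases hgg _ (hmem u) with h' | h'
          · exact Or.inl h'.symm
          · exact Or.inr h'.symm⟩
      loopless := ⟨fun u h => by
        rcases h with h | h
        · exact hfa _ (hmem u) h.symm
        · exact hga _ (hmem u) h.symm⟩ }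
  have hH : ∀ u v, H.Adj u v ↔ lab v = f (lab u) ∨ lab v = g (lab u) := fun u v => Iff.rfl
  refine ⟨H, ?_, ?_, m, fun i => num (c i), hm, ?_, ?_, ?_⟩
  · intro u v h
    have hne : u ≠ v := h.ne
    refine ⟨hne, ?_⟩
    have hne' : lab u ≠ lab v := fun e => hne (hinj _ _ e)
    rw [hD, hD]
    rcases (hH u v).1 h with h | h
    · rcases hrf _ (hmem u) with h' | h'
      · left
        exact ⟨hne', h ▸ h'⟩
      · right
        exact ⟨hne'.symm, h ▸ h'⟩
    · rcases hrg _ (hmem u) with h' | h'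
      · left
        exact ⟨hne', h ▸ h'⟩
      · right
        exact ⟨hne'.symm, h ▸ h'⟩
  · intro u
    have e : H.neighborSet u = {num (f (lab u)), num (g (lab u))} := by
      ext v
      rw [SimpleGraph.mem_neighborSet, hH, Set.mem_insert_iff, Set.mem_singleton_iff]
      have h1 := hnum _ (hf _ (hmem u))
      have h2 := hnum _ (hg _ (hmem u))
      constructor
      · rintro (h | h)
        · exact Or.inl (hinj _ _ (by rw [h, h1]))
        · exact Or.inr (hinj _ _ (by rw [h, h2]))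
      · rintro (h | h)
        · exact Or.inl (by rw [h, h1])
        · exact Or.inr (by rw [h, h2])
    rw [e, Set.ncard_pair]
    intro h
    have h1 := hnum _ (hf _ (hmem u))
    have h2 := hnum _ (hg _ (hmem u))
    rw [h, h2] at h1
    exact hfg _ (hmem u) h1.symm
  · intro i hi j hj h
    apply hci i hi j hj
    have h1 := hnum _ (hcL i)
    have h2 := hnum _ (hcL j)
    simp only at h
    rw [← h1, ← h2, h]
  · simp only [hcm]
  · intro i hi
    obtain ⟨h1, h2⟩ := hc i hi
    have a1 := hnum _ (hcL i)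
    have a2 := hnum _ (hcL (i + 1))
    constructor
    · rw [hD, a1, a2]
      refine ⟨?_, h2⟩
      rw [← h1]
      exact (hfa _ (hcL i)).symm
    · rw [hH, a1, a2]
      exact Or.inl h1.symm

/-- From the digraph to labels. -/
theorem of_factor (L : List α) (hL : L.Nodup) (r : α → α → Bool) (h : OneDirected (mat L r)) :
    ∃ S : Set α, S.Nonempty ∧ (∀ a ∈ S, a ∈ L) ∧ (∀ a ∈ S, ∃ b ∈ S, r a b = true) ∧
      ∀ p ∈ L, p ∉ S → ∃ b1 ∈ L, ∃ b2 ∈ L, b1 ≠ b2 ∧ b1 ∉ S ∧ b2 ∉ S ∧
        (r p b1 = true ∨ r b1 p = true) ∧ (r p b2 = true ∨ r b2 p = true) := by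
  have hlen : (mat L r).length = L.length := mat_length L r
  have hlt : ∀ u : Fin (mat L r).length, (u : ℕ) < L.length := fun u => lt_of_lt_of_eq u.2 hlen
  set lab : Fin (mat L r).length → α := fun u => L[(u : ℕ)]'(hlt u) with hlab
  have hmem : ∀ u, lab u ∈ L := fun u => List.getElem_mem _
  have hinj : ∀ u v, lab u = lab v → u = v := fun u v h => by
    simp only [hlab] at h
    rw [hL.getElem_inj_iff] at h
    exact Fin.ext h
  have hD : ∀ u v, Arc (mat L r) u v ↔ lab u ≠ lab v ∧ r (lab u) (lab v) = true :=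
    fun u v => arc_mat L hL r u v (hlt u) (hlt v)
  obtain ⟨H, hU, hdeg, m, c, hm, hci, hcm, hc⟩ := h
  have hlast : ∃ k, k < m ∧ k + 1 = m := ⟨m - 1, by omega, by omega⟩
  -- closed under neighbours
  have hclosed : ∀ i < m, ∀ v, H.Adj (c i) v → ∃ j < m, v = c j := by
    intro i hi v hv
    -- the two neighbours on the cycle
    have h1 : ∃ j < m, H.Adj (c i) (c j) ∧ j = (if i + 1 = m then 0 else i + 1) := by
      by_cases hi1 : i + 1 = m
      · refine ⟨0, by omega, ?_, by rw [if_pos hi1]⟩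
        rw [← hcm, ← hi1]
        exact (hc i hi).2
      · refine ⟨i + 1, by omega, (hc i hi).2, by rw [if_neg hi1]⟩
    have h2 : ∃ j < m, H.Adj (c i) (c j) ∧ j = (if i = 0 then m - 1 else i - 1) := by
      by_cases hi0 : i = 0
      · refine ⟨m - 1, by omega, ?_, by rw [if_pos hi0]⟩
        have := (hc (m - 1) (by omega)).2
        rw [show m - 1 + 1 = m by omega, hcm] at this
        rw [hi0]
        exact this.symm
      · refine ⟨i - 1, by omega, ?_, by rw [if_neg hi0]⟩
        have := (hc (i - 1) (by omega)).2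
        rw [show i - 1 + 1 = i by omega] at this
        exact this.symm
    obtain ⟨j1, hj1, a1, e1⟩ := h1
    obtain ⟨j2, hj2, a2, e2⟩ := h2
    have hne : c j1 ≠ c j2 := by
      intro h
      have := hci _ hj1 _ hj2 h
      rw [e1, e2] at this
      split_ifs at this <;> omega
    obtain ⟨x, y, hxy, hN⟩ := Set.ncard_eq_two.1 (hdeg (c i))
    have m1 : c j1 ∈ ({x, y} : Set _) := by rw [← hN]; exact a1
    have m2 : c j2 ∈ ({x, y} : Set _) := by rw [← hN]; exact a2
    have m3 : v ∈ ({x, y} : Set _) := by rw [← hN]; exact hv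
    simp only [Set.mem_insert_iff, Set.mem_singleton_iff] at m1 m2 m3
    rcases m3 with rfl | rfl
    · rcases m1 with m1 | m1
      · exact ⟨j1, hj1, m1.symm⟩
      · rcases m2 with m2 | m2
        · exact ⟨j2, hj2, m2.symm⟩
        · exact absurd (m1.trans m2.symm) hne
    · rcases m1 with m1 | m1
      · rcases m2 with m2 | m2
        · exact absurd (m1.trans m2.symm) hne
        · exact ⟨j2, hj2, m2.symm⟩
      · exact ⟨j1, hj1, m1.symm⟩
  refine ⟨{a | ∃ i < m, a = lab (c i)}, ⟨lab (c 0), 0, by omega, rfl⟩, ?_, ?_, ?_⟩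
  · rintro a ⟨i, -, rfl⟩
    exact hmem _
  · rintro a ⟨i, hi, rfl⟩
    refine ⟨lab (c (i + 1)), ?_, ((hD _ _).1 (hc i hi).1).2⟩
    by_cases hi1 : i + 1 = m
    · exact ⟨0, by omega, by rw [hi1, hcm]⟩
    · exact ⟨i + 1, by omega, rfl⟩
  · intro p hp hpS
    obtain ⟨k, hk, rfl⟩ := List.getElem_of_mem hp
    set u : Fin (mat L r).length := ⟨k, lt_of_lt_of_eq hk hlen.symm⟩ with hu
    obtain ⟨x, y, hxy, hN⟩ := Set.ncard_eq_two.1 (hdeg u)
    have a1 : H.Adj u x := by
      have : x ∈ H.neighborSet u := by rw [hN]; simp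
      exact this
    have a2 : H.Adj u y := by
      have : y ∈ H.neighborSet u := by rw [hN]; simp
      exact this
    have key : ∀ v, H.Adj u v → lab v ∉ {a | ∃ i < m, a = lab (c i)} := by
      rintro v hv ⟨i, hi, h⟩
      have h1 := hinj _ _ h
      subst h1
      obtain ⟨j, hj, h2⟩ := hclosed i hi u hv.symm
      exact hpS ⟨j, hj, by rw [← h2]⟩
    have key2 : ∀ v, H.Adj u v → r (lab u) (lab v) = true ∨ r (lab v) (lab u) = true := by
      intro v hv
      rcases (hU hv).2 with h | h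
      · exact Or.inl ((hD _ _).1 h).2
      · exact Or.inr ((hD _ _).1 h).2
    exact ⟨lab x, hmem x, lab y, hmem y, fun h => hxy (hinj _ _ h), key x a1, key y a2, key2 x a1,
      key2 y a2⟩

end Pool.Agent.Q325.TF
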