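import Pool.Agent.Q325.TfGen
import Pool.Agent.Q325.MatchNP
import Pool.Agent.H622R2.Base

/-!
# The reduction from 3-SAT
-/

set_option autoImplicit false

namespace Pool.Agent.NPC.Q325TF

open Pool.Agent.Q325.TF Pool.Agent.H622R2 Pool.Agent.NPC.Q325TwoPM

abbrev Lab : Type := ℕ × ℕ × ℕ

/-- the number of slots -/
def NN (φ : F3) : ℕ := 3 * φ.length

/-- complementary literals -/
def comp (φ : F3) (σ τ : ℕ) : Bool :=
  decide (vid φ σ = vid φ τ) && !decide (sgn φ σ = sgn φ τ)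

theorem comp_iff {φ : F3} {σ τ : ℕ} : comp φ σ τ = true ↔ vid φ σ = vid φ τ ∧ sgn φ σ ≠ sgn φ τ := by
  simp [comp]

theorem comp_comm {φ : F3} {σ τ : ℕ} : comp φ σ τ = comp φ τ σ := by
  rw [Bool.eq_iff_iff, comp_iff, comp_iff]
  exact ⟨fun h => ⟨h.1.symm, h.2.symm⟩, fun h => ⟨h.1.symm, h.2.symm⟩⟩

theorem comp_ne {φ : F3} {σ τ : ℕ} (h : comp φ σ τ = true) : σ ≠ τ := by
  rintro rfl
  exact (comp_iff.1 h).2 rfl

/-- the vertices -/
def okB (φ : F3) (a : Lab) : Bool :=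
  decide (a.1 = 0) || (if comp φ a.2.1 a.2.2 = true then decide (a.1 < 3) && decide (a.2.1 < a.2.2)
    else true)

def tri (φ : F3) : List Lab :=
  (List.range 4).flatMap fun k => (List.range (NN φ)).flatMap fun σ => (List.range (NN φ)).map fun τ =>
    (k, σ, τ)

def LL (φ : F3) : List Lab := ((tri φ).filter (okB φ)).dedup

/-- the arcs -/
def arcB (φ : F3) (a b : Lab) : Bool :=
  (decide (a.1 = 0) && (decide (b.1 = 0) && ((decide (a.2.1 = b.2.1) && decide (b.2.2 = a.2.2 + 1)) ||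
    (decide (a.2.2 + 1 = NN φ) && (decide (b.2.2 = 0) &&
      decide (b.2.1 / 3 = (a.2.1 / 3 + 1) % φ.length)))))) ||
  (if comp φ b.2.1 b.2.2 = true then
    (decide (a.1 = 0) && (decide (1 ≤ b.1) && (decide (b.1 ≤ 2) &&
      ((decide (a.2.1 = b.2.1) && decide (a.2.2 = b.2.2)) ||
        (decide (a.2.1 = b.2.2) && decide (a.2.2 = b.2.1)))))) ||
    (decide (a.1 = 1) && (decide (b.1 = 2) && (decide (a.2.1 = b.2.1) && decide (a.2.2 = b.2.2))))
  else decide (a.2.1 = b.2.1) && (decide (a.2.2 = b.2.2) &&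
    ((decide (a.1 = 0) && (decide (b.1 = 1) || decide (b.1 = 3))) ||
      ((decide (a.1 = 1) && (decide (b.1 = 2) || decide (b.1 = 3))) ||
        (decide (a.1 = 2) && decide (b.1 = 3))))))

theorem arcB_iff {φ : F3} {k σ τ k' σ' τ' : ℕ} : arcB φ (k, σ, τ) (k', σ', τ') = true ↔
    (k = 0 ∧ k' = 0 ∧ ((σ = σ' ∧ τ' = τ + 1) ∨ (τ + 1 = NN φ ∧ τ' = 0 ∧
      σ' / 3 = (σ / 3 + 1) % φ.length))) ∨
    (comp φ σ' τ' = true ∧ ((k = 0 ∧ 1 ≤ k' ∧ k' ≤ 2 ∧ ((σ = σ' ∧ τ = τ') ∨ (σ = τ' ∧ τ = σ'))) ∨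
      (k = 1 ∧ k' = 2 ∧ σ = σ' ∧ τ = τ'))) ∨
    (comp φ σ' τ' = false ∧ σ = σ' ∧ τ = τ' ∧ ((k = 0 ∧ (k' = 1 ∨ k' = 3)) ∨
      (k = 1 ∧ (k' = 2 ∨ k' = 3)) ∨ (k = 2 ∧ k' = 3))) := by
  unfold arcB
  by_cases h : comp φ σ' τ' = true
  · simp [h]
  · rw [Bool.not_eq_true] at h
    simp [h]

theorem mem_LL {φ : F3} {k σ τ : ℕ} : (k, σ, τ) ∈ LL φ ↔ k < 4 ∧ σ < NN φ ∧ τ < NN φ ∧
    (k = 0 ∨ comp φ σ τ = false ∨ (k < 3 ∧ σ < τ)) := by
  unfold LL
  rw [List.mem_dedup, List.mem_filter]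
  have h1 : (k, σ, τ) ∈ tri φ ↔ k < 4 ∧ σ < NN φ ∧ τ < NN φ := by
    unfold tri
    simp only [List.mem_flatMap, List.mem_map, List.mem_range, Prod.mk.injEq]
    constructor
    · rintro ⟨k', h1, σ', h2, τ', h3, rfl, rfl, rfl⟩
      exact ⟨h1, h2, h3⟩
    · rintro ⟨h1, h2, h3⟩
      exact ⟨k, h1, σ, h2, τ, h3, rfl, rfl, rfl⟩
  have h2 : okB φ (k, σ, τ) = true ↔ (k = 0 ∨ comp φ σ τ = false ∨ (k < 3 ∧ σ < τ)) := by
    unfold okB
    by_cases h : comp φ σ τ = true
    · simp [h]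
    · rw [Bool.not_eq_true] at h
      simp [h]
  rw [h1, h2]
  tauto

/-- The reduction. -/
def red (φ : F3) : List (List Bool) := mat (LL φ) (arcB φ)

/-! ### From assignments to 2-factors -/

section Fwd

variable (φ : F3) (κ : ℕ → ℕ)

def used (σ : ℕ) : Bool := decide (κ (σ / 3) = σ)

def nxt (σ τ : ℕ) : Lab := if τ + 1 < NN φ then (0, σ, τ + 1) else (0, κ ((σ / 3 + 1) % φ.length), 0)

def prv (σ τ : ℕ) : Lab :=
  if 0 < τ then (0, σ, τ - 1) else (0, κ ((σ / 3 + φ.length - 1) % φ.length), NN φ - 1)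

def ff (a : Lab) : Lab :=
  if a.1 = 0 then
    if used κ a.2.1 = true then nxt φ κ a.2.1 a.2.2
    else if comp φ a.2.1 a.2.2 = true then (1, min a.2.1 a.2.2, max a.2.1 a.2.2)
    else (1, a.2.1, a.2.2)
  else if a.1 = 3 then (2, a.2.1, a.2.2)
  else if comp φ a.2.1 a.2.2 = true then
    (if used κ a.2.1 = true then (0, a.2.2, a.2.1) else (0, a.2.1, a.2.2))
  else if a.1 = 1 then (2, a.2.1, a.2.2) else (1, a.2.1, a.2.2)

def gg (a : Lab) : Lab :=
  if a.1 = 0 then
    if used κ a.2.1 = true then prv φ κ a.2.1 a.2.2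
    else if comp φ a.2.1 a.2.2 = true then (2, min a.2.1 a.2.2, max a.2.1 a.2.2)
    else (3, a.2.1, a.2.2)
  else if a.1 = 3 then (if used κ a.2.1 = true then (1, a.2.1, a.2.2) else (0, a.2.1, a.2.2))
  else if comp φ a.2.1 a.2.2 = true then
    (if used κ a.2.1 = true ∨ used κ a.2.2 = true then (3 - a.1, a.2.1, a.2.2)
      else (0, a.2.2, a.2.1))
  else if a.1 = 2 then (3, a.2.1, a.2.2)
  else (if used κ a.2.1 = true then (3, a.2.1, a.2.2) else (0, a.2.1, a.2.2))

variable {φ κ}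

/-- the selection of one slot for each clause -/
structure Sel (φ : F3) (κ : ℕ → ℕ) : Prop where
  pos : 0 < φ.length
  lt : ∀ j < φ.length, κ j < NN φ
  dv : ∀ j < φ.length, κ j / 3 = j
  nc : ∀ i < φ.length, ∀ j < φ.length, comp φ (κ i) (κ j) = false

theorem NN3 (h : Sel φ κ) : 3 ≤ NN φ := by
  have := h.pos
  unfold NN
  omega

theorem div_lt {σ : ℕ} (h : σ < NN φ) : σ / 3 < φ.length := by
  unfold NN at h
  omega

theorem used_κ (h : Sel φ κ) {j : ℕ} (hj : j < φ.length) : used κ (κ j) = true := by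
  unfold used
  rw [h.dv j hj]
  simp

theorem not_both (h : Sel φ κ) {σ τ : ℕ} (hσ : σ < NN φ) (hτ : τ < NN φ)
    (hc : comp φ σ τ = true) (h1 : used κ σ = true) (h2 : used κ τ = true) : False := by
  unfold used at h1 h2
  have h3 := h.nc (σ / 3) (div_lt hσ) (τ / 3) (div_lt hτ)
  rw [of_decide_eq_true h1, of_decide_eq_true h2, hc] at h3
  exact absurd h3 (by simp)

theorem nxt_mem (h : Sel φ κ) {σ τ : ℕ} (hσ : σ < NN φ) : nxt φ κ σ τ ∈ LL φ := by
  unfold nxt
  have h3 := NN3 h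
  split_ifs with h1
  · rw [mem_LL]
    exact ⟨by omega, hσ, h1, Or.inl rfl⟩
  · rw [mem_LL]
    exact ⟨by omega, h.lt _ (Nat.mod_lt _ h.pos), by omega, Or.inl rfl⟩

theorem prv_mem (h : Sel φ κ) {σ τ : ℕ} (hσ : σ < NN φ) (hτ : τ < NN φ) : prv φ κ σ τ ∈ LL φ := by
  unfold prv
  have h3 := NN3 h
  split_ifs with h1
  · rw [mem_LL]
    exact ⟨by omega, hσ, by omega, Or.inl rfl⟩
  · rw [mem_LL]
    exact ⟨by omega, h.lt _ (Nat.mod_lt _ h.pos), by omega, Or.inl rfl⟩

theorem mod_next {m j : ℕ} (hj : j < m) : ((j + 1) % m + m - 1) % m = j := by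
  rcases Nat.lt_or_ge (j + 1) m with h | h
  · rw [Nat.mod_eq_of_lt h, show j + 1 + m - 1 = j + m by omega, Nat.add_mod_right,
      Nat.mod_eq_of_lt hj]
  · rw [show j + 1 = m by omega, Nat.mod_self, zero_add, Nat.mod_eq_of_lt (by omega)]
    omega

theorem mod_prev {m j : ℕ} (hj : j < m) : ((j + m - 1) % m + 1) % m = j := by
  rcases Nat.eq_zero_or_pos j with h | h
  · subst h
    rw [zero_add, Nat.mod_eq_of_lt (show m - 1 < m by omega), show m - 1 + 1 = m by omega,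
      Nat.mod_self]
  · rw [show j + m - 1 = j - 1 + m by omega, Nat.add_mod_right,
      Nat.mod_eq_of_lt (show j - 1 < m by omega), show j - 1 + 1 = j by omega, Nat.mod_eq_of_lt hj]

theorem gg_nxt (h : Sel φ κ) {σ τ : ℕ} (hσ : σ < NN φ) (hτ : τ < NN φ) (hu : used κ σ = true) :
    gg φ κ (nxt φ κ σ τ) = (0, σ, τ) := by
  unfold nxt
  split_ifs with h1
  · simp [gg, hu, prv]
  · have h2 := used_κ h (Nat.mod_lt (σ / 3 + 1) h.pos)
    have h3 : τ = NN φ - 1 := by omega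
    simp only [gg, if_true, h2, prv, lt_irrefl, if_false]
    rw [h.dv _ (Nat.mod_lt _ h.pos), mod_next (div_lt hσ), h3]
    unfold used at hu
    rw [of_decide_eq_true hu]

theorem ff_prv (h : Sel φ κ) {σ τ : ℕ} (hσ : σ < NN φ) (hτ : τ < NN φ) (hu : used κ σ = true) :
    ff φ κ (prv φ κ σ τ) = (0, σ, τ) := by
  have hN := NN3 h
  unfold prv
  split_ifs with h1
  · simp only [ff, if_true, hu, nxt]
    rw [if_pos (by omega), show τ - 1 + 1 = τ by omega]
  · have h2 := used_κ h (Nat.mod_lt (σ / 3 + φ.length - 1) h.pos)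
    have h3 : τ = 0 := by omega
    simp only [ff, if_true, h2, nxt]
    rw [if_neg (by omega), h.dv _ (Nat.mod_lt _ h.pos), mod_prev (div_lt hσ), h3]
    unfold used at hu
    rw [of_decide_eq_true hu]

def Good (φ : F3) (κ : ℕ → ℕ) (a : Lab) : Prop :=
  (ff φ κ a ∈ LL φ ∧ gg φ κ a ∈ LL φ ∧ ff φ κ a ≠ gg φ κ a) ∧ (ff φ κ a ≠ a ∧ gg φ κ a ≠ a) ∧
  (ff φ κ (ff φ κ a) = a ∨ gg φ κ (ff φ κ a) = a) ∧
  (ff φ κ (gg φ κ a) = a ∨ gg φ κ (gg φ κ a) = a) ∧
  (arcB φ a (ff φ κ a) = true ∨ arcB φ (ff φ κ a) a = true) ∧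
  (arcB φ a (gg φ κ a) = true ∨ arcB φ (gg φ κ a) a = true)

theorem good_used (h : Sel φ κ) {σ τ : ℕ} (hσ : σ < NN φ) (hτ : τ < NN φ)
    (hu : used κ σ = true) : Good φ κ (0, σ, τ) := by
  have hN := NN3 h
  have e1 : ff φ κ (0, σ, τ) = nxt φ κ σ τ := by simp [ff, hu]
  have e2 : gg φ κ (0, σ, τ) = prv φ κ σ τ := by simp [gg, hu]
  have a1 := h.dv ((σ / 3 + 1) % φ.length) (Nat.mod_lt _ h.pos)
  have a2 := h.dv ((σ / 3 + φ.length - 1) % φ.length) (Nat.mod_lt _ h.pos)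
  unfold Good
  rw [e1, e2]
  refine ⟨⟨nxt_mem h hσ, prv_mem h hσ hτ, ?_⟩, ⟨?_, ?_⟩, Or.inr (gg_nxt h hσ hτ hu),
    Or.inl (ff_prv h hσ hτ hu), Or.inl ?_, Or.inr ?_⟩
  · unfold nxt prv
    split_ifs <;> simp only [ne_eq, Prod.mk.injEq] <;> omega
  · unfold nxt
    split_ifs <;> simp only [ne_eq, Prod.mk.injEq] <;> omega
  · unfold prv
    split_ifs <;> simp only [ne_eq, Prod.mk.injEq] <;> omega
  · unfold nxt
    split_ifs with h1
    · rw [arcB_iff]
      exact Or.inl ⟨rfl, rfl, Or.inl ⟨rfl, rfl⟩⟩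
    · rw [arcB_iff]
      exact Or.inl ⟨rfl, rfl, Or.inr ⟨by omega, rfl, a1⟩⟩
  · unfold prv
    split_ifs with h1
    · rw [arcB_iff]
      exact Or.inl ⟨rfl, rfl, Or.inl ⟨rfl, by omega⟩⟩
    · rw [arcB_iff]
      exact Or.inl ⟨rfl, rfl, Or.inr ⟨by omega, by omega, by rw [a2, mod_prev (div_lt hσ)]⟩⟩

theorem good_all (h : Sel φ κ) {a : Lab} (ha : a ∈ LL φ) : Good φ κ a := by
  obtain ⟨k, σ, τ⟩ := a
  have ha' := mem_LL.1 ha
  obtain ⟨hk, hσ, hτ, hc⟩ := ha'
  by_cases k0 : k = 0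
  · subst k0
    by_cases hu : used κ σ = true
    · exact good_used h hσ hτ hu
    · rw [Bool.not_eq_true] at hu
      by_cases hcm : comp φ σ τ = true
      · have hcm' : comp φ τ σ = true := by rw [comp_comm]; exact hcm
        rcases Nat.lt_or_ge σ τ with hlt | hge
        · have m1 : min σ τ = σ := min_eq_left hlt.le
          have m2 : max σ τ = τ := max_eq_right hlt.le
          unfold Good
          by_cases hut : used κ τ = true
          · simp [ff, gg, mem_LL, arcB_iff, hu, hut, hcm, hcm', m1, m2]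
            omega
          · rw [Bool.not_eq_true] at hut
            simp [ff, gg, mem_LL, arcB_iff, hu, hut, hcm, hcm', m1, m2]
            omega
        · have hne := comp_ne hcm
          have m1 : min σ τ = τ := min_eq_right hge
          have m2 : max σ τ = σ := max_eq_left hge
          unfold Good
          by_cases hut : used κ τ = true
          · simp [ff, gg, mem_LL, arcB_iff, hu, hut, hcm, hcm', m1, m2]
            omega
          · rw [Bool.not_eq_true] at hut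
            simp [ff, gg, mem_LL, arcB_iff, hu, hut, hcm, hcm', m1, m2]
            omega
      · rw [Bool.not_eq_true] at hcm
        unfold Good
        simp [ff, gg, mem_LL, arcB_iff, hu, hcm]
        omega
  · by_cases hcm : comp φ σ τ = true
    · have hcm' : comp φ τ σ = true := by rw [comp_comm]; exact hcm
      have hk3 : k < 3 ∧ σ < τ := by
        rcases hc with hc | hc | hc
        · exact absurd hc k0
        · rw [hcm] at hc
          exact absurd hc (by simp)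
        · exact hc
      obtain ⟨hk3, hlt⟩ := hk3
      have m1 : min σ τ = σ := min_eq_left hlt.le
      have m2 : max σ τ = τ := max_eq_right hlt.le
      have m3 : min τ σ = σ := min_eq_right hlt.le
      have m4 : max τ σ = τ := max_eq_left hlt.le
      have hk12 : k = 1 ∨ k = 2 := by omega
      unfold Good
      by_cases hu : used κ σ = true
      · by_cases hut : used κ τ = true
        · exact (not_both h hσ hτ hcm hu hut).elim
        · rw [Bool.not_eq_true] at hut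
          rcases hk12 with rfl | rfl
          · simp [ff, gg, mem_LL, arcB_iff, hu, hut, hcm, hcm', m1, m2, m3, m4]
            omega
          · simp [ff, gg, mem_LL, arcB_iff, hu, hut, hcm, hcm', m1, m2, m3, m4]
            omega
      · rw [Bool.not_eq_true] at hu
        by_cases hut : used κ τ = true
        · rcases hk12 with rfl | rfl
          · simp [ff, gg, mem_LL, arcB_iff, hu, hut, hcm, hcm', m1, m2, m3, m4]
            omega
          · simp [ff, gg, mem_LL, arcB_iff, hu, hut, hcm, hcm', m1, m2, m3, m4]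
            omega
        · rw [Bool.not_eq_true] at hut
          rcases hk12 with rfl | rfl
          · simp [ff, gg, mem_LL, arcB_iff, hu, hut, hcm, hcm', m1, m2, m3, m4]
            omega
          · simp [ff, gg, mem_LL, arcB_iff, hu, hut, hcm, hcm', m1, m2, m3, m4]
            omega
    · rw [Bool.not_eq_true] at hcm
      have hk123 : k = 1 ∨ k = 2 ∨ k = 3 := by omega
      unfold Good
      by_cases hu : used κ σ = true
      · rcases hk123 with rfl | rfl | rfl <;>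
        · simp [ff, gg, mem_LL, arcB_iff, hu, hcm]
          omega
      · rw [Bool.not_eq_true] at hu
        rcases hk123 with rfl | rfl | rfl <;>
        · simp [ff, gg, mem_LL, arcB_iff, hu, hcm]
          omega

end Fwd

end Pool.Agent.NPC.Q325TF
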