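import Pool.Agent.Q325.XorDefs

/-!
# Sequences with period `3 * 2 ^ b` and their images
-/

set_option autoImplicit false

namespace Pool.Agent.Q325.XorCA

/-- The sequence `x` with a zero inserted after each entry. -/
def dbl (x : X) : X := fun i => if i % 2 = 0 then x (i / 2) else false

/-- The sequence which is one at the multiples of `2 ^ b` that are not multiples of `3 * 2 ^ b`. -/
def xs : ℕ → X
  | 0 => fun i => decide (i % 3 ≠ 0)
  | b + 1 => dbl (xs b)

theorem F_shift (x : X) : F (shift x) = shift (F x) := rfl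

theorem Fit_shift (m : ℕ) (x : X) : F^[m] (shift x) = shift (F^[m] x) := by
  induction m generalizing x with
  | zero => rfl
  | succ m ih => rw [Function.iterate_succ_apply, Function.iterate_succ_apply, F_shift, ih]

theorem Fit_shiftit (m e : ℕ) (x : X) : F^[m] (shift^[e] x) = shift^[e] (F^[m] x) := by
  induction e with
  | zero => rfl
  | succ e ih => rw [Function.iterate_succ_apply', Fit_shift, ih, Function.iterate_succ_apply']

theorem shift_apply (e : ℕ) (x : X) (i : ℤ) : shift^[e] x i = x (i + e) := by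
  induction e generalizing i with
  | zero => simp
  | succ e ih =>
    rw [Function.iterate_succ_apply']
    show shift^[e] x (i + 1) = _
    rw [ih]
    congr 1
    push_cast
    ring

theorem dbl_pos {x : X} {i : ℤ} (h : i % 2 = 0) : dbl x i = x (i / 2) := if_pos h

theorem dbl_neg {x : X} {i : ℤ} (h : ¬ i % 2 = 0) : dbl x i = false := if_neg h

theorem FF_dbl (x : X) : F (F (dbl x)) = dbl (F x) := by
  funext i
  show xor (xor (dbl x i) (dbl x (i + 1))) (xor (dbl x (i + 1)) (dbl x (i + 1 + 1))) = _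
  by_cases h : i % 2 = 0
  · have h3 : (i + 1 + 1) / 2 = i / 2 + 1 := by omega
    rw [dbl_pos h, dbl_neg (by omega), dbl_pos (by omega), h3, dbl_pos h]
    show _ = xor (x (i / 2)) (x (i / 2 + 1))
    cases x (i / 2) <;> cases x (i / 2 + 1) <;> rfl
  · rw [dbl_neg h, dbl_pos (by omega), dbl_neg (by omega), dbl_neg h]
    cases x ((i + 1) / 2) <;> rfl

theorem Fit_dbl (m : ℕ) (x : X) : F^[2 * m] (dbl x) = dbl (F^[m] x) := by
  induction m generalizing x with
  | zero => rfl
  | succ m ih =>
    rw [show 2 * (m + 1) = 2 * m + 1 + 1 by ring, Function.iterate_succ_apply,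
      Function.iterate_succ_apply, FF_dbl, ih, ← Function.iterate_succ_apply]

theorem Fit_dbl' (m : ℕ) (x : X) : F^[2 * m + 1] (dbl x) = F (dbl (F^[m] x)) := by
  rw [Function.iterate_succ_apply', Fit_dbl]

theorem dbl_shift (x : X) : dbl (shift x) = shift (shift (dbl x)) := by
  funext i
  show dbl (shift x) i = dbl x (i + 1 + 1)
  by_cases h : i % 2 = 0
  · rw [dbl_pos h, dbl_pos (by omega), show (i + 1 + 1) / 2 = i / 2 + 1 by omega]
    rfl
  · rw [dbl_neg h, dbl_neg (by omega)]

theorem dbl_shiftit (e : ℕ) (x : X) : dbl (shift^[e] x) = shift^[2 * e] (dbl x) := by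
  induction e generalizing x with
  | zero => rfl
  | succ e ih =>
    rw [Function.iterate_succ_apply, ih, dbl_shift, show 2 * (e + 1) = 2 * e + 1 + 1 by ring,
      Function.iterate_succ_apply, Function.iterate_succ_apply]

theorem F_xs_zero : F (xs 0) = shift^[2] (xs 0) := by
  funext i
  show xor (decide (i % 3 ≠ 0)) (decide ((i + 1) % 3 ≠ 0)) = decide ((i + 1 + 1) % 3 ≠ 0)
  have h : i % 3 = 0 ∨ i % 3 = 1 ∨ i % 3 = 2 := by omega
  rcases h with h | h | h
  · have h1 : (i + 1) % 3 = 1 := by omega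
    have h2 : (i + 1 + 1) % 3 = 2 := by omega
    simp [h, h1, h2]
  · have h1 : (i + 1) % 3 = 2 := by omega
    have h2 : (i + 1 + 1) % 3 = 0 := by omega
    simp [h, h1, h2]
  · have h1 : (i + 1) % 3 = 0 := by omega
    have h2 : (i + 1 + 1) % 3 = 1 := by omega
    simp [h, h1, h2]

theorem Fit_xs_zero (q : ℕ) : F^[q] (xs 0) = shift^[2 * q] (xs 0) := by
  induction q with
  | zero => rfl
  | succ q ih =>
    rw [Function.iterate_succ_apply', ih, show F (shift^[2 * q] (xs 0)) = F^[1] (shift^[2 * q] (xs 0))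
      from rfl, Fit_shiftit]
    show shift^[2 * q] (F (xs 0)) = _
    rw [F_xs_zero, ← Function.iterate_add_apply]
    rfl

theorem Fit_xs (b q : ℕ) : F^[2 ^ b * q] (xs b) = shift^[2 * 2 ^ b * q] (xs b) := by
  induction b with
  | zero => simpa using Fit_xs_zero q
  | succ b ih =>
    show F^[2 ^ (b + 1) * q] (dbl (xs b)) = shift^[2 * 2 ^ (b + 1) * q] (dbl (xs b))
    rw [show 2 ^ (b + 1) * q = 2 * (2 ^ b * q) by ring, Fit_dbl, ih, dbl_shiftit]
    congr 1
    ring

/-- Periodic sequences. -/
def Per (N : ℕ) (x : X) : Prop := ∀ i : ℤ, x (i + N) = x i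

theorem per_F {N : ℕ} {x : X} (h : Per N x) : Per N (F x) := by
  intro i
  show xor (x (i + N)) (x (i + N + 1)) = xor (x i) (x (i + 1))
  rw [h i, show i + N + 1 = i + 1 + N by ring, h (i + 1)]

theorem per_Fit {N : ℕ} {x : X} (h : Per N x) (m : ℕ) : Per N (F^[m] x) := by
  induction m with
  | zero => exact h
  | succ m ih => rw [Function.iterate_succ_apply']; exact per_F ih

theorem per_shift {N : ℕ} {x : X} (h : Per N x) : Per N (shift x) := by
  intro i
  show x (i + N + 1) = x (i + 1)
  rw [show i + N + 1 = i + 1 + N by ring, h (i + 1)]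

theorem per_dbl {N : ℕ} {x : X} (h : Per N x) : Per (2 * N) (dbl x) := by
  intro i
  unfold dbl
  push_cast
  by_cases h' : i % 2 = 0
  · have h2 : (i + 2 * (N : ℤ)) % 2 = 0 := by omega
    have h3 : (i + 2 * (N : ℤ)) / 2 = i / 2 + N := by omega
    rw [if_pos h', if_pos h2, h3, h]
  · have h2 : ¬ (i + 2 * (N : ℤ)) % 2 = 0 := by omega
    rw [if_neg h', if_neg h2]

theorem per_xs (b : ℕ) : Per (3 * 2 ^ b) (xs b) := by
  induction b with
  | zero =>
    intro i
    show decide ((i + ((3 * 2 ^ 0 : ℕ) : ℤ)) % 3 ≠ 0) = decide (i % 3 ≠ 0)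
    have h : (i + ((3 * 2 ^ 0 : ℕ) : ℤ)) % 3 = i % 3 := by
      push_cast
      omega
    rw [h]
  | succ b ih =>
    have := per_dbl ih
    rw [show 2 * (3 * 2 ^ b) = 3 * 2 ^ (b + 1) by ring] at this
    exact this

/-! ### The special words -/

/-- The special word occurs at position `i` of `y`. -/
def Occ (b : ℕ) (y : X) (i : ℤ) : Prop := ∀ j : ℕ, j ≤ 4 * 2 ^ b →
  y (i + j) = decide (j = 0 ∨ j = 2 ^ b ∨ j = 3 * 2 ^ b ∨ j = 4 * 2 ^ b)

theorem occ_zero {y : X} {i : ℤ} (h : Occ 0 y i) :
    y i = true ∧ y (i + 1) = true ∧ y (i + 2) = false ∧ y (i + 3) = true ∧ y (i + 4) = true := by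
  have h0 := h 0 (by norm_num)
  have h1 := h 1 (by norm_num)
  have h2 := h 2 (by norm_num)
  have h3 := h 3 (by norm_num)
  have h4 := h 4 (by norm_num)
  simp at h0 h1 h2 h3 h4
  exact ⟨h0, h1, h2, h3, h4⟩

/-- In the image of a doubled sequence the entries come in equal pairs. -/
theorem F_dbl_pair (y : X) (i : ℤ) (h : i % 2 ≠ 0) : F (dbl y) i = F (dbl y) (i + 1) := by
  unfold F dbl
  have h1 : (i + 1) % 2 = 0 := by omega
  have h2 : ¬ (i + 1 + 1) % 2 = 0 := by omega
  rw [if_neg h, if_pos h1, if_neg h2]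
  cases y ((i + 1) / 2) <;> rfl

theorem row_cases (m b : ℕ) : ∃ y : X, (F^[m] (xs (b + 1)) = dbl y ∨
    F^[m] (xs (b + 1)) = F (dbl y)) ∧ ∃ m', y = F^[m'] (xs b) := by
  rcases Nat.even_or_odd' m with ⟨k, rfl | rfl⟩
  · exact ⟨F^[k] (xs b), Or.inl (Fit_dbl k _), k, rfl⟩
  · exact ⟨F^[k] (xs b), Or.inr (Fit_dbl' k _), k, rfl⟩

theorem not_occ_zero (m b : ℕ) (i : ℤ) : ¬ Occ 0 (F^[m] (xs (b + 1))) i := by
  intro h
  obtain ⟨y, hy, -⟩ := row_cases m b
  obtain ⟨h0, h1, h2, h3, h4⟩ := occ_zero h
  rcases hy with hy | hy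
  · rw [hy] at h0 h1
    unfold dbl at h0 h1
    by_cases hi : i % 2 = 0
    · rw [if_neg (by omega)] at h1
      exact absurd h1 (by simp)
    · rw [if_neg hi] at h0
      exact absurd h0 (by simp)
  · rw [hy] at h0 h1 h2 h3 h4
    by_cases hi : i % 2 = 0
    · have := F_dbl_pair y (i + 1) (by omega)
      rw [h1, show i + 1 + 1 = i + 2 by ring, h2] at this
      exact absurd this (by simp)
    · have := F_dbl_pair y (i + 2) (by omega)
      rw [h2, show i + 2 + 1 = i + 3 by ring, h3] at this
      exact absurd this (by simp)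

theorem row_zero (m : ℕ) (i : ℤ) : F^[m] (xs 0) i = true ∨ F^[m] (xs 0) (i + 1) = true := by
  rw [Fit_xs_zero, shift_apply, shift_apply]
  unfold xs
  simp only [decide_eq_true_eq]
  omega

theorem not_occ_row_zero (m b : ℕ) (i : ℤ) : ¬ Occ (b + 1) (F^[m] (xs 0)) i := by
  intro h
  have hb : 1 ≤ 2 ^ b := Nat.one_le_two_pow
  have e : 2 ^ (b + 1) = 2 * 2 ^ b := by ring
  have h1 := h (2 ^ (b + 1) + 1) (by omega)
  have h2 := h (2 ^ (b + 1) + 2) (by omega)
  rw [decide_eq_false (by omega)] at h1 h2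
  rcases row_zero m (i + ((2 ^ (b + 1) + 1 : ℕ) : ℤ)) with h3 | h3
  · rw [h1] at h3
    exact absurd h3 (by simp)
  · rw [show i + ((2 ^ (b + 1) + 1 : ℕ) : ℤ) + 1 = i + ((2 ^ (b + 1) + 2 : ℕ) : ℤ) by
      push_cast; ring, h2] at h3
    exact absurd h3 (by simp)

/-- The special word of index `b` does not occur in the images of the other sequences. -/
theorem not_occ : ∀ (b c : ℕ), b ≠ c → ∀ (m : ℕ) (i : ℤ), ¬ Occ b (F^[m] (xs c)) i := by
  intro b
  induction b with
  | zero =>
    intro c hc m i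
    obtain ⟨c', rfl⟩ : ∃ c', c = c' + 1 := ⟨c - 1, by omega⟩
    exact not_occ_zero m c' i
  | succ b ih =>
    intro c hc m i h
    cases c with
    | zero => exact not_occ_row_zero m b i h
    | succ c =>
      have hb : 1 ≤ 2 ^ b := Nat.one_le_two_pow
      have e : 2 ^ (b + 1) = 2 * 2 ^ b := by ring
      obtain ⟨y, hy, m', rfl⟩ := row_cases m c
      have h0 := h 0 (by omega)
      rw [decide_eq_true (Or.inl rfl)] at h0
      simp only [Nat.cast_zero, add_zero] at h0
      rcases hy with hy | hy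
      · rw [hy] at h h0
        have hi : i % 2 = 0 := by
          by_contra hi
          unfold dbl at h0
          rw [if_neg hi] at h0
          exact absurd h0 (by simp)
        refine ih c (by omega) m' (i / 2) fun j hj => ?_
        have h1 := h (2 * j) (by omega)
        unfold dbl at h1
        rw [if_pos (by push_cast; omega), show (i + ((2 * j : ℕ) : ℤ)) / 2 = i / 2 + j by
          push_cast; omega] at h1
        rw [h1]
        congr 1
        apply propext
        constructor <;> intro h <;> omega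
      · rw [hy] at h h0
        have h1 := h 1 (by omega)
        rw [decide_eq_false (by omega)] at h1
        have hi : i % 2 = 0 := by
          by_contra hi
          have := F_dbl_pair (F^[m'] (xs c)) i hi
          rw [h0, show i + 1 = i + ((1 : ℕ) : ℤ) by simp, h1] at this
          exact absurd this (by simp)
        have h2 := h (2 ^ (b + 1)) (by omega)
        have h3 := h (2 ^ (b + 1) - 1) (by omega)
        rw [decide_eq_true (by omega)] at h2
        rw [decide_eq_false (by omega)] at h3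
        have := F_dbl_pair (F^[m'] (xs c)) (i + ((2 ^ (b + 1) - 1 : ℕ) : ℤ)) (by omega)
        rw [h3, show i + ((2 ^ (b + 1) - 1 : ℕ) : ℤ) + 1 = i + ((2 ^ (b + 1) : ℕ) : ℤ) by
          push_cast [Nat.cast_sub (show 1 ≤ 2 ^ (b + 1) by omega)]; ring, h2] at this
        exact absurd this (by simp)

/-- The special word occurs in the sequence itself, also after `2 ^ b * q` steps. -/
theorem occ_self (b q : ℕ) : ∃ i : ℤ, Occ b (F^[2 ^ b * q] (xs b)) i := by
  have key : ∀ b : ℕ, ∃ i : ℤ, 0 ≤ i ∧ Occ b (xs b) i := by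
    intro b
    induction b with
    | zero =>
      refine ⟨1, by norm_num, fun j hj => ?_⟩
      have : j = 0 ∨ j = 1 ∨ j = 2 ∨ j = 3 ∨ j = 4 := by omega
      rcases this with rfl | rfl | rfl | rfl | rfl <;> rfl
    | succ b ih =>
      obtain ⟨i, hi, h⟩ := ih
      refine ⟨2 * i, by omega, fun j hj => ?_⟩
      have e : 2 ^ (b + 1) = 2 * 2 ^ b := by ring
      show dbl (xs b) (2 * i + j) = _
      unfold dbl
      by_cases hj2 : j % 2 = 0
      · rw [if_pos (by omega), show (2 * i + (j : ℤ)) / 2 = i + ((j / 2 : ℕ) : ℤ) by omega,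
          h (j / 2) (by omega)]
        congr 1
        apply propext
        constructor <;> intro h <;> omega
      · rw [if_neg (by omega), decide_eq_false (by omega)]
  obtain ⟨i, -, h⟩ := key b
  refine ⟨i - ((2 * 2 ^ b * q : ℕ) : ℤ), fun j hj => ?_⟩
  rw [Fit_xs, shift_apply, ← h j hj]
  congr 1
  ring

/-! ### The number of ones in a period -/

/-- The number of ones in a window of length `N`. -/
def ones (N : ℕ) (x : X) : ℕ := ((Finset.range N).filter fun i : ℕ => x (i : ℤ) = true).card

theorem ones_eq (N : ℕ) (x : X) : ones N x = ∑ i ∈ Finset.range N, (x ((i : ℕ) : ℤ)).toNat := by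
  unfold ones
  rw [Finset.card_filter]
  refine Finset.sum_congr rfl fun i _ => ?_
  cases x (i : ℤ) <;> rfl

theorem ones_dbl (N : ℕ) (x : X) : ones (2 * N) (dbl x) = ones N x := by
  rw [ones_eq, ones_eq]
  induction N with
  | zero => rfl
  | succ N ih =>
    rw [show 2 * (N + 1) = 2 * N + 1 + 1 by ring, Finset.sum_range_succ, Finset.sum_range_succ, ih,
      Finset.sum_range_succ]
    have h1 : dbl x ((2 * N : ℕ) : ℤ) = x N := by
      unfold dbl
      rw [if_pos (by push_cast; omega), show (((2 * N : ℕ) : ℤ)) / 2 = N by push_cast; omega]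
    have h2 : dbl x ((2 * N + 1 : ℕ) : ℤ) = false := by
      unfold dbl
      rw [if_neg (by push_cast; omega)]
    rw [h1, h2]
    simp

theorem sum_shift {N : ℕ} {x : X} (h : Per N x) :
    ∑ i ∈ Finset.range N, (x ((i : ℤ) + 1)).toNat = ∑ i ∈ Finset.range N, (x (i : ℤ)).toNat := by
  have h1 := Finset.sum_range_succ (fun i : ℕ => (x (i : ℤ)).toNat) N
  have h2 := Finset.sum_range_succ' (fun i : ℕ => (x (i : ℤ)).toNat) N
  have h3 : x ((N : ℕ) : ℤ) = x ((0 : ℕ) : ℤ) := by
    have := h 0
    simpa using this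
  rw [h3] at h1
  push_cast at h1 h2 ⊢
  omega

theorem ones_F_dbl {N : ℕ} {x : X} (h : Per N x) : ones (2 * N) (F (dbl x)) = 2 * ones N x := by
  have key : ∀ M : ℕ, ∑ i ∈ Finset.range (2 * M), (F (dbl x) (i : ℤ)).toNat =
      ∑ i ∈ Finset.range M, (x (i : ℤ)).toNat + ∑ i ∈ Finset.range M, (x ((i : ℤ) + 1)).toNat := by
    intro M
    induction M with
    | zero => rfl
    | succ M ih =>
      rw [show 2 * (M + 1) = 2 * M + 1 + 1 by ring, Finset.sum_range_succ, Finset.sum_range_succ, ih,
        Finset.sum_range_succ, Finset.sum_range_succ]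
      have h1 : F (dbl x) ((2 * M : ℕ) : ℤ) = x M := by
        unfold F dbl
        rw [if_pos (by push_cast; omega), show (((2 * M : ℕ) : ℤ)) / 2 = M by push_cast; omega,
          if_neg (by push_cast; omega)]
        cases x M <;> rfl
      have h2 : F (dbl x) ((2 * M + 1 : ℕ) : ℤ) = x ((M : ℤ) + 1) := by
        unfold F dbl
        rw [if_neg (by push_cast; omega), if_pos (by push_cast; omega),
          show ((((2 * M + 1 : ℕ) : ℤ)) + 1) / 2 = (M : ℤ) + 1 by push_cast; omega]
        cases x ((M : ℤ) + 1) <;> rfl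
      rw [h1, h2]
      ring
  rw [ones_eq, ones_eq, key, sum_shift h]
  ring

/-- The number with the first `b` binary digits `z 0, z 1, ...`. -/
def num (z : ℕ → Bool) : ℕ → ℕ
  | 0 => 0
  | b + 1 => num z b + (z b).toNat * 2 ^ b

theorem num_succ (z : ℕ → Bool) (b : ℕ) :
    num z (b + 1) = (z 0).toNat + 2 * num (fun i => z (i + 1)) b := by
  induction b with
  | zero => simp [num]
  | succ b ih =>
    rw [num, ih, num]
    ring

theorem num_lt (z : ℕ → Bool) (b : ℕ) : num z b < 2 ^ b := by
  induction b with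
  | zero => simp [num]
  | succ b ih =>
    rw [num, pow_succ]
    cases z b <;> simp <;> omega

theorem num_add (z : ℕ → Bool) (b k : ℕ) : ∃ q, num z (b + k) = num z b + 2 ^ b * q := by
  induction k with
  | zero => exact ⟨0, by simp⟩
  | succ k ih =>
    obtain ⟨q, hq⟩ := ih
    refine ⟨q + (z (b + k)).toNat * 2 ^ k, ?_⟩
    rw [← add_assoc, num, hq, pow_add]
    ring

theorem ones_row (b : ℕ) : ∀ z : ℕ → Bool, ones (3 * 2 ^ b) (F^[num z b] (xs b)) =
    2 * ∏ i ∈ Finset.range b, 2 ^ (z i).toNat := by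
  induction b with
  | zero =>
    intro z
    show ones (3 * 2 ^ 0) (xs 0) = _
    rw [ones_eq]
    simp [Finset.sum_range_succ, xs]
  | succ b ih =>
    intro z
    have e : 3 * 2 ^ (b + 1) = 2 * (3 * 2 ^ b) := by ring
    rw [num_succ, e, Finset.prod_range_succ']
    have h := ih fun i => z (i + 1)
    cases hz : z 0 with
    | false =>
      show ones _ (F^[(false).toNat + 2 * _] (dbl (xs b))) = _
      rw [show (false).toNat + 2 * num (fun i => z (i + 1)) b = 2 * num (fun i => z (i + 1)) b by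
        simp, Fit_dbl, ones_dbl, h]
      simp
    | true =>
      show ones _ (F^[(true).toNat + 2 * _] (dbl (xs b))) = _
      rw [show (true).toNat + 2 * num (fun i => z (i + 1)) b = 2 * num (fun i => z (i + 1)) b + 1 by
        simp [add_comm], Fit_dbl', ones_F_dbl (per_Fit (per_xs b) _), h]
      simp
      ring

end Pool.Agent.Q325.XorCA
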