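import Mathlib

/-!
# The two-neighbour exclusive-or automaton, computable measures and limit points
-/

set_option autoImplicit false

open MeasureTheory Filter Topology

namespace Pool.Agent.Q325.XorCA

/-- Bi-infinite binary sequences, with the product topology. -/
abbrev X : Type := ℤ → Bool

/-- The shift. -/
def shift (x : X) : X := fun i => x (i + 1)

/-- The automaton: each cell becomes the sum modulo two of itself and its right neighbour. -/
def F (x : X) : X := fun i => xor (x i) (x (i + 1))

/-- The cylinder set of a word: the sequences with this word at the positions `0, 1, ...`. -/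
def cyl (w : List Bool) : Set X := {x | ∀ (i : ℕ) (h : i < w.length), x i = w[i]}

/-- Shift-invariant measures. -/
def ShiftInvariant (μ : Measure X) : Prop := μ.map shift = μ

/-- Computable measures: there are computable functions which for a word `w` and a number `k`
produce the numerator and the denominator of a rational number within `2 ^ (-k)` of the measure of
the cylinder of `w`. -/
def ComputableMeasure (ν : Measure X) : Prop :=
  ∃ a b : List Bool → ℕ → ℕ, Computable₂ a ∧ Computable₂ b ∧ ∀ w k, 0 < b w k ∧
    |(a w k : ℝ) / (b w k : ℝ) - ν.real (cyl w)| ≤ (1 / 2) ^ k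

/-- `ν` is a weak-* limit point of the images of `μ` under the iterates of the automaton. -/
def LimitPoint (μ ν : Measure X) : Prop :=
  IsProbabilityMeasure ν ∧ ∃ n : ℕ → ℕ, StrictMono n ∧ ∀ w,
    Tendsto (fun k => (μ.map (F^[n k])).real (cyl w)) atTop (𝓝 (ν.real (cyl w)))

/-- The `μ`-limit set, as a language. -/
def limitLang (μ : Measure X) : Set (List Bool) :=
  {w | ¬ Tendsto (fun n => (μ.map (F^[n])).real (cyl w)) atTop (𝓝 0)}

end Pool.Agent.Q325.XorCA
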