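import Pool.Agent.Q325.XorMeas

/-!
# Uncountably many limit points
-/

set_option autoImplicit false

open MeasureTheory Filter Topology

namespace Pool.Agent.Q325.XorCA

/-! ### There are only countably many computable functions -/

theorem countable_computable {α σ : Type} [Primcodable α] [Primcodable σ] :
    {f : α → σ | Computable f}.Countable := by
  classical
  rw [Set.countable_iff_exists_injOn]
  refine ⟨fun f => if h : Computable f then
    Encodable.encode (Classical.choose (Nat.Partrec.Code.exists_code.1 h)) else 0, ?_⟩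
  intro f hf g hg hfg
  have hf' : Computable f := hf
  have hg' : Computable g := hg
  simp only [dif_pos hf', dif_pos hg'] at hfg
  have h := Encodable.encode_injective hfg
  have h1 := Classical.choose_spec (Nat.Partrec.Code.exists_code.1 hf')
  have h2 := Classical.choose_spec (Nat.Partrec.Code.exists_code.1 hg')
  rw [h] at h1
  have h3 := h1.symm.trans h2
  funext a
  have h4 := congrFun h3 (Encodable.encode a)
  simp only [Encodable.encodek, Part.coe_some, Part.bind_some, PFun.coe_val, Part.map_some] at h4
  exact Encodable.encode_injective (Part.some_injective h4)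

theorem uncountable_seq : ¬ Countable (ℕ → Bool) := by
  intro h
  obtain ⟨e, he⟩ := exists_surjective_nat (ℕ → Bool)
  obtain ⟨n, hn⟩ := he fun k => !(e k k)
  have := congrFun hn n
  cases h' : e n n <;> rw [h'] at this <;> exact absurd this (by simp)

theorem exists_not_computable {ν : (ℕ → Bool) → Measure X}
    (h : ∀ z z', (ν z).real (cyl [true]) = (ν z').real (cyl [true]) → z = z') :
    ∃ z, ¬ ComputableMeasure (ν z) := by
  by_contra hc
  push Not at hc
  choose a b ha hb hab using hc
  apply uncountable_seq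
  have h1 : {f : List Bool × ℕ → ℕ | Computable f}.Countable := countable_computable
  have h2 : Countable ({f : List Bool × ℕ → ℕ | Computable f} : Set _) := h1.to_subtype
  let Φ : (ℕ → Bool) → {f : List Bool × ℕ → ℕ | Computable f} ×
      {f : List Bool × ℕ → ℕ | Computable f} :=
    fun z => (⟨fun p => a z p.1 p.2, ha z⟩, ⟨fun p => b z p.1 p.2, hb z⟩)
  refine Function.Injective.countable (f := Φ) fun z z' hz => h z z' ?_
  have e1 : ∀ k, a z [true] k = a z' [true] k := fun k =>
    congrFun (congrArg Subtype.val (congrArg Prod.fst hz)) ([true], k)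
  have e2 : ∀ k, b z [true] k = b z' [true] k := fun k =>
    congrFun (congrArg Subtype.val (congrArg Prod.snd hz)) ([true], k)
  have e3 : ∀ k, |(ν z).real (cyl [true]) - (ν z').real (cyl [true])| ≤ 2 * (1 / 2) ^ k := by
    intro k
    have h1 := (hab z [true] k).2
    have h2 := (hab z' [true] k).2
    rw [← e1, ← e2] at h2
    rw [abs_le] at h1 h2 ⊢
    constructor <;> linarith
  by_contra hne
  have hpos : 0 < |(ν z).real (cyl [true]) - (ν z').real (cyl [true])| :=
    abs_pos.2 (sub_ne_zero.2 hne)
  obtain ⟨k, hk⟩ := exists_pow_lt_of_lt_one (half_pos hpos) (show (1 / 2 : ℝ) < 1 by norm_num)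
  have := e3 k
  linarith

/-! ### The limit points -/

/-- The periods. -/
def P1 (n : ℕ) : ℕ := 3 * 2 ^ n

theorem P1_ne (n : ℕ) : P1 n ≠ 0 := by
  unfold P1
  positivity

/-- The measure. -/
noncomputable def mu1 : Measure X := mix P1 xs

/-- The limit measures. -/
noncomputable def nu (z : ℕ → Bool) : Measure X := mix P1 fun b => F^[num z b] (xs b)

theorem limitPoint_nu (z : ℕ → Bool) : LimitPoint mu1 (nu z) := by
  refine ⟨mix_prob P1_ne _, fun k => num z k + 2 ^ k, ?_, fun w => ?_⟩
  · refine strictMono_nat_of_lt_succ fun k => ?_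
    have h1 := num_lt z k
    have h2 : 2 ^ (k + 1) = 2 ^ k + 2 ^ k := by ring
    omega
  · have hw := measurableSet_cyl w
    unfold mu1 nu
    simp_rw [mix_map_real P1_ne _ hw]
    rw [mix_real P1_ne hw]
    refine tendsto_tsum_of_dominated_convergence (bound := wt) hasSum_wt.summable (fun b => ?_)
      (Eventually.of_forall fun k b => ?_)
    · refine tendsto_const_nhds.congr' ?_
      filter_upwards [eventually_ge_atTop b] with k hk
      obtain ⟨j, rfl⟩ : ∃ j, k = b + j := ⟨k - b, by omega⟩
      obtain ⟨q, hq⟩ := num_add z b j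
      rw [hq, show num z b + 2 ^ b * q + 2 ^ (b + j) = num z b + 2 ^ b * (q + 2 ^ j) by
        rw [pow_add]; ring]
      unfold P1
      rw [cnt_row]
    · rw [Real.norm_eq_abs, abs_of_nonneg (term_le (P1_ne b) b _ _).1]
      exact (term_le (P1_ne b) b _ _).2

theorem cnt_true (N : ℕ) (y : X) : cnt N y (cyl [true]) = ones N y := by
  classical
  unfold cnt ones
  congr 1
  refine Finset.filter_congr fun i _ => ?_
  unfold cyl
  simp only [Set.mem_setOf_eq, List.length_singleton, Nat.lt_one_iff]
  constructor
  · intro h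
    have := h 0 rfl
    rw [shift_apply] at this
    simpa using this
  · intro h j hj
    subst hj
    rw [shift_apply]
    simpa using h

/-- The product of the factors one and one half. -/
noncomputable def rr (z : ℕ → Bool) (b : ℕ) : ℝ := ∏ i ∈ Finset.range b, ((2 : ℝ) ^ (z i).toNat / 2)

theorem rr_pos (z : ℕ → Bool) (b : ℕ) : 0 < rr z b := by
  unfold rr
  exact Finset.prod_pos fun i _ => by positivity

theorem rr_anti (z : ℕ → Bool) (b k : ℕ) : rr z (b + k) ≤ rr z b := by
  induction k with
  | zero => exact le_rfl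
  | succ k ih =>
    have : rr z (b + (k + 1)) = rr z (b + k) * ((2 : ℝ) ^ (z (b + k)).toNat / 2) := by
      unfold rr
      rw [← add_assoc, Finset.prod_range_succ]
    rw [this]
    have h1 : ((2 : ℝ) ^ (z (b + k)).toNat / 2) ≤ 1 := by
      cases z (b + k) <;> norm_num
    calc rr z (b + k) * ((2 : ℝ) ^ (z (b + k)).toNat / 2) ≤ rr z (b + k) * 1 :=
          mul_le_mul_of_nonneg_left h1 (rr_pos z _).le
      _ ≤ rr z b := by rw [mul_one]; exact ih

theorem nu_true (z : ℕ → Bool) :
    (nu z).real (cyl [true]) = ∑' b, wt b * (2 / 3 * rr z b) := by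
  unfold nu
  rw [mix_real P1_ne (measurableSet_cyl _)]
  refine tsum_congr fun b => ?_
  rw [cnt_true]
  unfold P1
  rw [ones_row]
  congr 1
  unfold rr
  push_cast
  rw [Finset.prod_div_distrib, Finset.prod_const, Finset.card_range]
  field_simp

theorem nu_lt {z z' : ℕ → Bool} {j : ℕ} (hj : z j = true) (hj' : z' j = false)
    (h : ∀ i < j, z i = z' i) : (nu z').real (cyl [true]) < (nu z).real (cyl [true]) := by
  rw [nu_true, nu_true, ← sub_pos]
  have hs : ∀ z : ℕ → Bool, Summable fun b => wt b * (2 / 3 * rr z b) := by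
    intro z
    refine Summable.of_nonneg_of_le (fun b => ?_) (fun b => ?_) hasSum_wt.summable
    · exact mul_nonneg (wt_nonneg b) (mul_nonneg (by norm_num) (rr_pos z b).le)
    · have h1 : rr z b ≤ 1 := by
        have := rr_anti z 0 b
        simpa [rr] using this
      have h2 : 2 / 3 * rr z b ≤ 1 := by
        have := rr_pos z b
        linarith
      calc wt b * (2 / 3 * rr z b) ≤ wt b * 1 := mul_le_mul_of_nonneg_left h2 (wt_nonneg b)
        _ = wt b := mul_one _
  rw [← (hs z).tsum_sub (hs z')]
  have hsub := (hs z).sub (hs z')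
  rw [← hsub.sum_add_tsum_nat_add (j + 2)]
  have e0 : ∀ b ≤ j, rr z b = rr z' b := by
    intro b hb
    unfold rr
    refine Finset.prod_congr rfl fun i hi => ?_
    rw [h i (by have := Finset.mem_range.1 hi; omega)]
  have e1 : rr z (j + 1) = rr z j := by
    unfold rr
    rw [Finset.prod_range_succ, hj]
    simp
  have e2 : rr z' (j + 1) = rr z j / 2 := by
    rw [e0 j le_rfl]
    unfold rr
    rw [Finset.prod_range_succ, hj']
    simp
    ring
  have e3 : ∑ i ∈ Finset.range (j + 2), (wt i * (2 / 3 * rr z i) - wt i * (2 / 3 * rr z' i)) =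
      wt (j + 1) * (rr z j / 3) := by
    rw [Finset.sum_range_succ, Finset.sum_eq_zero, e1, e2]
    · ring
    · intro i hi
      rw [e0 i (by have := Finset.mem_range.1 hi; omega), sub_self]
  rw [e3]
  have e4 : -((1 / 3 : ℝ) ^ (j + 2) * (rr z j / 3)) ≤
      ∑' i, (wt (i + (j + 2)) * (2 / 3 * rr z (i + (j + 2))) -
        wt (i + (j + 2)) * (2 / 3 * rr z' (i + (j + 2)))) := by
    have h1 : ∑' i, -(wt (i + (j + 2)) * (rr z j / 3)) = -((1 / 3 : ℝ) ^ (j + 2) * (rr z j / 3)) := by
      rw [tsum_neg, tsum_mul_right, sum_wt_tail]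
    rw [← h1]
    refine Summable.tsum_le_tsum (fun i => ?_) ?_ ?_
    · have h2 : rr z' (i + (j + 2)) ≤ rr z j / 2 := by
        have := rr_anti z' (j + 1) (i + 1)
        rw [e2] at this
        rwa [show j + 1 + (i + 1) = i + (j + 2) by ring] at this
      have h3 := rr_pos z (i + (j + 2))
      have h4 := wt_nonneg (i + (j + 2))
      have h5 : 0 ≤ wt (i + (j + 2)) * (2 / 3 * (rr z (i + (j + 2)) - rr z' (i + (j + 2)) +
          rr z j / 2)) := by
        refine mul_nonneg h4 (mul_nonneg (by norm_num) ?_)
        linarith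
      nlinarith [h5]
    · exact (((summable_nat_add_iff (j + 2)).2 hasSum_wt.summable).mul_right _).neg
    · exact (summable_nat_add_iff (j + 2)).2 hsub
  have e5 : wt (j + 1) = 2 * (1 / 3 : ℝ) ^ (j + 2) := by
    unfold wt
    rw [one_div, inv_pow]
    rfl
  rw [e5]
  have e6 : 0 < (1 / 3 : ℝ) ^ (j + 2) * (rr z j / 3) := by
    have := rr_pos z j
    positivity
  linarith

theorem nu_inj (z z' : ℕ → Bool) (h : (nu z).real (cyl [true]) = (nu z').real (cyl [true])) :
    z = z' := by
  by_contra hne
  have hex : ∃ j, z j ≠ z' j := by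
    by_contra hc
    push Not at hc
    exact hne (funext hc)
  classical
  have h1 := Nat.find_spec hex
  have h2 : ∀ i < Nat.find hex, z i = z' i := fun i hi => by
    have := Nat.find_min hex hi
    push Not at this
    exact this
  cases h3 : z (Nat.find hex) with
  | true =>
    have h4 : z' (Nat.find hex) = false := by
      cases h5 : z' (Nat.find hex)
      · rfl
      · exact absurd (h3.trans h5.symm) h1
    exact absurd h (nu_lt h3 h4 h2).ne'
  | false =>
    have h4 : z' (Nat.find hex) = true := by
      cases h5 : z' (Nat.find hex)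
      · exact absurd (h3.trans h5.symm) h1
      · rfl
    exact absurd h (nu_lt h4 h3 fun i hi => (h2 i hi).symm).ne

theorem exists_limitPoint : ∃ ν, LimitPoint mu1 ν ∧ ¬ ComputableMeasure ν := by
  obtain ⟨z, hz⟩ := exists_not_computable nu_inj
  exact ⟨nu z, limitPoint_nu z, hz⟩

end Pool.Agent.Q325.XorCA
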