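import Pool.Agent.Q325.XorComb

/-!
# Mixtures of the uniform measures on the translates of periodic sequences
-/

set_option autoImplicit false

open MeasureTheory Filter Topology

namespace Pool.Agent.Q325.XorCA

theorem measurable_shift : Measurable shift :=
  measurable_pi_iff.2 fun i => measurable_pi_apply (i + 1)

theorem measurable_F : Measurable F := by
  refine measurable_pi_iff.2 fun i => ?_
  have h1 : Measurable fun x : X => x i := measurable_pi_apply i
  have h2 : Measurable fun x : X => x (i + 1) := measurable_pi_apply (i + 1)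
  exact (measurable_of_countable (fun p : Bool × Bool => xor p.1 p.2)).comp (h1.prodMk h2)

theorem measurable_Fit (m : ℕ) : Measurable (F^[m]) := measurable_F.iterate m

theorem measurableSet_cyl (w : List Bool) : MeasurableSet (cyl w) := by
  unfold cyl
  have : {x : X | ∀ (i : ℕ) (h : i < w.length), x i = w[i]} =
      ⋂ (i : ℕ) (h : i < w.length), {x : X | x i = w[i]} := by
    ext x
    simp
  rw [this]
  refine MeasurableSet.iInter fun i => MeasurableSet.iInter fun h => ?_
  have h1 : Measurable fun x : X => x (i : ℤ) := measurable_pi_apply (i : ℤ)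
  exact h1 (measurableSet_singleton (w[i]))

open Classical in
/-- The number of translates in a set. -/
noncomputable def cnt (N : ℕ) (x : X) (A : Set X) : ℕ :=
  ((Finset.range N).filter fun i => shift^[i] x ∈ A).card

theorem cnt_le (N : ℕ) (x : X) (A : Set X) : cnt N x A ≤ N := by
  classical
  unfold cnt
  exact (Finset.card_filter_le _ _).trans (by simp)

theorem cnt_preimage (N : ℕ) (x : X) (A : Set X) (m : ℕ) :
    cnt N x (F^[m] ⁻¹' A) = cnt N (F^[m] x) A := by
  classical
  unfold cnt
  congr 1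
  refine Finset.filter_congr fun i _ => ?_
  rw [Set.mem_preimage, Fit_shiftit]

theorem shiftit_per {N : ℕ} {x : X} (h : Per N x) : shift^[N] x = x := by
  funext i
  rw [shift_apply]
  exact h i

theorem cnt_eq_sum (N : ℕ) (x : X) (A : Set X) : cnt N x A =
    ∑ i ∈ Finset.range N, (A.indicator (fun _ => 1) (shift^[i] x) : ℕ) := by
  classical
  unfold cnt
  rw [Finset.card_filter]
  refine Finset.sum_congr rfl fun i _ => ?_
  simp [Set.indicator]

theorem cnt_shift {N : ℕ} {x : X} (h : Per N x) (A : Set X) : cnt N (shift x) A = cnt N x A := by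
  rw [cnt_eq_sum, cnt_eq_sum]
  have h1 := Finset.sum_range_succ (fun i : ℕ => (A.indicator (fun _ => 1) (shift^[i] x) : ℕ)) N
  have h2 := Finset.sum_range_succ' (fun i : ℕ => (A.indicator (fun _ => 1) (shift^[i] x) : ℕ)) N
  rw [shiftit_per h] at h1
  simp only [Function.iterate_zero, id_eq, Function.iterate_succ_apply] at h1 h2
  omega

theorem cnt_preimage_shift {N : ℕ} {x : X} (h : Per N x) (A : Set X) :
    cnt N x (shift ⁻¹' A) = cnt N x A := by
  rw [← cnt_shift h A]
  classical
  unfold cnt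
  congr 1
  refine Finset.filter_congr fun i _ => ?_
  rw [Set.mem_preimage, ← Function.iterate_succ_apply' shift, Function.iterate_succ_apply]

theorem per_shiftit {N : ℕ} {x : X} (h : Per N x) (e : ℕ) : Per N (shift^[e] x) := by
  induction e with
  | zero => exact h
  | succ e ih => rw [Function.iterate_succ_apply']; exact per_shift ih

theorem cnt_shiftit {N : ℕ} {x : X} (h : Per N x) (e : ℕ) (A : Set X) :
    cnt N (shift^[e] x) A = cnt N x A := by
  induction e with
  | zero => rfl
  | succ e ih => rw [Function.iterate_succ_apply', cnt_shift (per_shiftit h e), ih]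

theorem cnt_row (b m q : ℕ) (A : Set X) : cnt (3 * 2 ^ b) (F^[m + 2 ^ b * q] (xs b)) A =
    cnt (3 * 2 ^ b) (F^[m] (xs b)) A := by
  rw [Function.iterate_add_apply, Fit_xs, Fit_shiftit, cnt_shiftit (per_Fit (per_xs b) m)]

/-- The uniform measure on the translates. -/
noncomputable def orb (N : ℕ) (x : X) : Measure X :=
  (N : ENNReal)⁻¹ • ∑ i ∈ Finset.range N, Measure.dirac (shift^[i] x)

theorem orb_apply {N : ℕ} {x : X} {A : Set X} (hA : MeasurableSet A) :
    orb N x A = (N : ENNReal)⁻¹ * (cnt N x A : ENNReal) := by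
  unfold orb
  rw [Measure.smul_apply, Measure.finsetSum_apply, smul_eq_mul, cnt_eq_sum]
  congr 1
  push_cast
  refine Finset.sum_congr rfl fun i _ => ?_
  rw [Measure.dirac_apply' _ hA]
  by_cases h : shift^[i] x ∈ A
  · simp [Set.indicator, h]
  · simp [Set.indicator, h]

/-- The weights. -/
noncomputable def wt (n : ℕ) : ℝ := 2 / 3 ^ (n + 1)

theorem wt_nonneg (n : ℕ) : 0 ≤ wt n := by unfold wt; positivity

theorem hasSum_wt : HasSum wt 1 := by
  have h := (hasSum_geometric_of_lt_one (show (0 : ℝ) ≤ 1 / 3 by norm_num) (by norm_num)).mul_left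
    (2 / 3)
  have e : wt = fun n => 2 / 3 * (1 / 3 : ℝ) ^ n := by
    funext n
    unfold wt
    rw [one_div, inv_pow, pow_succ]
    field_simp
  rw [e]
  have e2 : (2 / 3 * (1 - 1 / 3)⁻¹ : ℝ) = 1 := by norm_num
  rw [e2] at h
  exact h

theorem sum_wt_tail (k : ℕ) : ∑' n, wt (n + k) = (1 / 3) ^ k := by
  have e : (fun n => wt (n + k)) = fun n => (1 / 3 : ℝ) ^ k * wt n := by
    funext n
    unfold wt
    rw [one_div, inv_pow, show n + k + 1 = k + (n + 1) by ring, pow_add]
    field_simp
  rw [e, tsum_mul_left, hasSum_wt.tsum_eq, mul_one]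

/-- The mixture. -/
noncomputable def mix (P : ℕ → ℕ) (y : ℕ → X) : Measure X :=
  Measure.sum fun n => ENNReal.ofReal (wt n) • orb (P n) (y n)

theorem mix_apply {P : ℕ → ℕ} {y : ℕ → X} {A : Set X} (hA : MeasurableSet A) :
    mix P y A = ∑' n, ENNReal.ofReal (wt n) * ((P n : ENNReal)⁻¹ * (cnt (P n) (y n) A : ENNReal)) := by
  unfold mix
  rw [Measure.sum_apply _ hA]
  refine tsum_congr fun n => ?_
  rw [Measure.smul_apply, smul_eq_mul, orb_apply hA]

theorem mix_real {P : ℕ → ℕ} (hP : ∀ n, P n ≠ 0) {y : ℕ → X} {A : Set X} (hA : MeasurableSet A) :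
    (mix P y).real A = ∑' n, wt n * ((cnt (P n) (y n) A : ℝ) / P n) := by
  rw [measureReal_def, mix_apply hA, ENNReal.tsum_toReal_eq]
  · refine tsum_congr fun n => ?_
    rw [ENNReal.toReal_mul, ENNReal.toReal_mul, ENNReal.toReal_ofReal (wt_nonneg n),
      ENNReal.toReal_inv, ENNReal.toReal_natCast, ENNReal.toReal_natCast]
    ring
  · intro n
    have : ((P n : ENNReal))⁻¹ ≠ ⊤ := by
      rw [Ne, ENNReal.inv_eq_top, Nat.cast_eq_zero]
      exact hP n
    exact ENNReal.mul_ne_top ENNReal.ofReal_ne_top (ENNReal.mul_ne_top this (ENNReal.natCast_ne_top _))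

theorem cnt_univ (N : ℕ) (x : X) : cnt N x Set.univ = N := by
  rw [cnt_eq_sum]
  simp

theorem mix_prob {P : ℕ → ℕ} (hP : ∀ n, P n ≠ 0) (y : ℕ → X) : IsProbabilityMeasure (mix P y) := by
  constructor
  rw [mix_apply MeasurableSet.univ]
  have : ∀ n, ENNReal.ofReal (wt n) * ((P n : ENNReal)⁻¹ * (cnt (P n) (y n) Set.univ : ENNReal)) =
      ENNReal.ofReal (wt n) := by
    intro n
    rw [cnt_univ, ENNReal.inv_mul_cancel (by exact_mod_cast hP n) (ENNReal.natCast_ne_top _),
      mul_one]
  simp_rw [this]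
  rw [← ENNReal.ofReal_tsum_of_nonneg wt_nonneg hasSum_wt.summable, hasSum_wt.tsum_eq,
    ENNReal.ofReal_one]

theorem mix_shift {P : ℕ → ℕ} {y : ℕ → X} (hy : ∀ n, Per (P n) (y n)) :
    ShiftInvariant (mix P y) := by
  unfold ShiftInvariant
  refine Measure.ext fun A hA => ?_
  rw [Measure.map_apply measurable_shift hA, mix_apply (measurable_shift hA), mix_apply hA]
  refine tsum_congr fun n => ?_
  rw [cnt_preimage_shift (hy n)]

theorem mix_map_real {P : ℕ → ℕ} (hP : ∀ n, P n ≠ 0) (y : ℕ → X) {A : Set X}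
    (hA : MeasurableSet A) (m : ℕ) : ((mix P y).map (F^[m])).real A =
      ∑' n, wt n * ((cnt (P n) (F^[m] (y n)) A : ℝ) / P n) := by
  rw [measureReal_def, Measure.map_apply (measurable_Fit m) hA, ← measureReal_def,
    mix_real hP (measurable_Fit m hA)]
  refine tsum_congr fun n => ?_
  rw [cnt_preimage]

theorem term_le {N : ℕ} (hN : N ≠ 0) (n : ℕ) (x : X) (A : Set X) :
    0 ≤ wt n * ((cnt N x A : ℝ) / N) ∧ wt n * ((cnt N x A : ℝ) / N) ≤ wt n := by
  have h1 : (0 : ℝ) < N := by exact_mod_cast Nat.pos_of_ne_zero hN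
  have h2 : (cnt N x A : ℝ) / N ≤ 1 := by
    rw [div_le_one h1]
    exact_mod_cast cnt_le N x A
  constructor
  · exact mul_nonneg (wt_nonneg n) (by positivity)
  · calc wt n * ((cnt N x A : ℝ) / N) ≤ wt n * 1 := by
          exact mul_le_mul_of_nonneg_left h2 (wt_nonneg n)
      _ = wt n := mul_one _

theorem summable_term {P : ℕ → ℕ} (hP : ∀ n, P n ≠ 0) (y : ℕ → X) (A : Set X) :
    Summable fun n => wt n * ((cnt (P n) (y n) A : ℝ) / P n) :=
  Summable.of_nonneg_of_le (fun n => (term_le (hP n) n _ _).1) (fun n => (term_le (hP n) n _ _).2)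
    hasSum_wt.summable

end Pool.Agent.Q325.XorCA
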