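import Pool.Agent.Q325.XorLim

/-!
# Computability of the mixtures, and a limit set which is not computable
-/

set_option autoImplicit false

open MeasureTheory Filter Topology

namespace Pool.Agent.Q325.XorCA

theorem primrec_sumr {α : Type} [Primcodable α] {f : α → ℕ → ℕ} {g : α → ℕ} (hf : Primrec₂ f)
    (hg : Primrec g) : Primrec fun a => ∑ i ∈ Finset.range (g a), f a i := by
  have h : Primrec fun a => (Nat.rec (motive := fun _ => ℕ) 0 (fun i acc => acc + f a i) (g a) : ℕ) :=
    Primrec.nat_rec' (h := fun a p => p.2 + f a p.1) hg (Primrec.const 0)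
      (Primrec.nat_add.comp (Primrec.snd.comp Primrec.snd)
        (hf.comp Primrec.fst (Primrec.fst.comp Primrec.snd)))
  refine h.of_eq fun a => ?_
  induction g a with
  | zero => rfl
  | succ n ih => rw [Finset.sum_range_succ, ← ih]

theorem primrec_pow : Primrec₂ (fun a b : ℕ => a ^ b) := Primrec₂.unpaired'.1 Nat.Primrec.pow

/-- The entries of the sequence at natural positions. -/
theorem xs_nat (b : ℕ) : ∀ i : ℕ, xs b (i : ℤ) = (decide (i % 2 ^ b = 0) && decide (i / 2 ^ b % 3 ≠ 0)) := by
  induction b with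
  | zero =>
    intro i
    show decide ((i : ℤ) % 3 ≠ 0) = _
    rw [pow_zero, Nat.mod_one, Nat.div_one]
    simp only [decide_true, Bool.true_and]
    congr 1
    apply propext
    constructor <;> intro h <;> omega
  | succ b ih =>
    intro i
    show dbl (xs b) (i : ℤ) = _
    have e1 : i / 2 ^ (b + 1) = i / 2 / 2 ^ b := by
      rw [Nat.div_div_eq_div_mul, pow_succ, mul_comm]
    have e2 : i % 2 ^ (b + 1) = i % 2 + 2 * (i / 2 % 2 ^ b) := by
      rw [pow_succ, mul_comm, Nat.mod_mul]
    by_cases h : i % 2 = 0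
    · rw [dbl_pos (by omega), show (i : ℤ) / 2 = ((i / 2 : ℕ) : ℤ) by omega, ih, e1, e2, h]
      congr 1
      congr 1
      apply propext
      constructor <;> intro h <;> omega
    · rw [dbl_neg (by omega), decide_eq_false (p := i % 2 ^ (b + 1) = 0) (by omega), Bool.false_and]

/-- The data of a mixture. -/
structure Fam where
  /-- which components are present -/
  h : ℕ → Bool
  /-- the indices of the sequences -/
  β : ℕ → ℕ
  ph : Primrec h
  pβ : Primrec β
  le : ∀ n, β n ≤ n

namespace Fam

variable (D : Fam)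

/-- The periods. -/
def P (n : ℕ) : ℕ := 3 * 2 ^ D.β n

/-- The sequences. -/
def y (n : ℕ) : X := if D.h n then xs (D.β n) else fun _ => false

/-- The measure. -/
noncomputable def mu : Measure X := mix D.P D.y

theorem P_ne (n : ℕ) : D.P n ≠ 0 := by
  unfold P
  positivity

theorem per_y (n : ℕ) : Per (D.P n) (D.y n) := by
  unfold y P
  split_ifs
  · exact per_xs _
  · intro i
    rfl

/-- The entries at natural positions. -/
def val (n i : ℕ) : Bool :=
  D.h n && (decide (i % 2 ^ D.β n = 0) && decide (i / 2 ^ D.β n % 3 ≠ 0))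

theorem y_nat (n i : ℕ) : D.y n (i : ℤ) = D.val n i := by
  unfold y val
  cases hn : D.h n
  · simp
  · simp [xs_nat]

theorem primrec_val : Primrec₂ D.val := by
  have hp : Primrec fun p : ℕ × ℕ => 2 ^ D.β p.1 :=
    primrec_pow.comp (Primrec.const 2) (D.pβ.comp Primrec.fst)
  refine Primrec.and.comp (D.ph.comp Primrec.fst) (Primrec.and.comp ?_ ?_)
  · exact Primrec.eq.decide.comp (Primrec.nat_mod.comp Primrec.snd hp) (Primrec.const 0)
  · exact (Primrec.eq.comp (Primrec.nat_mod.comp (Primrec.nat_div.comp Primrec.snd hp)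
      (Primrec.const 3)) (Primrec.const 0)).not.decide

/-- The number of differences. -/
def mis (w : List Bool) (n i : ℕ) : ℕ :=
  ∑ j ∈ Finset.range w.length, if D.val n (i + j) = w.getD j false then 0 else 1

theorem primrec_mis : Primrec fun p : List Bool × ℕ × ℕ => D.mis p.1 p.2.1 p.2.2 := by
  refine primrec_sumr (f := fun (p : List Bool × ℕ × ℕ) j =>
    if D.val p.2.1 (p.2.2 + j) = p.1.getD j false then 0 else 1) ?_
    (Primrec.list_length.comp Primrec.fst)
  refine Primrec.ite ?_ (Primrec.const 0) (Primrec.const 1)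
  refine Primrec.eq.comp ?_ ?_
  · exact D.primrec_val.comp (Primrec.fst.comp (Primrec.snd.comp Primrec.fst))
      (Primrec.nat_add.comp (Primrec.snd.comp (Primrec.snd.comp Primrec.fst)) Primrec.snd)
  · exact (Primrec.list_getD false).comp (Primrec.fst.comp Primrec.fst) Primrec.snd

theorem mis_eq_zero (w : List Bool) (n i : ℕ) : D.mis w n i = 0 ↔ shift^[i] (D.y n) ∈ cyl w := by
  unfold mis cyl
  rw [Finset.sum_eq_zero_iff]
  simp only [Finset.mem_range, Set.mem_setOf_eq]
  constructor
  · intro h j hj
    have h1 := h j hj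
    rw [shift_apply, show (j : ℤ) + (i : ℤ) = ((i + j : ℕ) : ℤ) by push_cast; ring, y_nat]
    rw [List.getD_eq_getElem _ _ hj] at h1
    by_contra hne
    rw [if_neg hne] at h1
    exact absurd h1 one_ne_zero
  · intro h j hj
    have h1 := h j hj
    rw [shift_apply, show (j : ℤ) + (i : ℤ) = ((i + j : ℕ) : ℤ) by push_cast; ring, y_nat] at h1
    rw [List.getD_eq_getElem _ _ hj, if_pos h1]

/-- The number of occurrences. -/
def occ (w : List Bool) (n : ℕ) : ℕ :=
  ∑ i ∈ Finset.range (D.P n), if D.mis w n i = 0 then 1 else 0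

theorem occ_eq (w : List Bool) (n : ℕ) : D.occ w n = cnt (D.P n) (D.y n) (cyl w) := by
  classical
  unfold occ cnt
  rw [Finset.card_filter]
  refine Finset.sum_congr rfl fun i _ => ?_
  simp only [mis_eq_zero]

theorem primrec_occ : Primrec₂ D.occ := by
  refine primrec_sumr (f := fun (p : List Bool × ℕ) i => if D.mis p.1 p.2 i = 0 then 1 else 0) ?_ ?_
  · refine Primrec.ite (Primrec.eq.comp ?_ (Primrec.const 0)) (Primrec.const 1) (Primrec.const 0)
    exact D.primrec_mis.comp (Primrec.pair (Primrec.fst.comp Primrec.fst)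
      (Primrec.pair (Primrec.snd.comp Primrec.fst) Primrec.snd))
  · exact Primrec.nat_mul.comp (Primrec.const 3)
      (primrec_pow.comp (Primrec.const 2) (D.pβ.comp Primrec.snd))

/-- The numerators. -/
def numer (w : List Bool) (k : ℕ) : ℕ :=
  ∑ n ∈ Finset.range k, 2 * D.occ w n * (3 ^ (k - 1 - n) * 2 ^ (k - D.β n))

/-- The denominators. -/
def denom (_ : List Bool) (k : ℕ) : ℕ := 3 ^ (k + 1) * 2 ^ k

theorem primrec_numer : Primrec₂ D.numer := by
  refine primrec_sumr (f := fun (p : List Bool × ℕ) n =>
    2 * D.occ p.1 n * (3 ^ (p.2 - 1 - n) * 2 ^ (p.2 - D.β n))) ?_ Primrec.snd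
  refine Primrec.nat_mul.comp (Primrec.nat_mul.comp (Primrec.const 2)
    (D.primrec_occ.comp (Primrec.fst.comp Primrec.fst) Primrec.snd)) (Primrec.nat_mul.comp
      (primrec_pow.comp (Primrec.const 3) ?_) (primrec_pow.comp (Primrec.const 2) ?_))
  · exact Primrec.nat_sub.comp (Primrec.nat_sub.comp (Primrec.snd.comp Primrec.fst)
      (Primrec.const 1)) Primrec.snd
  · exact Primrec.nat_sub.comp (Primrec.snd.comp Primrec.fst) (D.pβ.comp Primrec.snd)

theorem primrec_denom : Primrec₂ denom := by
  refine Primrec.nat_mul.comp (primrec_pow.comp (Primrec.const 3)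
    (Primrec.succ.comp Primrec.snd)) (primrec_pow.comp (Primrec.const 2) Primrec.snd)

theorem computable_mu : ComputableMeasure D.mu := by
  refine ⟨D.numer, denom, D.primrec_numer.to_comp, primrec_denom.to_comp, fun w k => ⟨?_, ?_⟩⟩
  · unfold denom
    positivity
  · unfold mu
    rw [mix_real D.P_ne (measurableSet_cyl w),
      ← (summable_term D.P_ne D.y (cyl w)).sum_add_tsum_nat_add k]
    have e : (D.numer w k : ℝ) / (denom w k : ℝ) =
        ∑ n ∈ Finset.range k, wt n * ((cnt (D.P n) (D.y n) (cyl w) : ℝ) / D.P n) := by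
      unfold numer denom
      push_cast
      rw [Finset.sum_div]
      refine Finset.sum_congr rfl fun n hn => ?_
      have hn := Finset.mem_range.1 hn
      have h1 := D.le n
      rw [occ_eq]
      unfold wt P
      push_cast
      have e1 : (3 : ℝ) ^ (k + 1) = 3 ^ (n + 1) * 3 * 3 ^ (k - 1 - n) := by
        rw [show k + 1 = (n + 1) + 1 + (k - 1 - n) by omega, pow_add, pow_succ]
      have e2 : (2 : ℝ) ^ k = 2 ^ D.β n * 2 ^ (k - D.β n) := by
        rw [← pow_add]
        congr 1
        omega
      rw [e1, e2]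
      field_simp
    rw [e, sub_add_eq_sub_sub, sub_self, zero_sub, abs_neg, abs_of_nonneg
      (tsum_nonneg fun n => (term_le (D.P_ne _) _ _ _).1)]
    have h1 : ∑' n, wt (n + k) * ((cnt (D.P (n + k)) (D.y (n + k)) (cyl w) : ℝ) / D.P (n + k)) ≤
        ∑' n, wt (n + k) := by
      refine Summable.tsum_le_tsum (fun n => (term_le (D.P_ne _) _ _ _).2) ?_ ?_
      · exact (summable_nat_add_iff k).2 (summable_term D.P_ne D.y (cyl w))
      · exact (summable_nat_add_iff k).2 hasSum_wt.summable
    rw [sum_wt_tail] at h1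
    refine h1.trans ?_
    exact pow_le_pow_left₀ (by norm_num) (by norm_num) k

theorem prob_mu : IsProbabilityMeasure D.mu := mix_prob D.P_ne _

theorem shift_mu : ShiftInvariant D.mu := mix_shift D.per_y

end Fam

/-- The data for the first question. -/
def fam1 : Fam where
  h := fun _ => true
  β := fun n => n
  ph := Primrec.const true
  pβ := Primrec.id
  le := fun _ => le_rfl

theorem mu_fam1 : fam1.mu = mu1 := rfl

/-- The data for the second question. -/
def fam2 : Fam where
  h := fun n => (Nat.Partrec.Code.evaln n.unpair.2 (Denumerable.ofNat Nat.Partrec.Code n.unpair.1) 0).isSome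
  β := fun n => n.unpair.1
  ph := by
    refine Primrec.option_isSome.comp (Nat.Partrec.Code.primrec_evaln.comp (Primrec.pair
      (Primrec.pair (Primrec.snd.comp Primrec.unpair) ?_) (Primrec.const 0)))
    exact (Primrec.ofNat Nat.Partrec.Code).comp (Primrec.fst.comp Primrec.unpair)
  pβ := Primrec.fst.comp Primrec.unpair
  le := Nat.unpair_left_le

/-- The special word. -/
def word (b : ℕ) : List Bool := (List.range (4 * 2 ^ b + 1)).map fun j =>
  decide (j = 0 ∨ j = 2 ^ b ∨ j = 3 * 2 ^ b ∨ j = 4 * 2 ^ b)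

theorem primrec_word : Primrec word := by
  have hp : Primrec fun b : ℕ => 2 ^ b := primrec_pow.comp (Primrec.const 2) Primrec.id
  refine Primrec.list_map (Primrec.list_range.comp (Primrec.succ.comp
    (Primrec.nat_mul.comp (Primrec.const 4) hp))) ?_
  have hb : Primrec fun p : ℕ × ℕ => 2 ^ p.1 := hp.comp Primrec.fst
  refine PrimrecPred.decide (PrimrecPred.or (Primrec.eq.comp Primrec.snd (Primrec.const 0))
    (PrimrecPred.or (Primrec.eq.comp Primrec.snd hb) (PrimrecPred.or
      (Primrec.eq.comp Primrec.snd (Primrec.nat_mul.comp (Primrec.const 3) hb))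
      (Primrec.eq.comp Primrec.snd (Primrec.nat_mul.comp (Primrec.const 4) hb)))))

theorem mem_cyl_word (b : ℕ) (y : X) (i : ℕ) : shift^[i] y ∈ cyl (word b) ↔ Occ b y i := by
  unfold cyl Occ
  simp only [Set.mem_ofPred_eq, word, List.length_map, List.length_range, List.getElem_map,
    List.getElem_range]
  constructor
  · intro h j hj
    have := h j (by omega)
    rw [shift_apply] at this
    rw [← this, add_comm]
  · intro h j hj
    have := h j (by omega)
    rw [shift_apply, ← this, add_comm]

theorem cnt_word_zero {b N : ℕ} {y : X} (h : ∀ i : ℤ, ¬ Occ b y i) : cnt N y (cyl (word b)) = 0 := by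
  classical
  unfold cnt
  rw [Finset.card_eq_zero, Finset.filter_eq_empty_iff]
  intro i _ hi
  exact h i ((mem_cyl_word b y i).1 hi)

theorem cnt_word_pos {b N : ℕ} (hN : N ≠ 0) {y : X} (hy : Per N y) (h : ∃ i : ℤ, Occ b y i) :
    1 ≤ cnt N y (cyl (word b)) := by
  classical
  obtain ⟨i, hi⟩ := h
  have hN' : (0 : ℤ) < N := by exact_mod_cast Nat.pos_of_ne_zero hN
  have per : ∀ (k : ℕ) (i : ℤ), y (i + k * N) = y i := by
    intro k
    induction k with
    | zero => simp
    | succ k ih =>
      intro i
      rw [show i + ((k + 1 : ℕ) : ℤ) * N = (i + k * N) + N by push_cast; ring, hy, ih]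
  have per' : ∀ (k : ℤ) (i : ℤ), y (i + k * N) = y i := by
    intro k i
    rcases Int.eq_nat_or_neg k with ⟨m, rfl | rfl⟩
    · exact per m i
    · have := per m (i + -(m : ℤ) * N)
      rw [← this]
      congr 1
      ring
  unfold cnt
  rw [Nat.one_le_iff_ne_zero, Finset.card_ne_zero]
  refine ⟨(i % N).toNat, ?_⟩
  have h1 : 0 ≤ i % N := Int.emod_nonneg _ hN'.ne'
  have h2 : i % N < N := Int.emod_lt_of_pos _ hN'
  rw [Finset.mem_filter, Finset.mem_range, mem_cyl_word]
  refine ⟨by omega, fun j hj => ?_⟩
  rw [Int.toNat_of_nonneg h1, ← hi j hj, ← per' (i / N)]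
  congr 1
  have := Int.emod_add_mul_ediv i N
  linarith [mul_comm (i / N) (N : ℤ)]

theorem Fit_false (m : ℕ) : F^[m] (fun _ => false) = fun _ => false := by
  induction m with
  | zero => rfl
  | succ m ih =>
    rw [Function.iterate_succ_apply', ih]
    rfl

theorem not_occ_false (b : ℕ) (i : ℤ) : ¬ Occ b (fun _ => false) i := by
  intro h
  have := h 0 (Nat.zero_le _)
  simp at this

theorem word_mem (b : ℕ) : word b ∈ limitLang fam2.mu ↔ ∃ s, fam2.h (Nat.pair b s) = true := by
  constructor
  · intro hw
    by_contra hc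
    push Not at hc
    apply hw
    have e : ∀ m, (fam2.mu.map (F^[m])).real (cyl (word b)) = 0 := by
      intro m
      unfold Fam.mu
      rw [mix_map_real fam2.P_ne _ (measurableSet_cyl _)]
      have : ∀ n, cnt (fam2.P n) (F^[m] (fam2.y n)) (cyl (word b)) = 0 := by
        intro n
        apply cnt_word_zero
        unfold Fam.y
        split_ifs with hn
        · intro i
          refine not_occ b (fam2.β n) ?_ m i
          intro hb
          apply hc n.unpair.2
          have : Nat.pair b n.unpair.2 = n := by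
            rw [hb]
            exact Nat.pair_unpair n
          rw [this]
          exact hn
        · rw [Fit_false]
          exact not_occ_false b
      simp [this]
    simp_rw [e]
    exact tendsto_const_nhds
  · rintro ⟨s, hs⟩ ht
    have hβ : fam2.β (Nat.pair b s) = b := by
      show (Nat.pair b s).unpair.1 = b
      rw [Nat.unpair_pair]
    have hlow : ∀ q, wt (Nat.pair b s) / (fam2.P (Nat.pair b s)) ≤
        (fam2.mu.map (F^[2 ^ b * q])).real (cyl (word b)) := by
      intro q
      unfold Fam.mu
      rw [mix_map_real fam2.P_ne _ (measurableSet_cyl _)]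
      have h1 := (summable_term fam2.P_ne (fun n => F^[2 ^ b * q] (fam2.y n)) (cyl (word b))).le_tsum
        (Nat.pair b s) (fun n _ => (term_le (fam2.P_ne n) n _ _).1)
      refine le_trans ?_ h1
      have h2 : 1 ≤ cnt (fam2.P (Nat.pair b s)) (F^[2 ^ b * q] (fam2.y (Nat.pair b s)))
          (cyl (word b)) := by
        apply cnt_word_pos (fam2.P_ne _) (per_Fit (fam2.per_y _) _)
        unfold Fam.y
        rw [if_pos hs, hβ]
        exact occ_self b q
      have h3 : (1 : ℝ) ≤ cnt (fam2.P (Nat.pair b s)) (F^[2 ^ b * q] (fam2.y (Nat.pair b s)))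
          (cyl (word b)) := by exact_mod_cast h2
      have h4 : (0 : ℝ) < fam2.P (Nat.pair b s) := by
        exact_mod_cast Nat.pos_of_ne_zero (fam2.P_ne _)
      rw [div_eq_mul_one_div]
      refine mul_le_mul_of_nonneg_left ?_ (wt_nonneg _)
      gcongr
    have hpos : 0 < wt (Nat.pair b s) / (fam2.P (Nat.pair b s)) := by
      have h4 : (0 : ℝ) < fam2.P (Nat.pair b s) := by
        exact_mod_cast Nat.pos_of_ne_zero (fam2.P_ne _)
      unfold wt
      positivity
    have ht2 := ht.comp (tendsto_id.const_mul_atTop' (show 0 < 2 ^ b by positivity))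
    have := ge_of_tendsto' ht2 hlow
    linarith

theorem halt_iff (c : Nat.Partrec.Code) : (c.eval 0).Dom ↔
    word (Encodable.encode c) ∈ limitLang fam2.mu := by
  rw [word_mem]
  have e : ∀ s, fam2.h (Nat.pair (Encodable.encode c) s) =
      (Nat.Partrec.Code.evaln s c 0).isSome := by
    intro s
    show (Nat.Partrec.Code.evaln (Nat.pair (Encodable.encode c) s).unpair.2
      (Denumerable.ofNat Nat.Partrec.Code (Nat.pair (Encodable.encode c) s).unpair.1) 0).isSome = _
    rw [Nat.unpair_pair, Denumerable.ofNat_encode]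
  simp_rw [e]
  rw [Part.dom_iff_mem]
  constructor
  · rintro ⟨x, hx⟩
    obtain ⟨k, hk⟩ := Nat.Partrec.Code.evaln_complete.1 hx
    exact ⟨k, Option.isSome_iff_exists.2 ⟨x, hk⟩⟩
  · rintro ⟨s, hs⟩
    obtain ⟨x, hx⟩ := Option.isSome_iff_exists.1 hs
    exact ⟨x, Nat.Partrec.Code.evaln_complete.2 ⟨s, hx⟩⟩

theorem limitLang_not_computable : ¬ ComputablePred fun w => w ∈ limitLang fam2.mu := by
  intro h
  refine ComputablePred.halting_problem 0 ?_
  obtain ⟨f, hf, hf'⟩ := ComputablePred.computable_iff.1 h
  refine ComputablePred.computable_iff.2 ⟨fun c => f (word (Encodable.encode c)),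
    hf.comp (primrec_word.to_comp.comp Computable.encode), ?_⟩
  funext c
  rw [halt_iff c]
  exact congrFun hf' _

end Pool.Agent.Q325.XorCA
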